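import Mathlib

/-!
# OS-S1 Seq: linear difference equations z_{n+1} = a_n z_n + b_n on Z, bounded solutions

`Inv K a`: for every bounded right hand side there is exactly one bounded solution, and it is bounded by K sup |b|.
`RI K a I`: on the set I of indices the equation has a (not nec. unique) solution operator R that is K-Lipschitz for the
supremum, R 0 = 0.

PROOFS.
* `Inv.lin`: solutions z, z' for b, b' (both bounded): z - z' is a bounded solution for b - b', so by uniqueness it is the solution given by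
  `Inv` for b - b', bounded by K C.
* `Inv.ri`: R b := the unique bounded solution (Classical.choose) if b is bounded, else 0. R 0 = 0 by uniqueness.
* `RI.extF`: (R' b) n := R b n for n ≠ m + 1, (R' b) (m+1) := a m (R b m) + b m. For n in I, n < m: n and n + 1 are ≤ m, unchanged.
  Lipschitz: K C or B K C + C ≤ (B K + 1) C.
* `RI.extB`: (R' b) n := R b n for n ≠ m, (R' b) m := a' (R b (m+1) - b m). For n in I, m < n: n, n+1 ≠ m, unchanged. The
  equation at m: a m (a' (R b (m+1) - b m)) + b m = R b (m+1). Lipschitz: B (K C + C) = B (K + 1) C.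
* `RI.extF_iter`, `RI.extB_iter`: iterate the one step lemmas j times (induction on j); the constant is (fun K => (B+1)*(K+1))^[j] K
  (it dominates K, B K + 1 and B (K+1) when B, K ≥ 0).
* `RI.mono`: restriction to a smaller index set; `RI.congr`: if a = a' on I.
-/

namespace Pool.Agent.Helper55.OS

variable {F : Type} [NormedAddCommGroup F] [NormedSpace ℝ F]

/-- Exactly one bounded solution for every bounded right hand side, with bound `K`. -/
def Inv (K : ℝ) (a : ℤ → F →L[ℝ] F) : Prop :=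
  ∀ (b : ℤ → F) (C : ℝ), (∀ n, ‖b n‖ ≤ C) →
    ∃ z : ℤ → F, (∀ n, ‖z n‖ ≤ K * C) ∧ (∀ n, z (n + 1) = a n (z n) + b n) ∧
      ∀ z' : ℤ → F, (∃ C', ∀ n, ‖z' n‖ ≤ C') → (∀ n, z' (n + 1) = a n (z' n) + b n) → z' = z

/-- Lipschitz solution operator for the equations with index in `I`. -/
def RI (K : ℝ) (a : ℤ → F →L[ℝ] F) (I : Set ℤ) : Prop :=
  ∃ R : (ℤ → F) → (ℤ → F), R 0 = 0 ∧
    (∀ (b b' : ℤ → F) (C : ℝ), (∃ C0, ∀ n, ‖b n‖ ≤ C0) → (∃ C0, ∀ n, ‖b' n‖ ≤ C0) →
      (∀ n, ‖b n - b' n‖ ≤ C) → ∀ n, ‖R b n - R b' n‖ ≤ K * C) ∧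
    ∀ b : ℤ → F, (∃ C0, ∀ n, ‖b n‖ ≤ C0) → ∀ n ∈ I, R b (n + 1) = a n (R b n) + b n

theorem Inv.lin {K : ℝ} {a : ℤ → F →L[ℝ] F} (h : Inv K a) {b b' z z' : ℤ → F} {C : ℝ}
    (hb : ∃ C0, ∀ n, ‖b n‖ ≤ C0) (hb' : ∃ C0, ∀ n, ‖b' n‖ ≤ C0)
    (hz : ∃ C0, ∀ n, ‖z n‖ ≤ C0) (hz' : ∃ C0, ∀ n, ‖z' n‖ ≤ C0)
    (e : ∀ n, z (n + 1) = a n (z n) + b n) (e' : ∀ n, z' (n + 1) = a n (z' n) + b' n)
    (hC : ∀ n, ‖b n - b' n‖ ≤ C) : ∀ n, ‖z n - z' n‖ ≤ K * C := by
  obtain ⟨w, hw1, _, hw3⟩ := h (fun n => b n - b' n) C hC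
  obtain ⟨C1, hC1⟩ := hz
  obtain ⟨C2, hC2⟩ := hz'
  have h1 := hw3 (fun n => z n - z' n) ⟨C1 + C2, fun n =>
    (norm_sub_le _ _).trans (add_le_add (hC1 n) (hC2 n))⟩ (fun n => by
      simp only [e n, e' n, map_sub]
      abel)
  intro n
  have h2 := hw1 n
  rw [← h1] at h2
  exact h2

theorem Inv.ri {K : ℝ} {a : ℤ → F →L[ℝ] F} (h : Inv K a) : RI K a Set.univ := by
  classical
  have hex : ∀ b : ℤ → F, (∃ C0, ∀ n, ‖b n‖ ≤ C0) →
      ∃ z : ℤ → F, (∃ C0, ∀ n, ‖z n‖ ≤ C0) ∧ ∀ n, z (n + 1) = a n (z n) + b n := by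
    rintro b ⟨C0, hC0⟩
    obtain ⟨z, hz1, hz2, _⟩ := h b C0 hC0
    exact ⟨z, ⟨_, hz1⟩, hz2⟩
  choose! R hR1 hR2 using hex
  have h0 : ∃ C0 : ℝ, ∀ n : ℤ, ‖(0 : ℤ → F) n‖ ≤ C0 := ⟨0, fun n => by simp⟩
  refine ⟨R, ?_, ?_, ?_⟩
  · funext n
    have h1 := h.lin h0 h0 (hR1 0 h0) h0 (hR2 0 h0) (fun n => by simp) (C := 0) (fun n => by simp) n
    rw [mul_zero, Pi.zero_apply, sub_zero] at h1
    rw [Pi.zero_apply]
    exact norm_le_zero_iff.1 h1
  · intro b b' C hb hb' hC
    exact h.lin hb hb' (hR1 b hb) (hR1 b' hb') (hR2 b hb) (hR2 b' hb') hC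
  · intro b hb n _
    exact hR2 b hb n

theorem RI.mono {K : ℝ} {a : ℤ → F →L[ℝ] F} {I J : Set ℤ} (h : RI K a I) (hJ : J ⊆ I) : RI K a J := by
  obtain ⟨R, h1, h2, h3⟩ := h
  exact ⟨R, h1, h2, fun b hb n hn => h3 b hb n (hJ hn)⟩

theorem RI.congr {K : ℝ} {a a' : ℤ → F →L[ℝ] F} {I : Set ℤ} (h : RI K a I) (ha : ∀ n ∈ I, a n = a' n) :
    RI K a' I := by
  obtain ⟨R, h1, h2, h3⟩ := h
  exact ⟨R, h1, h2, fun b hb n hn => by rw [← ha n hn]; exact h3 b hb n hn⟩

theorem RI.extF {K B : ℝ} {a : ℤ → F →L[ℝ] F} {I : Set ℤ} (h : RI K a I) (hK : 0 ≤ K) (hB : 0 ≤ B)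
    (m : ℤ) (hm : ∀ n ∈ I, n < m) (ha : ‖a m‖ ≤ B) : RI ((B + 1) * (K + 1)) a (I ∪ {m}) := by
  classical
  obtain ⟨R, h1, h2, h3⟩ := h
  refine ⟨fun b => Function.update (R b) (m + 1) (a m (R b m) + b m), ?_, ?_, ?_⟩
  · simp only [h1]
    funext n
    by_cases hn : n = m + 1
    · subst hn
      simp
    · simp [Function.update_of_ne hn]
  · intro b b' C hb hb' hC n
    have hC0 : 0 ≤ C := (norm_nonneg _).trans (hC 0)
    have hKC : 0 ≤ K * C := mul_nonneg hK hC0
    have hBK : 0 ≤ B * (K * C) := mul_nonneg hB hKC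
    have hBC : 0 ≤ B * C := mul_nonneg hB hC0
    have h4 := h2 b b' C hb hb' hC
    by_cases hn : n = m + 1
    · subst hn
      simp only [Function.update_self]
      have h5 : a m (R b m) + b m - (a m (R b' m) + b' m) = a m (R b m - R b' m) + (b m - b' m) := by
        rw [map_sub]
        abel
      rw [h5]
      have h6 : ‖a m (R b m - R b' m)‖ ≤ B * (K * C) :=
        ((a m).le_opNorm _).trans (mul_le_mul ha (h4 m) (norm_nonneg _) hB)
      have h7 := norm_add_le (a m (R b m - R b' m)) (b m - b' m)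
      have h8 := hC m
      nlinarith
    · simp only [Function.update_of_ne hn]
      have h5 := h4 n
      nlinarith
  · intro b hb n hn
    rcases hn with hn | hn
    · have h4 := hm n hn
      have h5 : n + 1 ≠ m + 1 := by omega
      have h6 : n ≠ m + 1 := by omega
      simp only [Function.update_of_ne h5, Function.update_of_ne h6]
      exact h3 b hb n hn
    · rw [Set.mem_singleton_iff] at hn
      subst hn
      have h6 : n ≠ n + 1 := by omega
      simp only [Function.update_self, Function.update_of_ne h6]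

theorem RI.extB {K B : ℝ} {a : ℤ → F →L[ℝ] F} {I : Set ℤ} (h : RI K a I) (hK : 0 ≤ K) (hB : 0 ≤ B)
    (m : ℤ) (hm : ∀ n ∈ I, m < n) (a' : F →L[ℝ] F) (ha : ∀ v, a m (a' v) = v) (hn : ‖a'‖ ≤ B) :
    RI ((B + 1) * (K + 1)) a (I ∪ {m}) := by
  classical
  obtain ⟨R, h1, h2, h3⟩ := h
  refine ⟨fun b => Function.update (R b) m (a' (R b (m + 1) - b m)), ?_, ?_, ?_⟩
  · simp only [h1]
    funext n
    by_cases hn : n = m
    · subst hn
      simp
    · simp [Function.update_of_ne hn]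
  · intro b b' C hb hb' hC n
    have hC0 : 0 ≤ C := (norm_nonneg _).trans (hC 0)
    have hKC : 0 ≤ K * C := mul_nonneg hK hC0
    have hBK : 0 ≤ B * (K * C) := mul_nonneg hB hKC
    have hBC : 0 ≤ B * C := mul_nonneg hB hC0
    have h4 := h2 b b' C hb hb' hC
    by_cases hn' : n = m
    · subst hn'
      simp only [Function.update_self]
      have h5 : a' (R b (n + 1) - b n) - a' (R b' (n + 1) - b' n) =
          a' ((R b (n + 1) - R b' (n + 1)) - (b n - b' n)) := by
        rw [← map_sub]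
        congr 1
        abel
      rw [h5]
      have h7 := norm_sub_le (R b (n + 1) - R b' (n + 1)) (b n - b' n)
      have h8 := hC n
      have h9 := h4 (n + 1)
      have h6 : ‖a' ((R b (n + 1) - R b' (n + 1)) - (b n - b' n))‖ ≤ B * (K * C + C) :=
        (a'.le_opNorm _).trans (mul_le_mul hn (by linarith) (norm_nonneg _) hB)
      nlinarith
    · simp only [Function.update_of_ne hn']
      have h5 := h4 n
      nlinarith
  · intro b hb n hn'
    rcases hn' with hn' | hn'
    · have h4 := hm n hn'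
      have h5 : n + 1 ≠ m := by omega
      have h6 : n ≠ m := by omega
      simp only [Function.update_of_ne h5, Function.update_of_ne h6]
      exact h3 b hb n hn'
    · rw [Set.mem_singleton_iff] at hn'
      subst hn'
      have h6 : n + 1 ≠ n := by omega
      simp only [Function.update_self, Function.update_of_ne h6, ha]
      abel

private theorem it_nonneg {K B : ℝ} (hK : 0 ≤ K) (hB : 0 ≤ B) (j : ℕ) :
    0 ≤ (fun K => (B + 1) * (K + 1))^[j] K := by
  induction j with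
  | zero => exact hK
  | succ j ih =>
    rw [Function.iterate_succ_apply']
    positivity

theorem RI.extF_iter {K B : ℝ} {a : ℤ → F →L[ℝ] F} {I : Set ℤ} (h : RI K a I) (hK : 0 ≤ K) (hB : 0 ≤ B)
    (m : ℤ) (hm : ∀ n ∈ I, n < m) (j : ℕ) (ha : ∀ n, m ≤ n → n < m + j → ‖a n‖ ≤ B) :
    RI ((fun K => (B + 1) * (K + 1))^[j] K) a (I ∪ Set.Ico m (m + j)) := by
  induction j with
  | zero =>
    refine h.mono ?_
    intro n hn
    rcases hn with hn | hn
    · exact hn
    · rw [Set.mem_Ico] at hn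
      push_cast at hn
      omega
  | succ j ih =>
    have h1 := ih (fun n hn1 hn2 => ha n hn1 (by push_cast; omega))
    rw [Function.iterate_succ_apply']
    refine (h1.extF (it_nonneg hK hB j) hB (m + j) ?_ (ha _ (by omega) (by push_cast; omega))).mono ?_
    · intro n hn
      rcases hn with hn | hn
      · have := hm n hn
        omega
      · rw [Set.mem_Ico] at hn
        omega
    · intro n hn
      rcases hn with hn | hn
      · exact Or.inl (Or.inl hn)
      · rw [Set.mem_Ico] at hn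
        push_cast at hn
        rcases lt_or_ge n (m + j) with h2 | h2
        · exact Or.inl (Or.inr (Set.mem_Ico.2 ⟨hn.1, h2⟩))
        · refine Or.inr ?_
          rw [Set.mem_singleton_iff]
          omega

theorem RI.extB_iter {K B : ℝ} {a : ℤ → F →L[ℝ] F} {I : Set ℤ} (h : RI K a I) (hK : 0 ≤ K) (hB : 0 ≤ B)
    (m : ℤ) (hm : ∀ n ∈ I, m ≤ n) (j : ℕ)
    (ha : ∀ n, m - j ≤ n → n < m → ∃ a' : F →L[ℝ] F, (∀ v, a n (a' v) = v) ∧ ‖a'‖ ≤ B) :
    RI ((fun K => (B + 1) * (K + 1))^[j] K) a (I ∪ Set.Ico (m - j) m) := by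
  induction j with
  | zero =>
    refine h.mono ?_
    intro n hn
    rcases hn with hn | hn
    · exact hn
    · rw [Set.mem_Ico] at hn
      push_cast at hn
      omega
  | succ j ih =>
    have h1 := ih (fun n hn1 hn2 => ha n (by push_cast; omega) hn2)
    rw [Function.iterate_succ_apply']
    obtain ⟨a', ha1, ha2⟩ := ha (m - (j + 1)) (by push_cast; omega) (by omega)
    refine (h1.extB (it_nonneg hK hB j) hB (m - (j + 1)) ?_ a' ha1 ha2).mono ?_
    · intro n hn
      rcases hn with hn | hn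
      · have := hm n hn
        omega
      · rw [Set.mem_Ico] at hn
        omega
    · intro n hn
      rcases hn with hn | hn
      · exact Or.inl (Or.inl hn)
      · rw [Set.mem_Ico] at hn
        push_cast at hn
        rcases lt_or_ge n (m - j) with h2 | h2
        · refine Or.inr ?_
          rw [Set.mem_singleton_iff]
          omega
        · exact Or.inl (Or.inr (Set.mem_Ico.2 ⟨h2, hn.2⟩))

end Pool.Agent.Helper55.OS
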