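import Pool.Agent.Helper55.OS.Defs
import Pool.Agent.Helper55.OS.Seq

/-!
# OS-A1 Atlas: a finite atlas with margins

`reg c s`: the points of the chart at `c` whose coordinates are in the closed ball of radius `s` around the coordinates of `c`.
`Atl`: a finite set C of centres, radii rad c > 0 with closedBall(φ_c(c), 3 rad c) in the chart, such that every point y is in
reg (ch y) (rad (ch y)), ch y in C.

PROOFS.
* `exists_atl`: for each c the target of extChartAt c is an open neighbourhood of φ_c(c) (boundaryless model: `isOpen_extChartAt_target`), so contains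
  closedBall (φ_c c) (3 r_c), r_c > 0. The sets φ_c⁻¹(ball (φ_c c) r_c) cap source are open and contain c: finitely many cover M. rad := r,
  C := the finite set, ch := choice.
* `reg_compact`: reg c s = φ_c.symm '' closedBall (φ_c c) s for s ≤ 3 rad c: image of a compact set under a continuous map.
* `coord_close` (U2): for every ρ > 0 there is δ > 0 such that for c in C, y in reg c (2 rad c), |ζ| ≤ δ: φ_c y + ζ in the target
  (inside closedBall (φ_c c) (3 rad c)) and dist (φ_c.symm (φ_c y + ζ)) y ≤ ρ: uniform continuity of φ_c.symm on the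
  compact set closedBall (φ_c c) (3 rad c), finitely many c.
* `coord_close'` (U2'): for every ρ > 0 there is δ > 0 such that for c in C, y in reg c (2 rad c), z with dist z y < δ: z in the source of φ_c
  and |φ_c z - φ_c y| ≤ ρ (so z in reg c (2 rad c + ρ)). Proof: otherwise sequences y_k → y* in reg c (2 rad c) (compact), z_k with
  dist z_k y_k → 0, so z_k → y*, in the open source for large k, and φ_c is continuous there: contradiction.
-/

open Set Topology Manifold ContDiff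

namespace Pool.Agent.Helper55.OS

variable {d : ℕ} {M : Type} [MetricSpace M] [ChartedSpace (E d) M]

/-- Points of the chart at `c` with coordinates at distance at most `s` from those of `c`. -/
def reg (d : ℕ) {M : Type} [MetricSpace M] [ChartedSpace (E d) M] (c : M) (s : ℝ) : Set M :=
  {y | y ∈ (extChartAt (𝓡 d) c).source ∧
    extChartAt (𝓡 d) c y ∈ Metric.closedBall (extChartAt (𝓡 d) c c) s}

/-- A finite atlas with margins. -/
structure Atl (d : ℕ) (M : Type) [MetricSpace M] [ChartedSpace (E d) M] where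
  C : Finset M
  rad : M → ℝ
  ch : M → M
  pos : ∀ c ∈ C, 0 < rad c
  big : ∀ c ∈ C, Metric.closedBall (extChartAt (𝓡 d) c c) (3 * rad c) ⊆ (extChartAt (𝓡 d) c).target
  ch_mem : ∀ y, ch y ∈ C
  ch_reg : ∀ y, y ∈ reg d (ch y) (rad (ch y))

/-- The derivative of `f` at `y` read in the charts at `c` and `c'`. -/
noncomputable def Aop (f : Dif d M) (c c' y : M) : E d →L[ℝ] E d :=
  fderiv ℝ (fun w => extChartAt (𝓡 d) c' (f ((extChartAt (𝓡 d) c).symm w))) (extChartAt (𝓡 d) c y)

/-- `c` is an admissible sequence of charts for the sequence `y`. -/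
def Adm (A : Atl d M) (y c : ℤ → M) : Prop :=
  ∀ n, c n ∈ A.C ∧ y n ∈ reg d (c n) (2 * A.rad (c n))

/-- `Λ` is hyperbolic in the operator sense: along all orbits in `Λ`, for all admissible charts, `Inv K`. -/
def OpHyp (A : Atl d M) (f : Dif d M) (Λ : Set M) (K : ℝ) : Prop :=
  ∀ y c : ℤ → M, (∀ n, y n ∈ Λ) → (∀ n, y (n + 1) = f (y n)) → Adm A y c →
    Inv K (fun n => Aop f (c n) (c (n + 1)) (y n))

private theorem at_fin {X : Type} (C : Finset X) (P : X → ℝ → Prop)
    (hP : ∀ c ∈ C, ∃ δ : ℝ, 0 < δ ∧ P c δ) (hm : ∀ c, ∀ δ δ' : ℝ, δ' ≤ δ → P c δ → P c δ') :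
    ∃ δ : ℝ, 0 < δ ∧ ∀ c ∈ C, P c δ := by
  classical
  induction C using Finset.induction_on with
  | empty => exact ⟨1, one_pos, fun c hc => absurd hc (Finset.notMem_empty c)⟩
  | insert a C _ ih =>
    obtain ⟨δ1, h1, h2⟩ := ih fun c hc => hP c (Finset.mem_insert_of_mem hc)
    obtain ⟨δ2, h3, h4⟩ := hP a (Finset.mem_insert_self a C)
    refine ⟨min δ1 δ2, lt_min h1 h3, fun c hc => ?_⟩
    rcases Finset.mem_insert.1 hc with rfl | hc
    · exact hm c δ2 _ (min_le_right _ _) h4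
    · exact hm c δ1 _ (min_le_left _ _) (h2 c hc)

theorem exists_atl [CompactSpace M] : Nonempty (Atl d M) := by
  classical
  have h1 : ∀ c : M, ∃ r : ℝ, 0 < r ∧
      Metric.closedBall (extChartAt (𝓡 d) c c) (3 * r) ⊆ (extChartAt (𝓡 d) c).target := by
    intro c
    obtain ⟨ε, hε, h⟩ := Metric.nhds_basis_closedBall.mem_iff.1
      (extChartAt_target_mem_nhds (I := 𝓡 d) c)
    refine ⟨ε / 3, by positivity, ?_⟩
    have e : 3 * (ε / 3) = ε := by ring
    rw [e]
    exact h
  choose rad hpos hbig using h1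
  have hopen : ∀ c : M, (extChartAt (𝓡 d) c).source ∩
      (extChartAt (𝓡 d) c) ⁻¹' Metric.ball (extChartAt (𝓡 d) c c) (rad c) ∈ 𝓝 c := by
    intro c
    refine IsOpen.mem_nhds ((continuousOn_extChartAt c).isOpen_inter_preimage
      (isOpen_extChartAt_source c) Metric.isOpen_ball) ?_
    exact ⟨mem_extChartAt_source c, Metric.mem_ball_self (hpos c)⟩
  obtain ⟨t, -, ht⟩ := isCompact_univ.elim_nhds_subcover _ (fun c _ => hopen c)
  have h2 : ∀ y : M, ∃ c ∈ t, y ∈ reg d c (rad c) := by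
    intro y
    have h3 := ht (mem_univ y)
    simp only [mem_iUnion] at h3
    obtain ⟨c, hc, h4, h5⟩ := h3
    exact ⟨c, hc, h4, Metric.ball_subset_closedBall h5⟩
  choose ch hch1 hch2 using h2
  exact ⟨⟨t, rad, ch, fun c _ => hpos c, fun c _ => hbig c, hch1, hch2⟩⟩

theorem reg_compact [CompactSpace M] (A : Atl d M) {c : M} (hc : c ∈ A.C) {s : ℝ}
    (hs : s ≤ 3 * A.rad c) : IsCompact (reg d c s) := by
  have hsub : Metric.closedBall (extChartAt (𝓡 d) c c) s ⊆ (extChartAt (𝓡 d) c).target :=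
    (Metric.closedBall_subset_closedBall hs).trans (A.big c hc)
  have h1 : reg d c s =
      (extChartAt (𝓡 d) c).symm '' Metric.closedBall (extChartAt (𝓡 d) c c) s := by
    ext y
    constructor
    · rintro ⟨h1, h2⟩
      exact ⟨_, h2, (extChartAt (𝓡 d) c).left_inv h1⟩
    · rintro ⟨w, hw, rfl⟩
      refine ⟨(extChartAt (𝓡 d) c).map_target (hsub hw), ?_⟩
      rw [(extChartAt (𝓡 d) c).right_inv (hsub hw)]
      exact hw
  rw [h1]
  exact (isCompact_closedBall _ _).image_of_continuousOn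
    ((continuousOn_extChartAt_symm c).mono hsub)

theorem coord_close [CompactSpace M] (A : Atl d M) (ρ : ℝ) (hρ : 0 < ρ) :
    ∃ δ : ℝ, 0 < δ ∧ ∀ c ∈ A.C, ∀ y ∈ reg d c (2 * A.rad c), ∀ ζ : E d, ‖ζ‖ ≤ δ →
      extChartAt (𝓡 d) c y + ζ ∈ Metric.closedBall (extChartAt (𝓡 d) c c) (3 * A.rad c) ∧
      dist ((extChartAt (𝓡 d) c).symm (extChartAt (𝓡 d) c y + ζ)) y ≤ ρ := by
  refine at_fin A.C (fun c δ => ∀ y ∈ reg d c (2 * A.rad c), ∀ ζ : E d, ‖ζ‖ ≤ δ →
      extChartAt (𝓡 d) c y + ζ ∈ Metric.closedBall (extChartAt (𝓡 d) c c) (3 * A.rad c) ∧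
      dist ((extChartAt (𝓡 d) c).symm (extChartAt (𝓡 d) c y + ζ)) y ≤ ρ) ?_ ?_
  · intro c hc
    have hr := A.pos c hc
    have hu := (isCompact_closedBall (extChartAt (𝓡 d) c c)
      (3 * A.rad c)).uniformContinuousOn_of_continuous
      ((continuousOn_extChartAt_symm (I := 𝓡 d) c).mono (A.big c hc))
    rw [Metric.uniformContinuousOn_iff] at hu
    obtain ⟨δ, hδ, h1⟩ := hu ρ hρ
    refine ⟨min (δ / 2) (A.rad c), lt_min (by positivity) hr, fun y hy ζ hζ => ?_⟩
    have hζ1 : ‖ζ‖ ≤ δ / 2 := hζ.trans (min_le_left _ _)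
    have hζ2 : ‖ζ‖ ≤ A.rad c := hζ.trans (min_le_right _ _)
    have h2 : dist (extChartAt (𝓡 d) c y) (extChartAt (𝓡 d) c c) ≤ 2 * A.rad c :=
      Metric.mem_closedBall.1 hy.2
    have h3 : dist (extChartAt (𝓡 d) c y + ζ) (extChartAt (𝓡 d) c y) = ‖ζ‖ := by
      rw [dist_eq_norm, add_sub_cancel_left]
    have h4 : extChartAt (𝓡 d) c y + ζ ∈
        Metric.closedBall (extChartAt (𝓡 d) c c) (3 * A.rad c) := by
      rw [Metric.mem_closedBall]
      have h5 := dist_triangle (extChartAt (𝓡 d) c y + ζ) (extChartAt (𝓡 d) c y)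
        (extChartAt (𝓡 d) c c)
      linarith
    have h5 : extChartAt (𝓡 d) c y ∈
        Metric.closedBall (extChartAt (𝓡 d) c c) (3 * A.rad c) := by
      rw [Metric.mem_closedBall]
      linarith
    refine ⟨h4, ?_⟩
    have h6 := h1 _ h4 _ h5 (by rw [h3]; linarith)
    rw [(extChartAt (𝓡 d) c).left_inv hy.1] at h6
    exact h6.le
  · intro c δ δ' hδ h y hy ζ hζ
    exact h y hy ζ (hζ.trans hδ)

theorem coord_close' [CompactSpace M] (A : Atl d M) (ρ : ℝ) (hρ : 0 < ρ) :
    ∃ δ : ℝ, 0 < δ ∧ ∀ c ∈ A.C, ∀ y ∈ reg d c (2 * A.rad c), ∀ z : M, dist z y < δ →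
      z ∈ (extChartAt (𝓡 d) c).source ∧ ‖extChartAt (𝓡 d) c z - extChartAt (𝓡 d) c y‖ ≤ ρ := by
  refine at_fin A.C (fun c δ => ∀ y ∈ reg d c (2 * A.rad c), ∀ z : M, dist z y < δ →
      z ∈ (extChartAt (𝓡 d) c).source ∧
        ‖extChartAt (𝓡 d) c z - extChartAt (𝓡 d) c y‖ ≤ ρ) ?_ ?_
  · intro c hc
    have hr := A.pos c hc
    have hK : IsCompact (reg d c (2 * A.rad c)) := reg_compact A hc (by linarith)
    obtain ⟨δ1, hδ1, h1⟩ := hK.exists_cthickening_subset_open
      (isOpen_extChartAt_source (I := 𝓡 d) c) (fun y hy => hy.1)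
    have h2 := hK.uniformContinuousAt_of_continuousAt (extChartAt (𝓡 d) c)
      (fun a ha => (continuousOn_extChartAt c).continuousAt
        ((isOpen_extChartAt_source c).mem_nhds ha.1)) (Metric.dist_mem_uniformity hρ)
    obtain ⟨δ2, hδ2, h3⟩ := Metric.mem_uniformity_dist.1 h2
    refine ⟨min δ1 δ2, lt_min hδ1 hδ2, fun y hy z hz => ⟨?_, ?_⟩⟩
    · apply h1
      exact Metric.mem_cthickening_of_dist_le z y δ1 _ hy (hz.le.trans (min_le_left _ _))
    · have h4 : dist y z < δ2 := by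
        rw [dist_comm]
        exact hz.trans_le (min_le_right _ _)
      have h5 : dist (extChartAt (𝓡 d) c y) (extChartAt (𝓡 d) c z) < ρ := h3 h4 hy
      rw [← dist_eq_norm, dist_comm]
      exact h5.le
  · intro c δ δ' hδ h y hy z hz
    exact h y hy z (hz.trans_le hδ)

/-- If `y` is in `reg c (rad c)` then all points close to `y` are in `reg c (2 rad c)`. -/
theorem near_reg [CompactSpace M] (A : Atl d M) :
    ∃ δ : ℝ, 0 < δ ∧ ∀ c ∈ A.C, ∀ y ∈ reg d c (A.rad c), ∀ z : M, dist z y < δ →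
      z ∈ reg d c (2 * A.rad c) := by
  obtain ⟨ρ, hρ, h1⟩ := at_fin A.C (fun c δ => δ ≤ A.rad c)
    (fun c hc => ⟨A.rad c, A.pos c hc, le_rfl⟩) (fun c δ δ' h h' => h.trans h')
  obtain ⟨δ, hδ, h2⟩ := coord_close' A ρ hρ
  refine ⟨δ, hδ, fun c hc y hy z hz => ?_⟩
  have hr := A.pos c hc
  have hy' : y ∈ reg d c (2 * A.rad c) :=
    ⟨hy.1, Metric.closedBall_subset_closedBall (by linarith) hy.2⟩
  obtain ⟨h3, h4⟩ := h2 c hc y hy' z hz
  refine ⟨h3, ?_⟩
  rw [Metric.mem_closedBall]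
  have h5 := dist_triangle (extChartAt (𝓡 d) c z) (extChartAt (𝓡 d) c y)
    (extChartAt (𝓡 d) c c)
  have h6 : dist (extChartAt (𝓡 d) c y) (extChartAt (𝓡 d) c c) ≤ A.rad c :=
    Metric.mem_closedBall.1 hy.2
  rw [← dist_eq_norm] at h4
  have h7 := h1 c hc
  linarith

end Pool.Agent.Helper55.OS
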