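import Pool.Agent.Helper55.OS.Atlas

/-!
# OS-A2 AtlasU: uniform C^1 estimates in the charts

Notation: φ_c = extChartAt c, loc g c c' w = φ_c'(g(φ_c.symm w)).
PROOFS. For c, c' in C let P = {y in reg c (2 rad c) : f y in reg c' (2 rad c')}: compact (f continuous, reg compact).
* `Aop_cont` (U3): for η > 0 there is δ > 0 such that for all c, c' in C, y, y' in reg c (2 rad c), f y in reg c' (2 rad c'),
  dist y y' < δ: ‖Aop f c c' y - Aop f c c' y'‖ ≤ η. Proof: φ_c P is compact in the open set where loc f c c' is C^∞ (ContMDiff read in charts: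
  `contMDiffOn_iff` or `ContMDiffAt.contDiffAt`-style lemmas for extChartAt; f y is in the source of c'), the derivative is continuous
  there, so it is uniformly continuous near φ_c P; and by `coord_close'` |φ_c y' - φ_c y| is small. Finitely many pairs.
* `Aop_inv` (U4): there is B with, for all c, c' in C, y in reg c (2 rad c), f y in reg c' (2 rad c'): ‖Aop f c c' y‖ ≤ B and there is
  a' with (Aop f c c' y) (a' v) = v, a' (Aop f c c' y v) = v, ‖a'‖ ≤ B. Proof: bound of the continuous derivative on a compact set; the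
  inverse is Aop f.symm c' c (f y) (chain rule for loc f.symm c' c ∘ loc f c c' = id near φ_c y), bounded on the compact set.
* `Aop_inv'`: the same when only dist (f y) y' < δ for some y' in reg c' (rad c') (then f y is in reg c' (2 rad c') by `near_reg`).
* `loc_est` (U1): for η > 0 there are δ > 0 and a smoothTop-open 𝒰 containing f such that for all c, c' in C, y in reg c (2 rad c) [we use rad],
  y' in reg c' (rad c') with dist (f y) y' < δ, all g in 𝒰 and all ζ, ζ' with |ζ|, |ζ'| ≤ δ: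
  φ_c y + ζ in the target of c, g (φ_c.symm (φ_c y + ζ)) in the source of c',
  ‖loc g c c' (φ_c y + ζ) - loc g c c' (φ_c y + ζ') - Aop f c c' y (ζ - ζ')‖ ≤ η ‖ζ - ζ'‖ and ‖loc g c c' (φ_c y) - φ_c' y'‖ ≤ η.
  PROOF. Let κ > 0 be small, K_cc' = {w in closedBall (φ_c c) (3 rad c) : f(φ_c.symm w) in reg c' (5/2 rad c')}: compact in the target of c, f maps it into the
  source of c'. For small δ all φ_c y + ζ as above are in K_cc' (coord_close, near_reg, uniform continuity of f). 𝒰 = intersection over the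
  finitely many pairs of subNhd f c c' K_cc' 1 κ: open (it is a subbasic set), contains f. For g in 𝒰: g(φ_c.symm w) in the source of
  c' for w in K_cc', |loc g - loc f| ≤ κ and ‖D loc g - D loc f‖ ≤ κ on K_cc' (iteratedFDeriv of order 0 and 1). The segment from φ_c y + ζ' to
  φ_c y + ζ is in K_cc', loc g is differentiable there (g is smooth), so by the mean value inequality the first quantity is
  ≤ sup ‖D loc g (w) - Aop f c c' y‖ ‖ζ - ζ'‖ ≤ (κ + sup ‖D loc f (w) - D loc f (φ_c y)‖) ‖ζ - ζ'‖ ≤ η ‖ζ - ζ'‖ (uniform continuity of D loc f).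
  Second: |loc g(φ_c y) - loc f (φ_c y)| ≤ κ and |φ_c'(f y) - φ_c' y'| small by `coord_close'`.
-/

open Set Topology Manifold ContDiff

namespace Pool.Agent.Helper55.OS

variable {d : ℕ} {M : Type} [MetricSpace M] [ChartedSpace (E d) M] [IsManifold (𝓡 d) ∞ M]
  [CompactSpace M]

theorem subNhd_open (f : Dif d M) (c c' : M) (K : Set (E d)) (r : ℕ) (ε : ℝ) (hK : IsCompact K)
    (hKt : K ⊆ (extChartAt (𝓡 d) c).target)
    (hKs : ∀ z ∈ K, f ((extChartAt (𝓡 d) c).symm z) ∈ (extChartAt (𝓡 d) c').source) (hε : 0 < ε) :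
    IsOpen[smoothTop d M] (subNhd f c c' K r ε) ∧ f ∈ subNhd f c c' K r ε := by
  constructor
  · exact TopologicalSpace.isOpen_generateFrom_of_mem ⟨f, c, c', K, r, ε, hK, hKt, hKs, hε, rfl⟩
  · refine ⟨hKs, fun z _ k _ => ?_⟩
    rw [sub_self, norm_zero]
    exact hε

/-- the set where `f` can be read in the charts -/
private def auV (f : Dif d M) (c c' : M) : Set (E d) :=
  (extChartAt (𝓡 d) c).target ∩
    (extChartAt (𝓡 d) c).symm ⁻¹' (f ⁻¹' (extChartAt (𝓡 d) c').source)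

/-- `f` in the charts -/
private noncomputable def auL (f : Dif d M) (c c' : M) : E d → E d :=
  fun w => extChartAt (𝓡 d) c' (f ((extChartAt (𝓡 d) c).symm w))

omit [IsManifold (𝓡 d) ∞ M] [CompactSpace M] in
private theorem au_V_open (f : Dif d M) (c c' : M) : IsOpen (auV f c c') :=
  (continuousOn_extChartAt_symm c).isOpen_inter_preimage (isOpen_extChartAt_target c)
    ((isOpen_extChartAt_source c').preimage f.continuous)

omit [CompactSpace M] in
private theorem au_smooth (f : Dif d M) (c c' : M) {w : E d} (hw : w ∈ auV f c c') :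
    ContDiffAt ℝ ∞ (auL f c c') w :=
  ((contMDiff_iff.1 f.contMDiff).2 c c').contDiffAt ((au_V_open f c c').mem_nhds hw)

omit [CompactSpace M] in
private theorem au_fd (f : Dif d M) (c c' : M) {w : E d} (hw : w ∈ auV f c c') :
    ContinuousAt (fderiv ℝ (auL f c c')) w :=
  ((au_smooth f c c' hw).fderiv_right (m := 0) (by norm_num)).continuousAt

omit [CompactSpace M] in
private theorem au_has (f : Dif d M) (c c' : M) {w : E d} (hw : w ∈ auV f c c') :
    HasFDerivAt (auL f c c') (fderiv ℝ (auL f c c') w) w :=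
  ((au_smooth f c c' hw).differentiableAt (by norm_num)).hasFDerivAt

/-- the compact set -/
private def auK (A : Atl d M) (f : Dif d M) (c c' : M) : Set (E d) :=
  Metric.closedBall (extChartAt (𝓡 d) c c) (3 * A.rad c) ∩
    (fun w => f ((extChartAt (𝓡 d) c).symm w)) ⁻¹' reg d c' (2 * A.rad c')

private theorem au_K_compact (A : Atl d M) (f : Dif d M) {c c' : M} (hc : c ∈ A.C)
    (hc' : c' ∈ A.C) : IsCompact (auK A f c c') := by
  have h1 : IsCompact (Metric.closedBall (extChartAt (𝓡 d) c c) (3 * A.rad c)) :=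
    isCompact_closedBall _ _
  have h2 : IsClosed (reg d c' (2 * A.rad c')) :=
    (reg_compact A hc' (by nlinarith [A.pos c' hc'])).isClosed
  have h3 : ContinuousOn (fun w => f ((extChartAt (𝓡 d) c).symm w))
      (Metric.closedBall (extChartAt (𝓡 d) c c) (3 * A.rad c)) :=
    f.continuous.comp_continuousOn ((continuousOn_extChartAt_symm c).mono (A.big c hc))
  exact h1.of_isClosed_subset (h3.preimage_isClosed_of_isClosed Metric.isClosed_closedBall h2)
    inter_subset_left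

private theorem au_K_sub (A : Atl d M) (f : Dif d M) {c c' : M} (hc : c ∈ A.C) :
    auK A f c c' ⊆ auV f c c' :=
  fun _ hw => ⟨A.big c hc hw.1, hw.2.1⟩

private theorem au_mem_K (A : Atl d M) (f : Dif d M) {c c' : M} (hc : c ∈ A.C) {y : M}
    (hy : y ∈ reg d c (2 * A.rad c)) (hfy : f y ∈ reg d c' (2 * A.rad c')) :
    extChartAt (𝓡 d) c y ∈ auK A f c c' := by
  refine ⟨Metric.closedBall_subset_closedBall (by nlinarith [A.pos c hc]) hy.2, ?_⟩
  change f ((extChartAt (𝓡 d) c).symm (extChartAt (𝓡 d) c y)) ∈ reg d c' (2 * A.rad c')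
  rw [(extChartAt (𝓡 d) c).left_inv hy.1]
  exact hfy

private theorem au_fin1 (C : Finset M) {P : M → ℝ → Prop}
    (hm : ∀ c s t, 0 < s → s ≤ t → P c t → P c s) (h : ∀ c ∈ C, ∃ δ : ℝ, 0 < δ ∧ P c δ) :
    ∃ δ : ℝ, 0 < δ ∧ ∀ c ∈ C, P c δ := by
  classical
  induction C using Finset.induction_on with
  | empty => exact ⟨1, one_pos, fun c hc => absurd hc (Finset.notMem_empty c)⟩
  | insert a s ha ih =>
    obtain ⟨δ₁, h1, h2⟩ := ih fun c hc => h c (Finset.mem_insert_of_mem hc)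
    obtain ⟨δ₂, h3, h4⟩ := h a (Finset.mem_insert_self a s)
    refine ⟨min δ₁ δ₂, lt_min h1 h3, fun c hc => ?_⟩
    rcases Finset.mem_insert.1 hc with rfl | hc
    · exact hm _ _ _ (lt_min h1 h3) (min_le_right _ _) h4
    · exact hm _ _ _ (lt_min h1 h3) (min_le_left _ _) (h2 c hc)

private theorem au_fin (C : Finset M) {P : M → M → ℝ → Prop}
    (hm : ∀ c c' s t, 0 < s → s ≤ t → P c c' t → P c c' s)
    (h : ∀ c ∈ C, ∀ c' ∈ C, ∃ δ : ℝ, 0 < δ ∧ P c c' δ) :
    ∃ δ : ℝ, 0 < δ ∧ ∀ c ∈ C, ∀ c' ∈ C, P c c' δ :=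
  au_fin1 C (P := fun c s => ∀ c' ∈ C, P c c' s)
    (fun c s t hs hst hP c' hc' => hm c c' s t hs hst (hP c' hc'))
    fun c hc => au_fin1 C (P := fun c' s => P c c' s) (fun c' s t hs hst hP => hm c c' s t hs hst hP)
      fun c' hc' => h c hc c' hc'

private theorem au_unif (A : Atl d M) (f : Dif d M) (η : ℝ) (hη : 0 < η) :
    ∃ κ : ℝ, 0 < κ ∧ ∀ c ∈ A.C, ∀ c' ∈ A.C, ∀ w ∈ auK A f c c', ∀ w' : E d, dist w w' < κ →
      ‖fderiv ℝ (auL f c c') w - fderiv ℝ (auL f c c') w'‖ ≤ η := by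
  refine au_fin A.C (P := fun c c' κ => ∀ w ∈ auK A f c c', ∀ w' : E d, dist w w' < κ →
      ‖fderiv ℝ (auL f c c') w - fderiv ℝ (auL f c c') w'‖ ≤ η)
    (fun c c' s t _ hst hP w hw w' hww => hP w hw w' (hww.trans_le hst)) ?_
  intro c hc c' hc'
  have h := (au_K_compact A f hc hc').uniformContinuousAt_of_continuousAt (fderiv ℝ (auL f c c'))
    (fun w hw => au_fd f c c' (au_K_sub A f hc hw)) (Metric.dist_mem_uniformity hη)
  obtain ⟨κ, hκ, h⟩ := Metric.mem_uniformity_dist.1 h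
  refine ⟨κ, hκ, fun w hw w' hww => ?_⟩
  have h1 := h hww hw
  rw [← dist_eq_norm]
  exact le_of_lt h1

private theorem au_bound (A : Atl d M) (f : Dif d M) :
    ∃ B : ℝ, ∀ c ∈ A.C, ∀ c' ∈ A.C, ∀ w ∈ auK A f c c', ‖fderiv ℝ (auL f c c') w‖ ≤ B := by
  have key : ∃ δ : ℝ, 0 < δ ∧ ∀ c ∈ A.C, ∀ c' ∈ A.C, ∀ w ∈ auK A f c c',
      ‖fderiv ℝ (auL f c c') w‖ ≤ 1 / δ := by
    refine au_fin A.C (P := fun c c' κ => ∀ w ∈ auK A f c c',
      ‖fderiv ℝ (auL f c c') w‖ ≤ 1 / κ)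
      (fun c c' s t hs hst hP w hw => (hP w hw).trans (one_div_le_one_div_of_le hs hst)) ?_
    intro c hc c' hc'
    obtain ⟨B, hB⟩ := (au_K_compact A f hc hc').exists_bound_of_continuousOn
      (f := fderiv ℝ (auL f c c'))
      (fun w hw => (au_fd f c c' (au_K_sub A f hc hw)).continuousWithinAt)
    refine ⟨1 / max B 1, one_div_pos.2 (lt_max_of_lt_right one_pos), fun w hw => ?_⟩
    rw [one_div_one_div]
    exact (hB w hw).trans (le_max_left _ _)
  obtain ⟨δ, _, h⟩ := key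
  exact ⟨1 / δ, h⟩

theorem Aop_cont (A : Atl d M) (f : Dif d M) (η : ℝ) (hη : 0 < η) :
    ∃ δ : ℝ, 0 < δ ∧ ∀ c ∈ A.C, ∀ c' ∈ A.C, ∀ y ∈ reg d c (2 * A.rad c), ∀ y' ∈ reg d c (2 * A.rad c),
      f y ∈ reg d c' (2 * A.rad c') → dist y y' < δ →
        ‖Aop f c c' y - Aop f c c' y'‖ ≤ η := by
  obtain ⟨κ, hκ, h⟩ := au_unif A f η hη
  obtain ⟨δ, hδ, h'⟩ := coord_close' A (κ / 2) (half_pos hκ)
  refine ⟨δ, hδ, fun c hc c' hc' y hy y' _ hfy hyy => ?_⟩
  have h1 := (h' c hc y hy y' (by rwa [dist_comm])).2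
  refine h c hc c' hc' _ (au_mem_K A f hc hy hfy) _ ?_
  rw [dist_eq_norm, norm_sub_rev]
  exact h1.trans_lt (half_lt_self hκ)

omit [CompactSpace M] in
private theorem au_chain (f : Dif d M) {c c' y : M} (hy : y ∈ (extChartAt (𝓡 d) c).source)
    (hfy : f y ∈ (extChartAt (𝓡 d) c').source) (v : E d) :
    Aop f.symm c' c (f y) (Aop f c c' y v) = v := by
  have hsy : f.symm (f y) = y := f.symm_apply_apply y
  have hV : extChartAt (𝓡 d) c y ∈ auV f c c' := by
    refine ⟨(extChartAt (𝓡 d) c).map_source hy, ?_⟩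
    change f ((extChartAt (𝓡 d) c).symm (extChartAt (𝓡 d) c y)) ∈ (extChartAt (𝓡 d) c').source
    rw [(extChartAt (𝓡 d) c).left_inv hy]
    exact hfy
  have hV' : extChartAt (𝓡 d) c' (f y) ∈ auV f.symm c' c := by
    refine ⟨(extChartAt (𝓡 d) c').map_source hfy, ?_⟩
    change f.symm ((extChartAt (𝓡 d) c').symm (extChartAt (𝓡 d) c' (f y))) ∈
      (extChartAt (𝓡 d) c).source
    rw [(extChartAt (𝓡 d) c').left_inv hfy, hsy]
    exact hy
  have hv : auL f c c' (extChartAt (𝓡 d) c y) = extChartAt (𝓡 d) c' (f y) := by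
    change extChartAt (𝓡 d) c' (f ((extChartAt (𝓡 d) c).symm (extChartAt (𝓡 d) c y))) = _
    rw [(extChartAt (𝓡 d) c).left_inv hy]
  have h1 := au_has f c c' hV
  have h2 := au_has f.symm c' c hV'
  rw [← hv] at h2
  have h3 := h2.comp _ h1
  have h4 : (auL f.symm c' c ∘ auL f c c') =ᶠ[𝓝 (extChartAt (𝓡 d) c y)] id := by
    filter_upwards [(au_V_open f c c').mem_nhds hV] with w hw
    change extChartAt (𝓡 d) c (f.symm ((extChartAt (𝓡 d) c').symm
      (extChartAt (𝓡 d) c' (f ((extChartAt (𝓡 d) c).symm w))))) = w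
    rw [(extChartAt (𝓡 d) c').left_inv hw.2, f.symm_apply_apply, (extChartAt (𝓡 d) c).right_inv hw.1]
  have h5 : HasFDerivAt (id : E d → E d) ((fderiv ℝ (auL f.symm c' c) (auL f c c'
      (extChartAt (𝓡 d) c y))).comp (fderiv ℝ (auL f c c') (extChartAt (𝓡 d) c y)))
      (extChartAt (𝓡 d) c y) := h3.congr_of_eventuallyEq h4.symm
  have h6 := h5.unique (hasFDerivAt_id _)
  have h7 := congrArg (fun T : E d →L[ℝ] E d => T v) h6
  rw [hv] at h7
  exact h7

theorem Aop_inv (A : Atl d M) (f : Dif d M) :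
    ∃ B : ℝ, 1 ≤ B ∧ ∀ c ∈ A.C, ∀ c' ∈ A.C, ∀ y ∈ reg d c (2 * A.rad c), f y ∈ reg d c' (2 * A.rad c') →
      ‖Aop f c c' y‖ ≤ B ∧ ∃ a' : E d →L[ℝ] E d, (∀ v, Aop f c c' y (a' v) = v) ∧
        (∀ v, a' (Aop f c c' y v) = v) ∧ ‖a'‖ ≤ B := by
  obtain ⟨B₁, h1⟩ := au_bound A f
  obtain ⟨B₂, h2⟩ := au_bound A f.symm
  refine ⟨max 1 (max B₁ B₂), le_max_left _ _, fun c hc c' hc' y hy hfy => ⟨?_, ?_⟩⟩
  · exact (h1 c hc c' hc' _ (au_mem_K A f hc hy hfy)).trans
      ((le_max_left _ _).trans (le_max_right _ _))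
  · have hsy : f.symm (f y) = y := f.symm_apply_apply y
    refine ⟨Aop f.symm c' c (f y), fun v => ?_, fun v => au_chain f hy.1 hfy.1 v, ?_⟩
    · have h3 := au_chain f.symm hfy.1 (c' := c) (by rw [hsy]; exact hy.1) v
      rw [hsy] at h3
      exact h3
    · exact (h2 c' hc' c hc _ (au_mem_K A f.symm hc' hfy (by rw [hsy]; exact hy))).trans
        ((le_max_right _ _).trans (le_max_right _ _))

/-- points close to the coordinates of `y` are in the compact set -/
private theorem au_near (A : Atl d M) (f : Dif d M) :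
    ∃ δ : ℝ, 0 < δ ∧ ∀ c ∈ A.C, ∀ c' ∈ A.C, ∀ y ∈ reg d c (A.rad c), ∀ y' ∈ reg d c' (A.rad c'),
      dist (f y) y' < δ → ∀ ζ : E d, ‖ζ‖ ≤ δ → extChartAt (𝓡 d) c y + ζ ∈ auK A f c c' := by
  obtain ⟨δ₀, hδ₀, h0⟩ := near_reg A
  have hu : UniformContinuous f := CompactSpace.uniformContinuous_of_continuous f.continuous
  obtain ⟨ρ, hρ, h1⟩ := Metric.uniformContinuous_iff.1 hu (δ₀ / 2) (half_pos hδ₀)
  obtain ⟨δ₁, hδ₁, h2⟩ := coord_close A (ρ / 2) (half_pos hρ)
  refine ⟨min (δ₀ / 2) δ₁, lt_min (half_pos hδ₀) hδ₁, fun c hc c' hc' y hy y' hy' hd ζ hζ => ?_⟩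
  have hy2 : y ∈ reg d c (2 * A.rad c) :=
    ⟨hy.1, Metric.closedBall_subset_closedBall (by nlinarith [A.pos c hc]) hy.2⟩
  obtain ⟨h3, h4⟩ := h2 c hc y hy2 ζ (hζ.trans (min_le_right _ _))
  refine ⟨h3, ?_⟩
  refine h0 c' hc' y' hy' _ ?_
  have h5 := h1 (h4.trans_lt (half_lt_self hρ))
  have h6 := hd.trans_le (min_le_left _ _)
  calc dist (f ((extChartAt (𝓡 d) c).symm (extChartAt (𝓡 d) c y + ζ))) y'
      ≤ dist (f ((extChartAt (𝓡 d) c).symm (extChartAt (𝓡 d) c y + ζ))) (f y) + dist (f y) y' :=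
        dist_triangle _ _ _
    _ < δ₀ / 2 + δ₀ / 2 := add_lt_add h5 h6
    _ = δ₀ := add_halves _

omit [IsManifold (𝓡 d) ∞ M] [CompactSpace M] in
private theorem au_one (f g : Dif d M) (c c' : M) (w : E d) {κ : ℝ}
    (h : ‖iteratedFDeriv ℝ 1 (auL g c c') w - iteratedFDeriv ℝ 1 (auL f c c') w‖ ≤ κ) :
    ‖fderiv ℝ (auL g c c') w - fderiv ℝ (auL f c c') w‖ ≤ κ := by
  refine ContinuousLinearMap.opNorm_le_bound _ ((norm_nonneg _).trans h) fun v => ?_
  have h1 : (fderiv ℝ (auL g c c') w - fderiv ℝ (auL f c c') w) v =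
      (iteratedFDeriv ℝ 1 (auL g c c') w - iteratedFDeriv ℝ 1 (auL f c c') w) fun _ => v := by
    change _ = iteratedFDeriv ℝ 1 (auL g c c') w (fun _ => v) -
      iteratedFDeriv ℝ 1 (auL f c c') w (fun _ => v)
    rw [iteratedFDeriv_one_apply, iteratedFDeriv_one_apply]
    rfl
  rw [h1]
  refine (ContinuousMultilinearMap.le_opNorm _ _).trans ?_
  rw [Finset.prod_const, Finset.card_univ, Fintype.card_fin, pow_one]
  exact mul_le_mul_of_nonneg_right h (norm_nonneg _)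

theorem loc_est (A : Atl d M) (f : Dif d M) (η : ℝ) (hη : 0 < η) :
    ∃ (δ : ℝ) (𝒰 : Set (Dif d M)), 0 < δ ∧ IsOpen[smoothTop d M] 𝒰 ∧ f ∈ 𝒰 ∧
      ∀ c ∈ A.C, ∀ c' ∈ A.C, ∀ y ∈ reg d c (A.rad c), ∀ y' ∈ reg d c' (A.rad c'), dist (f y) y' < δ →
        ∀ g ∈ 𝒰, ∀ ζ ζ' : E d, ‖ζ‖ ≤ δ → ‖ζ'‖ ≤ δ →
          (extChartAt (𝓡 d) c y + ζ ∈ (extChartAt (𝓡 d) c).target ∧
            g ((extChartAt (𝓡 d) c).symm (extChartAt (𝓡 d) c y + ζ)) ∈ (extChartAt (𝓡 d) c').source) ∧
          ‖extChartAt (𝓡 d) c' (g ((extChartAt (𝓡 d) c).symm (extChartAt (𝓡 d) c y + ζ))) -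
              extChartAt (𝓡 d) c' (g ((extChartAt (𝓡 d) c).symm (extChartAt (𝓡 d) c y + ζ'))) -
              Aop f c c' y (ζ - ζ')‖ ≤ η * ‖ζ - ζ'‖ ∧
          ‖extChartAt (𝓡 d) c' (g y) - extChartAt (𝓡 d) c' y'‖ ≤ η := by
  obtain ⟨κ, hκ, hu⟩ := au_unif A f (η / 2) (half_pos hη)
  obtain ⟨δ₁, hδ₁, hn⟩ := au_near A f
  obtain ⟨δ₂, hδ₂, hc2⟩ := coord_close' A (η / 2) (half_pos hη)
  have hop : ∀ c ∈ A.C, ∀ c' ∈ A.C, IsOpen[smoothTop d M] (subNhd f c c' (auK A f c c') 1 (η / 2)) ∧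
      f ∈ subNhd f c c' (auK A f c c') 1 (η / 2) := fun c hc c' hc' =>
    subNhd_open f c c' _ 1 _ (au_K_compact A f hc hc')
      (fun w hw => (au_K_sub A f hc hw).1) (fun w hw => (au_K_sub A f hc hw).2) (half_pos hη)
  refine ⟨min (κ / 2) (min δ₁ δ₂), ⋂ c ∈ A.C, ⋂ c' ∈ A.C, subNhd f c c' (auK A f c c') 1 (η / 2),
    lt_min (half_pos hκ) (lt_min hδ₁ hδ₂), ?_, ?_, ?_⟩
  · let _ := smoothTop d M
    exact isOpen_biInter_finset fun c hc => isOpen_biInter_finset fun c' hc' => (hop c hc c' hc').1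
  · simp only [mem_iInter]
    exact fun c hc c' hc' => (hop c hc c' hc').2
  · intro c hc c' hc' y hy y' hy' hd g hg ζ ζ' hζ hζ'
    simp only [mem_iInter] at hg
    have hg1 := hg c hc c' hc'
    have hK : ∀ ξ : E d, ‖ξ‖ ≤ min (κ / 2) (min δ₁ δ₂) → extChartAt (𝓡 d) c y + ξ ∈ auK A f c c' :=
      fun ξ hξ => hn c hc c' hc' y hy y' hy'
        (hd.trans_le ((min_le_right _ _).trans (min_le_left _ _))) ξ
        (hξ.trans ((min_le_right _ _).trans (min_le_left _ _)))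
    have hpos : 0 ≤ min (κ / 2) (min δ₁ δ₂) := le_of_lt (lt_min (half_pos hκ) (lt_min hδ₁ hδ₂))
    have hK0 : extChartAt (𝓡 d) c y ∈ auK A f c c' := by
      have h := hK 0 (by rw [norm_zero]; exact hpos)
      rwa [add_zero] at h
    have hsrc : ∀ w ∈ auK A f c c', w ∈ auV g c c' := fun w hw => ⟨A.big c hc hw.1, hg1.1 w hw⟩
    refine ⟨⟨A.big c hc (hK ζ hζ).1, hg1.1 _ (hK ζ hζ)⟩, ?_, ?_⟩
    · have hball : ∀ w ∈ Metric.closedBall (extChartAt (𝓡 d) c y) (min (κ / 2) (min δ₁ δ₂)),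
          w ∈ auK A f c c' := by
        intro w hw
        have h := hK (w - extChartAt (𝓡 d) c y) (by
          rw [← dist_eq_norm]
          exact Metric.mem_closedBall.1 hw)
        rwa [add_sub_cancel] at h
      have h1 := Convex.norm_image_sub_le_of_norm_hasFDerivWithin_le' (𝕜 := ℝ) (f := auL g c c')
        (f' := fderiv ℝ (auL g c c')) (φ := Aop f c c' y) (C := η)
        (s := Metric.closedBall (extChartAt (𝓡 d) c y) (min (κ / 2) (min δ₁ δ₂)))
        (x := extChartAt (𝓡 d) c y + ζ') (y := extChartAt (𝓡 d) c y + ζ)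
        (fun w hw => (au_has g c c' (hsrc w (hball w hw))).hasFDerivWithinAt) ?_
        (convex_closedBall _ _) ?_ ?_
      · have h2 : extChartAt (𝓡 d) c y + ζ - (extChartAt (𝓡 d) c y + ζ') = ζ - ζ' := by abel
        rw [h2] at h1
        exact h1
      · intro w hw
        have hwK := hball w hw
        have h2 := au_one f g c c' w (le_of_lt (hg1.2 w hwK 1 le_rfl))
        have h3 := hu c hc c' hc' _ hK0 w (by
          rw [dist_comm]
          exact ((Metric.mem_closedBall.1 hw).trans (min_le_left _ _)).trans_lt (half_lt_self hκ))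
        calc ‖fderiv ℝ (auL g c c') w - Aop f c c' y‖
            = ‖(fderiv ℝ (auL g c c') w - fderiv ℝ (auL f c c') w) -
                (fderiv ℝ (auL f c c') (extChartAt (𝓡 d) c y) - fderiv ℝ (auL f c c') w)‖ := by
              congr 1
              change _ - fderiv ℝ (auL f c c') (extChartAt (𝓡 d) c y) = _
              abel
          _ ≤ η / 2 + η / 2 := (norm_sub_le _ _).trans (add_le_add h2 h3)
          _ = η := add_halves η
      · rw [Metric.mem_closedBall, dist_eq_norm, add_sub_cancel_left]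
        exact hζ'
      · rw [Metric.mem_closedBall, dist_eq_norm, add_sub_cancel_left]
        exact hζ
    · have h1 : ‖iteratedFDeriv ℝ 0 (auL g c c') (extChartAt (𝓡 d) c y) -
          iteratedFDeriv ℝ 0 (auL f c c') (extChartAt (𝓡 d) c y)‖ < η / 2 :=
        hg1.2 _ hK0 0 (Nat.zero_le 1)
      have h2 : ‖auL g c c' (extChartAt (𝓡 d) c y) - auL f c c' (extChartAt (𝓡 d) c y)‖ ≤ η / 2 := by
        refine le_trans ?_ (le_of_lt h1)
        have h3 := (iteratedFDeriv ℝ 0 (auL g c c') (extChartAt (𝓡 d) c y) -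
          iteratedFDeriv ℝ 0 (auL f c c') (extChartAt (𝓡 d) c y)).le_opNorm (fun i => Fin.elim0 i)
        change ‖iteratedFDeriv ℝ 0 (auL g c c') (extChartAt (𝓡 d) c y) (fun i => Fin.elim0 i) -
          iteratedFDeriv ℝ 0 (auL f c c') (extChartAt (𝓡 d) c y) (fun i => Fin.elim0 i)‖ ≤ _ at h3
        rw [iteratedFDeriv_zero_apply, iteratedFDeriv_zero_apply, Finset.univ_eq_empty,
          Finset.prod_empty, mul_one] at h3
        exact h3
      have hl : (extChartAt (𝓡 d) c).symm (extChartAt (𝓡 d) c y) = y :=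
        (extChartAt (𝓡 d) c).left_inv hy.1
      have h4 : ‖extChartAt (𝓡 d) c' (g y) - extChartAt (𝓡 d) c' (f y)‖ ≤ η / 2 := by
        have h5 := h2
        unfold auL at h5
        rwa [hl] at h5
      have hy2 : y' ∈ reg d c' (2 * A.rad c') :=
        ⟨hy'.1, Metric.closedBall_subset_closedBall (by nlinarith [A.pos c' hc']) hy'.2⟩
      have h6 := (hc2 c' hc' y' hy2 (f y)
        (hd.trans_le ((min_le_right _ _).trans (min_le_right _ _)))).2
      calc ‖extChartAt (𝓡 d) c' (g y) - extChartAt (𝓡 d) c' y'‖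
          = ‖(extChartAt (𝓡 d) c' (g y) - extChartAt (𝓡 d) c' (f y)) +
              (extChartAt (𝓡 d) c' (f y) - extChartAt (𝓡 d) c' y')‖ := by
            congr 1
            abel
        _ ≤ η / 2 + η / 2 := (norm_add_le _ _).trans (add_le_add h4 h6)
        _ = η := add_halves η

end Pool.Agent.Helper55.OS
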