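import Pool.Agent.Helper55.OS.BaseTanIter

/-!
# OS-B13 BaseAvoid and openness of good sets

TASK. (1) `isOpen_avoid`: for `K` compact, `K'` closed the set of `g` with `g^[i] (K) ∩ K' = ∅` is open. PROOF. The set of
`(g, y)` with `g^[i] y ∉ K'` is open by OS-B12; tube lemma (`generalized_tube_lemma` or
`IsCompact.eventually_forall_of_forall_eventually`, with `isOpen_iff_mem_nhds`).
(2) `isOpen_good`: for `K` compact the set of `g` without degenerate fixed points of `g^[n]` in `K` is open. PROOF. `Bad g n z`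
iff there is `v` in the tangent space at `z`, `v ≠ 0`, with `T (g^[n]) ⟨z, v⟩ = ⟨z, v⟩` (equality in the total space; for the
first component use `g^[n] z = z`). `K` is covered by finitely many compact sets `K_j`, each in the source of a trivialisation
(chart at `c_j`); over `K_j` the set `S_j` of the `v` of norm one in the trivialisation at `c_j` is compact (image of
`K_j × sphere` under the inverse of the trivialisation) and does not contain zero vectors; a degenerate fixed point in
`K_j` gives, after scaling (`T (g^[n])` is linear on fibres), a `v ∈ S_j` with `T (g^[n]) v = v`. The set of `(g, v)` with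
`T (g^[n]) v ≠ v` is open (OS-B12, the total space is Hausdorff), contains `{g0} × S_j`; tube lemma.
(If `d = 0` the sphere is empty and there are no bad points.)
-/

open Set Topology Manifold ContDiff Filter

namespace Pool.Agent.Helper55.OS

variable {d : ℕ} {M : Type} [TopologicalSpace M] [ChartedSpace (E d) M] [IsManifold (𝓡 d) ∞ M]
  [T2Space M]

theorem isOpen_avoid (K K' : Set M) (hK : IsCompact K) (hK' : IsClosed K') (i : ℕ) :
    IsOpen[smoothTop d M] {g : Dif d M | ∀ y ∈ K, (g : M → M)^[i] y ∉ K'} := by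
  let _ : TopologicalSpace (Dif d M) := smoothTop d M
  rw [isOpen_iff_mem_nhds]
  intro g hg
  refine hK.eventually_forall_of_forall_eventually
    (P := fun (g : Dif d M) (y : M) => (g : M → M)^[i] y ∉ K') fun y hy => ?_
  have h1 : IsOpen ((fun q : Dif d M × M => (q.1 : M → M)^[i] q.2) ⁻¹' K'ᶜ) :=
    hK'.isOpen_compl.preimage (continuous_iterate_eval i)
  exact h1.mem_nhds (hg y hy)

private theorem t2_tan : T2Space (TangentBundle (𝓡 d) M) := by
  refine ⟨fun x y hxy => ?_⟩
  by_cases hp : x.proj = y.proj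
  · set e := trivializationAt (E d) (TangentSpace (𝓡 d) (M := M)) x.proj with he
    have hx : x ∈ e.source := by
      rw [e.mem_source]
      exact FiberBundle.mem_baseSet_trivializationAt' _
    have hy : y ∈ e.source := by
      rw [e.mem_source, ← hp]
      exact FiberBundle.mem_baseSet_trivializationAt' _
    have hne : e x ≠ e y := fun h => hxy (e.injOn hx hy h)
    obtain ⟨U, V, hU, hV, hxU, hyV, hd⟩ := t2_separation hne
    refine ⟨e.source ∩ e ⁻¹' U, e.source ∩ e ⁻¹' V,
      e.continuousOn.isOpen_inter_preimage e.open_source hU,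
      e.continuousOn.isOpen_inter_preimage e.open_source hV, ⟨hx, hxU⟩, ⟨hy, hyV⟩, ?_⟩
    exact (hd.preimage e).mono inter_subset_right inter_subset_right
  · obtain ⟨U, V, hU, hV, hxU, hyV, hd⟩ := t2_separation hp
    have hc : Continuous (Bundle.TotalSpace.proj : TangentBundle (𝓡 d) M → M) :=
      FiberBundle.continuous_proj (E d) (TangentSpace (𝓡 d) (M := M))
    exact ⟨Bundle.TotalSpace.proj ⁻¹' U, Bundle.TotalSpace.proj ⁻¹' V, hU.preimage hc,
      hV.preimage hc, hxU, hyV, hd.preimage _⟩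

omit [IsManifold (𝓡 d) ∞ M] [T2Space M] in
private theorem mk_inj {y z : M} {a b : E d}
    (h : (⟨y, a⟩ : TangentBundle (𝓡 d) M) = ⟨z, b⟩) : y = z ∧ a = b :=
  ⟨congrArg Bundle.TotalSpace.proj h, congrArg (fun p : TangentBundle (𝓡 d) M => (p.snd : E d)) h⟩

omit [IsManifold (𝓡 d) ∞ M] [T2Space M] in
private theorem mk_ext {y z : M} {a b : E d} (h : y = z) (h' : a = b) :
    (⟨y, a⟩ : TangentBundle (𝓡 d) M) = ⟨z, b⟩ := by
  subst h
  subst h'
  rfl

private theorem good_local (g : Dif d M) (n : ℕ) (z : M) (hz : ¬ Bad g n z) :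
    letI : TopologicalSpace (Dif d M) := smoothTop d M
    ∀ᶠ q : Dif d M × M in 𝓝 (g, z), ¬ Bad q.1 n q.2 := by
  let _ : TopologicalSpace (Dif d M) := smoothTop d M
  have := t2_tan (d := d) (M := M)
  set e := trivializationAt (E d) (TangentSpace (𝓡 d) (M := M)) z with he
  have hzb : z ∈ e.baseSet := FiberBundle.mem_baseSet_trivializationAt' _
  set S := e.toOpenPartialHomeomorph.symm with hS
  have key : ∀ᶠ q : Dif d M × M in 𝓝 (g, z), ∀ w ∈ Metric.sphere (0 : E d) 1,
      tangentMap (𝓡 d) (𝓡 d) ((q.1 : M → M)^[n]) (S (q.2, w)) ≠ S (q.2, w) := by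
    refine (isCompact_sphere (0 : E d) 1).eventually_forall_of_forall_eventually
      (P := fun (q : Dif d M × M) (w : E d) =>
        tangentMap (𝓡 d) (𝓡 d) ((q.1 : M → M)^[n]) (S (q.2, w)) ≠ S (q.2, w)) ?_
    intro w hw
    have hmem : (z, w) ∈ e.target := by rw [e.mem_target]; exact hzb
    have hSc : ContinuousAt S (z, w) := e.toOpenPartialHomeomorph.continuousAt_symm hmem
    have hpr : ContinuousAt (fun q : (Dif d M × M) × E d => (q.1.2, q.2)) ((g, z), w) :=
      ((continuous_snd.comp continuous_fst).prodMk continuous_snd).continuousAt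
    have hc1 : ContinuousAt (fun q : (Dif d M × M) × E d => S (q.1.2, q.2)) ((g, z), w) :=
      ContinuousAt.comp (f := fun q : (Dif d M × M) × E d => (q.1.2, q.2)) (g := S) hSc hpr
    have hc2 : ContinuousAt (fun q : (Dif d M × M) × E d => tangentMap (𝓡 d) (𝓡 d)
        ((q.1.1 : M → M)^[n]) (S (q.1.2, q.2))) ((g, z), w) := by
      have h1 : ContinuousAt (fun q : (Dif d M × M) × E d => (q.1.1, S (q.1.2, q.2)))
          ((g, z), w) :=
        (continuous_fst.comp continuous_fst).continuousAt.prodMk hc1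
      exact ContinuousAt.comp (f := fun q : (Dif d M × M) × E d => (q.1.1, S (q.1.2, q.2)))
        (g := fun q : Dif d M × TangentBundle (𝓡 d) M =>
          tangentMap (𝓡 d) (𝓡 d) ((q.1 : M → M)^[n]) q.2)
        (continuous_tangentMap_iterate n).continuousAt h1
    refine (hc2.ne_iff_eventually_ne hc1).1 ?_
    -- the condition at the point
    intro heq
    have heq' : tangentMap (𝓡 d) (𝓡 d) ((g : M → M)^[n]) (S (z, w)) = S (z, w) := heq
    have hmk : (⟨z, e.symm z w⟩ : TangentBundle (𝓡 d) M) = S (z, w) := e.mk_symm hzb w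
    rw [← hmk] at heq'
    obtain ⟨h1, h2⟩ := mk_inj heq'
    refine hz ⟨h1, e.symm z w, ?_, h2⟩
    intro h0
    have h3 := e.apply_mk_symm hzb w
    have h4 : e.symm z w = 0 := h0
    rw [h4] at h3
    have h5 := (e.linear ℝ hzb).map_zero
    rw [h3] at h5
    have h6 : w = 0 := h5
    rw [h6, mem_sphere_zero_iff_norm, norm_zero] at hw
    exact zero_ne_one hw
  have hb : ∀ᶠ q : Dif d M × M in 𝓝 (g, z), q.2 ∈ e.baseSet :=
    (e.open_baseSet.preimage continuous_snd).mem_nhds hzb
  filter_upwards [key, hb] with q hq hqb hbad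
  obtain ⟨hfix, v, hv0, hv⟩ := hbad
  -- the coordinate of the vector
  set u : E d := (e (⟨q.2, v⟩ : TangentBundle (𝓡 d) M)).2 with hu
  have hlin := e.linear ℝ hqb
  have hu0 : u ≠ 0 := by
    intro h0
    apply hv0
    have h1 : e (⟨q.2, v⟩ : TangentBundle (𝓡 d) M) = e (⟨q.2, (0 : E d)⟩ : TangentBundle (𝓡 d) M) := by
      refine Prod.ext ?_ ?_
      · exact (e.coe_coe_fst hqb).trans (e.coe_coe_fst hqb).symm
      · exact h0.trans hlin.map_zero.symm
    have h2 := e.injOn (e.mem_source.2 hqb) (e.mem_source.2 hqb) h1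
    exact (mk_inj h2).2
  have hun : ‖u‖ ≠ 0 := norm_ne_zero_iff.2 hu0
  set v1 : E d := ‖u‖⁻¹ • v with hv1
  have hw : ‖u‖⁻¹ • u ∈ Metric.sphere (0 : E d) 1 := by
    rw [mem_sphere_zero_iff_norm, norm_smul, norm_inv, norm_norm, inv_mul_cancel₀ hun]
  have hS1 : S (q.2, ‖u‖⁻¹ • u) = (⟨q.2, v1⟩ : TangentBundle (𝓡 d) M) := by
    have h1 : e (⟨q.2, v1⟩ : TangentBundle (𝓡 d) M) = (q.2, ‖u‖⁻¹ • u) := by
      refine Prod.ext (e.coe_coe_fst hqb) ?_
      exact hlin.map_smul ‖u‖⁻¹ v
    rw [← h1]
    exact e.symm_apply_apply (e.mem_source.2 hqb)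
  refine hq _ hw ?_
  rw [hS1]
  refine mk_ext hfix ?_
  have h1 : dn (d := d) (q.1 : M → M) n q.2 v1 = v1 := by
    rw [hv1, map_smul, hv]
  exact h1

theorem isOpen_good (K : Set M) (hK : IsCompact K) (n : ℕ) :
    IsOpen[smoothTop d M] {g : Dif d M | ∀ z ∈ K, ¬ Bad g n z} := by
  let _ : TopologicalSpace (Dif d M) := smoothTop d M
  rw [isOpen_iff_mem_nhds]
  intro g hg
  exact hK.eventually_forall_of_forall_eventually
    (P := fun (g : Dif d M) (z : M) => ¬ Bad g n z) fun z hz => good_local g n z (hg z hz)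

end Pool.Agent.Helper55.OS
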