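import Pool.Agent.Helper55.OS.BaseDefs

/-!
# OS-B04 BaseBump: the bump family in R^d

TASK. `Z p z = z + χ(z) (a + L (z - z0))`, `p = (a, L)`, `χ` a smooth bump (`ContDiffBump z0` with `rIn = R/2`,
`rOut = R`; `χ = 1` on the closed ball of radius `R/2`, support = open ball of radius `R`), is a family of
diffeomorphisms of `R^d` for `‖p‖ < δ`.
PROOF. Joint smoothness: `χ` smooth, `(L, w) ↦ L w` is continuous bilinear (`ContDiff.clm_apply`). For fixed `p` the map
`h_p(z) = χ(z) (a + L (z - z0))` has compact support; `‖D h_p(z)‖ ≤ ‖Dχ(z)‖ (‖a‖ + ‖L‖ ‖z - z0‖) + |χ(z)| ‖L‖ ≤ C ‖p‖`,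
`C = sup‖Dχ‖ (1 + R) + 1` (`Dχ` is continuous with compact support so bounded; it vanishes outside the ball).
So for `‖p‖ < δ = 1/(2C)` the map `h_p` is `1/2`-Lipschitz (`Convex.lipschitzOnWith_of_nnnorm_fderiv_le` or
`lipschitzWith_of_nnnorm_fderiv_le`), `Z p = id + h_p` satisfies `ApproximatesLinearOn (Z p) (ContinuousLinearEquiv.refl) univ (1/2)`
and `ApproximatesLinearOn.toHomeomorph` (case `Subsingleton (E d)` or `1/2 < 1/‖id‖`) gives a homeomorphism; take `W p` its
inverse (and `W p = id` for other `p`). `W p` is smooth: the derivative `1 + D h_p(z)` is invertible (`‖D h_p‖ ≤ 1/2`: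
`Z p` is injective with derivative bounded below, or Neumann series `Units.oneSub`), so use
`OpenPartialHomeomorph.contDiffAt_symm` for the homeomorphism of `toHomeomorph` viewed as an `OpenPartialHomeomorph`
(`Homeomorph.toOpenPartialHomeomorph`), at every point.
-/

open Set Topology Manifold ContDiff Filter

namespace Pool.Agent.Helper55.OS

/-- small linear perturbations of the identity are invertible -/
private theorem exists_equiv {d : ℕ} (H : E d →L[ℝ] E d) (hH : ‖H‖ < 1) :
    ∃ e : E d ≃L[ℝ] E d, (e : E d →L[ℝ] E d) = ContinuousLinearMap.id ℝ (E d) + H := by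
  have h1 : ‖-H‖ < 1 := by rwa [norm_neg]
  refine ⟨ContinuousLinearEquiv.ofUnit (Units.oneSub (-H) h1), ?_⟩
  ext1 x
  change ((Units.oneSub (-H) h1 : (E d →L[ℝ] E d)ˣ) : E d →L[ℝ] E d) x = _
  rw [Units.val_oneSub]
  simp

theorem exists_bump_family {d : ℕ} (z0 : E d) (R : ℝ) (hR : 0 < R) :
    ∃ (δ : ℝ) (Z W : E d × (E d →L[ℝ] E d) → E d → E d), 0 < δ ∧
      ContDiff ℝ ∞ (fun q : (E d × (E d →L[ℝ] E d)) × E d => Z q.1 q.2) ∧
      (∀ z, Z 0 z = z) ∧
      (∀ p z, z ∉ Metric.ball z0 R → Z p z = z) ∧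
      (∀ p, ∀ z ∈ Metric.ball z0 (R / 2), Z p z = z + (p.1 + p.2 (z - z0))) ∧
      (∀ p, ‖p‖ < δ → ContDiff ℝ ∞ (W p) ∧ (∀ z, W p (Z p z) = z) ∧ (∀ z, Z p (W p z) = z)) := by
  classical
  let χ : ContDiffBump z0 := ⟨R / 2, R, by positivity, by linarith⟩
  have hχ : ContDiff ℝ ∞ (χ : E d → ℝ) := χ.contDiff
  have hχd : Differentiable ℝ (χ : E d → ℝ) := hχ.differentiable (by simp)
  have hcs : HasCompactSupport (χ : E d → ℝ) := χ.hasCompactSupport
  obtain ⟨K, hK⟩ := ((hχ.continuous_fderiv (by simp)).bounded_above_of_compact_support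
    (hcs.fderiv (𝕜 := ℝ)))
  have hK0 : 0 ≤ K := (norm_nonneg _).trans (hK z0)
  have hout : ∀ z, z ∉ Metric.closedBall z0 R → fderiv ℝ (χ : E d → ℝ) z = 0 := by
    intro z hz
    apply fderiv_of_notMem_tsupport
    rw [χ.tsupport_eq]
    exact hz
  set C : ℝ := 1 + K * (1 + R) with hC
  have hC1 : 1 ≤ C := by
    rw [hC]
    have : 0 ≤ K * (1 + R) := by positivity
    linarith
  set h : E d × (E d →L[ℝ] E d) → E d → E d := fun p z => χ z • (p.1 + p.2 (z - z0)) with hh
  set Z : E d × (E d →L[ℝ] E d) → E d → E d := fun p z => z + h p z with hZ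
  have hjoint : ContDiff ℝ ∞ (fun q : (E d × (E d →L[ℝ] E d)) × E d => Z q.1 q.2) := by
    rw [hZ, hh]
    simp only
    exact contDiff_snd.add ((hχ.comp contDiff_snd).smul
      ((contDiff_fst.comp contDiff_fst).add
        ((contDiff_snd.comp contDiff_fst).clm_apply (contDiff_snd.sub contDiff_const))))
  -- the derivative
  set H : E d × (E d →L[ℝ] E d) → E d → (E d →L[ℝ] E d) := fun p z =>
    χ z • p.2 + (fderiv ℝ (χ : E d → ℝ) z).smulRight (p.1 + p.2 (z - z0)) with hHdef
  have hder : ∀ p z, HasFDerivAt (h p) (H p z) z := by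
    intro p z
    have h1 : HasFDerivAt (fun z : E d => p.1 + p.2 (z - z0)) p.2 z := by
      have := (p.2.hasFDerivAt (x := z - z0)).comp z ((hasFDerivAt_id z).sub_const z0)
      simpa using this.const_add p.1
    exact (hχd z).hasFDerivAt.smul h1
  have hHn : ∀ p z, ‖H p z‖ ≤ ‖p‖ * C := by
    intro p z
    have hp1 : ‖p.1‖ ≤ ‖p‖ := norm_fst_le p
    have hp2 : ‖p.2‖ ≤ ‖p‖ := norm_snd_le p
    have h1 : ‖χ z • p.2‖ ≤ ‖p‖ := by
      rw [norm_smul, Real.norm_of_nonneg χ.nonneg]
      calc χ z * ‖p.2‖ ≤ 1 * ‖p‖ := mul_le_mul χ.le_one hp2 (norm_nonneg _) zero_le_one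
        _ = ‖p‖ := one_mul _
    have h2 : ‖(fderiv ℝ (χ : E d → ℝ) z).smulRight (p.1 + p.2 (z - z0))‖ ≤
        K * (‖p‖ * (1 + R)) := by
      rw [ContinuousLinearMap.norm_smulRight_apply]
      by_cases hz : z ∈ Metric.closedBall z0 R
      · rw [Metric.mem_closedBall, dist_eq_norm] at hz
        apply mul_le_mul (hK z) _ (norm_nonneg _) hK0
        calc ‖p.1 + p.2 (z - z0)‖ ≤ ‖p.1‖ + ‖p.2 (z - z0)‖ := norm_add_le _ _
          _ ≤ ‖p‖ + ‖p‖ * R := by
              apply add_le_add hp1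
              exact (p.2.le_opNorm _).trans (mul_le_mul hp2 hz (norm_nonneg _) (norm_nonneg _))
          _ = ‖p‖ * (1 + R) := by ring
      · rw [hout z hz, norm_zero, zero_mul]
        positivity
    calc ‖H p z‖ ≤ ‖χ z • p.2‖ + ‖(fderiv ℝ (χ : E d → ℝ) z).smulRight (p.1 + p.2 (z - z0))‖ :=
          norm_add_le _ _
      _ ≤ ‖p‖ + K * (‖p‖ * (1 + R)) := add_le_add h1 h2
      _ = ‖p‖ * C := by rw [hC]; ring
  set δ : ℝ := 1 / (2 * C) with hδ
  have hδ0 : 0 < δ := by positivity
  have hsmall : ∀ p, ‖p‖ < δ → ∀ z, ‖H p z‖ ≤ 1 / 2 := by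
    intro p hp z
    refine (hHn p z).trans ?_
    have h1 : ‖p‖ * C ≤ δ * C := mul_le_mul_of_nonneg_right hp.le (by linarith)
    have h2 : δ * C = 1 / 2 := by
      rw [hδ]
      field_simp
    linarith
  have hZd : ∀ p, ContDiff ℝ ∞ (Z p) := by
    intro p
    have h1 : ContDiff ℝ ∞ (fun z : E d => ((p, z) : (E d × (E d →L[ℝ] E d)) × E d)) :=
      contDiff_const.prodMk contDiff_id
    exact hjoint.comp h1
  have hinv : ∀ p : E d × (E d →L[ℝ] E d), ∃ Wp : E d → E d, ‖p‖ < δ →
      ContDiff ℝ ∞ Wp ∧ (∀ z, Wp (Z p z) = z) ∧ (∀ z, Z p (Wp z) = z) := by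
    intro p
    by_cases hp : ‖p‖ < δ
    · have happ : ApproximatesLinearOn (Z p)
          ((ContinuousLinearEquiv.refl ℝ (E d) : E d ≃L[ℝ] E d) : E d →L[ℝ] E d) univ
          (1 / 2 : NNReal) := by
        intro x _ y _
        have h1 := Convex.norm_image_sub_le_of_norm_hasFDerivWithin_le (f := h p) (f' := H p)
          (s := univ) (C := 1 / 2) (fun z _ => (hder p z).hasFDerivWithinAt)
          (fun z _ => hsmall p hp z) convex_univ (mem_univ y) (mem_univ x)
        have h2 : Z p x - Z p y - ((ContinuousLinearEquiv.refl ℝ (E d) : E d ≃L[ℝ] E d) :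
            E d →L[ℝ] E d) (x - y) = h p x - h p y := by
          rw [hZ]
          simp
          abel
        rw [h2]
        exact h1
      have hc : Subsingleton (E d) ∨ (1 / 2 : NNReal) <
          ‖((ContinuousLinearEquiv.refl ℝ (E d)).symm : E d →L[ℝ] E d)‖₊⁻¹ := by
        rcases subsingleton_or_nontrivial (E d) with hs | hn
        · exact Or.inl hs
        · right
          have h1 : ‖((ContinuousLinearEquiv.refl ℝ (E d)).symm : E d →L[ℝ] E d)‖₊ = 1 := by
            apply NNReal.eq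
            rw [coe_nnnorm]
            exact ContinuousLinearMap.norm_id
          rw [h1, inv_one]
          exact NNReal.half_lt_self one_ne_zero
      set e : E d ≃ₜ E d := happ.toHomeomorph _ hc with he
      have hez : ∀ z, e z = Z p z := fun z => rfl
      choose g hg using fun z : E d => exists_equiv (H p z) ((hsmall p hp z).trans_lt (by norm_num))
      refine ⟨e.symm, fun _ => ⟨?_, ?_, ?_⟩⟩
      · apply e.contDiff_symm (f₀' := g)
        · intro z
          rw [hg z]
          exact (hasFDerivAt_id z).add (hder p z)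
        · exact hZd p
      · intro z
        rw [← hez]
        exact e.symm_apply_apply z
      · intro z
        rw [← hez]
        exact e.apply_symm_apply z
    · exact ⟨id, fun h' => absurd h' hp⟩
  choose W hW using hinv
  refine ⟨δ, Z, W, hδ0, hjoint, ?_, ?_, ?_, hW⟩
  · intro z
    rw [hZ, hh]
    simp
  · intro p z hz
    have h0 : χ z = 0 := by
      rw [Metric.mem_ball, not_lt] at hz
      exact χ.zero_of_le_dist hz
    rw [hZ, hh]
    simp only
    rw [h0, zero_smul, add_zero]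
  · intro p z hz
    have h1 : χ z = 1 := χ.one_of_mem_closedBall (Metric.ball_subset_closedBall hz)
    rw [hZ, hh]
    simp only
    rw [h1, one_smul]

end Pool.Agent.Helper55.OS
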