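import Pool.Agent.Helper55.OS.BaseDefs

/-!
# OS-B07 BaseComp: operations on smooth families

TASK. `Diffeomorph.trans h₁ h₂` is `x ↦ h₂ (h₁ x)` (`Diffeomorph.coe_trans`). Joint smoothness of
`(t, y) ↦ Ψ t (Φ t y)` is the composition of `(t, y) ↦ (t, Φ t y)` and `(t, y) ↦ Ψ t y` (`ContMDiffOn.comp`,
`ContMDiffOn.prodMk`); `SmoothFam.comap`: composition with `(t, y) ↦ (a t, y)`.
-/

open Set Topology Manifold ContDiff Filter

namespace Pool.Agent.Helper55.OS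

variable {d : ℕ} {M : Type} [TopologicalSpace M] [ChartedSpace (E d) M] [IsManifold (𝓡 d) ∞ M]
  {P P' : Type} [NormedAddCommGroup P] [NormedSpace ℝ P] [NormedAddCommGroup P'] [NormedSpace ℝ P']

theorem smoothFam_refl (T : Set P) (hT : IsOpen T) :
    SmoothFam T (fun _ : P => (Diffeomorph.refl (𝓡 d) M ∞ : Dif d M)) := by
  refine ⟨hT, ?_⟩
  exact contMDiffOn_snd

theorem smoothFam_then (T : Set P) (Φ : P → Dif d M) (hΦ : SmoothFam T Φ) (f : Dif d M) :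
    SmoothFam T (fun t => (Φ t).trans f) := by
  obtain ⟨hT, hs⟩ := hΦ
  exact ⟨hT, f.contMDiff.comp_contMDiffOn hs⟩

theorem smoothFam_trans (T : Set P) (Φ Ψ : P → Dif d M) (hΦ : SmoothFam T Φ)
    (hΨ : SmoothFam T Ψ) : SmoothFam T (fun t => (Φ t).trans (Ψ t)) := by
  obtain ⟨hT, hs⟩ := hΦ
  obtain ⟨-, hs'⟩ := hΨ
  refine ⟨hT, ?_⟩
  exact hs'.comp (contMDiffOn_fst.prodMk hs) fun q hq => ⟨hq.1, mem_univ _⟩

theorem smoothFam_comap (T : Set P) (Φ : P → Dif d M) (hΦ : SmoothFam T Φ) (T' : Set P')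
    (hT' : IsOpen T') (a : P' → P) (ha : ContDiffOn ℝ ∞ a T') (hmap : MapsTo a T' T) :
    SmoothFam T' (fun t => Φ (a t)) := by
  obtain ⟨hT, hs⟩ := hΦ
  refine ⟨hT', ?_⟩
  have h1 : ContMDiffOn (𝓘(ℝ, P').prod (𝓡 d)) 𝓘(ℝ, P) ∞ (fun q : P' × M => a q.1) (T' ×ˢ univ) :=
    ha.contMDiffOn.comp contMDiffOn_fst fun q hq => hq.1
  exact hs.comp (h1.prodMk contMDiffOn_snd) fun q hq => ⟨hmap hq.1, mem_univ _⟩

end Pool.Agent.Helper55.OS
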