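import Pool.Agent.Helper55.OS.Defs

/-!
# OS/BaseDefs: definitions for the base part (families of diffeomorphisms) and step 0 (periodic points)

`SmoothFam T Φ`: the diffeomorphisms `Φ t`, `t ∈ T` (open), depend smoothly on `(t, y)` together.
`chBall c z R`: the points of `M` whose coordinates in the chart at `c` are in the open ball.
`inCh c g`: the map `g` of `M` read in the chart at `c` (source and target).
`UnitEig A`: the real linear map `A` has a complex eigenvalue `c + i s` of modulus one (real formulation).
`FixVec A`: the number `1` is an eigenvalue of `A`.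
`chCl c z R`: the same for the closed ball (compact when the closed ball is in the target of the chart).
`df g z`, `dn g n z`: the derivatives of `g` and of `g^[n]` at `z`, as linear maps of `R^d`.
`Bad g n z`: `z` is a degenerate fixed point of `g^[n]`.
`CountStable 𝒰`: all the elements of `𝒰` have equally many fixed points of every period.
-/

open Set Topology Manifold ContDiff Filter

namespace Pool.Agent.Helper55.OS

section
variable {d : ℕ} {M : Type} [TopologicalSpace M] [ChartedSpace (E d) M]

/-- A family of diffeomorphisms that is jointly smooth over the open set `T` of parameters. -/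
def SmoothFam {P : Type} [NormedAddCommGroup P] [NormedSpace ℝ P] (T : Set P) (Φ : P → Dif d M) :
    Prop :=
  IsOpen T ∧ ContMDiffOn (𝓘(ℝ, P).prod (𝓡 d)) (𝓡 d) ∞ (fun q : P × M => Φ q.1 q.2) (T ×ˢ univ)

/-- The points of `M` whose coordinates in the chart at `c` are in the open ball `B(z, R)`. -/
def chBall (c : M) (z : E d) (R : ℝ) : Set M :=
  {y | y ∈ (extChartAt (𝓡 d) c).source ∧ extChartAt (𝓡 d) c y ∈ Metric.ball z R}

/-- The map `g` read in the chart at `c`. -/
noncomputable def inCh (c : M) (g : M → M) : E d → E d :=
  fun w => extChartAt (𝓡 d) c (g ((extChartAt (𝓡 d) c).symm w))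

/-- The compact set of the points of `M` whose coordinates in the chart at `c` are in the closed ball
(to be used when the closed ball is contained in the target of the chart). -/
def chCl (c : M) (z : E d) (R : ℝ) : Set M :=
  (extChartAt (𝓡 d) c).symm '' Metric.closedBall z R

/-- The derivative of `g` at `z` (in the preferred charts at `z` and `g z`). -/
noncomputable def df (g : M → M) (z : M) : E d →L[ℝ] E d :=
  mfderiv (𝓡 d) (𝓡 d) g z

/-- The derivative of `g^[n]` at `z`. -/
noncomputable def dn (g : M → M) (n : ℕ) (z : M) : E d →L[ℝ] E d :=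
  df g^[n] z

end

/-- `A` has an eigenvalue `c + i s` of modulus one. -/
def UnitEig {d : ℕ} (A : E d →L[ℝ] E d) : Prop :=
  ∃ (c s : ℝ) (u v : E d), c ^ 2 + s ^ 2 = 1 ∧ ¬ (u = 0 ∧ v = 0) ∧
    A u = c • u - s • v ∧ A v = s • u + c • v

/-- `A` has the eigenvalue `1`. -/
def FixVec {d : ℕ} (A : E d →L[ℝ] E d) : Prop := ∃ v : E d, v ≠ 0 ∧ A v = v

section
variable {d : ℕ} {M : Type} [TopologicalSpace M] [ChartedSpace (E d) M]

/-- `z` is a degenerate fixed point of `g^[n]`. -/
def Bad (g : Dif d M) (n : ℕ) (z : M) : Prop :=
  (g : M → M)^[n] z = z ∧ FixVec (dn (d := d) (g : M → M) n z)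

/-- All elements of `𝒰` have equally many fixed points of each period. -/
def CountStable (𝒰 : Set (Dif d M)) : Prop :=
  ∀ g ∈ 𝒰, ∀ g' ∈ 𝒰, ∀ n : ℕ, 1 ≤ n →
    Nonempty ({x : M | (g : M → M)^[n] x = x} ≃ {x : M | (g' : M → M)^[n] x = x})

end

end Pool.Agent.Helper55.OS
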