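import Pool.Agent.Helper55.OS.BaseDefs

/-!
# OS-B05 BaseTransfer: from diffeomorphisms of R^d with support in a ball to diffeomorphisms of M

TASK. `Z t`, `t ∈ T`, a jointly smooth family of diffeomorphisms of `R^d`, equal to the identity outside `B(z0, R)`, the
closed ball contained in the target of the chart at `c`. Transport it to `M`.
PROOF. Let `φ = extChartAt c`, `S = φ.symm '' closedBall z0 R`: compact, so closed (`T2Space M`), contained in the open set
`φ.source`. Define `F t y = φ.symm (Z t (φ y))` for `y ∈ φ.source`, `F t y = y` otherwise (for `t ∈ T`; `F t = id` for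
`t ∉ T`). For `t ∈ T`: `Z t` maps the ball onto itself (it is a bijection of `R^d` equal to the identity outside the ball),
so `Z t` maps `φ.target` into itself, and `F t` has the inverse given by `W t` (also the identity outside the ball).
`F` is jointly smooth on `T ×ˢ univ`: it is enough to show `ContMDiffWithinAt`/`ContMDiffAt` at each point: on the open set
`T ×ˢ φ.source` it is the composition of smooth maps (the coordinates `Z t (φ y)` stay in `φ.target`), on the open set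
`T ×ˢ Sᶜ` it is the projection `(t, y) ↦ y`; these two open sets cover `T ×ˢ univ`. The same argument with `W t` for fixed `t`
gives the smoothness of the inverse. Build the `Diffeomorph` from the `Equiv` and the two smoothness statements (`Φ t = refl`
for `t ∉ T`, `Diffeomorph.refl`).
-/

open Set Topology Manifold ContDiff Filter

namespace Pool.Agent.Helper55.OS

variable {d : ℕ} {M : Type} [TopologicalSpace M] [ChartedSpace (E d) M] [IsManifold (𝓡 d) ∞ M]
  [T2Space M]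

open Classical in
/-- the map of `M` given by the map `Y` of the coordinates in the chart at `c` -/
private noncomputable def trG (c : M) (Y : E d → E d) (y : M) : M :=
  if y ∈ (extChartAt (𝓡 d) c).source then (extChartAt (𝓡 d) c).symm (Y (extChartAt (𝓡 d) c y)) else y

omit [IsManifold (𝓡 d) ∞ M] [T2Space M] in
private theorem trG_of_mem (c : M) (Y : E d → E d) {y : M}
    (hy : y ∈ (extChartAt (𝓡 d) c).source) :
    trG c Y y = (extChartAt (𝓡 d) c).symm (Y (extChartAt (𝓡 d) c y)) := by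
  unfold trG
  exact if_pos hy

omit [IsManifold (𝓡 d) ∞ M] [T2Space M] in
private theorem trG_of_notMem (c : M) (Y : E d → E d) {y : M}
    (hy : y ∉ (extChartAt (𝓡 d) c).source) : trG c Y y = y := by
  unfold trG
  exact if_neg hy

omit [IsManifold (𝓡 d) ∞ M] [T2Space M] in
private theorem trG_id (c : M) (z0 : E d) (R : ℝ) (Y : E d → E d)
    (hid : ∀ z, z ∉ Metric.ball z0 R → Y z = z) {y : M} (hy : y ∉ chBall c z0 R) :
    trG c Y y = y := by
  by_cases h : y ∈ (extChartAt (𝓡 d) c).source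
  · rw [trG_of_mem c Y h, hid _ (fun h2 => hy ⟨h, h2⟩), (extChartAt (𝓡 d) c).left_inv h]
  · exact trG_of_notMem c Y h

private theorem trG_smooth {P : Type} [NormedAddCommGroup P] [NormedSpace ℝ P]
    (T : Set P) (hT : IsOpen T) (c : M) (z0 : E d) (R : ℝ)
    (hc : Metric.closedBall z0 R ⊆ (extChartAt (𝓡 d) c).target) (Y : P → E d → E d)
    (hY : ContDiffOn ℝ ∞ (fun q : P × E d => Y q.1 q.2) (T ×ˢ univ))
    (hid : ∀ t ∈ T, ∀ z, z ∉ Metric.ball z0 R → Y t z = z)
    (hmap : ∀ t ∈ T, ∀ z ∈ (extChartAt (𝓡 d) c).target, Y t z ∈ (extChartAt (𝓡 d) c).target) :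
    ContMDiffOn (𝓘(ℝ, P).prod (𝓡 d)) (𝓡 d) ∞ (fun q : P × M => trG c (Y q.1) q.2)
      (T ×ˢ univ) := by
  classical
  -- the first open set
  have h1 : ContMDiffOn (𝓘(ℝ, P).prod (𝓡 d)) (𝓡 d) ∞ (fun q : P × M => trG c (Y q.1) q.2)
      (T ×ˢ (extChartAt (𝓡 d) c).source) := by
    have g1 : ContMDiffOn (𝓘(ℝ, P).prod (𝓡 d)) 𝓘(ℝ, E d) ∞
        (fun q : P × M => extChartAt (𝓡 d) c q.2) (T ×ˢ (extChartAt (𝓡 d) c).source) := by
      have g0 := contMDiffOn_extChartAt (I := 𝓡 d) (n := ∞) (x := c)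
      refine g0.comp (s := T ×ˢ (extChartAt (𝓡 d) c).source) contMDiffOn_snd ?_
      rintro ⟨t, y⟩ ⟨_, h⟩
      rw [extChartAt_source] at h
      exact h
    have g2 : ContMDiffOn (𝓘(ℝ, P).prod (𝓡 d)) 𝓘(ℝ, P × E d) ∞
        (fun q : P × M => (q.1, extChartAt (𝓡 d) c q.2)) (T ×ˢ (extChartAt (𝓡 d) c).source) :=
      ContMDiffOn.prodMk_space contMDiffOn_fst g1
    have g3 : ContMDiffOn (𝓘(ℝ, P).prod (𝓡 d)) 𝓘(ℝ, E d) ∞
        (fun q : P × M => Y q.1 (extChartAt (𝓡 d) c q.2))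
        (T ×ˢ (extChartAt (𝓡 d) c).source) := by
      refine hY.contMDiffOn.comp g2 ?_
      rintro ⟨t, y⟩ ⟨h, _⟩
      exact ⟨h, mem_univ _⟩
    have g4 := (contMDiffOn_extChartAt_symm (I := 𝓡 d) (n := ∞) c).comp g3 (by
      rintro ⟨t, y⟩ ⟨h, h'⟩
      exact hmap t h _ ((extChartAt (𝓡 d) c).map_source h'))
    refine g4.congr ?_
    rintro ⟨t, y⟩ ⟨_, h'⟩
    exact trG_of_mem c (Y t) h'
  -- the second open set
  obtain ⟨S, hS⟩ : ∃ S : Set M, S = (extChartAt (𝓡 d) c).symm '' Metric.closedBall z0 R := ⟨_, rfl⟩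
  have hSc : IsCompact S := by
    rw [hS]
    exact (isCompact_closedBall z0 R).image_of_continuousOn
      ((continuousOn_extChartAt_symm c).mono hc)
  have hSo : IsOpen Sᶜ := hSc.isClosed.isOpen_compl
  have h2 : ContMDiffOn (𝓘(ℝ, P).prod (𝓡 d)) (𝓡 d) ∞ (fun q : P × M => trG c (Y q.1) q.2)
      (T ×ˢ Sᶜ) := by
    have g0 : ContMDiffOn (𝓘(ℝ, P).prod (𝓡 d)) (𝓡 d) ∞ (Prod.snd : P × M → M) (T ×ˢ Sᶜ) :=
      contMDiffOn_snd
    refine g0.congr ?_
    rintro ⟨t, y⟩ ⟨h, h'⟩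
    refine trG_id c z0 R (Y t) (hid t h) ?_
    rintro ⟨h3, h4⟩
    apply h'
    rw [hS]
    exact ⟨_, Metric.ball_subset_closedBall h4, (extChartAt (𝓡 d) c).left_inv h3⟩
  rintro ⟨t, y⟩ ⟨ht, _⟩
  by_cases hy : y ∈ (extChartAt (𝓡 d) c).source
  · have hopen : IsOpen (T ×ˢ (extChartAt (𝓡 d) c).source) :=
      hT.prod (isOpen_extChartAt_source c)
    exact (h1.contMDiffAt (hopen.mem_nhds ⟨ht, hy⟩)).contMDiffWithinAt
  · have hyS : y ∈ Sᶜ := by
      intro h
      rw [hS] at h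
      obtain ⟨z, hz, rfl⟩ := h
      exact hy ((extChartAt (𝓡 d) c).map_target (hc hz))
    exact (h2.contMDiffAt ((hT.prod hSo).mem_nhds ⟨ht, hyS⟩)).contMDiffWithinAt

private theorem trG_smooth_one (c : M) (z0 : E d) (R : ℝ)
    (hc : Metric.closedBall z0 R ⊆ (extChartAt (𝓡 d) c).target) (Y : E d → E d)
    (hY : ContDiff ℝ ∞ Y)
    (hid : ∀ z, z ∉ Metric.ball z0 R → Y z = z)
    (hmap : ∀ z ∈ (extChartAt (𝓡 d) c).target, Y z ∈ (extChartAt (𝓡 d) c).target) :
    ContMDiff (𝓡 d) (𝓡 d) ∞ (trG c Y) := by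
  have h := trG_smooth (P := ℝ) univ isOpen_univ c z0 R hc (fun _ => Y)
    ((hY.comp contDiff_snd).contDiffOn) (fun _ _ => hid) (fun _ _ => hmap)
  have h2 : ContMDiff (𝓡 d) (𝓘(ℝ, ℝ).prod (𝓡 d)) ∞ (fun y : M => ((0 : ℝ), y)) :=
    contMDiff_const.prodMk contMDiff_id
  have h3 := h.comp (s := univ) (contMDiffOn_univ.2 h2) (fun y _ => ⟨mem_univ _, mem_univ _⟩)
  exact contMDiffOn_univ.1 h3

omit [IsManifold (𝓡 d) ∞ M] [T2Space M] in
private theorem trG_comp (c : M) {Y Y' : E d → E d} (hY : ∀ z, Y' (Y z) = z)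
    (hmap : ∀ z ∈ (extChartAt (𝓡 d) c).target, Y z ∈ (extChartAt (𝓡 d) c).target) (y : M) :
    trG c Y' (trG c Y y) = y := by
  by_cases h : y ∈ (extChartAt (𝓡 d) c).source
  · have h1 := hmap _ ((extChartAt (𝓡 d) c).map_source h)
    rw [trG_of_mem c Y h, trG_of_mem c Y' ((extChartAt (𝓡 d) c).map_target h1),
      (extChartAt (𝓡 d) c).right_inv h1, hY, (extChartAt (𝓡 d) c).left_inv h]
  · rw [trG_of_notMem c Y h, trG_of_notMem c Y' h]

theorem exists_fam_of_chart {P : Type} [NormedAddCommGroup P] [NormedSpace ℝ P]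
    (T : Set P) (hT : IsOpen T) (c : M) (z0 : E d) (R : ℝ) (hR : 0 < R)
    (hc : Metric.closedBall z0 R ⊆ (extChartAt (𝓡 d) c).target) (Z W : P → E d → E d)
    (hZ : ContDiffOn ℝ ∞ (fun q : P × E d => Z q.1 q.2) (T ×ˢ univ))
    (hW : ∀ t ∈ T, ContDiff ℝ ∞ (W t)) (hWZ : ∀ t ∈ T, ∀ z, W t (Z t z) = z)
    (hZW : ∀ t ∈ T, ∀ z, Z t (W t z) = z)
    (hid : ∀ t ∈ T, ∀ z, z ∉ Metric.ball z0 R → Z t z = z) :
    ∃ Φ : P → Dif d M, SmoothFam T Φ ∧ ∀ t ∈ T,
      (∀ y, y ∉ chBall c z0 R → Φ t y = y) ∧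
      (∀ y ∈ (extChartAt (𝓡 d) c).source,
        Φ t y = (extChartAt (𝓡 d) c).symm (Z t (extChartAt (𝓡 d) c y))) := by
  classical
  -- the ball is invariant
  have hidW : ∀ t ∈ T, ∀ z, z ∉ Metric.ball z0 R → W t z = z := by
    intro t ht z hz
    have h1 := hWZ t ht z
    rwa [hid t ht z hz] at h1
  have hball : ∀ (Y Y' : E d → E d), (∀ z, Y' (Y z) = z) →
      (∀ z, z ∉ Metric.ball z0 R → Y z = z) →
      ∀ z ∈ (extChartAt (𝓡 d) c).target, Y z ∈ (extChartAt (𝓡 d) c).target := by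
    intro Y Y' hYY hYid z hz
    by_cases h : z ∈ Metric.ball z0 R
    · by_cases h2 : Y z ∈ Metric.ball z0 R
      · exact hc (Metric.ball_subset_closedBall h2)
      · exfalso
        apply h2
        have h3 := hYid _ h2
        have h4 := congrArg Y' h3
        rw [hYY, hYY] at h4
        rw [h4]
        exact h
    · rw [hYid z h]
      exact hz
  have hZm : ∀ t ∈ T, ∀ z ∈ (extChartAt (𝓡 d) c).target, Z t z ∈ (extChartAt (𝓡 d) c).target :=
    fun t ht => hball (Z t) (W t) (hWZ t ht) (hid t ht)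
  have hWm : ∀ t ∈ T, ∀ z ∈ (extChartAt (𝓡 d) c).target, W t z ∈ (extChartAt (𝓡 d) c).target :=
    fun t ht => hball (W t) (Z t) (hZW t ht) (hidW t ht)
  have hjoint := trG_smooth T hT c z0 R hc Z hZ hid hZm
  have hZt : ∀ t ∈ T, ContDiff ℝ ∞ (Z t) := by
    intro t ht
    have h1 : ContDiffOn ℝ ∞ ((fun q : P × E d => Z q.1 q.2) ∘ (fun z : E d => (t, z))) univ :=
      hZ.comp ((contDiff_const.prodMk contDiff_id).contDiffOn) (fun z _ => ⟨ht, mem_univ _⟩)
    exact contDiffOn_univ.1 h1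
  have hex : ∀ t : P, ∃ Ψ : Dif d M, t ∈ T → ∀ y, Ψ y = trG c (Z t) y := by
    intro t
    by_cases ht : t ∈ T
    · refine ⟨{ toEquiv :=
          { toFun := trG c (Z t)
            invFun := trG c (W t)
            left_inv := fun y => trG_comp c (hWZ t ht) (hZm t ht) y
            right_inv := fun y => trG_comp c (hZW t ht) (hWm t ht) y }
                contMDiff_toFun := ?_
                contMDiff_invFun := ?_ }, fun _ y => rfl⟩
      · exact trG_smooth_one c z0 R hc (Z t) (hZt t ht) (hid t ht) (hZm t ht)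
      · exact trG_smooth_one c z0 R hc (W t) (hW t ht) (hidW t ht) (hWm t ht)
    · exact ⟨Diffeomorph.refl (𝓡 d) M ∞, fun h => absurd h ht⟩
  choose Φ hΦ using hex
  refine ⟨Φ, ⟨hT, ?_⟩, fun t ht => ⟨fun y hy => ?_, fun y hy => ?_⟩⟩
  · refine hjoint.congr ?_
    rintro ⟨t, y⟩ ⟨ht, _⟩
    exact hΦ t ht y
  · rw [hΦ t ht y]
    exact trG_id c z0 R (Z t) (hid t ht) hy
  · rw [hΦ t ht y]
    exact trG_of_mem c (Z t) hy

end Pool.Agent.Helper55.OS
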