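import Pool.Agent.Helper55.OS.BaseBump
import Pool.Agent.Helper55.OS.BaseTransfer

/-!
# OS-B06 BaseLocal: the local family of diffeomorphisms of M

TASK. Combine OS-B04 and OS-B05 with `T = Metric.ball 0 δ`. The ball is mapped onto itself by `Z p` (bijection of `R^d`,
identity outside), contained in the target, so the coordinates of `Φ p y` are `Z p` of the coordinates of `y`
(`PartialEquiv.right_inv`) for `y` in the source with coordinates in the ball.
-/

open Set Topology Manifold ContDiff Filter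

namespace Pool.Agent.Helper55.OS

variable {d : ℕ} {M : Type} [TopologicalSpace M] [ChartedSpace (E d) M] [IsManifold (𝓡 d) ∞ M]
  [T2Space M]

theorem exists_local_family (c : M) (z0 : E d) (R : ℝ) (hR : 0 < R)
    (hc : Metric.closedBall z0 R ⊆ (extChartAt (𝓡 d) c).target) :
    ∃ (δ : ℝ) (Φ : E d × (E d →L[ℝ] E d) → Dif d M), 0 < δ ∧ SmoothFam (Metric.ball 0 δ) Φ ∧
      (∀ y, Φ 0 y = y) ∧
      ∀ p ∈ Metric.ball (0 : E d × (E d →L[ℝ] E d)) δ,
        (∀ y, y ∉ chBall c z0 R → Φ p y = y) ∧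
        (∀ y ∈ chBall c z0 R, Φ p y ∈ chBall c z0 R) ∧
        (∀ y ∈ chBall c z0 (R / 2), Φ p y ∈ (extChartAt (𝓡 d) c).source ∧
          extChartAt (𝓡 d) c (Φ p y) =
            extChartAt (𝓡 d) c y + (p.1 + p.2 (extChartAt (𝓡 d) c y - z0))) := by
  obtain ⟨δ, Z, W, hδ, hZs, hZ0, hZout, hZin, hW⟩ := exists_bump_family z0 R hR
  have hn : ∀ p ∈ Metric.ball (0 : E d × (E d →L[ℝ] E d)) δ, ‖p‖ < δ := fun p hp => by
    rwa [mem_ball_zero_iff] at hp
  obtain ⟨Φ, hΦ, hΦt⟩ := exists_fam_of_chart (Metric.ball (0 : E d × (E d →L[ℝ] E d)) δ)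
    Metric.isOpen_ball c z0 R hR hc Z W hZs.contDiffOn
    (fun t ht => (hW t (hn t ht)).1) (fun t ht => (hW t (hn t ht)).2.1)
    (fun t ht => (hW t (hn t ht)).2.2) (fun t _ z hz => hZout t z hz)
  have hball : ∀ p ∈ Metric.ball (0 : E d × (E d →L[ℝ] E d)) δ, ∀ z ∈ Metric.ball z0 R,
      Z p z ∈ Metric.ball z0 R := by
    intro p hp z hz
    by_contra h
    have h1 := hZout p (Z p z) h
    have h2 := congrArg (W p) h1
    rw [(hW p (hn p hp)).2.1, (hW p (hn p hp)).2.1] at h2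
    rw [h2] at h
    exact h hz
  have hkey : ∀ p ∈ Metric.ball (0 : E d × (E d →L[ℝ] E d)) δ, ∀ y ∈ chBall c z0 R,
      Φ p y ∈ (extChartAt (𝓡 d) c).source ∧
        extChartAt (𝓡 d) c (Φ p y) = Z p (extChartAt (𝓡 d) c y) := by
    intro p hp y hy
    have h1 := (hΦt p hp).2 y hy.1
    have h2 : Z p (extChartAt (𝓡 d) c y) ∈ (extChartAt (𝓡 d) c).target :=
      hc (Metric.ball_subset_closedBall (hball p hp _ hy.2))
    rw [h1]
    exact ⟨(extChartAt (𝓡 d) c).map_target h2, (extChartAt (𝓡 d) c).right_inv h2⟩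
  refine ⟨δ, Φ, hδ, hΦ, ?_, ?_⟩
  · intro y
    have h0 : (0 : E d × (E d →L[ℝ] E d)) ∈ Metric.ball (0 : E d × (E d →L[ℝ] E d)) δ :=
      Metric.mem_ball_self hδ
    by_cases hy : y ∈ (extChartAt (𝓡 d) c).source
    · rw [(hΦt 0 h0).2 y hy, hZ0]
      exact (extChartAt (𝓡 d) c).left_inv hy
    · exact (hΦt 0 h0).1 y fun h => hy h.1
  · intro p hp
    refine ⟨(hΦt p hp).1, ?_, ?_⟩
    · intro y hy
      obtain ⟨h1, h2⟩ := hkey p hp y hy
      refine ⟨h1, ?_⟩
      rw [h2]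
      exact hball p hp _ hy.2
    · intro y hy
      have hy' : y ∈ chBall c z0 R :=
        ⟨hy.1, Metric.ball_subset_ball (by linarith) hy.2⟩
      obtain ⟨h1, h2⟩ := hkey p hp y hy'
      refine ⟨h1, ?_⟩
      rw [h2]
      exact hZin p _ hy.2

end Pool.Agent.Helper55.OS
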