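import Pool.Agent.Helper55.OS.BaseFam
import Pool.Agent.Helper55.OS.BaseLocal
import Pool.Agent.Helper55.OS.BaseComp

/-!
# OS-B10 BaseDeriv (interface P2): multiplying the derivative at one point

TASK. PROOF. Chart at `c = x0`, `z0 = extChartAt x0 x0`, `R` with the closed ball in the target and the chart ball in `U`. Local
family of OS-B06 restricted to `p = (0, L)` (OS-B07 comap by `L ↦ (0, L)`), `g = (Φ (0, L)).trans f`, `L = B - 1`; for `‖L‖`
small it is in `𝒰` (OS-B03). `Φ p x0 = x0` since `z0 + L 0 = z0`. Near `x0` the coordinates of `Φ p y` are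
`φ y + L (φ y - z0)`, so `df (Φ p) x0 = 1 + L = B`: `mfderiv` at `x0` of a self map fixing `x0` is
`fderivWithin ℝ (writtenInExtChartAt ...) (range (𝓡 d)) (extChartAt x0 x0)` with `range (𝓡 d) = univ` and the charts at `x0` and
at `Φ p x0 = x0` (`mfderiv`, `MDifferentiableAt.mfderiv`; rewrite `Φ p x0 = x0` first, e.g. via `HasMFDerivAt`), and this map
agrees near `z0` with `z ↦ z + L (z - z0)`. Chain rule `mfderiv_comp` at `x0`: `df g x0 = (df f (Φ p x0)).comp (df (Φ p) x0)`.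
-/

open Set Topology Manifold ContDiff Filter

namespace Pool.Agent.Helper55.OS

variable {d : ℕ} {M : Type} [TopologicalSpace M] [ChartedSpace (E d) M] [IsManifold (𝓡 d) ∞ M]
  [T2Space M]

omit [IsManifold (𝓡 d) ∞ M] [T2Space M] in
private lemma exists_radius_b10 (x0 : M) (U : Set M) (hU : U ∈ 𝓝 x0) :
    ∃ R : ℝ, 0 < R ∧ Metric.closedBall (extChartAt (𝓡 d) x0 x0) R ⊆ (extChartAt (𝓡 d) x0).target ∧
      chBall (d := d) x0 (extChartAt (𝓡 d) x0 x0) R ⊆ U := by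
  have h1 : (extChartAt (𝓡 d) x0).target ∈ 𝓝 (extChartAt (𝓡 d) x0 x0) :=
    extChartAt_target_mem_nhds x0
  have h2 : (extChartAt (𝓡 d) x0).symm ⁻¹' U ∈ 𝓝 (extChartAt (𝓡 d) x0 x0) := by
    refine (continuousAt_extChartAt_symm x0).preimage_mem_nhds ?_
    rw [extChartAt_to_inv]
    exact hU
  obtain ⟨R, hR, hsub⟩ := Metric.nhds_basis_closedBall.mem_iff.1 (inter_mem h1 h2)
  refine ⟨R, hR, fun z hz => (hsub hz).1, ?_⟩
  rintro y ⟨hy, hyb⟩
  have h3 := (hsub (Metric.ball_subset_closedBall hyb)).2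
  rw [mem_preimage, (extChartAt (𝓡 d) x0).left_inv hy] at h3
  exact h3

theorem mul_deriv (f : Dif d M) (𝒰 : Set (Dif d M)) (h𝒰 : IsOpen[smoothTop d M] 𝒰)
    (hf : f ∈ 𝒰) (x0 : M) (U : Set M) (hU : U ∈ 𝓝 x0) :
    ∃ ε : ℝ, 0 < ε ∧ ∀ B : E d →L[ℝ] E d, ‖B - ContinuousLinearMap.id ℝ (E d)‖ < ε →
      ∃ g ∈ 𝒰, (∀ y, y ∉ U → g y = f y) ∧ g x0 = f x0 ∧
        df (d := d) (g : M → M) x0 = (df (d := d) (f : M → M) x0).comp B := by
  obtain ⟨R, hR, hRt, hRU⟩ := exists_radius_b10 (d := d) x0 U hU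
  obtain ⟨z0, hz0⟩ : ∃ z0, z0 = extChartAt (𝓡 d) x0 x0 := ⟨_, rfl⟩
  rw [← hz0] at hRt hRU
  obtain ⟨δ, Φ, hδ, hΦ, hΦ0, hΦp⟩ := exists_local_family (d := d) x0 z0 R hR hRt
  have hmaps : MapsTo (fun L : E d →L[ℝ] E d => ((0 : E d), L)) (Metric.ball 0 δ)
      (Metric.ball (0 : E d × (E d →L[ℝ] E d)) δ) := by
    intro L hL
    rw [mem_ball_zero_iff] at hL ⊢
    rw [Prod.norm_mk, norm_zero]
    exact max_lt hδ hL
  have hΨ : SmoothFam (Metric.ball (0 : E d →L[ℝ] E d) δ)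
      (fun L : E d →L[ℝ] E d => (Φ ((0 : E d), L)).trans f) := by
    refine smoothFam_then _ (fun L : E d →L[ℝ] E d => Φ ((0 : E d), L)) ?_ f
    refine smoothFam_comap (Metric.ball 0 δ) Φ hΦ _ Metric.isOpen_ball
      (fun L : E d →L[ℝ] E d => ((0 : E d), L)) ?_ hmaps
    exact (contDiff_const.prodMk contDiff_id).contDiffOn
  have h0 : (fun L : E d →L[ℝ] E d => (Φ ((0 : E d), L)).trans f) 0 ∈ 𝒰 := by
    have h1 : (Φ ((0 : E d), (0 : E d →L[ℝ] E d))).trans f = f := by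
      refine Diffeomorph.ext fun y => ?_
      have h2 := hΦ0 y
      rw [Diffeomorph.coe_trans, Function.comp_apply]
      exact congrArg f h2
    change (Φ ((0 : E d), (0 : E d →L[ℝ] E d))).trans f ∈ 𝒰
    rw [h1]
    exact hf
  have hev := eventually_mem_of_smoothFam (Metric.ball (0 : E d →L[ℝ] E d) δ) _ hΨ 0
    (Metric.mem_ball_self hδ) 𝒰 h𝒰 h0
  obtain ⟨ε1, hε1, hball⟩ := Metric.eventually_nhds_iff_ball.1 hev
  refine ⟨min ε1 δ, lt_min hε1 hδ, fun B hB => ?_⟩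
  obtain ⟨L, hL⟩ : ∃ L : E d →L[ℝ] E d, L = B - ContinuousLinearMap.id ℝ (E d) := ⟨_, rfl⟩
  rw [← hL] at hB
  have hLδ : L ∈ Metric.ball (0 : E d →L[ℝ] E d) δ := by
    rw [mem_ball_zero_iff]
    exact lt_of_lt_of_le hB (min_le_right _ _)
  have hLε : L ∈ Metric.ball (0 : E d →L[ℝ] E d) ε1 := by
    rw [mem_ball_zero_iff]
    exact lt_of_lt_of_le hB (min_le_left _ _)
  obtain ⟨hout, hin, hhalf⟩ := hΦp ((0 : E d), L) (hmaps hLδ)
  obtain ⟨φ, hφ⟩ : ∃ φ : Dif d M, φ = Φ ((0 : E d), L) := ⟨_, rfl⟩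
  rw [← hφ] at hout hin hhalf
  have hx0s : x0 ∈ (extChartAt (𝓡 d) x0).source := mem_extChartAt_source x0
  have hx0 : x0 ∈ chBall (d := d) x0 z0 (R / 2) := by
    refine ⟨hx0s, ?_⟩
    rw [← hz0]
    exact Metric.mem_ball_self (by positivity)
  have hφx : φ x0 = x0 := by
    obtain ⟨h1, h2⟩ := hhalf x0 hx0
    refine (extChartAt (𝓡 d) x0).injOn h1 hx0s ?_
    rw [h2, ← hz0]
    simp
  have hder : HasMFDerivAt (𝓡 d) (𝓡 d) (φ : M → M) x0 B := by
    refine ⟨φ.continuous.continuousAt, ?_⟩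
    rw [writtenInExtChartAt, hφx, ← hz0]
    have hlin : HasFDerivAt (fun w : E d => w + ((0 : E d) + L (w - z0))) B z0 := by
      have h1 : HasFDerivAt (fun w : E d => w + ((0 : E d) + L (w - z0)))
          (ContinuousLinearMap.id ℝ (E d) + (0 + L.comp (ContinuousLinearMap.id ℝ (E d)))) z0 := by
        refine (hasFDerivAt_id z0).add ((hasFDerivAt_const _ _).add ?_)
        exact L.hasFDerivAt.comp z0 ((hasFDerivAt_id z0).sub_const z0)
      have h2 : ContinuousLinearMap.id ℝ (E d) + (0 + L.comp (ContinuousLinearMap.id ℝ (E d))) = B := by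
        rw [hL]
        ext v
        simp
      rwa [h2] at h1
    refine HasFDerivAt.hasFDerivWithinAt ?_
    refine hlin.congr_of_eventuallyEq ?_
    have hb : Metric.ball z0 (R / 2) ∈ 𝓝 z0 := Metric.ball_mem_nhds z0 (by positivity)
    filter_upwards [hb] with w hw
    have hwt : w ∈ (extChartAt (𝓡 d) x0).target :=
      hRt (Metric.ball_subset_closedBall (Metric.ball_subset_ball (by linarith) hw))
    have hys : (extChartAt (𝓡 d) x0).symm w ∈ (extChartAt (𝓡 d) x0).source :=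
      (extChartAt (𝓡 d) x0).map_target hwt
    have hyw : extChartAt (𝓡 d) x0 ((extChartAt (𝓡 d) x0).symm w) = w :=
      (extChartAt (𝓡 d) x0).right_inv hwt
    have h3 := (hhalf ((extChartAt (𝓡 d) x0).symm w) ⟨hys, by rw [hyw]; exact hw⟩).2
    rw [hyw] at h3
    exact h3
  refine ⟨φ.trans f, ?_, fun y hy => ?_, ?_, ?_⟩
  · have h1 := hball L hLε
    rw [hφ]
    exact h1
  · rw [Diffeomorph.coe_trans, Function.comp_apply, hout y fun hc => hy (hRU hc)]
  · rw [Diffeomorph.coe_trans, Function.comp_apply, hφx]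
  · have h1 : HasMFDerivAt (𝓡 d) (𝓡 d) (f : M → M) (φ x0) (mfderiv (𝓡 d) (𝓡 d) (f : M → M) (φ x0)) :=
      ((f.mdifferentiable (by simp)) (φ x0)).hasMFDerivAt
    have h2 := (HasMFDerivAt.comp x0 h1 hder).mfderiv
    have h3 : mfderiv (𝓡 d) (𝓡 d) (φ.trans f : M → M) x0 =
        (df (d := d) (f : M → M) (φ x0)).comp B := h2
    have h4 : df (d := d) (φ.trans f : M → M) x0 = (df (d := d) (f : M → M) (φ x0)).comp B := h3
    rw [h4, hφx]

end Pool.Agent.Helper55.OS
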