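import Pool.Agent.Helper55.OS.BaseParam

/-!
# OS-B03 BaseFam: a jointly smooth family is continuous for the C^infinity topology

TASK. `Φ` jointly smooth on `T × M`, `𝒰` open for `smoothTop`, `Φ t₀ ∈ 𝒰`: then `Φ t ∈ 𝒰` for `t` near `t₀`.
PROOF. `IsOpen[smoothTop d M] 𝒰` is `TopologicalSpace.GenerateOpen`; induction: `univ`, `inter` (Eventually.and),
`sUnion` (one member contains `Φ t₀`) are immediate. `basic`: `𝒰 = subNhd f c c' K r ε` with the side conditions.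
Put `ψ t w = extChartAt c' (Φ t ((extChartAt c).symm w))`. On the open set
`O = {(t, w) | t ∈ T, w ∈ (extChartAt c).target, Φ t ((extChartAt c).symm w) ∈ (extChartAt c').source}`
`ψ` is jointly smooth (composition of `ContMDiffOn` maps: `contMDiffOn_extChartAt`, `contMDiffOn_extChartAt_symm`,
then `contMDiffOn_iff_contDiffOn`; the model of `P × E d` is `𝓘(ℝ, P).prod 𝓘(ℝ, E d) = 𝓘(ℝ, P × E d)`:
`modelWithCornersSelf_prod`, `chartedSpaceSelf_prod`), so by OS-B02 all `iteratedFDeriv ℝ k (ψ t) w` are continuous on `O`;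
the same for the constant family `f` (smooth near every `z ∈ K`). So for each `z ∈ K`, eventually for `(t, w)` near
`(t₀, z)`: `(t, w) ∈ O` and for all `k ≤ r` the norm of the difference in `subNhd` at `w` is `< ε` (finitely many `k`).
`K` compact: `IsCompact.eventually_forall_of_forall_eventually` gives one neighbourhood of `t₀` for all `z ∈ K`.
-/

open Set Topology Manifold ContDiff Filter

namespace Pool.Agent.Helper55.OS

variable {d : ℕ} {M : Type} [TopologicalSpace M] [ChartedSpace (E d) M] [IsManifold (𝓡 d) ∞ M]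

theorem fam_chart_b03 {P : Type} [NormedAddCommGroup P] [NormedSpace ℝ P]
    (T : Set P) (Φ : P → Dif d M) (hΦ : SmoothFam T Φ) (c c' : M) :
    IsOpen {q : P × E d | (q.1 ∈ T ∧ q.2 ∈ (extChartAt (𝓡 d) c).target) ∧
      Φ q.1 ((extChartAt (𝓡 d) c).symm q.2) ∈ (extChartAt (𝓡 d) c').source} ∧
    ContDiffOn ℝ ∞ (fun q : P × E d => extChartAt (𝓡 d) c'
      (Φ q.1 ((extChartAt (𝓡 d) c).symm q.2)))
      {q : P × E d | (q.1 ∈ T ∧ q.2 ∈ (extChartAt (𝓡 d) c).target) ∧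
      Φ q.1 ((extChartAt (𝓡 d) c).symm q.2) ∈ (extChartAt (𝓡 d) c').source} := by
  have hG : ContMDiffOn (𝓘(ℝ, P).prod 𝓘(ℝ, E d)) (𝓡 d) ∞
      (fun q : P × E d => Φ q.1 ((extChartAt (𝓡 d) c).symm q.2))
      (T ×ˢ (extChartAt (𝓡 d) c).target) := by
    have h1 : ContMDiffOn (𝓘(ℝ, P).prod 𝓘(ℝ, E d)) (𝓘(ℝ, P).prod (𝓡 d)) ∞
        (fun q : P × E d => (q.1, (extChartAt (𝓡 d) c).symm q.2))
        (T ×ˢ (extChartAt (𝓡 d) c).target) := by
      refine ContMDiffOn.prodMk contMDiffOn_fst ?_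
      exact (contMDiffOn_extChartAt_symm (I := 𝓡 d) (n := ∞) c).comp contMDiffOn_snd
        (fun q hq => hq.2)
    exact hΦ.2.comp h1 (fun q hq => ⟨hq.1, mem_univ _⟩)
  have hopen : IsOpen {q : P × E d | (q.1 ∈ T ∧ q.2 ∈ (extChartAt (𝓡 d) c).target) ∧
      Φ q.1 ((extChartAt (𝓡 d) c).symm q.2) ∈ (extChartAt (𝓡 d) c').source} :=
    hG.continuousOn.isOpen_inter_preimage
      (hΦ.1.prod (isOpen_extChartAt_target c)) (isOpen_extChartAt_source c')
  refine ⟨hopen, ?_⟩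
  have h2 : ContMDiffOn (𝓘(ℝ, P).prod 𝓘(ℝ, E d)) 𝓘(ℝ, E d) ∞
      (fun q : P × E d => extChartAt (𝓡 d) c' (Φ q.1 ((extChartAt (𝓡 d) c).symm q.2)))
      {q : P × E d | (q.1 ∈ T ∧ q.2 ∈ (extChartAt (𝓡 d) c).target) ∧
      Φ q.1 ((extChartAt (𝓡 d) c).symm q.2) ∈ (extChartAt (𝓡 d) c').source} := by
    refine (contMDiffOn_extChartAt (I := 𝓡 d) (n := ∞) (x := c')).comp
      (hG.mono fun q hq => hq.1) ?_
    intro q hq
    have h3 := hq.2
    rw [extChartAt_source] at h3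
    exact h3
  rw [← modelWithCornersSelf_prod, chartedSpaceSelf_prod] at h2
  exact contMDiffOn_iff_contDiffOn.1 h2

theorem fam_cont_b03 {P : Type} [NormedAddCommGroup P] [NormedSpace ℝ P]
    (T : Set P) (Φ : P → Dif d M) (hΦ : SmoothFam T Φ) (c c' : M) (t₀ : P) (ht₀ : t₀ ∈ T)
    (z : E d) (hz : z ∈ (extChartAt (𝓡 d) c).target)
    (hs : Φ t₀ ((extChartAt (𝓡 d) c).symm z) ∈ (extChartAt (𝓡 d) c').source) :
    (∀ᶠ q : P × E d in 𝓝 (t₀, z),
      Φ q.1 ((extChartAt (𝓡 d) c).symm q.2) ∈ (extChartAt (𝓡 d) c').source) ∧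
    ∀ k : ℕ, ContinuousAt (fun q : P × E d => iteratedFDeriv ℝ k (fun w => extChartAt (𝓡 d) c'
      (Φ q.1 ((extChartAt (𝓡 d) c).symm w))) q.2) (t₀, z) := by
  obtain ⟨hO, hF⟩ := fam_chart_b03 T Φ hΦ c c'
  have hmem : {q : P × E d | (q.1 ∈ T ∧ q.2 ∈ (extChartAt (𝓡 d) c).target) ∧
      Φ q.1 ((extChartAt (𝓡 d) c).symm q.2) ∈ (extChartAt (𝓡 d) c').source} ∈ 𝓝 (t₀, z) :=
    hO.mem_nhds ⟨⟨ht₀, hz⟩, hs⟩
  constructor
  · filter_upwards [hmem] with q hq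
    exact hq.2
  · intro k
    exact (contDiffOn_iteratedFDeriv_family (fun t w => extChartAt (𝓡 d) c'
      (Φ t ((extChartAt (𝓡 d) c).symm w))) _ hO hF k).continuousOn.continuousAt hmem

theorem eventually_subNhd_b03 {P : Type} [NormedAddCommGroup P] [NormedSpace ℝ P]
    (T : Set P) (Φ : P → Dif d M) (hΦ : SmoothFam T Φ) (t₀ : P) (ht₀ : t₀ ∈ T)
    (f : Dif d M) (c c' : M) (K : Set (E d)) (r : ℕ) (ε : ℝ) (hK : IsCompact K)
    (hKc : K ⊆ (extChartAt (𝓡 d) c).target)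
    (hf : ∀ z ∈ K, f ((extChartAt (𝓡 d) c).symm z) ∈ (extChartAt (𝓡 d) c').source)
    (h0 : Φ t₀ ∈ subNhd f c c' K r ε) : ∀ᶠ t in 𝓝 t₀, Φ t ∈ subNhd f c c' K r ε := by
  have hconst : SmoothFam (univ : Set P) (fun _ : P => f) := by
    refine ⟨isOpen_univ, ?_⟩
    exact (f.contMDiff.comp contMDiff_snd).contMDiffOn
  have key : ∀ z ∈ K, ∀ᶠ q : P × E d in 𝓝 (t₀, z),
      (Φ q.1 ((extChartAt (𝓡 d) c).symm q.2) ∈ (extChartAt (𝓡 d) c').source) ∧
      ∀ k ≤ r, ‖iteratedFDeriv ℝ k (fun w => extChartAt (𝓡 d) c'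
        (Φ q.1 ((extChartAt (𝓡 d) c).symm w))) q.2 -
        iteratedFDeriv ℝ k (fun w => extChartAt (𝓡 d) c'
        (f ((extChartAt (𝓡 d) c).symm w))) q.2‖ < ε := by
    intro z hz
    obtain ⟨h1, h2⟩ := fam_cont_b03 T Φ hΦ c c' t₀ ht₀ z (hKc hz) (h0.1 z hz)
    obtain ⟨-, h4⟩ := fam_cont_b03 univ (fun _ : P => f) hconst c c' t₀ (mem_univ _) z
      (hKc hz) (hf z hz)
    refine h1.and ?_
    have h5 : ∀ k ∈ Finset.range (r + 1), ∀ᶠ q : P × E d in 𝓝 (t₀, z),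
        ‖iteratedFDeriv ℝ k (fun w => extChartAt (𝓡 d) c'
        (Φ q.1 ((extChartAt (𝓡 d) c).symm w))) q.2 -
        iteratedFDeriv ℝ k (fun w => extChartAt (𝓡 d) c'
        (f ((extChartAt (𝓡 d) c).symm w))) q.2‖ < ε := by
      intro k hk
      have h6 := ((h2 k).sub (h4 k)).norm
      exact h6.eventually_lt continuousAt_const
        (h0.2 z hz k (by rw [Finset.mem_range] at hk; omega))
    have h7 := (Finset.eventually_all (Finset.range (r + 1))).2 h5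
    filter_upwards [h7] with q hq k hk
    exact hq k (Finset.mem_range.2 (by omega))
  filter_upwards [hK.eventually_forall_of_forall_eventually
    (P := fun (t : P) (w' : E d) =>
      (Φ t ((extChartAt (𝓡 d) c).symm w') ∈ (extChartAt (𝓡 d) c').source) ∧
      ∀ k ≤ r, ‖iteratedFDeriv ℝ k (fun w => extChartAt (𝓡 d) c'
        (Φ t ((extChartAt (𝓡 d) c).symm w))) w' -
        iteratedFDeriv ℝ k (fun w => extChartAt (𝓡 d) c'
        (f ((extChartAt (𝓡 d) c).symm w))) w'‖ < ε) key] with t ht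
  exact ⟨fun z hz => (ht z hz).1, fun z hz k hk => (ht z hz).2 k hk⟩

theorem eventually_mem_of_smoothFam {P : Type} [NormedAddCommGroup P] [NormedSpace ℝ P]
    (T : Set P) (Φ : P → Dif d M) (hΦ : SmoothFam T Φ) (t₀ : P) (ht₀ : t₀ ∈ T)
    (𝒰 : Set (Dif d M)) (h𝒰 : IsOpen[smoothTop d M] 𝒰) (h0 : Φ t₀ ∈ 𝒰) :
    ∀ᶠ t in 𝓝 t₀, Φ t ∈ 𝒰 := by
  have h𝒰' : TopologicalSpace.GenerateOpen {U | ∃ (f : Dif d M) (c c' : M) (K : Set (E d))
    (r : ℕ) (ε : ℝ), IsCompact K ∧ K ⊆ (extChartAt (𝓡 d) c).target ∧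
    (∀ z ∈ K, f ((extChartAt (𝓡 d) c).symm z) ∈ (extChartAt (𝓡 d) c').source) ∧ 0 < ε ∧
    U = subNhd f c c' K r ε} 𝒰 := h𝒰
  induction h𝒰' with
  | basic s hs =>
    obtain ⟨f, c, c', K, r, ε, hK, hKc, hf, -, rfl⟩ := hs
    exact eventually_subNhd_b03 T Φ hΦ t₀ ht₀ f c c' K r ε hK hKc hf h0
  | univ => exact Eventually.of_forall fun t => mem_univ _
  | inter s t hs ht ihs iht =>
    exact (ihs hs h0.1).and (iht ht h0.2)
  | sUnion S hS ih =>
    obtain ⟨s, hs, hs0⟩ := h0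
    filter_upwards [ih s hs (hS s hs) hs0] with t ht
    exact ⟨s, hs, ht⟩

end Pool.Agent.Helper55.OS
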