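import Pool.Agent.Helper55.OS.BaseLocal
import Pool.Agent.Helper55.OS.BaseComp

/-!
# OS-B08 BaseMulti: translations in finitely many disjoint chart balls

TASK. Induction on `k`. `k = 0`: the constant family `refl`. Step: for `Fin (k + 1)` take the family `Ψ` of the first `k`
balls (index `Fin.castSucc`) pulled back by `v ↦ v ∘ Fin.castSucc` and the local family of OS-B06 of the last ball pulled
back by `v ↦ (v (Fin.last k), 0)` (OS-B07: `smoothFam_comap`, `smoothFam_trans`), `δ` the minimum. A point of the half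
ball of index `i < k`: it is not in the last ball (the balls are disjoint), so the last map fixes it; conversely apply `Ψ` first
or last as is convenient: a point of the last ball is fixed by `Ψ v`. (For `v ∈ ball 0 δ` all `‖v i‖ < δ`: `norm_le_pi_norm`.)
-/

open Set Topology Manifold ContDiff Filter

namespace Pool.Agent.Helper55.OS

variable {d : ℕ} {M : Type} [TopologicalSpace M] [ChartedSpace (E d) M] [IsManifold (𝓡 d) ∞ M]
  [T2Space M]

theorem exists_multi_family (k : ℕ) (c : Fin k → M) (z0 : Fin k → E d) (R : Fin k → ℝ)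
    (hR : ∀ i, 0 < R i)
    (hc : ∀ i, Metric.closedBall (z0 i) (R i) ⊆ (extChartAt (𝓡 d) (c i)).target)
    (hdis : ∀ i j, i ≠ j → Disjoint (chBall (c i) (z0 i) (R i)) (chBall (c j) (z0 j) (R j))) :
    ∃ (δ : ℝ) (Φ : (Fin k → E d) → Dif d M), 0 < δ ∧ SmoothFam (Metric.ball 0 δ) Φ ∧
      (∀ y, Φ 0 y = y) ∧
      ∀ v ∈ Metric.ball (0 : Fin k → E d) δ,
        (∀ y, (∀ i, y ∉ chBall (c i) (z0 i) (R i)) → Φ v y = y) ∧
        (∀ i, ∀ y ∈ chBall (c i) (z0 i) (R i / 2), Φ v y ∈ (extChartAt (𝓡 d) (c i)).source ∧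
          extChartAt (𝓡 d) (c i) (Φ v y) = extChartAt (𝓡 d) (c i) y + v i) := by
  induction k with
  | zero =>
    refine ⟨1, fun _ => Diffeomorph.refl (𝓡 d) M ∞, one_pos, smoothFam_refl _ Metric.isOpen_ball,
      fun y => rfl, fun v _ => ⟨fun y _ => rfl, fun i => i.elim0⟩⟩
  | succ k ih =>
    obtain ⟨δ1, Ψ, hδ1, hΨs, hΨ0, hΨ⟩ := ih (fun i => c i.castSucc) (fun i => z0 i.castSucc)
      (fun i => R i.castSucc) (fun i => hR _) (fun i => hc _)
      (fun i j hij => hdis _ _ fun h => hij (Fin.castSucc_injective _ h))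
    obtain ⟨δ2, Φ', hδ2, hΦs, hΦ0, hΦ⟩ := exists_local_family (c (Fin.last k)) (z0 (Fin.last k))
      (R (Fin.last k)) (hR _) (hc _)
    have hm1 : ∀ v ∈ Metric.ball (0 : Fin (k + 1) → E d) (min δ1 δ2),
        (fun i : Fin k => v i.castSucc) ∈ Metric.ball (0 : Fin k → E d) δ1 := by
      intro v hv
      rw [mem_ball_zero_iff] at hv ⊢
      refine lt_of_le_of_lt ?_ (lt_of_lt_of_le hv (min_le_left _ _))
      rw [pi_norm_le_iff_of_nonneg (norm_nonneg _)]
      exact fun i => norm_le_pi_norm v _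
    have hm2 : ∀ v ∈ Metric.ball (0 : Fin (k + 1) → E d) (min δ1 δ2),
        ((v (Fin.last k), 0) : E d × (E d →L[ℝ] E d)) ∈
          Metric.ball (0 : E d × (E d →L[ℝ] E d)) δ2 := by
      intro v hv
      rw [mem_ball_zero_iff] at hv ⊢
      refine lt_of_le_of_lt ?_ (lt_of_lt_of_le hv (min_le_right _ _))
      rw [Prod.norm_mk, norm_zero, max_eq_left (norm_nonneg _)]
      exact norm_le_pi_norm v _
    refine ⟨min δ1 δ2, fun v => (Φ' (v (Fin.last k), 0)).trans (Ψ fun i : Fin k => v i.castSucc),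
      lt_min hδ1 hδ2, ?_, ?_, ?_⟩
    · refine smoothFam_trans _ _ _ ?_ ?_
      · refine smoothFam_comap _ Φ' hΦs _ Metric.isOpen_ball
          (fun v : Fin (k + 1) → E d => ((v (Fin.last k), 0) : E d × (E d →L[ℝ] E d))) ?_ hm2
        exact ((contDiff_apply ℝ (E d) (Fin.last k)).prodMk contDiff_const).contDiffOn
      · refine smoothFam_comap _ Ψ hΨs _ Metric.isOpen_ball
          (fun (v : Fin (k + 1) → E d) (i : Fin k) => v i.castSucc) ?_ hm1
        exact (contDiff_pi.2 fun i : Fin k => contDiff_apply ℝ (E d) (Fin.castSucc i)).contDiffOn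
    · intro y
      rw [Diffeomorph.coe_trans]
      simp only [Function.comp_apply, Pi.zero_apply]
      have h1 : ((0, 0) : E d × (E d →L[ℝ] E d)) = 0 := rfl
      have h2 : (fun _ : Fin k => (0 : E d)) = 0 := rfl
      rw [h1, h2, hΦ0, hΨ0]
    · intro v hv
      obtain ⟨hA, hB⟩ := hΨ _ (hm1 v hv)
      obtain ⟨hC, hD, hE⟩ := hΦ _ (hm2 v hv)
      refine ⟨fun y hy => ?_, fun i => ?_⟩
      · rw [Diffeomorph.coe_trans, Function.comp_apply, hC y (hy _), hA y fun i => hy _]
      · refine Fin.lastCases ?_ (fun j => ?_) i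
        · intro y hy
          have hy' : y ∈ chBall (c (Fin.last k)) (z0 (Fin.last k)) (R (Fin.last k)) :=
            ⟨hy.1, Metric.ball_subset_ball (by linarith [hR (Fin.last k)]) hy.2⟩
          have h1 := hD y hy'
          have h2 := hA (Φ' (v (Fin.last k), 0) y) fun j hj =>
            Set.disjoint_left.1 (hdis (Fin.last k) j.castSucc (Fin.castSucc_lt_last j).ne') h1 hj
          rw [Diffeomorph.coe_trans, Function.comp_apply, h2]
          obtain ⟨h3, h4⟩ := hE y hy
          refine ⟨h3, ?_⟩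
          rw [h4]
          simp
        · intro y hy
          have hy' : y ∈ chBall (c j.castSucc) (z0 j.castSucc) (R j.castSucc) :=
            ⟨hy.1, Metric.ball_subset_ball (by linarith [hR j.castSucc]) hy.2⟩
          have h2 := hC y fun hj =>
            Set.disjoint_left.1 (hdis (Fin.last k) j.castSucc (Fin.castSucc_lt_last j).ne') hj hy'
          rw [Diffeomorph.coe_trans, Function.comp_apply, h2]
          exact hB j y hy

end Pool.Agent.Helper55.OS
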