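import Pool.Agent.Helper55.OS.BaseDefs

/-!
# OS-B01 BaseOpen: the subbasic sets

TASK. Immediate: `mem_subNhd_self` by `sub_self`; `isOpen_subNhd` is `TopologicalSpace.isOpen_generateFrom_of_mem`
(unfold `smoothTop`).
-/

open Set Topology Manifold ContDiff Filter

namespace Pool.Agent.Helper55.OS

variable {d : ℕ} {M : Type} [TopologicalSpace M] [ChartedSpace (E d) M]

theorem mem_subNhd_self (f : Dif d M) (c c' : M) (K : Set (E d)) (r : ℕ) (ε : ℝ) (hε : 0 < ε)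
    (h : ∀ z ∈ K, f ((extChartAt (𝓡 d) c).symm z) ∈ (extChartAt (𝓡 d) c').source) :
    f ∈ subNhd f c c' K r ε := by
  refine ⟨h, fun z _ k _ => ?_⟩
  rw [sub_self, norm_zero]
  exact hε

theorem isOpen_subNhd (f : Dif d M) (c c' : M) (K : Set (E d)) (r : ℕ) (ε : ℝ) (hε : 0 < ε)
    (hK : IsCompact K) (hKt : K ⊆ (extChartAt (𝓡 d) c).target)
    (h : ∀ z ∈ K, f ((extChartAt (𝓡 d) c).symm z) ∈ (extChartAt (𝓡 d) c').source) :
    IsOpen[smoothTop d M] (subNhd f c c' K r ε) :=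
  TopologicalSpace.isOpen_generateFrom_of_mem ⟨f, c, c', K, r, ε, hK, hKt, h, hε, rfl⟩

end Pool.Agent.Helper55.OS
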