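import Pool.Agent.Helper55.OS.BaseDefs

/-!
# OS-B02 BaseParam: iterated derivatives of a jointly smooth family

TASK. If `g t w` is jointly `C^∞` on the open set `O`, so is `(t, w) ↦ iteratedFDeriv ℝ k (g t) w`.
PROOF. Induction on `k` (the statement for all `g`, or for `iteratedFDeriv ℝ k (g t)` itself). `k = 0`:
`iteratedFDeriv_zero_eq_comp`, composition with a continuous linear equivalence. Step:
`iteratedFDeriv_succ_eq_comp_left`: `iteratedFDeriv ℝ (k+1) f = (curry equivalence) ∘ fderiv ℝ (iteratedFDeriv ℝ k f)`,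
so with `h t w = iteratedFDeriv ℝ k (g t) w`, jointly `C^∞` on `O`, one needs that `(t, w) ↦ fderiv ℝ (h t) w` is
jointly `C^∞` at the points of `O`: Mathlib `ContDiffAt.fderiv` (file Analysis/Calculus/ContDiff/Comp.lean), applied with
`f := fun (q : P × F) (w : F) => h q.1 w` and `g := Prod.snd`, `O` is open so use `ContDiffAt` at each point.
-/

open Set Topology Manifold ContDiff Filter

namespace Pool.Agent.Helper55.OS

theorem contDiffOn_iteratedFDeriv_family {P F G : Type} [NormedAddCommGroup P] [NormedSpace ℝ P]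
    [NormedAddCommGroup F] [NormedSpace ℝ F] [NormedAddCommGroup G] [NormedSpace ℝ G]
    (g : P → F → G) (O : Set (P × F)) (hO : IsOpen O)
    (hg : ContDiffOn ℝ ∞ (fun q : P × F => g q.1 q.2) O) (k : ℕ) :
    ContDiffOn ℝ ∞ (fun q : P × F => iteratedFDeriv ℝ k (g q.1) q.2) O := by
  induction k with
  | zero =>
    have h1 : (fun q : P × F => iteratedFDeriv ℝ 0 (g q.1) q.2) =
        (fun q : P × F => (continuousMultilinearCurryFin0 ℝ F G).symm (g q.1 q.2)) := by
      funext q
      rw [iteratedFDeriv_zero_eq_comp]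
      rfl
    rw [h1]
    exact (continuousMultilinearCurryFin0 ℝ F G).symm.contDiff.comp_contDiffOn hg
  | succ k ih =>
    have h2 : ContDiffOn ℝ ∞
        (fun q : P × F => fderiv ℝ (iteratedFDeriv ℝ k (g q.1)) q.2) O := by
      intro q hq
      have hat : ContDiffAt ℝ ∞ (fun q : P × F => iteratedFDeriv ℝ k (g q.1) q.2) q :=
        ih.contDiffAt (hO.mem_nhds hq)
      have h3 : ContDiffAt ℝ ∞
          (Function.uncurry (fun (q : P × F) (w : F) => iteratedFDeriv ℝ k (g q.1) w))
          (q, q.2) := by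
        have h4 : ContDiffAt ℝ ∞ (fun z : (P × F) × F => ((z.1.1, z.2) : P × F)) (q, q.2) :=
          (contDiffAt_fst.comp _ contDiffAt_fst).prodMk contDiffAt_snd
        have h5 := ContDiffAt.comp (q, q.2) (g := fun q : P × F => iteratedFDeriv ℝ k (g q.1) q.2)
          (f := fun z : (P × F) × F => ((z.1.1, z.2) : P × F)) hat h4
        exact h5
      have h6 : ContDiffAt ℝ ∞
          (fun x : P × F => fderiv ℝ ((fun (q : P × F) (w : F) =>
            iteratedFDeriv ℝ k (g q.1) w) x) (Prod.snd x)) q :=
        ContDiffAt.fderiv (n := ∞) h3 contDiffAt_snd (by simp)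
      exact h6.contDiffWithinAt
    have h7 : (fun q : P × F => iteratedFDeriv ℝ (k + 1) (g q.1) q.2) =
        (fun q : P × F => (continuousMultilinearCurryLeftEquiv ℝ (fun _ : Fin (k + 1) => F) G).symm
          (fderiv ℝ (iteratedFDeriv ℝ k (g q.1)) q.2)) := by
      funext q
      rw [iteratedFDeriv_succ_eq_comp_left]
      rfl
    rw [h7]
    exact (continuousMultilinearCurryLeftEquiv ℝ
      (fun _ : Fin (k + 1) => F) G).symm.contDiff.comp_contDiffOn h2

end Pool.Agent.Helper55.OS
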