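import Pool.Agent.Helper55.OS.BaseFam
import Pool.Agent.Helper55.OS.BaseMulti

/-!
# OS-B09 BasePush (interface P1): pushing finitely many points

TASK. PROOF. For each `i` choose the chart at `x i` and `R i > 0` with `closedBall (φ_i (x i)) (R i)` in the target of the chart
and `chBall (x i) (φ_i (x i)) (R i) ⊆ U i` (`U i` is a neighbourhood of `x i`; `extChartAt` is continuous at its centre, the
target is open). OS-B08 gives `δ` and `Φ`; `v ↦ (Φ v).trans f` is a smooth family (OS-B07) equal to `f` at `v = 0`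
(`Φ 0 = refl`, `Diffeomorph.ext`), so by OS-B03 there is `δ' ≤ δ` with `(Φ v).trans f ∈ 𝒰` for `‖v‖ < δ'`. Let
`D i` be the set of the points `y ∈ chBall (x i) (φ_i (x i)) (R i / 2)`, `y ∈ U i`, with `‖φ_i y - φ_i (x i)‖ < δ' / 2`. For
`a i, b i ∈ D i` put `v i = φ_i (a i) - φ_i (b i)`, `‖v‖ < δ'` (pi norm; `k = 0` is trivial), `g = (Φ v).trans f`:
`φ_i (Φ v (b i)) = φ_i (a i)` and both points are in the source, so `Φ v (b i) = a i` (injectivity of the chart on its source).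
Off the union of the `U i` the point is in no chart ball, so `Φ v` fixes it.
-/

open Set Topology Manifold ContDiff Filter

namespace Pool.Agent.Helper55.OS

variable {d : ℕ} {M : Type} [TopologicalSpace M] [ChartedSpace (E d) M] [IsManifold (𝓡 d) ∞ M]
  [T2Space M]

theorem push_points (f : Dif d M) (𝒰 : Set (Dif d M)) (h𝒰 : IsOpen[smoothTop d M] 𝒰)
    (hf : f ∈ 𝒰) (k : ℕ) (x : Fin k → M) (U : Fin k → Set M)
    (hU : ∀ i, U i ∈ 𝓝 (x i)) (hdis : ∀ i j, i ≠ j → Disjoint (U i) (U j)) :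
    ∃ D : Fin k → Set M, (∀ i, D i ∈ 𝓝 (x i)) ∧ (∀ i, D i ⊆ U i) ∧
      ∀ a b : Fin k → M, (∀ i, a i ∈ D i) → (∀ i, b i ∈ D i) →
        ∃ g ∈ 𝒰, (∀ y, (∀ i, y ∉ U i) → g y = f y) ∧ ∀ i, g (b i) = f (a i) := by
  have hex : ∀ i, ∃ R : ℝ, 0 < R ∧
      Metric.closedBall (extChartAt (𝓡 d) (x i) (x i)) R ⊆ (extChartAt (𝓡 d) (x i)).target ∧
      chBall (x i) (extChartAt (𝓡 d) (x i) (x i)) R ⊆ U i := by
    intro i
    have h1 : (extChartAt (𝓡 d) (x i)).target ∈ 𝓝 (extChartAt (𝓡 d) (x i) (x i)) :=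
      extChartAt_target_mem_nhds (x i)
    have h2 : (extChartAt (𝓡 d) (x i)).symm ⁻¹' (U i) ∈ 𝓝 (extChartAt (𝓡 d) (x i) (x i)) := by
      have hc := continuousAt_extChartAt_symm (I := 𝓡 d) (x i)
      refine hc.preimage_mem_nhds ?_
      rw [extChartAt_to_inv]
      exact hU i
    obtain ⟨r, hr, hrs⟩ := Metric.mem_nhds_iff.1 (inter_mem h1 h2)
    refine ⟨r / 2, half_pos hr, ?_, ?_⟩
    · intro z hz
      exact (hrs (Metric.closedBall_subset_ball (half_lt_self hr) hz)).1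
    · intro y hy
      have h4 := (hrs (Metric.ball_subset_ball (by linarith) hy.2)).2
      have h3 : (extChartAt (𝓡 d) (x i)).symm (extChartAt (𝓡 d) (x i) y) = y :=
        (extChartAt (𝓡 d) (x i)).left_inv hy.1
      rw [mem_preimage, h3] at h4
      exact h4
  choose R hR hRt hRU using hex
  obtain ⟨δ, Φ, hδ, hΦ, hΦ0, hΦp⟩ := exists_multi_family k x
    (fun i => extChartAt (𝓡 d) (x i) (x i)) R hR hRt
    (fun i j hij => (hdis i j hij).mono (hRU i) (hRU j))
  have hfam := smoothFam_then (Metric.ball 0 δ) Φ hΦ f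
  have h0 : (Φ 0).trans f = f := by
    apply Diffeomorph.ext
    intro y
    show f (Φ 0 y) = f y
    rw [hΦ0]
  have hev := eventually_mem_of_smoothFam (Metric.ball 0 δ) (fun t => (Φ t).trans f) hfam 0
    (Metric.mem_ball_self hδ) 𝒰 h𝒰 (by show (Φ 0).trans f ∈ 𝒰; rw [h0]; exact hf)
  obtain ⟨δ1, hδ1, hδ1s⟩ := Metric.eventually_nhds_iff_ball.1 hev
  have hm : 0 < min δ δ1 := lt_min hδ hδ1
  have hsub : ∀ i, {y : M | y ∈ chBall (x i) (extChartAt (𝓡 d) (x i) (x i)) (R i / 2) ∧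
      ‖extChartAt (𝓡 d) (x i) y - extChartAt (𝓡 d) (x i) (x i)‖ < min δ δ1 / 2} ⊆ U i := by
    intro i y hy
    refine hRU i ⟨hy.1.1, Metric.ball_subset_ball ?_ hy.1.2⟩
    linarith [hR i]
  refine ⟨fun i => {y : M | y ∈ chBall (x i) (extChartAt (𝓡 d) (x i) (x i)) (R i / 2) ∧
      ‖extChartAt (𝓡 d) (x i) y - extChartAt (𝓡 d) (x i) (x i)‖ < min δ δ1 / 2}, ?_, hsub, ?_⟩
  · intro i
    have h1 := extChartAt_source_mem_nhds (I := 𝓡 d) (x i)
    have hc := continuousAt_extChartAt (I := 𝓡 d) (x i)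
    have h2 := hc.preimage_mem_nhds
      (Metric.ball_mem_nhds (extChartAt (𝓡 d) (x i) (x i)) (half_pos (hR i)))
    have h3 := hc.preimage_mem_nhds
      (Metric.ball_mem_nhds (extChartAt (𝓡 d) (x i) (x i)) (half_pos hm))
    filter_upwards [h1, h2, h3] with y hy1 hy2 hy3
    refine ⟨⟨hy1, hy2⟩, ?_⟩
    rw [mem_preimage, mem_ball_iff_norm] at hy3
    exact hy3
  · intro a b ha hb
    have hv : ‖fun i => extChartAt (𝓡 d) (x i) (a i) - extChartAt (𝓡 d) (x i) (b i)‖
        < min δ δ1 := by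
      rw [pi_norm_lt_iff hm]
      intro i
      have e : extChartAt (𝓡 d) (x i) (a i) - extChartAt (𝓡 d) (x i) (b i)
          = (extChartAt (𝓡 d) (x i) (a i) - extChartAt (𝓡 d) (x i) (x i))
            - (extChartAt (𝓡 d) (x i) (b i) - extChartAt (𝓡 d) (x i) (x i)) := by abel
      rw [e]
      have h1 := (ha i).2
      have h2 := (hb i).2
      refine lt_of_le_of_lt (norm_sub_le _ _) ?_
      linarith
    have hvb : (fun i => extChartAt (𝓡 d) (x i) (a i) - extChartAt (𝓡 d) (x i) (b i))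
        ∈ Metric.ball (0 : Fin k → E d) δ := by
      rw [mem_ball_zero_iff]
      exact lt_of_lt_of_le hv (min_le_left _ _)
    have hvb1 : (fun i => extChartAt (𝓡 d) (x i) (a i) - extChartAt (𝓡 d) (x i) (b i))
        ∈ Metric.ball (0 : Fin k → E d) δ1 := by
      rw [mem_ball_zero_iff]
      exact lt_of_lt_of_le hv (min_le_right _ _)
    obtain ⟨hout, hin⟩ := hΦp _ hvb
    refine ⟨_, hδ1s _ hvb1, ?_, ?_⟩
    · intro y hy
      have h1 := hout y (fun i hi => hy i (hRU i hi))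
      show f (Φ _ y) = f y
      rw [h1]
    · intro i
      obtain ⟨h1, h2⟩ := hin i (b i) (hb i).1
      have h3 : Φ (fun i => extChartAt (𝓡 d) (x i) (a i) - extChartAt (𝓡 d) (x i) (b i)) (b i)
          = a i := by
        refine (extChartAt (𝓡 d) (x i)).injOn h1 (ha i).1.1 ?_
        rw [h2]
        abel
      show f (Φ _ (b i)) = f (a i)
      rw [h3]

end Pool.Agent.Helper55.OS
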