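import Pool.Agent.Helper55.OS.BaseOpen

/-!
# OS-B11 BaseTan: the tangent map is jointly continuous

TASK. With the C^infinity topology on `Dif d M`, the map `(g, v) ↦ T g (v)` from `Dif d M × TM` to `TM` is continuous.
PROOF. At `(g0, v0)`, `v0 = ⟨x, w⟩`. `FiberBundle.continuousAt_totalSpace`: two things.
(1) `(g, v) ↦ g v.proj` is continuous: let `c = x`, `c' = g0 x`. Given a neighbourhood of `g0 x`, contained in the source of the
chart at `c'`; choose a compact ball `K` around `φ_c x` in the target of `c` that `g0` maps (in coordinates) into the source of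
`c'`; for `g ∈ subNhd g0 c c' K 0 ε` and `v.proj` with coordinates in `K`, close to `x`:
`‖φ_{c'} (g y) - φ_{c'} (g0 x)‖ ≤ ε + ‖φ_{c'} (g0 y) - φ_{c'} (g0 x)‖` (`k = 0`: `iteratedFDeriv_zero_apply`/norm).
(2) the second component of `T g (v)` in the trivialisation at `c' = g0 x`: it is
`fderiv ℝ (fun z => φ_{c'} (g (φ_c.symm z))) (φ_c v.proj) (second component of v in the trivialisation at c)`
for `v.proj` near `x` and `g` near `g0` (this is `inTangentCoordinates`/`mfderiv` in charts: `mfderiv_comp` with the charts,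
`TangentBundle.continuousLinearMapAt_trivializationAt`, `tangentMap` , compare `ContMDiffAt.mfderiv` and
`inTangentCoordinates_eq_mfderiv_comp` in Mathlib). The derivative in coordinates depends continuously on `(g, z)`: for
`g ∈ subNhd g0 c c' K 1 ε` it is within `ε` of that of `g0` (`k = 1`: the norm of `iteratedFDeriv ℝ 1` is the norm of `fderiv`),
which is continuous in `z`; application of a continuous linear map to a vector is jointly continuous.
The neighbourhoods `subNhd` are open and contain `g0` by OS-B01.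
-/

open Set Topology Manifold ContDiff Filter

namespace Pool.Agent.Helper55.OS

variable {d : ℕ} {M : Type} [TopologicalSpace M] [ChartedSpace (E d) M] [IsManifold (𝓡 d) ∞ M]

omit [IsManifold (𝓡 d) ∞ M] in
private theorem extChart_symm_left {c y : M} (hy : y ∈ (extChartAt (𝓡 d) c).source) :
    (extChartAt (𝓡 d) c).symm (extChartAt (𝓡 d) c y) = y :=
  (extChartAt (𝓡 d) c).left_inv hy

omit [IsManifold (𝓡 d) ∞ M] in
/-- a compact ball around the point `x`, in the chart at `x`, on which `g0` is good and an additional condition holds -/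
private theorem exists_ball (g0 : Dif d M) (x : M) {P : E d → Prop}
    (hP : ∀ᶠ z in 𝓝 (extChartAt (𝓡 d) x x), P z) :
    ∃ ρ : ℝ, 0 < ρ ∧ Metric.closedBall (extChartAt (𝓡 d) x x) ρ ⊆ (extChartAt (𝓡 d) x).target ∧
      (∀ z ∈ Metric.closedBall (extChartAt (𝓡 d) x x) ρ,
        g0 ((extChartAt (𝓡 d) x).symm z) ∈ (extChartAt (𝓡 d) (g0 x)).source) ∧
      ∀ z ∈ Metric.closedBall (extChartAt (𝓡 d) x x) ρ, P z := by
  have h1 : ∀ᶠ z in 𝓝 (extChartAt (𝓡 d) x x), z ∈ (extChartAt (𝓡 d) x).target :=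
    extChartAt_target_mem_nhds x
  have h2 : ∀ᶠ z in 𝓝 (extChartAt (𝓡 d) x x),
      g0 ((extChartAt (𝓡 d) x).symm z) ∈ (extChartAt (𝓡 d) (g0 x)).source := by
    have hc : ContinuousAt (fun z => g0 ((extChartAt (𝓡 d) x).symm z)) (extChartAt (𝓡 d) x x) := by
      have h3 : ContinuousAt (extChartAt (𝓡 d) x).symm (extChartAt (𝓡 d) x x) :=
        continuousAt_extChartAt_symm x
      exact ContinuousAt.comp (g := g0) g0.continuous.continuousAt h3
    have h4 : (extChartAt (𝓡 d) (g0 x)).source ∈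
        𝓝 (g0 ((extChartAt (𝓡 d) x).symm (extChartAt (𝓡 d) x x))) := by
      rw [extChartAt_to_inv]
      exact extChartAt_source_mem_nhds (g0 x)
    exact hc h4
  obtain ⟨ρ, hρ, h5⟩ := Metric.nhds_basis_closedBall.eventually_iff.1 (h1.and (h2.and hP))
  exact ⟨ρ, hρ, fun z hz => (h5 hz).1, fun z hz => (h5 hz).2.1, fun z hz => (h5 hz).2.2⟩

theorem continuous_eval :
    letI : TopologicalSpace (Dif d M) := smoothTop d M
    Continuous (fun q : Dif d M × M => (q.1 : M → M) q.2) := by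
  let _ : TopologicalSpace (Dif d M) := smoothTop d M
  change Continuous (fun q : Dif d M × M => (q.1 : M → M) q.2)
  rw [continuous_iff_continuousAt]
  rintro ⟨g0, x⟩
  intro V hV
  change V ∈ 𝓝 (g0 x) at hV
  have hW : ∀ᶠ u in 𝓝 (extChartAt (𝓡 d) (g0 x) (g0 x)),
      (extChartAt (𝓡 d) (g0 x)).symm u ∈ V := by
    have h1 : ContinuousAt (extChartAt (𝓡 d) (g0 x)).symm (extChartAt (𝓡 d) (g0 x) (g0 x)) :=
      continuousAt_extChartAt_symm (g0 x)
    apply h1
    rw [extChartAt_to_inv]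
    exact hV
  obtain ⟨ε, hε, hε'⟩ := Metric.nhds_basis_ball.eventually_iff.1 hW
  have hP : ∀ᶠ z in 𝓝 (extChartAt (𝓡 d) x x),
      dist (extChartAt (𝓡 d) (g0 x) (g0 ((extChartAt (𝓡 d) x).symm z)))
        (extChartAt (𝓡 d) (g0 x) (g0 x)) < ε / 2 := by
    have h3 : ContinuousAt (extChartAt (𝓡 d) x).symm (extChartAt (𝓡 d) x x) :=
      continuousAt_extChartAt_symm x
    have h4 : ContinuousAt (extChartAt (𝓡 d) (g0 x)) (g0 x) := continuousAt_extChartAt (g0 x)
    have e1 : g0 ((extChartAt (𝓡 d) x).symm (extChartAt (𝓡 d) x x)) = g0 x := by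
      rw [extChartAt_to_inv]
    have h5 : ContinuousAt (fun z => g0 ((extChartAt (𝓡 d) x).symm z)) (extChartAt (𝓡 d) x x) :=
      ContinuousAt.comp (g := g0) g0.continuous.continuousAt h3
    have h6 : ContinuousAt (fun z => extChartAt (𝓡 d) (g0 x) (g0 ((extChartAt (𝓡 d) x).symm z)))
        (extChartAt (𝓡 d) x x) := by
      refine ContinuousAt.comp (g := extChartAt (𝓡 d) (g0 x)) ?_ h5
      change ContinuousAt (extChartAt (𝓡 d) (g0 x))
        (g0 ((extChartAt (𝓡 d) x).symm (extChartAt (𝓡 d) x x)))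
      rw [e1]
      exact h4
    have h7 := Metric.continuousAt_iff'.1 h6 (ε / 2) (by linarith)
    rwa [e1] at h7
  obtain ⟨ρ, hρ, hK1, hK2, hK3⟩ := exists_ball g0 x hP
  have hN : subNhd g0 x (g0 x) (Metric.closedBall (extChartAt (𝓡 d) x x) ρ) 0 (ε / 2) ∈ 𝓝 g0 :=
    (isOpen_subNhd g0 x (g0 x) _ 0 (ε / 2) (by linarith) (isCompact_closedBall _ _) hK1
      hK2).mem_nhds (mem_subNhd_self g0 x (g0 x) _ 0 (ε / 2) (by linarith) hK2)
  have hY : {y : M | y ∈ (extChartAt (𝓡 d) x).source ∧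
      extChartAt (𝓡 d) x y ∈ Metric.closedBall (extChartAt (𝓡 d) x x) ρ} ∈ 𝓝 x := by
    refine Filter.inter_mem (extChartAt_source_mem_nhds x) ?_
    exact (continuousAt_extChartAt x) (Metric.closedBall_mem_nhds _ hρ)
  refine Filter.mem_map.2 (Filter.mem_of_superset (prod_mem_nhds hN hY) ?_)
  rintro ⟨g, y⟩ ⟨hg, hy1, hy2⟩
  change g y ∈ V
  have h1 := hg.1 _ hy2
  have h2 := hg.2 _ hy2 0 le_rfl
  rw [extChart_symm_left hy1] at h1
  have h3 : dist (extChartAt (𝓡 d) (g0 x) (g y)) (extChartAt (𝓡 d) (g0 x) (g0 y)) < ε / 2 := by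
    rw [dist_eq_norm]
    refine lt_of_le_of_lt ?_ h2
    have h4 := ContinuousMultilinearMap.le_opNorm (iteratedFDeriv ℝ 0 (fun w =>
      extChartAt (𝓡 d) (g0 x) (g ((extChartAt (𝓡 d) x).symm w))) (extChartAt (𝓡 d) x y) -
      iteratedFDeriv ℝ 0 (fun w =>
      extChartAt (𝓡 d) (g0 x) (g0 ((extChartAt (𝓡 d) x).symm w))) (extChartAt (𝓡 d) x y)) 0
    rw [sub_apply, iteratedFDeriv_zero_apply, iteratedFDeriv_zero_apply,
      extChart_symm_left hy1] at h4
    simpa using h4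
  have h5 := hK3 _ hy2
  rw [extChart_symm_left hy1] at h5
  have h6 : extChartAt (𝓡 d) (g0 x) (g y) ∈
      Metric.ball (extChartAt (𝓡 d) (g0 x) (g0 x)) ε := by
    rw [Metric.mem_ball]
    have := dist_triangle (extChartAt (𝓡 d) (g0 x) (g y)) (extChartAt (𝓡 d) (g0 x) (g0 y))
      (extChartAt (𝓡 d) (g0 x) (g0 x))
    linarith
  have h7 := hε' h6
  rwa [extChart_symm_left h1] at h7

/-- the derivative in coordinates is jointly continuous -/
private theorem continuousAt_fderiv_coord (g0 : Dif d M) (x : M) :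
    letI : TopologicalSpace (Dif d M) := smoothTop d M
    ContinuousAt (fun q : Dif d M × E d => fderiv ℝ (fun w =>
      extChartAt (𝓡 d) (g0 x) (q.1 ((extChartAt (𝓡 d) x).symm w))) q.2)
      (g0, extChartAt (𝓡 d) x x) := by
  let _ : TopologicalSpace (Dif d M) := smoothTop d M
  change ContinuousAt (fun q : Dif d M × E d => fderiv ℝ (fun w =>
      extChartAt (𝓡 d) (g0 x) (q.1 ((extChartAt (𝓡 d) x).symm w))) q.2)
      (g0, extChartAt (𝓡 d) x x)
  have hsm : ContDiffAt ℝ ∞ (fun w => extChartAt (𝓡 d) (g0 x) (g0 ((extChartAt (𝓡 d) x).symm w)))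
      (extChartAt (𝓡 d) x x) := by
    have h1 : ContMDiffAt (𝓡 d) (𝓡 d) ∞ (g0 : M → M) x := g0.contMDiff.contMDiffAt
    have h2 := (contMDiffAt_iff.1 h1).2
    rw [ModelWithCorners.range_eq_univ, contDiffWithinAt_univ] at h2
    exact h2
  have hfc : ContinuousAt (fun z => fderiv ℝ (fun w =>
      extChartAt (𝓡 d) (g0 x) (g0 ((extChartAt (𝓡 d) x).symm w))) z) (extChartAt (𝓡 d) x x) := by
    have h1 : ContDiffAt ℝ 0 (fderiv ℝ (fun w =>
        extChartAt (𝓡 d) (g0 x) (g0 ((extChartAt (𝓡 d) x).symm w)))) (extChartAt (𝓡 d) x x) :=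
      hsm.fderiv_right (m := 0) (by norm_num)
    exact h1.continuousAt
  rw [Metric.continuousAt_iff'] at hfc ⊢
  intro ε hε
  have hP := hfc (ε / 2) (by linarith)
  obtain ⟨ρ, hρ, hK1, hK2, hK3⟩ := exists_ball g0 x hP
  have hN : subNhd g0 x (g0 x) (Metric.closedBall (extChartAt (𝓡 d) x x) ρ) 1 (ε / 2) ∈ 𝓝 g0 :=
    (isOpen_subNhd g0 x (g0 x) _ 1 (ε / 2) (by linarith) (isCompact_closedBall _ _) hK1
      hK2).mem_nhds (mem_subNhd_self g0 x (g0 x) _ 1 (ε / 2) (by linarith) hK2)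
  refine Filter.mem_of_superset (prod_mem_nhds hN (Metric.closedBall_mem_nhds _ hρ)) ?_
  rintro ⟨g, z⟩ ⟨hg, hz⟩
  have h2 := hg.2 _ hz 1 le_rfl
  have h3 := hK3 _ hz
  set A := fderiv ℝ (fun w => extChartAt (𝓡 d) (g0 x) (g ((extChartAt (𝓡 d) x).symm w))) z with hA
  set B := fderiv ℝ (fun w => extChartAt (𝓡 d) (g0 x) (g0 ((extChartAt (𝓡 d) x).symm w))) z with hB
  have h4 : dist A B < ε / 2 := by
    rw [dist_eq_norm]
    refine lt_of_le_of_lt ?_ h2
    refine ContinuousLinearMap.opNorm_le_bound _ (norm_nonneg _) fun u => ?_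
    have h5 := ContinuousMultilinearMap.le_opNorm (iteratedFDeriv ℝ 1 (fun w =>
      extChartAt (𝓡 d) (g0 x) (g ((extChartAt (𝓡 d) x).symm w))) z -
      iteratedFDeriv ℝ 1 (fun w =>
      extChartAt (𝓡 d) (g0 x) (g0 ((extChartAt (𝓡 d) x).symm w))) z) (fun _ => u)
    rw [sub_apply, iteratedFDeriv_one_apply, iteratedFDeriv_one_apply] at h5
    simp only [Finset.univ_unique, Finset.prod_const, Finset.card_singleton, pow_one] at h5
    exact h5
  change dist A (fderiv ℝ (fun w => extChartAt (𝓡 d) (g0 x) (g0 ((extChartAt (𝓡 d) x).symm w)))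
    (extChartAt (𝓡 d) x x)) < ε
  have h5 := dist_triangle A B (fderiv ℝ (fun w =>
    extChartAt (𝓡 d) (g0 x) (g0 ((extChartAt (𝓡 d) x).symm w))) (extChartAt (𝓡 d) x x))
  linarith

private theorem triv_snd {c : M} {v : TangentBundle (𝓡 d) M}
    (hv : v.1 ∈ (chartAt (E d) c).source) :
    ((trivializationAt (E d) (TangentSpace (𝓡 d) : M → Type _) c) v).2 =
      mfderiv (𝓡 d) 𝓘(ℝ, E d) (extChartAt (𝓡 d) c) v.1 v.2 := by
  have h1 := congrArg (fun L => L v.2)
    (TangentBundle.continuousLinearMapAt_trivializationAt (I := 𝓡 d) hv)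
  have h2 : v.1 ∈ (trivializationAt (E d) (TangentSpace (𝓡 d) : M → Type _) c).baseSet := hv
  have h3 := Bundle.Trivialization.continuousLinearMapAt_apply_of_mem (R := ℝ)
    (trivializationAt (E d) (TangentSpace (𝓡 d) : M → Type _) c) h2 v.2
  exact h3.symm.trans h1

private theorem coord_eq (g : Dif d M) {c c' y : M} (hy : y ∈ (chartAt (E d) c).source)
    (hgy : g y ∈ (chartAt (E d) c').source) (u : TangentSpace (𝓡 d) y) :
    mfderiv (𝓡 d) 𝓘(ℝ, E d) (extChartAt (𝓡 d) c') (g y) (mfderiv (𝓡 d) (𝓡 d) g y u) =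
      fderiv ℝ (fun w => extChartAt (𝓡 d) c' (g ((extChartAt (𝓡 d) c).symm w)))
        (extChartAt (𝓡 d) c y) (mfderiv (𝓡 d) 𝓘(ℝ, E d) (extChartAt (𝓡 d) c) y u) := by
  have hys : y ∈ (extChartAt (𝓡 d) c).source := by rwa [extChartAt_source]
  have e0 : (extChartAt (𝓡 d) c).symm (extChartAt (𝓡 d) c y) = y := extChart_symm_left hys
  have m1 : MDifferentiableAt (𝓡 d) 𝓘(ℝ, E d) (extChartAt (𝓡 d) c') (g y) :=
    mdifferentiableAt_extChartAt hgy
  have m2 : MDifferentiableAt (𝓡 d) (𝓡 d) (g : M → M) y :=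
    g.contMDiff.mdifferentiable (by simp) y
  have m3 : MDifferentiableAt (𝓡 d) 𝓘(ℝ, E d) (extChartAt (𝓡 d) c) y :=
    mdifferentiableAt_extChartAt hy
  have m4 : MDifferentiableAt 𝓘(ℝ, E d) (𝓡 d) (extChartAt (𝓡 d) c).symm
      (extChartAt (𝓡 d) c y) := by
    have h1 := mdifferentiableWithinAt_extChartAt_symm (I := 𝓡 d)
      ((extChartAt (𝓡 d) c).map_source hys)
    rwa [ModelWithCorners.range_eq_univ, mdifferentiableWithinAt_univ] at h1
  have m5 : MDifferentiableAt (𝓡 d) 𝓘(ℝ, E d) ((extChartAt (𝓡 d) c') ∘ (g : M → M)) y :=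
    m1.comp y m2
  have m6 : MDifferentiableAt 𝓘(ℝ, E d) 𝓘(ℝ, E d)
      (((extChartAt (𝓡 d) c') ∘ (g : M → M)) ∘ (extChartAt (𝓡 d) c).symm)
      (extChartAt (𝓡 d) c y) := by
    refine MDifferentiableAt.comp (extChartAt (𝓡 d) c y) ?_ m4
    rw [e0]
    exact m5
  have c1 : mfderiv (𝓡 d) 𝓘(ℝ, E d) ((extChartAt (𝓡 d) c') ∘ (g : M → M)) y =
      (mfderiv (𝓡 d) 𝓘(ℝ, E d) (extChartAt (𝓡 d) c') (g y)).comp
        (mfderiv (𝓡 d) (𝓡 d) (g : M → M) y) := mfderiv_comp y m1 m2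
  have c2 : mfderiv (𝓡 d) 𝓘(ℝ, E d)
      ((((extChartAt (𝓡 d) c') ∘ (g : M → M)) ∘ (extChartAt (𝓡 d) c).symm) ∘
        (extChartAt (𝓡 d) c)) y =
      (mfderiv 𝓘(ℝ, E d) 𝓘(ℝ, E d)
        (((extChartAt (𝓡 d) c') ∘ (g : M → M)) ∘ (extChartAt (𝓡 d) c).symm)
        (extChartAt (𝓡 d) c y)).comp
        (mfderiv (𝓡 d) 𝓘(ℝ, E d) (extChartAt (𝓡 d) c) y) := mfderiv_comp y m6 m3
  have c3 : ((((extChartAt (𝓡 d) c') ∘ (g : M → M)) ∘ (extChartAt (𝓡 d) c).symm) ∘
        (extChartAt (𝓡 d) c)) =ᶠ[𝓝 y] ((extChartAt (𝓡 d) c') ∘ (g : M → M)) := by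
    filter_upwards [extChartAt_source_mem_nhds' hys] with y' hy'
    simp only [Function.comp_apply]
    rw [extChart_symm_left hy']
  have c4 := c3.mfderiv_eq (I := 𝓡 d) (I' := 𝓘(ℝ, E d))
  rw [c2, c1] at c4
  have c5 := congrArg (fun L => L u) c4
  rw [mfderiv_eq_fderiv] at c5
  exact c5.symm

theorem continuous_tangentMap_eval :
    letI : TopologicalSpace (Dif d M) := smoothTop d M
    Continuous (fun q : Dif d M × TangentBundle (𝓡 d) M =>
      tangentMap (𝓡 d) (𝓡 d) (q.1 : M → M) q.2) := by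
  let _ : TopologicalSpace (Dif d M) := smoothTop d M
  change Continuous (fun q : Dif d M × TangentBundle (𝓡 d) M =>
      tangentMap (𝓡 d) (𝓡 d) (q.1 : M → M) q.2)
  have hev : Continuous (fun q : Dif d M × M => (q.1 : M → M) q.2) := continuous_eval
  have hpr : Continuous (fun q : Dif d M × TangentBundle (𝓡 d) M => q.2.proj) :=
    (FiberBundle.continuous_proj (E d) (TangentSpace (𝓡 d) : M → Type _)).comp continuous_snd
  have hev' : Continuous (fun q : Dif d M × TangentBundle (𝓡 d) M => (q.1 : M → M) q.2.proj) :=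
    hev.comp (continuous_fst.prodMk hpr)
  rw [continuous_iff_continuousAt]
  rintro ⟨g0, v0⟩
  rw [FiberBundle.continuousAt_totalSpace]
  refine ⟨hev'.continuousAt, ?_⟩
  have hb : ContinuousAt (fun v : TangentBundle (𝓡 d) M =>
      ((trivializationAt (E d) (TangentSpace (𝓡 d) : M → Type _) v0.proj) v).2) v0 :=
    ((FiberBundle.continuousAt_totalSpace (E d)
      (fun v : TangentBundle (𝓡 d) M => v)).1 continuousAt_id).2
  have hb' : ContinuousAt (fun q : Dif d M × TangentBundle (𝓡 d) M =>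
      ((trivializationAt (E d) (TangentSpace (𝓡 d) : M → Type _) v0.proj) q.2).2) (g0, v0) :=
    ContinuousAt.comp (g := fun v : TangentBundle (𝓡 d) M =>
      ((trivializationAt (E d) (TangentSpace (𝓡 d) : M → Type _) v0.proj) v).2)
      (f := fun q : Dif d M × TangentBundle (𝓡 d) M => q.2) hb continuous_snd.continuousAt
  have hz : ContinuousAt (fun q : Dif d M × TangentBundle (𝓡 d) M =>
      extChartAt (𝓡 d) v0.proj q.2.proj) (g0, v0) :=
    ContinuousAt.comp (g := extChartAt (𝓡 d) v0.proj)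
      (f := fun q : Dif d M × TangentBundle (𝓡 d) M => q.2.proj)
      (continuousAt_extChartAt v0.proj) hpr.continuousAt
  have hA : ContinuousAt (fun q : Dif d M × TangentBundle (𝓡 d) M => fderiv ℝ (fun w =>
      extChartAt (𝓡 d) (g0 v0.proj) (q.1 ((extChartAt (𝓡 d) v0.proj).symm w)))
      (extChartAt (𝓡 d) v0.proj q.2.proj)) (g0, v0) :=
    ContinuousAt.comp (g := fun q : Dif d M × E d => fderiv ℝ (fun w =>
      extChartAt (𝓡 d) (g0 v0.proj) (q.1 ((extChartAt (𝓡 d) v0.proj).symm w))) q.2)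
      (f := fun q : Dif d M × TangentBundle (𝓡 d) M =>
        (q.1, extChartAt (𝓡 d) v0.proj q.2.proj))
      (continuousAt_fderiv_coord g0 v0.proj) (continuous_fst.continuousAt.prodMk hz)
  have hAb := hA.clm_apply hb'
  refine hAb.congr ?_
  have hs1 : ∀ᶠ q : Dif d M × TangentBundle (𝓡 d) M in 𝓝 (g0, v0),
      q.2.proj ∈ (chartAt (E d) v0.proj).source :=
    hpr.continuousAt (chart_source_mem_nhds (E d) v0.proj)
  have hs2 : ∀ᶠ q : Dif d M × TangentBundle (𝓡 d) M in 𝓝 (g0, v0),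
      (q.1 : M → M) q.2.proj ∈ (chartAt (E d) (g0 v0.proj)).source :=
    hev'.continuousAt (chart_source_mem_nhds (E d) (g0 v0.proj))
  filter_upwards [hs1, hs2] with q h1 h2
  change fderiv ℝ (fun w =>
      extChartAt (𝓡 d) (g0 v0.proj) (q.1 ((extChartAt (𝓡 d) v0.proj).symm w)))
      (extChartAt (𝓡 d) v0.proj q.2.proj)
      ((trivializationAt (E d) (TangentSpace (𝓡 d) : M → Type _) v0.proj) q.2).2 =
      ((trivializationAt (E d) (TangentSpace (𝓡 d) : M → Type _) (g0 v0.proj))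
        (tangentMap (𝓡 d) (𝓡 d) (q.1 : M → M) q.2)).2
  rw [triv_snd h1, triv_snd (v := tangentMap (𝓡 d) (𝓡 d) (q.1 : M → M) q.2) h2]
  exact (coord_eq q.1 h1 h2 q.2.2).symm

end Pool.Agent.Helper55.OS
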