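import Pool.Agent.Helper55.OS.BaseTan

/-!
# OS-B12 BaseTanIter: the same for iterates

TASK. PROOF. Induction on `n`: `T (g^[n+1]) (v) = T g (T (g^[n]) v)` (`tangentMap_comp`, `Function.iterate_succ'`,
`g^[n]` is smooth), and `(g, v) ↦ (g, T (g^[n]) v)` is continuous; `n = 0`: `tangentMap_id`. The same for points.
-/

open Set Topology Manifold ContDiff Filter

namespace Pool.Agent.Helper55.OS

variable {d : ℕ} {M : Type} [TopologicalSpace M] [ChartedSpace (E d) M] [IsManifold (𝓡 d) ∞ M]

private theorem mdiff_iterate {g : M → M} (hg : MDifferentiable (𝓡 d) (𝓡 d) g) (n : ℕ) :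
    MDifferentiable (𝓡 d) (𝓡 d) g^[n] := by
  induction n with
  | zero => exact mdifferentiable_id
  | succ n ih =>
    rw [Function.iterate_succ']
    exact hg.comp ih

theorem continuous_iterate_eval (n : ℕ) :
    letI : TopologicalSpace (Dif d M) := smoothTop d M
    Continuous (fun q : Dif d M × M => (q.1 : M → M)^[n] q.2) := by
  letI : TopologicalSpace (Dif d M) := smoothTop d M
  show Continuous (fun q : Dif d M × M => (q.1 : M → M)^[n] q.2)
  induction n with
  | zero => exact continuous_snd
  | succ n ih =>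
    have h1 : (fun q : Dif d M × M => (q.1 : M → M)^[n + 1] q.2)
        = (fun q : Dif d M × M => (q.1 : M → M) q.2) ∘ fun q => (q.1, (q.1 : M → M)^[n] q.2) := by
      funext q
      exact Function.iterate_succ_apply' _ _ _
    rw [h1]
    exact (continuous_eval (d := d) (M := M)).comp (continuous_fst.prodMk ih)

theorem continuous_tangentMap_iterate (n : ℕ) :
    letI : TopologicalSpace (Dif d M) := smoothTop d M
    Continuous (fun q : Dif d M × TangentBundle (𝓡 d) M =>
      tangentMap (𝓡 d) (𝓡 d) ((q.1 : M → M)^[n]) q.2) := by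
  letI : TopologicalSpace (Dif d M) := smoothTop d M
  show Continuous (fun q : Dif d M × TangentBundle (𝓡 d) M =>
      tangentMap (𝓡 d) (𝓡 d) ((q.1 : M → M)^[n]) q.2)
  induction n with
  | zero =>
    have h0 : (fun q : Dif d M × TangentBundle (𝓡 d) M =>
        tangentMap (𝓡 d) (𝓡 d) ((q.1 : M → M)^[0]) q.2) = fun q => q.2 := by
      funext q
      rw [Function.iterate_zero, tangentMap_id]
      rfl
    rw [h0]
    exact continuous_snd
  | succ n ih =>
    have h1 : (fun q : Dif d M × TangentBundle (𝓡 d) M =>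
        tangentMap (𝓡 d) (𝓡 d) ((q.1 : M → M)^[n + 1]) q.2)
        = (fun q : Dif d M × TangentBundle (𝓡 d) M => tangentMap (𝓡 d) (𝓡 d) (q.1 : M → M) q.2) ∘
          fun q => (q.1, tangentMap (𝓡 d) (𝓡 d) ((q.1 : M → M)^[n]) q.2) := by
      funext q
      have hg : MDifferentiable (𝓡 d) (𝓡 d) (q.1 : M → M) :=
        q.1.contMDiff.mdifferentiable (by simp)
      rw [Function.iterate_succ', tangentMap_comp hg (mdiff_iterate hg n)]
      rfl
    rw [h1]
    exact (continuous_tangentMap_eval (d := d) (M := M)).comp (continuous_fst.prodMk ih)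

end Pool.Agent.Helper55.OS
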