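import Pool.Agent.Helper55.OS.NRb

/-!
# OS-C7 Classes: chain classes of NR

Λ = NR f. PROOFS. All chains below are in Λ (f^[i] of points of Λ are in Λ, `nr_zpow`).
* `ceq_trans`: concatenate chains. (symmetry is clear from the definition.)
* `ceq_refl`: x in Λ, η > 0. Let 0 < η' ≤ η with dist a b < 2 η' implies dist (f a) (f b) < η. q in Λ periodic, f^[n] q = q, n ≥ 2 (replace n by 2n), dist q x < η'. Chain: c_0 = x, c_i = f^[i] q (1 ≤ i ≤ n-1), c_n = x.
* `ceq_f`: chain x, f x (n = 1). Back: q as before, n ≥ 3: c_0 = f x, c_i = f^[i+1] q (1 ≤ i ≤ n-2), c_(n-1) = x; first jump dist (f (f x)) (f (f q)) < η (choose η' for f ∘ f as well).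
* `ceq_near`: let ε_b be the constant of `close_periodic`, ε3 := ε_b/3. Let x, y in Λ, dist x y < ε3, η > 0, η' as before and η' ≤ ε_b/3. q, q' in Λ periodic, dist q x < η', dist q' y < η' (`per_dense`). If q = q': c_0 = x,
  c_i = f^[i] q (1 ≤ i ≤ n-1), c_n = y (n ≥ 2 a period). If q ≠ q': dist q q' < ε_b; w as in `close_periodic`; a with dist (f^[a] w) q < η', b ≥ a + 2 with dist (f^[b] w) q' < η': c_0 = x, c_i = f^[a+i] w
  (1 ≤ i ≤ b-a-1), c_(b-a) = y; the points f^[i] w are in Λ (w is recurrent, not periodic). The chain from y to x in the same way (roles exchanged).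
* `cc_sep`, `cc_props`: a class V = {y in Λ : x ~ y}. V is ε3-separated from the rest of Λ (`ceq_near`, transitivity), so closed: compact. x in V. Invariance: y in V implies f y in V (`ceq_f`); if z in V then z = f y, y in Λ (`nr_iff`), y ~ f y.
  Chains in V: for η < ε3 (shrink η), an η-chain c in Λ that starts in V stays in V: c_i in V implies f (c_i) in V and dist (f (c_i)) (c_(i+1)) < ε3, so c_(i+1) in V. Periodic point in V: `per_dense` with
  σ = ε3. Disjointness: classes of an equivalence relation.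
-/

open Set Topology

namespace Pool.Agent.Helper55.OS

variable {X : Type} [MetricSpace X] [CompactSpace X]

omit [CompactSpace X] in
private theorem chain_trans (f : X → X) (S : Set X) {η : ℝ} {x y z : X} (h1 : Chain f S η x y)
    (h2 : Chain f S η y z) : Chain f S η x z := by
  obtain ⟨n, c, hn, c0, cn, cS, cd⟩ := h1
  obtain ⟨m, d, hm, d0, dm, dS, dd⟩ := h2
  obtain ⟨e, he⟩ : ∃ e : ℕ → X, ∀ i, e i = if i ≤ n then c i else d (i - n) := ⟨_, fun _ => rfl⟩
  refine ⟨n + m, e, by omega, ?_, ?_, ?_, ?_⟩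
  · rw [he, if_pos (Nat.zero_le _), c0]
  · rw [he, if_neg (by omega), Nat.add_sub_cancel_left, dm]
  · intro i hi
    rw [he]
    by_cases h : i ≤ n
    · rw [if_pos h]
      exact cS i h
    · rw [if_neg h]
      exact dS _ (by omega)
  · intro i hi
    rw [he, he]
    by_cases h : i < n
    · rw [if_pos h.le, if_pos (by omega)]
      exact cd i h
    · by_cases h' : i = n
      · rw [if_pos h'.le, if_neg (by omega), h', cn, Nat.add_sub_cancel_left, ← d0]
        exact dd 0 (by omega)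
      · rw [if_neg (by omega), if_neg (by omega)]
        have h3 : i + 1 - n = i - n + 1 := by omega
        rw [h3]
        exact dd _ (by omega)

omit [CompactSpace X] in
private theorem ceq_symm {f : X → X} {S : Set X} {x y : X} (h : CEq f S x y) : CEq f S y x :=
  fun η hη => ⟨(h η hη).2, (h η hη).1⟩

theorem ceq_trans (f : X → X) (S : Set X) {x y z : X} (h1 : CEq f S x y) (h2 : CEq f S y z) :
    CEq f S x z := fun η hη =>
  ⟨chain_trans f S (h1 η hη).1 (h2 η hη).1, chain_trans f S (h2 η hη).2 (h1 η hη).2⟩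

omit [CompactSpace X] in
private theorem chain_of_orbit (f : X → X) (S : Set X) {η : ℝ} (hη : 0 < η) {w x y : X}
    (hw : ∀ i, f^[i] w ∈ S) (hx : x ∈ S) (hy : y ∈ S) {a n : ℕ} (hn : 2 ≤ n)
    (h1 : dist (f x) (f^[a + 1] w) < η) (h2 : dist (f^[a + n] w) y < η) : Chain f S η x y := by
  obtain ⟨c, hc⟩ : ∃ c : ℕ → X, ∀ i, c i = if i = 0 then x else if i = n then y else f^[a + i] w :=
    ⟨_, fun _ => rfl⟩
  have c0 : c 0 = x := by rw [hc, if_pos rfl]
  have cn : c n = y := by rw [hc, if_neg (by omega), if_pos rfl]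
  have ci : ∀ i, i ≠ 0 → i ≠ n → c i = f^[a + i] w := by
    intro i h h'
    rw [hc, if_neg h, if_neg h']
  refine ⟨n, c, by omega, c0, cn, ?_, ?_⟩
  · intro i _
    by_cases h : i = 0
    · rw [h, c0]
      exact hx
    · by_cases h' : i = n
      · rw [h', cn]
        exact hy
      · rw [ci i h h']
        exact hw _
  · intro i hi
    by_cases h : i = 0
    · rw [h, c0, zero_add, ci 1 (by omega) (by omega)]
      exact h1
    · rw [ci i h (by omega), ← Function.iterate_succ_apply' f]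
      by_cases h' : i + 1 = n
      · rw [h', cn]
        have e : (a + i).succ = a + n := by omega
        rw [e]
        exact h2
      · rw [ci (i + 1) (by omega) h']
        have e : (a + i).succ = a + (i + 1) := by omega
        rw [e, dist_self]
        exact hη

private theorem iter_mem (f : X ≃ₜ X) {x : X} (hx : x ∈ NR (f : X → X)) (i : ℕ) :
    (f : X → X)^[i] x ∈ NR (f : X → X) := by
  rw [← zpow_iter]
  exact nr_zpow f hx i

private theorem unif (f : X ≃ₜ X) {η : ℝ} (hη : 0 < η) :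
    ∃ δ : ℝ, 0 < δ ∧ ∀ a b : X, dist a b < δ → dist (f a) (f b) < η := by
  have h := CompactSpace.uniformContinuous_of_continuous f.continuous
  rw [Metric.uniformContinuous_iff] at h
  obtain ⟨δ, hδ, h⟩ := h η hη
  exact ⟨δ, hδ, fun a b hab => h hab⟩

omit [CompactSpace X] in
private theorem per_mul {f : X → X} {q : X} {m : ℕ} (h : f^[m] q = q) (k : ℕ) :
    f^[k * m] q = q := by
  induction k with
  | zero => rw [zero_mul]; rfl
  | succ k ih => rw [Nat.succ_mul, Function.iterate_add_apply, h, ih]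

theorem ceq_refl (f : X ≃ₜ X) (h : SP (f : X → X) (NR (f : X → X))) {x : X}
    (hx : x ∈ NR (f : X → X)) : CEq (f : X → X) (NR (f : X → X)) x x := by
  intro η hη
  obtain ⟨δ, hδ, hu⟩ := unif f hη
  obtain ⟨q, hq, hqp, hqx⟩ := per_dense f h x hx (min η δ) (lt_min hη hδ)
  obtain ⟨m, hm, hqm⟩ := hqp
  have hqm' : (f : X → X)^[m] q = q := hqm
  have hc : Chain (f : X → X) (NR (f : X → X)) η x x := by
    refine chain_of_orbit (f : X → X) _ hη (w := q) (a := 0) (n := 2 * m) (iter_mem f hq) hx hx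
      (by omega) ?_ ?_
    · rw [zero_add, Function.iterate_one]
      refine hu x q ?_
      rw [dist_comm]
      exact hqx.trans_le (min_le_right _ _)
    · rw [zero_add, per_mul hqm' 2]
      exact hqx.trans_le (min_le_left _ _)
  exact ⟨hc, hc⟩

theorem ceq_f (f : X ≃ₜ X) (h : SP (f : X → X) (NR (f : X → X))) {x : X}
    (hx : x ∈ NR (f : X → X)) : CEq (f : X → X) (NR (f : X → X)) x (f x) := by
  intro η hη
  have hfx : f x ∈ NR (f : X → X) := (nr_iff f x).1 hx
  constructor
  · refine ⟨1, fun i => if i = 0 then x else f x, le_rfl, by simp, by simp, ?_, ?_⟩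
    · intro i _
      by_cases h0 : i = 0
      · simp only [h0, if_true]
        exact hx
      · simp only [h0, if_false]
        exact hfx
    · intro i hi
      have h0 : i = 0 := by omega
      subst h0
      simp only [if_true, zero_add, one_ne_zero, if_false, dist_self]
      exact hη
  · obtain ⟨δ, hδ, hu⟩ := unif f hη
    obtain ⟨δ', hδ', hu'⟩ := unif f hδ
    obtain ⟨q, hq, hqp, hqx⟩ := per_dense f h x hx (min η δ') (lt_min hη hδ')
    obtain ⟨m, hm, hqm⟩ := hqp
    have hqm' : (f : X → X)^[m] q = q := hqm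
    refine chain_of_orbit (f : X → X) _ hη (w := q) (a := 1) (n := 3 * m - 1) (iter_mem f hq) hfx hx
      (by omega) ?_ ?_
    · have e : (f : X → X)^[1 + 1] q = f (f q) := rfl
      rw [e]
      refine hu _ _ (hu' _ _ ?_)
      rw [dist_comm]
      exact hqx.trans_le (min_le_right _ _)
    · have e : 1 + (3 * m - 1) = 3 * m := by omega
      rw [e, per_mul hqm' 3]
      exact hqx.trans_le (min_le_left _ _)

theorem ceq_near (f : X ≃ₜ X) (h : SP (f : X → X) (NR (f : X → X))) :
    ∃ ε3 : ℝ, 0 < ε3 ∧ ∀ x ∈ NR (f : X → X), ∀ y ∈ NR (f : X → X), dist x y < ε3 →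
      CEq (f : X → X) (NR (f : X → X)) x y := by
  obtain ⟨εb, hεb, hcp⟩ := close_periodic f h
  have key : ∀ x ∈ NR (f : X → X), ∀ y ∈ NR (f : X → X), dist x y < εb / 3 → ∀ η : ℝ, 0 < η →
      Chain (f : X → X) (NR (f : X → X)) η x y := by
    intro x hx y hy hxy η hη
    obtain ⟨δ, hδ, hu⟩ := unif f hη
    obtain ⟨σ, hσ, hσ1, hσ2, hσ3⟩ : ∃ σ : ℝ, 0 < σ ∧ σ ≤ η / 2 ∧ σ ≤ δ / 2 ∧ σ ≤ εb / 3 :=
      ⟨min (η / 2) (min (δ / 2) (εb / 3)),
        lt_min (by positivity) (lt_min (by positivity) (by positivity)), min_le_left _ _,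
        (min_le_right _ _).trans (min_le_left _ _), (min_le_right _ _).trans (min_le_right _ _)⟩
    obtain ⟨q, hq, hqp, hqx⟩ := per_dense f h x hx σ hσ
    obtain ⟨q', hq', hqp', hqy'⟩ := per_dense f h y hy σ hσ
    by_cases hne : q = q'
    · obtain ⟨m, hm, hqm⟩ := hqp
      have hqm' : (f : X → X)^[m] q = q := hqm
      refine chain_of_orbit (f : X → X) _ hη (w := q) (a := 0) (n := 2 * m) (iter_mem f hq) hx hy
        (by omega) ?_ ?_
      · rw [zero_add, Function.iterate_one]
        refine hu x q ?_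
        rw [dist_comm]
        linarith
      · rw [zero_add, per_mul hqm' 2, hne]
        linarith
    · have hd : dist q q' < εb := by
        have h1 := dist_triangle q x q'
        have h2 := dist_triangle x y q'
        rw [dist_comm y q'] at h2
        linarith
      obtain ⟨-, -, w, hw1, hw2, hw3, hw4⟩ := hcp q q' hqp hqp'
        (fun n => ⟨_, nr_zpow f hq n, by rw [dist_self]; exact hεb⟩)
        (fun n => ⟨_, nr_zpow f hq' n, by rw [dist_self]; exact hεb⟩) hne hd
      have hw : w ∈ NR (f : X → X) := subset_closure ⟨hw1, hw2⟩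
      obtain ⟨a, -, ha⟩ := hw3 _ (Metric.ball_mem_nhds q hσ) 0
      obtain ⟨b, hab, hb⟩ := hw4 _ (Metric.ball_mem_nhds q' hσ) (a + 2)
      rw [Metric.mem_ball] at ha hb
      refine chain_of_orbit (f : X → X) _ hη (w := w) (a := a) (n := b - a) (iter_mem f hw) hx hy
        (by omega) ?_ ?_
      · rw [Function.iterate_succ_apply' (f : X → X)]
        refine hu _ _ ?_
        have h1 := dist_triangle x q ((f : X → X)^[a] w)
        have h2 := dist_comm x q
        have h3 := dist_comm q ((f : X → X)^[a] w)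
        linarith
      · have e : a + (b - a) = b := by omega
        rw [e]
        have h1 := dist_triangle ((f : X → X)^[b] w) q' y
        linarith
  refine ⟨εb / 3, by positivity, fun x hx y hy hxy η hη => ⟨key x hx y hy hxy η hη,
    key y hy x hx (by rw [dist_comm]; exact hxy) η hη⟩⟩

/-- Separation of the classes. -/
theorem cc_sep (f : X ≃ₜ X) (h : SP (f : X → X) (NR (f : X → X))) :
    ∃ ε3 : ℝ, 0 < ε3 ∧ ∀ V ∈ CC (f : X → X), ∀ x ∈ V, ∀ y ∈ NR (f : X → X), dist x y < ε3 →
      y ∈ V := by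
  obtain ⟨ε, hε, hn⟩ := ceq_near f h
  refine ⟨ε, hε, ?_⟩
  rintro V ⟨x0, hx0, rfl⟩ x ⟨hx, hxe⟩ y hy hxy
  exact ⟨hy, ceq_trans _ _ hxe (hn x hx y hy hxy)⟩

theorem cc_props (f : X ≃ₜ X) (h : SP (f : X → X) (NR (f : X → X))) (V : Set X)
    (hV : V ∈ CC (f : X → X)) :
    IsCompact V ∧ V.Nonempty ∧ V ⊆ NR (f : X → X) ∧ (f : X → X) '' V = V ∧
      (∀ η : ℝ, 0 < η → ∀ x ∈ V, ∀ y ∈ V, Chain (f : X → X) V η x y) ∧
      ∃ p ∈ V, p ∈ Function.periodicPts (f : X → X) := by
  obtain ⟨ε, hε, hs⟩ := cc_sep f h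
  have hs' := hs V hV
  obtain ⟨x0, hx0, hVe⟩ := hV
  have hmem : ∀ y, y ∈ V ↔ y ∈ NR (f : X → X) ∧ CEq (f : X → X) (NR (f : X → X)) x0 y := by
    intro y
    rw [hVe]
    exact Iff.rfl
  have hfV : ∀ y ∈ V, f y ∈ V := by
    intro y hy
    obtain ⟨h1, h2⟩ := (hmem y).1 hy
    exact (hmem _).2 ⟨(nr_iff f y).1 h1, ceq_trans _ _ h2 (ceq_f f h h1)⟩
  refine ⟨?_, ?_, ?_, ?_, ?_, ?_⟩
  · apply IsClosed.isCompact
    rw [← closure_subset_iff_isClosed]
    intro y hy
    have hyN : y ∈ NR (f : X → X) := by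
      have h1 : closure V ⊆ closure (NR (f : X → X)) := closure_mono fun z hz => ((hmem z).1 hz).1
      have h2 : IsClosed (NR (f : X → X)) := isClosed_closure
      rw [h2.closure_eq] at h1
      exact h1 hy
    obtain ⟨b, hb, hyb⟩ := Metric.mem_closure_iff.1 hy ε hε
    exact hs' b hb y hyN (by rw [dist_comm]; exact hyb)
  · exact ⟨x0, (hmem x0).2 ⟨hx0, ceq_refl f h hx0⟩⟩
  · exact fun y hy => ((hmem y).1 hy).1
  · apply Set.Subset.antisymm
    · rintro _ ⟨y, hy, rfl⟩
      exact hfV y hy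
    · intro z hz
      obtain ⟨h1, h2⟩ := (hmem z).1 hz
      have e : f (f.symm z) = z := f.apply_symm_apply z
      have h3 : f.symm z ∈ NR (f : X → X) := by
        rw [nr_iff, e]
        exact h1
      refine ⟨f.symm z, (hmem _).2 ⟨h3, ?_⟩, e⟩
      have h4 := ceq_f f h h3
      rw [e] at h4
      exact ceq_trans _ _ h2 (ceq_symm h4)
  · intro η hη x hx y hy
    obtain ⟨h1, h2⟩ := (hmem x).1 hx
    obtain ⟨h3, h4⟩ := (hmem y).1 hy
    obtain ⟨n, c, hn, c0, cn, cS, cd⟩ := (ceq_trans _ _ (ceq_symm h2) h4 (min η ε)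
      (lt_min hη hε)).1
    have hcV : ∀ i, i ≤ n → c i ∈ V := by
      intro i
      induction i with
      | zero =>
        intro _
        rw [c0]
        exact hx
      | succ i ih =>
        intro hi
        exact hs' _ (hfV _ (ih (by omega))) _ (cS _ hi)
          ((cd i (by omega)).trans_le (min_le_right _ _))
    exact ⟨n, c, hn, c0, cn, hcV, fun i hi => (cd i hi).trans_le (min_le_left _ _)⟩
  · obtain ⟨q, hq, hqp, hqx⟩ := per_dense f h x0 hx0 ε hε
    exact ⟨q, hs' x0 ((hmem x0).2 ⟨hx0, ceq_refl f h hx0⟩) q hq (by rw [dist_comm]; exact hqx), hqp⟩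

theorem cc_disj (f : X ≃ₜ X) (V V' : Set X) (hV : V ∈ CC (f : X → X))
    (hV' : V' ∈ CC (f : X → X)) (hne : V ≠ V') : Disjoint V V' := by
  rw [Set.disjoint_left]
  intro z hz hz'
  apply hne
  obtain ⟨x, hx, rfl⟩ := hV
  obtain ⟨x', hx', rfl⟩ := hV'
  obtain ⟨-, h1⟩ := hz
  obtain ⟨-, h2⟩ := hz'
  have h3 := ceq_trans _ _ h1 (ceq_symm h2)
  apply Set.Subset.antisymm
  · rintro y ⟨hy, hy'⟩
    exact ⟨hy, ceq_trans _ _ (ceq_symm h3) hy'⟩
  · rintro y ⟨hy, hy'⟩
    exact ⟨hy, ceq_trans _ _ h3 hy'⟩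

theorem cc_cover (f : X ≃ₜ X) (h : SP (f : X → X) (NR (f : X → X))) {x : X}
    (hx : x ∈ NR (f : X → X)) : ∃ V ∈ CC (f : X → X), x ∈ V :=
  ⟨_, ⟨x, hx, rfl⟩, hx, ceq_refl f h hx⟩

end Pool.Agent.Helper55.OS
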