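import Pool.Agent.Helper55.OS.NRbasic

/-!
# OS-N9 Conj: an Omega-conjugacy preserves periodic points and NR

PROOF of `conj_points`. F, G continuous bijections here homeomorphisms; h : omega F ≃ₜ omega G with (h y) = G (h x) whenever y = F x (x, y in omega F). omega F is invariant: x in omega F implies F x in omega F (if U is a nbhd of F x, F⁻¹ U is a nbhd of x; F^[n] z in F⁻¹ U with z in
F⁻¹ U gives F^[n] (F z) in U). By induction h (F^[n] x) = G^[n] (h x). So F^[m] x = x iff G^[m] (h x) = h x (h injective); x periodic iff h x periodic. RECURRENCE: for x in omega F: Rec F x iff for every nbhd N of x in the subtype omega F some F^[n] x, n ≥ 1, is in N (all F^[n] x are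
in omega F; nbhds in the subtype are traces); this is transported by the homeomorphism h and its inverse. So h maps the set A_F = {Rec, not periodic} ⊆ omega F (`rec_omega`) onto A_G. NR F = closure A_F ⊆ omega F (closed) equals the closure of A_F in the subtype
(`closure_subtype`, `Topology.IsInducing.closure_eq_preimage_closure_image`), and h maps closures to closures: for x in omega F, x in NR F iff h x in NR G. The equivalences: restrict h; a point with F^[m] x = x, m ≥ 1, is in omega F (`per_rec`, `rec_omega`).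
PROOF of `conj_count`: from the definition of OmegaStable.
-/

open Set Topology Manifold ContDiff

namespace Pool.Agent.Helper55.OS

private theorem omega_step {X : Type} [TopologicalSpace X] (F : X ≃ₜ X) {x : X}
    (hx : x ∈ omega (F : X → X)) : F x ∈ omega (F : X → X) := by
  intro U hU
  have h1 : (F : X → X) ⁻¹' U ∈ 𝓝 x := F.continuous.continuousAt.preimage_mem_nhds hU
  obtain ⟨n, hn, z, ⟨y, hy, hyz⟩, hz⟩ := hx _ h1
  refine ⟨n, hn, F z, ⟨F y, hy, ?_⟩, hz⟩
  rw [← hyz, ← Function.iterate_succ_apply, ← Function.iterate_succ_apply' (F : X → X)]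

private theorem omega_iter {X : Type} [TopologicalSpace X] (F : X ≃ₜ X) {x : X}
    (hx : x ∈ omega (F : X → X)) (n : ℕ) : (F : X → X)^[n] x ∈ omega (F : X → X) := by
  induction n with
  | zero => exact hx
  | succ n ih =>
    rw [Function.iterate_succ_apply']
    exact omega_step F ih

private theorem conj_iter {X : Type} [TopologicalSpace X] (F G : X ≃ₜ X)
    (h : omega (F : X → X) ≃ₜ omega (G : X → X))
    (he : ∀ x y : omega (F : X → X), (y : X) = F x → (h y : X) = G (h x))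
    (x : omega (F : X → X)) (n : ℕ) :
    (h ⟨(F : X → X)^[n] x, omega_iter F x.2 n⟩ : X) = (G : X → X)^[n] (h x) := by
  induction n with
  | zero => rfl
  | succ n ih =>
    have h1 : (G : X → X)^[n + 1] (h x) = G ((G : X → X)^[n] (h x)) :=
      Function.iterate_succ_apply' _ _ _
    rw [h1, ← ih]
    apply he
    show (F : X → X)^[n + 1] x = F ((F : X → X)^[n] x)
    rw [Function.iterate_succ_apply']

private theorem conj_per {X : Type} [TopologicalSpace X] (F G : X ≃ₜ X)
    (h : omega (F : X → X) ≃ₜ omega (G : X → X))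
    (he : ∀ x y : omega (F : X → X), (y : X) = F x → (h y : X) = G (h x))
    (x : omega (F : X → X)) (n : ℕ) :
    (F : X → X)^[n] x = x ↔ (G : X → X)^[n] (h x) = h x := by
  rw [← conj_iter F G h he x n]
  constructor
  · intro h1
    have h2 : (⟨(F : X → X)^[n] x, omega_iter F x.2 n⟩ : omega (F : X → X)) = x := Subtype.ext h1
    rw [h2]
  · intro h1
    have h2 := h.injective (Subtype.ext h1)
    exact congrArg Subtype.val h2

private theorem conj_symm {X : Type} [TopologicalSpace X] (F G : X ≃ₜ X)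
    (h : omega (F : X → X) ≃ₜ omega (G : X → X))
    (he : ∀ x y : omega (F : X → X), (y : X) = F x → (h y : X) = G (h x))
    (x y : omega (G : X → X)) (hxy : (y : X) = G x) : (h.symm y : X) = F (h.symm x) := by
  have h1 := he (h.symm x) ⟨F (h.symm x), omega_step F (h.symm x).2⟩ rfl
  rw [h.apply_symm_apply, ← hxy] at h1
  have h2 : h ⟨F (h.symm x), omega_step F (h.symm x).2⟩ = y := Subtype.ext h1
  rw [← h2, h.symm_apply_apply]

private theorem conj_nhds {X : Type} [TopologicalSpace X] (F G : X ≃ₜ X)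
    (h : omega (F : X → X) ≃ₜ omega (G : X → X)) (x : omega (F : X → X)) (U : Set X)
    (hU : U ∈ 𝓝 (h x : X)) :
    ∃ U' ∈ 𝓝 (x : X), ∀ a : omega (F : X → X), (a : X) ∈ U' → (h a : X) ∈ U := by
  have h1 : (fun a : omega (F : X → X) => (h a : X)) ⁻¹' U ∈ 𝓝 x :=
    (continuous_subtype_val.comp h.continuous).continuousAt.preimage_mem_nhds hU
  obtain ⟨U', hU', hs⟩ := (mem_nhds_subtype _ _ _).1 h1
  exact ⟨U', hU', fun a ha => hs ha⟩

private theorem conj_rec {X : Type} [TopologicalSpace X] (F G : X ≃ₜ X)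
    (h : omega (F : X → X) ≃ₜ omega (G : X → X))
    (he : ∀ x y : omega (F : X → X), (y : X) = F x → (h y : X) = G (h x))
    (x : omega (F : X → X)) (hx : Rec (F : X → X) x) : Rec (G : X → X) (h x) := by
  intro U hU
  obtain ⟨U', hU', hs⟩ := conj_nhds F G h x U hU
  obtain ⟨n, hn, hnU⟩ := hx U' hU'
  refine ⟨n, hn, ?_⟩
  rw [← conj_iter F G h he x n]
  exact hs _ hnU

private theorem conj_nonper {X : Type} [TopologicalSpace X] (F G : X ≃ₜ X)
    (h : omega (F : X → X) ≃ₜ omega (G : X → X))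
    (he : ∀ x y : omega (F : X → X), (y : X) = F x → (h y : X) = G (h x))
    (x : omega (F : X → X)) (hx : (x : X) ∉ Function.periodicPts (F : X → X)) :
    (h x : X) ∉ Function.periodicPts (G : X → X) := by
  rintro ⟨n, hn, hp⟩
  exact hx ⟨n, hn, (conj_per F G h he x n).2 hp⟩

private theorem conj_nr {X : Type} [TopologicalSpace X] (F G : X ≃ₜ X)
    (h : omega (F : X → X) ≃ₜ omega (G : X → X))
    (he : ∀ x y : omega (F : X → X), (y : X) = F x → (h y : X) = G (h x))
    (x : omega (F : X → X)) (hx : (x : X) ∈ NR (F : X → X)) : (h x : X) ∈ NR (G : X → X) := by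
  unfold NR at hx ⊢
  rw [mem_closure_iff_nhds] at hx ⊢
  intro U hU
  obtain ⟨U', hU', hs⟩ := conj_nhds F G h x U hU
  obtain ⟨a, haU, haR, haP⟩ := hx U' hU'
  exact ⟨h ⟨a, rec_omega _ haR⟩, hs ⟨a, rec_omega _ haR⟩ haU, conj_rec F G h he ⟨a, rec_omega _ haR⟩ haR,
    conj_nonper F G h he ⟨a, rec_omega _ haR⟩ haP⟩

private theorem equiv_of {X : Type} {A B : Set X} (h : A ≃ B) (S T : Set X) (hS : S ⊆ A) (hT : T ⊆ B)
    (hST : ∀ x : A, (x : X) ∈ S ↔ (h x : X) ∈ T) : Nonempty (S ≃ T) := by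
  refine ⟨⟨fun q => ⟨h ⟨q, hS q.2⟩, (hST ⟨q, hS q.2⟩).1 q.2⟩,
    fun q => ⟨h.symm ⟨q, hT q.2⟩, (hST (h.symm ⟨q, hT q.2⟩)).2 ?_⟩, fun q => ?_, fun q => ?_⟩⟩
  · rw [h.apply_symm_apply]
    exact q.2
  · apply Subtype.ext
    show (h.symm ⟨(h ⟨q, hS q.2⟩ : X), _⟩ : X) = q
    have h1 : (⟨(h ⟨q, hS q.2⟩ : X), hT ((hST ⟨q, hS q.2⟩).1 q.2)⟩ : B) = h ⟨q, hS q.2⟩ := rfl
    rw [h1, h.symm_apply_apply]
  · apply Subtype.ext
    show (h ⟨(h.symm ⟨q, hT q.2⟩ : X), _⟩ : X) = q
    have h1 : (⟨(h.symm ⟨q, hT q.2⟩ : X), (h.symm ⟨q, hT q.2⟩).2⟩ : A) = h.symm ⟨q, hT q.2⟩ := rfl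
    rw [h1, h.apply_symm_apply]

theorem conj_points {X : Type} [TopologicalSpace X] (F G : X ≃ₜ X)
    (h : omega (F : X → X) ≃ₜ omega (G : X → X))
    (he : ∀ x y : omega (F : X → X), (y : X) = F x → (h y : X) = G (h x)) (m : ℕ) (hm : 1 ≤ m) :
    Nonempty ({q | (F : X → X)^[m] q = q ∧ q ∈ NR (F : X → X)} ≃
      {q | (G : X → X)^[m] q = q ∧ q ∈ NR (G : X → X)}) ∧
    Nonempty ({q | (F : X → X)^[m] q = q} ≃ {q | (G : X → X)^[m] q = q}) := by
  have hF : ∀ (K : X ≃ₜ X) (q : X), (K : X → X)^[m] q = q → q ∈ omega (K : X → X) := fun K q hq =>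
    rec_omega _ (per_rec _ ⟨m, by omega, hq⟩)
  have he' := conj_symm F G h he
  have hnr : ∀ x : omega (F : X → X), (x : X) ∈ NR (F : X → X) ↔ (h x : X) ∈ NR (G : X → X) := by
    intro x
    refine ⟨conj_nr F G h he x, fun hx => ?_⟩
    have h1 := conj_nr G F h.symm he' (h x) hx
    rwa [h.symm_apply_apply] at h1
  constructor
  · refine equiv_of h.toEquiv _ _ (fun q hq => nr_omega _ hq.2) (fun q hq => nr_omega _ hq.2) fun x => ?_
    exact and_congr (conj_per F G h he x m) (hnr x)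
  · exact equiv_of h.toEquiv _ _ (fun q hq => hF F q hq) (fun q hq => hF G q hq) fun x =>
      conj_per F G h he x m

theorem conj_count {d : ℕ} {M : Type} [TopologicalSpace M] [ChartedSpace (E d) M] (f : Dif d M)
    (hs : OmegaStable f) :
    ∃ 𝒰 : Set (Dif d M), IsOpen[smoothTop d M] 𝒰 ∧ f ∈ 𝒰 ∧ ∀ g ∈ 𝒰, ∀ m : ℕ, 1 ≤ m →
      Nonempty ({q | (f : M → M)^[m] q = q ∧ q ∈ NR (f : M → M)} ≃
        {q | (g : M → M)^[m] q = q ∧ q ∈ NR (g : M → M)}) ∧
      Nonempty ({q | (f : M → M)^[m] q = q} ≃ {q | (g : M → M)^[m] q = q}) := by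
  obtain ⟨𝒰, hU, hf, hg⟩ := hs
  refine ⟨𝒰, hU, hf, fun g hgU m hm => ?_⟩
  obtain ⟨h, he⟩ := hg g hgU
  exact conj_points f.toHomeomorph g.toHomeomorph h he m hm

end Pool.Agent.Helper55.OS
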