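import Pool.Agent.Helper55.OS.Seq

/-!
# OS-S3 NonLin: nonlinear equations z_{n+1} = a_n z_n + N_n(z_n)

PROOFS.
* `nonlin_exists`. For z with |z_n| ≤ r for all n let (T z) = R (fun n => if n in I then N_n(z_n) else 0). |N_n(z_n)| ≤ |N_n(0)| + r/(2K) ≤ r/K, so
  |T z| = |T z - R 0| ≤ K r/K = r. |T z - T z'| ≤ K (1/(2K)) sup|z - z'| = sup |z - z'| / 2. Start with z^0 = 0, z^{k+1} = T z^k:
  sup |z^{k+1} - z^k| ≤ 2^{-k} r: converges uniformly (F complete) to z with |z_n| ≤ r; T z^k → T z uniformly, so T z = z, and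
  for n in I: z_{n+1} = a_n z_n + N_n(z_n).
* `nonlin_unique`. w = z - z' is bounded and w_{n+1} = a_n w_n + (N_n(z_n) - N_n(z'_n)); put S = sup |w_n| (finite, ≤ 2r). By `Inv.lin` (compare
  with the zero solution for the zero right hand side) |w_n| ≤ K S/(2K) = S/2 for all n, so S ≤ S/2, S = 0.
-/

namespace Pool.Agent.Helper55.OS

variable {F : Type} [NormedAddCommGroup F] [NormedSpace ℝ F]

theorem nonlin_exists [CompleteSpace F] {K r : ℝ} (hK : 0 < K) (hr : 0 < r) {a : ℤ → F →L[ℝ] F}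
    {I : Set ℤ} (hR : RI K a I) (N : ℤ → F → F)
    (hN : ∀ n ∈ I, ∀ u v : F, ‖u‖ ≤ r → ‖v‖ ≤ r → ‖N n u - N n v‖ ≤ 1 / (2 * K) * ‖u - v‖)
    (h0 : ∀ n ∈ I, ‖N n 0‖ ≤ r / (2 * K)) :
    ∃ z : ℤ → F, (∀ n, ‖z n‖ ≤ r) ∧ ∀ n ∈ I, z (n + 1) = a n (z n) + N n (z n) := by
  classical
  obtain ⟨R, hR0, hRL, hRe⟩ := hR
  obtain ⟨B, hB⟩ : ∃ B : (ℤ → F) → ℤ → F, B = fun z n => if n ∈ I then N n (z n) else 0 := ⟨_, rfl⟩
  have hBI : ∀ z n, n ∈ I → B z n = N n (z n) := by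
    intro z n hn
    rw [hB]
    exact if_pos hn
  have hBn : ∀ z n, n ∉ I → B z n = 0 := by
    intro z n hn
    rw [hB]
    exact if_neg hn
  have hBb : ∀ z : ℤ → F, (∀ n, ‖z n‖ ≤ r) → ∀ n, ‖B z n‖ ≤ r / K := by
    intro z hz n
    by_cases hn : n ∈ I
    · rw [hBI z n hn]
      have h1 := hN n hn (z n) 0 (hz n) (by rw [norm_zero]; exact hr.le)
      have h2 := h0 n hn
      have h3 : ‖N n (z n)‖ ≤ ‖N n (z n) - N n 0‖ + ‖N n 0‖ := norm_le_norm_sub_add _ _
      have h4 : 1 / (2 * K) * ‖z n - 0‖ ≤ 1 / (2 * K) * r := by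
        rw [sub_zero]
        exact mul_le_mul_of_nonneg_left (hz n) (by positivity)
      have h5 : 1 / (2 * K) * r + r / (2 * K) = r / K := by
        field_simp
        ring
      linarith
    · rw [hBn z n hn, norm_zero]
      positivity
  have hBL : ∀ (z z' : ℤ → F) (C : ℝ), 0 ≤ C → (∀ n, ‖z n‖ ≤ r) → (∀ n, ‖z' n‖ ≤ r) →
      (∀ n, ‖z n - z' n‖ ≤ C) → ∀ n, ‖B z n - B z' n‖ ≤ 1 / (2 * K) * C := by
    intro z z' C hC hz hz' hzz n
    by_cases hn : n ∈ I
    · rw [hBI z n hn, hBI z' n hn]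
      exact (hN n hn _ _ (hz n) (hz' n)).trans (mul_le_mul_of_nonneg_left (hzz n) (by positivity))
    · rw [hBn z n hn, hBn z' n hn, sub_zero, norm_zero]
      positivity
  obtain ⟨z, hz0, hzs⟩ : ∃ z : ℕ → ℤ → F, z 0 = 0 ∧ ∀ k, z (k + 1) = R (B (z k)) :=
    ⟨fun k => Nat.rec 0 (fun _ w => R (B w)) k, rfl, fun k => rfl⟩
  have hzr : ∀ k n, ‖z k n‖ ≤ r := by
    intro k
    induction k with
    | zero =>
      intro n
      rw [hz0, Pi.zero_apply, norm_zero]
      exact hr.le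
    | succ k ih =>
      intro n
      have h1 := hRL (B (z k)) 0 (r / K) ⟨_, hBb _ ih⟩ ⟨0, fun n => by rw [Pi.zero_apply, norm_zero]⟩
        (fun n => by rw [Pi.zero_apply, sub_zero]; exact hBb _ ih n) n
      rw [hR0, Pi.zero_apply, sub_zero, ← hzs, mul_div_cancel₀ r hK.ne'] at h1
      exact h1
  have hzc : ∀ k n, ‖z (k + 1) n - z k n‖ ≤ r * (1 / 2) ^ k := by
    intro k
    induction k with
    | zero =>
      intro n
      rw [hz0, Pi.zero_apply, sub_zero, pow_zero, mul_one]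
      exact hzr _ n
    | succ k ih =>
      intro n
      have h1 := hRL (B (z (k + 1))) (B (z k)) (1 / (2 * K) * (r * (1 / 2) ^ k)) ⟨_, hBb _ (hzr _)⟩
        ⟨_, hBb _ (hzr _)⟩ (hBL _ _ _ (by positivity) (hzr _) (hzr _) ih) n
      rw [← hzs, ← hzs] at h1
      refine h1.trans_eq ?_
      rw [pow_succ]
      field_simp
  have hcau : ∀ n, CauchySeq fun k => z k n := by
    intro n
    refine cauchySeq_of_le_geometric (1 / 2) r (by norm_num) fun k => ?_
    rw [dist_comm, dist_eq_norm]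
    exact hzc k n
  choose y hy using fun n => cauchySeq_tendsto_of_complete (hcau n)
  have hyr : ∀ n, ‖y n‖ ≤ r := fun n => le_of_tendsto (hy n).norm (Filter.Eventually.of_forall fun k => hzr k n)
  refine ⟨y, hyr, fun n hn => ?_⟩
  have hlim1 : Filter.Tendsto (fun k => z (k + 1) (n + 1)) Filter.atTop (nhds (y (n + 1))) :=
    (hy (n + 1)).comp (Filter.tendsto_add_atTop_nat 1)
  have hlim2 : Filter.Tendsto (fun k => a n (z (k + 1) n)) Filter.atTop (nhds (a n (y n))) :=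
    ((a n).continuous.tendsto _).comp ((hy n).comp (Filter.tendsto_add_atTop_nat 1))
  have hlim3 : Filter.Tendsto (fun k => N n (z k n)) Filter.atTop (nhds (N n (y n))) := by
    rw [tendsto_iff_norm_sub_tendsto_zero]
    have h1 : Filter.Tendsto (fun k => 1 / (2 * K) * ‖z k n - y n‖) Filter.atTop (nhds 0) := by
      have h2 := (tendsto_iff_norm_sub_tendsto_zero.1 (hy n)).const_mul (1 / (2 * K))
      rwa [mul_zero] at h2
    exact squeeze_zero (fun k => norm_nonneg _) (fun k => hN n hn _ _ (hzr k n) (hyr n)) h1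
  refine tendsto_nhds_unique hlim1 ((hlim2.add hlim3).congr fun k => ?_)
  rw [hzs, hRe (B (z k)) ⟨_, hBb _ (hzr _)⟩ n hn, hBI _ _ hn]

theorem nonlin_unique {K r : ℝ} (hK : 0 < K) {a : ℤ → F →L[ℝ] F} (hR : Inv K a) (N : ℤ → F → F)
    (hN : ∀ n, ∀ u v : F, ‖u‖ ≤ r → ‖v‖ ≤ r → ‖N n u - N n v‖ ≤ 1 / (2 * K) * ‖u - v‖)
    (z z' : ℤ → F) (hz : ∀ n, ‖z n‖ ≤ r) (hz' : ∀ n, ‖z' n‖ ≤ r)
    (e : ∀ n, z (n + 1) = a n (z n) + N n (z n)) (e' : ∀ n, z' (n + 1) = a n (z' n) + N n (z' n)) :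
    z = z' := by
  have hr0 : 0 ≤ r := (norm_nonneg _).trans (hz 0)
  have key : ∀ k : ℕ, ∀ n, ‖z n - z' n‖ ≤ 2 * r * (1 / 2) ^ k := by
    intro k
    induction k with
    | zero =>
      intro n
      have h1 := norm_sub_le (z n) (z' n)
      have h2 := hz n
      have h3 := hz' n
      rw [pow_zero]
      linarith
    | succ k ih =>
      intro n
      obtain ⟨y, hy1, -, hy3⟩ := hR (fun n => N n (z n) - N n (z' n)) (1 / (2 * K) * (2 * r * (1 / 2) ^ k))
        (fun n => (hN n _ _ (hz n) (hz' n)).trans (mul_le_mul_of_nonneg_left (ih n) (by positivity)))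
      have h1 := hy3 (fun n => z n - z' n) ⟨_, ih⟩ (fun n => by
        show z (n + 1) - z' (n + 1) = a n (z n - z' n) + (N n (z n) - N n (z' n))
        rw [e, e', map_sub]
        abel)
      have h2 := hy1 n
      rw [← h1] at h2
      refine h2.trans_eq ?_
      rw [pow_succ]
      field_simp
  funext n
  have hlim : Filter.Tendsto (fun k : ℕ => 2 * r * (1 / 2 : ℝ) ^ k) Filter.atTop (nhds 0) := by
    have h1 := (tendsto_pow_atTop_nhds_zero_of_lt_one (r := (1 / 2 : ℝ)) (by norm_num)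
      (by norm_num)).const_mul (2 * r)
    rwa [mul_zero] at h1
  have h2 : ‖z n - z' n‖ ≤ 0 := ge_of_tendsto hlim (Filter.Eventually.of_forall fun k => key k n)
  exact sub_eq_zero.1 (norm_le_zero_iff.1 h2)

end Pool.Agent.Helper55.OS
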