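import Pool.Agent.Helper55.OS.TopDefs

/-!
# OS/ShadDefs: shadowing notions in a metric space (no charts)

`Orb f z`: z is a two-sided orbit. `Shad f g Λ ε ρ ρ0`: every ε-pseudo-orbit of f with points ε-close to Λ is ρ-shadowed by an
orbit of g, and there is at most one orbit of g within ρ0 of it. `SP f Λ`: shadowing property. `IS f Λ`: shadowing on
finite intervals whose ends (of length at most n0) may be far from Λ. `Chain`, `CEq`: chains. `Loops`: two loops that can be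
concatenated freely. `CC f`: the classes of NR f. `VVf f`: the vertices. `orb f p`: the forward orbit of p.
-/

open Set Topology

namespace Pool.Agent.Helper55.OS

/-- `z` is a two-sided orbit of `f`. -/
def Orb {X : Type} (f : X → X) (z : ℤ → X) : Prop := ∀ n, z (n + 1) = f (z n)

/-- The forward orbit of `p`. -/
def orb {X : Type} (f : X → X) (p : X) : Set X := {y | ∃ j : ℕ, y = f^[j] p}

section
variable {X : Type} [TopologicalSpace X]

theorem zpow_iter (f : X ≃ₜ X) (n : ℕ) (x : X) : (f ^ (n : ℤ)) x = (f : X → X)^[n] x := by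
  induction n generalizing x with
  | zero => simp
  | succ k ih =>
    rw [Function.iterate_succ_apply, ← ih]
    have : (f ^ ((k + 1 : ℕ) : ℤ)) = f ^ (k : ℤ) * f := by
      rw [Nat.cast_succ, zpow_add_one]
    rw [this]; rfl

theorem zpow_add_app (f : X ≃ₜ X) (m n : ℤ) (x : X) : (f ^ (m + n)) x = (f ^ m) ((f ^ n) x) := by
  rw [zpow_add]; rfl

theorem zpow_zero_app (f : X ≃ₜ X) (x : X) : (f ^ (0 : ℤ)) x = x := by
  rw [zpow_zero]; rfl

theorem zpow_one_app (f : X ≃ₜ X) (x : X) : (f ^ (1 : ℤ)) x = f x := by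
  rw [zpow_one]

theorem orb_zpow (f : X ≃ₜ X) (x : X) : Orb f (fun n : ℤ => (f ^ n) x) := by
  intro n
  show (f ^ (n + 1)) x = f ((f ^ n) x)
  rw [add_comm, zpow_add_app, zpow_one_app]

theorem Orb.eq {f : X ≃ₜ X} {z : ℤ → X} (h : Orb f z) (n : ℤ) : z n = (f ^ n) (z 0) := by
  induction n using Int.induction_on with
  | zero => rw [zpow_zero_app]
  | succ i hi => rw [h, hi]; exact (orb_zpow f (z 0) i).symm
  | pred i hi =>
    have h1 := h (-(i : ℤ) - 1)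
    have h2 := orb_zpow f (z 0) (-(i : ℤ) - 1)
    simp only [sub_add_cancel] at h1 h2
    apply f.injective
    rw [← h1, ← h2, hi]

theorem Orb.shift {f : X → X} {z : ℤ → X} (h : Orb f z) (m : ℤ) : Orb f (fun n => z (n + m)) := by
  intro n
  show z (n + 1 + m) = f (z (n + m))
  rw [← h, add_right_comm]

end

section
variable {X : Type} [MetricSpace X]

/-- Shadowing of pseudo-orbits of `f` near `Λ` by orbits of `g`. -/
def Shad (f g : X → X) (Λ : Set X) (ε ρ ρ0 : ℝ) : Prop :=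
  ∀ y : ℤ → X, (∀ n, ∃ p ∈ Λ, dist (y n) p < ε) → (∀ n, dist (f (y n)) (y (n + 1)) < ε) →
    (∃ z, Orb g z ∧ ∀ n, dist (z n) (y n) ≤ ρ) ∧
    ∀ z z', Orb g z → Orb g z' → (∀ n, dist (z n) (y n) ≤ ρ0) →
      (∀ n, dist (z' n) (y n) ≤ ρ0) → z = z'

/-- Shadowing property near `Λ`. -/
def SP (f : X → X) (Λ : Set X) : Prop :=
  ∃ ρ0 : ℝ, 0 < ρ0 ∧ ∀ ρ : ℝ, 0 < ρ → ∃ ε : ℝ, 0 < ε ∧ Shad f f Λ ε ρ ρ0

/-- Shadowing on finite intervals whose ends may be far from `Λ`. -/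
def IS (f : X ≃ₜ X) (Λ : Set X) : Prop :=
  ∃ ε1 : ℝ, 0 < ε1 ∧ ∀ (n0 : ℕ) (δ : ℝ), 0 < δ → ∃ ε : ℝ, 0 < ε ∧ ∀ (T : ℕ) (y : ℤ → X),
    (∀ n : ℤ, n0 ≤ n → n + n0 ≤ T → ∃ p ∈ Λ, dist (y n) p < ε1) →
    (∀ n : ℤ, 0 ≤ n → n < T → dist (f (y n)) (y (n + 1)) < ε) →
      ∃ z : X, ∀ n : ℤ, 0 ≤ n → n ≤ T → dist ((f ^ n) z) (y n) ≤ δ

theorem Shad.mono {f g : X → X} {Λ Λ' : Set X} {ε ε' ρ ρ0 : ℝ} (h : Shad f g Λ ε ρ ρ0)
    (hΛ : Λ' ⊆ Λ) (hε : ε' ≤ ε) : Shad f g Λ' ε' ρ ρ0 := by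
  intro y h1 h2
  apply h y
  · intro n; obtain ⟨p, hp, hd⟩ := h1 n; exact ⟨p, hΛ hp, hd.trans_le hε⟩
  · intro n; exact (h2 n).trans_le hε

theorem SP.mono {f : X → X} {Λ Λ' : Set X} (h : SP f Λ) (hΛ : Λ' ⊆ Λ) : SP f Λ' := by
  obtain ⟨r, hr, h⟩ := h
  refine ⟨r, hr, fun ρ hρ => ?_⟩
  obtain ⟨e, he, h⟩ := h ρ hρ
  exact ⟨e, he, h.mono hΛ le_rfl⟩

/-- An `η`-chain in `S` from `x` to `y`. -/
def Chain (f : X → X) (S : Set X) (η : ℝ) (x y : X) : Prop :=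
  ∃ (n : ℕ) (c : ℕ → X), 1 ≤ n ∧ c 0 = x ∧ c n = y ∧ (∀ i, i ≤ n → c i ∈ S) ∧
    ∀ i, i < n → dist (f (c i)) (c (i + 1)) < η

/-- Chain equivalence in `S`. -/
def CEq (f : X → X) (S : Set X) (x y : X) : Prop :=
  ∀ η : ℝ, 0 < η → Chain f S η x y ∧ Chain f S η y x

/-- The chain classes of `NR f`. -/
def CC (f : X → X) : Set (Set X) :=
  {V | ∃ x ∈ NR f, V = {y | y ∈ NR f ∧ CEq f (NR f) x y}}

/-- The vertices: the classes of `NR f` and the periodic orbits outside `NR f`. -/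
def VVf (f : X → X) : Set (Set X) :=
  CC f ∪ {V | ∃ p, p ∈ Function.periodicPts f ∧ p ∉ NR f ∧ V = orb f p}

/-- Two loops of length `l`, with free switching. -/
structure Loops (f : X → X) (Λ : Set X) (ε ρ : ℝ) (l : ℕ) (u v : ℤ → X) : Prop where
  pos : 1 ≤ l
  nu : ∀ n, ∃ p ∈ Λ, dist (u n) p < ε
  nv : ∀ n, ∃ p ∈ Λ, dist (v n) p < ε
  pu : ∀ n, u (n + l) = u n
  pv : ∀ n, v (n + l) = v n
  ju : ∀ n, dist (f (u n)) (u (n + 1)) < ε
  jv : ∀ n, dist (f (v n)) (v (n + 1)) < ε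
  suv : dist (f (u (-1))) (v 0) < ε
  svu : dist (f (v (-1))) (u 0) < ε
  sep : ∃ i, 2 * ρ < dist (u i) (v i)

/-- What is used of a vertex: compact, invariant, chain transitive, with a periodic point, with both
shadowing properties. -/
structure GoodV (f : X ≃ₜ X) (V : Set X) : Prop where
  comp : IsCompact V
  ne : V.Nonempty
  inv : f '' V = V
  chain : ∀ η : ℝ, 0 < η → ∀ x ∈ V, ∀ y ∈ V, Chain f V η x y
  per : ∃ p ∈ V, p ∈ Function.periodicPts f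
  sp : SP f V
  is : IS f V

end

end Pool.Agent.Helper55.OS
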