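import Pool.Agent.Helper55.OS.NearL
import Pool.Agent.Helper55.OS.NonLin
import Pool.Agent.Helper55.OS.ShadDefs

/-!
# OS-H6 Interval: shadowing on finite intervals; the two ends (of bounded length) may be far from Λ

PROOF of `is_of_opHyp`. If Λ is empty: (∀ n, n0 ≤ n, n + n0 ≤ T, False) forces T < 2 n0 (else n = n0 is possible), which is the short case below. K1 := 8 K, ε1 > 0 at most the constant
ε of `near_inv` and such that dist x x' < ε1 implies dist (f x) (f x') < that constant (uniform continuity). Let n0, δ be given. Let B be the constant of `Aop_inv`, K2 := (fun K => (B+1)*(K+1))^[n0] ((fun K => (B+1)*(K+1))^[n0] K1) ≥ K1 ≥ 1 (by induction),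
η := 1/(2 K2); `loc_est` for η: δ1, 𝒰1 (we use g := f in 𝒰1); `coord_close` for δ: δ2; r := min δ1 δ2; `loc_est` for min η (r/(2 K2)): δ3. Let ε ≤ δ1, δ3, (near_reg constant), and small (below).
SHORT CASE T < 2 n0: choose ε so small that an ε-pseudo-orbit of length ≤ 2 n0 is δ-shadowed by the orbit of its first point (uniform continuity of f, induction; finitely many n). z := y 0.
LONG CASE 2 n0 ≤ T. Let a := n0, b := T - n0, a ≤ b. There are p, q in Λ with dist (y a) p < ε1, dist (y b) q < ε1. Put y'_n := y n for a ≤ n ≤ b, y'_n := (f^(n-a)) p for n < a, y'_n := (f^(n-b)) q for n > b: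
all y'_n are ε1-near Λ. Jumps: for n = a - 1: dist (f y'_(a-1)) (y'_a) = dist p (y a) < ε1; for a ≤ n < b: < ε ≤ ε1; for n = b: dist (f (y b)) (f q): smaller than the constant
of `near_inv` since dist (y b) q < ε1; other n: 0. Let c' n := A.ch (y'_n). `near_inv`: Inv K1 for a'_n = Aop f (c' n) (c' (n+1)) (y'_n).
Let c n := A.ch (y n) for all n (arbitrary outside [0, T]) and a_n := Aop f (c n) (c (n+1)) (y n): a_n = a'_n for a ≤ n < b, so RI K1 a (Ico a b) (`Inv.ri`, `RI.mono`, `RI.congr`). For 0 ≤ n < T: f (y n) is in reg (c (n+1)) (2 rad)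
(`near_reg`, since y (n+1) is in reg (c (n+1)) (rad) and dist (f (y n)) (y (n+1)) < ε), so `Aop_inv` gives the bound B for a_n and for its inverse. `RI.extF_iter` (m = b, j = n0) and
`RI.extB_iter` (m = a, j = n0; a - n0 = 0, b + n0 = T) give RI K2 a (Ico 0 T) (use RI.mono to rewrite the set). `nonlin_exists` with I = Ico 0 T, K := K2, N_n(ζ) := φ_(n+1) (f (φ_n.symm (φ_n (y n) + ζ))) - φ_(n+1) (y (n+1)) - a_n ζ
(estimates by `loc_est` as in OS-H5): ζ with ‖ζ_n‖ ≤ r, and z_n := φ_n.symm (φ_n (y n) + ζ_n) satisfies z_(n+1) = f z_n for 0 ≤ n < T, dist z_n (y n) ≤ δ. z := z_0.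

`is_half` (half line, purely metric, by compactness): from IS: let y be a sequence with y n ε1-near V for n ≤ -n0 and jumps < ε for n < 0. For each T apply IS to the sequence n ↦ y (n - T) on [0, T]
(the near condition is needed for n0 ≤ n ≤ T - n0 only, i.e. for times ≤ -n0): z_T, and w_T := (f^T) z_T satisfies dist ((f^m) w_T) (y m) ≤ δ for -T ≤ m ≤ 0. A limit point w of w_T (compactness) satisfies it
for all m ≤ 0. `is_half'` in the same way (sequence y itself on [0, T], near condition for n ≥ n0).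
-/

open Set Topology Manifold ContDiff

namespace Pool.Agent.Helper55.OS

private theorem iv_short {X : Type} [MetricSpace X] {f : X → X} (hf : UniformContinuous f)
    (L : ℕ) : ∀ δ : ℝ, 0 < δ → ∃ ε : ℝ, 0 < ε ∧ ∀ (y : ℤ → X) (k : ℕ), k ≤ L →
      (∀ n : ℤ, 0 ≤ n → n < k → dist (f (y n)) (y (n + 1)) < ε) →
        dist (f^[k] (y 0)) (y k) < δ := by
  induction L with
  | zero =>
    intro δ hδ
    refine ⟨1, one_pos, fun y k hk _ => ?_⟩
    obtain rfl : k = 0 := by omega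
    simpa using hδ
  | succ L ih =>
    intro δ hδ
    obtain ⟨δ', hδ', h1⟩ := Metric.uniformContinuous_iff.1 hf (δ / 2) (half_pos hδ)
    obtain ⟨ε0, hε0, h3⟩ := ih (min δ δ') (lt_min hδ hδ')
    refine ⟨min ε0 (δ / 2), lt_min hε0 (half_pos hδ), ?_⟩
    intro y k hk hy
    rcases Nat.lt_or_ge k (L + 1) with hkL | hkL
    · exact (h3 y k (by omega) (fun n hn1 hn2 => (hy n hn1 hn2).trans_le (min_le_left _ _))).trans_le
        (min_le_left _ _)
    · obtain rfl : k = L + 1 := by omega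
      have h4 := (h3 y L le_rfl (fun n hn1 hn2 => (hy n hn1 (by push_cast; omega)).trans_le
        (min_le_left _ _))).trans_le (min_le_right _ _)
      have h5 := h1 h4
      have h6 := (hy L (by omega) (by push_cast; omega)).trans_le (min_le_right _ _)
      have e1 : ((L + 1 : ℕ) : ℤ) = (L : ℤ) + 1 := by push_cast; ring
      rw [Function.iterate_succ_apply', e1]
      have h7 := dist_triangle (f (f^[L] (y 0))) (f (y L)) (y ((L : ℤ) + 1))
      linarith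

private theorem iv_iter {B : ℝ} (hB : 1 ≤ B) (j : ℕ) : ∀ K : ℝ, 1 ≤ K →
    1 ≤ (fun K => (B + 1) * (K + 1))^[j] K := by
  induction j with
  | zero => exact fun K hK => hK
  | succ j ih =>
    intro K hK
    rw [Function.iterate_succ_apply']
    have h1 := ih K hK
    nlinarith

private theorem iv_mem {X : Type} [MetricSpace X] (F : X ≃ₜ X) (Λ : Set X)
    (hi : ∀ x, x ∈ Λ ↔ F x ∈ Λ) {p : X} (hp : p ∈ Λ) (k : ℤ) : (F ^ k) p ∈ Λ := by
  induction k using Int.induction_on with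
  | zero => rwa [zpow_zero_app]
  | succ i ih =>
    rw [add_comm, zpow_add_app, zpow_one_app]
    exact (hi _).1 ih
  | pred i ih =>
    refine (hi _).2 ?_
    have h1 := orb_zpow F p (-(i : ℤ) - 1)
    simp only [sub_add_cancel] at h1
    rw [← h1]
    exact ih

/-- a pseudo-orbit extended by true orbits -/
private theorem iv_ext {X : Type} [MetricSpace X] (F : X ≃ₜ X) (Λ : Set X)
    (hi : ∀ x, x ∈ Λ ↔ F x ∈ Λ) {εn ε1 : ℝ} (hεn : 0 < εn) (h1n : ε1 ≤ εn)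
    (huc : ∀ x x', dist x x' < ε1 → dist (F x) (F x') < εn) {a b : ℤ} (hab : a ≤ b)
    (y : ℤ → X) (hy : ∀ n, a ≤ n → n ≤ b → ∃ p ∈ Λ, dist (y n) p < ε1)
    (hj : ∀ n, a ≤ n → n < b → dist (F (y n)) (y (n + 1)) < εn) :
    ∃ y' : ℤ → X, (∀ n, a ≤ n → n ≤ b → y' n = y n) ∧ (∀ n, ∃ p ∈ Λ, dist (y' n) p < εn) ∧
      ∀ n, dist (F (y' n)) (y' (n + 1)) < εn := by
  obtain ⟨p, hp, hpd⟩ := hy a le_rfl hab
  obtain ⟨q, hq, hqd⟩ := hy b hab le_rfl
  obtain ⟨y', hy'⟩ : ∃ y' : ℤ → X, y' = fun n => if n < a then (F ^ (n - a)) p else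
    if n ≤ b then y n else (F ^ (n - b)) q := ⟨_, rfl⟩
  have y1 : ∀ n, n < a → y' n = (F ^ (n - a)) p := by
    intro n hn
    rw [hy']
    exact if_pos hn
  have y2 : ∀ n, a ≤ n → n ≤ b → y' n = y n := by
    intro n hn hn2
    rw [hy']
    show (if n < a then (F ^ (n - a)) p else if n ≤ b then y n else (F ^ (n - b)) q) = y n
    rw [if_neg (not_lt.2 hn), if_pos hn2]
  have y3 : ∀ n, b < n → y' n = (F ^ (n - b)) q := by
    intro n hn
    rw [hy']
    show (if n < a then (F ^ (n - a)) p else if n ≤ b then y n else (F ^ (n - b)) q) = _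
    rw [if_neg (by omega), if_neg (by omega)]
  refine ⟨y', y2, fun n => ?_, fun n => ?_⟩
  · rcases lt_or_ge n a with h1 | h1
    · refine ⟨y' n, ?_, by rwa [dist_self]⟩
      rw [y1 n h1]
      exact iv_mem F Λ hi hp _
    · rcases le_or_gt n b with h2 | h2
      · obtain ⟨p', hp', hd⟩ := hy n h1 h2
        refine ⟨p', hp', ?_⟩
        rw [y2 n h1 h2]
        exact hd.trans_le h1n
      · refine ⟨y' n, ?_, by rwa [dist_self]⟩
        rw [y3 n h2]
        exact iv_mem F Λ hi hq _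
  · rcases lt_or_ge (n + 1) a with h1 | h1
    · rw [y1 n (by omega), y1 (n + 1) h1]
      have h2 := orb_zpow F p (n - a)
      have e1 : n + 1 - a = n - a + 1 := by ring
      rw [e1]
      have h3 : (F ^ (n - a + 1)) p = F ((F ^ (n - a)) p) := h2
      rw [h3, dist_self]
      exact hεn
    · rcases eq_or_lt_of_le h1 with h2 | h2
      · have e0 : n - a = -1 := by omega
        have h3 := orb_zpow F p (-1)
        have h4 : (F ^ (-1 + 1 : ℤ)) p = F ((F ^ (-1 : ℤ)) p) := h3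
        rw [show (-1 + 1 : ℤ) = 0 by norm_num, zpow_zero_app] at h4
        rw [y1 n (by omega), e0, ← h4, ← h2, y2 a le_rfl hab, dist_comm]
        exact hpd.trans_le h1n
      · have h3 : a ≤ n := by omega
        rcases lt_or_ge n b with h4 | h4
        · rw [y2 n h3 h4.le, y2 (n + 1) (by omega) (by omega)]
          exact hj n h3 h4
        · rcases eq_or_lt_of_le h4 with h5 | h5
          · have h6 := y3 (n + 1) (by omega)
            have e1 : n + 1 - b = 1 := by omega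
            rw [e1, zpow_one_app] at h6
            rw [h6, ← h5, y2 b hab le_rfl]
            exact huc _ _ hqd
          · rw [y3 n h5, y3 (n + 1) (by omega)]
            have h2 := orb_zpow F q (n - b)
            have e1 : n + 1 - b = n - b + 1 := by ring
            rw [e1]
            have h3 : (F ^ (n - b + 1)) q = F ((F ^ (n - b)) q) := h2
            rw [h3, dist_self]
            exact hεn

private theorem iv_lim {X : Type} [MetricSpace X] [CompactSpace X] (f : X ≃ₜ X) (w : ℕ → X)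
    (y : ℤ → X) (δ : ℝ) (S : Set ℤ)
    (h : ∀ m ∈ S, ∃ N : ℕ, ∀ T : ℕ, N ≤ T → dist ((f ^ m) (w T)) (y m) ≤ δ) :
    ∃ z : X, ∀ m ∈ S, dist ((f ^ m) z) (y m) ≤ δ := by
  obtain ⟨z, -, φ, hφ, hlim⟩ := isCompact_univ.tendsto_subseq (x := w) (fun _ => mem_univ _)
  refine ⟨z, fun m hm => ?_⟩
  obtain ⟨N, hN⟩ := h m hm
  have h1 : Filter.Tendsto (fun k => dist ((f ^ m) (w (φ k))) (y m)) Filter.atTop
      (nhds (dist ((f ^ m) z) (y m))) :=
    (((f ^ m).continuous.tendsto z).comp hlim).dist tendsto_const_nhds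
  refine le_of_tendsto h1 ?_
  filter_upwards [Filter.eventually_ge_atTop N] with k hk
  exact hN _ (hk.trans (hφ.id_le k))

theorem is_of_opHyp {d : ℕ} {M : Type} [MetricSpace M] [ChartedSpace (E d) M]
    [IsManifold (𝓡 d) ∞ M] [CompactSpace M] (A : Atl d M) (f : Dif d M) (Λ : Set M)
    (hi : ∀ x, x ∈ Λ ↔ f x ∈ Λ) (K : ℝ) (hK : 1 ≤ K) (h : OpHyp A f Λ K) :
    IS f.toHomeomorph Λ := by
  have hK0 : 0 < K := by linarith
  obtain ⟨εn, hεn, hinv⟩ := near_inv A f Λ hi K hK h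
  have uc : UniformContinuous (f : M → M) :=
    CompactSpace.uniformContinuous_of_continuous f.continuous
  obtain ⟨ε2, hε2, huc⟩ := Metric.uniformContinuous_iff.1 uc εn hεn
  refine ⟨min εn ε2, lt_min hεn hε2, fun n0 δ hδ => ?_⟩
  obtain ⟨B, hB1, hB⟩ := Aop_inv A f
  obtain ⟨K2, hK2⟩ : ∃ K2, K2 = (fun K => (B + 1) * (K + 1))^[n0]
    ((fun K => (B + 1) * (K + 1))^[n0] (8 * K)) := ⟨_, rfl⟩
  have hK3 : 1 ≤ (fun K => (B + 1) * (K + 1))^[n0] (8 * K) := iv_iter hB1 n0 _ (by linarith)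
  have hK21 : 1 ≤ K2 := by
    rw [hK2]
    exact iv_iter hB1 n0 _ hK3
  have hK20 : 0 < K2 := by linarith
  obtain ⟨δ1, 𝒰1, hδ1, -, hf1, hl1⟩ := loc_est A f (1 / (2 * K2)) (by positivity)
  obtain ⟨δ2, hδ2, hc2⟩ := coord_close A δ hδ
  obtain ⟨r, hr⟩ : ∃ r, r = min δ1 δ2 := ⟨_, rfl⟩
  have hr0 : 0 < r := by rw [hr]; exact lt_min hδ1 hδ2
  have hr1 : r ≤ δ1 := by rw [hr]; exact min_le_left _ _
  have hr2 : r ≤ δ2 := by rw [hr]; exact min_le_right _ _
  obtain ⟨δ3, 𝒰3, hδ3, -, hf3, hl3⟩ := loc_est A f (r / (2 * K2)) (by positivity)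
  obtain ⟨δ4, hδ4, hnear⟩ := near_reg A
  obtain ⟨εs, hεs, hshort⟩ := iv_short uc (2 * n0) δ hδ
  refine ⟨min εn (min δ1 (min δ3 (min δ4 εs))), lt_min hεn (lt_min hδ1 (lt_min hδ3
    (lt_min hδ4 hεs))), fun T y hyΛ hyj => ?_⟩
  have hjn : ∀ n : ℤ, 0 ≤ n → n < T → dist (f (y n)) (y (n + 1)) < εn := fun n h1 h2 =>
    (hyj n h1 h2).trans_le (min_le_left _ _)
  have hj1 : ∀ n : ℤ, 0 ≤ n → n < T → dist (f (y n)) (y (n + 1)) < δ1 := fun n h1 h2 =>
    (hyj n h1 h2).trans_le ((min_le_right _ _).trans (min_le_left _ _))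
  have hj3 : ∀ n : ℤ, 0 ≤ n → n < T → dist (f (y n)) (y (n + 1)) < δ3 := fun n h1 h2 =>
    (hyj n h1 h2).trans_le ((min_le_right _ _).trans ((min_le_right _ _).trans (min_le_left _ _)))
  have hj4 : ∀ n : ℤ, 0 ≤ n → n < T → dist (f (y n)) (y (n + 1)) < δ4 := fun n h1 h2 =>
    (hyj n h1 h2).trans_le ((min_le_right _ _).trans ((min_le_right _ _).trans
      ((min_le_right _ _).trans (min_le_left _ _))))
  have hjs : ∀ n : ℤ, 0 ≤ n → n < T → dist (f (y n)) (y (n + 1)) < εs := fun n h1 h2 =>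
    (hyj n h1 h2).trans_le ((min_le_right _ _).trans ((min_le_right _ _).trans
      ((min_le_right _ _).trans (min_le_right _ _))))
  rcases Nat.lt_or_ge T (2 * n0) with hT | hT
  · refine ⟨y 0, fun n hn1 hn2 => ?_⟩
    obtain ⟨k, rfl⟩ := Int.eq_ofNat_of_zero_le hn1
    rw [zpow_iter]
    exact (hshort y k (by omega) (fun m hm1 hm2 => hjs m hm1 (by omega))).le
  obtain ⟨y', hy1, hy2, hy3⟩ := iv_ext f.toHomeomorph Λ hi (εn := εn) (ε1 := min εn ε2) hεn
    (min_le_left _ _) (fun x x' hx => huc (hx.trans_le (min_le_right _ _)))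
    (a := (n0 : ℤ)) (b := (T : ℤ) - n0) (by omega) y (fun n h1 h2 => hyΛ n h1 (by omega))
    (fun n h1 h2 => hjn n (by omega) (by omega))
  obtain ⟨c, hcdef⟩ : ∃ c : ℤ → M, ∀ n, c n = A.ch (y n) := ⟨_, fun _ => rfl⟩
  have hcC : ∀ n, c n ∈ A.C := fun n => by rw [hcdef]; exact A.ch_mem _
  have hcr : ∀ n, y n ∈ reg d (c n) (A.rad (c n)) := fun n => by rw [hcdef]; exact A.ch_reg _
  have hcr2 : ∀ n, y n ∈ reg d (c n) (2 * A.rad (c n)) := fun n =>
    ⟨(hcr n).1, Metric.closedBall_subset_closedBall (by linarith [A.pos (c n) (hcC n)]) (hcr n).2⟩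
  have hsrc : ∀ n, y n ∈ (extChartAt (𝓡 d) (c n)).source := fun n => (hcr n).1
  have hInv := hinv y' (fun n => A.ch (y' n)) hy2 hy3 (fun n => ⟨A.ch_mem _, A.ch_reg _⟩)
  obtain ⟨a, ha⟩ : ∃ a : ℤ → E d →L[ℝ] E d, ∀ n, a n = Aop f (c n) (c (n + 1)) (y n) :=
    ⟨_, fun _ => rfl⟩
  have hR0 : RI (8 * K) a (Ico (n0 : ℤ) ((T : ℤ) - n0)) := by
    refine (hInv.ri.mono (subset_univ _)).congr fun n hn => ?_
    have e1 : y' n = y n := hy1 n hn.1 hn.2.le
    have e2 : y' (n + 1) = y (n + 1) := hy1 (n + 1) (by linarith [hn.1]) (by linarith [hn.2])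
    rw [ha, hcdef, hcdef, e1, e2]
  have hAB : ∀ n : ℤ, 0 ≤ n → n < T → ‖a n‖ ≤ B ∧ ∃ a' : E d →L[ℝ] E d,
      (∀ v, a n (a' v) = v) ∧ ‖a'‖ ≤ B := by
    intro n h1 h2
    have h3 : f (y n) ∈ reg d (c (n + 1)) (2 * A.rad (c (n + 1))) :=
      hnear (c (n + 1)) (hcC _) (y (n + 1)) (hcr _) _ (hj4 n h1 h2)
    obtain ⟨h4, a', h5, -, h6⟩ := hB (c n) (hcC n) (c (n + 1)) (hcC _) (y n) (hcr2 n) h3
    rw [← ha] at h4 h5
    exact ⟨h4, a', h5, h6⟩
  have hR1 := hR0.extF_iter (B := B) (by positivity) (by linarith) ((T : ℤ) - n0)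
    (fun n hn => hn.2) n0 (fun n h1 h2 => (hAB n (by omega) (by omega)).1)
  have hR2 := hR1.extB_iter (B := B) (by linarith) (by linarith) (n0 : ℤ) (fun n hn => by
      rcases hn with hn | hn
      · exact hn.1
      · have := hn.1
        omega) n0 (fun n h1 h2 => (hAB n (by omega) (by omega)).2)
  rw [← hK2] at hR2
  have hR : RI K2 a (Ico 0 (T : ℤ)) := by
    refine hR2.mono fun n hn => ?_
    obtain ⟨hn1, hn2⟩ := hn
    rcases lt_or_ge n (n0 : ℤ) with h1 | h1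
    · exact Or.inr ⟨by omega, h1⟩
    · rcases lt_or_ge n ((T : ℤ) - n0) with h2 | h2
      · exact Or.inl (Or.inl ⟨h1, h2⟩)
      · exact Or.inl (Or.inr ⟨h2, by omega⟩)
  obtain ⟨L, hL⟩ : ∃ L : ℤ → E d → E d, ∀ n ζ, L n ζ = extChartAt (𝓡 d) (c (n + 1))
      (f ((extChartAt (𝓡 d) (c n)).symm (extChartAt (𝓡 d) (c n) (y n) + ζ))) :=
    ⟨_, fun _ _ => rfl⟩
  obtain ⟨N, hN⟩ : ∃ N : ℤ → E d → E d, ∀ n ζ, N n ζ =
      L n ζ - extChartAt (𝓡 d) (c (n + 1)) (y (n + 1)) - a n ζ := ⟨_, fun _ _ => rfl⟩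
  obtain ⟨ζ, hζr, hζ⟩ := nonlin_exists (K := K2) hK20 hr0 hR N
    (fun n hn u v hu hv => by
      have h1 := (hl1 (c n) (hcC n) (c (n + 1)) (hcC (n + 1)) (y n) (hcr n) (y (n + 1))
        (hcr (n + 1)) (hj1 n hn.1 hn.2) f hf1 u v (hu.trans hr1) (hv.trans hr1)).2.1
      rw [← hL, ← hL, ← ha, map_sub] at h1
      have h2 : N n u - N n v = L n u - L n v - (a n u - a n v) := by
        rw [hN, hN]
        abel
      rw [h2]
      exact h1)
    (fun n hn => by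
      have h1 := (hl3 (c n) (hcC n) (c (n + 1)) (hcC (n + 1)) (y n) (hcr n) (y (n + 1))
        (hcr (n + 1)) (hj3 n hn.1 hn.2) f hf3 0 0 (by rw [norm_zero]; exact hδ3.le)
        (by rw [norm_zero]; exact hδ3.le)).2.2
      have h2 : N n 0 = extChartAt (𝓡 d) (c (n + 1)) (f (y n)) -
          extChartAt (𝓡 d) (c (n + 1)) (y (n + 1)) := by
        rw [hN, hL, add_zero, (extChartAt (𝓡 d) (c n)).left_inv (hsrc n), map_zero, sub_zero]
      rw [h2]
      exact h1)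
  obtain ⟨z, hz⟩ : ∃ z : ℤ → M, ∀ n, z n =
      (extChartAt (𝓡 d) (c n)).symm (extChartAt (𝓡 d) (c n) (y n) + ζ n) := ⟨_, fun _ => rfl⟩
  have hzs : ∀ n : ℤ, 0 ≤ n → n < T → z (n + 1) = f (z n) := by
    intro n hn1 hn2
    have h1 := (hl1 (c n) (hcC n) (c (n + 1)) (hcC (n + 1)) (y n) (hcr n) (y (n + 1))
      (hcr (n + 1)) (hj1 n hn1 hn2) f hf1 (ζ n) (ζ n) ((hζr n).trans hr1) ((hζr n).trans hr1)).1.2
    rw [← hz n] at h1
    have h2 := hζ n ⟨hn1, hn2⟩
    have h3 : extChartAt (𝓡 d) (c (n + 1)) (y (n + 1)) + ζ (n + 1) =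
        extChartAt (𝓡 d) (c (n + 1)) (f (z n)) := by
      rw [h2, hN, hL, ← hz n]
      abel
    rw [hz (n + 1), h3, (extChartAt (𝓡 d) (c (n + 1))).left_inv h1]
  have hzf : ∀ k : ℕ, k ≤ T → (f : M → M)^[k] (z 0) = z k := by
    intro k
    induction k with
    | zero => intro _; simp
    | succ k ih =>
      intro hk
      rw [Function.iterate_succ_apply', ih (by omega), ← hzs k (by omega) (by omega)]
      congr 1
  refine ⟨z 0, fun n hn1 hn2 => ?_⟩
  obtain ⟨k, rfl⟩ := Int.eq_ofNat_of_zero_le hn1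
  rw [zpow_iter]
  have h1 : (f.toHomeomorph : M → M)^[k] (z 0) = z k := hzf k (by omega)
  rw [h1, hz]
  exact (hc2 (c k) (hcC k) (y k) (hcr2 k) (ζ k) ((hζr k).trans hr2)).2

/-- Backward half line version of `IS`. -/
theorem is_half {X : Type} [MetricSpace X] [CompactSpace X] (f : X ≃ₜ X) (Λ : Set X)
    (h : IS f Λ) : ∃ ε1 : ℝ, 0 < ε1 ∧ ∀ (n0 : ℕ) (δ : ℝ), 0 < δ → ∃ ε : ℝ, 0 < ε ∧ ∀ y : ℤ → X,
      (∀ n : ℤ, n ≤ -n0 → ∃ p ∈ Λ, dist (y n) p < ε1) →
      (∀ n : ℤ, n < 0 → dist (f (y n)) (y (n + 1)) < ε) →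
        ∃ z : X, ∀ n : ℤ, n ≤ 0 → dist ((f ^ n) z) (y n) ≤ δ := by
  obtain ⟨ε1, hε1, hIS⟩ := h
  refine ⟨ε1, hε1, fun n0 δ hδ => ?_⟩
  obtain ⟨ε, hε, h1⟩ := hIS n0 δ hδ
  refine ⟨ε, hε, fun y hy1 hy2 => ?_⟩
  have h2 : ∀ T : ℕ, ∃ z : X, ∀ n : ℤ, 0 ≤ n → n ≤ T →
      dist ((f ^ n) z) (y (n - T)) ≤ δ := by
    intro T
    refine h1 T (fun n => y (n - T)) (fun n hn1 hn2 => hy1 _ (by omega)) (fun n hn1 hn2 => ?_)
    have h3 := hy2 (n - T) (by omega)
    have e : n + 1 - (T : ℤ) = n - T + 1 := by ring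
    simp only [e]
    exact h3
  choose z hz using h2
  obtain ⟨w, hw⟩ := iv_lim f (fun T => (f ^ (T : ℤ)) (z T)) y δ {n | n ≤ 0} (fun m hm => by
    have hm' : m ≤ 0 := hm
    refine ⟨(-m).toNat, fun T hT => ?_⟩
    have h3 := hz T (m + T) (by omega) (by omega)
    rw [zpow_add_app, add_sub_cancel_right] at h3
    exact h3)
  exact ⟨w, fun n hn => hw n hn⟩

/-- Forward half line version of `IS`. -/
theorem is_half' {X : Type} [MetricSpace X] [CompactSpace X] (f : X ≃ₜ X) (Λ : Set X)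
    (h : IS f Λ) : ∃ ε1 : ℝ, 0 < ε1 ∧ ∀ (n0 : ℕ) (δ : ℝ), 0 < δ → ∃ ε : ℝ, 0 < ε ∧ ∀ y : ℤ → X,
      (∀ n : ℤ, n0 ≤ n → ∃ p ∈ Λ, dist (y n) p < ε1) →
      (∀ n : ℤ, 0 ≤ n → dist (f (y n)) (y (n + 1)) < ε) →
        ∃ z : X, ∀ n : ℤ, 0 ≤ n → dist ((f ^ n) z) (y n) ≤ δ := by
  obtain ⟨ε1, hε1, hIS⟩ := h
  refine ⟨ε1, hε1, fun n0 δ hδ => ?_⟩
  obtain ⟨ε, hε, h1⟩ := hIS n0 δ hδ
  refine ⟨ε, hε, fun y hy1 hy2 => ?_⟩
  have h2 : ∀ T : ℕ, ∃ z : X, ∀ n : ℤ, 0 ≤ n → n ≤ T → dist ((f ^ n) z) (y n) ≤ δ := fun T =>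
    h1 T y (fun n hn1 _ => hy1 n hn1) (fun n hn1 _ => hy2 n hn1)
  choose z hz using h2
  obtain ⟨w, hw⟩ := iv_lim f z y δ {n | 0 ≤ n} (fun m hm => by
    have hm' : 0 ≤ m := hm
    exact ⟨m.toNat, fun T hT => hz T m hm' (by omega)⟩)
  exact ⟨w, fun n hn => hw n hn⟩

end Pool.Agent.Helper55.OS
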