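import Pool.Agent.Helper55.OS.Phase
import Pool.Agent.Helper55.OS.Interval

/-!
# OS-N3 Connect: connecting orbits through a vertex

PROOFS. Let 0 < η, dist x x' < ε' implies dist (f x) (f x') < ε/4, ε' ≤ ε/4. Write x_n = (f^n) x.
* `connect_mid`. ε1 from IS f V (hV.is). N ≥ 1 with a_n and b_(-n) at distance < ε1 from V for all n ≥ N (Fwd, Bwd with the open set thickening ε1 V). n0 := N; ε from IS for (n0, δ), ε' as above. N' ≥ N with p⁺, p⁻ in V, dist (a_N') p⁺ < ε',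
  dist (b_(-N')) p⁻ < ε'. (ε/4)-chain c_0 = p⁺, ..., c_k = p⁻ in V, k ≥ 1 (hV.chain). T := 2 N' + k; y_n := a_n (0 ≤ n ≤ N'), y_(N'+j) := c_j (1 ≤ j ≤ k-1), y_(N'+k+i) := b_(-N'+i) (0 ≤ i ≤ N'), so y_0 = a, y_T = b. Jumps < ε: at N' (k ≥ 2): dist (f a_N') (c_1) ≤
  dist (f a_N') (f p⁺) + ε/4 < ε/2; last chain jump: dist (f c_(k-1)) (b_(-N')) < ε/4 + ε'; if k = 1: dist (f a_N') (b_(-N')) < ε/4 + ε/4 + ε'. Points with n0 ≤ n ≤ T - n0 are within ε1 of V. So z with dist ((f^n) z) (y_n) ≤ δ, 0 ≤ n ≤ T; y_n in C for 1 ≤ n ≤ T-1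
  (V ⊆ C, haC, hbC).
* `connect_bwd`. `is_half` (ε1), `bwd_of_close` (δ0); δ' := min δ δ0; N, n0 := N', N' as above for b; chain c_0 = p, ..., c_k = p⁻ in V. y_(-i) := b_(-i) (0 ≤ i ≤ N'), y_(-N'-k+j) := c_j (0 ≤ j ≤ k-1), y_n := (f^(n+N'+k)) p for n ≤ -N'-k. Near V within ε1 for n ≤ -N.
  z with dist ((f^n) z) (y_n) ≤ δ' for n ≤ 0. Bwd by `bwd_of_close` with s = N' + k. (orb f p ⊆ V since f '' V = V.)
* `connect_fwd`. In the same way with `is_half'`, `fwd_of_close`: y_n := a_n (0 ≤ n ≤ N'), chain from p⁺ to p, then (f^i) p.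
-/

open Set Topology

namespace Pool.Agent.Helper55.OS

variable {X : Type} [MetricSpace X] [CompactSpace X]

private theorem zpow_mem (f : X ≃ₜ X) {V : Set X} (hV : f '' V = V) {x : X} (hx : x ∈ V) (n : ℤ) :
    (f ^ n) x ∈ V := by
  have h1 : ∀ y, y ∈ V → f y ∈ V := fun y hy => by rw [← hV]; exact ⟨y, hy, rfl⟩
  have h2 : ∀ y, f y ∈ V → y ∈ V := fun y hy => by
    rw [← hV] at hy
    obtain ⟨w, hw, hwy⟩ := hy
    rw [← f.injective hwy]
    exact hw
  induction n using Int.induction_on with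
  | zero => rw [zpow_zero_app]; exact hx
  | succ i hi =>
    have h3 : (f ^ ((i : ℤ) + 1)) x = f ((f ^ (i : ℤ)) x) := orb_zpow f x i
    rw [h3]
    exact h1 _ hi
  | pred i hi =>
    apply h2
    have h3 := orb_zpow f x (-(i : ℤ) - 1)
    simp only [sub_add_cancel] at h3
    rw [← h3]
    exact hi

private theorem orb_sub (f : X ≃ₜ X) {V : Set X} (hV : f '' V = V) {p : X} (hp : p ∈ V) :
    orb (f : X → X) p ⊆ V := by
  rintro y ⟨j, rfl⟩
  rw [← zpow_iter]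
  exact zpow_mem f hV hp _

private theorem fwd_near (f : X ≃ₜ X) {V : Set X} {a : X} (ha : Fwd f a V) {e : ℝ} (he : 0 < e) :
    ∃ N : ℕ, ∀ n : ℤ, (N : ℤ) ≤ n → ∃ p ∈ V, dist ((f ^ n) a) p < e := by
  obtain ⟨N, hN⟩ := ha (Metric.thickening e V) Metric.isOpen_thickening
    (Metric.self_subset_thickening he V)
  refine ⟨N, fun n hn => ?_⟩
  have h1 := hN n.toNat (by omega)
  rw [Int.toNat_of_nonneg (by omega)] at h1
  exact Metric.mem_thickening_iff.1 h1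

private theorem bwd_near (f : X ≃ₜ X) {V : Set X} {a : X} (ha : Bwd f a V) {e : ℝ} (he : 0 < e) :
    ∃ N : ℕ, ∀ n : ℤ, n ≤ -(N : ℤ) → ∃ p ∈ V, dist ((f ^ n) a) p < e := by
  obtain ⟨N, hN⟩ := ha (Metric.thickening e V) Metric.isOpen_thickening
    (Metric.self_subset_thickening he V)
  refine ⟨N, fun n hn => ?_⟩
  have h1 := hN (-n).toNat (by omega)
  rw [Int.toNat_of_nonneg (by omega), neg_neg] at h1
  exact Metric.mem_thickening_iff.1 h1

private theorem splice (f : X ≃ₜ X) (L R : ℤ → X) (hL : Orb (f : X → X) L)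
    (hR : Orb (f : X → X) R) (m : ℤ) (k : ℕ) (g : ℕ → X) {e : ℝ} (he : 0 < e) (h0 : g 0 = L m)
    (hk : g k = R (m + k)) (hg : ∀ j, j < k → dist (f (g j)) (g (j + 1)) < e) :
    ∃ y : ℤ → X, (∀ n, n ≤ m → y n = L n) ∧ (∀ j : ℕ, j ≤ k → y (m + j) = g j) ∧
      (∀ n, m + k ≤ n → y n = R n) ∧ ∀ n, dist (f (y n)) (y (n + 1)) < e := by
  classical
  let y : ℤ → X := fun n => if n ≤ m then L n else if n ≤ m + k then g (n - m).toNat else R n
  have y1 : ∀ n, n ≤ m → y n = L n := fun n hn => if_pos hn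
  have y2 : ∀ j : ℕ, j ≤ k → y (m + j) = g j := by
    intro j hj
    rcases Nat.eq_zero_or_pos j with h | h
    · subst h
      rw [Nat.cast_zero, add_zero, y1 m le_rfl, h0]
    · have h1 : y (m + j) = g (m + j - m).toNat := by
        change (if m + (j : ℤ) ≤ m then L (m + j) else _) = _
        rw [if_neg (by omega), if_pos (by omega)]
      rw [h1]
      congr 1
      omega
  have y3 : ∀ n, m + k ≤ n → y n = R n := by
    intro n hn
    rcases eq_or_lt_of_le hn with h | h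
    · rw [← h, y2 k le_rfl, hk]
    · change (if n ≤ m then L n else if n ≤ m + k then _ else R n) = _
      rw [if_neg (by omega), if_neg (by omega)]
  refine ⟨y, y1, y2, y3, fun n => ?_⟩
  rcases lt_or_ge n m with h | h
  · rw [y1 n h.le, y1 (n + 1) (by omega), hL n, dist_self]
    exact he
  · rcases lt_or_ge n (m + k) with h' | h'
    · obtain ⟨j, hj⟩ : ∃ j : ℕ, n = m + j := ⟨(n - m).toNat, by omega⟩
      have e1 : n + 1 = m + ((j + 1 : ℕ) : ℤ) := by push_cast; omega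
      rw [e1, hj, y2 j (by omega), y2 (j + 1) (by omega)]
      exact hg j (by omega)
    · rw [y3 n h', y3 (n + 1) (by omega), hR n, dist_self]
      exact he

private theorem perturb (f : X ≃ₜ X) {V : Set X}
    (hc : ∀ η : ℝ, 0 < η → ∀ x ∈ V, ∀ y ∈ V, Chain (f : X → X) V η x y) {e : ℝ} (he : 0 < e) :
    ∃ e' : ℝ, 0 < e' ∧ ∀ a' b' p q : X, p ∈ V → q ∈ V → dist a' p < e' → dist b' q < e' →
      ∃ (k : ℕ) (g : ℕ → X), 1 ≤ k ∧ g 0 = a' ∧ g k = b' ∧ (∀ j, 0 < j → j < k → g j ∈ V) ∧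
        ∀ j, j < k → dist (f (g j)) (g (j + 1)) < e := by
  classical
  have huc : UniformContinuous (f : X → X) :=
    CompactSpace.uniformContinuous_of_continuous f.continuous
  obtain ⟨d, hd, hd'⟩ := Metric.uniformContinuous_iff.1 huc (e / 4) (by positivity)
  refine ⟨min d (e / 4), lt_min hd (by positivity), fun a' b' p q hp hq hap hbq => ?_⟩
  obtain ⟨k, c, hk, hc0, hck, hcV, hcj⟩ := hc (e / 4) (by positivity) p hp q hq
  let g : ℕ → X := fun j => if j = 0 then a' else if j = k then b' else c j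
  have g0 : g 0 = a' := if_pos rfl
  have gk : g k = b' := by
    change (if k = 0 then a' else if k = k then b' else c k) = b'
    rw [if_neg (by omega), if_pos rfl]
  have gm : ∀ j, 0 < j → j < k → g j = c j := by
    intro j h1 h2
    change (if j = 0 then a' else if j = k then b' else c j) = c j
    rw [if_neg (by omega), if_neg (by omega)]
  refine ⟨k, g, hk, g0, gk, fun j h1 h2 => ?_, fun j hj => ?_⟩
  · rw [gm j h1 h2]
    exact hcV j h2.le
  · have h1 : dist (f (g j)) (f (c j)) < e / 4 := by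
      rcases Nat.eq_zero_or_pos j with h | h
      · subst h
        rw [g0, hc0]
        exact hd' (lt_of_lt_of_le hap (min_le_left _ _))
      · rw [gm j h hj, dist_self]
        positivity
    have h2 : dist (f (c j)) (c (j + 1)) < e / 4 := hcj j hj
    have h3 : dist (c (j + 1)) (g (j + 1)) < e / 4 := by
      rcases eq_or_lt_of_le (Nat.succ_le_of_lt hj) with h | h
      · have h4 : j + 1 = k := h
        rw [h4, gk, hck, dist_comm]
        exact lt_of_lt_of_le hbq (min_le_right _ _)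
      · rw [gm (j + 1) (by omega) h, dist_self]
        positivity
    calc dist (f (g j)) (g (j + 1))
        ≤ dist (f (g j)) (f (c j)) + dist (f (c j)) (c (j + 1)) + dist (c (j + 1)) (g (j + 1)) :=
          dist_triangle4 _ _ _ _
      _ < e := by linarith

private theorem orb_sh (f : X ≃ₜ X) (x : X) (c : ℤ) :
    Orb (f : X → X) (fun n : ℤ => (f ^ (n + c)) x) := (orb_zpow f x).shift c

theorem connect_mid (f : X ≃ₜ X) (V : Set X) (hV : GoodV f V) (a b : X) (ha : Fwd f a V)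
    (hb : Bwd f b V) (C : Set X) (hVC : V ⊆ C) (haC : ∀ n : ℤ, 1 ≤ n → (f ^ n) a ∈ C)
    (hbC : ∀ n : ℤ, n ≤ -1 → (f ^ n) b ∈ C) (δ : ℝ) (hδ : 0 < δ) :
    ∃ (T : ℕ) (z : X), 1 ≤ T ∧ dist z a ≤ δ ∧ dist ((f ^ (T : ℤ)) z) b ≤ δ ∧
      ∀ j : ℤ, 1 ≤ j → j < T → ∃ c ∈ C, dist ((f ^ j) z) c ≤ δ := by
  obtain ⟨e1, he1, hIS⟩ := hV.is
  obtain ⟨N1, hN1⟩ := fwd_near f ha he1
  obtain ⟨N2, hN2⟩ := bwd_near f hb he1
  obtain ⟨e, he, hIS⟩ := hIS (max N1 N2) δ hδ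
  obtain ⟨e', he', hpert⟩ := perturb f hV.chain he
  obtain ⟨N3, hN3⟩ := fwd_near f ha he'
  obtain ⟨N4, hN4⟩ := bwd_near f hb he'
  obtain ⟨N, hN⟩ : ∃ N : ℕ, N = max (max N1 N2) (max N3 N4) := ⟨_, rfl⟩
  have hNa : max N1 N2 ≤ N := by omega
  obtain ⟨p, hp, hpa⟩ := hN3 N (by omega)
  obtain ⟨q, hq, hqb⟩ := hN4 (-(N : ℤ)) (by omega)
  obtain ⟨k, g, hk, g0, gk, gV, gj⟩ := hpert _ _ p q hp hq hpa hqb
  obtain ⟨y, y1, y2, y3, yj⟩ := splice f (fun n : ℤ => (f ^ n) a)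
    (fun n : ℤ => (f ^ (n + -((2 * N + k : ℕ) : ℤ))) b) (orb_zpow f a) (orb_sh f b _) (N : ℤ) k g he
    g0 (by
      rw [gk]
      change (f ^ (-(N : ℤ))) b = (f ^ ((N : ℤ) + k + -((2 * N + k : ℕ) : ℤ))) b
      congr 2
      push_cast
      ring) gj
  have hnear : ∀ n : ℤ, ((max N1 N2 : ℕ) : ℤ) ≤ n → n + ((max N1 N2 : ℕ) : ℤ) ≤ ((2 * N + k : ℕ) : ℤ) →
      ∃ p ∈ V, dist (y n) p < e1 := by
    intro n h1 h2
    rcases le_or_gt n N with h3 | h3
    · rw [y1 n h3]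
      exact hN1 n (by omega)
    · rcases lt_or_ge n (N + k) with h4 | h4
      · obtain ⟨j, hj⟩ : ∃ j : ℕ, n = N + j := ⟨(n - N).toNat, by omega⟩
        rw [hj, y2 j (by omega)]
        exact ⟨g j, gV j (by omega) (by omega), by rw [dist_self]; exact he1⟩
      · rw [y3 n h4]
        exact hN2 _ (by push_cast at h2 ⊢; omega)
  obtain ⟨z, hz⟩ := hIS (2 * N + k) y hnear (fun n _ _ => yj n)
  refine ⟨2 * N + k, z, by omega, ?_, ?_, ?_⟩
  · have h1 := hz 0 le_rfl (by positivity)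
    rw [zpow_zero_app, y1 0 (by positivity)] at h1
    simpa only [zpow_zero_app] using h1
  · have h1 := hz ((2 * N + k : ℕ) : ℤ) (by positivity) le_rfl
    rw [y3 ((2 * N + k : ℕ) : ℤ) (by push_cast; omega)] at h1
    simp only [add_neg_cancel] at h1
    rwa [zpow_zero_app] at h1
  · intro j hj1 hj2
    refine ⟨y j, ?_, hz j (by omega) (by omega)⟩
    rcases le_or_gt j N with h3 | h3
    · rw [y1 j h3]
      exact haC j hj1
    · rcases lt_or_ge j (N + k) with h4 | h4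
      · obtain ⟨i, hi⟩ : ∃ i : ℕ, j = N + i := ⟨(j - N).toNat, by omega⟩
        rw [hi, y2 i (by omega)]
        exact hVC (gV i (by omega) (by omega))
      · rw [y3 j h4]
        exact hbC _ (by push_cast at hj2 ⊢; omega)

theorem connect_bwd (f : X ≃ₜ X) (V : Set X) (hV : GoodV f V) (p : X) (hpV : p ∈ V)
    (hp : p ∈ Function.periodicPts (f : X → X)) (b : X) (hb : Bwd f b V) (C : Set X) (hVC : V ⊆ C)
    (hbC : ∀ n : ℤ, n ≤ -1 → (f ^ n) b ∈ C) (δ : ℝ) (hδ : 0 < δ) :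
    ∃ z : X, dist z b ≤ δ ∧ Bwd f z (orb (f : X → X) p) ∧
      ∀ j : ℤ, j ≤ -1 → ∃ c ∈ C, dist ((f ^ j) z) c ≤ δ := by
  obtain ⟨e1, he1, hIS⟩ := is_half f V hV.is
  obtain ⟨δ0, hδ0, hclose⟩ := bwd_of_close f V hV.sp p hp (orb_sub f hV.inv hpV)
  obtain ⟨N2, hN2⟩ := bwd_near f hb he1
  obtain ⟨e, he, hIS⟩ := hIS N2 (min δ δ0) (lt_min hδ hδ0)
  obtain ⟨e', he', hpert⟩ := perturb f hV.chain he
  obtain ⟨N4, hN4⟩ := bwd_near f hb he'
  obtain ⟨N, hN⟩ : ∃ N : ℕ, N = max N2 N4 := ⟨_, rfl⟩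
  obtain ⟨q, hq, hqb⟩ := hN4 (-(N : ℤ)) (by omega)
  obtain ⟨k, g, hk, g0, gk, gV, gj⟩ := hpert p _ p q hpV hq (by rw [dist_self]; exact he') hqb
  obtain ⟨y, y1, y2, y3, yj⟩ := splice f (fun n : ℤ => (f ^ (n + ((N + k : ℕ) : ℤ))) p)
    (fun n : ℤ => (f ^ n) b) (orb_sh f p _) (orb_zpow f b) (-((N + k : ℕ) : ℤ)) k g he
    (by
      rw [g0]
      change p = (f ^ (-((N + k : ℕ) : ℤ) + ((N + k : ℕ) : ℤ))) p
      rw [neg_add_cancel, zpow_zero_app]) (by
      rw [gk]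
      change (f ^ (-(N : ℤ))) b = (f ^ (-((N + k : ℕ) : ℤ) + k)) b
      congr 2
      push_cast
      ring) gj
  have hnear : ∀ n : ℤ, n ≤ -(N2 : ℤ) → ∃ p ∈ V, dist (y n) p < e1 := by
    intro n h1
    rcases le_or_gt n (-((N + k : ℕ) : ℤ)) with h3 | h3
    · rw [y1 n h3]
      exact ⟨_, zpow_mem f hV.inv hpV _, by rw [dist_self]; exact he1⟩
    · rcases lt_or_ge n (-((N + k : ℕ) : ℤ) + k) with h4 | h4
      · obtain ⟨j, hj⟩ : ∃ j : ℕ, n = -((N + k : ℕ) : ℤ) + j :=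
          ⟨(n + ((N + k : ℕ) : ℤ)).toNat, by omega⟩
        rw [hj, y2 j (by omega)]
        exact ⟨g j, gV j (by omega) (by omega), by rw [dist_self]; exact he1⟩
      · rw [y3 n h4]
        exact hN2 n h1
  obtain ⟨z, hz⟩ := hIS y hnear (fun n _ => yj n)
  refine ⟨z, ?_, ?_, ?_⟩
  · have h1 := hz 0 le_rfl
    rw [zpow_zero_app, y3 0 (by push_cast; omega)] at h1
    simp only [zpow_zero_app] at h1
    exact h1.trans (min_le_left _ _)
  · refine hclose z (N + k) ((N + k : ℕ) : ℤ) (fun n hn => ?_)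
    have h1 := hz n (by omega)
    rw [y1 n hn] at h1
    exact h1.trans (min_le_right _ _)
  · intro j hj
    refine ⟨y j, ?_, (hz j (by omega)).trans (min_le_left _ _)⟩
    rcases le_or_gt j (-((N + k : ℕ) : ℤ)) with h3 | h3
    · rw [y1 j h3]
      exact hVC (zpow_mem f hV.inv hpV _)
    · rcases lt_or_ge j (-((N + k : ℕ) : ℤ) + k) with h4 | h4
      · obtain ⟨i, hi⟩ : ∃ i : ℕ, j = -((N + k : ℕ) : ℤ) + i :=
          ⟨(j + ((N + k : ℕ) : ℤ)).toNat, by omega⟩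
        rw [hi, y2 i (by omega)]
        exact hVC (gV i (by omega) (by omega))
      · rw [y3 j h4]
        exact hbC j hj

theorem connect_fwd (f : X ≃ₜ X) (V : Set X) (hV : GoodV f V) (p : X) (hpV : p ∈ V)
    (hp : p ∈ Function.periodicPts (f : X → X)) (a : X) (ha : Fwd f a V) (C : Set X) (hVC : V ⊆ C)
    (haC : ∀ n : ℤ, 1 ≤ n → (f ^ n) a ∈ C) (δ : ℝ) (hδ : 0 < δ) :
    ∃ z : X, dist z a ≤ δ ∧ Fwd f z (orb (f : X → X) p) ∧
      ∀ j : ℤ, 1 ≤ j → ∃ c ∈ C, dist ((f ^ j) z) c ≤ δ := by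
  obtain ⟨e1, he1, hIS⟩ := is_half' f V hV.is
  obtain ⟨δ0, hδ0, hclose⟩ := fwd_of_close f V hV.sp p hp (orb_sub f hV.inv hpV)
  obtain ⟨N2, hN2⟩ := fwd_near f ha he1
  obtain ⟨e, he, hIS⟩ := hIS N2 (min δ δ0) (lt_min hδ hδ0)
  obtain ⟨e', he', hpert⟩ := perturb f hV.chain he
  obtain ⟨N4, hN4⟩ := fwd_near f ha he'
  obtain ⟨N, hN⟩ : ∃ N : ℕ, N = max N2 N4 := ⟨_, rfl⟩
  obtain ⟨q, hq, hqa⟩ := hN4 (N : ℤ) (by omega)
  obtain ⟨k, g, hk, g0, gk, gV, gj⟩ := hpert _ p q p hq hpV hqa (by rw [dist_self]; exact he')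
  obtain ⟨y, y1, y2, y3, yj⟩ := splice f (fun n : ℤ => (f ^ n) a)
    (fun n : ℤ => (f ^ (n + -((N + k : ℕ) : ℤ))) p) (orb_zpow f a) (orb_sh f p _) (N : ℤ) k g he
    g0 (by
      rw [gk]
      change p = (f ^ ((N : ℤ) + k + -((N + k : ℕ) : ℤ))) p
      have h1 : (N : ℤ) + k + -((N + k : ℕ) : ℤ) = 0 := by push_cast; ring
      rw [h1, zpow_zero_app]) gj
  have hnear : ∀ n : ℤ, (N2 : ℤ) ≤ n → ∃ p ∈ V, dist (y n) p < e1 := by
    intro n h1
    rcases le_or_gt n N with h3 | h3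
    · rw [y1 n h3]
      exact hN2 n h1
    · rcases lt_or_ge n (N + k) with h4 | h4
      · obtain ⟨j, hj⟩ : ∃ j : ℕ, n = N + j := ⟨(n - N).toNat, by omega⟩
        rw [hj, y2 j (by omega)]
        exact ⟨g j, gV j (by omega) (by omega), by rw [dist_self]; exact he1⟩
      · rw [y3 n h4]
        exact ⟨_, zpow_mem f hV.inv hpV _, by rw [dist_self]; exact he1⟩
  obtain ⟨z, hz⟩ := hIS y hnear (fun n _ => yj n)
  refine ⟨z, ?_, ?_, ?_⟩
  · have h1 := hz 0 le_rfl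
    rw [zpow_zero_app, y1 0 (by positivity)] at h1
    simp only [zpow_zero_app] at h1
    exact h1.trans (min_le_left _ _)
  · refine hclose z (N + k) (-((N + k : ℕ) : ℤ)) (fun n hn => ?_)
    have h1 := hz n (by omega)
    rw [y3 n (by push_cast at hn ⊢; omega)] at h1
    exact h1.trans (min_le_right _ _)
  · intro j hj
    refine ⟨y j, ?_, (hz j (by omega)).trans (min_le_left _ _)⟩
    rcases le_or_gt j N with h3 | h3
    · rw [y1 j h3]
      exact haC j hj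
    · rcases lt_or_ge j (N + k) with h4 | h4
      · obtain ⟨i, hi⟩ : ∃ i : ℕ, j = N + i := ⟨(j - N).toNat, by omega⟩
        rw [hi, y2 i (by omega)]
        exact hVC (gV i (by omega) (by omega))
      · rw [y3 j h4]
        exact hVC (zpow_mem f hV.inv hpV _)

end Pool.Agent.Helper55.OS
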