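import Pool.Agent.Helper55.OS.ShadDefs

/-!
# OS-N4 Glue: the orbit of the perturbed map along the pieces

PROOF. Backward: for n ≤ -1, g ((f^n) b0) = f ((f^n) b0) = (f^(n+1)) b0; induction gives (g^n) b0 = (f^n) b0 for n ≤ 0. Forward: claim: for i < k there is N_i in ℕ with (g^(N_i)) (b 0) = b i. N_0 = 0. Step (i + 1 < k): (g^(N_i + 1)) (b 0) = g (b i) = f (a i) =
(f^1) (a i), and by induction (g^(N_i + j)) (b 0) = (f^j) (a i) for 1 ≤ j ≤ T i; (f^(T i)) (a i) = b (i+1): N_(i+1) = N_i + T i. Then from b (k-1): (g^(N_(k-1) + n)) (b 0) = (f^n) (a (k-1)) for all n ≥ 1 by hlast.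
-/

open Set Topology

namespace Pool.Agent.Helper55.OS

theorem zpow_succ_app {X : Type} [TopologicalSpace X] (f : X ≃ₜ X) (n : ℤ) (x : X) :
    (f ^ (n + 1)) x = f ((f ^ n) x) := by
  rw [add_comm, zpow_one_add]
  rfl

theorem glue_run {X : Type} [TopologicalSpace X] (f g : X ≃ₜ X) (x y : X) (N : ℤ) (T : ℤ)
    (h1 : g ((g ^ N) y) = f x)
    (h2 : ∀ j : ℤ, 1 ≤ j → j < T → g ((f ^ j) x) = f ((f ^ j) x)) :
    ∀ m : ℕ, (m : ℤ) + 1 ≤ T → (g ^ (N + ((m : ℤ) + 1))) y = (f ^ ((m : ℤ) + 1)) x := by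
  intro m
  induction m with
  | zero =>
    intro _
    have e1 : N + (((0 : ℕ) : ℤ) + 1) = N + 1 := by simp
    have e2 : (((0 : ℕ) : ℤ) + 1) = 0 + 1 := by simp
    rw [e1, e2, zpow_succ_app, zpow_succ_app, h1, zpow_zero]
    rfl
  | succ m ih =>
    intro hm
    push_cast at hm ⊢
    have e1 : N + ((m : ℤ) + 1 + 1) = (N + ((m : ℤ) + 1)) + 1 := by ring
    rw [e1, zpow_succ_app, zpow_succ_app f, ih (by linarith), h2 _ (by omega) (by linarith)]

theorem glue {X : Type} [TopologicalSpace X] (f g : X ≃ₜ X) (k : ℕ) (hk : 1 ≤ k) (a b : ℕ → X)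
    (T : ℕ → ℕ)
    (hback : ∀ n : ℤ, n ≤ -1 → g ((f ^ n) (b 0)) = f ((f ^ n) (b 0)))
    (hg : ∀ i, i < k → g (b i) = f (a i))
    (hmid : ∀ i, i + 1 < k → 1 ≤ T i ∧ (f ^ (T i : ℤ)) (a i) = b (i + 1) ∧
      ∀ j : ℤ, 1 ≤ j → j < T i → g ((f ^ j) (a i)) = f ((f ^ j) (a i)))
    (hlast : ∀ j : ℤ, 1 ≤ j → g ((f ^ j) (a (k - 1))) = f ((f ^ j) (a (k - 1)))) :
    (∀ n : ℤ, n ≤ 0 → (g ^ n) (b 0) = (f ^ n) (b 0)) ∧
      ∃ N : ℕ, ∀ n : ℤ, 1 ≤ n → (g ^ ((N : ℤ) + n)) (b 0) = (f ^ n) (a (k - 1)) := by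
  constructor
  · have key : ∀ m : ℕ, (g ^ (-(m : ℤ))) (b 0) = (f ^ (-(m : ℤ))) (b 0) := by
      intro m
      induction m with
      | zero => simp
      | succ m ih =>
        apply g.injective
        rw [hback _ (by push_cast; omega), ← zpow_succ_app, ← zpow_succ_app]
        have e : -((m + 1 : ℕ) : ℤ) + 1 = -(m : ℤ) := by push_cast; ring
        rw [e, ih]
    intro n hn
    obtain ⟨m, hm⟩ : ∃ m : ℕ, n = -(m : ℤ) := ⟨n.natAbs, by omega⟩
    rw [hm]
    exact key m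
  · have key : ∀ i : ℕ, i < k → ∃ N : ℕ, (g ^ (N : ℤ)) (b 0) = b i := by
      intro i
      induction i with
      | zero =>
        intro _
        exact ⟨0, by simp⟩
      | succ i ih =>
        intro hi
        obtain ⟨N, hN⟩ := ih (by omega)
        obtain ⟨hT, hb, hj⟩ := hmid i hi
        refine ⟨N + T i, ?_⟩
        have h := glue_run f g (a i) (b 0) N (T i) (by rw [hN]; exact hg i (by omega)) hj
          (T i - 1) (by omega)
        have e : (((T i - 1 : ℕ) : ℤ) + 1) = T i := by omega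
        rw [e, hb] at h
        rw [← h]
        push_cast
        rfl
    obtain ⟨N, hN⟩ := key (k - 1) (by omega)
    refine ⟨N, fun n hn => ?_⟩
    have h := glue_run f g (a (k - 1)) (b 0) N (n + 1)
      (by rw [hN]; exact hg _ (by omega)) (fun j hj _ => hlast j hj) (n.toNat - 1) (by omega)
    have e : (((n.toNat - 1 : ℕ) : ℤ) + 1) = n := by omega
    rwa [e] at h

end Pool.Agent.Helper55.OS
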