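import Pool.Agent.Helper55.OS.MinCycle
import Pool.Agent.Helper55.OS.Connect
import Pool.Agent.Helper55.OS.Glue
import Pool.Agent.Helper55.OS.BasePush

/-!
# OS-N5 CycleHom: a cycle can be perturbed to a homoclinic orbit of a periodic point

PROOF. F := f.toHomeomorph. `minCycle`: k, V, x, C. p in V_0 periodic ((hG (V 0)).per); x0 := x 0. Let 𝒰, r be given. Let r' > 0 with r' < r, the balls closedBall (x i) (2 r'), i < k, pairwise disjoint and disjoint from C (x i not in the closed set C, x i ≠ x j).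
U i := closedBall (x i) r' (i : Fin k): neighbourhoods, pairwise disjoint. W := union of the U i: closed, disjoint from orb f p (⊆ V_0 ⊆ C). `push_points` gives D i. Let δ > 0, δ ≤ r'/2, with dist y (x i) ≤ δ implying y in D i (all i).
Points y with dist y c ≤ δ for some c in C are in no U i (dist c (x i) > 2 r', so dist y (x i) > r').
PIECES: z⁻ from `connect_bwd` (V_0, p, b = x_0): b 0 := z⁻, near x_0. For i + 1 < k: `connect_mid` (V := V (i+1), a := x i, b := x (i+1)): T i, z; a i := z, b (i+1) := (F^(T i)) z. z⁺ from `connect_fwd` (V := V k = V 0, p, a = x (k-1)): a (k-1) := z⁺. All a i, b i (i < k) are within δ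
of x i, so in D i. `push_points`: g in 𝒰, g = f off W (a point in no U i), g (b i) = f (a i). The hypotheses of `glue` hold (points (F^n) (b 0), n ≤ -1, (F^j) (a i), 1 ≤ j < T i, (F^j) (a (k-1)), j ≥ 1 are within δ of C, so in no U i). (For `glue` extend a, b, T to ℕ arbitrarily.)
x' := b 0: dist x' (x 0) ≤ δ < r. Bwd g x' (orb f p): (g^n) x' = (F^n) (z⁻) for n ≤ 0 and Bwd F z⁻ (orb f p). Fwd g x' (orb f p): (g^(N+n)) x' = (F^n) (z⁺), n ≥ 1, and Fwd F z⁺ (orb f p). x' is in U 0, not in orb f p.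
-/

open Set Topology Manifold ContDiff

namespace Pool.Agent.Helper55.OS

theorem cycleHom {d : ℕ} {M : Type} [MetricSpace M] [ChartedSpace (E d) M]
    [IsManifold (𝓡 d) ∞ M] [CompactSpace M] (f : Dif d M) (VV : Set (Set M))
    (hG : ∀ V ∈ VV, GoodV f.toHomeomorph V)
    (hdis : ∀ V ∈ VV, ∀ V' ∈ VV, V ≠ V' → Disjoint V V')
    (hrec : ∀ x, Rec (f : M → M) x → x ∈ ⋃₀ VV) (h : Cycle f.toHomeomorph VV) :
    ∃ p x0 : M, p ∈ Function.periodicPts (f : M → M) ∧ p ∈ ⋃₀ VV ∧ x0 ∉ ⋃₀ VV ∧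
      ∀ 𝒰 : Set (Dif d M), IsOpen[smoothTop d M] 𝒰 → f ∈ 𝒰 → ∀ r : ℝ, 0 < r →
        ∃ g ∈ 𝒰, ∃ W : Set M, IsClosed W ∧ Disjoint W (orb (f : M → M) p) ∧
          (∀ y, y ∉ W → g y = f y) ∧ ∃ x : M, dist x x0 < r ∧ x ∉ orb (f : M → M) p ∧
            Fwd g.toHomeomorph x (orb (f : M → M) p) ∧
            Bwd g.toHomeomorph x (orb (f : M → M) p) := by
  classical
  obtain ⟨k, V, x, C, hk, hVV, hVk, hx, hCcl, hVC, hxC, hxn, hxx⟩ :=
    minCycle f.toHomeomorph VV (fun V hV => (hG V hV).comp) (fun V hV => (hG V hV).inv) hdis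
      hrec h
  obtain ⟨p, hpV, hp⟩ := (hG (V 0) (hVV 0)).per
  have hk0 : 0 < k := hk
  refine ⟨p, x 0, hp, ⟨V 0, hVV 0, hpV⟩, (hx 0 hk0).1, ?_⟩
  intro 𝒰 h𝒰 hf r hr
  -- the radius
  have hev : ∀ᶠ e : ℝ in 𝓝[>] 0, ∀ i : Fin k, ∀ c : M,
      (c ∈ C ∨ ∃ j : Fin k, j ≠ i ∧ c = x j) → 2 * e < dist c (x i) := by
    rw [Filter.eventually_all]
    intro i
    have hcl : IsClosed (C ∪ {c : M | ∃ j : Fin k, j ≠ i ∧ c = x j}) := by
      refine hCcl.union (Set.Finite.isClosed ?_)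
      refine (Set.finite_range (fun j : Fin k => x j)).subset ?_
      rintro c ⟨j, -, rfl⟩
      exact ⟨j, rfl⟩
    have hni : x i ∈ (C ∪ {c : M | ∃ j : Fin k, j ≠ i ∧ c = x j})ᶜ := by
      rintro (h1 | ⟨j, hj, h1⟩)
      · exact hxC i i.2 h1
      · exact hxx i j i.2 j.2 (fun h2 => hj (Fin.ext h2.symm)) h1
    obtain ⟨e0, he0, hball⟩ := Metric.isOpen_iff.1 hcl.isOpen_compl (x i) hni
    filter_upwards [Ioo_mem_nhdsGT (half_pos he0)] with e he c hc
    by_contra hcon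
    push Not at hcon
    exact hball (Metric.mem_ball.2 (lt_of_le_of_lt hcon (by linarith [he.2]))) hc
  obtain ⟨ρ, hρ, hρ0, hρr⟩ := (hev.and (Ioo_mem_nhdsGT hr)).exists
  -- the pushing
  obtain ⟨D, hD, hDU, hpush⟩ := push_points f 𝒰 h𝒰 hf k (fun i : Fin k => x i)
    (fun i : Fin k => Metric.closedBall (x i) ρ)
    (fun i => Metric.closedBall_mem_nhds _ hρ0)
    (fun i j hij => Metric.closedBall_disjoint_closedBall (by
      have h1 := hρ j (x i) (Or.inr ⟨i, hij, rfl⟩)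
      linarith))
  have hev2 : ∀ᶠ e : ℝ in 𝓝[>] 0, ∀ i : Fin k, ∀ y : M, dist y (x i) ≤ e → y ∈ D i := by
    rw [Filter.eventually_all]
    intro i
    obtain ⟨e0, he0, hball⟩ := Metric.mem_nhds_iff.1 (hD i)
    filter_upwards [Ioo_mem_nhdsGT he0] with e he y hy
    exact hball (Metric.mem_ball.2 (lt_of_le_of_lt hy he.2))
  obtain ⟨δ, hδD, hδ, hδρ⟩ := (hev2.and (Ioo_mem_nhdsGT hρ0)).exists
  -- the pieces
  have hmid : ∀ i : ℕ, ∃ (T : ℕ) (z : M), i + 1 < k → (1 ≤ T ∧ dist z (x i) ≤ δ ∧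
      dist ((f.toHomeomorph ^ (T : ℤ)) z) (x (i + 1)) ≤ δ ∧
      ∀ j : ℤ, 1 ≤ j → j < T → ∃ c ∈ C, dist ((f.toHomeomorph ^ j) z) c ≤ δ) := by
    intro i
    by_cases hi : i + 1 < k
    · obtain ⟨T, z, h1, h2, h3, h4⟩ := connect_mid f.toHomeomorph (V (i + 1))
        (hG _ (hVV (i + 1))) (x i) (x (i + 1)) (hx i (by omega)).2.2 (hx (i + 1) hi).2.1 C
        (hVC (i + 1) hi.le) (fun n hn => hxn i (by omega) n (by omega))
        (fun n hn => hxn (i + 1) hi n (by omega)) δ hδ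
      exact ⟨T, z, fun _ => ⟨h1, h2, h3, h4⟩⟩
    · exact ⟨0, x 0, fun h1 => absurd h1 hi⟩
  choose T zm hm using hmid
  obtain ⟨zb, hzb1, hzb2, hzb3⟩ := connect_bwd f.toHomeomorph (V 0) (hG _ (hVV 0)) p hpV hp
    (x 0) (hx 0 hk0).2.1 C (hVC 0 hk0.le) (fun n hn => hxn 0 hk0 n (by omega)) δ hδ
  have hkk : k - 1 + 1 = k := by omega
  have hFw : Fwd f.toHomeomorph (x (k - 1)) (V 0) := by
    have h1 := (hx (k - 1) (by omega)).2.2
    rw [hkk, hVk] at h1
    exact h1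
  obtain ⟨zf, hzf1, hzf2, hzf3⟩ := connect_fwd f.toHomeomorph (V 0) (hG _ (hVV 0)) p hpV hp
    (x (k - 1)) hFw C (hVC 0 hk0.le) (fun n hn => hxn (k - 1) (by omega) n (by omega)) δ hδ
  obtain ⟨a, ha⟩ : ∃ a : ℕ → M, a = fun i => if i + 1 < k then zm i else zf := ⟨_, rfl⟩
  obtain ⟨b, hb⟩ : ∃ b : ℕ → M, b = fun i => if i = 0 then zb else
    (f.toHomeomorph ^ (T (i - 1) : ℤ)) (zm (i - 1)) := ⟨_, rfl⟩
  have ha1 : ∀ i, i + 1 < k → a i = zm i := fun i hi => by rw [ha]; exact if_pos hi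
  have ha2 : a (k - 1) = zf := by rw [ha]; exact if_neg (by omega)
  have hb0 : b 0 = zb := by rw [hb]; exact if_pos rfl
  have hb1 : ∀ i, b (i + 1) = (f.toHomeomorph ^ (T i : ℤ)) (zm i) := by
    intro i
    rw [hb]
    exact if_neg (Nat.succ_ne_zero i)
  have hadist : ∀ i, i < k → dist (a i) (x i) ≤ δ := by
    intro i hi
    by_cases h1 : i + 1 < k
    · rw [ha1 i h1]
      exact (hm i h1).2.1
    · have h2 : i = k - 1 := by omega
      rw [h2, ha2]
      exact hzf1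
  have hbdist : ∀ i, i < k → dist (b i) (x i) ≤ δ := by
    intro i hi
    rcases Nat.eq_zero_or_pos i with h1 | h1
    · rw [h1, hb0]
      exact hzb1
    · obtain ⟨j, rfl⟩ : ∃ j, i = j + 1 := ⟨i - 1, by omega⟩
      rw [hb1]
      exact (hm j hi).2.2.1
  obtain ⟨g, hgU, hgoff, hgab⟩ := hpush (fun i : Fin k => a i) (fun i : Fin k => b i)
    (fun i => hδD i _ (hadist i i.2)) (fun i => hδD i _ (hbdist i i.2))
  have hoff : ∀ y : M, (∃ c ∈ C, dist y c ≤ δ) → ∀ i : Fin k, y ∉ Metric.closedBall (x i) ρ := by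
    rintro y ⟨c, hc, hyc⟩ i hyi
    have h1 := hρ i c (Or.inl hc)
    have h2 := dist_triangle c y (x i)
    rw [dist_comm c y] at h2
    have h3 := Metric.mem_closedBall.1 hyi
    linarith
  have hgC : ∀ y : M, (∃ c ∈ C, dist y c ≤ δ) → g y = f y := fun y hy => hgoff y (hoff y hy)
  obtain ⟨hglb, N, hglf⟩ := glue f.toHomeomorph g.toHomeomorph k hk a b T
    (fun n hn => by
      rw [hb0]
      exact hgC _ (hzb3 n hn))
    (fun i hi => hgab ⟨i, hi⟩)
    (fun i hi => by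
      refine ⟨(hm i hi).1, ?_, fun j hj1 hj2 => ?_⟩
      · rw [ha1 i hi, hb1]
      · rw [ha1 i hi]
        exact hgC _ ((hm i hi).2.2.2 j hj1 hj2))
    (fun j hj => by
      rw [ha2]
      exact hgC _ (hzf3 j hj))
  rw [hb0] at hglb hglf
  rw [ha2] at hglf
  have horbV : orb (f : M → M) p ⊆ C := by
    refine Set.Subset.trans ?_ (hVC 0 hk0.le)
    have hinv : (f : M → M) '' (V 0) = V 0 := (hG _ (hVV 0)).inv
    rintro y ⟨j, rfl⟩
    induction j with
    | zero => exact hpV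
    | succ j ih =>
      rw [Function.iterate_succ_apply', ← hinv]
      exact mem_image_of_mem _ ih
  refine ⟨g, hgU, ⋃ i : Fin k, Metric.closedBall (x i) ρ,
    isClosed_iUnion_of_finite fun i => Metric.isClosed_closedBall, ?_, ?_, zb,
    lt_of_le_of_lt hzb1 (hδρ.trans hρr), ?_, ?_, ?_⟩
  · rw [Set.disjoint_left]
    intro y hy hyo
    obtain ⟨i, hi⟩ := Set.mem_iUnion.1 hy
    exact hoff y ⟨y, horbV hyo, by rw [dist_self]; exact hδ.le⟩ i hi
  · intro y hy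
    exact hgoff y fun i hi => hy (Set.mem_iUnion.2 ⟨i, hi⟩)
  · intro hyo
    refine hoff zb ⟨zb, horbV hyo, by rw [dist_self]; exact hδ.le⟩ ⟨0, hk0⟩ ?_
    exact Metric.mem_closedBall.2 (hzb1.trans hδρ.le)
  · intro O hO hsub
    obtain ⟨N', hN'⟩ := hzf2 O hO hsub
    refine ⟨N + N' + 1, fun n hn => ?_⟩
    have h1 := hglf ((n : ℤ) - N) (by omega)
    have h2 : (N : ℤ) + ((n : ℤ) - N) = n := by ring
    have h3 : ((n : ℤ) - N) = ((n - N : ℕ) : ℤ) := by omega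
    rw [h2] at h1
    rw [h1, h3]
    exact hN' (n - N) (by omega)
  · intro O hO hsub
    obtain ⟨N', hN'⟩ := hzb2 O hO hsub
    refine ⟨N', fun n hn => ?_⟩
    rw [hglb (-(n : ℤ)) (by omega)]
    exact hN' n hn

end Pool.Agent.Helper55.OS
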