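import Mathlib

/-!
# OS/Defs: the notions of MP_28932f_an (C^infinity Omega-stability, Axiom A)

M is a compact smooth manifold without boundary of dimension d (charts in `EuclideanSpace R (Fin d)`).
`Dif d M` is the set of C^infinity diffeomorphisms of M, `smoothTop` the C^infinity topology (the weak = strong
Whitney topology, generated by the usual subbasic sets: in charts, on a compact set, the derivatives up to order r
are closer than eps).
-/

open Set Topology Manifold ContDiff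

namespace Pool.Agent.Helper55.OS

/-- The model space `R^d`. -/
abbrev E (d : ℕ) : Type := EuclideanSpace ℝ (Fin d)

/-- C^infinity diffeomorphisms of `M`. -/
abbrev Dif (d : ℕ) (M : Type) [TopologicalSpace M] [ChartedSpace (E d) M] : Type :=
  Diffeomorph (𝓡 d) (𝓡 d) M M ∞

section
variable {d : ℕ} {M : Type} [TopologicalSpace M] [ChartedSpace (E d) M]

/-- Subbasic neighbourhood of `f` for the C^infinity topology: chart at `c` in the source, chart at `c'` in the
target, `K` a compact subset of the chart at `c`, derivatives up to order `r`, precision `ε`. -/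
def subNhd (f : Dif d M) (c c' : M) (K : Set (E d)) (r : ℕ) (ε : ℝ) : Set (Dif d M) :=
  {g | (∀ z ∈ K, g ((extChartAt (𝓡 d) c).symm z) ∈ (extChartAt (𝓡 d) c').source) ∧
    ∀ z ∈ K, ∀ k ≤ r,
      ‖iteratedFDeriv ℝ k (fun w => extChartAt (𝓡 d) c' (g ((extChartAt (𝓡 d) c).symm w))) z -
        iteratedFDeriv ℝ k (fun w => extChartAt (𝓡 d) c' (f ((extChartAt (𝓡 d) c).symm w))) z‖ < ε}

variable (d M) in
/-- The C^infinity topology on the set of diffeomorphisms. -/
def smoothTop : TopologicalSpace (Dif d M) :=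
  TopologicalSpace.generateFrom {U | ∃ (f : Dif d M) (c c' : M) (K : Set (E d)) (r : ℕ) (ε : ℝ),
    IsCompact K ∧ K ⊆ (extChartAt (𝓡 d) c).target ∧
    (∀ z ∈ K, f ((extChartAt (𝓡 d) c).symm z) ∈ (extChartAt (𝓡 d) c').source) ∧ 0 < ε ∧
    U = subNhd f c c' K r ε}

/-- The nonwandering set of `f`. -/
def omega (f : M → M) : Set M :=
  {x | ∀ U ∈ 𝓝 x, ∃ n : ℕ, 1 ≤ n ∧ (f^[n] '' U ∩ U).Nonempty}

/-- `f` is Omega-stable in the C^infinity topology. -/
def OmegaStable (f : Dif d M) : Prop :=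
  ∃ U : Set (Dif d M), IsOpen[smoothTop d M] U ∧ f ∈ U ∧ ∀ g ∈ U,
    ∃ h : omega (f : M → M) ≃ₜ omega (g : M → M),
      ∀ x y : omega (f : M → M), (y : M) = f x → (h y : M) = g (h x)

/-- A smooth Riemannian metric on `M`. -/
abbrev Metric (d : ℕ) (M : Type) [TopologicalSpace M] [ChartedSpace (E d) M]
    [IsManifold (𝓡 d) ∞ M] : Type :=
  Bundle.ContMDiffRiemannianMetric (𝓡 d) ∞ (E d) (fun x : M => TangentSpace (𝓡 d) x)

/-- The norm of a tangent vector. -/
noncomputable def tnorm [IsManifold (𝓡 d) ∞ M] (ρ : Metric d M) (x : M)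
    (v : TangentSpace (𝓡 d) x) : ℝ :=
  Real.sqrt (ρ.inner x v v)

/-- The set `Λ` has a hyperbolic structure for `f`: over `Λ` the tangent bundle is the direct sum of two continuous
(= both closed) subbundles, invariant under `Df`, with the two estimates. -/
def HypOn [IsManifold (𝓡 d) ∞ M] (ρ : Metric d M) (f : Dif d M) (Λ : Set M) : Prop :=
  ∃ Es Eu : ∀ x : M, Submodule ℝ (TangentSpace (𝓡 d) x),
    (∀ x ∈ Λ, IsCompl (Es x) (Eu x)) ∧
    (∀ x ∈ Λ, ∀ v ∈ Es x, mfderiv (𝓡 d) (𝓡 d) f x v ∈ Es (f x)) ∧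
    (∀ x ∈ Λ, ∀ v ∈ Eu x, mfderiv (𝓡 d) (𝓡 d) f x v ∈ Eu (f x)) ∧
    IsClosed {v : TangentBundle (𝓡 d) M | v.1 ∈ Λ ∧ v.2 ∈ Es v.1} ∧
    IsClosed {v : TangentBundle (𝓡 d) M | v.1 ∈ Λ ∧ v.2 ∈ Eu v.1} ∧
    ∃ c r : ℝ, 0 < c ∧ 1 < r ∧ ∀ x ∈ Λ, ∀ n : ℕ, 1 ≤ n →
      (∀ v ∈ Eu x, c * r ^ n * tnorm ρ x v ≤
        tnorm ρ ((f : M → M)^[n] x) (mfderiv (𝓡 d) (𝓡 d) (f : M → M)^[n] x v)) ∧
      (∀ v ∈ Es x, c * r ^ n * tnorm ρ x v ≤
        tnorm ρ ((f.symm : M → M)^[n] x) (mfderiv (𝓡 d) (𝓡 d) (f.symm : M → M)^[n] x v))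

/-- Axiom A. -/
def AxiomA [IsManifold (𝓡 d) ∞ M] (ρ : Metric d M) (f : Dif d M) : Prop :=
  omega (f : M → M) ⊆ closure (Function.periodicPts (f : M → M)) ∧ HypOn ρ f (omega (f : M → M))

end

/-- `x` is a (positively) recurrent point of `f`. -/
def Rec {X : Type*} [TopologicalSpace X] (f : X → X) (x : X) : Prop :=
  ∀ U ∈ 𝓝 x, ∃ n : ℕ, 1 ≤ n ∧ f^[n] x ∈ U

/-- The closure of the set of recurrent points that are not periodic. -/
def NR {X : Type*} [TopologicalSpace X] (f : X → X) : Set X :=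
  closure {x | Rec f x ∧ x ∉ Function.periodicPts f}

end Pool.Agent.Helper55.OS
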