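import Pool.Agent.Helper55.OS.ShadDefs

/-!
# OS-C2 FS: two loops give an embedded shift

PROOF. For s : ℤ → Bool let y_s n := if s (n / l) then v n else u n (integer division, floor since l ≥ 1). y_s satisfies the two conditions of `Shad`: near Λ by nu, nv. Jumps:
if (n+1)/l = n/l use ju or jv. Otherwise n + 1 = m l with m = (n+1)/l, n / l = m - 1, and by periodicity u n = u (-1), v n = v (-1), u (n+1) = u 0, v (n+1) = v 0: the four cases are ju, jv
(at n), suv, svu. So there is exactly one g-orbit z^s with dist (z^s n) (y_s n) ≤ ρ for all n (existence from Shad, uniqueness since ρ ≤ ρ0). Z s := z^s 0, so z^s n = (g^n) (Z s) (`Orb.eq`): tracking.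
EQUIVARIANCE: y_(shift s) n = y_s (n + l) since (n + l)/l = n/l + 1 and u, v are l-periodic; n ↦ z^s (n + l) is a g-orbit within ρ of it, so it is z^(shift s); at n = 0: (g^l) (Z s) = Z (shift s).
CONTINUITY: ℤ → Bool is metrizable (first countable), so take s_k → s. X is compact: it is enough that every limit point w of a subsequence of Z (s_k) equals Z s. For fixed n, s_k (n / l) = s (n / l) for
large k, so dist ((g^n) (Z (s_k))) (y_s n) ≤ ρ for large k, and (g^n) is continuous: dist ((g^n) w) (y_s n) ≤ ρ for all n: by uniqueness w = Z s. (Or with ultrafilters / closed graph: the set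
{(s, w) : ∀ n, dist ((g^n) w) (y_s n) ≤ ρ} is closed and is the graph of Z; a map into a compact Hausdorff space with closed graph is continuous.)
INJECTIVITY: let s m ≠ s' m and Z s = Z s'. With i of `sep` (replace i by i mod l, 0 ≤ i < l, by periodicity) and n = m l + i: n / l = m, {y_s n, y_s' n} = {u i, v i}, both within ρ of (g^n) (Z s):
dist (u i) (v i) ≤ 2 ρ: contradiction.
-/

open Set Topology

namespace Pool.Agent.Helper55.OS

/-- the itinerary -/
private def yy {X : Type} (l : ℕ) (u v : ℤ → X) (s : ℤ → Bool) (n : ℤ) : X :=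
  if s (n / l) then v n else u n

private theorem yy_near {X : Type} [MetricSpace X] {f : X → X} {Λ : Set X} {ε ρ : ℝ} {l : ℕ}
    {u v : ℤ → X} (hL : Loops f Λ ε ρ l u v) (s : ℤ → Bool) (n : ℤ) :
    ∃ p ∈ Λ, dist (yy l u v s n) p < ε := by
  unfold yy
  split_ifs
  · exact hL.nv n
  · exact hL.nu n

private theorem per_mul {X : Type} {w : ℤ → X} {c : ℤ} (hw : Function.Periodic w c) (k x : ℤ) :
    w (x + k * c) = w x := by
  have := hw.int_mul k x
  rwa [Int.cast_id] at this

private theorem yy_jump {X : Type} [MetricSpace X] {f : X → X} {Λ : Set X} {ε ρ : ℝ} {l : ℕ}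
    {u v : ℤ → X} (hL : Loops f Λ ε ρ l u v) (s : ℤ → Bool) (n : ℤ) :
    dist (f (yy l u v s n)) (yy l u v s (n + 1)) < ε := by
  have hl : (0 : ℤ) < (l : ℤ) := by exact_mod_cast hL.pos
  have hu : Function.Periodic u (l : ℤ) := hL.pu
  have hv : Function.Periodic v (l : ℤ) := hL.pv
  have h1 := Int.emod_add_mul_ediv n l
  have h2 := Int.emod_nonneg n hl.ne'
  have h3 := Int.emod_lt_of_pos n hl
  by_cases h4 : n % l + 1 < l
  · have h5 : (n + 1) / l = n / l := by
      rw [Int.ediv_eq_iff_of_pos hl]
      constructor <;> nlinarith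
    unfold yy
    rw [h5]
    split_ifs
    · exact hL.jv n
    · exact hL.ju n
  · have h5 : n % l + 1 = l := by omega
    have h6 : n + 1 = (n / l + 1) * l := by linear_combination h5 - h1
    have h7 : n = -1 + (n / l + 1) * l := by linear_combination h5 - h1
    have u0 : u (n + 1) = u 0 := by
      rw [h6, ← zero_add ((n / (l : ℤ) + 1) * (l : ℤ))]
      exact per_mul hu _ _
    have v0 : v (n + 1) = v 0 := by
      rw [h6, ← zero_add ((n / (l : ℤ) + 1) * (l : ℤ))]
      exact per_mul hv _ _
    have u1 : u n = u (-1) := by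
      conv_lhs => rw [h7]
      exact per_mul hu _ _
    have v1 : v n = v (-1) := by
      conv_lhs => rw [h7]
      exact per_mul hv _ _
    have ju := hL.ju n
    have jv := hL.jv n
    have suv := hL.suv
    have svu := hL.svu
    rw [u0, u1] at ju
    rw [v0, v1] at jv
    unfold yy
    rw [u0, v0, u1, v1]
    split_ifs
    · exact jv
    · exact svu
    · exact suv
    · exact ju

theorem fs {X : Type} [MetricSpace X] [CompactSpace X] (f : X → X) (g : X ≃ₜ X) (Λ : Set X)
    (ε ρ ρ0 : ℝ) (h0 : ρ ≤ ρ0) (hS : Shad f (g : X → X) Λ ε ρ ρ0) (l : ℕ) (u v : ℤ → X)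
    (hL : Loops f Λ ε ρ l u v) :
    ∃ Z : (ℤ → Bool) → X, Continuous Z ∧ Function.Injective Z ∧
      (∀ s, (g ^ (l : ℤ)) (Z s) = Z (fun n => s (n + 1))) ∧
      ∀ (s : ℤ → Bool) (n : ℤ), dist ((g ^ n) (Z s)) (if s (n / l) then v n else u n) ≤ ρ := by
  have hl : (0 : ℤ) < (l : ℤ) := by exact_mod_cast hL.pos
  have hu : Function.Periodic u (l : ℤ) := hL.pu
  have hv : Function.Periodic v (l : ℤ) := hL.pv
  have hex : ∀ s, ∃ z, Orb (g : X → X) z ∧ ∀ n, dist (z n) (yy l u v s n) ≤ ρ := fun s =>
    (hS (yy l u v s) (yy_near hL s) (yy_jump hL s)).1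
  choose z hz hzρ using hex
  have htrack : ∀ s n, dist ((g ^ n) (z s 0)) (yy l u v s n) ≤ ρ := by
    intro s n
    rw [← Orb.eq (hz s)]
    exact hzρ s n
  have huniq : ∀ s w, (∀ n : ℤ, dist ((g ^ n) w) (yy l u v s n) ≤ ρ) → w = z s 0 := by
    intro s w hw
    have h1 := (hS (yy l u v s) (yy_near hL s) (yy_jump hL s)).2 (fun n => (g ^ n) w) (z s)
      (orb_zpow g w) (hz s) (fun n => (hw n).trans h0) (fun n => (hzρ s n).trans h0)
    have h2 := congrFun h1 0
    simpa using h2
  have hperiod : ∀ s n, yy l u v s (n + l) = yy l u v (fun n => s (n + 1)) n := by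
    intro s n
    have h1 : (n + l) / (l : ℤ) = n / l + 1 := by
      have := Int.add_mul_ediv_right n 1 hl.ne'
      rwa [one_mul] at this
    unfold yy
    rw [h1, hL.pu, hL.pv]
  refine ⟨fun s => z s 0, ?_, ?_, ?_, ?_⟩
  · have hcl : IsClosed {q : (ℤ → Bool) × X | ∀ n : ℤ, dist ((g ^ n) q.2) (yy l u v q.1 n) ≤ ρ} := by
      rw [Set.ofPred_forall]
      apply isClosed_iInter
      intro n
      have hy : Continuous fun q : (ℤ → Bool) × X => yy l u v q.1 n := by
        have h1 : Continuous fun b : Bool => if b then v n else u n := continuous_of_discreteTopology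
        exact h1.comp ((continuous_apply (n / (l : ℤ))).comp continuous_fst)
      have hg : Continuous fun q : (ℤ → Bool) × X => (g ^ n) q.2 :=
        (g ^ n).continuous.comp continuous_snd
      exact isClosed_le (hg.dist hy) continuous_const
    rw [continuous_iff_isClosed]
    intro C hC
    have h1 : (fun s => z s 0) ⁻¹' C = Prod.fst ''
        ({q : (ℤ → Bool) × X | ∀ n : ℤ, dist ((g ^ n) q.2) (yy l u v q.1 n) ≤ ρ} ∩
          Prod.snd ⁻¹' C) := by
      ext s
      constructor
      · intro hs
        exact ⟨(s, z s 0), ⟨htrack s, hs⟩, rfl⟩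
      · rintro ⟨⟨s', w⟩, ⟨h2, h3⟩, rfl⟩
        have h4 := huniq s' w h2
        show z s' 0 ∈ C
        rw [← h4]
        exact h3
    rw [h1]
    exact isClosedMap_fst_of_compactSpace _ (hcl.inter (hC.preimage continuous_snd))
  · intro s s' hss
    simp only at hss
    by_contra hne
    obtain ⟨m, hm⟩ := Function.ne_iff.mp hne
    obtain ⟨i, hi⟩ := hL.sep
    have h1 := Int.emod_add_mul_ediv i l
    have h2 := Int.emod_nonneg i hl.ne'
    have h3 := Int.emod_lt_of_pos i hl
    have hn : (i % l + m * l) / (l : ℤ) = m := by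
      rw [Int.add_mul_ediv_right _ _ hl.ne', Int.ediv_eq_zero_of_lt h2 h3, zero_add]
    have hw : ∀ w : ℤ → X, Function.Periodic w (l : ℤ) → w (i % l + m * l) = w i := by
      intro w hw
      rw [per_mul hw]
      conv_rhs => rw [← h1, mul_comm (l : ℤ)]
      exact (per_mul hw _ _).symm
    have t1 := htrack s (i % l + m * l)
    have t2 := htrack s' (i % l + m * l)
    rw [← hss] at t2
    unfold yy at t1 t2
    rw [hn, hw u hu, hw v hv] at t1 t2
    have key : dist (u i) (v i) ≤ 2 * ρ := by
      rcases hs : s m with _ | _ <;> rcases hs' : s' m with _ | _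
      · exact absurd (hs.trans hs'.symm) hm
      · rw [hs] at t1
        rw [hs'] at t2
        simp only [Bool.false_eq_true, if_false, if_true] at t1 t2
        have := dist_triangle_left (u i) (v i) ((g ^ (i % l + m * l)) (z s 0))
        linarith
      · rw [hs] at t1
        rw [hs'] at t2
        simp only [Bool.false_eq_true, if_false, if_true] at t1 t2
        have := dist_triangle_left (u i) (v i) ((g ^ (i % l + m * l)) (z s 0))
        linarith
      · exact absurd (hs.trans hs'.symm) hm
    linarith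
  · intro s
    simp only
    apply huniq
    intro n
    rw [← hperiod, ← zpow_add_app]
    exact htrack s (n + l)
  · intro s n
    exact htrack s n

end Pool.Agent.Helper55.OS
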