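import Mathlib

/-!
# OS-C1 Sym: a two-sided sequence whose forward shifts approximate every sequence

PROOF. The type ℕ × Finset ℤ is countable and nonempty; there is e : ℕ → ℕ × Finset ℤ such that every value is taken at arbitrarily large
indices (compose a surjection ℕ → ℕ × (ℕ × Finset ℤ) with the second projection; infinitely many preimages). Write e n = (N_n, A_n). Put
c_0 = 0, c_(n+1) = c_n + N_n + N_(n+1) + 1: the windows [c_n - N_n, c_n + N_n] are pairwise disjoint and c_n ≥ n. Let s0 i = true iff there is n with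
|i - c_n| ≤ N_n and i - c_n in A_n. For |i| ≤ N_n: s0 (i + c_n) = true iff i in A_n (disjointness). Given s, N, k: let A = {i : |i| ≤ N, s i = true}; take n ≥ k with
e n = (N, A); j = c_n ≥ n ≥ k.
`seq_not_per`: if s0 (i + m) = s0 i for all i, m ≥ 1: with s = constant true, N = m, some window of length 2m + 1 is all true, so s0 is constantly true
(every i is congruent mod m to an index in the window; use s0 (i + m) = s0 i in both directions). Same with false: contradiction.
-/

namespace Pool.Agent.Helper55.OS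

theorem exists_seq : ∃ s0 : ℤ → Bool, ∀ (s : ℤ → Bool) (N k : ℕ), ∃ j : ℕ, k ≤ j ∧
    ∀ i : ℤ, |i| ≤ N → s0 (i + j) = s i := by
  classical
  obtain ⟨f, hf⟩ := exists_surjective_nat (ℕ × (ℕ × Finset ℤ))
  have hinf : ∀ (v : ℕ × Finset ℤ) (k : ℕ), ∃ n, k ≤ n ∧ (f n).2 = v := by
    intro v k
    choose g hg using fun t : ℕ => hf (t, v)
    have hginj : Function.Injective g := by
      intro a b hab
      have h1 : f (g a) = f (g b) := by rw [hab]
      rw [hg, hg] at h1
      exact congrArg Prod.fst h1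
    have hI : (Set.range g).Infinite := Set.infinite_range_of_injective hginj
    obtain ⟨_, ⟨t, rfl⟩, ht⟩ := hI.exists_gt k
    exact ⟨g t, ht.le, by rw [hg]⟩
  let N : ℕ → ℕ := fun n => (f n).2.1
  let A : ℕ → Finset ℤ := fun n => (f n).2.2
  obtain ⟨c, hc⟩ : ∃ c : ℕ → ℕ, ∀ n, c (n + 1) = c n + N n + N (n + 1) + 1 :=
    ⟨fun n => Nat.rec 0 (fun n x => x + N n + N (n + 1) + 1) n, fun n => rfl⟩
  have hcn : ∀ n, n ≤ c n := by
    intro n
    induction n with
    | zero => exact Nat.zero_le _
    | succ n ih =>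
      rw [hc]
      omega
  have hdis : ∀ m n, m < n → c m + N m + N n < c n := by
    intro m n hmn
    induction n with
    | zero => omega
    | succ n ih =>
      rw [hc]
      rcases Nat.lt_or_ge m n with h1 | h1
      · have := ih h1
        omega
      · have : m = n := by omega
        subst this
        omega
  let P : ℤ → Prop := fun i => ∃ n : ℕ, |i - (c n : ℤ)| ≤ (N n : ℤ) ∧ i - (c n : ℤ) ∈ A n
  have hP : ∀ (n : ℕ) (i : ℤ), |i| ≤ (N n : ℤ) → (P (i + (c n : ℤ)) ↔ i ∈ A n) := by
    intro n i hi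
    constructor
    · rintro ⟨m, hm, hmA⟩
      have hmn : m = n := by
        rw [abs_le] at hi hm
        rcases lt_trichotomy m n with h1 | h1 | h1
        · have := hdis m n h1
          omega
        · exact h1
        · have := hdis n m h1
          omega
      subst hmn
      rwa [add_sub_cancel_right] at hmA
    · intro h
      refine ⟨n, ?_, ?_⟩
      · rwa [add_sub_cancel_right]
      · rwa [add_sub_cancel_right]
  refine ⟨fun i => decide (P i), fun s M k => ?_⟩
  obtain ⟨n, hkn, hn⟩ := hinf (M, (Finset.Icc (-(M : ℤ)) M).filter (fun i => s i = true)) k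
  refine ⟨c n, hkn.trans (hcn n), fun i hi => ?_⟩
  have hN : N n = M := congrArg Prod.fst hn
  have hA : A n = (Finset.Icc (-(M : ℤ)) M).filter (fun i => s i = true) := congrArg Prod.snd hn
  have h1 := hP n i (by rw [hN]; exact hi)
  rw [hA, Finset.mem_filter, Finset.mem_Icc] at h1
  rw [Bool.eq_iff_iff]
  show decide (P (i + (c n : ℤ))) = true ↔ s i = true
  rw [decide_eq_true_iff, h1]
  exact ⟨fun h => h.2, fun h => ⟨abs_le.1 hi, h⟩⟩

theorem seq_not_per (s0 : ℤ → Bool)
    (h : ∀ (s : ℤ → Bool) (N k : ℕ), ∃ j : ℕ, k ≤ j ∧ ∀ i : ℤ, |i| ≤ N → s0 (i + j) = s i)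
    (m : ℕ) (hm : 1 ≤ m) : ∃ i : ℤ, s0 (i + m) ≠ s0 i := by
  by_contra hcon
  push Not at hcon
  have hper : Function.Periodic s0 (m : ℤ) := hcon
  have hb : ∀ b : Bool, s0 0 = b := by
    intro b
    obtain ⟨j, -, hj⟩ := h (fun _ => b) m 0
    have hm0 : (0 : ℤ) < m := by exact_mod_cast hm
    have h1 := Int.emod_nonneg (0 - (j : ℤ)) hm0.ne'
    have h2 := Int.emod_lt_of_pos (0 - (j : ℤ)) hm0
    have h3 := hj ((0 - (j : ℤ)) % m) (by rw [abs_le]; constructor <;> omega)
    rw [← h3]
    have h4 := hper.int_mul ((0 - (j : ℤ)) / m) ((0 - (j : ℤ)) % m + j)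
    rw [← h4]
    congr 1
    have h5 := Int.emod_add_mul_ediv (0 - (j : ℤ)) m
    rw [Int.cast_id]
    linarith
  have h1 := hb true
  have h2 := hb false
  rw [h1] at h2
  exact Bool.noConfusion h2

end Pool.Agent.Helper55.OS
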