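import Pool.Agent.Helper55.OS.ShadDefs
import Pool.Agent.Helper55.OS.Sym

/-!
# OS-C3 FSNR: the embedded shift consists of points of NR

PROOF. Let s0 be the sequence of `exists_seq`, w := Z s0. By induction (g^(j l)) (Z s) = Z (fun n => s (n + j)) for j : ℕ. Continuity of Z (product topology): for every s and U in 𝓝 (Z s) there is N with Z s' in U
whenever s' i = s i for |i| ≤ N. By `exists_seq` there are arbitrarily large j with Z (s0 (· + j)) in U, i.e. (g^(j l)) w in U, i.e. g^[j l] w in U (`zpow_iter`); j l ≥ j: this is the last statement, for all s; with s = s0 it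
gives Rec g w (k = 1). w is not periodic: g^[m] w = w, m ≥ 1, gives (g^(m l)) w = w, so Z (s0 (· + m)) = Z s0 and s0 (i + m) = s0 i for all i by injectivity, against `seq_not_per`.
Z s in NR: given U in 𝓝 (Z s) there is j with (g^(j l)) w in U; this point is recurrent (g^n is continuous and commutes with g: if V is a nbhd of (g^n) w, then (g^n)⁻¹ V is a nbhd of w and contains g^[k] w with
k ≥ 1, so g^[k] ((g^n) w) is in V) and not periodic (g^[m] (g^n w) = g^n w implies g^[m] w = w). So Z s is in the closure.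
-/

open Set Topology

namespace Pool.Agent.Helper55.OS

private theorem fsnr_shift {X : Type} [MetricSpace X] (g : X ≃ₜ X) (l : ℕ)
    (Z : (ℤ → Bool) → X) (he : ∀ s, (g ^ (l : ℤ)) (Z s) = Z (fun n => s (n + 1))) (s : ℤ → Bool)
    (j : ℕ) : (g : X → X)^[j * l] (Z s) = Z (fun n => s (n + j)) := by
  induction j with
  | zero => simp
  | succ j ih =>
    have h1 : (j + 1) * l = l + j * l := by ring
    rw [h1, Function.iterate_add_apply, ih, ← zpow_iter, he]
    congr 1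
    funext n
    congr 1
    push_cast
    ring

private theorem fsnr_cont {X : Type} [MetricSpace X] (Z : (ℤ → Bool) → X) (hc : Continuous Z)
    (s : ℤ → Bool) (U : Set X) (hU : U ∈ 𝓝 (Z s)) :
    ∃ N : ℕ, ∀ s' : ℤ → Bool, (∀ i : ℤ, |i| ≤ N → s' i = s i) → Z s' ∈ U := by
  have h1 : Z ⁻¹' U ∈ 𝓝 s := hc.continuousAt.preimage_mem_nhds hU
  rw [nhds_pi, Filter.mem_pi] at h1
  obtain ⟨I, hI, t, ht, hIt⟩ := h1
  obtain ⟨N, hN⟩ := (hI.image Int.natAbs).bddAbove
  refine ⟨N, fun s' hs' => hIt fun i hi => ?_⟩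
  have h2 : i.natAbs ≤ N := hN ⟨i, hi, rfl⟩
  have h3 : |i| ≤ N := by
    rw [Int.abs_eq_natAbs]
    exact_mod_cast h2
  rw [hs' i h3]
  exact mem_of_mem_nhds (ht i)

theorem fs_nr {X : Type} [MetricSpace X] (g : X ≃ₜ X) (l : ℕ) (hl : 1 ≤ l)
    (Z : (ℤ → Bool) → X) (hc : Continuous Z) (hi : Function.Injective Z)
    (he : ∀ s, (g ^ (l : ℤ)) (Z s) = Z (fun n => s (n + 1))) :
    (∀ s, Z s ∈ NR (g : X → X)) ∧ ∃ w, Rec (g : X → X) w ∧ w ∉ Function.periodicPts (g : X → X) ∧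
      ∀ s, ∀ U ∈ 𝓝 (Z s), ∀ k : ℕ, ∃ n : ℕ, k ≤ n ∧ (g : X → X)^[n] w ∈ U := by
  obtain ⟨s0, hs0⟩ := exists_seq
  have hcl : ∀ s, ∀ U ∈ 𝓝 (Z s), ∀ k : ℕ, ∃ n : ℕ, k ≤ n ∧ (g : X → X)^[n] (Z s0) ∈ U := by
    intro s U hU k
    obtain ⟨N, hN⟩ := fsnr_cont Z hc s U hU
    obtain ⟨j, hj, hj2⟩ := hs0 s N k
    refine ⟨j * l, hj.trans (Nat.le_mul_of_pos_right j hl), ?_⟩
    rw [fsnr_shift g l Z he]
    exact hN _ hj2
  have hrec : Rec (g : X → X) (Z s0) := fun U hU => hcl s0 U hU 1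
  have hper : Z s0 ∉ Function.periodicPts (g : X → X) := by
    rintro ⟨m, hm, hp⟩
    have h1 : (g : X → X)^[m * l] (Z s0) = Z s0 := hp.mul_const l
    rw [fsnr_shift g l Z he] at h1
    have h2 := hi h1
    obtain ⟨i, hi'⟩ := seq_not_per s0 hs0 m hm
    exact hi' (congrFun h2 i)
  refine ⟨fun s => ?_, Z s0, hrec, hper, hcl⟩
  rw [NR, mem_closure_iff_nhds]
  intro U hU
  obtain ⟨n, -, hn⟩ := hcl s U hU 0
  have hcomm : ∀ a b : ℕ, ∀ x, (g : X → X)^[a] ((g : X → X)^[b] x) =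
      (g : X → X)^[b] ((g : X → X)^[a] x) := by
    intro a b x
    rw [← Function.iterate_add_apply, ← Function.iterate_add_apply, add_comm]
  refine ⟨(g : X → X)^[n] (Z s0), hn, ?_, ?_⟩
  · intro V hV
    have h1 : (g : X → X)^[n] ⁻¹' V ∈ 𝓝 (Z s0) :=
      (g.continuous.iterate n).continuousAt.preimage_mem_nhds hV
    obtain ⟨k, hk, hk2⟩ := hrec _ h1
    refine ⟨k, hk, ?_⟩
    rw [hcomm]
    exact hk2
  · rintro ⟨m, hm, hp⟩
    refine hper ⟨m, hm, ?_⟩
    have h1 : (g : X → X)^[m] ((g : X → X)^[n] (Z s0)) = (g : X → X)^[n] (Z s0) := hp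
    rw [hcomm] at h1
    exact g.injective.iterate n h1

end Pool.Agent.Helper55.OS
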