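import Pool.Agent.Helper55.OS.ZeroChain

/-!
# OS-Z06 ZeroIso: nondegenerate fixed points are isolated

TASK. PROOFS. `isolated_of_not_bad`: let `φ = extChartAt z`, `G = inCh z (g^[n])`, smooth near `φ z` (`contDiffAt_inCh`), with
`fderiv ℝ G (φ z) = dn g n z` (`fderiv_inCh_self`). `F w = w - G w` has a strict derivative `1 - dn g n z` at `φ z`, injective
because `z` is not bad, so an equivalence (finite dimension: `LinearEquiv.ofInjectiveEndo`, `ContinuousLinearEquiv`), and `F` is
injective near `φ z` (`HasStrictFDerivAt.toOpenPartialHomeomorph` or `HasStrictFDerivAt.approximates_deriv_on_nhds`,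
`HasStrictFDerivAt.injOn` style). For `z'` near `z` with `g^[n] z' = z'`: `F (φ z') = 0 = F (φ z)`, so `φ z' = φ z`, `z' = z`.
`eventually_not_bad`: if `g^[n] z ≠ z` then `g^[n] z' ≠ z'` for `z'` near `z` (continuity, Hausdorff); otherwise the
fixed points near `z` are only `z` itself, which is not bad.
`finite_of_good`: the set of fixed points of `g^[n]` is closed in the compact space, so compact, and every point of it is
isolated in it: a compact discrete set is finite (`IsCompact.finite`, `isDiscrete_iff` or a cover by the neighbourhoods of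
`isolated_of_not_bad` via `IsCompact.elim_nhds_subcover`).
-/

open Set Topology Manifold ContDiff Filter

namespace Pool.Agent.Helper55.OS

variable {d : ℕ} {M : Type} [TopologicalSpace M] [ChartedSpace (E d) M] [IsManifold (𝓡 d) ∞ M]
  [T2Space M]

theorem isolated_of_not_bad (g : Dif d M) (n : ℕ) (z : M) (hz : (g : M → M)^[n] z = z)
    (h : ¬ Bad g n z) : ∀ᶠ z' in 𝓝 z, (g : M → M)^[n] z' = z' → z' = z := by
  obtain ⟨w₀, hw₀⟩ : ∃ w₀ : E d, w₀ = extChartAt (𝓡 d) z z := ⟨_, rfl⟩
  obtain ⟨G, hG⟩ : ∃ G : E d → E d, G = inCh (d := d) z ((g : M → M)^[n]) := ⟨_, rfl⟩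
  have hsymm : (extChartAt (𝓡 d) z).symm w₀ = z := by
    rw [hw₀]
    exact extChartAt_to_inv z
  have hGd : ContDiffAt ℝ ∞ G w₀ := by
    rw [hG]
    refine contDiffAt_inCh _ (contMDiff_iter g n) z w₀ (by rw [hw₀]; exact mem_extChartAt_target z) ?_
    rw [hsymm, hz]
    exact mem_extChartAt_source z
  have hfd : fderiv ℝ G w₀ = dn (d := d) (g : M → M) n z := by
    rw [hG, hw₀]
    exact fderiv_inCh_self _ (contMDiff_iter g n) z hz
  have hGf : HasFDerivAt G (dn (d := d) (g : M → M) n z) w₀ := by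
    rw [← hfd]
    exact (hGd.differentiableAt (by simp)).hasFDerivAt
  have hF : HasFDerivAt (fun w => w - G w)
      (ContinuousLinearMap.id ℝ (E d) - dn (d := d) (g : M → M) n z) w₀ :=
    (hasFDerivAt_id w₀).sub hGf
  have hinj : Function.Injective
      (ContinuousLinearMap.id ℝ (E d) - dn (d := d) (g : M → M) n z).toLinearMap := by
    rw [← LinearMap.ker_eq_bot, LinearMap.ker_eq_bot']
    intro v hv
    by_contra hv0
    refine h ⟨hz, v, hv0, ?_⟩
    have h1 : v - dn (d := d) (g : M → M) n z v = 0 := hv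
    exact (sub_eq_zero.1 h1).symm
  obtain ⟨K, _, hK⟩ := (LinearMap.injective_iff_antilipschitz _).1 hinj
  have hev : ∀ᶠ w in 𝓝[≠] w₀, (fun w => w - G w) w ≠ 0 := hF.eventually_ne ⟨K, hK⟩
  rw [eventually_nhdsWithin_iff] at hev
  have hcont : Tendsto (extChartAt (𝓡 d) z) (𝓝 z) (𝓝 w₀) := by
    rw [hw₀]
    exact continuousAt_extChartAt z
  filter_upwards [hcont.eventually hev, extChartAt_source_mem_nhds (I := 𝓡 d) z]
    with z' h1 h2 h3
  by_contra hne
  have hne' : extChartAt (𝓡 d) z z' ≠ w₀ := by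
    intro h4
    rw [hw₀] at h4
    exact hne ((extChartAt (𝓡 d) z).injOn h2 (mem_extChartAt_source z) h4)
  refine h1 hne' ?_
  change extChartAt (𝓡 d) z z' - G (extChartAt (𝓡 d) z z') = 0
  rw [hG]
  unfold inCh
  rw [(extChartAt (𝓡 d) z).left_inv h2, h3, sub_self]

theorem eventually_not_bad (g : Dif d M) (n : ℕ) (z : M) (h : ¬ Bad g n z) :
    ∀ᶠ z' in 𝓝 z, ¬ Bad g n z' := by
  by_cases hz : (g : M → M)^[n] z = z
  · filter_upwards [isolated_of_not_bad g n z hz h] with z' h1 h2
    rw [h1 h2.1] at h2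
    exact h h2
  · have hopen : IsOpen {z' : M | (g : M → M)^[n] z' ≠ z'} :=
      isOpen_ne_fun (contMDiff_iter g n).continuous continuous_id
    filter_upwards [hopen.mem_nhds hz] with z' h1 h2
    exact h1 h2.1

theorem finite_of_good [CompactSpace M] (g : Dif d M) (n : ℕ) (h : ∀ z, ¬ Bad g n z) :
    {x : M | (g : M → M)^[n] x = x}.Finite := by
  by_contra hinf
  obtain ⟨x, hx⟩ := Set.Infinite.exists_accPt_principal hinf
  rw [accPt_iff_frequently] at hx
  have hclosed : IsClosed {x : M | (g : M → M)^[n] x = x} :=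
    isClosed_eq (contMDiff_iter g n).continuous continuous_id
  have hxS : (g : M → M)^[n] x = x := by
    by_contra hne
    have h1 : ∀ᶠ y in 𝓝 x, (g : M → M)^[n] y ≠ y := hclosed.isOpen_compl.mem_nhds hne
    obtain ⟨y, hy, hy2⟩ := (hx.and_eventually h1).exists
    exact hy2 hy.2
  obtain ⟨y, hy, hy2⟩ := (hx.and_eventually (isolated_of_not_bad g n x hxS (h x))).exists
  exact hy.1 (hy2 hy.2)

end Pool.Agent.Helper55.OS
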