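import Pool.Agent.Helper55.OS.BaseDefs

/-!
# OS-Z03 ZeroBall: small chart balls, and bumps in a ball that does not return before time m

TASK. PROOFS. `isOpen_chBall`: `extChartAt` is continuous on its open source (`ContinuousOn.isOpen_inter_preimage`).
`mem_chBall_self`. `isCompact_chCl`: image of a compact set by the inverse chart, continuous on the target.
`chBall_subset_chCl`: `y = φ.symm (φ y)`. `chCl_subset_chBall`: `φ (φ.symm w) = w` for `w` in the target.
`exists_ball`: the finitely many points `g^[i] z`, `1 ≤ i < n`, are different from `z`: by the Hausdorff property there are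
open neighbourhoods `V_i` of `z` and `V_i'` of `g^[i] z` that are disjoint; the open set
`V = interior U ∩ ⋂ (V_i ∩ (g^[i])⁻¹ (V_i'))` contains `z` and `g^[i] (V)` is disjoint from `V`; take `R` so small that the closed ball
`B` of radius `R` around `φ_z z` is in the target and `φ.symm` maps it into `V`: the set `φ.symm ⁻¹' V ∩ target` is a neighbourhood
of `φ z` (`continuousAt_extChartAt_symm`, `extChartAt_target_mem_nhds`), so it contains a closed ball.
`iter_bump`: induction on `i` (`1 ≤ i ≤ m`): `(Φ.trans g)^[i] y = g^[i] (Φ y)`, since `g^[i] (Φ y)`, `1 ≤ i < m`, is not in `W`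
(`Φ y ∈ W`), so it is fixed by `Φ`.
-/

open Set Topology Manifold ContDiff Filter

namespace Pool.Agent.Helper55.OS

variable {d : ℕ} {M : Type} [TopologicalSpace M] [ChartedSpace (E d) M] [IsManifold (𝓡 d) ∞ M]

theorem isOpen_chBall (c : M) (z0 : E d) (R : ℝ) : IsOpen (chBall c z0 R) := by
  exact (continuousOn_extChartAt (I := 𝓡 d) c).isOpen_inter_preimage
    (isOpen_extChartAt_source c) Metric.isOpen_ball

theorem mem_chBall_self (z : M) (R : ℝ) (hR : 0 < R) :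
    z ∈ chBall (d := d) z (extChartAt (𝓡 d) z z) R := by
  exact ⟨mem_extChartAt_source z, Metric.mem_ball_self hR⟩

theorem isCompact_chCl (c : M) (z0 : E d) (R : ℝ)
    (hc : Metric.closedBall z0 R ⊆ (extChartAt (𝓡 d) c).target) : IsCompact (chCl c z0 R) := by
  exact (isCompact_closedBall z0 R).image_of_continuousOn
    ((continuousOn_extChartAt_symm (I := 𝓡 d) c).mono hc)

theorem chBall_subset_chCl (c : M) (z0 : E d) (R : ℝ) : chBall c z0 R ⊆ chCl c z0 R := by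
  rintro y ⟨hy1, hy2⟩
  exact ⟨extChartAt (𝓡 d) c y, Metric.ball_subset_closedBall hy2,
    (extChartAt (𝓡 d) c).left_inv hy1⟩

theorem chCl_subset_chBall (c : M) (z0 : E d) (R R' : ℝ) (h : R < R')
    (hc : Metric.closedBall z0 R ⊆ (extChartAt (𝓡 d) c).target) :
    chCl c z0 R ⊆ chBall c z0 R' := by
  rintro y ⟨w, hw, rfl⟩
  refine ⟨(extChartAt (𝓡 d) c).map_target (hc hw), ?_⟩
  rw [(extChartAt (𝓡 d) c).right_inv (hc hw)]
  exact lt_of_le_of_lt hw h

theorem exists_nhd_aux [T2Space M] (g : M → M) (hg : Continuous g) (n : ℕ) (z : M)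
    (hz : ∀ i, 1 ≤ i → i < n → g^[i] z ≠ z) (U : Set M) (hU : U ∈ 𝓝 z) :
    ∃ V ∈ 𝓝 z, V ⊆ U ∧ ∀ i, 1 ≤ i → i < n → ∀ y ∈ V, g^[i] y ∉ V := by
  induction n with
  | zero => exact ⟨U, hU, subset_rfl, fun i _ hi => absurd hi (Nat.not_lt_zero i)⟩
  | succ n ih =>
    obtain ⟨V, hV, hVU, h1⟩ := ih (fun i h1 h2 => hz i h1 (h2.trans (Nat.lt_succ_self n)))
    rcases Nat.eq_zero_or_pos n with hn | hn
    · refine ⟨V, hV, hVU, fun i h2 h3 => ?_⟩
      omega
    · obtain ⟨A, B, hA, hB, hAB⟩ := t2_separation_nhds (hz n hn (Nat.lt_succ_self n))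
      have hpre : g^[n] ⁻¹' A ∈ 𝓝 z := (hg.iterate n).continuousAt hA
      refine ⟨V ∩ (B ∩ g^[n] ⁻¹' A), inter_mem hV (inter_mem hB hpre),
        inter_subset_left.trans hVU, fun i h2 h3 y hy hy' => ?_⟩
      rcases Nat.lt_succ_iff_lt_or_eq.1 h3 with h4 | h4
      · exact h1 i h2 h4 y hy.1 hy'.1
      · subst h4
        exact Set.disjoint_left.1 hAB hy.2.2 hy'.2.1

theorem exists_ball [T2Space M] (g : M → M) (hg : Continuous g) (n : ℕ) (z : M)
    (hz : ∀ i, 1 ≤ i → i < n → g^[i] z ≠ z) (U : Set M) (hU : U ∈ 𝓝 z) :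
    ∃ R : ℝ, 0 < R ∧
      Metric.closedBall (extChartAt (𝓡 d) z z) R ⊆ (extChartAt (𝓡 d) z).target ∧
      chCl (d := d) z (extChartAt (𝓡 d) z z) R ⊆ U ∧
      ∀ i, 1 ≤ i → i < n → ∀ y ∈ chCl (d := d) z (extChartAt (𝓡 d) z z) R,
        g^[i] y ∉ chCl (d := d) z (extChartAt (𝓡 d) z z) R := by
  obtain ⟨V, hV, hVU, h1⟩ := exists_nhd_aux g hg n z hz U hU
  have h2 : (extChartAt (𝓡 d) z).symm ⁻¹' V ∈ 𝓝 (extChartAt (𝓡 d) z z) := by
    have h3 : ContinuousAt (extChartAt (𝓡 d) z).symm (extChartAt (𝓡 d) z z) :=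
      continuousAt_extChartAt_symm z
    apply h3
    rw [extChartAt_to_inv]
    exact hV
  have h3 : (extChartAt (𝓡 d) z).target ∈ 𝓝 (extChartAt (𝓡 d) z z) :=
    extChartAt_target_mem_nhds z
  obtain ⟨R, hR, h4⟩ := Metric.nhds_basis_closedBall.mem_iff.1 (inter_mem h2 h3)
  have h5 : chCl (d := d) z (extChartAt (𝓡 d) z z) R ⊆ V := by
    rintro y ⟨w, hw, rfl⟩
    exact (h4 hw).1
  exact ⟨R, hR, fun w hw => (h4 hw).2, h5.trans hVU, fun i hi1 hi2 y hy hy' =>
    h1 i hi1 hi2 y (h5 hy) (h5 hy')⟩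

theorem iter_bump (g Φ : Dif d M) (W : Set M) (m : ℕ) (hm : 1 ≤ m)
    (h1 : ∀ y, y ∉ W → Φ y = y) (h2 : ∀ y ∈ W, Φ y ∈ W)
    (h3 : ∀ i, 1 ≤ i → i < m → ∀ y ∈ W, (g : M → M)^[i] y ∉ W) (y : M) (hy : y ∈ W) :
    ((Φ.trans g : Dif d M) : M → M)^[m] y = (g : M → M)^[m] (Φ y) := by
  have key : ∀ i, i + 1 ≤ m → ((Φ.trans g : Dif d M) : M → M)^[i + 1] y =
      (g : M → M)^[i + 1] (Φ y) := by
    intro i
    induction i with
    | zero => intro _; rfl
    | succ i ih =>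
      intro hi
      rw [Function.iterate_succ_apply', ih (by omega)]
      show g (Φ ((g : M → M)^[i + 1] (Φ y))) = (g : M → M)^[i + 1 + 1] (Φ y)
      rw [h1 _ (h3 (i + 1) (by omega) (by omega) (Φ y) (h2 y hy)),
        Function.iterate_succ_apply' (g : M → M) (i + 1)]
  obtain ⟨k, rfl⟩ : ∃ k, m = k + 1 := ⟨m - 1, by omega⟩
  exact key k le_rfl

end Pool.Agent.Helper55.OS
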