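import Pool.Agent.Helper55.OS.BaseDefs

/-!
# OS-Z02 ZeroChain: the chain rule for `df` and `dn`, and derivatives in charts

TASK. PROOFS. `df g z = mfderiv g z` and `dn g n z = mfderiv g^[n] z` by definition (the tangent spaces are all `E d` by
definition). `contMDiff_iter`: induction, `ContMDiff.comp`. `dn_zero`: `mfderiv_id`. `dn_one`: `rfl` up to `iterate_one`.
`dn_add`: `Function.iterate_add`, `mfderiv_comp`. `dn_bijective`: a diffeomorphism has bijective derivative (e.g.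
`Diffeomorph.mfderivToContinuousLinearEquiv`), induction with `dn_add`. `dn_mul`: induction on `k` with `dn_add`
(`g^[m * k] z = z`: `Function.IsFixedPt.iterate` etc.), `pow_succ'`. `df_congr`: `Filter.EventuallyEq.mfderiv_eq` (the values
agree at `z`).
`fderiv_inCh_self`: unfold `mfderiv`: for `g z = z` the map `writtenInExtChartAt` is `inCh z g`, `range (𝓡 d) = univ`.
`contDiffAt_inCh`: composition of smooth maps near `w` (`contMDiffOn_extChartAt`, `contMDiffOn_extChartAt_symm`,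
`contMDiffAt_iff_contDiffAt`).
`chart_conj`: with `P = mfderiv (extChartAt (𝓡 d) c) z` (invertible: `isInvertible_mfderiv_extChartAt` or
`mfderiv_extChartAt_comp_mfderivWithin_extChartAt_symm`): near `z`, `φ_c ∘ g = inCh c g ∘ φ_c`, so by the chain rule at `z`
(`g z = z`): `P ∘ df g z = fderiv (inCh c g) (φ_c z) ∘ P`.
`fixVec_chart`: from `chart_conj`.
-/

open Set Topology Manifold ContDiff Filter

namespace Pool.Agent.Helper55.OS

variable {d : ℕ} {M : Type} [TopologicalSpace M] [ChartedSpace (E d) M] [IsManifold (𝓡 d) ∞ M]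

theorem contMDiff_iter (g : Dif d M) (n : ℕ) :
    ContMDiff (𝓡 d) (𝓡 d) ∞ ((g : M → M)^[n]) := by
  induction n with
  | zero => exact contMDiff_id
  | succ n ih =>
    rw [Function.iterate_succ]
    exact ih.comp g.contMDiff

theorem dn_zero (g : M → M) (z : M) : dn (d := d) g 0 z = ContinuousLinearMap.id ℝ (E d) :=
  mfderiv_id

theorem dn_one (g : M → M) (z : M) : dn (d := d) g 1 z = df (d := d) g z := by
  unfold dn
  rw [Function.iterate_one]

theorem dn_add (g : Dif d M) (a b : ℕ) (z : M) :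
    dn (d := d) (g : M → M) (a + b) z =
      (dn (d := d) (g : M → M) a ((g : M → M)^[b] z)).comp (dn (d := d) (g : M → M) b z) := by
  unfold dn df
  rw [Function.iterate_add]
  exact mfderiv_comp z ((contMDiff_iter g a).mdifferentiable (by simp) _)
    ((contMDiff_iter g b).mdifferentiable (by simp) _)

theorem dn_bijective (g : Dif d M) (n : ℕ) (z : M) :
    Function.Bijective (dn (d := d) (g : M → M) n z) := by
  induction n generalizing z with
  | zero =>
    rw [dn_zero]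
    exact Function.bijective_id
  | succ n ih =>
    rw [dn_add]
    refine (ih _).comp ?_
    rw [dn_one]
    exact (g.mfderivToContinuousLinearEquiv (by simp) z).bijective

theorem dn_mul (g : Dif d M) (m k : ℕ) (z : M) (h : (g : M → M)^[m] z = z) :
    dn (d := d) (g : M → M) (m * k) z = (dn (d := d) (g : M → M) m z) ^ k := by
  induction k with
  | zero =>
    rw [Nat.mul_zero, dn_zero, pow_zero]
    rfl
  | succ k ih =>
    rw [Nat.mul_succ, dn_add, h, ih, pow_succ]
    rfl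

theorem df_congr (g g' : M → M) (z : M) (h : g' =ᶠ[𝓝 z] g) :
    df (d := d) g' z = df (d := d) g z :=
  h.mfderiv_eq

theorem fderiv_inCh_self (g : M → M) (hg : ContMDiff (𝓡 d) (𝓡 d) ∞ g) (z : M) (h : g z = z) :
    fderiv ℝ (inCh (d := d) z g) (extChartAt (𝓡 d) z z) = df (d := d) g z := by
  have hd : MDifferentiableAt (𝓡 d) (𝓡 d) g z := hg.mdifferentiable (by simp) z
  have h1 : writtenInExtChartAt (𝓡 d) (𝓡 d) z g = inCh (d := d) z g := by
    unfold writtenInExtChartAt inCh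
    rw [h]
    rfl
  have h2 := hd.mfderiv
  rw [h1, ModelWithCorners.range_eq_univ, fderivWithin_univ] at h2
  exact h2.symm

theorem contDiffAt_inCh (g : M → M) (hg : ContMDiff (𝓡 d) (𝓡 d) ∞ g) (c : M) (w : E d)
    (hw : w ∈ (extChartAt (𝓡 d) c).target)
    (h : g ((extChartAt (𝓡 d) c).symm w) ∈ (extChartAt (𝓡 d) c).source) :
    ContDiffAt ℝ ∞ (inCh (d := d) c g) w := by
  rw [← contMDiffAt_iff_contDiffAt]
  have h1 : ContMDiffAt 𝓘(ℝ, E d) (𝓡 d) ∞ (extChartAt (𝓡 d) c).symm w :=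
    (contMDiffOn_extChartAt_symm (I := 𝓡 d) (n := ∞) c).contMDiffAt
      ((isOpen_extChartAt_target c).mem_nhds hw)
  rw [extChartAt_source] at h
  have h2 : ContMDiffAt (𝓡 d) 𝓘(ℝ, E d) ∞ (extChartAt (𝓡 d) c)
      (g ((extChartAt (𝓡 d) c).symm w)) := contMDiffAt_extChartAt' h
  exact h2.comp w ((hg _).comp w h1)

theorem chart_conj (g : M → M) (hg : ContMDiff (𝓡 d) (𝓡 d) ∞ g) (c z : M)
    (hz : z ∈ (extChartAt (𝓡 d) c).source) (h : g z = z) :
    ∃ P : E d ≃L[ℝ] E d,
      fderiv ℝ (inCh (d := d) c g) (extChartAt (𝓡 d) c z) =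
        ((P : E d →L[ℝ] E d).comp (df (d := d) g z)).comp (P.symm : E d →L[ℝ] E d) := by
  obtain ⟨P, hP⟩ := isInvertible_mfderiv_extChartAt (I := 𝓡 d) hz
  have hzs : z ∈ (chartAt (E d) c).source := by rwa [extChartAt_source] at hz
  have hw : extChartAt (𝓡 d) c z ∈ (extChartAt (𝓡 d) c).target :=
    (extChartAt (𝓡 d) c).map_source hz
  have hinv : (extChartAt (𝓡 d) c).symm (extChartAt (𝓡 d) c z) = z :=
    (extChartAt (𝓡 d) c).left_inv hz
  have hin : ContDiffAt ℝ ∞ (inCh (d := d) c g) (extChartAt (𝓡 d) c z) :=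
    contDiffAt_inCh g hg c _ hw (by rw [hinv, h]; exact hz)
  have hφ : MDifferentiableAt (𝓡 d) 𝓘(ℝ, E d) (extChartAt (𝓡 d) c) z :=
    mdifferentiableAt_extChartAt hzs
  have hφg : MDifferentiableAt (𝓡 d) 𝓘(ℝ, E d) (extChartAt (𝓡 d) c) (g z) := by
    rw [h]; exact hφ
  have hd : MDifferentiableAt (𝓡 d) (𝓡 d) g z := hg.mdifferentiable (by simp) z
  have hev : (extChartAt (𝓡 d) c) ∘ g =ᶠ[𝓝 z] inCh (d := d) c g ∘ (extChartAt (𝓡 d) c) := by
    filter_upwards [(isOpen_extChartAt_source c).mem_nhds hz] with y hy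
    show extChartAt (𝓡 d) c (g y) =
      extChartAt (𝓡 d) c (g ((extChartAt (𝓡 d) c).symm (extChartAt (𝓡 d) c y)))
    rw [(extChartAt (𝓡 d) c).left_inv hy]
  have hind : MDifferentiableAt 𝓘(ℝ, E d) 𝓘(ℝ, E d) (inCh (d := d) c g)
      (extChartAt (𝓡 d) c z) :=
    (hin.differentiableAt (by simp)).mdifferentiableAt
  have h1 := hev.mfderiv_eq (I := 𝓡 d) (I' := 𝓘(ℝ, E d))
  rw [mfderiv_comp z hφg hd, mfderiv_comp z hind hφ, mfderiv_eq_fderiv] at h1
  let P' : E d ≃L[ℝ] E d := P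
  have hD : ∀ y, y = z → ∀ u : E d,
      (mfderiv (𝓡 d) 𝓘(ℝ, E d) (extChartAt (𝓡 d) c) y : E d →L[ℝ] E d) u = P' u := by
    rintro y rfl u
    exact (DFunLike.congr_fun hP u).symm
  have h3 : ∀ v : E d, P' (df (d := d) g z v) =
      fderiv ℝ (inCh (d := d) c g) (extChartAt (𝓡 d) c z) (P' v) := by
    intro v
    have h4 : (mfderiv (𝓡 d) 𝓘(ℝ, E d) (extChartAt (𝓡 d) c) (g z) : E d →L[ℝ] E d)
        (df (d := d) g z v) = fderiv ℝ (inCh (d := d) c g) (extChartAt (𝓡 d) c z)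
          ((mfderiv (𝓡 d) 𝓘(ℝ, E d) (extChartAt (𝓡 d) c) z : E d →L[ℝ] E d) v) :=
      DFunLike.congr_fun h1 v
    rw [hD _ h, hD _ rfl] at h4
    exact h4
  refine ⟨P', ?_⟩
  ext1 v
  show _ = P' (df (d := d) g z (P'.symm v))
  rw [h3, P'.apply_symm_apply]

theorem fixVec_chart (g : M → M) (hg : ContMDiff (𝓡 d) (𝓡 d) ∞ g) (c z : M)
    (hz : z ∈ (extChartAt (𝓡 d) c).source) (h : g z = z) :
    FixVec (fderiv ℝ (inCh (d := d) c g) (extChartAt (𝓡 d) c z)) ↔ FixVec (df (d := d) g z) := by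
  obtain ⟨P, hP⟩ := chart_conj g hg c z hz h
  rw [hP]
  constructor
  · rintro ⟨v, hv, hv1⟩
    refine ⟨P.symm v, fun h0 => hv ?_, ?_⟩
    · rw [← P.apply_symm_apply v, h0, map_zero]
    · have h2 : P (df (d := d) g z (P.symm v)) = v := hv1
      rw [ContinuousLinearEquiv.eq_symm_apply]
      exact h2
  · rintro ⟨v, hv, hv1⟩
    refine ⟨P v, fun h0 => hv ?_, ?_⟩
    · rw [← P.symm_apply_apply v, h0, map_zero]
    · show P (df (d := d) g z (P.symm (P v))) = P v
      rw [P.symm_apply_apply, hv1]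

end Pool.Agent.Helper55.OS
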