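import Pool.Agent.Helper55.OS.BaseDefs

/-!
# OS-Z04 ZeroReg: regular values (Sard in equal dimensions)

TASK. PROOF. `F z = z - G z` is differentiable at the points of the open set `O`, derivative `1 - fderiv ℝ G z`. Let `C` be the set
of the `z ∈ O` with `FixVec (fderiv ℝ G z)`: there `1 - fderiv ℝ G z` is not injective so its determinant is `0`
(`ContinuousLinearMap.det`, `LinearMap.det` zero iff kernel nonzero). By
`MeasureTheory.addHaar_image_eq_zero_of_det_fderivWithin_eq_zero` the image `F '' C` has measure `0`; the ball `B(0, δ)` has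
positive measure, so it contains a `v` that is not in `F '' C`.
-/

open Set Topology Filter

namespace Pool.Agent.Helper55.OS

theorem exists_regular_value {d : ℕ} (O : Set (E d)) (hO : IsOpen O) (G : E d → E d)
    (hG : DifferentiableOn ℝ G O) (δ : ℝ) (hδ : 0 < δ) :
    ∃ v : E d, ‖v‖ < δ ∧ ∀ z ∈ O, z - G z = v → ¬ FixVec (fderiv ℝ G z) := by
  have h0 : MeasureTheory.volume ((fun z => z - G z) '' {z ∈ O | FixVec (fderiv ℝ G z)}) = 0 := by
    refine MeasureTheory.addHaar_image_eq_zero_of_det_fderivWithin_eq_zero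
      (f' := fun z => ContinuousLinearMap.id ℝ (E d) - fderiv ℝ G z) MeasureTheory.volume ?_ ?_
    · intro z hz
      exact ((hasFDerivAt_id z).sub
        (hG.differentiableAt (hO.mem_nhds hz.1)).hasFDerivAt).hasFDerivWithinAt
    · intro z hz
      obtain ⟨v, hv0, hv⟩ := hz.2
      by_contra hdet
      refine hv0 ((LinearMap.equivOfDetNeZero _ hdet).injective ?_)
      rw [map_zero]
      change v - fderiv ℝ G z v = 0
      rw [hv, sub_self]
  have h1 : ¬ Metric.ball (0 : E d) δ ⊆ (fun z => z - G z) '' {z ∈ O | FixVec (fderiv ℝ G z)} := by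
    intro hsub
    have h2 := MeasureTheory.measure_mono (μ := MeasureTheory.volume) hsub
    rw [h0] at h2
    exact absurd (Metric.measure_ball_pos MeasureTheory.volume (0 : E d) hδ) (not_lt.2 h2)
  obtain ⟨v, hv, hv'⟩ := Set.not_subset.1 h1
  refine ⟨v, mem_ball_zero_iff.1 hv, fun z hz hzv hfix => hv' ⟨z, ⟨hz, hfix⟩, hzv⟩⟩

end Pool.Agent.Helper55.OS
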