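import Pool.Agent.Helper55.OS.BaseFam
import Pool.Agent.Helper55.OS.BaseLocal
import Pool.Agent.Helper55.OS.BaseComp
import Pool.Agent.Helper55.OS.ZeroChain
import Pool.Agent.Helper55.OS.ZeroBall
import Pool.Agent.Helper55.OS.ZeroReg

/-!
# OS-Z05 ZeroSard: making the fixed points of g^n in a small ball nondegenerate

TASK. PROOF. Let `φ = extChartAt c`, `Φ` the local family of OS-B06 for the ball `B(z0, R)`, used with `p = (v, 0)`:
`g_v = (Φ (v, 0)).trans g`, a smooth family (OS-B07), `g_0 = g` (`Φ 0 = id`), so `g_v ∈ 𝒱` for `‖v‖` small (OS-B03).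
For `y` in the chart ball `W = chBall c z0 R`: `g_v^[n] y = g^[n] (Φ y)` (`iter_bump`). Let `G = inCh c (g^[n])` and
`O = {z ∈ ball z0 R | g^[n] (φ.symm z) ∈ φ.source}`, open (`ball z0 R` is in the target, `φ.symm` is continuous there), `G` is
differentiable on `O` (`contDiffAt_inCh`). Choose by OS-Z04 a small `v` (also `‖v‖ < R/4` and `(v, 0)` in the ball of
parameters) with `z - G z = v → ¬ FixVec (fderiv ℝ G z)` for `z ∈ O`.
Let `y ∈ chCl c z0 (R/4)` with `g_v^[n] y = y`, `w0 = φ y ∈ closedBall z0 (R/4)`, so `y ∈ chBall c z0 (R/2)`. For `w` near `w0`,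
`φ.symm w ∈ chBall c z0 (R/2)` and `φ (Φ (φ.symm w)) = w + v ∈ ball z0 R`, so `Φ (φ.symm w) = φ.symm (w + v)` and
`inCh c (g_v^[n]) w = G (w + v)`. Hence `fderiv ℝ (inCh c (g_v^[n])) w0 = fderiv ℝ G (w0 + v)`, and with `z = w0 + v`:
`z ∈ O` (`g^[n] (φ.symm z) = g_v^[n] y = y`), `G z = φ y = w0`, `z - G z = v`. So `¬ FixVec (fderiv ℝ G z)`, and by
`fixVec_chart` (for the smooth map `g_v^[n]` with the fixed point `y`) `¬ FixVec (df (g_v^[n]) y)`, i.e. `¬ Bad g_v n y`.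
-/

open Set Topology Manifold ContDiff Filter

namespace Pool.Agent.Helper55.OS

variable {d : ℕ} {M : Type} [TopologicalSpace M] [ChartedSpace (E d) M] [IsManifold (𝓡 d) ∞ M]
  [T2Space M]

theorem sard_step (g : Dif d M) (n : ℕ) (hn : 1 ≤ n) (c : M) (z0 : E d) (R : ℝ) (hR : 0 < R)
    (hc : Metric.closedBall z0 R ⊆ (extChartAt (𝓡 d) c).target)
    (hav : ∀ i, 1 ≤ i → i < n → ∀ y ∈ chBall c z0 R, (g : M → M)^[i] y ∉ chBall c z0 R)
    (𝒱 : Set (Dif d M)) (h𝒱 : IsOpen[smoothTop d M] 𝒱) (hg : g ∈ 𝒱) :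
    ∃ g' ∈ 𝒱, ∀ y ∈ chCl c z0 (R / 4), ¬ Bad g' n y := by
  obtain ⟨δ, Φ, hδ, hΦ, hΦ0, hΦp⟩ := exists_local_family c z0 R hR hc
  have h00 : (Φ 0).trans g = g := by
    ext y
    change g (Φ 0 y) = g y
    rw [hΦ0]
  have hev := eventually_mem_of_smoothFam (Metric.ball 0 δ) (fun p => (Φ p).trans g)
    (smoothFam_then _ Φ hΦ g) 0 (Metric.mem_ball_self hδ) 𝒱 h𝒱 (by
      change (Φ 0).trans g ∈ 𝒱
      rw [h00]; exact hg)
  obtain ⟨δ₁, hδ₁, hev⟩ := Metric.eventually_nhds_iff.1 hev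
  set φ := extChartAt (𝓡 d) c with hφ
  set O : Set (E d) := {z | z ∈ Metric.ball z0 R ∧ (g : M → M)^[n] (φ.symm z) ∈ φ.source} with hOdef
  have hbt : Metric.ball z0 R ⊆ φ.target := Metric.ball_subset_closedBall.trans hc
  have hiter := contMDiff_iter g n
  have hO : IsOpen O := by
    have h1 : ContinuousOn (fun z => (g : M → M)^[n] (φ.symm z)) (Metric.ball z0 R) :=
      hiter.continuous.comp_continuousOn ((continuousOn_extChartAt_symm c).mono hbt)
    exact h1.isOpen_inter_preimage Metric.isOpen_ball (isOpen_extChartAt_source c)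
  have hG : DifferentiableOn ℝ (inCh (d := d) c ((g : M → M)^[n])) O := by
    intro z hz
    exact ((contDiffAt_inCh _ hiter c z (hbt hz.1) hz.2).differentiableAt
      (by simp)).differentiableWithinAt
  obtain ⟨v, hv, hreg⟩ := exists_regular_value O hO _ hG (min (min δ δ₁) (R / 4))
    (lt_min (lt_min hδ hδ₁) (by linarith))
  have hv1 : ‖v‖ < δ := lt_of_lt_of_le hv ((min_le_left _ _).trans (min_le_left _ _))
  have hv2 : ‖v‖ < δ₁ := lt_of_lt_of_le hv ((min_le_left _ _).trans (min_le_right _ _))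
  have hv3 : ‖v‖ < R / 4 := lt_of_lt_of_le hv (min_le_right _ _)
  have hnp : ‖((v, 0) : E d × (E d →L[ℝ] E d))‖ = ‖v‖ := by
    rw [Prod.norm_def]; simp
  have hpm : ((v, 0) : E d × (E d →L[ℝ] E d)) ∈
      Metric.ball (0 : E d × (E d →L[ℝ] E d)) δ := by
    rw [mem_ball_zero_iff, hnp]; exact hv1
  obtain ⟨hb1, hb2, hb3⟩ := hΦp _ hpm
  refine ⟨(Φ (v, 0)).trans g, hev (by rw [dist_zero_right, hnp]; exact hv2), ?_⟩
  rintro y ⟨w0, hw0, rfl⟩ ⟨hfix, hF⟩
  have hw0d : dist w0 z0 ≤ R / 4 := hw0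
  have hball : ∀ w ∈ Metric.ball z0 (R / 2), w ∈ φ.target := fun w hw =>
    hbt (Metric.ball_subset_ball (by linarith) hw)
  have hw0b : w0 ∈ Metric.ball z0 (R / 2) := by
    rw [Metric.mem_ball]; linarith
  have hkey : ∀ w ∈ Metric.ball z0 (R / 2),
      (((Φ (v, 0)).trans g : Dif d M) : M → M)^[n] (φ.symm w) =
        (g : M → M)^[n] (φ.symm (w + v)) := by
    intro w hw
    have hwt := hball w hw
    have hsrc : φ.symm w ∈ φ.source := φ.map_target hwt
    have hri : φ (φ.symm w) = w := φ.right_inv hwt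
    have hin : φ.symm w ∈ chBall c z0 (R / 2) := ⟨hsrc, by
      change φ (φ.symm w) ∈ Metric.ball z0 (R / 2)
      rw [hri]; exact hw⟩
    have hin' : φ.symm w ∈ chBall c z0 R := ⟨hsrc, Metric.ball_subset_ball (by linarith) hin.2⟩
    rw [iter_bump g (Φ (v, 0)) (chBall c z0 R) n hn hb1 hb2 hav _ hin']
    obtain ⟨h3, h4⟩ := hb3 _ hin
    have h5 : φ (Φ (v, 0) (φ.symm w)) = w + v := by
      have h6 : φ (Φ (v, 0) (φ.symm w)) = φ (φ.symm w) +
        (v + (0 : E d →L[ℝ] E d) (φ (φ.symm w) - z0)) := h4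
      rw [h6, hri]; simp
    have h7 : Φ (v, 0) (φ.symm w) = φ.symm (w + v) := by
      rw [← h5]; exact (φ.left_inv h3).symm
    rw [h7]
  have hri0 : φ (φ.symm w0) = w0 := φ.right_inv (hball w0 hw0b)
  have hsrc0 : φ.symm w0 ∈ φ.source := φ.map_target (hball w0 hw0b)
  have hEq : inCh (d := d) c ((((Φ (v, 0)).trans g : Dif d M) : M → M)^[n]) =ᶠ[𝓝 w0]
      fun w => inCh (d := d) c ((g : M → M)^[n]) (w + v) := by
    filter_upwards [Metric.isOpen_ball.mem_nhds hw0b] with w hw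
    unfold inCh
    exact congrArg φ (hkey w hw)
  have hfd := hEq.fderiv_eq (𝕜 := ℝ)
  rw [fderiv_comp_add_right] at hfd
  have hfix' : (g : M → M)^[n] (φ.symm (w0 + v)) = φ.symm w0 := by
    rw [← hkey w0 hw0b]; exact hfix
  refine hreg (w0 + v) ⟨?_, ?_⟩ ?_ ?_
  · rw [Metric.mem_ball, dist_eq_norm]
    have h8 : w0 + v - z0 = (w0 - z0) + v := by abel
    rw [h8]
    rw [dist_eq_norm] at hw0d
    have := norm_add_le (w0 - z0) v
    linarith
  · rw [hfix']; exact hsrc0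
  · have h9 : inCh (d := d) c ((g : M → M)^[n]) (w0 + v) = w0 := by
      change φ ((g : M → M)^[n] (φ.symm (w0 + v))) = w0
      rw [hfix', hri0]
    rw [h9]; abel
  · rw [← hfd]
    have h10 := (fixVec_chart _ (contMDiff_iter ((Φ (v, 0)).trans g) n) c (φ.symm w0) hsrc0
      hfix).2 hF
    rw [← hφ, hri0] at h10
    exact h10

end Pool.Agent.Helper55.OS
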