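import Pool.Agent.Helper55.OS.BaseAvoid
import Pool.Agent.Helper55.OS.ZeroSard
import Pool.Agent.Helper55.OS.ZeroIso

/-!
# OS-Z10 ZeroCover: all fixed points of g^n become nondegenerate

TASK. PROOF. For each `z : M` one of the two cases holds. (A) `g^[m] z = z` for some `1 ≤ m < n`: then `¬ Bad g n z` by
hypothesis, so by `eventually_not_bad` and local compactness there is a compact neighbourhood `K` of `z` with no bad points of
`g`. (B) `g^[i] z ≠ z` for `1 ≤ i < n`: `exists_ball` (OS-Z03, `U = univ`) gives `R`; the compact set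
`K = chCl z (φ_z z) (R/4)` is a neighbourhood of `z` (it contains `chBall z (φ_z z) (R/4)`), and with
`L = chCl z (φ_z z) R` (compact, closed) `g^[i] (L) ∩ L = ∅` for `1 ≤ i < n`.
By compactness `M` is the union of finitely many such `K`, with centres `z ∈ s` (a `Finset`), `s = sA ∪ sB`. Let `𝒱` be the
intersection of `𝒰`, of the sets `{g' | no bad point in K_z}`, `z ∈ sA` (`isOpen_good`), and of the sets
`{g' | ∀ y ∈ L_z, g'^[i] y ∉ L_z}`, `z ∈ sB`, `1 ≤ i < n` (`isOpen_avoid`): finite intersection of open sets (in the topology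
`smoothTop d M`, use `letI`), contains `g`. Induction over the finset `sB` (`Finset.induction_on` on subsets `t ⊆ sB`): there is
`g' ∈ 𝒱` with no bad points in `K_z` for all `z ∈ t`. Step: apply `sard_step` (OS-Z05) to `g'`, the ball of the new `z`
(`chBall ⊆ chCl` so the avoiding condition holds) and the open set `𝒱 ∩ ⋂_{z ∈ t} {no bad points in K_z}`. At the end no
point of `M` is bad.
-/

open Set Topology Manifold ContDiff Filter

namespace Pool.Agent.Helper55.OS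

variable {d : ℕ} {M : Type} [TopologicalSpace M] [ChartedSpace (E d) M] [IsManifold (𝓡 d) ∞ M]
  [T2Space M] [CompactSpace M]

private theorem cover_local (n : ℕ) (hn : 1 ≤ n) (g : Dif d M)
    (hlow : ∀ z m, 1 ≤ m → m < n → (g : M → M)^[m] z = z → ¬ Bad g n z) (z : M) :
    ∃ K ∈ 𝓝 z, IsCompact K ∧ ∃ W : Set (Dif d M), IsOpen[smoothTop d M] W ∧ g ∈ W ∧
      ∀ h ∈ W, ∀ 𝒱 : Set (Dif d M), IsOpen[smoothTop d M] 𝒱 → h ∈ 𝒱 →
        ∃ h' ∈ 𝒱, ∀ y ∈ K, ¬ Bad h' n y := by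
  by_cases hA : ∃ m, 1 ≤ m ∧ m < n ∧ (g : M → M)^[m] z = z
  · obtain ⟨m, hm1, hm2, hm3⟩ := hA
    obtain ⟨K, hK, hKs, hKc⟩ := local_compact_nhds
      (eventually_not_bad g n z (hlow z m hm1 hm2 hm3))
    exact ⟨K, hK, hKc, _, isOpen_good K hKc n, fun y hy => hKs hy,
      fun h hh 𝒱 _ hh' => ⟨h, hh', hh⟩⟩
  · have hB : ∀ i, 1 ≤ i → i < n → (g : M → M)^[i] z ≠ z :=
      fun i h1 h2 h3 => hA ⟨i, h1, h2, h3⟩
    obtain ⟨R, hR, hc, -, hav⟩ := exists_ball (d := d) g g.continuous n z hB univ univ_mem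
    have hR4 : 0 < R / 4 := by linarith
    have hc4 : Metric.closedBall (extChartAt (𝓡 d) z z) (R / 4) ⊆ (extChartAt (𝓡 d) z).target :=
      (Metric.closedBall_subset_closedBall (by linarith)).trans hc
    have hL : IsCompact (chCl (d := d) z (extChartAt (𝓡 d) z z) R) := isCompact_chCl _ _ _ hc
    refine ⟨chCl (d := d) z (extChartAt (𝓡 d) z z) (R / 4),
      mem_of_superset ((isOpen_chBall z _ (R / 4)).mem_nhds (mem_chBall_self z (R / 4) hR4))
        (chBall_subset_chCl _ _ _), isCompact_chCl _ _ _ hc4,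
      ⋂ i ∈ Finset.Ico 1 n, {h : Dif d M | ∀ y ∈ chCl (d := d) z (extChartAt (𝓡 d) z z) R,
        (h : M → M)^[i] y ∉ chCl (d := d) z (extChartAt (𝓡 d) z z) R}, ?_, ?_, ?_⟩
    · let _ : TopologicalSpace (Dif d M) := smoothTop d M
      exact isOpen_biInter_finset fun i _ => isOpen_avoid _ _ hL hL.isClosed i
    · rw [mem_iInter₂]
      intro i hi
      rw [Finset.mem_Ico] at hi
      exact hav i hi.1 hi.2
    · intro h hh 𝒱 h𝒱 hh'
      rw [mem_iInter₂] at hh
      exact sard_step h n hn z _ R hR hc (fun i h1 h2 y hy hy' =>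
        hh i (Finset.mem_Ico.2 ⟨h1, h2⟩) y (chBall_subset_chCl _ _ _ hy)
          (chBall_subset_chCl _ _ _ hy')) 𝒱 h𝒱 hh'

theorem cover_step (𝒰 : Set (Dif d M)) (h𝒰 : IsOpen[smoothTop d M] 𝒰) (n : ℕ) (hn : 1 ≤ n)
    (g : Dif d M) (hg : g ∈ 𝒰)
    (hlow : ∀ z m, 1 ≤ m → m < n → (g : M → M)^[m] z = z → ¬ Bad g n z) :
    ∃ g' ∈ 𝒰, ∀ z, ¬ Bad g' n z := by
  classical
  let _ : TopologicalSpace (Dif d M) := smoothTop d M
  choose K hK hKc W hW hgW hstep using cover_local n hn g hlow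
  obtain ⟨t, ht⟩ := CompactSpace.elim_nhds_subcover K hK
  have hO : IsOpen (𝒰 ∩ ⋂ z ∈ t, W z) := h𝒰.inter (isOpen_biInter_finset fun z _ => hW z)
  have key : ∀ t' : Finset M, t' ⊆ t → ∃ h ∈ 𝒰 ∩ ⋂ z ∈ t, W z,
      ∀ z ∈ t', ∀ y ∈ K z, ¬ Bad h n y := by
    intro t'
    induction t' using Finset.induction_on with
    | empty =>
      intro _
      exact ⟨g, ⟨hg, mem_iInter₂.2 fun z _ => hgW z⟩, fun z hz => absurd hz (Finset.notMem_empty z)⟩
    | insert a t' _ ih =>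
      intro hsub
      obtain ⟨h, hh, hgood⟩ := ih ((Finset.subset_insert a t').trans hsub)
      have hO' : IsOpen ((𝒰 ∩ ⋂ z ∈ t, W z) ∩ ⋂ z ∈ t', {h : Dif d M | ∀ y ∈ K z, ¬ Bad h n y}) :=
        hO.inter (isOpen_biInter_finset fun z _ => isOpen_good (K z) (hKc z) n)
      obtain ⟨h', hh', hgood'⟩ := hstep a h
        (mem_iInter₂.1 hh.2 a (hsub (Finset.mem_insert_self a t'))) _ hO'
        ⟨hh, mem_iInter₂.2 hgood⟩
      refine ⟨h', hh'.1, fun z hz => ?_⟩
      rcases Finset.mem_insert.1 hz with rfl | hz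
      · exact hgood'
      · exact mem_iInter₂.1 hh'.2 z hz
  obtain ⟨h, hh, hgood⟩ := key t (Finset.Subset.refl t)
  refine ⟨h, hh.1, fun y => ?_⟩
  have hy : y ∈ ⋃ x ∈ t, K x := by
    rw [ht]
    trivial
  obtain ⟨z, hz, hyz⟩ := mem_iUnion₂.1 hy
  exact hgood z hz y hyz

end Pool.Agent.Helper55.OS
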