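import Pool.Agent.Helper55.OS.ZeroLower
import Pool.Agent.Helper55.OS.ZeroCover

/-!
# OS-Z11 ZeroFin: finitely many periodic points of every period (assembly)

Strong induction on `n`: `lower_step`, `cover_step`, `finite_of_good`, and the count is constant.
-/

open Set Topology Manifold ContDiff Filter

namespace Pool.Agent.Helper55.OS

variable {d : ℕ} {M : Type} [TopologicalSpace M] [ChartedSpace (E d) M] [IsManifold (𝓡 d) ∞ M]
  [T2Space M] [CompactSpace M]

theorem fix_finite (𝒰 : Set (Dif d M)) (h𝒰 : IsOpen[smoothTop d M] 𝒰) (hcs : CountStable 𝒰)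
    (n : ℕ) (hn : 1 ≤ n) : ∀ g ∈ 𝒰, {x : M | (g : M → M)^[n] x = x}.Finite := by
  induction n using Nat.strong_induction_on with
  | _ n ih =>
    intro g hg
    obtain ⟨g1, hg1, h1⟩ := lower_step 𝒰 h𝒰 hcs n (fun m hm hmn => ih m hmn hm) g hg
    obtain ⟨g2, hg2, h2⟩ := cover_step 𝒰 h𝒰 n hn g1 hg1 h1
    have hf := finite_of_good g2 n h2
    obtain ⟨e⟩ := hcs g hg g2 hg2 n hn
    have h3 : Finite {x : M | (g2 : M → M)^[n] x = x} := hf.to_subtype
    have h4 : Finite {x : M | (g : M → M)^[n] x = x} := Finite.of_equiv _ e.symm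
    exact Set.toFinite _

end Pool.Agent.Helper55.OS
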