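import Pool.Agent.Helper55.OS.BasePush
import Pool.Agent.Helper55.OS.ZeroFin

/-!
# OS-F3 FeClose: closing an orbit in an open set without periodic points
-/

open Set Topology Manifold ContDiff Filter

namespace Pool.Agent.Helper55.OS

variable {d : ℕ} {M : Type} [TopologicalSpace M] [ChartedSpace (E d) M] [IsManifold (𝓡 d) ∞ M]
  [T2Space M] [CompactSpace M]

theorem mem_omega_of_fixed {M : Type} [TopologicalSpace M] (f : M → M) (n : ℕ) (hn : 1 ≤ n) (x : M)
    (hx : f^[n] x = x) : x ∈ omega f := by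
  intro U hU
  exact ⟨n, hn, x, ⟨x, mem_of_mem_nhds hU, hx⟩, mem_of_mem_nhds hU⟩

theorem exists_close_nhd (f : Dif d M) (𝒰 : Set (Dif d M)) (h𝒰 : IsOpen[smoothTop d M] 𝒰)
    (hf : f ∈ 𝒰) (hcs : CountStable 𝒰) (x : M)
    (U : Set M) (hU : U ∈ 𝓝 x) (hiso : U ∩ Function.periodicPts (f : M → M) = ∅) :
    ∃ D ∈ 𝓝 x, D ⊆ U ∧ ∀ y n, 1 ≤ n → y ∈ D → (f : M → M)^[n] y ∈ D →
      ∃ i, 0 < i ∧ i < n ∧ (f : M → M)^[i] y ∈ U := by
  obtain ⟨D, hD1, hD2, hD3⟩ := push_points f 𝒰 h𝒰 hf 1 (fun _ => x) (fun _ => U) (fun _ => hU)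
    (fun i j hij => absurd (Subsingleton.elim i j) hij)
  refine ⟨D 0, hD1 0, hD2 0, fun y n hn hy hy' => ?_⟩
  by_contra hcon
  push Not at hcon
  obtain ⟨g, hg, hoff, hpush⟩ := hD3 (fun _ => y) (fun _ => (f : M → M)^[n] y)
    (fun i => by rw [Subsingleton.elim i 0]; exact hy)
    (fun i => by rw [Subsingleton.elim i 0]; exact hy')
  have hoff' : ∀ z, z ∉ U → g z = f z := fun z hz => hoff z (fun _ => hz)
  have hpush' : g ((f : M → M)^[n] y) = f y := hpush 0
  set b := (f : M → M)^[n] y with hb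
  have hbU : b ∈ U := hD2 0 hy'
  have hit : ∀ i, 1 ≤ i → i ≤ n → (g : M → M)^[i] b = (f : M → M)^[i] y := by
    intro i
    induction i with
    | zero => intro h; omega
    | succ i ih =>
      intro _ h2
      rcases Nat.eq_zero_or_pos i with h3 | h3
      · subst h3
        exact hpush'
      · rw [Function.iterate_succ_apply', ih h3 (by omega), Function.iterate_succ_apply']
        exact hoff' _ (hcon i h3 (by omega))
  have hgb : (g : M → M)^[n] b = b := hit n hn le_rfl
  have hper : ∀ s, (f : M → M)^[n] s = s → ∀ i : ℕ, (f : M → M)^[i] s ∉ U := by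
    intro s hs i hi
    have h1 : (f : M → M)^[n] ((f : M → M)^[i] s) = (f : M → M)^[i] s := by
      rw [← Function.iterate_add_apply, add_comm, Function.iterate_add_apply, hs]
    have h2 : (f : M → M)^[i] s ∈ U ∩ Function.periodicPts (f : M → M) := ⟨hi, n, hn, h1⟩
    rw [hiso] at h2
    exact h2
  have hkeep : ∀ s, (f : M → M)^[n] s = s → ∀ i : ℕ, (g : M → M)^[i] s = (f : M → M)^[i] s := by
    intro s hs i
    induction i with
    | zero => rfl
    | succ i ih =>
      rw [Function.iterate_succ_apply', ih, Function.iterate_succ_apply']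
      exact hoff' _ (hper s hs i)
  have hsub : {s : M | (f : M → M)^[n] s = s} ⊆ {s : M | (g : M → M)^[n] s = s} := by
    intro s hs
    change (g : M → M)^[n] s = s
    rw [hkeep s hs n]
    exact hs
  have hfin := fix_finite 𝒰 h𝒰 hcs n hn g hg
  obtain ⟨e⟩ := hcs f hf g hg n hn
  have h1 : {s : M | (f : M → M)^[n] s = s}.ncard = {s : M | (g : M → M)^[n] s = s}.ncard :=
    Nat.card_congr e
  have h2 := Set.eq_of_subset_of_ncard_le hsub h1.ge hfin
  have h3 : b ∈ {s : M | (f : M → M)^[n] s = s} := by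
    rw [h2]
    exact hgb
  exact hper b h3 0 hbU

end Pool.Agent.Helper55.OS
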