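import Mathlib

/-!
# OS-F1 FeComb: counting visits to a decreasing sequence of sets (pure combinatorics)

`B k` decreasing; every orbit visits `B k \ B (k+1)` a bounded number of times; between two visits to `B (k+1)` there is a
visit to `B k`; every `B k` is visited twice by some orbit: contradiction.
-/

open Set Filter

namespace Pool.Agent.Helper55.OS

open Classical in
/-- The times `i < N` at which the orbit of `y` is in `W`. -/
private noncomputable def visits {X : Type} (f : X → X) (W : Set X) (y : X) (N : ℕ) : Finset ℕ :=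
  (Finset.range N).filter (fun i => f^[i] y ∈ W)

theorem comb_contradiction {X : Type} (f : X → X) (B : ℕ → Set X) (hB : ∀ k, B (k + 1) ⊆ B k)
    (h1 : ∀ k, ∃ C : ℕ, ∀ (y : X) (t : Finset ℕ), (∀ i ∈ t, f^[i] y ∈ B k \ B (k + 1)) → t.card ≤ C)
    (h2 : ∀ k y n, 1 ≤ n → y ∈ B (k + 1) → f^[n] y ∈ B (k + 1) →
      ∃ i, 0 < i ∧ i < n ∧ f^[i] y ∈ B k)
    (h3 : ∀ k, ∃ y n, 1 ≤ n ∧ y ∈ B k ∧ f^[n] y ∈ B k) : False := by
  classical
  -- between two visits to the small set there is a visit to the shell
  have key : ∀ k y N, (visits f (B (k + 1)) y N).card ≤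
      (visits f (B k \ B (k + 1)) y N).card + 1 := by
    intro k y N
    apply Finset.card_le_of_interleaved
    intro a ha b hb hab hno
    simp only [visits, Finset.mem_filter, Finset.mem_range] at ha hb
    obtain ⟨i, hi1, hi2, hi3⟩ := h2 k (f^[a] y) (b - a) (by omega) ha.2 (by
      rw [← Function.iterate_add_apply]
      have : b - a + a = b := by omega
      rw [this]
      exact hb.2)
    have hi4 : f^[i + a] y ∈ B k := by
      rw [Function.iterate_add_apply]
      exact hi3
    refine ⟨i + a, ?_, by omega, by omega⟩
    simp only [visits, Finset.mem_filter, Finset.mem_range]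
    refine ⟨by omega, hi4, fun h5 => ?_⟩
    exact hno (i + a) (by
      simp only [visits, Finset.mem_filter, Finset.mem_range]
      exact ⟨by omega, h5⟩) ⟨by omega, by omega⟩
  have split : ∀ k y N, (visits f (B k) y N).card =
      (visits f (B (k + 1)) y N).card + (visits f (B k \ B (k + 1)) y N).card := by
    intro k y N
    rw [← Finset.card_union_of_disjoint]
    · congr 1
      ext i
      simp only [visits, Finset.mem_filter, Finset.mem_range, Finset.mem_union, mem_diff]
      constructor
      · rintro ⟨h4, h5⟩
        by_cases h6 : f^[i] y ∈ B (k + 1)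
        · exact Or.inl ⟨h4, h6⟩
        · exact Or.inr ⟨h4, h5, h6⟩
      · rintro (⟨h4, h5⟩ | ⟨h4, h5, -⟩)
        · exact ⟨h4, hB k h5⟩
        · exact ⟨h4, h5⟩
    · rw [Finset.disjoint_left]
      intro i h4 h5
      simp only [visits, Finset.mem_filter, Finset.mem_range, mem_diff] at h4 h5
      exact h5.2.2 h4.2
  -- the number of visits to `B (k + 1)` is bounded
  have bdd : ∀ k, ∃ C : ℕ, ∀ y N, (visits f (B (k + 1)) y N).card ≤ C := by
    intro k
    obtain ⟨C, hC⟩ := h1 k
    refine ⟨C + 1, fun y N => (key k y N).trans (Nat.add_le_add_right (hC y _ ?_) 1)⟩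
    intro i hi
    simp only [visits, Finset.mem_filter] at hi
    exact hi.2
  -- the maximal number of visits
  have hmax : ∀ k, ∃ m : ℕ, (∀ y N, (visits f (B (k + 1)) y N).card ≤ m) ∧
      ∃ y N, (visits f (B (k + 1)) y N).card = m := by
    intro k
    have hex := bdd k
    refine ⟨Nat.find hex, Nat.find_spec hex, ?_⟩
    by_contra hcon
    push Not at hcon
    rcases Nat.eq_zero_or_pos (Nat.find hex) with h0 | hpos
    · obtain ⟨y, n, _, _, _⟩ := h3 0
      have := Nat.find_spec hex y 0
      exact hcon y 0 (by omega)
    · have h4 : ∀ y N, (visits f (B (k + 1)) y N).card ≤ Nat.find hex - 1 := by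
        intro y N
        have h5 := Nat.find_spec hex y N
        have h6 := hcon y N
        omega
      have := Nat.find_min' hex h4
      omega
  choose m hm1 hm2 using hmax
  have htwo : ∀ k, 2 ≤ m k := by
    intro k
    obtain ⟨y, n, hn, hy, hy'⟩ := h3 (k + 1)
    refine le_trans ?_ (hm1 k y (n + 1))
    have h4 : ({0, n} : Finset ℕ) ⊆ visits f (B (k + 1)) y (n + 1) := by
      intro i hi
      simp only [visits, Finset.mem_filter, Finset.mem_range]
      rcases Finset.mem_insert.mp hi with h | h
      · subst h
        exact ⟨by omega, hy⟩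
      · rw [Finset.mem_singleton] at h
        subst h
        exact ⟨by omega, hy'⟩
    have h5 := Finset.card_le_card h4
    rwa [Finset.card_pair (by omega)] at h5
  have hdec : ∀ k, m (k + 1) < m k := by
    intro k
    obtain ⟨y, N, hyN⟩ := hm2 (k + 1)
    have h4 := hm1 k y N
    have h5 := split (k + 1) y N
    have h6 := key (k + 1) y N
    have h7 := htwo (k + 1)
    omega
  have hlin : ∀ k, m k + k ≤ m 0 := by
    intro k
    induction k with
    | zero => simp
    | succ k ih =>
      have := hdec k
      omega
  have h8 := hlin (m 0)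
  have h9 := htwo (m 0)
  omega

end Pool.Agent.Helper55.OS
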