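import Pool.Agent.Helper55.OS.FeMain

/-!
# OS-F5 FeLoc: every neighbourhood of a nonwandering point outside the closure of the periodic points contains
uncountably many nonwandering points
-/

open Set Topology Manifold ContDiff Filter

namespace Pool.Agent.Helper55.OS

variable {d : ℕ} {M : Type} [TopologicalSpace M] [ChartedSpace (E d) M] [IsManifold (𝓡 d) ∞ M]
  [T2Space M] [CompactSpace M]

theorem uncountable_near (f : Dif d M) (h : OmegaStable f) (x : M) (hx1 : x ∈ omega (f : M → M))
    (hx2 : x ∉ closure (Function.periodicPts (f : M → M))) (U : Set M) (hU : U ∈ 𝓝 x) :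
    ¬ (U ∩ omega (f : M → M)).Countable := by
  intro hc
  have hcl := isClosed_omega (f : M → M)
  have : CompactSpace (omega (f : M → M)) := isCompact_iff_compactSpace.mp hcl.isCompact
  let V : Set M := interior U ∩ (closure (Function.periodicPts (f : M → M)))ᶜ
  have hVo : IsOpen V := isOpen_interior.inter isClosed_closure.isOpen_compl
  let O : Set (omega (f : M → M)) := {z | (z : M) ∈ V}
  have hO : IsOpen O := hVo.preimage continuous_subtype_val
  have : LocallyCompactSpace O := hO.locallyCompactSpace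
  have : Nonempty O := ⟨⟨⟨x, hx1⟩, mem_interior_iff_mem_nhds.mpr hU, hx2⟩⟩
  have hcount : Countable O := by
    have : Countable (U ∩ omega (f : M → M) : Set M) := hc.to_subtype
    let F : O → (U ∩ omega (f : M → M) : Set M) :=
      fun z => ⟨z.1.1, interior_subset z.2.1, z.1.2⟩
    refine Function.Injective.countable (f := F) ?_
    intro a b hab
    have h1 : (F a).1 = (F b).1 := by rw [hab]
    exact Subtype.ext (Subtype.ext h1)
  obtain ⟨z, w, hw⟩ := nonempty_interior_of_iUnion_of_closed (X := O) (f := fun z : O => {z})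
    (fun z => isClosed_singleton) (by
      apply eq_univ_of_forall
      intro z
      exact mem_iUnion.mpr ⟨z, rfl⟩)
  have hwz : w ∈ ({z} : Set O) := interior_subset hw
  rw [mem_singleton_iff] at hwz
  subst hwz
  have h1 : ({w} : Set O) ∈ 𝓝 w := mem_interior_iff_mem_nhds.mp hw
  rw [nhds_subtype, mem_comap] at h1
  obtain ⟨V1, hV1, h2⟩ := h1
  rw [nhds_subtype, mem_comap] at hV1
  obtain ⟨V2, hV2, h3⟩ := hV1
  apply w.2.2
  apply subset_closure
  refine isolated_periodic f h _ w.1.2 ⟨V2 ∩ V, inter_mem hV2 (hVo.mem_nhds w.2), ?_⟩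
  rintro z ⟨⟨hz1, hz2⟩, hz3⟩
  have h4 : (⟨⟨z, hz3⟩, hz2⟩ : O) ∈ ({w} : Set O) := h2 (h3 hz1)
  exact congrArg (fun w : O => (w.1 : M)) h4

end Pool.Agent.Helper55.OS
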