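import Pool.Agent.Helper55.OS.Defs

/-!
# OS-F2 FeWand: a compact set of wandering points is visited a bounded number of times
-/

open Set Topology Filter

namespace Pool.Agent.Helper55.OS

theorem wandering_bound {M : Type} [TopologicalSpace M] (f : M → M) (K : Set M) (hK : IsCompact K)
    (hw : ∀ x ∈ K, x ∉ omega f) :
    ∃ C : ℕ, ∀ (y : M) (t : Finset ℕ), (∀ i ∈ t, f^[i] y ∈ K) → t.card ≤ C := by
  classical
  have hU : ∀ x : M, ∃ U : Set M, x ∈ K → U ∈ 𝓝 x ∧ ∀ n : ℕ, 1 ≤ n → ¬ (f^[n] '' U ∩ U).Nonempty := by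
    intro x
    by_cases hx : x ∈ K
    · have h1 := hw x hx
      simp only [omega, mem_ofPred_eq, not_forall, not_exists, not_and] at h1
      obtain ⟨U, hU, h2⟩ := h1
      exact ⟨U, fun _ => ⟨hU, h2⟩⟩
    · exact ⟨univ, fun h => absurd h hx⟩
  choose U hU using hU
  obtain ⟨s, hs, hcov⟩ := hK.elim_nhds_subcover U (fun x hx => (hU x hx).1)
  refine ⟨s.card, fun y t ht => ?_⟩
  have h1 : ∀ i ∈ t, ∃ c ∈ s, f^[i] y ∈ U c := by
    intro i hi
    have h2 := hcov (ht i hi)
    simp only [mem_iUnion] at h2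
    obtain ⟨c, hc, h3⟩ := h2
    exact ⟨c, hc, h3⟩
  have : Nonempty M := ⟨y⟩
  choose! c hc using h1
  refine Finset.card_le_card_of_injOn c (fun i hi => (hc i hi).1) ?_
  intro i hi j hj hij
  have main : ∀ i j : ℕ, i ∈ t → j ∈ t → c i = c j → i < j → False := by
    intro i j hi hj hij hlt
    have h3 := (hU (c i) (hs _ (hc i hi).1)).2 (j - i) (by omega)
    apply h3
    refine ⟨f^[j] y, ⟨f^[i] y, (hc i hi).2, ?_⟩, ?_⟩
    · rw [← Function.iterate_add_apply]
      congr 1
      congr 1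
      omega
    · rw [hij]
      exact (hc j hj).2
  rcases lt_trichotomy i j with h | h | h
  · exact (main i j hi hj hij h).elim
  · exact h
  · exact (main j i hj hi hij.symm h).elim

end Pool.Agent.Helper55.OS
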