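import Pool.Agent.Helper55.OS.ZeroStab

/-!
# OS-Z20 ZeroCplx: without eigenvalues of modulus one the space is the sum of the stable and the unstable space

TASK. PROOF. Disjoint: let `v` be in both. By `stab_rate` there are `C, r` with `r > 1`; `v = A^k (w k)` with `w k ∈ unstS A ∩ stabS A`?
Simplest: the backward orbit `w` of `v ∈ unstS A` satisfies `A^k (w k) = v`, all `w k ∈ unstS A` (shift), and `w k ∈ stabS A`
(`A^j (w k) = A^(j-k) v → 0`). So `r^k ‖v‖ = r^k ‖A^k (w k)‖ ≤ C ‖w k‖` (stable rate) and `r^k ‖w k‖ ≤ C ‖A^k (w k)‖ = C ‖v‖`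
(unstable rate): `r^(2k) ‖v‖ ≤ C^2 ‖v‖` for all `k`, so `v = 0`.
Sum: complexify. Let `T : (Fin d → ℂ) →ₗ[ℂ] (Fin d → ℂ)` be given by the matrix of `A` (in the standard basis, mapped to `ℂ`); for
`x, y : E d` put `j x y = fun i => (x i : ℂ) + (y i : ℂ) * I`: `T (j x y) = j (A x) (A y)`, and every vector is `j x y` (real and imaginary parts).
(a) An eigenvalue `μ` of `T` has `|μ| ≠ 1`: if `T (j u v) = (c + s I) • j u v` then `A u = c u - s v`, `A v = s u + c v`: `UnitEig A`.
Also `μ ≠ 0` (`T` is injective).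
(b) If `(T - μ)^N w = 0` and `|μ| < 1` then `T^k w → 0`: induction on `N`: with `w' = (T - μ) w`, `T^(k+1) w = μ T^k w + T^k w'`, `T^k w' → 0`;
a sequence with `a (k+1) = μ a k + b k`, `b k → 0`, `|μ| < 1` tends to `0`.
(c) If `(T - μ)^N w = 0` and `|μ| > 1` there is a backward orbit tending to `0`: `T` is bijective, `T⁻¹` satisfies
`(T⁻¹ - μ⁻¹)^N w = 0` (`T⁻¹ - μ⁻¹ = -μ⁻¹ T⁻¹ (T - μ)`, everything commutes), use (b) for `T⁻¹`, `μ⁻¹`.
(d) `⨆ μ, maxGenEigenspace T μ = ⊤` (`Module.End.iSup_maxGenEigenspace_eq_top`): so every `w` is a sum `w1 + w2` with `T^k w1 → 0` and `w2` with a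
backward orbit tending to `0` (these two conditions define submodules over `ℂ`; both are closed under sums). For `x : E d` write
`j x 0 = w1 + w2` and take real parts: `x = re w1 + re w2`, `A^k (re w1) = re (T^k w1) → 0`, and the real part of the backward orbit of
`w2` is a backward orbit of `re w2` tending to `0`. So `x ∈ stabS A ⊔ unstS A`.
-/

open Set Topology Filter

namespace Pool.Agent.Helper55.OS

private noncomputable def reV {d : ℕ} : (Fin d → ℂ) →ₗ[ℝ] E d where
  toFun w := WithLp.toLp 2 (fun i => (w i).re)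
  map_add' := by
    intro a b
    ext i
    simp
  map_smul' := by
    intro c a
    ext i
    simp

private noncomputable def imV {d : ℕ} : (Fin d → ℂ) →ₗ[ℝ] E d where
  toFun w := WithLp.toLp 2 (fun i => (w i).im)
  map_add' := by
    intro a b
    ext i
    simp
  map_smul' := by
    intro c a
    ext i
    simp

private theorem reV_apply {d : ℕ} (w : Fin d → ℂ) (i : Fin d) : reV w i = (w i).re := rfl

private theorem imV_apply {d : ℕ} (w : Fin d → ℂ) (i : Fin d) : imV w i = (w i).im := rfl

private theorem reV_smul {d : ℕ} (c : ℂ) (a : Fin d → ℂ) :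
    reV (c • a) = c.re • reV a - c.im • imV a := by
  ext i
  simp [reV_apply, imV_apply]

private theorem imV_smul {d : ℕ} (c : ℂ) (a : Fin d → ℂ) :
    imV (c • a) = c.im • reV a + c.re • imV a := by
  ext i
  simp [reV_apply, imV_apply]
  ring

private noncomputable def Tc {d : ℕ} (A : E d →L[ℝ] E d) : (Fin d → ℂ) →ₗ[ℂ] (Fin d → ℂ) where
  toFun w := fun i => ((A (reV w)) i : ℂ) + ((A (imV w)) i : ℂ) * Complex.I
  map_add' := by
    intro a b
    ext i
    simp only [map_add, PiLp.add_apply, Pi.add_apply, Complex.ofReal_add]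
    ring
  map_smul' := by
    intro c a
    ext i
    simp only [reV_smul, imV_smul, map_add, map_sub, map_smul, PiLp.add_apply, PiLp.sub_apply,
      PiLp.smul_apply, smul_eq_mul, Pi.smul_apply, RingHom.id_apply]
    apply Complex.ext
    · simp
    · simp
      ring

private theorem reV_Tc {d : ℕ} (A : E d →L[ℝ] E d) (w : Fin d → ℂ) :
    reV (Tc A w) = A (reV w) := by
  ext i
  rw [reV_apply]
  simp [Tc]

private theorem imV_Tc {d : ℕ} (A : E d →L[ℝ] E d) (w : Fin d → ℂ) :
    imV (Tc A w) = A (imV w) := by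
  ext i
  rw [imV_apply]
  simp [Tc]

private theorem ext_re_im {d : ℕ} (w w' : Fin d → ℂ) (h1 : reV w = reV w') (h2 : imV w = imV w') :
    w = w' := by
  funext i
  apply Complex.ext
  · rw [← reV_apply, ← reV_apply, h1]
  · rw [← imV_apply, ← imV_apply, h2]

private theorem seq_lemma {V : Type} [NormedAddCommGroup V] [NormedSpace ℂ V] (ν : ℂ)
    (hν : ‖ν‖ < 1) (a b : ℕ → V) (h : ∀ k, a (k + 1) = ν • a k + b k)
    (hb : Tendsto b atTop (𝓝 0)) : Tendsto a atTop (𝓝 0) := by
  rw [Metric.tendsto_atTop]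
  intro ε hε
  have h1 : 0 < ε * (1 - ‖ν‖) / 2 := by
    have : 0 < 1 - ‖ν‖ := by linarith
    positivity
  obtain ⟨K, hK⟩ := (Metric.tendsto_atTop.mp hb) _ h1
  have h2 : ∀ n : ℕ, ‖a (K + n)‖ ≤ ‖ν‖ ^ n * ‖a K‖ + ε / 2 := by
    intro n
    induction n with
    | zero => simp only [add_zero, pow_zero, one_mul]; linarith
    | succ n ih =>
      have h3 := hK (K + n) (by omega)
      rw [dist_zero_right] at h3
      have h4 : ‖a (K + (n + 1))‖ ≤ ‖ν‖ * ‖a (K + n)‖ + ‖b (K + n)‖ := by
        rw [← add_assoc, h (K + n)]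
        exact (norm_add_le _ _).trans (by rw [norm_smul])
      have h5 : ‖ν‖ * ‖a (K + n)‖ ≤ ‖ν‖ * (‖ν‖ ^ n * ‖a K‖ + ε / 2) :=
        mul_le_mul_of_nonneg_left ih (norm_nonneg _)
      calc ‖a (K + (n + 1))‖ ≤ ‖ν‖ * (‖ν‖ ^ n * ‖a K‖ + ε / 2) + ε * (1 - ‖ν‖) / 2 := by
            linarith
        _ = ‖ν‖ ^ (n + 1) * ‖a K‖ + ε / 2 := by ring
  have h6 : Tendsto (fun n : ℕ => ‖ν‖ ^ n * ‖a K‖) atTop (𝓝 0) := by
    have := (tendsto_pow_atTop_nhds_zero_of_lt_one (norm_nonneg ν) hν).mul_const ‖a K‖
    simpa using this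
  obtain ⟨N, hN⟩ := (Metric.tendsto_atTop.mp h6) (ε / 2) (half_pos hε)
  refine ⟨K + N, fun n hn => ?_⟩
  rw [dist_zero_right]
  obtain ⟨j, rfl⟩ : ∃ j, n = K + j := ⟨n - K, by omega⟩
  have h7 := hN j (by omega)
  rw [dist_zero_right, Real.norm_eq_abs] at h7
  have h8 := (abs_lt.mp h7).2
  linarith [h2 j]

private theorem fwd_zero {V : Type} [NormedAddCommGroup V] [NormedSpace ℂ V] (T : V →ₗ[ℂ] V)
    (μ : ℂ) (hμ : ‖μ‖ < 1) (N : ℕ) : ∀ w : V, ((T - μ • (1 : Module.End ℂ V)) ^ N) w = 0 →
      Tendsto (fun k : ℕ => (T ^ k) w) atTop (𝓝 0) := by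
  induction N with
  | zero =>
    intro w hw
    have : w = 0 := by simpa using hw
    simp [this]
  | succ N ih =>
    intro w hw
    rw [pow_succ] at hw
    have h1 := ih _ hw
    refine seq_lemma μ hμ _ _ (fun k => ?_) h1
    have h2 : (T - μ • (1 : Module.End ℂ V)) w = T w - μ • w := rfl
    rw [h2, map_sub, map_smul, pow_succ]
    change (T ^ k) (T w) = μ • (T ^ k) w + ((T ^ k) (T w) - μ • (T ^ k) w)
    abel

private theorem bwd_zero {V : Type} [NormedAddCommGroup V] [NormedSpace ℂ V] (T T' : V →ₗ[ℂ] V)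
    (hT : ∀ w, T' (T w) = w) (μ : ℂ) (hμ : 1 < ‖μ‖) (N : ℕ) :
    ∀ w : V, ((T - μ • (1 : Module.End ℂ V)) ^ N) w = 0 →
      Tendsto (fun k : ℕ => (T' ^ k) w) atTop (𝓝 0) := by
  have hμ0 : μ ≠ 0 := by
    intro h
    rw [h, norm_zero] at hμ
    linarith
  induction N with
  | zero =>
    intro w hw
    have : w = 0 := by simpa using hw
    simp [this]
  | succ N ih =>
    intro w hw
    rw [pow_succ] at hw
    have h1 := ih _ hw
    have h2 : (T - μ • (1 : Module.End ℂ V)) w = T w - μ • w := rfl
    have h3 : Tendsto (fun k : ℕ => -(μ⁻¹ • (T' ^ (k + 1)) (T w - μ • w))) atTop (𝓝 0) := by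
      have h4 := ((tendsto_add_atTop_iff_nat 1).mpr h1).const_smul μ⁻¹
      rw [smul_zero] at h4
      simpa using h4.neg
    refine seq_lemma μ⁻¹ ?_ _ _ (fun k => ?_) h3
    · rw [norm_inv]
      exact inv_lt_one_of_one_lt₀ hμ
    · have h5 : (T' ^ (k + 1)) (T w) = (T' ^ k) w := by
        rw [pow_succ]
        change (T' ^ k) (T' (T w)) = _
        rw [hT]
      rw [map_sub, map_smul, h5, smul_sub, smul_smul, inv_mul_cancel₀ hμ0, one_smul]
      abel

theorem isCompl_stab_unst {d : ℕ} (A : E d →L[ℝ] E d) (hA : Function.Bijective A)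
    (h : ¬ UnitEig A) : IsCompl (stabS A) (unstS A) := by
  constructor
  · rw [Submodule.disjoint_def]
    intro v hv1 hv2
    obtain ⟨C, r, hC, hr, hs, -⟩ := stab_rate A hA
    obtain ⟨w, hw0, hw1, hw2⟩ := hv2
    have h1 : ∀ k, (A ^ k) (w k) = v := by
      intro k
      induction k with
      | zero => simpa using hw0
      | succ k ih =>
        rw [pow_succ]
        change (A ^ k) (A (w (k + 1))) = v
        rw [hw1, ih]
    have h2 : ∀ k, w k ∈ stabS A := by
      intro k
      change Tendsto (fun j : ℕ => (A ^ j) (w k)) atTop (𝓝 0)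
      have h3 : Tendsto (fun j : ℕ => (A ^ j) v) atTop (𝓝 0) := hv1
      have h4 : (fun j : ℕ => (A ^ (j + k)) (w k)) = fun j : ℕ => (A ^ j) v := by
        funext j
        rw [pow_add]
        change (A ^ j) ((A ^ k) (w k)) = _
        rw [h1]
      rw [← tendsto_add_atTop_iff_nat k]
      rw [h4]
      exact h3
    have h5 : ∀ k, ‖v‖ ≤ C * ‖w k‖ := by
      intro k
      have h6 := hs k (w k) (h2 k)
      rw [h1] at h6
      have h7 : 1 * ‖v‖ ≤ r ^ k * ‖v‖ :=
        mul_le_mul_of_nonneg_right (one_le_pow₀ hr.le) (norm_nonneg _)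
      linarith
    have h8 : Tendsto (fun k => C * ‖w k‖) atTop (𝓝 0) := by
      have := (hw2.norm).const_mul C
      simpa using this
    have h9 : ‖v‖ ≤ 0 := ge_of_tendsto' h8 h5
    exact norm_le_zero_iff.mp h9
  · rw [codisjoint_iff, eq_top_iff]
    intro x _
    set T := Tc A with hT
    have hTinj : Function.Injective T := by
      rw [← LinearMap.ker_eq_bot, LinearMap.ker_eq_bot']
      intro w hw
      apply ext_re_im
      · apply hA.1
        rw [← reV_Tc, ← hT, hw]
        simp
      · apply hA.1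
        rw [← imV_Tc, ← hT, hw]
        simp
    set e := LinearEquiv.ofInjectiveEndo T hTinj with he
    set T' : (Fin d → ℂ) →ₗ[ℂ] (Fin d → ℂ) := e.symm.toLinearMap with hT'
    have hT'T : ∀ w, T' (T w) = w := fun w => e.symm_apply_apply w
    have hTT' : ∀ w, T (T' w) = w := fun w => e.apply_symm_apply w
    have hre : Continuous (reV (d := d)) := LinearMap.continuous_of_finiteDimensional _
    -- what we need for complex vectors
    have hmain : ∀ w : Fin d → ℂ, reV w ∈ stabS A ⊔ unstS A := by
      intro w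
      have hw : w ∈ ⨆ μ, Module.End.maxGenEigenspace T μ := by
        rw [Module.End.iSup_maxGenEigenspace_eq_top]
        trivial
      refine Submodule.iSup_induction _ (motive := fun w => reV w ∈ stabS A ⊔ unstS A) hw ?_ ?_ ?_
      · intro μ w hw
        obtain ⟨N, hN⟩ := (Module.End.mem_maxGenEigenspace T μ w).mp hw
        by_cases hw0 : w = 0
        · rw [hw0, map_zero]
          exact Submodule.zero_mem _
        have hker : ¬ Function.Injective (T - μ • (1 : Module.End ℂ (Fin d → ℂ))) := by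
          intro hinj
          have h1 : Function.Injective ((T - μ • (1 : Module.End ℂ (Fin d → ℂ))) ^ N) := by
            rw [Module.End.coe_pow]
            exact hinj.iterate N
          exact hw0 (h1 (by rw [hN, map_zero]))
        obtain ⟨w0, hw1, hw2⟩ : ∃ w0 : Fin d → ℂ, T w0 = μ • w0 ∧ w0 ≠ 0 := by
          by_contra hcon
          push Not at hcon
          apply hker
          rw [← LinearMap.ker_eq_bot, LinearMap.ker_eq_bot']
          intro w1 h1
          apply hcon
          have h2 : T w1 - μ • w1 = 0 := h1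
          exact sub_eq_zero.mp h2
        have hμ1 : ‖μ‖ ≠ 1 := by
          intro hμ
          apply h
          refine ⟨μ.re, μ.im, reV w0, imV w0, ?_, ?_, ?_, ?_⟩
          · have h1 := Complex.sq_norm μ
            rw [hμ, Complex.normSq_apply] at h1
            nlinarith [h1]
          · rintro ⟨h1, h2⟩
            apply hw2
            apply ext_re_im
            · rw [h1, map_zero]
            · rw [h2, map_zero]
          · rw [← reV_Tc, ← hT, hw1, reV_smul]
          · rw [← imV_Tc, ← hT, hw1, imV_smul]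
        rcases lt_or_gt_of_ne hμ1 with h1 | h1
        · have h2 := fwd_zero T μ h1 N w hN
          apply Submodule.mem_sup_left
          change Tendsto (fun k : ℕ => (A ^ k) (reV w)) atTop (𝓝 0)
          have h3 : (fun k : ℕ => (A ^ k) (reV w)) = fun k : ℕ => reV ((T ^ k) w) := by
            funext k
            induction k with
            | zero => rfl
            | succ k ih =>
              rw [pow_succ', pow_succ']
              change A ((A ^ k) (reV w)) = reV (T ((T ^ k) w))
              rw [hT, reV_Tc, ← hT, ih]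
          rw [h3]
          have h4 := (hre.tendsto 0).comp h2
          rw [map_zero] at h4
          exact h4
        · have h2 := bwd_zero T T' hT'T μ h1 N w hN
          apply Submodule.mem_sup_right
          refine ⟨fun k => reV ((T' ^ k) w), by simp, fun k => ?_, ?_⟩
          · rw [← reV_Tc, ← hT, pow_succ']
            change reV (T (T' ((T' ^ k) w))) = _
            rw [hTT']
          · have h4 := (hre.tendsto 0).comp h2
            rw [map_zero] at h4
            exact h4
      · rw [map_zero]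
        exact Submodule.zero_mem _
      · intro a b ha hb
        rw [map_add]
        exact Submodule.add_mem _ ha hb
    have h1 := hmain (fun i => (x i : ℂ))
    have h2 : reV (fun i => (x i : ℂ)) = x := by
      ext i
      simp [reV_apply]
    rwa [h2] at h1

end Pool.Agent.Helper55.OS
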