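import Pool.Agent.Helper55.OS.BaseDefs

/-!
# OS-Z21 ZeroNorm: the Riemannian norm and derivatives over a finite set

TASK. PROOFS. `tnorm_bounds_at`: `v ↦ ρ.inner x v v` is a continuous quadratic form, positive for `v ≠ 0` (`ρ.pos`); on the unit sphere of
`E d` (compact) it is between two positive constants (if the sphere is empty, `d = 0` and all vectors are `0`); homogeneity
(`ρ.inner x (a • v) (a • v) = a^2 ...`) and the square root give the bounds. `tnorm_bounds`: finitely many points, minimum and maximum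
(induction on the finite set). `bij_bounds`: a bijective linear map of `E d` satisfies `a ‖v‖ ≤ ‖A v‖ ≤ b ‖v‖` (`b = ‖A‖ + 1`; inverse
continuous), finitely many maps.
-/

open Set Topology Manifold ContDiff Filter

namespace Pool.Agent.Helper55.OS

theorem zn_form_bounds {d : ℕ} (B : E d →L[ℝ] E d →L[ℝ] ℝ) (hB : ∀ v, v ≠ 0 → 0 < B v v) :
    ∃ a b : ℝ, 0 < a ∧ 0 < b ∧ ∀ v : E d, a * ‖v‖ ≤ √(B v v) ∧ √(B v v) ≤ b * ‖v‖ := by
  have hc : Continuous (fun v : E d => B v v) := B.continuous.clm_apply continuous_id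
  have hm : ∃ m : ℝ, 0 < m ∧ ∀ u ∈ Metric.sphere (0 : E d) 1, m ≤ B u u := by
    rcases (Metric.sphere (0 : E d) 1).eq_empty_or_nonempty with h | h
    · exact ⟨1, one_pos, fun u hu => absurd hu (by rw [h]; exact Set.notMem_empty u)⟩
    · obtain ⟨u0, hu0, hmin⟩ := (isCompact_sphere (0 : E d) 1).exists_isMinOn h hc.continuousOn
      refine ⟨B u0 u0, hB u0 ?_, fun u hu => hmin hu⟩
      rintro rfl
      simp at hu0
  obtain ⟨m, hm0, hm1⟩ := hm
  refine ⟨√m, √(‖B‖ + 1), Real.sqrt_pos.2 hm0, Real.sqrt_pos.2 (by positivity), fun v => ?_⟩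
  have hv : 0 ≤ ‖v‖ := norm_nonneg v
  constructor
  · rcases eq_or_ne v 0 with rfl | hne
    · rw [norm_zero, mul_zero]
      exact Real.sqrt_nonneg _
    · have hpos : 0 < ‖v‖ := norm_pos_iff.2 hne
      have hu : (‖v‖⁻¹ • v) ∈ Metric.sphere (0 : E d) 1 := by
        rw [mem_sphere_zero_iff_norm, norm_smul, norm_inv, norm_norm, inv_mul_cancel₀ hpos.ne']
      have h1 := hm1 _ hu
      rw [map_smul, map_smul, ContinuousLinearMap.smul_apply, smul_eq_mul, smul_eq_mul] at h1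
      have h2 : m * ‖v‖ ^ 2 ≤ B v v := by
        have h3 : ‖v‖⁻¹ * (‖v‖⁻¹ * B v v) * ‖v‖ ^ 2 = B v v := by
          field_simp
        calc m * ‖v‖ ^ 2 ≤ ‖v‖⁻¹ * (‖v‖⁻¹ * B v v) * ‖v‖ ^ 2 :=
              mul_le_mul_of_nonneg_right h1 (by positivity)
          _ = B v v := h3
      calc √m * ‖v‖ = √(m * ‖v‖ ^ 2) := by rw [Real.sqrt_mul hm0.le, Real.sqrt_sq hv]
        _ ≤ √(B v v) := Real.sqrt_le_sqrt h2
  · have h1 : B v v ≤ (‖B‖ + 1) * ‖v‖ ^ 2 := by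
      have h2 := B.le_opNorm₂ v v
      have h3 := Real.le_norm_self (B v v)
      nlinarith [sq_nonneg ‖v‖]
    calc √(B v v) ≤ √((‖B‖ + 1) * ‖v‖ ^ 2) := Real.sqrt_le_sqrt h1
      _ = √(‖B‖ + 1) * ‖v‖ := by rw [Real.sqrt_mul (by positivity), Real.sqrt_sq hv]

theorem zn_fin {d : ℕ} {ι : Type} (I : Set ι) (hI : I.Finite) (N : ι → E d → ℝ)
    (h : ∀ i ∈ I, ∃ a b : ℝ, 0 < a ∧ 0 < b ∧ ∀ v : E d, a * ‖v‖ ≤ N i v ∧ N i v ≤ b * ‖v‖) :
    ∃ a b : ℝ, 0 < a ∧ 0 < b ∧ ∀ i ∈ I, ∀ v : E d, a * ‖v‖ ≤ N i v ∧ N i v ≤ b * ‖v‖ := by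
  induction I, hI using Set.Finite.induction_on with
  | empty => exact ⟨1, 1, one_pos, one_pos, fun i hi => absurd hi (Set.notMem_empty i)⟩
  | @insert j I _ _ ih =>
    obtain ⟨a, b, ha, hb, h1⟩ := ih (fun i hi => h i (Set.mem_insert_of_mem _ hi))
    obtain ⟨a', b', ha', hb', h2⟩ := h j (Set.mem_insert _ _)
    refine ⟨min a a', max b b', lt_min ha ha', lt_max_of_lt_left hb, fun i hi v => ?_⟩
    have hv := norm_nonneg v
    rcases Set.mem_insert_iff.1 hi with rfl | hi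
    · exact ⟨(mul_le_mul_of_nonneg_right (min_le_right _ _) hv).trans (h2 v).1,
        (h2 v).2.trans (mul_le_mul_of_nonneg_right (le_max_right _ _) hv)⟩
    · exact ⟨(mul_le_mul_of_nonneg_right (min_le_left _ _) hv).trans (h1 i hi v).1,
        (h1 i hi v).2.trans (mul_le_mul_of_nonneg_right (le_max_left _ _) hv)⟩

theorem tnorm_bounds {d : ℕ} {M : Type} [TopologicalSpace M] [ChartedSpace (E d) M]
    [IsManifold (𝓡 d) ∞ M] (ρ : Metric d M) (Λ : Set M) (hΛ : Λ.Finite) :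
    ∃ a b : ℝ, 0 < a ∧ 0 < b ∧ ∀ x ∈ Λ, ∀ v : E d,
      a * ‖v‖ ≤ tnorm ρ x v ∧ tnorm ρ x v ≤ b * ‖v‖ := by
  refine zn_fin Λ hΛ (fun x v => tnorm ρ x v) (fun x _ => ?_)
  exact zn_form_bounds (ρ.inner x) (fun v hv => ρ.pos x v hv)

theorem bij_bounds {d : ℕ} {ι : Type} (I : Set ι) (hI : I.Finite) (A : ι → (E d →L[ℝ] E d))
    (hA : ∀ i ∈ I, Function.Bijective (A i)) :
    ∃ a b : ℝ, 0 < a ∧ 0 < b ∧ ∀ i ∈ I, ∀ v : E d, a * ‖v‖ ≤ ‖A i v‖ ∧ ‖A i v‖ ≤ b * ‖v‖ := by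
  refine zn_fin I hI (fun i v => ‖A i v‖) (fun i hi => ?_)
  obtain ⟨K, hK, hK'⟩ := LinearMap.exists_antilipschitzWith ((A i : E d →ₗ[ℝ] E d))
    (LinearMap.ker_eq_bot.2 (hA i hi).1)
  have hK0 : (0:ℝ) < (K : ℝ) := hK
  refine ⟨(K : ℝ)⁻¹, ‖A i‖ + 1, inv_pos.2 hK0, by positivity, fun v => ⟨?_, ?_⟩⟩
  · have h1 := hK'.le_mul_dist v 0
    rw [map_zero, dist_zero_right, dist_zero_right] at h1
    rw [inv_mul_le_iff₀ hK0]
    exact h1
  · have h1 := (A i).le_opNorm v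
    have h2 := norm_nonneg v
    nlinarith

end Pool.Agent.Helper55.OS
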