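import Pool.Agent.Helper55.OS.BaseDefs

/-!
# OS-Z19 ZeroStab: the stable and the unstable subspace of a linear map

`stabS A`: the vectors `v` with `A^k v → 0`. `unstS A`: the vectors with a backward orbit that tends to `0`.
`stab_map`, `unst_map` are proved (intertwining). TASK: `stab_rate`. PROOF. (1) `V = stabS A` is invariant under `A` and finite
dimensional. Take a basis `b` of `V`; for `v ∈ V` `‖A^k v‖ ≤ ∑ |b.repr v i| ‖A^k (b i)‖ ≤ c (∑ ‖A^k (b i)‖) ‖v‖` with a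
constant `c` (the coordinates are continuous linear functionals), and the bracket tends to `0`. So there is `N ≥ 1` with
`‖A^N v‖ ≤ ‖v‖ / 2` for all `v ∈ V`. (2) For `k = N j + i`, `i < N`: `‖A^k v‖ ≤ D 2^{-j} ‖v‖`, `D = ∑_{i<N} ‖A^i‖ + 1`. Choose `r > 1` with
`r^N ≤ 2` (e.g. `r = 1 + 1/(N 2^N)` or continuity of `x ↦ x^N` at `1`): `r^k ≤ 2^(j+1)`, so `r^k ‖A^k v‖ ≤ 2 D ‖v‖`.
(3) Unstable part: `A` is bijective; let `A' = A⁻¹` (continuous, `ContinuousLinearEquiv.ofBijective` or finite dimension). The backward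
orbit of `v ∈ unstS A` is `A'^k v`, so `unstS A = stabS A'`, and for `v ∈ unstS A` also `A^k v ∈ unstS A`, so by (2) for `A'`:
`r^k ‖v‖ = r^k ‖A'^k (A^k v)‖ ≤ C ‖A^k v‖`. Take the minimum of the two `r` and the maximum of the two `C`.
-/

open Set Topology Filter

namespace Pool.Agent.Helper55.OS

/-- The vectors whose forward orbit tends to zero. -/
def stabS {d : ℕ} (A : E d →L[ℝ] E d) : Submodule ℝ (E d) where
  carrier := {v | Tendsto (fun k : ℕ => (A ^ k) v) atTop (𝓝 0)}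
  add_mem' := by
    intro a b ha hb
    have h : Tendsto (fun k : ℕ => (A ^ k) a + (A ^ k) b) atTop (𝓝 (0 + 0)) :=
      Filter.Tendsto.add ha hb
    simpa using h
  zero_mem' := by simp
  smul_mem' := by
    intro c a ha
    have h : Tendsto (fun k : ℕ => c • (A ^ k) a) atTop (𝓝 (c • 0)) := Filter.Tendsto.const_smul ha c
    change Tendsto (fun k : ℕ => (A ^ k) (c • a)) atTop (𝓝 0)
    simpa only [map_smul, smul_zero] using h

/-- The vectors with a backward orbit tending to zero. -/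
def unstS {d : ℕ} (A : E d →L[ℝ] E d) : Submodule ℝ (E d) where
  carrier := {v | ∃ w : ℕ → E d, w 0 = v ∧ (∀ k, A (w (k + 1)) = w k) ∧ Tendsto w atTop (𝓝 0)}
  add_mem' := by
    rintro a b ⟨w, h1, h2, h3⟩ ⟨w', h1', h2', h3'⟩
    refine ⟨fun k => w k + w' k, by simp [h1, h1'], fun k => by simp [h2, h2'], ?_⟩
    simpa using h3.add h3'
  zero_mem' := ⟨fun _ => 0, rfl, fun _ => by simp, tendsto_const_nhds⟩
  smul_mem' := by
    rintro c a ⟨w, h1, h2, h3⟩
    refine ⟨fun k => c • w k, by simp [h1], fun k => by simp [h2], ?_⟩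
    simpa using h3.const_smul c

theorem pow_intertwine {d : ℕ} (A B D : E d →L[ℝ] E d) (h : B.comp D = D.comp A) (k : ℕ)
    (v : E d) : (B ^ k) (D v) = D ((A ^ k) v) := by
  induction k with
  | zero => simp
  | succ k ih =>
    have h1 : ∀ x, B (D x) = D (A x) := fun x => DFunLike.congr_fun h x
    rw [pow_succ', pow_succ']
    change B ((B ^ k) (D v)) = D (A ((A ^ k) v))
    rw [ih, h1]

theorem stab_map {d : ℕ} (A B D : E d →L[ℝ] E d) (h : B.comp D = D.comp A) (v : E d)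
    (hv : v ∈ stabS A) : D v ∈ stabS B := by
  have h1 : Tendsto (fun k : ℕ => D ((A ^ k) v)) atTop (𝓝 (D 0)) :=
    (D.continuous.tendsto 0).comp hv
  rw [map_zero] at h1
  change Tendsto (fun k : ℕ => (B ^ k) (D v)) atTop (𝓝 0)
  simpa only [pow_intertwine A B D h] using h1

theorem unst_map {d : ℕ} (A B D : E d →L[ℝ] E d) (h : B.comp D = D.comp A) (v : E d)
    (hv : v ∈ unstS A) : D v ∈ unstS B := by
  obtain ⟨w, h1, h2, h3⟩ := hv
  have h0 : ∀ x, B (D x) = D (A x) := fun x => DFunLike.congr_fun h x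
  refine ⟨fun k => D (w k), by simp [h1], fun k => ?_, ?_⟩
  · rw [h0, h2]
  · have h4 : Tendsto (fun k : ℕ => D (w k)) atTop (𝓝 (D 0)) := (D.continuous.tendsto 0).comp h3
    rwa [map_zero] at h4

private theorem st_pow_mem {d : ℕ} (A : E d →L[ℝ] E d) (m : ℕ) (v : E d) (hv : v ∈ stabS A) :
    (A ^ m) v ∈ stabS A := by
  have h : A.comp (A ^ m) = (A ^ m).comp A := by
    change A * A ^ m = A ^ m * A
    rw [← pow_succ', pow_succ]
  exact stab_map A A (A ^ m) h v hv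

private theorem st_half {d : ℕ} (A : E d →L[ℝ] E d) :
    ∃ N : ℕ, 1 ≤ N ∧ ∀ v ∈ stabS A, ‖(A ^ N) v‖ ≤ 1 / 2 * ‖v‖ := by
  obtain ⟨c, hc, hb⟩ := (Module.finBasis ℝ (stabS A)).exists_opNorm_le (F := E d)
  have h1 : ∀ i, ∀ᶠ k : ℕ in atTop, ‖(A ^ k) ((Module.finBasis ℝ (stabS A) i : stabS A) : E d)‖ ≤
      1 / (2 * c) := by
    intro i
    have h2 : Tendsto (fun k : ℕ => (A ^ k) ((Module.finBasis ℝ (stabS A) i : stabS A) : E d))
        atTop (𝓝 0) := (Module.finBasis ℝ (stabS A) i).2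
    have h3 := h2.norm
    rw [norm_zero] at h3
    exact h3.eventually_le_const (by positivity)
  have h4 := eventually_all.2 h1
  obtain ⟨N, hN, hN1⟩ := (h4.and (eventually_ge_atTop 1)).exists
  refine ⟨N, hN1, fun v hv => ?_⟩
  have h5 := hb (u := (A ^ N).comp (stabS A).subtypeL) (M := 1 / (2 * c)) (by positivity)
    (fun i => hN i)
  have h6 : c * (1 / (2 * c)) = 1 / 2 := by field_simp
  rw [h6] at h5
  have h7 := ((A ^ N).comp (stabS A).subtypeL).le_opNorm ⟨v, hv⟩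
  exact h7.trans (mul_le_mul_of_nonneg_right h5 (norm_nonneg _))

private theorem st_rate {d : ℕ} (A : E d →L[ℝ] E d) :
    ∃ C r : ℝ, 0 < C ∧ 1 < r ∧ ∀ k : ℕ, ∀ v ∈ stabS A, r ^ k * ‖(A ^ k) v‖ ≤ C * ‖v‖ := by
  obtain ⟨N, hN1, hN⟩ := st_half A
  have hN0 : N ≠ 0 := by omega
  obtain ⟨r, hr⟩ : ∃ r : ℝ, r = (2 : ℝ) ^ ((N : ℝ)⁻¹) := ⟨_, rfl⟩
  have hrN : r ^ N = 2 := by
    rw [hr]
    exact Real.rpow_inv_natCast_pow (by norm_num) hN0
  have hr1 : 1 < r := by
    rw [hr]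
    exact Real.one_lt_rpow (by norm_num) (inv_pos.2 (by exact_mod_cast hN1))
  have hr0 : 0 < r := by linarith
  have hj : ∀ j : ℕ, ∀ v ∈ stabS A, 2 ^ j * ‖(A ^ (N * j)) v‖ ≤ ‖v‖ := by
    intro j
    induction j with
    | zero => intro v _; simp
    | succ j ih =>
      intro v hv
      have e : (A ^ (N * (j + 1))) v = (A ^ N) ((A ^ (N * j)) v) := by
        have e1 : N * (j + 1) = N + N * j := by ring
        rw [e1, pow_add]
        rfl
      rw [e]
      have h1 := hN _ (st_pow_mem A (N * j) v hv)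
      have h2 := ih v hv
      have h3 : (0 : ℝ) < 2 ^ j := by positivity
      calc (2 : ℝ) ^ (j + 1) * ‖(A ^ N) ((A ^ (N * j)) v)‖
          ≤ 2 ^ (j + 1) * (1 / 2 * ‖(A ^ (N * j)) v‖) :=
            mul_le_mul_of_nonneg_left h1 (by positivity)
        _ = 2 ^ j * ‖(A ^ (N * j)) v‖ := by ring
        _ ≤ ‖v‖ := h2
  refine ⟨∑ i ∈ Finset.range N, r ^ i * ‖A ^ i‖ + 1, r, ?_, hr1, ?_⟩
  · have : 0 ≤ ∑ i ∈ Finset.range N, r ^ i * ‖A ^ i‖ :=
      Finset.sum_nonneg fun i _ => by positivity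
    linarith
  · intro k v hv
    have hk : k = k % N + N * (k / N) := (Nat.mod_add_div k N).symm
    have hmod : k % N < N := Nat.mod_lt _ (by omega)
    have e : (A ^ k) v = (A ^ (k % N)) ((A ^ (N * (k / N))) v) := by
      conv_lhs => rw [hk, pow_add]
      rfl
    have e2 : r ^ k = r ^ (k % N) * 2 ^ (k / N) := by
      conv_lhs => rw [hk, pow_add, pow_mul, hrN]
    have h1 := (A ^ (k % N)).le_opNorm ((A ^ (N * (k / N))) v)
    have h2 := hj (k / N) v hv
    have h3 : r ^ (k % N) * ‖A ^ (k % N)‖ ≤ ∑ i ∈ Finset.range N, r ^ i * ‖A ^ i‖ :=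
      Finset.single_le_sum (f := fun i => r ^ i * ‖A ^ i‖) (fun i _ => by positivity)
        (Finset.mem_range.2 hmod)
    rw [e, e2]
    calc r ^ (k % N) * 2 ^ (k / N) * ‖(A ^ (k % N)) ((A ^ (N * (k / N))) v)‖
        ≤ r ^ (k % N) * 2 ^ (k / N) * (‖A ^ (k % N)‖ * ‖(A ^ (N * (k / N))) v‖) :=
          mul_le_mul_of_nonneg_left h1 (by positivity)
      _ = r ^ (k % N) * ‖A ^ (k % N)‖ * (2 ^ (k / N) * ‖(A ^ (N * (k / N))) v‖) := by ring
      _ ≤ r ^ (k % N) * ‖A ^ (k % N)‖ * ‖v‖ := mul_le_mul_of_nonneg_left h2 (by positivity)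
      _ ≤ (∑ i ∈ Finset.range N, r ^ i * ‖A ^ i‖ + 1) * ‖v‖ :=
          mul_le_mul_of_nonneg_right (by linarith) (norm_nonneg _)

theorem stab_rate {d : ℕ} (A : E d →L[ℝ] E d) (hA : Function.Bijective A) :
    ∃ C r : ℝ, 0 < C ∧ 1 < r ∧
      (∀ k : ℕ, ∀ v ∈ stabS A, r ^ k * ‖(A ^ k) v‖ ≤ C * ‖v‖) ∧
      (∀ k : ℕ, ∀ v ∈ unstS A, r ^ k * ‖v‖ ≤ C * ‖(A ^ k) v‖) := by
  obtain ⟨e, he⟩ : ∃ e : E d ≃L[ℝ] E d, ∀ v, e v = A v :=
    ⟨(LinearEquiv.ofBijective (A : E d →ₗ[ℝ] E d) hA).toContinuousLinearEquiv, fun v => rfl⟩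
  obtain ⟨A', hA'⟩ : ∃ A' : E d →L[ℝ] E d, A' = (e.symm : E d →L[ℝ] E d) := ⟨_, rfl⟩
  have h1 : ∀ v, A' (A v) = v := by
    intro v
    rw [hA', ← he]
    exact e.symm_apply_apply v
  have h2 : ∀ v, A (A' v) = v := by
    intro v
    rw [hA', ← he]
    exact e.apply_symm_apply v
  have hcomm : A'.comp A = A.comp A' := by
    ext1 v
    change A' (A v) = A (A' v)
    rw [h1, h2]
  have hpow : ∀ (k : ℕ) (v : E d), (A' ^ k) ((A ^ k) v) = v := by
    intro k
    induction k with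
    | zero => intro v; simp
    | succ k ih =>
      intro v
      rw [pow_succ, pow_succ']
      change (A' ^ k) (A' (A ((A ^ k) v))) = v
      rw [h1, ih]
  have hun : ∀ v ∈ unstS A, v ∈ stabS A' := by
    rintro v ⟨w, hw0, hw, hlim⟩
    have h3 : ∀ k, (A' ^ k) v = w k := by
      intro k
      induction k with
      | zero => simp [hw0]
      | succ k ih =>
        rw [pow_succ']
        change A' ((A' ^ k) v) = w (k + 1)
        rw [ih, ← hw k, h1]
    change Tendsto (fun k : ℕ => (A' ^ k) v) atTop (𝓝 0)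
    simpa only [h3] using hlim
  have hmem : ∀ (k : ℕ) (v : E d), v ∈ stabS A' → (A ^ k) v ∈ stabS A' := by
    intro k
    induction k with
    | zero => intro v hv; simpa using hv
    | succ k ih =>
      intro v hv
      rw [pow_succ']
      exact stab_map A' A' A hcomm _ (ih v hv)
  obtain ⟨C1, r1, hC1, hr1, hs1⟩ := st_rate A
  obtain ⟨C2, r2, hC2, hr2, hs2⟩ := st_rate A'
  have hr0 : 0 ≤ min r1 r2 := le_min (by linarith) (by linarith)
  refine ⟨max C1 C2, min r1 r2, lt_max_of_lt_left hC1, lt_min hr1 hr2, ?_, ?_⟩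
  · intro k v hv
    calc min r1 r2 ^ k * ‖(A ^ k) v‖ ≤ r1 ^ k * ‖(A ^ k) v‖ :=
          mul_le_mul_of_nonneg_right (pow_le_pow_left₀ hr0 (min_le_left _ _) k) (norm_nonneg _)
      _ ≤ C1 * ‖v‖ := hs1 k v hv
      _ ≤ max C1 C2 * ‖v‖ := mul_le_mul_of_nonneg_right (le_max_left _ _) (norm_nonneg _)
  · intro k v hv
    have h3 := hs2 k _ (hmem k v (hun v hv))
    rw [hpow] at h3
    calc min r1 r2 ^ k * ‖v‖ ≤ r2 ^ k * ‖v‖ :=
          mul_le_mul_of_nonneg_right (pow_le_pow_left₀ hr0 (min_le_right _ _) k) (norm_nonneg _)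
      _ ≤ C2 * ‖(A ^ k) v‖ := h3
      _ ≤ max C1 C2 * ‖(A ^ k) v‖ := mul_le_mul_of_nonneg_right (le_max_right _ _) (norm_nonneg _)

end Pool.Agent.Helper55.OS
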