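import Pool.Agent.Helper55.OS.ZeroChain
import Pool.Agent.Helper55.OS.ZeroStab
import Pool.Agent.Helper55.OS.ZeroNorm

/-!
# OS-Z22 ZeroOrb: the rates over a finite invariant set

`Λ` finite, `f (Λ) ⊆ Λ`, `f.symm (Λ) ⊆ Λ`, all points of `Λ` are fixed by `f^[m]`; `A x = dn f m x`.
TASK. PROOF. `stab_rate` for each of the finitely many `A x` (bijective by `dn_bijective`) gives common `C` and `r > 1` (the rates stay
true for a smaller `r > 1` and a larger `C`; norms are nonnegative). Choose `r' > 1` with `r'^m ≤ r`. Constants: `a, b` of `tnorm_bounds`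
for `Λ`, and `a', b'` of `bij_bounds` for the maps `dn f j x`, `j < m`, `x ∈ Λ`. Let `n = m k + j`, `j < m` (`Nat.div_add_mod`). Then
`dn f n x = (dn f j x).comp ((A x)^k)` (`dn_add`, `dn_mul`, `f^[m k] x = x`).
Unstable: `tnorm (f^[n] x) (dn f n x v) ≥ a ‖dn f j x ((A x)^k v)‖ ≥ a a' ‖(A x)^k v‖ ≥ a a' C⁻¹ r^k ‖v‖ ≥ a a' C⁻¹ b⁻¹ r^k tnorm x v` and
`r^k ≥ r'^(m k) ≥ r'^n r'^(-m)`.
Stable: let `y = f.symm^[n] x ∈ Λ` and `w = D (f.symm^[n]) x v` (`D` = `mfderiv`). Then `f^[n] y = x` and `dn f n y w = v` (chain rule: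
`f^[n] ∘ f.symm^[n] = id`). `w ∈ stabS (A y)`: by `stab_map` with `D (f.symm^[n]) x` as intertwiner, since
`f^[m] ∘ f.symm^[n] = f.symm^[n] ∘ f^[m]`, differentiated at `x` (`f^[m] x = x`), and `v ∈ stabS (A x)`. So with the stable rate of `A y`:
`‖v‖ = ‖dn f j y ((A y)^k w)‖ ≤ b' ‖(A y)^k w‖ ≤ b' C r^{-k} ‖w‖`, and compare with `tnorm` as before.
(The maps `mfderiv` of `f^[n]` are `dn f n` by definition; `f.symm^[n]` is smooth by `contMDiff_iter f.symm n`.)
-/

open Set Topology Manifold ContDiff Filter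

namespace Pool.Agent.Helper55.OS

variable {d : ℕ} {M : Type} [TopologicalSpace M] [ChartedSpace (E d) M] [IsManifold (𝓡 d) ∞ M]

omit [TopologicalSpace M] [ChartedSpace (E d) M] [IsManifold (𝓡 d) ∞ M] in
private theorem orb_unif (A : M → (E d →L[ℝ] E d)) (hA : ∀ x, Function.Bijective (A x))
    (Λ : Set M) (hfin : Λ.Finite) :
    ∃ C r : ℝ, 0 < C ∧ 1 < r ∧ ∀ x ∈ Λ,
      (∀ k : ℕ, ∀ v ∈ stabS (A x), r ^ k * ‖(A x ^ k) v‖ ≤ C * ‖v‖) ∧
      (∀ k : ℕ, ∀ v ∈ unstS (A x), r ^ k * ‖v‖ ≤ C * ‖(A x ^ k) v‖) := by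
  induction Λ, hfin using Set.Finite.induction_on with
  | empty => exact ⟨1, 2, one_pos, one_lt_two, fun x hx => absurd hx (Set.notMem_empty x)⟩
  | @insert a s _ _ ih =>
    obtain ⟨C1, r1, hC1, hr1, h1⟩ := ih
    obtain ⟨C2, r2, hC2, hr2, h2, h3⟩ := stab_rate (A a) (hA a)
    have hr0 : 0 ≤ min r1 r2 := le_min (by linarith) (by linarith)
    refine ⟨max C1 C2, min r1 r2, lt_max_of_lt_left hC1, lt_min hr1 hr2, ?_⟩
    have e1 : ∀ (k : ℕ) (t : ℝ), 0 ≤ t → min r1 r2 ^ k * t ≤ r1 ^ k * t := fun k t ht =>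
      mul_le_mul_of_nonneg_right (pow_le_pow_left₀ hr0 (min_le_left _ _) k) ht
    have e2 : ∀ (k : ℕ) (t : ℝ), 0 ≤ t → min r1 r2 ^ k * t ≤ r2 ^ k * t := fun k t ht =>
      mul_le_mul_of_nonneg_right (pow_le_pow_left₀ hr0 (min_le_right _ _) k) ht
    have e3 : ∀ t : ℝ, 0 ≤ t → C1 * t ≤ max C1 C2 * t := fun t ht =>
      mul_le_mul_of_nonneg_right (le_max_left _ _) ht
    have e4 : ∀ t : ℝ, 0 ≤ t → C2 * t ≤ max C1 C2 * t := fun t ht =>
      mul_le_mul_of_nonneg_right (le_max_right _ _) ht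
    rintro x (rfl | hx)
    · exact ⟨fun k v hv => (e2 k _ (norm_nonneg _)).trans ((h2 k v hv).trans
        (e4 _ (norm_nonneg _))), fun k v hv => (e2 k _ (norm_nonneg _)).trans
        ((h3 k v hv).trans (e4 _ (norm_nonneg _)))⟩
    · exact ⟨fun k v hv => (e1 k _ (norm_nonneg _)).trans (((h1 x hx).1 k v hv).trans
        (e3 _ (norm_nonneg _))), fun k v hv => (e1 k _ (norm_nonneg _)).trans
        (((h1 x hx).2 k v hv).trans (e3 _ (norm_nonneg _)))⟩

omit [IsManifold (𝓡 d) ∞ M] in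
private theorem orb_chain (g h : M → M) (hg : ContMDiff (𝓡 d) (𝓡 d) ∞ g)
    (hh : ContMDiff (𝓡 d) (𝓡 d) ∞ h) (x : M) :
    df (d := d) (g ∘ h) x = (df (d := d) g (h x)).comp (df (d := d) h x) :=
  mfderiv_comp x (hg.mdifferentiable (by simp) _) (hh.mdifferentiable (by simp) _)

private theorem orb_split (f : Dif d M) (m n : ℕ) (x : M) (hx : (f : M → M)^[m] x = x) (v : E d) :
    dn (d := d) (f : M → M) n x v =
      dn (d := d) (f : M → M) (n % m) x ((dn (d := d) (f : M → M) m x ^ (n / m)) v) := by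
  have h1 : (f : M → M)^[m * (n / m)] x = x := by
    rw [Function.iterate_mul]
    exact Function.iterate_fixed hx _
  have h2 : dn (d := d) (f : M → M) n x = dn (d := d) (f : M → M) (n % m + m * (n / m)) x := by
    rw [Nat.mod_add_div]
  rw [h2, dn_add, h1, dn_mul f m (n / m) x hx]
  rfl

omit [IsManifold (𝓡 d) ∞ M] in
private theorem orb_symm_left (f : Dif d M) (n : ℕ) (x : M) :
    (f : M → M)^[n] ((f.symm : M → M)^[n] x) = x :=
  Function.LeftInverse.iterate (fun y => f.apply_symm_apply y) n x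

private theorem orb_symm_dn (f : Dif d M) (n : ℕ) (x : M) (v : E d) :
    dn (d := d) (f : M → M) n ((f.symm : M → M)^[n] x) (dn (d := d) (f.symm : M → M) n x v) =
      v := by
  have h1 := orb_chain ((f : M → M)^[n]) ((f.symm : M → M)^[n]) (contMDiff_iter f n)
    (contMDiff_iter f.symm n) x
  have h2 : (f : M → M)^[n] ∘ (f.symm : M → M)^[n] = id := by
    funext y
    exact orb_symm_left f n y
  rw [h2] at h1
  have h3 : df (d := d) (id : M → M) x = ContinuousLinearMap.id ℝ (E d) := mfderiv_id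
  rw [h3] at h1
  exact (DFunLike.congr_fun h1 v).symm

private theorem orb_symm_comm (f : Dif d M) (m n : ℕ) (x : M) (hx : (f : M → M)^[m] x = x) :
    (f : M → M)^[m] ((f.symm : M → M)^[n] x) = (f.symm : M → M)^[n] x ∧
      (dn (d := d) (f : M → M) m ((f.symm : M → M)^[n] x)).comp
        (dn (d := d) (f.symm : M → M) n x) =
      (dn (d := d) (f.symm : M → M) n x).comp (dn (d := d) (f : M → M) m x) := by
  have hc : Function.Commute (f : M → M) (f.symm : M → M) := fun y => by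
    rw [f.apply_symm_apply, f.symm_apply_apply]
  have hc' := hc.iterate_iterate m n
  refine ⟨by rw [hc' x, hx], ?_⟩
  have h1 := orb_chain ((f : M → M)^[m]) ((f.symm : M → M)^[n]) (contMDiff_iter f m)
    (contMDiff_iter f.symm n) x
  have h2 := orb_chain ((f.symm : M → M)^[n]) ((f : M → M)^[m]) (contMDiff_iter f.symm n)
    (contMDiff_iter f m) x
  have h3 : (f : M → M)^[m] ∘ (f.symm : M → M)^[n] = (f.symm : M → M)^[n] ∘ (f : M → M)^[m] :=
    funext hc'
  rw [h3, h2, hx] at h1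
  exact h1.symm

theorem orb_rates (ρ : Metric d M) (f : Dif d M) (m : ℕ) (hm : 1 ≤ m) (Λ : Set M)
    (hfin : Λ.Finite) (hinv : ∀ x ∈ Λ, f x ∈ Λ) (hinv' : ∀ x ∈ Λ, f.symm x ∈ Λ)
    (hper : ∀ x ∈ Λ, (f : M → M)^[m] x = x) :
    ∃ c r : ℝ, 0 < c ∧ 1 < r ∧ ∀ x ∈ Λ, ∀ n : ℕ,
      (∀ v : E d, v ∈ unstS (dn (d := d) (f : M → M) m x) → c * r ^ n * tnorm ρ x v ≤
        tnorm ρ ((f : M → M)^[n] x) (mfderiv (𝓡 d) (𝓡 d) (f : M → M)^[n] x v)) ∧
      (∀ v : E d, v ∈ stabS (dn (d := d) (f : M → M) m x) → c * r ^ n * tnorm ρ x v ≤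
        tnorm ρ ((f.symm : M → M)^[n] x) (mfderiv (𝓡 d) (𝓡 d) (f.symm : M → M)^[n] x v)) := by
  obtain ⟨C, r, hC, hr, hrate⟩ := orb_unif (fun x => dn (d := d) (f : M → M) m x)
    (fun x => dn_bijective f m x) Λ hfin
  obtain ⟨a, b, ha, hb, hab⟩ := tnorm_bounds ρ Λ hfin
  obtain ⟨a', b', ha', hb', hab'⟩ := bij_bounds (Set.Iio m ×ˢ Λ) ((Set.finite_Iio m).prod hfin)
    (fun i : ℕ × M => dn (d := d) (f : M → M) i.1 i.2) (fun i _ => dn_bijective f i.1 i.2)
  have hm0 : m ≠ 0 := by omega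
  obtain ⟨R, hR⟩ : ∃ R : ℝ, R = r ^ ((m : ℝ)⁻¹) := ⟨_, rfl⟩
  have hRm : R ^ m = r := by
    rw [hR]
    exact Real.rpow_inv_natCast_pow (by linarith) hm0
  have hR1 : 1 < R := by
    rw [hR]
    exact Real.one_lt_rpow hr (inv_pos.2 (by exact_mod_cast hm))
  have hR0 : 0 < R := by linarith
  have hpow : ∀ n : ℕ, R ^ n ≤ r * r ^ (n / m) := by
    intro n
    have h1 : R ^ n = R ^ (n % m) * r ^ (n / m) := by
      conv_lhs => rw [← Nat.mod_add_div n m, pow_add, pow_mul, hRm]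
    have h2 : R ^ (n % m) ≤ r := by
      rw [← hRm]
      exact pow_le_pow_right₀ hR1.le (Nat.mod_lt n (by omega)).le
    rw [h1]
    exact mul_le_mul_of_nonneg_right h2 (by positivity)
  have hr0 : 0 < r := by linarith
  have hmod : ∀ n : ℕ, n % m ∈ Set.Iio m := fun n => Nat.mod_lt n (by omega)
  refine ⟨min (a * a' / (C * b * r)) (a / (b' * C * b * r)), R,
    lt_min (by positivity) (by positivity), hR1, fun x hx n => ⟨fun v hv => ?_, fun v hv => ?_⟩⟩
  · -- the unstable direction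
    have hfx : (f : M → M)^[n] x ∈ Λ := Set.MapsTo.iterate (f := f) hinv n hx
    have h1 := (hab _ hfx (dn (d := d) (f : M → M) n x v)).1
    have h2 := (hab x hx v).2
    have h3 := (hab' (n % m, x) ⟨hmod n, hx⟩
      ((dn (d := d) (f : M → M) m x ^ (n / m)) v)).1
    have h4 := (hrate x hx).2 (n / m) v hv
    have h5 := orb_split f m n x (hper x hx) v
    have h6 := hpow n
    show _ ≤ tnorm ρ ((f : M → M)^[n] x) (dn (d := d) (f : M → M) n x v)
    have ht : 0 ≤ tnorm ρ x v := Real.sqrt_nonneg _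
    have h3' : a' * ‖(dn (d := d) (f : M → M) m x ^ (n / m)) v‖ ≤
        ‖dn (d := d) (f : M → M) n x v‖ := by
      rw [h5]
      exact h3
    calc min (a * a' / (C * b * r)) (a / (b' * C * b * r)) * R ^ n * tnorm ρ x v
        ≤ (a * a' / (C * b * r)) * (r * r ^ (n / m)) * (b * ‖v‖) := by
          gcongr
          exact min_le_left _ _
      _ = a * a' * (r ^ (n / m) * ‖v‖) / C := by
          field_simp
      _ ≤ a * a' * (C * ‖(dn (d := d) (f : M → M) m x ^ (n / m)) v‖) / C := by gcongr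
      _ = a * (a' * ‖(dn (d := d) (f : M → M) m x ^ (n / m)) v‖) := by
          field_simp
      _ ≤ a * ‖dn (d := d) (f : M → M) n x v‖ := by gcongr
      _ ≤ _ := h1
  · -- the stable direction
    have hy : (f.symm : M → M)^[n] x ∈ Λ := Set.MapsTo.iterate (f := f.symm) hinv' n hx
    obtain ⟨hc1, hc2⟩ := orb_symm_comm f m n x (hper x hx)
    have hw : dn (d := d) (f.symm : M → M) n x v ∈
        stabS (dn (d := d) (f : M → M) m ((f.symm : M → M)^[n] x)) := stab_map _ _ _ hc2 v hv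
    have h1 := (hab _ hy (dn (d := d) (f.symm : M → M) n x v)).1
    have h2 := (hab x hx v).2
    have h3 := (hab' (n % m, (f.symm : M → M)^[n] x) ⟨hmod n, hy⟩
      ((dn (d := d) (f : M → M) m ((f.symm : M → M)^[n] x) ^ (n / m))
        (dn (d := d) (f.symm : M → M) n x v))).2
    have h4 := (hrate _ hy).1 (n / m) _ hw
    have h5 := orb_split f m n _ hc1 (dn (d := d) (f.symm : M → M) n x v)
    rw [orb_symm_dn] at h5
    have h6 := hpow n
    show _ ≤ tnorm ρ ((f.symm : M → M)^[n] x) (dn (d := d) (f.symm : M → M) n x v)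
    have ht : 0 ≤ tnorm ρ x v := Real.sqrt_nonneg _
    have h3' : ‖v‖ ≤ b' * ‖(dn (d := d) (f : M → M) m ((f.symm : M → M)^[n] x) ^ (n / m))
        (dn (d := d) (f.symm : M → M) n x v)‖ := (congrArg norm h5).le.trans h3
    calc min (a * a' / (C * b * r)) (a / (b' * C * b * r)) * R ^ n * tnorm ρ x v
        ≤ (a / (b' * C * b * r)) * (r * r ^ (n / m)) * (b * ‖v‖) := by
          gcongr
          exact min_le_right _ _
      _ = a * (r ^ (n / m) * ‖v‖) / (b' * C) := by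
          field_simp
      _ ≤ a * (r ^ (n / m) * (b' *
            ‖(dn (d := d) (f : M → M) m ((f.symm : M → M)^[n] x) ^ (n / m))
              (dn (d := d) (f.symm : M → M) n x v)‖)) / (b' * C) := by gcongr
      _ = a * (r ^ (n / m) *
            ‖(dn (d := d) (f : M → M) m ((f.symm : M → M)^[n] x) ^ (n / m))
              (dn (d := d) (f.symm : M → M) n x v)‖) / C := by
          field_simp
      _ ≤ a * (C * ‖dn (d := d) (f.symm : M → M) n x v‖) / C := by gcongr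
      _ = a * ‖dn (d := d) (f.symm : M → M) n x v‖ := by
          field_simp
      _ ≤ _ := h1

end Pool.Agent.Helper55.OS
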