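import Pool.Agent.Helper55.OS.ZeroChain
import Pool.Agent.Helper55.OS.ZeroCplx
import Pool.Agent.Helper55.OS.ZeroOrb

/-!
# OS-Z23 ZeroHyp: a periodic orbit without eigenvalues of modulus one is a hyperbolic set

TASK. PROOF. `Λ = {y | ∃ j, y = f^[j] p}` is the finite set of the `f^[j] p`, `j < m` (`f^[j] p` depends only on `j % m`); it is invariant
under `f` and `f.symm` (`f.symm (f^[j] p) = f^[j + m - 1] p` since `f^[m] p = p`), and `f^[m] x = x` on it. Put
`Es x = stabS (dn f m x)`, `Eu x = unstS (dn f m x)` for all `x : M`.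
(1) For `x = f^[j] p`: `¬ UnitEig (dn f m x)`: `D = dn f j p` is bijective and `(dn f m x).comp D = D.comp (dn f m p)` (`dn_add` twice:
`f^[m + j] = f^[j + m]`, `f^[m] p = p`), and `UnitEig` is invariant under conjugation (take preimages of `u, v` under `D`). So
`IsCompl` by `isCompl_stab_unst`, `dn_bijective`.
(2) Invariance: `(dn f m (f x)).comp (df f x) = (df f x).comp (dn f m x)` for `x ∈ Λ` in the same way; `stab_map`, `unst_map`.
(3) Closedness: finite union over `x ∈ Λ` of the sets `{⟨x, v⟩ | v ∈ Es x}` = image of the closed subspace `Es x`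
(`Submodule.closed_of_finiteDimensional`) under the closed embedding of the fibre (`FiberBundle.totalSpaceMk_isClosedEmbedding`).
(4) The estimates: `orb_rates`.
-/

open Set Topology Manifold ContDiff Filter

namespace Pool.Agent.Helper55.OS

variable {d : ℕ} {M : Type} [TopologicalSpace M] [ChartedSpace (E d) M] [IsManifold (𝓡 d) ∞ M]
  [T2Space M]

private theorem orbit_closed (Λ : Set M) (hfin : Λ.Finite)
    (W : ∀ x : M, Submodule ℝ (TangentSpace (𝓡 d) x)) :
    IsClosed {v : TangentBundle (𝓡 d) M | v.1 ∈ Λ ∧ v.2 ∈ W v.1} := by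
  have h : {v : TangentBundle (𝓡 d) M | v.1 ∈ Λ ∧ v.2 ∈ W v.1} =
      ⋃ x ∈ Λ, (Bundle.TotalSpace.mk x : TangentSpace (𝓡 d) x → TangentBundle (𝓡 d) M) ''
        (W x : Set (TangentSpace (𝓡 d) x)) := by
    ext v
    simp only [Set.mem_ofPred_eq, Set.mem_iUnion, Set.mem_image, SetLike.mem_coe, exists_prop]
    constructor
    · rintro ⟨h1, h2⟩
      exact ⟨v.1, h1, v.2, h2, rfl⟩
    · rintro ⟨x, hx, w, hw, rfl⟩
      exact ⟨hx, hw⟩
  rw [h]
  refine hfin.isClosed_biUnion (fun x _ => ?_)
  refine (FiberBundle.totalSpaceMk_isClosedEmbedding (F := E d)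
    (E := fun x : M => TangentSpace (𝓡 d) x) x).isClosedMap _ ?_
  have : FiniteDimensional ℝ (TangentSpace (𝓡 d) x) :=
    inferInstanceAs (FiniteDimensional ℝ (E d))
  have : T2Space (TangentSpace (𝓡 d) x) := inferInstanceAs (T2Space (E d))
  exact Submodule.closed_of_finiteDimensional (W x)

theorem hypOn_orbit (ρ : Metric d M) (f : Dif d M) (m : ℕ) (hm : 1 ≤ m) (p : M)
    (hp : (f : M → M)^[m] p = p) (h : ¬ UnitEig (dn (d := d) (f : M → M) m p)) :
    HypOn ρ f {y : M | ∃ j : ℕ, y = (f : M → M)^[j] p} := by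
  set Λ : Set M := {y : M | ∃ j : ℕ, y = (f : M → M)^[j] p} with hΛ
  have hpp : Function.IsPeriodicPt (f : M → M) m p := hp
  have hper : ∀ x ∈ Λ, (f : M → M)^[m] x = x := by
    rintro x ⟨j, rfl⟩
    rw [← Function.iterate_add_apply, add_comm, Function.iterate_add_apply, hp]
  have hfin : Λ.Finite := by
    refine ((Finset.range m).finite_toSet.image (fun j => (f : M → M)^[j] p)).subset ?_
    rintro x ⟨j, rfl⟩
    refine ⟨j % m, ?_, hpp.iterate_mod_apply j⟩
    simpa using Nat.mod_lt j hm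
  have hinv : ∀ x ∈ Λ, f x ∈ Λ := by
    rintro x ⟨j, rfl⟩
    exact ⟨j + 1, (Function.iterate_succ_apply' (f : M → M) j p).symm⟩
  have hinv' : ∀ x ∈ Λ, f.symm x ∈ Λ := by
    rintro x ⟨j, rfl⟩
    refine ⟨j + (m - 1), ?_⟩
    have h1 : f ((f : M → M)^[j + (m - 1)] p) = (f : M → M)^[j] p := by
      rw [← Function.iterate_succ_apply' (f : M → M)]
      have h2 : (j + (m - 1)).succ = j + m := by omega
      rw [h2, Function.iterate_add_apply, hp]
    rw [← h1]
    exact f.symm_apply_apply _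
  have hcomm : ∀ j, (dn (d := d) (f : M → M) m ((f : M → M)^[j] p)).comp
      (dn (d := d) (f : M → M) j p) =
      (dn (d := d) (f : M → M) j p).comp (dn (d := d) (f : M → M) m p) := by
    intro j
    rw [← dn_add f m j p, add_comm, dn_add f j m p, hp]
  have hunit : ∀ x ∈ Λ, ¬ UnitEig (dn (d := d) (f : M → M) m x) := by
    rintro x ⟨j, rfl⟩ ⟨c, s, u, v, hcs, hne, hu, hv⟩
    apply h
    obtain ⟨u', rfl⟩ := (dn_bijective f j p).2 u
    obtain ⟨v', rfl⟩ := (dn_bijective f j p).2 v
    have hc : ∀ w, dn (d := d) (f : M → M) m ((f : M → M)^[j] p)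
        (dn (d := d) (f : M → M) j p w) =
        dn (d := d) (f : M → M) j p (dn (d := d) (f : M → M) m p w) := fun w =>
      DFunLike.congr_fun (hcomm j) w
    refine ⟨c, s, u', v', hcs, ?_, ?_, ?_⟩
    · rintro ⟨rfl, rfl⟩
      exact hne ⟨map_zero _, map_zero _⟩
    · apply (dn_bijective f j p).1
      rw [← hc, hu, map_sub, map_smul, map_smul]
    · apply (dn_bijective f j p).1
      rw [← hc, hv, map_add, map_smul, map_smul]
  have hcomm1 : ∀ x ∈ Λ, (dn (d := d) (f : M → M) m (f x)).comp (df (d := d) (f : M → M) x) =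
      (df (d := d) (f : M → M) x).comp (dn (d := d) (f : M → M) m x) := by
    intro x hx
    have h1 := dn_add f m 1 x
    have h2 := dn_add f 1 m x
    rw [hper x hx, add_comm] at h2
    rw [h1, dn_one] at h2
    exact h2
  obtain ⟨c, r, hc, hr, hrate⟩ := orb_rates ρ f m hm Λ hfin hinv hinv' hper
  refine ⟨fun x => stabS (dn (d := d) (f : M → M) m x), fun x => unstS (dn (d := d) (f : M → M) m x),
    ?_, ?_, ?_, orbit_closed Λ hfin (fun x => stabS (dn (d := d) (f : M → M) m x)),
    orbit_closed Λ hfin (fun x => unstS (dn (d := d) (f : M → M) m x)), c, r, hc, hr, ?_⟩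
  · intro x hx
    exact isCompl_stab_unst _ (dn_bijective f m x) (hunit x hx)
  · intro x hx v hv
    exact stab_map _ _ (df (d := d) (f : M → M) x) (hcomm1 x hx) v hv
  · intro x hx v hv
    exact unst_map _ _ (df (d := d) (f : M → M) x) (hcomm1 x hx) v hv
  · intro x hx n _
    exact hrate x hx n

end Pool.Agent.Helper55.OS
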