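import Pool.Agent.Helper55.OS.BaseDefs

/-!
# OS-Z15 ZeroNew: a new periodic orbit near the fixed point

TASK. PROOF. For `e > 0` put `G_e x = e⁻¹ • (G (z0 + e • x) - z0)`, `G_e 0 = 0`. Strict differentiability: for `η > 0` there is `ρ0 > 0`
with `‖G a - G b - A (a - b)‖ ≤ η ‖a - b‖` for `a, b ∈ ball z0 ρ0`; so for `x, x' ∈ ball 0 K` and `e < ρ0 / K`:
`‖G_e x - G_e x' - A (x - x')‖ ≤ η ‖x - x'‖`. Define `X e i L` by `X e 0 L = u`, `X e (i+1) L = G_e (X e i L + L (X e i L))`, and the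
continuous linear maps `S i : (E d →L[ℝ] E d) →L[ℝ] E d`, `S 0 = 0`, `S (i+1) L = A (S i L) + A (L (A^i u))`. By induction
`S q L = ∑_{i < q} A^(q-i) (L (A^i u))`.
CLAIM (induction on `i`): for every `η > 0` there are `r > 0`, `e0 > 0` such that for all `0 < e < e0` and `L, L' ∈ ball 0 r`:
`‖X e i L - A^i u‖ ≤ η` and `‖X e i L - X e i L' - S i (L - L')‖ ≤ η ‖L - L'‖`. Step: put `w L = X e i L + L (X e i L)`; then
`w L - w L' = (X e i L - X e i L') + L (X e i L - X e i L') + (L - L') (X e i L')`, which differs from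
`S i (L - L') + (L - L') (A^i u)` by at most `(η' + r (‖S i‖ + η') + η') ‖L - L'‖`; all `w L` are in the ball of radius
`K = ‖A^i u‖ + 2` for small `r`; then apply `G_e`, which is `A` up to `η'`-Lipschitz errors there; and
`‖w L - A^i u‖ ≤ η' + r (‖A^i u‖ + η')` gives the first part.
CONCLUSION. `S q` is surjective, so it has a nonlinear right inverse with constant `N > 0`
(`ContinuousLinearMap.exists_nonlinearRightInverse_of_surjective`; `(fun L => ...)` in `hsurj` is `S q`). Take `η = N⁻¹ / 2`, `r` of the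
CLAIM, `r' = min (r/2) (δ/2)`: `ApproximatesLinearOn (X e q) (S q) (ball 0 r) η` and
`ApproximatesLinearOn.surjOn_closedBall_of_nonlinearRightInverse` (center `0`, radius `r'`): the image of the closed ball of
radius `r'` contains the closed ball around `X e q 0` of radius `(N⁻¹ - η) r'`; for small `e` it contains `u = A^q u` by the CLAIM
(first part with a smaller `η`). So there is `L`, `‖L‖ ≤ r' < δ`, `X e q L = u`. Put `y i = z0 + e • X e i L`: `y q = z0 + e • u = y 0 ≠ z0`,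
`y (i+1) = z0 + e • G_e (..) = G (z0 + e • (X + L X)) = G (y i + L (y i - z0))`, and `‖y i - z0‖ ≤ e (‖A^i u‖ + 1) < δ` for small `e`.
-/

open Set Topology Filter

namespace Pool.Agent.Helper55.OS

/-- The rescaled map. -/
private noncomputable def Ge {d : ℕ} (G : E d → E d) (z0 : E d) (e : ℝ) (x : E d) : E d :=
  e⁻¹ • (G (z0 + e • x) - z0)

/-- The rescaled perturbed orbit. -/
private noncomputable def Xe {d : ℕ} (G : E d → E d) (z0 u : E d) (e : ℝ) (L : E d →L[ℝ] E d) :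
    ℕ → E d
  | 0 => u
  | (i + 1) => Ge G z0 e (Xe G z0 u e L i + L (Xe G z0 u e L i))

/-- The linearisation of the rescaled perturbed orbit. -/
private noncomputable def Sl {d : ℕ} (A : E d →L[ℝ] E d) (u : E d) :
    ℕ → ((E d →L[ℝ] E d) →L[ℝ] E d)
  | 0 => 0
  | (i + 1) => A.comp (Sl A u i) + A.comp (ContinuousLinearMap.apply ℝ (E d) ((A ^ i) u))

private theorem Sl_succ {d : ℕ} (A : E d →L[ℝ] E d) (u : E d) (i : ℕ) (L : E d →L[ℝ] E d) :
    Sl A u (i + 1) L = A (Sl A u i L + L ((A ^ i) u)) := by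
  simp [Sl]

private theorem Sl_eq {d : ℕ} (A : E d →L[ℝ] E d) (u : E d) (q : ℕ) (L : E d →L[ℝ] E d) :
    Sl A u q L = ∑ i ∈ Finset.range q, (A ^ (q - i)) (L ((A ^ i) u)) := by
  induction q with
  | zero => simp [Sl]
  | succ q ih =>
    rw [Sl_succ, ih, Finset.sum_range_succ, map_add, map_sum]
    congr 1
    · refine Finset.sum_congr rfl fun i hi => ?_
      have h1 : q + 1 - i = (q - i) + 1 := by
        have := Finset.mem_range.mp hi
        omega
      rw [h1, pow_succ']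
      rfl
    · have h1 : q + 1 - q = 1 := by omega
      rw [h1, pow_one]

private theorem ge_zero {d : ℕ} (G : E d → E d) (z0 : E d) (h0 : G z0 = z0) (e : ℝ) :
    Ge G z0 e 0 = 0 := by
  simp [Ge, h0]

private theorem ge_lip {d : ℕ} (G : E d → E d) (z0 : E d) (A : E d →L[ℝ] E d)
    (hG : HasStrictFDerivAt G A z0) (η K : ℝ) (hη : 0 < η) (hK : 0 < K) :
    ∃ e0 : ℝ, 0 < e0 ∧ ∀ e : ℝ, 0 < e → e < e0 → ∀ x x' : E d, ‖x‖ ≤ K → ‖x'‖ ≤ K →
      ‖Ge G z0 e x - Ge G z0 e x' - A (x - x')‖ ≤ η * ‖x - x'‖ := by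
  obtain ⟨s, hs, hap⟩ := hG.approximates_deriv_on_nhds (c := ⟨η, hη.le⟩) (Or.inr hη)
  obtain ⟨ρ, hρ, hb⟩ := Metric.mem_nhds_iff.mp hs
  refine ⟨ρ / K, div_pos hρ hK, fun e he he1 x x' hx hx' => ?_⟩
  have hin : ∀ y : E d, ‖y‖ ≤ K → z0 + e • y ∈ s := by
    intro y hy
    apply hb
    rw [Metric.mem_ball, dist_eq_norm, add_sub_cancel_left, norm_smul, Real.norm_eq_abs,
      abs_of_pos he]
    calc e * ‖y‖ ≤ e * K := mul_le_mul_of_nonneg_left hy he.le
      _ < ρ / K * K := mul_lt_mul_of_pos_right he1 hK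
      _ = ρ := div_mul_cancel₀ ρ hK.ne'
  have h1 := hap (z0 + e • x) (hin x hx) (z0 + e • x') (hin x' hx')
  have h2 : (z0 + e • x) - (z0 + e • x') = e • (x - x') := by
    rw [smul_sub]
    abel
  rw [h2, map_smul, norm_smul, Real.norm_eq_abs, abs_of_pos he] at h1
  have h3 : Ge G z0 e x - Ge G z0 e x' - A (x - x') =
      e⁻¹ • (G (z0 + e • x) - G (z0 + e • x') - e • A (x - x')) := by
    simp only [Ge, smul_sub]
    rw [smul_smul, inv_mul_cancel₀ he.ne', one_smul]
    abel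
  rw [h3, norm_smul, norm_inv, Real.norm_eq_abs, abs_of_pos he]
  calc e⁻¹ * ‖G (z0 + e • x) - G (z0 + e • x') - e • A (x - x')‖
      ≤ e⁻¹ * (η * (e * ‖x - x'‖)) :=
        mul_le_mul_of_nonneg_left h1 (inv_nonneg.mpr he.le)
    _ = η * ‖x - x'‖ := by
        field_simp

private theorem claim {d : ℕ} (G : E d → E d) (z0 : E d) (h0 : G z0 = z0) (A : E d →L[ℝ] E d)
    (hG : HasStrictFDerivAt G A z0) (u : E d) (i : ℕ) :
    ∀ η : ℝ, 0 < η → ∃ r : ℝ, 0 < r ∧ ∃ e0 : ℝ, 0 < e0 ∧ ∀ e : ℝ, 0 < e → e < e0 →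
      ∀ L : E d →L[ℝ] E d, ‖L‖ ≤ r → ‖Xe G z0 u e L i - (A ^ i) u‖ ≤ η ∧
        ∀ L' : E d →L[ℝ] E d, ‖L'‖ ≤ r →
          ‖Xe G z0 u e L i - Xe G z0 u e L' i - Sl A u i (L - L')‖ ≤ η * ‖L - L'‖ := by
  induction i with
  | zero =>
    intro η hη
    refine ⟨1, one_pos, 1, one_pos, fun e _ _ L _ => ⟨?_, fun L' _ => ?_⟩⟩
    · simp [Xe, hη.le]
    · simp only [Xe, Sl, sub_self, _root_.zero_apply, norm_zero]
      exact mul_nonneg hη.le (norm_nonneg _)
  | succ i ih =>
    intro η hη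
    set a : ℝ := ‖(A ^ i) u‖ with ha
    set s : ℝ := ‖Sl A u i‖ with hs
    set α : ℝ := ‖A‖ with hα
    have ha0 : 0 ≤ a := norm_nonneg _
    have hs0 : 0 ≤ s := (Sl A u i).opNorm_nonneg
    have hα0 : 0 ≤ α := norm_nonneg _
    set C : ℝ := (2 * s + a + 3) + α * (s + 3) + (2 * a + 2) + α * (a + 2) with hC
    have hC0 : 0 < C := by positivity
    obtain ⟨τ, hτ0, hτ1, hτC⟩ : ∃ τ : ℝ, 0 < τ ∧ τ ≤ 1 ∧ τ * C ≤ η := by
      refine ⟨min 1 (η / C), lt_min one_pos (div_pos hη hC0), min_le_left _ _, ?_⟩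
      calc min 1 (η / C) * C ≤ η / C * C :=
            mul_le_mul_of_nonneg_right (min_le_right _ _) hC0.le
        _ = η := div_mul_cancel₀ η hC0.ne'
    obtain ⟨r1, hr1, e1, he1, H1⟩ := ih τ hτ0
    obtain ⟨e2, he2, H2⟩ := ge_lip G z0 A hG τ (2 * a + 2) hτ0 (by positivity)
    refine ⟨min r1 τ, lt_min hr1 hτ0, min e1 e2, lt_min he1 he2, fun e he hee L hL => ?_⟩
    have hw : ∀ L : E d →L[ℝ] E d, ‖L‖ ≤ min r1 τ →
        ‖Xe G z0 u e L i + L (Xe G z0 u e L i) - (A ^ i) u‖ ≤ τ * (a + 2) ∧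
        ‖Xe G z0 u e L i + L (Xe G z0 u e L i)‖ ≤ 2 * a + 2 := by
      intro L hL
      have h1 := (H1 e he (hee.trans_le (min_le_left _ _)) L (hL.trans (min_le_left _ _))).1
      have h2 : ‖Xe G z0 u e L i‖ ≤ a + 1 := by
        calc ‖Xe G z0 u e L i‖ = ‖(Xe G z0 u e L i - (A ^ i) u) + (A ^ i) u‖ := by
              rw [sub_add_cancel]
          _ ≤ ‖Xe G z0 u e L i - (A ^ i) u‖ + ‖(A ^ i) u‖ := norm_add_le _ _
          _ ≤ 1 + a := add_le_add (h1.trans hτ1) le_rfl
          _ = a + 1 := add_comm _ _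
      have h3 : ‖L (Xe G z0 u e L i)‖ ≤ τ * (a + 1) := by
        calc ‖L (Xe G z0 u e L i)‖ ≤ ‖L‖ * ‖Xe G z0 u e L i‖ := L.le_opNorm _
          _ ≤ τ * (a + 1) :=
            mul_le_mul (hL.trans (min_le_right _ _)) h2 (norm_nonneg _) hτ0.le
      have h4 : ‖Xe G z0 u e L i + L (Xe G z0 u e L i) - (A ^ i) u‖ ≤ τ * (a + 2) := by
        calc ‖Xe G z0 u e L i + L (Xe G z0 u e L i) - (A ^ i) u‖
            = ‖(Xe G z0 u e L i - (A ^ i) u) + L (Xe G z0 u e L i)‖ := by
              congr 1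
              abel
          _ ≤ τ + τ * (a + 1) := (norm_add_le _ _).trans (add_le_add h1 h3)
          _ = τ * (a + 2) := by ring
      refine ⟨h4, ?_⟩
      calc ‖Xe G z0 u e L i + L (Xe G z0 u e L i)‖
          ≤ ‖Xe G z0 u e L i‖ + ‖L (Xe G z0 u e L i)‖ := norm_add_le _ _
        _ ≤ (a + 1) + τ * (a + 1) := add_le_add h2 h3
        _ ≤ (a + 1) + 1 * (a + 1) :=
            add_le_add le_rfl (mul_le_mul_of_nonneg_right hτ1 (by positivity))
        _ = 2 * a + 2 := by ring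
    have hG2 := fun x x' hx hx' => H2 e he (hee.trans_le (min_le_right _ _)) x x' hx hx'
    refine ⟨?_, fun L' hL' => ?_⟩
    · set w := Xe G z0 u e L i + L (Xe G z0 u e L i) with hwd
      obtain ⟨h1, h2⟩ := hw L hL
      have h3 := hG2 w 0 h2 (by rw [norm_zero]; positivity)
      rw [ge_zero G z0 h0, sub_zero, sub_zero] at h3
      have h4 : Xe G z0 u e L (i + 1) - (A ^ (i + 1)) u =
          (Ge G z0 e w - A w) + A (w - (A ^ i) u) := by
        rw [pow_succ', map_sub]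
        change Ge G z0 e w - A ((A ^ i) u) = _
        abel
      rw [h4]
      calc ‖(Ge G z0 e w - A w) + A (w - (A ^ i) u)‖
          ≤ ‖Ge G z0 e w - A w‖ + ‖A (w - (A ^ i) u)‖ := norm_add_le _ _
        _ ≤ τ * (2 * a + 2) + α * (τ * (a + 2)) := by
            refine add_le_add (h3.trans (mul_le_mul_of_nonneg_left h2 hτ0.le)) ?_
            exact (A.le_opNorm _).trans (mul_le_mul_of_nonneg_left h1 hα0)
        _ ≤ τ * C := by
            rw [hC]
            have : 0 ≤ τ * ((2 * s + a + 3) + α * (s + 3)) := by positivity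
            nlinarith [this]
        _ ≤ η := hτC
    · set w := Xe G z0 u e L i + L (Xe G z0 u e L i) with hwd
      set w' := Xe G z0 u e L' i + L' (Xe G z0 u e L' i) with hwd'
      obtain ⟨h1, h2⟩ := hw L hL
      obtain ⟨h1', h2'⟩ := hw L' hL'
      have hL1 := hL.trans (min_le_left r1 τ)
      have hL1' := hL'.trans (min_le_left r1 τ)
      have hLτ := hL.trans (min_le_right r1 τ)
      have he' := hee.trans_le (min_le_left e1 e2)
      have k1 := (H1 e he he' L hL1).2 L' hL1'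
      have k2 := (H1 e he he' L' hL1').1
      set D := ‖L - L'‖ with hD
      have hD0 : 0 ≤ D := norm_nonneg _
      have k3 : ‖Xe G z0 u e L i - Xe G z0 u e L' i‖ ≤ (s + 1) * D := by
        calc ‖Xe G z0 u e L i - Xe G z0 u e L' i‖
            = ‖(Xe G z0 u e L i - Xe G z0 u e L' i - Sl A u i (L - L')) + Sl A u i (L - L')‖ := by
              rw [sub_add_cancel]
          _ ≤ τ * D + s * D :=
              (norm_add_le _ _).trans (add_le_add k1 ((Sl A u i).le_opNorm _))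
          _ ≤ 1 * D + s * D :=
              add_le_add (mul_le_mul_of_nonneg_right hτ1 hD0) le_rfl
          _ = (s + 1) * D := by ring
      have k4 : ‖w - w' - (Sl A u i (L - L') + (L - L') ((A ^ i) u))‖ ≤ τ * (s + 3) * D := by
        have h5 : w - w' - (Sl A u i (L - L') + (L - L') ((A ^ i) u)) =
            (Xe G z0 u e L i - Xe G z0 u e L' i - Sl A u i (L - L')) +
            (L (Xe G z0 u e L i - Xe G z0 u e L' i) +
              (L - L') (Xe G z0 u e L' i - (A ^ i) u)) := by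
          rw [hwd, hwd']
          simp only [map_sub, ContinuousLinearMap.sub_apply]
          abel
        rw [h5]
        have h6 : ‖L (Xe G z0 u e L i - Xe G z0 u e L' i)‖ ≤ τ * ((s + 1) * D) :=
          (L.le_opNorm _).trans (mul_le_mul hLτ k3 (norm_nonneg _) hτ0.le)
        have h7 : ‖(L - L') (Xe G z0 u e L' i - (A ^ i) u)‖ ≤ D * τ :=
          ((L - L').le_opNorm _).trans (mul_le_mul_of_nonneg_left k2 hD0)
        calc _ ≤ ‖Xe G z0 u e L i - Xe G z0 u e L' i - Sl A u i (L - L')‖ +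
              ‖L (Xe G z0 u e L i - Xe G z0 u e L' i) +
              (L - L') (Xe G z0 u e L' i - (A ^ i) u)‖ := norm_add_le _ _
          _ ≤ τ * D + (τ * ((s + 1) * D) + D * τ) :=
              add_le_add k1 ((norm_add_le _ _).trans (add_le_add h6 h7))
          _ = τ * (s + 3) * D := by ring
      have k5 : ‖w - w'‖ ≤ (2 * s + a + 3) * D := by
        have h8 : ‖Sl A u i (L - L') + (L - L') ((A ^ i) u)‖ ≤ s * D + D * a :=
          (norm_add_le _ _).trans (add_le_add ((Sl A u i).le_opNorm _) ((L - L').le_opNorm _))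
        calc ‖w - w'‖ = ‖(w - w' - (Sl A u i (L - L') + (L - L') ((A ^ i) u))) +
              (Sl A u i (L - L') + (L - L') ((A ^ i) u))‖ := by rw [sub_add_cancel]
          _ ≤ τ * (s + 3) * D + (s * D + D * a) := (norm_add_le _ _).trans (add_le_add k4 h8)
          _ ≤ 1 * (s + 3) * D + (s * D + D * a) := by
              refine add_le_add (mul_le_mul_of_nonneg_right ?_ hD0) le_rfl
              exact mul_le_mul_of_nonneg_right hτ1 (by positivity)
          _ = (2 * s + a + 3) * D := by ring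
      have k6 := hG2 w w' h2 h2'
      have h9 : Xe G z0 u e L (i + 1) - Xe G z0 u e L' (i + 1) - Sl A u (i + 1) (L - L') =
          (Ge G z0 e w - Ge G z0 e w' - A (w - w')) +
            A (w - w' - (Sl A u i (L - L') + (L - L') ((A ^ i) u))) := by
        rw [Sl_succ, map_sub A (w - w')]
        change Ge G z0 e w - Ge G z0 e w' - _ = _
        abel
      rw [h9]
      calc _ ≤ ‖Ge G z0 e w - Ge G z0 e w' - A (w - w')‖ +
            ‖A (w - w' - (Sl A u i (L - L') + (L - L') ((A ^ i) u)))‖ := norm_add_le _ _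
        _ ≤ τ * ((2 * s + a + 3) * D) + α * (τ * (s + 3) * D) := by
            refine add_le_add (k6.trans (mul_le_mul_of_nonneg_left k5 hτ0.le)) ?_
            exact (A.le_opNorm _).trans (mul_le_mul_of_nonneg_left k4 hα0)
        _ = τ * ((2 * s + a + 3) + α * (s + 3)) * D := by ring
        _ ≤ τ * C * D := by
            refine mul_le_mul_of_nonneg_right (mul_le_mul_of_nonneg_left ?_ hτ0.le) hD0
            rw [hC]
            have : 0 ≤ (2 * a + 2) + α * (a + 2) := by positivity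
            linarith
        _ ≤ η * D := mul_le_mul_of_nonneg_right hτC hD0

private theorem bounded {d : ℕ} (G : E d → E d) (z0 : E d) (h0 : G z0 = z0) (A : E d →L[ℝ] E d)
    (hG : HasStrictFDerivAt G A z0) (u : E d) (n : ℕ) :
    ∃ r : ℝ, 0 < r ∧ ∃ e0 : ℝ, 0 < e0 ∧ ∃ K : ℝ, 0 < K ∧ ∀ e : ℝ, 0 < e → e < e0 →
      ∀ L : E d →L[ℝ] E d, ‖L‖ ≤ r → ∀ i ≤ n, ‖Xe G z0 u e L i‖ ≤ K := by
  induction n with
  | zero =>
    refine ⟨1, one_pos, 1, one_pos, ‖u‖ + 1, by positivity, fun e _ _ L _ i hi => ?_⟩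
    have : i = 0 := by omega
    subst this
    simp [Xe]
  | succ n ih =>
    obtain ⟨r, hr, e0, he0, K, hK, H⟩ := ih
    obtain ⟨r', hr', e0', he0', H'⟩ := claim G z0 h0 A hG u (n + 1) 1 one_pos
    refine ⟨min r r', lt_min hr hr', min e0 e0', lt_min he0 he0', max K (‖(A ^ (n + 1)) u‖ + 1),
      lt_max_of_lt_left hK, fun e he hee L hL i hi => ?_⟩
    rcases Nat.lt_or_ge i (n + 1) with h | h
    · exact (H e he (hee.trans_le (min_le_left _ _)) L (hL.trans (min_le_left _ _)) i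
        (by omega)).trans (le_max_left _ _)
    · have hi' : i = n + 1 := by omega
      subst hi'
      refine le_trans ?_ (le_max_right _ _)
      have h1 := (H' e he (hee.trans_le (min_le_right _ _)) L (hL.trans (min_le_right _ _))).1
      calc ‖Xe G z0 u e L (n + 1)‖
          = ‖(Xe G z0 u e L (n + 1) - (A ^ (n + 1)) u) + (A ^ (n + 1)) u‖ := by
            rw [sub_add_cancel]
        _ ≤ 1 + ‖(A ^ (n + 1)) u‖ := (norm_add_le _ _).trans (add_le_add h1 le_rfl)
        _ = ‖(A ^ (n + 1)) u‖ + 1 := add_comm _ _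

theorem exists_new_orbit {d : ℕ} (G : E d → E d) (z0 : E d) (h0 : G z0 = z0) (A : E d →L[ℝ] E d)
    (hG : HasStrictFDerivAt G A z0) (q : ℕ) (hq : 1 ≤ q) (u : E d) (hu : u ≠ 0)
    (hfix : (A ^ q) u = u)
    (hsurj : Function.Surjective (fun L : E d →L[ℝ] E d =>
      ∑ i ∈ Finset.range q, (A ^ (q - i)) (L ((A ^ i) u))))
    (δ : ℝ) (hδ : 0 < δ) :
    ∃ (L : E d →L[ℝ] E d) (y : ℕ → E d), ‖L‖ < δ ∧ y q = y 0 ∧ y 0 ≠ z0 ∧
      (∀ i ≤ q, y i ∈ Metric.ball z0 δ) ∧
      ∀ i < q, y (i + 1) = G (y i + L (y i - z0)) := by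
  have hS : Function.Surjective (Sl A u q) := by
    intro v
    obtain ⟨L, hL⟩ := hsurj v
    exact ⟨L, by rw [Sl_eq]; exact hL⟩
  obtain ⟨F, hF⟩ := (Sl A u q).exists_nonlinearRightInverse_of_surjective
    (LinearMap.range_eq_top.mpr hS)
  have hN : (0 : ℝ) < (F.nnnorm : ℝ)⁻¹ := inv_pos.mpr (by exact_mod_cast hF)
  set c : ℝ := (F.nnnorm : ℝ)⁻¹ / 2 with hc
  have hc0 : 0 < c := half_pos hN
  obtain ⟨r, hr, e1, he1, H1⟩ := claim G z0 h0 A hG u q c hc0
  obtain ⟨rb, hrb, eb, heb, K, hK, Hb⟩ := bounded G z0 h0 A hG u q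
  set r' : ℝ := min (min r rb) (δ / 2) with hr'
  have hr'0 : 0 < r' := lt_min (lt_min hr hrb) (half_pos hδ)
  obtain ⟨r2, hr2, e2, he2, H2⟩ := claim G z0 h0 A hG u q (c * r') (mul_pos hc0 hr'0)
  set e0 : ℝ := min (min e1 eb) (min e2 (δ / K)) with he0
  have he00 : 0 < e0 := lt_min (lt_min he1 heb) (lt_min he2 (div_pos hδ hK))
  set e : ℝ := e0 / 2 with hedef
  have he : 0 < e := half_pos he00
  have hee0 : e < e0 := half_lt_self he00
  have hee1 : e < e1 := hee0.trans_le ((min_le_left _ _).trans (min_le_left _ _))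
  have heeb : e < eb := hee0.trans_le ((min_le_left _ _).trans (min_le_right _ _))
  have hee2 : e < e2 := hee0.trans_le ((min_le_right _ _).trans (min_le_left _ _))
  have heeK : e < δ / K := hee0.trans_le ((min_le_right _ _).trans (min_le_right _ _))
  have hap : ApproximatesLinearOn (fun L : E d →L[ℝ] E d => Xe G z0 u e L q) (Sl A u q)
      (Metric.closedBall 0 r) ⟨c, hc0.le⟩ := by
    intro L hL L' hL'
    rw [mem_closedBall_zero_iff] at hL hL'
    exact (H1 e he hee1 L hL).2 L' hL'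
  have hsub : Metric.closedBall (0 : E d →L[ℝ] E d) r' ⊆ Metric.closedBall 0 r :=
    Metric.closedBall_subset_closedBall ((min_le_left _ _).trans (min_le_left _ _))
  have hsurj' := hap.surjOn_closedBall_of_nonlinearRightInverse F hr'0.le hsub
  have hmem : u ∈ Metric.closedBall (Xe G z0 u e 0 q)
      (((F.nnnorm : ℝ)⁻¹ - ((⟨c, hc0.le⟩ : NNReal) : ℝ)) * r') := by
    have h1 := (H2 e he hee2 0 (by rw [norm_zero]; exact hr2.le)).1
    rw [hfix] at h1
    rw [Metric.mem_closedBall, dist_comm, dist_eq_norm]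
    have h2 : (F.nnnorm : ℝ)⁻¹ - ((⟨c, hc0.le⟩ : NNReal) : ℝ) = c := by
      change (F.nnnorm : ℝ)⁻¹ - c = c
      rw [hc]
      ring
    rw [h2]
    exact h1
  obtain ⟨L, hL, hLu⟩ := hsurj' hmem
  rw [mem_closedBall_zero_iff] at hL
  have hLu' : Xe G z0 u e L q = u := hLu
  have hLb : ‖L‖ ≤ rb := hL.trans ((min_le_left _ _).trans (min_le_right _ _))
  have hLδ : ‖L‖ < δ := (hL.trans (min_le_right _ _)).trans_lt (half_lt_self hδ)
  refine ⟨L, fun i => z0 + e • Xe G z0 u e L i, hLδ, ?_, ?_, ?_, ?_⟩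
  · change z0 + e • Xe G z0 u e L q = z0 + e • u
    rw [hLu']
  · change z0 + e • u ≠ z0
    intro h
    have h1 : e • u = 0 := by simpa using h
    rcases smul_eq_zero.mp h1 with h2 | h2
    · exact he.ne' h2
    · exact hu h2
  · intro i hi
    rw [Metric.mem_ball, dist_eq_norm, add_sub_cancel_left, norm_smul, Real.norm_eq_abs,
      abs_of_pos he]
    calc e * ‖Xe G z0 u e L i‖ ≤ e * K :=
          mul_le_mul_of_nonneg_left (Hb e he heeb L hLb i hi) he.le
      _ < δ / K * K := mul_lt_mul_of_pos_right heeK hK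
      _ = δ := div_mul_cancel₀ δ hK.ne'
  · intro i _
    change z0 + e • Ge G z0 e (Xe G z0 u e L i + L (Xe G z0 u e L i)) =
      G (z0 + e • Xe G z0 u e L i + L (z0 + e • Xe G z0 u e L i - z0))
    have h1 : z0 + e • Xe G z0 u e L i + L (z0 + e • Xe G z0 u e L i - z0) =
        z0 + e • (Xe G z0 u e L i + L (Xe G z0 u e L i)) := by
      rw [add_sub_cancel_left, map_smul, smul_add, add_assoc]
    rw [h1]
    simp only [Ge]
    rw [smul_smul, mul_inv_cancel₀ he.ne', one_smul, add_sub_cancel]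

end Pool.Agent.Helper55.OS
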