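import Pool.Agent.Helper55.OS.BaseFam
import Pool.Agent.Helper55.OS.BaseLocal
import Pool.Agent.Helper55.OS.BaseComp
import Pool.Agent.Helper55.OS.ZeroChain
import Pool.Agent.Helper55.OS.ZeroBall
import Pool.Agent.Helper55.OS.ZeroNew

/-!
# OS-Z17 ZeroMore: one more periodic point

TASK. PROOF. `S = {x | g^[m * q] x = x}` is finite, invariant under `g`, contains `p`. By `exists_ball` (OS-Z03) with `n = m`, `z = p` and
`U` = the complement of `S \ {p}` (open) there is `R > 0` with the closed ball in the target of `φ = extChartAt p`, the set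
`chCl p (φ p) R` meets `S` at most in `p`, and no point of it returns to it before time `m`. Put `z0 = φ p`, `W = chBall p z0 R`. Local
family `Φ` of OS-B06, used with the parameters `(0, L)`: `g_L = (Φ (0, L)).trans g`, in `𝒰` for `‖L‖ < δ1` (OS-B07, OS-B03, `Φ 0 = id`).
(a) `Φ (0, L)` fixes all points of `S`: those different from `p` are not in `W`, and `φ (Φ p) = z0 + (0 + L 0) = φ p`. So
`g_L^[i] s = g^[i] s` for `s ∈ S` (`S` is invariant) and `S ⊆ Fix (g_L^[m * q])`.
(b) For `y ∈ W`: `g_L^[m] y = g^[m] (Φ y)` (`iter_bump`). Let `G = inCh p (g^[m])`: `G z0 = z0`, smooth near `z0` (`contDiffAt_inCh`), so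
`HasStrictFDerivAt G A z0` with `A = fderiv G z0 = dn g m p` (`fderiv_inCh_self`, `ContDiffAt.hasStrictFDerivAt`). Apply OS-Z15 with a small
`δ` (`δ ≤ δ1`, `δ ≤ R/2`, and `G`-values: `g^[m] (φ.symm z) ∈ φ.source` for `‖z - z0‖ < 2 δ`; `δ ≤ 1` so that
`y i + L (y i - z0)` is in `ball z0 (2 δ)`, also `2 δ ≤ R`): `L`, `y i`. Let `x i = φ.symm (y i)`, in `chBall p z0 (R/2)` for `i ≤ q`.
Then `φ (Φ (x i)) = y i + L (y i - z0)`, `Φ (x i) = φ.symm (y i + L (y i - z0))`, and `φ (g_L^[m] (x i)) = G (y i + L (y i - z0)) = y (i+1)`,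
so `g_L^[m] (x i) = x (i+1)` (both in the source). Hence `g_L^[m * q] (x 0) = x q = x 0` (`Function.iterate_mul`), and `x 0 ≠ p`,
`x 0 ∈ W`, so `x 0 ∉ S`.
-/

open Set Topology Manifold ContDiff Filter

namespace Pool.Agent.Helper55.OS

variable {d : ℕ} {M : Type} [TopologicalSpace M] [ChartedSpace (E d) M] [IsManifold (𝓡 d) ∞ M]
  [T2Space M] [CompactSpace M]

theorem exists_more_periodic (g : Dif d M) (𝒰 : Set (Dif d M)) (h𝒰 : IsOpen[smoothTop d M] 𝒰)
    (hg : g ∈ 𝒰) (m : ℕ) (hm : 1 ≤ m) (p : M) (hp : (g : M → M)^[m] p = p)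
    (hmin : ∀ i, 1 ≤ i → i < m → (g : M → M)^[i] p ≠ p) (q : ℕ) (hq : 1 ≤ q) (u : E d)
    (hu : u ≠ 0) (hfix : ((dn (d := d) (g : M → M) m p) ^ q) u = u)
    (hsurj : Function.Surjective (fun L : E d →L[ℝ] E d =>
      ∑ i ∈ Finset.range q, ((dn (d := d) (g : M → M) m p) ^ (q - i))
        (L (((dn (d := d) (g : M → M) m p) ^ i) u))))
    (hfin : {x : M | (g : M → M)^[m * q] x = x}.Finite) :
    ∃ g' ∈ 𝒰, {x : M | (g : M → M)^[m * q] x = x} ⊆ {x : M | (g' : M → M)^[m * q] x = x} ∧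
      ∃ x : M, (g' : M → M)^[m * q] x = x ∧ (g : M → M)^[m * q] x ≠ x := by
  set S : Set M := {x : M | (g : M → M)^[m * q] x = x} with hS
  have hUn : (S \ {p})ᶜ ∈ 𝓝 p := by
    refine (hfin.subset diff_subset).isClosed.isOpen_compl.mem_nhds ?_
    simp
  obtain ⟨R, hR, hcT, hcU, hav⟩ :=
    exists_ball (d := d) (g : M → M) g.continuous m p hmin _ hUn
  set φ := extChartAt (𝓡 d) p with hφ
  set z0 : E d := φ p with hz0
  have hb1 : chBall p z0 R ⊆ chCl p z0 R := chBall_subset_chCl p z0 R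
  obtain ⟨δ0, Φ, hδ0, hsm, hΦ0, hΦ⟩ := exists_local_family (M := M) p z0 R hR hcT
  let inc : (E d →L[ℝ] E d) → E d × (E d →L[ℝ] E d) := fun L => (0, L)
  have hinc : ∀ L, ‖inc L‖ = ‖L‖ := by
    intro L
    simp [inc, Prod.norm_def]
  have hfam : SmoothFam (Metric.ball (0 : E d →L[ℝ] E d) δ0)
      (fun L => (Φ (inc L)).trans g) := by
    refine smoothFam_then _ _ (smoothFam_comap _ Φ hsm _ Metric.isOpen_ball inc ?_ ?_) g
    · exact (contDiff_const.prodMk contDiff_id).contDiffOn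
    · intro L hL
      rw [mem_ball_zero_iff] at hL ⊢
      rw [hinc]
      exact hL
  have h0in : (0 : E d →L[ℝ] E d) ∈ Metric.ball (0 : E d →L[ℝ] E d) δ0 := by
    simp [hδ0]
  have hg0 : (Φ (inc 0)).trans g = g := by
    apply Diffeomorph.ext
    intro y
    change g (Φ (inc 0) y) = g y
    have h1 : inc 0 = 0 := rfl
    rw [h1, hΦ0]
  have hev := eventually_mem_of_smoothFam (M := M) _ _ hfam 0 h0in 𝒰 h𝒰 (by
    simp only [hg0]
    exact hg)
  obtain ⟨δ1, hδ1, hball⟩ := Metric.eventually_nhds_iff_ball.mp hev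
  -- the map in the chart
  have hsrc : p ∈ φ.source := mem_extChartAt_source p
  have htgt : z0 ∈ φ.target := mem_extChartAt_target p
  have hinv : φ.symm z0 = p := extChartAt_to_inv p
  set G : E d → E d := inCh (d := d) p ((g : M → M)^[m]) with hGd
  have hG0 : G z0 = z0 := by
    change φ ((g : M → M)^[m] (φ.symm z0)) = z0
    rw [hinv, hp]
  have hGs : HasStrictFDerivAt G (dn (d := d) (g : M → M) m p) z0 := by
    have h1 : ContDiffAt ℝ ∞ G z0 := contDiffAt_inCh _ (contMDiff_iter g m) p z0 htgt (by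
      change (g : M → M)^[m] (φ.symm z0) ∈ φ.source
      rw [hinv, hp]
      exact hsrc)
    have h2 := h1.hasStrictFDerivAt (by simp)
    have h3 : fderiv ℝ G z0 = dn (d := d) (g : M → M) m p :=
      fderiv_inCh_self _ (contMDiff_iter g m) p hp
    rwa [h3] at h2
  have hnear : ∀ᶠ z in 𝓝 z0, (g : M → M)^[m] (φ.symm z) ∈ φ.source := by
    have h1 : ContinuousAt (fun z => (g : M → M)^[m] (φ.symm z)) z0 := by
      refine ContinuousAt.comp ?_ (continuousAt_extChartAt_symm p)
      exact (contMDiff_iter g m).continuous.continuousAt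
    have h2 : φ.source ∈ 𝓝 ((fun z => (g : M → M)^[m] (φ.symm z)) z0) := by
      change φ.source ∈ 𝓝 ((g : M → M)^[m] (φ.symm z0))
      rw [hinv, hp]
      exact extChartAt_source_mem_nhds p
    exact h1.eventually_mem h2
  obtain ⟨ρ, hρ, hnb⟩ := Metric.eventually_nhds_iff_ball.mp hnear
  -- the new orbit
  set δ : ℝ := min (min δ0 δ1) (min (min (R / 2) (ρ / 2)) 1) with hδdef
  have hδ : 0 < δ := by positivity
  have hδ0' : δ ≤ δ0 := (min_le_left _ _).trans (min_le_left _ _)
  have hδ1' : δ ≤ δ1 := (min_le_left _ _).trans (min_le_right _ _)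
  have hδR : δ ≤ R / 2 := (min_le_right _ _).trans ((min_le_left _ _).trans (min_le_left _ _))
  have hδρ : δ ≤ ρ / 2 := (min_le_right _ _).trans ((min_le_left _ _).trans (min_le_right _ _))
  have hδ11 : δ ≤ 1 := (min_le_right _ _).trans (min_le_right _ _)
  obtain ⟨L, y, hL, hyq, hy0, hyb, hyG⟩ := exists_new_orbit G z0 hG0 _ hGs q hq u hu hfix hsurj δ hδ
  have hLδ0 : inc L ∈ Metric.ball (0 : E d × (E d →L[ℝ] E d)) δ0 := by
    rw [mem_ball_zero_iff, hinc]
    exact hL.trans_le hδ0'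
  obtain ⟨hP1, hP2, hP3⟩ := hΦ (inc L) hLδ0
  set g' : Dif d M := (Φ (inc L)).trans g with hg'
  have hg'm : g' ∈ 𝒰 := hball L (by
    rw [mem_ball_zero_iff]
    exact hL.trans_le hδ1')
  -- the points of `S` are kept
  have hfixS : ∀ s ∈ S, Φ (inc L) s = s := by
    intro s hs
    by_cases hsp : s = p
    · subst hsp
      have h1 : s ∈ chBall s z0 (R / 2) := mem_chBall_self s (R / 2) (half_pos hR)
      obtain ⟨h2, h3⟩ := hP3 s h1
      have h4 : φ (Φ (inc L) s) = φ s := by
        rw [← hφ] at h3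
        rw [h3]
        simp [inc, hz0]
      exact φ.injOn h2 hsrc h4
    · apply hP1
      intro h1
      exact hcU (hb1 h1) ⟨hs, hsp⟩
  have hSinv : ∀ s ∈ S, g s ∈ S := by
    intro s hs
    change (g : M → M)^[m * q] (g s) = g s
    rw [← Function.iterate_succ_apply, Function.iterate_succ_apply']
    exact congrArg g hs
  have hSg : ∀ i : ℕ, ∀ s ∈ S, (g' : M → M)^[i] s = (g : M → M)^[i] s := by
    intro i
    induction i with
    | zero => intro s _; rfl
    | succ i ih =>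
      intro s hs
      rw [Function.iterate_succ_apply, Function.iterate_succ_apply]
      have h1 : g' s = g s := by
        change g (Φ (inc L) s) = g s
        rw [hfixS s hs]
      rw [h1]
      exact ih (g s) (hSinv s hs)
  refine ⟨g', hg'm, ?_, ?_⟩
  · intro s hs
    change (g' : M → M)^[m * q] s = s
    rw [hSg _ s hs]
    exact hs
  -- the new point
  have hybR : ∀ i ≤ q, y i ∈ Metric.ball z0 (R / 2) := fun i hi =>
    Metric.ball_subset_ball hδR (hyb i hi)
  have hyt : ∀ i ≤ q, y i ∈ φ.target := fun i hi =>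
    hcT (Metric.ball_subset_closedBall (Metric.ball_subset_ball (by linarith) (hybR i hi)))
  have hxs : ∀ i ≤ q, φ.symm (y i) ∈ φ.source := fun i hi => φ.map_target (hyt i hi)
  have hxc : ∀ i ≤ q, φ (φ.symm (y i)) = y i := fun i hi => φ.right_inv (hyt i hi)
  have hxb : ∀ i ≤ q, φ.symm (y i) ∈ chBall p z0 (R / 2) := by
    intro i hi
    refine ⟨hxs i hi, ?_⟩
    rw [← hφ, hxc i hi]
    exact hybR i hi
  have hxb' : ∀ i ≤ q, φ.symm (y i) ∈ chBall p z0 R := by
    intro i hi
    obtain ⟨h1, h2⟩ := hxb i hi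
    exact ⟨h1, Metric.ball_subset_ball (by linarith) h2⟩
  have hav' : ∀ i, 1 ≤ i → i < m → ∀ w ∈ chBall p z0 R, (g : M → M)^[i] w ∉ chBall p z0 R := by
    intro i h1 h2 w hw hw'
    exact hav i h1 h2 w (hb1 hw) (hb1 hw')
  have hstep : ∀ i < q, (g' : M → M)^[m] (φ.symm (y i)) = φ.symm (y (i + 1)) := by
    intro i hi
    obtain ⟨h1, h2⟩ := hP3 _ (hxb i hi.le)
    rw [← hφ, hxc i hi.le] at h2
    have h3 : φ (Φ (inc L) (φ.symm (y i))) = y i + L (y i - z0) := by
      rw [h2]
      simp [inc]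
    have h4 : Φ (inc L) (φ.symm (y i)) = φ.symm (y i + L (y i - z0)) := by
      rw [← h3]
      exact (φ.left_inv h1).symm
    have h5 : (g' : M → M)^[m] (φ.symm (y i)) = (g : M → M)^[m] (Φ (inc L) (φ.symm (y i))) :=
      iter_bump g (Φ (inc L)) (chBall p z0 R) m hm hP1 hP2 hav' _ (hxb' i hi.le)
    have h6 : y i + L (y i - z0) ∈ Metric.ball z0 ρ := by
      rw [Metric.mem_ball, dist_eq_norm]
      have h7 := hyb i hi.le
      rw [Metric.mem_ball, dist_eq_norm] at h7
      have h8 : ‖L (y i - z0)‖ ≤ 1 * ‖y i - z0‖ :=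
        (L.le_opNorm _).trans (mul_le_mul_of_nonneg_right (hL.le.trans hδ11) (norm_nonneg _))
      calc ‖y i + L (y i - z0) - z0‖ = ‖(y i - z0) + L (y i - z0)‖ := by
            congr 1
            abel
        _ ≤ ‖y i - z0‖ + ‖L (y i - z0)‖ := norm_add_le _ _
        _ < ρ := by linarith
    have h9 := hnb _ h6
    have h10 : φ ((g : M → M)^[m] (φ.symm (y i + L (y i - z0)))) = y (i + 1) := by
      rw [hyG i hi]
      rfl
    rw [h5, h4, ← h10]
    exact (φ.left_inv h9).symm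
  have hiter : ∀ i ≤ q, (g' : M → M)^[m * i] (φ.symm (y 0)) = φ.symm (y i) := by
    intro i
    induction i with
    | zero => intro _; rfl
    | succ i ih =>
      intro hi
      have h1 : m * (i + 1) = m + m * i := by ring
      rw [h1, Function.iterate_add_apply, ih (by omega)]
      exact hstep i (by omega)
  refine ⟨φ.symm (y 0), ?_, ?_⟩
  · rw [hiter q le_rfl, hyq]
  · intro hmem
    have h1 : φ.symm (y 0) ≠ p := by
      intro h2
      have h3 := hxc 0 (Nat.zero_le _)
      rw [h2] at h3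
      exact hy0 h3.symm
    exact hcU (hb1 (hxb' 0 (Nat.zero_le _))) ⟨hmem, h1⟩

end Pool.Agent.Helper55.OS
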