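import Pool.Agent.Helper55.OS.ZeroChain

/-!
# OS-Z07 ZeroMod: the derivative of iterates after a modification at one point

TASK. `g' = g` off `U`, `g' x0 = g x0`. `w` a point whose orbit up to time `n - 1` meets `closure U` at most in `x0`.
PROOFS. Induction on `n`. `iterate_modify`: `g' (g^[n] w) = g (g^[n] w)` because `g^[n] w` is `x0` or is not in `U`.
`dn_modify`: `dn g' (n+1) w = (df g' (g'^[n] w)).comp (dn g' n w)` (`dn_add` with `1 + n`, `dn_one`). If `g^[n] w ≠ x0` it is not
in `closure U`, so `g' = g` near it and `df g' = df g` there (`df_congr`); if it is `x0` use `hder`. The number of visits is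
`((Finset.range n).filter (fun i => g^[i] w = x0)).card` (`Finset.range_add_one`, `Finset.filter_insert`).
`dn_modify_right`: special case of a periodic point `x0` of `g`, with a general factor `B` at `x0`: first
`dn g' m x0 = (dn g' (m-1) (g x0)).comp (df g' x0)`, the orbit of `g x0` up to time `m - 2` is not in `closure U`, so the first factor
is unchanged.
-/

open Set Topology Manifold ContDiff Filter

namespace Pool.Agent.Helper55.OS

variable {d : ℕ} {M : Type} [TopologicalSpace M] [ChartedSpace (E d) M] [IsManifold (𝓡 d) ∞ M]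

theorem iterate_modify (g g' : Dif d M) (U : Set M) (x0 : M) (hoff : ∀ y, y ∉ U → g' y = g y)
    (hx0 : g' x0 = g x0) (n : ℕ) (w : M)
    (hw : ∀ i < n, (g : M → M)^[i] w = x0 ∨ (g : M → M)^[i] w ∉ closure U) :
    (g' : M → M)^[n] w = (g : M → M)^[n] w := by
  induction n with
  | zero => rfl
  | succ n ih =>
    rw [Function.iterate_succ_apply', Function.iterate_succ_apply',
      ih fun i hi => hw i (Nat.lt_succ_of_lt hi)]
    rcases hw n (Nat.lt_succ_self n) with h | h
    · rw [h, hx0]
    · exact hoff _ fun h' => h (subset_closure h')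

private theorem ZeroMod_df (g g' : Dif d M) (U : Set M) (hoff : ∀ y, y ∉ U → g' y = g y) (z : M)
    (hz : z ∉ closure U) : df (d := d) (g' : M → M) z = df (d := d) (g : M → M) z := by
  refine df_congr _ _ _ ?_
  have h1 : (closure U)ᶜ ∈ 𝓝 z := isClosed_closure.isOpen_compl.mem_nhds hz
  filter_upwards [h1] with y hy
  exact hoff y fun h' => hy (subset_closure h')

private theorem ZeroMod_succ (g : Dif d M) (n : ℕ) (w : M) :
    dn (d := d) (g : M → M) (n + 1) w =
      (df (d := d) (g : M → M) ((g : M → M)^[n] w)).comp (dn (d := d) (g : M → M) n w) := by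
  rw [add_comm n 1, dn_add, dn_one]

open Classical in
theorem dn_modify (g g' : Dif d M) (U : Set M) (x0 : M) (hoff : ∀ y, y ∉ U → g' y = g y)
    (hx0 : g' x0 = g x0) (s : ℝ)
    (hder : df (d := d) (g' : M → M) x0 = (1 + s) • df (d := d) (g : M → M) x0) (n : ℕ) (w : M)
    (hw : ∀ i < n, (g : M → M)^[i] w = x0 ∨ (g : M → M)^[i] w ∉ closure U) :
    dn (d := d) (g' : M → M) n w =
      (1 + s) ^ ((Finset.range n).filter (fun i => (g : M → M)^[i] w = x0)).card •
        dn (d := d) (g : M → M) n w := by
  induction n with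
  | zero => simp [dn_zero]
  | succ n ih =>
    have hw' : ∀ i < n, (g : M → M)^[i] w = x0 ∨ (g : M → M)^[i] w ∉ closure U :=
      fun i hi => hw i (Nat.lt_succ_of_lt hi)
    rw [ZeroMod_succ, ZeroMod_succ, ih hw', iterate_modify g g' U x0 hoff hx0 n w hw',
      Finset.range_add_one, Finset.filter_insert]
    by_cases h : (g : M → M)^[n] w = x0
    · rw [if_pos h, Finset.card_insert_of_notMem (by simp), h, hder, ContinuousLinearMap.comp_smul,
        ContinuousLinearMap.smul_comp, smul_smul, pow_succ]
    · rw [if_neg h, ZeroMod_df g g' U hoff _ ((hw n (Nat.lt_succ_self n)).resolve_left h),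
        ContinuousLinearMap.comp_smul]

private theorem ZeroMod_same (g g' : Dif d M) (U : Set M) (hoff : ∀ y, y ∉ U → g' y = g y) (n : ℕ)
    (w : M) (hw : ∀ i < n, (g : M → M)^[i] w ∉ closure U) :
    (g' : M → M)^[n] w = (g : M → M)^[n] w ∧
      dn (d := d) (g' : M → M) n w = dn (d := d) (g : M → M) n w := by
  induction n with
  | zero => exact ⟨rfl, by rw [dn_zero, dn_zero]⟩
  | succ n ih =>
    obtain ⟨h1, h2⟩ := ih fun i hi => hw i (Nat.lt_succ_of_lt hi)
    have h3 := hw n (Nat.lt_succ_self n)
    refine ⟨?_, ?_⟩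
    · rw [Function.iterate_succ_apply', Function.iterate_succ_apply', h1]
      exact hoff _ fun h' => h3 (subset_closure h')
    · rw [ZeroMod_succ, ZeroMod_succ, h2, h1, ZeroMod_df g g' U hoff _ h3]

theorem dn_modify_right (g g' : Dif d M) (U : Set M) (x0 : M) (hoff : ∀ y, y ∉ U → g' y = g y)
    (hx0 : g' x0 = g x0) (B : E d →L[ℝ] E d)
    (hder : df (d := d) (g' : M → M) x0 = (df (d := d) (g : M → M) x0).comp B)
    (m : ℕ) (hm : 1 ≤ m) (hw : ∀ i, 1 ≤ i → i < m → (g : M → M)^[i] x0 ∉ closure U) :
    dn (d := d) (g' : M → M) m x0 = (dn (d := d) (g : M → M) m x0).comp B := by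
  obtain ⟨k, rfl⟩ : ∃ k, m = k + 1 := ⟨m - 1, by omega⟩
  rw [dn_add, dn_add, dn_one, dn_one, Function.iterate_one, Function.iterate_one, hx0, hder,
    (ZeroMod_same g g' U hoff k (g x0) (fun i hi => ?_)).2, ContinuousLinearMap.comp_assoc]
  have h1 := hw (i + 1) (Nat.succ_pos i) (by omega)
  rwa [Function.iterate_succ_apply] at h1

end Pool.Agent.Helper55.OS
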