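import Pool.Agent.Helper55.OS.BaseDeriv
import Pool.Agent.Helper55.OS.ZeroMod

/-!
# OS-Z16 ZeroMulPer: multiplying the derivative of the return map of a periodic point

TASK. PROOF. Choose a neighbourhood `U` of `p` whose closure does not contain the points `g^[i] p`, `1 ≤ i < m` (finitely many points
different from `p`; the space is compact Hausdorff, so regular: `closed_nhds_basis`). P2 (`mul_deriv`) for `x0 = p` and `U` gives `ε`; for
`B` with `‖B - 1‖ < ε` it gives `g'`; `iterate_modify` and `dn_modify_right` of OS-Z07 finish (for `i > m` the iterates of `p` are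
periodic: every `g^[i] p` is `p` or one of the `g^[j] p`, `1 ≤ j < m`, `i % m = j`; `Function.IsPeriodicPt`, `Function.iterate_mod`...).
-/

open Set Topology Manifold ContDiff Filter

namespace Pool.Agent.Helper55.OS

variable {d : ℕ} {M : Type} [TopologicalSpace M] [ChartedSpace (E d) M] [IsManifold (𝓡 d) ∞ M]
  [T2Space M] [CompactSpace M]

theorem exists_mul_deriv_period (g : Dif d M) (𝒰 : Set (Dif d M)) (h𝒰 : IsOpen[smoothTop d M] 𝒰)
    (hg : g ∈ 𝒰) (m : ℕ) (hm : 1 ≤ m) (p : M) (hp : (g : M → M)^[m] p = p)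
    (hmin : ∀ i, 1 ≤ i → i < m → (g : M → M)^[i] p ≠ p) :
    ∃ ε : ℝ, 0 < ε ∧ ∀ B : E d →L[ℝ] E d, ‖B - ContinuousLinearMap.id ℝ (E d)‖ < ε →
      ∃ g' ∈ 𝒰, (∀ i, (g' : M → M)^[i] p = (g : M → M)^[i] p) ∧
        dn (d := d) (g' : M → M) m p = (dn (d := d) (g : M → M) m p).comp B := by
  have hfin : ((fun i => (g : M → M)^[i] p) '' (Set.Ico 1 m)).Finite :=
    (Set.finite_Ico 1 m).image _
  have hnhds : ((fun i => (g : M → M)^[i] p) '' (Set.Ico 1 m))ᶜ ∈ 𝓝 p := by
    refine hfin.isClosed.isOpen_compl.mem_nhds ?_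
    rintro ⟨i, hi, hip⟩
    exact hmin i hi.1 hi.2 hip
  obtain ⟨U, ⟨hU, hUc⟩, hUsub⟩ := (closed_nhds_basis p).mem_iff.1 hnhds
  have hout : ∀ i, 1 ≤ i → i < m → (g : M → M)^[i] p ∉ closure U := by
    intro i hi1 him h
    rw [hUc.closure_eq] at h
    exact hUsub h ⟨i, ⟨hi1, him⟩, rfl⟩
  obtain ⟨ε, hε, hB⟩ := mul_deriv g 𝒰 h𝒰 hg p U hU
  refine ⟨ε, hε, fun B hBε => ?_⟩
  obtain ⟨g', hg', hoff, hp', hder⟩ := hB B hBε
  refine ⟨g', hg', fun n => ?_, dn_modify_right g g' U p hoff hp' B hder m hm hout⟩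
  refine iterate_modify g g' U p hoff hp' n p fun i _ => ?_
  have hper : Function.IsPeriodicPt (g : M → M) m p := hp
  rw [← hper.iterate_mod_apply i]
  by_cases h : i % m = 0
  · left
    rw [h]
    rfl
  · right
    exact hout _ (by omega) (Nat.mod_lt _ (by omega))

end Pool.Agent.Helper55.OS
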