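import Pool.Agent.Helper55.OS.BaseDefs

/-!
# OS-Z13 ZeroPert: moving the eigenvalues off an invariant subspace

TASK. PROOF. Let `π` be the orthogonal projection on `W` (as a continuous linear map `E d → E d`, `Submodule.starProjection` or
`W.subtypeL.comp W.orthogonalProjection`), `π' = 1 - π` the projection on `Wᗮ`; both have norm at most one. For `t > 0` let
`B = 1 + D ∘ π + t • π'`: `‖B - 1‖ ≤ ‖D‖ + t < ε` for small `t`, `B x = x + D x` on `W`. Let `A' = A ∘ B`, `C = π' ∘ A`.
`A` maps `W` into `W`, so `C (π x) = 0`, `C x = C (π' x)`. `B x = (1 + t) • π' x +` an element of `W`, so `π' (A' x) = (1 + t) • C x`.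
By induction on `k ≥ 1`: `π' (A'^k x) = (1 + t)^k • C^k x` (`C (A'^k x) = C (π' (A'^k x))`). Choose `t` so small and such that
`((1 + t)^q)⁻¹` is not an eigenvalue of `C^q` (finitely many eigenvalues, `Module.End.finite_hasEigenvalue`, infinitely many
values): then `T = (1 + t)^q • C^q - 1` is injective, so surjective on `E d`. Given `x` let `T y = π' x`. Apply `π'`
(`π' C = C`): `(1 + t)^q • C^q y - π' y = π' x`, i.e. `π' (A'^q y - y - x) = 0`, so `A'^q y - y - x ∈ W`.
-/

open Set Topology Filter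

namespace Pool.Agent.Helper55.OS

theorem exists_pert {d : ℕ} (A : E d →L[ℝ] E d) (W : Submodule ℝ (E d)) (hW : ∀ x ∈ W, A x ∈ W)
    (D : E d →L[ℝ] E d) (hD : ∀ x ∈ W, D x ∈ W) (ε : ℝ) (hε : ‖D‖ < ε) (q : ℕ) (hq : 1 ≤ q) :
    ∃ B : E d →L[ℝ] E d, ‖B - ContinuousLinearMap.id ℝ (E d)‖ < ε ∧ (∀ x ∈ W, B x = x + D x) ∧
      ∀ x : E d, ∃ y : E d, ((A.comp B) ^ q) y - y - x ∈ W := by
  classical
  obtain ⟨p, hp⟩ : ∃ p : E d →L[ℝ] E d, p = W.starProjection := ⟨_, rfl⟩
  have hpm : ∀ x, p x ∈ W := fun x => by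
    rw [hp]
    exact Submodule.starProjection_apply_mem W x
  have hps : ∀ x ∈ W, p x = x := fun x hx => by
    rw [hp]
    exact Submodule.starProjection_eq_self_iff.2 hx
  have hpn : ‖p‖ ≤ 1 := by
    rw [hp]
    exact Submodule.starProjection_norm_le W
  obtain ⟨p', hp'⟩ : ∃ p' : E d →L[ℝ] E d, p' = ContinuousLinearMap.id ℝ (E d) - p := ⟨_, rfl⟩
  have hp'x : ∀ x, p' x = x - p x := fun x => by
    rw [hp']
    rfl
  have hp'n : ‖p'‖ ≤ 1 := by
    have h1 : p' = Wᗮ.starProjection := by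
      rw [Submodule.starProjection_orthogonal, hp', hp]
      try rfl
    rw [h1]
    exact Submodule.starProjection_norm_le Wᗮ
  have hz : ∀ x, p' x = 0 ↔ x ∈ W := by
    intro x
    rw [hp'x, sub_eq_zero]
    constructor
    · intro h
      rw [h]
      exact hpm x
    · intro h
      exact (hps x h).symm
  have hadd : ∀ x, x = p x + p' x := fun x => by
    rw [hp'x]
    abel
  have hpp : ∀ x, p' (p' x) = p' x := by
    intro x
    have h1 : p' (p x) = 0 := (hz _).2 (hpm x)
    have h2 : p' x = p' (p x) + p' (p' x) := by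
      conv_lhs => rw [hadd x]
      rw [map_add]
    rw [h1, zero_add] at h2
    exact h2.symm
  obtain ⟨C, hC⟩ : ∃ C : E d →L[ℝ] E d, C = p'.comp A := ⟨_, rfl⟩
  have hCx : ∀ x, C x = p' (A x) := fun x => by
    rw [hC]
    rfl
  have hCp : ∀ x, C x = C (p' x) := by
    intro x
    have h1 : C (p x) = 0 := by
      rw [hCx]
      exact (hz _).2 (hW _ (hpm x))
    conv_lhs => rw [hadd x]
    rw [map_add, h1, zero_add]
  -- the choice of `t`
  obtain ⟨L, hL⟩ : ∃ L : Module.End ℝ (E d), L = ((C ^ q : E d →L[ℝ] E d) : E d →ₗ[ℝ] E d) :=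
    ⟨_, rfl⟩
  have hLx : ∀ x, L x = (C ^ q) x := fun x => by
    rw [hL]
    rfl
  obtain ⟨t, ht0, htε, htL⟩ : ∃ t : ℝ, 0 < t ∧ t < ε - ‖D‖ ∧ ¬ L.HasEigenvalue (((1 + t) ^ q)⁻¹) := by
    by_contra hcon
    push Not at hcon
    have hfin : {μ : ℝ | L.HasEigenvalue μ}.Finite := Module.End.finite_hasEigenvalue L
    have hinj : Set.InjOn (fun t : ℝ => ((1 + t) ^ q)⁻¹) (Ioo 0 (ε - ‖D‖)) := by
      intro a ha b hb hab
      have h1 : (1 + a) ^ q = (1 + b) ^ q := inv_injective hab
      have h2 := (pow_left_inj₀ (by linarith [ha.1]) (by linarith [hb.1]) (by omega)).1 h1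
      linarith
    have hsub : (fun t : ℝ => ((1 + t) ^ q)⁻¹) '' (Ioo 0 (ε - ‖D‖)) ⊆ {μ : ℝ | L.HasEigenvalue μ} := by
      rintro _ ⟨t, ht, rfl⟩
      exact hcon t ht.1 ht.2
    have hinf : (Ioo 0 (ε - ‖D‖)).Infinite := Ioo_infinite (by linarith)
    exact (hinf.image hinj) (hfin.subset hsub)
  have ht1 : 0 < 1 + t := by linarith
  obtain ⟨B, hB⟩ : ∃ B : E d →L[ℝ] E d,
      B = ContinuousLinearMap.id ℝ (E d) + (D.comp p + t • p') := ⟨_, rfl⟩
  have hBx : ∀ x, B x = x + (D (p x) + t • p' x) := fun x => by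
    rw [hB]
    rfl
  refine ⟨B, ?_, ?_, ?_⟩
  · have h1 : B - ContinuousLinearMap.id ℝ (E d) = D.comp p + t • p' := by
      rw [hB]
      abel
    rw [h1]
    have h2 : ‖D.comp p‖ ≤ ‖D‖ := by
      refine (ContinuousLinearMap.opNorm_comp_le _ _).trans ?_
      calc ‖D‖ * ‖p‖ ≤ ‖D‖ * 1 := mul_le_mul_of_nonneg_left hpn (norm_nonneg _)
        _ = ‖D‖ := mul_one _
    have h3 : ‖t • p'‖ ≤ t := by
      rw [norm_smul, Real.norm_eq_abs, abs_of_pos ht0]
      calc t * ‖p'‖ ≤ t * 1 := mul_le_mul_of_nonneg_left hp'n ht0.le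
        _ = t := mul_one _
    have h4 := norm_add_le (D.comp p) (t • p')
    linarith
  · intro x hx
    rw [hBx, hps x hx, (hz x).2 hx, smul_zero, add_zero]
  · -- the key formula
    have hone : ∀ x, p' (A (B x)) = (1 + t) • C x := by
      intro x
      have h1 : B x = (p x + D (p x)) + (1 + t) • p' x := by
        rw [hBx]
        conv_lhs => rw [hadd x]
        have h2 : p (p x + p' x) = p x := by rw [← hadd x]
        have h3 : p' (p x + p' x) = p' x := by rw [← hadd x]
        rw [h2, h3, add_smul, one_smul]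
        abel
      rw [h1, map_add, map_add]
      have h4 : p' (A (p x + D (p x))) = 0 :=
        (hz _).2 (hW _ (W.add_mem (hpm x) (hD _ (hpm x))))
      rw [h4, zero_add, map_smul, map_smul, ← hCx, ← hCp]
    have hk : ∀ (k : ℕ) (x : E d), p' (((A.comp B) ^ (k + 1)) x) =
        (1 + t) ^ (k + 1) • (C ^ (k + 1)) x := by
      intro k
      induction k with
      | zero =>
        intro x
        rw [zero_add, pow_one, pow_one, pow_one]
        exact hone x
      | succ k ih =>
        intro x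
        have e1 : ((A.comp B) ^ (k + 1 + 1)) x = A (B (((A.comp B) ^ (k + 1)) x)) := by
          rw [pow_succ']
          rfl
        have e2 : (C ^ (k + 1 + 1)) x = C ((C ^ (k + 1)) x) := by
          rw [pow_succ']
          rfl
        rw [e1, e2, hone, hCp, ih x, map_smul, smul_smul, pow_succ (1 + t) (k + 1)]
        congr 1
        ring
    obtain ⟨m, hm⟩ : ∃ m, q = m + 1 := ⟨q - 1, by omega⟩
    have hCq : ∀ y, p' ((C ^ q) y) = (C ^ q) y := by
      intro y
      have e2 : (C ^ q) y = C ((C ^ m) y) := by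
        rw [hm, pow_succ']
        rfl
      rw [e2, hCx, hpp]
    have hinj : Function.Injective (((1 + t) ^ q) • L - 1 : Module.End ℝ (E d)) := by
      rw [injective_iff_map_eq_zero]
      intro y hy
      by_contra hy0
      apply htL
      have h1 : ((1 + t) ^ q) • L y = y := by
        have h2 : ((((1 + t) ^ q) • L - 1 : Module.End ℝ (E d))) y = ((1 + t) ^ q) • L y - y := rfl
        rw [h2] at hy
        exact sub_eq_zero.1 hy
      have hpos : (0 : ℝ) < (1 + t) ^ q := pow_pos ht1 q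
      have h3 : L y = (((1 + t) ^ q)⁻¹) • y := by
        have h4 : (((1 + t) ^ q)⁻¹) • (((1 + t) ^ q) • L y) = (((1 + t) ^ q)⁻¹) • y := by rw [h1]
        rwa [smul_smul, inv_mul_cancel₀ hpos.ne', one_smul] at h4
      exact Module.End.hasEigenvalue_of_hasEigenvector
        (x := y) ⟨Module.End.mem_eigenspace_iff.2 h3, hy0⟩
    have hsurj := LinearMap.injective_iff_surjective.1 hinj
    intro x
    obtain ⟨y, hy⟩ := hsurj (p' x)
    refine ⟨y, ?_⟩
    have h2 : ((((1 + t) ^ q) • L - 1 : Module.End ℝ (E d))) y = ((1 + t) ^ q) • L y - y := rfl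
    rw [h2, hLx] at hy
    have h3 := congrArg p' hy
    rw [map_sub, map_smul, hCq, hpp] at h3
    have h4 := hk m y
    rw [← hm] at h4
    rw [← hz, map_sub, map_sub, h4, h3, sub_self]

end Pool.Agent.Helper55.OS
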