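import Pool.Agent.Helper55.OS.ZeroDual
import Pool.Agent.Helper55.OS.ZeroPert

/-!
# OS-Z14 ZeroUE: a small factor gives a periodic vector with surjective period map

TASK. PROOFS. We may assume `ε ≤ 1` (`PertOK` is monotone in `ε`); then every `B` with `‖B - 1‖ < ε` is bijective (`1 - B` has norm `< 1`:
`‖B x‖ ≥ (1 - ε') ‖x‖` so injective, finite dimension), and `A ∘ B` is surjective.
`pert_line`: `W = span {u}`, `D = 0`, `q = 2`; OS-Z13 gives `B`, `B u = u`, `A' u = A u = c u`, `A'^2 u = u`; conclude with `surj_of_dual` and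
`dual_line` (an `x ∈ W` is `a • u`; apply the hypothesis of `hD` to `x = u`).
`pert_plane`: `u, v` are independent: if `v = k u` (or `u = k v`) then `A v = k A u` gives `-s k^2 = s`, so `s = 0` (if `u = 0` then
`A u = 0 = -s v`, `v = 0`). `W = span {u, v}` is invariant under `A`. Choose functionals `f, g` with `f u = 1, f v = 0, g u = 0, g v = 1`
(extend the dual basis) and put `J x = g x • u - f x • v`: `J u = -v`, `J v = u`. For an angle `α` let
`D = ((cos α - 1) • id + sin α • J)` : `D` maps `W` to `W` and `‖D‖ → 0` for `α → 0`. Write `c + s I = exp (θ I)`. Choose integers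
`a`, `q ≥ 1` with `α = 2 π a / q - θ` so small that `‖D‖ < ε` and `sin (2 π a / q) ≠ 0` (it is near `sin θ = s ≠ 0`; rationals are dense:
`exists_rat_btwn`). OS-Z13 with this `D` and `q` gives `B` with `B u = cos α u - sin α v`, `B v = cos α v + sin α u`. With
`c' + s' I = (c + s I) exp (α I) = exp (2 π a I / q)`: `A' u = c' u - s' v`, `A' v = s' u + c' v`, `(c' + s' I)^q = 1`, `s' ≠ 0`,
`A'^q u = u` (by induction `A'^i u = c'_i u - s'_i v`). Conclude with `surj_of_dual` and `dual_plane`.
`pertOK_of_unitEig`: the two cases `s ≠ 0` and `s = 0` (then `c^2 = 1` and `u` or `v` is nonzero).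
-/

open Set Topology Filter

namespace Pool.Agent.Helper55.OS

private theorem surj_comp_of_near {d : ℕ} (A B : E d →L[ℝ] E d) (hA : Function.Surjective A)
    (hB : ‖B - ContinuousLinearMap.id ℝ (E d)‖ < 1) : Function.Surjective (A.comp B) := by
  have hinj : Function.Injective (B : E d →ₗ[ℝ] E d) := by
    rw [← LinearMap.ker_eq_bot, LinearMap.ker_eq_bot']
    intro x hx
    have hx' : B x = 0 := hx
    by_contra hne
    have hpos : 0 < ‖x‖ := norm_pos_iff.2 hne
    have h1 : (B - ContinuousLinearMap.id ℝ (E d)) x = -x := by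
      rw [ContinuousLinearMap.sub_apply, ContinuousLinearMap.id_apply, hx', zero_sub]
    have h2 := (B - ContinuousLinearMap.id ℝ (E d)).le_opNorm x
    rw [h1, norm_neg] at h2
    nlinarith
  have hsurj : Function.Surjective (B : E d →ₗ[ℝ] E d) := LinearMap.injective_iff_surjective.1 hinj
  intro y
  obtain ⟨z, hz⟩ := hA y
  obtain ⟨x, hx⟩ := hsurj z
  refine ⟨x, ?_⟩
  rw [ContinuousLinearMap.comp_apply]
  have hx' : B x = z := hx
  rw [hx', hz]

private theorem pertOK_mono {d : ℕ} {A : E d →L[ℝ] E d} {ε ε' : ℝ} (h : ε' ≤ ε)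
    (hA : PertOK A ε') : PertOK A ε := by
  obtain ⟨B, q, w, h1, h2⟩ := hA
  exact ⟨B, q, w, lt_of_lt_of_le h1 h, h2⟩

private theorem indep_uv {d : ℕ} (A : E d →L[ℝ] E d) (c s : ℝ) (u v : E d)
    (hs : s ≠ 0) (huv : ¬ (u = 0 ∧ v = 0)) (h1 : A u = c • u - s • v)
    (h2 : A v = s • u + c • v) : LinearIndependent ℝ ![u, v] := by
  rw [LinearIndependent.pair_iff]
  intro a b hab
  have h3 : A (a • u + b • v) = 0 := by rw [hab, map_zero]
  rw [map_add, map_smul, map_smul, h1, h2] at h3
  have h4 : s • (b • u - a • v) = 0 := by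
    have h5 : s • (b • u - a • v) = (a • (c • u - s • v) + b • (s • u + c • v))
        - c • (a • u + b • v) := by
      module
    rw [h5, h3, hab, smul_zero, sub_zero]
  have h6 : b • u - a • v = 0 := (smul_eq_zero.1 h4).resolve_left hs
  have h7 : (a ^ 2 + b ^ 2) • u = 0 := by
    have h8 : (a ^ 2 + b ^ 2) • u = a • (a • u + b • v) + b • (b • u - a • v) := by
      module
    rw [h8, hab, h6, smul_zero, smul_zero, add_zero]
  have h9 : (a ^ 2 + b ^ 2) • v = 0 := by
    have h8 : (a ^ 2 + b ^ 2) • v = b • (a • u + b • v) - a • (b • u - a • v) := by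
      module
    rw [h8, hab, h6, smul_zero, smul_zero, sub_zero]
  have h10 : a ^ 2 + b ^ 2 = 0 := by
    by_contra hne
    exact huv ⟨(smul_eq_zero.1 h7).resolve_left hne, (smul_eq_zero.1 h9).resolve_left hne⟩
  constructor
  · nlinarith [sq_nonneg a, sq_nonneg b]
  · nlinarith [sq_nonneg a, sq_nonneg b]

private theorem exists_J {d : ℕ} (u v : E d) (h : LinearIndependent ℝ ![u, v]) :
    ∃ J : E d →L[ℝ] E d, J u = -v ∧ J v = u := by
  obtain ⟨g, hg⟩ := LinearMap.exists_extend ((Module.Basis.span h).constr ℝ ![-v, u])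
  refine ⟨LinearMap.toContinuousLinearMap g, ?_, ?_⟩
  · have h1 := LinearMap.congr_fun hg (Module.Basis.span h 0)
    rw [Module.Basis.constr_basis] at h1
    have h2 : ((Module.Basis.span h 0 : Submodule.span ℝ (Set.range ![u, v])) : E d) = u := by
      rw [Module.Basis.span_apply]
      rfl
    change g ((Module.Basis.span h 0 : Submodule.span ℝ (Set.range ![u, v])) : E d) = -v at h1
    rw [h2] at h1
    exact h1
  · have h1 := LinearMap.congr_fun hg (Module.Basis.span h 1)
    rw [Module.Basis.constr_basis] at h1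
    have h2 : ((Module.Basis.span h 1 : Submodule.span ℝ (Set.range ![u, v])) : E d) = v := by
      rw [Module.Basis.span_apply]
      rfl
    change g ((Module.Basis.span h 1 : Submodule.span ℝ (Set.range ![u, v])) : E d) = u at h1
    rw [h2] at h1
    exact h1

private theorem pow_uv {d : ℕ} (A : E d →L[ℝ] E d) (u v : E d) (c s : ℝ)
    (h1 : A u = c • u - s • v) (h2 : A v = s • u + c • v) (i : ℕ) :
    (A ^ i) u = (((c : ℂ) + (s : ℂ) * Complex.I) ^ i).re • u
      - (((c : ℂ) + (s : ℂ) * Complex.I) ^ i).im • v := by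
  induction i with
  | zero => simp
  | succ i ih =>
    rw [pow_succ', ContinuousLinearMap.mul_apply, ih, map_sub, map_smul, map_smul, h1, h2,
      pow_succ, Complex.mul_re, Complex.mul_im]
    simp only [Complex.add_re, Complex.ofReal_re, Complex.mul_re, Complex.I_re, mul_zero,
      Complex.ofReal_im, Complex.I_im, mul_one, sub_self, add_zero, Complex.add_im, Complex.mul_im,
      zero_add]
    module

theorem pert_line {d : ℕ} (A : E d →L[ℝ] E d) (hA : Function.Bijective A) (c : ℝ) (u : E d)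
    (hc : c ^ 2 = 1) (hu : u ≠ 0) (h : A u = c • u) (ε : ℝ) (hε : 0 < ε) : PertOK A ε := by
  refine pertOK_mono (min_le_left ε 1) ?_
  have hε' : 0 < min ε 1 := lt_min hε one_pos
  obtain ⟨B, hB, hBW, hH⟩ := exists_pert A (Submodule.span ℝ {u})
    (by
      intro x hx
      obtain ⟨a, rfl⟩ := Submodule.mem_span_singleton.1 hx
      rw [map_smul, h]
      exact Submodule.smul_mem _ _ (Submodule.smul_mem _ _ (Submodule.mem_span_singleton_self u)))
    0 (fun x _ => by
      rw [ContinuousLinearMap.zero_apply]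
      exact Submodule.zero_mem _)
    (min ε 1) (by rwa [norm_zero]) 2 (by norm_num)
  have hBu : B u = u := by
    rw [hBW u (Submodule.mem_span_singleton_self u), ContinuousLinearMap.zero_apply, add_zero]
  have hAu : (A.comp B) u = c • u := by
    rw [ContinuousLinearMap.comp_apply, hBu, h]
  have hfix : ((A.comp B) ^ 2) u = u := by
    rw [pow_two, ContinuousLinearMap.mul_apply, hAu, map_smul, hAu, smul_smul, ← pow_two, hc,
      one_smul]
  refine ⟨B, 2, u, hB, by norm_num, hu, hfix, ?_⟩
  refine surj_of_dual (A.comp B)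
    (surj_comp_of_near A B hA.2 (lt_of_lt_of_le hB (min_le_right _ _))) 2 (by norm_num) u hu hfix
    (Submodule.span ℝ {u}) hH ?_
  intro φ hφ x hx
  obtain ⟨a, rfl⟩ := Submodule.mem_span_singleton.1 hx
  have h3 := dual_line (A.comp B) u hu c hc hAu φ
    (hφ u (Submodule.mem_span_singleton_self u))
  rw [map_smul, h3, smul_zero]

theorem pert_plane {d : ℕ} (A : E d →L[ℝ] E d) (hA : Function.Bijective A) (c s : ℝ) (u v : E d)
    (hcs : c ^ 2 + s ^ 2 = 1) (hs : s ≠ 0) (huv : ¬ (u = 0 ∧ v = 0)) (h1 : A u = c • u - s • v)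
    (h2 : A v = s • u + c • v) (ε : ℝ) (hε : 0 < ε) : PertOK A ε := by
  refine pertOK_mono (min_le_left ε 1) ?_
  have hε' : 0 < min ε 1 := lt_min hε one_pos
  have hind := indep_uv A c s u v hs huv h1 h2
  have hu : u ≠ 0 := hind.ne_zero 0
  obtain ⟨J, hJu, hJv⟩ := exists_J u v hind
  -- the angle
  obtain ⟨θ, hcθ, hsθ⟩ : ∃ θ : ℝ, Real.cos θ = c ∧ Real.sin θ = s := by
    have hn : ‖(⟨c, s⟩ : ℂ)‖ = 1 := by
      rw [Complex.norm_eq_sqrt_sq_add_sq]
      change Real.sqrt (c ^ 2 + s ^ 2) = 1
      rw [hcs, Real.sqrt_one]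
    have hz : (⟨c, s⟩ : ℂ) ≠ 0 := by
      intro h0
      rw [h0, norm_zero] at hn
      exact zero_ne_one hn
    refine ⟨Complex.arg ⟨c, s⟩, ?_, ?_⟩
    · rw [Complex.cos_arg hz, hn, div_one]
    · rw [Complex.sin_arg, hn, div_one]
  let D : ℝ → (E d →L[ℝ] E d) := fun α =>
    (Real.cos α - 1) • ContinuousLinearMap.id ℝ (E d) + Real.sin α • J
  have hDcont : Continuous fun α => ‖D α‖ := by
    refine continuous_norm.comp ?_
    exact ((Real.continuous_cos.sub continuous_const).smul continuous_const).add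
      (Real.continuous_sin.smul continuous_const)
  have hD0 : ‖D 0‖ = 0 := by
    have h3 : D 0 = 0 := by
      ext1 x
      show (Real.cos 0 - 1) • x + Real.sin 0 • J x = 0
      rw [Real.cos_zero, Real.sin_zero, sub_self, zero_smul, zero_smul, add_zero]
    rw [h3, norm_zero]
  have hev1 : ∀ᶠ α in 𝓝 (0 : ℝ), ‖D α‖ < min ε 1 := by
    refine hDcont.continuousAt.eventually_lt continuousAt_const ?_
    rw [hD0]
    exact hε'
  have hev2 : ∀ᶠ α in 𝓝 (0 : ℝ), Real.sin (θ + α) ≠ 0 := by
    have hc2 : Continuous fun α : ℝ => Real.sin (θ + α) :=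
      Real.continuous_sin.comp (continuous_const.add continuous_id)
    refine hc2.continuousAt.eventually_ne ?_
    rw [add_zero, hsθ]
    exact hs
  obtain ⟨δ, hδ, hball⟩ := Metric.eventually_nhds_iff.1 (hev1.and hev2)
  have hpi : (0 : ℝ) < 2 * Real.pi := by positivity
  obtain ⟨r, hr1, hr2⟩ := exists_rat_btwn
    (show θ / (2 * Real.pi) < (θ + δ) / (2 * Real.pi) from
      div_lt_div_of_pos_right (by linarith) hpi)
  rw [div_lt_iff₀ hpi] at hr1
  rw [lt_div_iff₀ hpi] at hr2
  set β : ℝ := (r : ℝ) * (2 * Real.pi) with hβ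
  set α : ℝ := β - θ with hα
  have hθα : θ + α = β := by rw [hα]; ring
  have hαδ : dist α 0 < δ := by
    rw [Real.dist_eq, sub_zero, abs_lt]
    constructor <;> rw [hα] <;> linarith
  obtain ⟨hDα, hsin⟩ := hball hαδ
  rw [hθα] at hsin
  have hcb : Real.cos β = c * Real.cos α - s * Real.sin α := by
    rw [← hθα, Real.cos_add, hcθ, hsθ]
  have hsb : Real.sin β = s * Real.cos α + c * Real.sin α := by
    rw [← hθα, Real.sin_add, hcθ, hsθ]
  set q : ℕ := r.den with hq
  have hq1 : 1 ≤ q := r.den_pos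
  have hroot : ((Real.cos β : ℂ) + (Real.sin β : ℂ) * Complex.I) ^ q = 1 := by
    have h3 : ((Real.cos β : ℂ) + (Real.sin β : ℂ) * Complex.I) = Complex.exp (β * Complex.I) := by
      rw [Complex.exp_mul_I, Complex.ofReal_cos, Complex.ofReal_sin]
    rw [h3, ← Complex.exp_nat_mul, Complex.exp_eq_one_iff]
    refine ⟨r.num, ?_⟩
    have h4 : (q : ℝ) * (r : ℝ) = r.num := by
      have h5 : (r : ℚ) * r.den = r.num := Rat.mul_den_eq_num r
      have h6 : ((r : ℚ) : ℝ) * (r.den : ℝ) = (r.num : ℝ) := by exact_mod_cast congrArg (fun x : ℚ => (x : ℝ)) h5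
      rw [mul_comm]
      exact h6
    have h7 : ((q : ℕ) : ℂ) * ((r : ℝ) : ℂ) = ((r.num : ℤ) : ℂ) := by
      have := congrArg (fun x : ℝ => (x : ℂ)) h4
      push_cast at this ⊢
      exact this
    rw [hβ]
    push_cast
    push_cast at h7
    linear_combination (2 * (Real.pi : ℂ) * Complex.I) * h7
  have hWuv : ∀ x ∈ Submodule.span ℝ {u, v}, ∃ a b : ℝ, x = a • u + b • v := by
    intro x hx
    obtain ⟨a, b, hab⟩ := Submodule.mem_span_pair.1 hx
    exact ⟨a, b, hab.symm⟩
  have huW : u ∈ Submodule.span ℝ {u, v} := Submodule.subset_span (by simp)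
  have hvW : v ∈ Submodule.span ℝ {u, v} := Submodule.subset_span (by simp)
  obtain ⟨B, hB, hBW, hH⟩ := exists_pert A (Submodule.span ℝ {u, v})
    (by
      intro x hx
      obtain ⟨a, b, rfl⟩ := hWuv x hx
      rw [map_add, map_smul, map_smul, h1, h2]
      exact Submodule.add_mem _
        (Submodule.smul_mem _ _ (Submodule.sub_mem _ (Submodule.smul_mem _ _ huW)
          (Submodule.smul_mem _ _ hvW)))
        (Submodule.smul_mem _ _ (Submodule.add_mem _ (Submodule.smul_mem _ _ huW)
          (Submodule.smul_mem _ _ hvW))))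
    (D α) (by
      intro x hx
      obtain ⟨a, b, rfl⟩ := hWuv x hx
      have h3 : D α (a • u + b • v)
          = (Real.cos α - 1) • (a • u + b • v) + Real.sin α • (a • (-v) + b • u) := by
        simp only [D, ContinuousLinearMap.add_apply, ContinuousLinearMap.smul_apply,
          ContinuousLinearMap.id_apply, map_add, map_smul, hJu, hJv]
        module
      rw [h3]
      exact Submodule.add_mem _ (Submodule.smul_mem _ _ hx)
        (Submodule.smul_mem _ _ (Submodule.add_mem _ (Submodule.smul_mem _ _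
          (Submodule.neg_mem _ hvW)) (Submodule.smul_mem _ _ huW))))
    (min ε 1) hDα q hq1
  have hDu : D α u = (Real.cos α - 1) • u - Real.sin α • v := by
    simp only [D, ContinuousLinearMap.add_apply, ContinuousLinearMap.smul_apply,
      ContinuousLinearMap.id_apply, hJu]
    module
  have hDv : D α v = (Real.cos α - 1) • v + Real.sin α • u := by
    simp only [D, ContinuousLinearMap.add_apply, ContinuousLinearMap.smul_apply,
      ContinuousLinearMap.id_apply, hJv]
  have hA'u : (A.comp B) u = Real.cos β • u - Real.sin β • v := by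
    rw [ContinuousLinearMap.comp_apply, hBW u huW, hDu, hcb, hsb]
    simp only [map_add, map_sub, map_smul, h1, h2]
    module
  have hA'v : (A.comp B) v = Real.sin β • u + Real.cos β • v := by
    rw [ContinuousLinearMap.comp_apply, hBW v hvW, hDv, hcb, hsb]
    simp only [map_add, map_smul, h1, h2]
    module
  have hfix : ((A.comp B) ^ q) u = u := by
    rw [pow_uv (A.comp B) u v _ _ hA'u hA'v, hroot]
    simp
  refine ⟨B, q, u, hB, hq1, hu, hfix, ?_⟩
  refine surj_of_dual (A.comp B)
    (surj_comp_of_near A B hA.2 (lt_of_lt_of_le hB (min_le_right _ _))) q hq1 u hu hfix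
    (Submodule.span ℝ {u, v}) hH ?_
  intro φ hφ x hx
  obtain ⟨a, b, rfl⟩ := hWuv x hx
  obtain ⟨h3, h4⟩ := dual_plane (A.comp B) u v hind (Real.cos β) (Real.sin β)
    (by rw [add_comm]; exact Real.sin_sq_add_cos_sq β) hsin hA'u hA'v q hq1 hroot φ (hφ u huW)
  rw [map_add, map_smul, map_smul, h3, h4, smul_zero, smul_zero, add_zero]

theorem pertOK_of_unitEig {d : ℕ} (A : E d →L[ℝ] E d) (hA : Function.Bijective A) (h : UnitEig A)
    (ε : ℝ) (hε : 0 < ε) : PertOK A ε := by
  obtain ⟨c, s, u, v, hcs, huv, h1, h2⟩ := h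
  by_cases hs : s = 0
  · subst hs
    have hc : c ^ 2 = 1 := by linarith [hcs]
    rw [zero_smul, sub_zero] at h1
    rw [zero_smul, zero_add] at h2
    by_cases hu : u = 0
    · have hv : v ≠ 0 := fun hv => huv ⟨hu, hv⟩
      exact pert_line A hA c v hc hv h2 ε hε
    · exact pert_line A hA c u hc hu h1 ε hε
  · exact pert_plane A hA c s u v hcs hs huv h1 h2 ε hε

end Pool.Agent.Helper55.OS
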