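import Pool.Agent.Helper55.OS.ZeroFin
import Pool.Agent.Helper55.OS.ZeroUE
import Pool.Agent.Helper55.OS.ZeroMulPer
import Pool.Agent.Helper55.OS.ZeroMore

/-!
# OS-Z18 ZeroNoUE: the periodic points are hyperbolic (assembly)
-/

open Set Topology Manifold ContDiff Filter

namespace Pool.Agent.Helper55.OS

variable {d : ℕ} {M : Type} [TopologicalSpace M] [ChartedSpace (E d) M] [IsManifold (𝓡 d) ∞ M]
  [T2Space M] [CompactSpace M]

theorem no_unit_eig (𝒰 : Set (Dif d M)) (h𝒰 : IsOpen[smoothTop d M] 𝒰) (hcs : CountStable 𝒰)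
    (g : Dif d M) (hg : g ∈ 𝒰) (m : ℕ) (hm : 1 ≤ m) (p : M) (hp : (g : M → M)^[m] p = p)
    (hmin : ∀ i, 1 ≤ i → i < m → (g : M → M)^[i] p ≠ p) :
    ¬ UnitEig (dn (d := d) (g : M → M) m p) := by
  intro hue
  obtain ⟨ε, hε, hB⟩ := exists_mul_deriv_period g 𝒰 h𝒰 hg m hm p hp hmin
  obtain ⟨B, q, w, hBn, hq, hw, hfix, hsurj⟩ :=
    pertOK_of_unitEig _ (dn_bijective g m p) hue ε hε
  obtain ⟨g1, hg1, hit, hd1⟩ := hB B hBn
  have hp1 : (g1 : M → M)^[m] p = p := by rw [hit, hp]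
  have hmin1 : ∀ i, 1 ≤ i → i < m → (g1 : M → M)^[i] p ≠ p := by
    intro i h1 h2
    rw [hit]
    exact hmin i h1 h2
  rw [← hd1] at hfix hsurj
  have hmq : 1 ≤ m * q := Nat.mul_pos hm hq
  have hfin := fix_finite 𝒰 h𝒰 hcs (m * q) hmq
  obtain ⟨g2, hg2, hsub, x, hx2, hx1⟩ :=
    exists_more_periodic g1 𝒰 h𝒰 hg1 m hm p hp1 hmin1 q hq w hw hfix hsurj (hfin g1 hg1)
  obtain ⟨e⟩ := hcs g1 hg1 g2 hg2 (m * q) hmq
  have h1 : {x : M | (g1 : M → M)^[m * q] x = x}.ncard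
      = {x : M | (g2 : M → M)^[m * q] x = x}.ncard := Nat.card_congr e
  have h2 := Set.eq_of_subset_of_ncard_le hsub h1.ge (hfin g2 hg2)
  have h3 : x ∈ {x : M | (g1 : M → M)^[m * q] x = x} := by
    rw [h2]
    exact hx2
  exact hx1 h3

end Pool.Agent.Helper55.OS
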