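import Pool.Agent.Helper55.OS.ZeroCount
import Pool.Agent.Helper55.OS.ZeroNoUE
import Pool.Agent.Helper55.OS.ZeroHyp

/-!
# OS-Z24 ZeroMain (interface Z1, Z2): the periodic points of an Omega-stable diffeomorphism (assembly)
-/

open Set Topology Manifold ContDiff Filter

namespace Pool.Agent.Helper55.OS

variable {d : ℕ} {M : Type} [TopologicalSpace M] [ChartedSpace (E d) M] [IsManifold (𝓡 d) ∞ M]
  [T2Space M] [CompactSpace M]

/-- (Z1) An Omega-stable diffeomorphism has finitely many periodic points of each period. -/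
theorem finite_fix_of_omegaStable (f : Dif d M) (h : OmegaStable f) (n : ℕ) (hn : 1 ≤ n) :
    {x : M | (f : M → M)^[n] x = x}.Finite := by
  obtain ⟨𝒰, h1, h2, h3⟩ := countStable_of_omegaStable f h
  exact fix_finite 𝒰 h1 h3 n hn f h2

/-- (Z2) The periodic orbits of an Omega-stable diffeomorphism are hyperbolic. -/
theorem hypOn_of_omegaStable (ρ : Metric d M) (f : Dif d M) (h : OmegaStable f) (n : ℕ)
    (hn : 1 ≤ n) (p : M) (hp : (f : M → M)^[n] p = p) :
    HypOn ρ f {y : M | ∃ j : ℕ, y = (f : M → M)^[j] p} := by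
  obtain ⟨𝒰, h1, h2, h3⟩ := countStable_of_omegaStable f h
  have hper : Function.IsPeriodicPt (f : M → M) n p := hp
  have hm : 1 ≤ Function.minimalPeriod (f : M → M) p := hper.minimalPeriod_pos hn
  have hp' : (f : M → M)^[Function.minimalPeriod (f : M → M) p] p = p :=
    Function.isPeriodicPt_minimalPeriod (f : M → M) p
  refine hypOn_orbit ρ f _ hm p hp' (no_unit_eig 𝒰 h1 h3 f h2 _ hm p hp' ?_)
  intro i hi1 hi2 hi3
  exact Function.not_isPeriodicPt_of_pos_of_lt_minimalPeriod (by omega) hi2 hi3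

end Pool.Agent.Helper55.OS
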