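import Pool.Agent.Helper55.OS.FeComb
import Pool.Agent.Helper55.OS.FeWand
import Pool.Agent.Helper55.OS.FeClose
import Pool.Agent.Helper55.OS.ZeroMain

/-!
# OS-F4 FeMain (Theorem F): an isolated nonwandering point of an Omega-stable diffeomorphism is periodic
-/

open Set Topology Manifold ContDiff Filter

namespace Pool.Agent.Helper55.OS

variable {d : ℕ} {M : Type} [TopologicalSpace M] [ChartedSpace (E d) M] [IsManifold (𝓡 d) ∞ M]
  [T2Space M] [CompactSpace M]

/-- The general argument: at a nonwandering point that is not a limit of periodic points the shells between small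
neighbourhoods cannot all be visited a bounded number of times. -/
theorem shell_argument (f : Dif d M) (h : OmegaStable f) (x : M)
    (hx : x ∈ omega (f : M → M)) (U0 : Set M) (hU0 : U0 ∈ 𝓝 x) (hU01 : U0 ∩ Function.periodicPts (f : M → M) = ∅)
    (hC : ∀ V ∈ 𝓝 x, ∃ C : ℕ, ∀ (y : M) (t : Finset ℕ), (∀ i ∈ t, (f : M → M)^[i] y ∈ U0 \ V) →
      t.card ≤ C) : False := by
  obtain ⟨𝒰, h𝒰, hf, hcs⟩ := countStable_of_omegaStable f h
  let P : Set M → Prop := fun U => U ∈ 𝓝 x ∧ U ⊆ U0
  have hstep : ∀ U : {U : Set M // P U}, ∃ D : {U : Set M // P U}, (D : Set M) ⊆ U ∧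
      ∀ y n, 1 ≤ n → y ∈ (D : Set M) → (f : M → M)^[n] y ∈ (D : Set M) →
        ∃ i, 0 < i ∧ i < n ∧ (f : M → M)^[i] y ∈ (U : Set M) := by
    rintro ⟨U, hU, hUU0⟩
    obtain ⟨D, hD, hDU, hD3⟩ := exists_close_nhd f 𝒰 h𝒰 hf hcs x U hU
      (subset_eq_empty (inter_subset_inter_left _ hUU0) hU01)
    exact ⟨⟨D, hD, hDU.trans hUU0⟩, hDU, hD3⟩
  choose F hF1 hF2 using hstep
  let B : ℕ → {U : Set M // P U} := fun k => Nat.rec ⟨U0, hU0, Subset.rfl⟩ (fun _ U => F U) k
  have hBs : ∀ k, B (k + 1) = F (B k) := fun k => rfl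
  refine comb_contradiction (f : M → M) (fun k => (B k).1) ?_ ?_ ?_ ?_
  · intro k
    rw [hBs]
    exact hF1 _
  · intro k
    obtain ⟨C, hC⟩ := hC (B (k + 1)).1 (B (k + 1)).2.1
    refine ⟨C, fun y t ht => hC y t fun i hi => ?_⟩
    obtain ⟨h1, h2⟩ := ht i hi
    exact ⟨(B k).2.2 h1, h2⟩
  · intro k y n hn hy hy'
    change y ∈ (B (k + 1)).1 at hy
    change (f : M → M)^[n] y ∈ (B (k + 1)).1 at hy'
    rw [hBs] at hy hy'
    exact hF2 (B k) y n hn hy hy'
  · intro k
    obtain ⟨n, hn, z, ⟨y, hy, hyz⟩, hz⟩ := hx (B k).1 (B k).2.1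
    exact ⟨y, n, hn, hy, by rw [hyz]; exact hz⟩

/-- If `x` is not a limit of periodic points, then every orbit segment that starts and ends very close to `x` visits a given
neighbourhood of `x` many times in between. -/
theorem many_returns (f : Dif d M) (h : OmegaStable f) (x : M)
    (hx : x ∉ closure (Function.periodicPts (f : M → M))) (U : Set M) (hU : U ∈ 𝓝 x) (m : ℕ) :
    ∃ D ∈ 𝓝 x, ∀ (y : M) (n : ℕ), 1 ≤ n → y ∈ D → (f : M → M)^[n] y ∈ D →
      ∃ t : Finset ℕ, m ≤ t.card ∧ ∀ i ∈ t, 0 < i ∧ i < n ∧ (f : M → M)^[i] y ∈ U := by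
  obtain ⟨𝒰, h𝒰, hf, hcs⟩ := countStable_of_omegaStable f h
  have main : ∀ m : ℕ, ∃ D ∈ 𝓝 x, D ∩ Function.periodicPts (f : M → M) = ∅ ∧ D ⊆ U ∧
      ∀ (y : M) (n : ℕ), 1 ≤ n → y ∈ D → (f : M → M)^[n] y ∈ D →
      ∃ t : Finset ℕ, m ≤ t.card ∧ ∀ i ∈ t, 0 < i ∧ i < n ∧ (f : M → M)^[i] y ∈ U := by
    intro m
    induction m with
    | zero =>
      refine ⟨U ∩ (closure (Function.periodicPts (f : M → M)))ᶜ,
        inter_mem hU (isClosed_closure.isOpen_compl.mem_nhds hx), ?_, inter_subset_left,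
        fun y n _ _ _ => ⟨∅, Nat.zero_le _, by simp⟩⟩
      apply eq_empty_of_forall_notMem
      rintro z ⟨⟨-, h1⟩, h2⟩
      exact h1 (subset_closure h2)
    | succ m ih =>
      obtain ⟨D, hD, hDp, hDU, hD2⟩ := ih
      obtain ⟨D', hD', hD'D, hD3⟩ := exists_close_nhd f 𝒰 h𝒰 hf hcs x D hD hDp
      refine ⟨D', hD', subset_eq_empty (inter_subset_inter_left _ hD'D) hDp, hD'D.trans hDU,
        fun y n hn hy hy' => ?_⟩
      obtain ⟨i, hi1, hi2, hi3⟩ := hD3 y n hn hy hy'
      obtain ⟨t, ht1, ht2⟩ := hD2 y i hi1 (hD'D hy) hi3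
      refine ⟨insert i t, ?_, ?_⟩
      · rw [Finset.card_insert_of_notMem]
        · omega
        · intro hit
          have := (ht2 i hit).2.1
          omega
      · intro j hj
        rcases Finset.mem_insert.mp hj with h1 | h1
        · subst h1
          exact ⟨hi1, hi2, hDU hi3⟩
        · obtain ⟨h2, h3, h4⟩ := ht2 j h1
          exact ⟨h2, by omega, h4⟩
  obtain ⟨D, hD, -, -, hD2⟩ := main m
  exact ⟨D, hD, hD2⟩

/-- Every nonwandering point of an Omega-stable diffeomorphism is multiply nonwandering: every neighbourhood is visited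
arbitrarily often by some orbits. -/
theorem multiply_nonwandering (f : Dif d M) (h : OmegaStable f) (x : M)
    (hx : x ∈ omega (f : M → M)) (U : Set M) (hU : U ∈ 𝓝 x) (m : ℕ) :
    ∃ (y : M) (t : Finset ℕ), t.card = m ∧ ∀ i ∈ t, (f : M → M)^[i] y ∈ U := by
  by_cases hper : x ∈ closure (Function.periodicPts (f : M → M))
  · obtain ⟨y, hyU, n, hn, hy⟩ := mem_closure_iff_nhds.mp hper U hU
    refine ⟨y, (Finset.range m).image (fun i => n * i), ?_, ?_⟩
    · rw [Finset.card_image_of_injective _ (fun a b hab => Nat.eq_of_mul_eq_mul_left hn hab),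
        Finset.card_range]
    · intro i hi
      obtain ⟨j, -, rfl⟩ := Finset.mem_image.mp hi
      have h1 : (f : M → M)^[n * j] y = y := by
        rw [Function.iterate_mul]
        exact (Function.IsFixedPt.iterate hy j)
      rw [h1]
      exact hyU
  · by_contra hcon
    push Not at hcon
    refine shell_argument f h x hx
      (U ∩ (closure (Function.periodicPts (f : M → M)))ᶜ)
      (inter_mem hU (isClosed_closure.isOpen_compl.mem_nhds hper)) ?_ ?_
    · apply eq_empty_of_forall_notMem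
      rintro z ⟨⟨-, h1⟩, h2⟩
      exact h1 (subset_closure h2)
    · intro V _
      refine ⟨m, fun y t ht => ?_⟩
      by_contra hlt
      push Not at hlt
      obtain ⟨t', ht', hcard⟩ := Finset.exists_subset_card_eq hlt.le
      obtain ⟨i, hi, hi2⟩ := hcon y t' hcard
      exact hi2 (ht i (ht' hi)).1.1

theorem isolated_periodic (f : Dif d M) (h : OmegaStable f) (x : M)
    (hx : x ∈ omega (f : M → M)) (hiso : ∃ U ∈ 𝓝 x, U ∩ omega (f : M → M) ⊆ {x}) :
    x ∈ Function.periodicPts (f : M → M) := by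
  by_contra hper
  obtain ⟨U1, hU1, hU2⟩ := hiso
  obtain ⟨U0, ⟨hU0, hU0c⟩, hU01⟩ := (compact_basis_nhds x).mem_iff.mp hU1
  have hU02 : U0 ∩ omega (f : M → M) ⊆ {x} := fun z hz => hU2 ⟨hU01 hz.1, hz.2⟩
  have hU03 : U0 ∩ Function.periodicPts (f : M → M) = ∅ := by
    apply eq_empty_of_forall_notMem
    rintro z ⟨h1, n, hn, h2⟩
    have h3 : z = x := hU02 ⟨h1, mem_omega_of_fixed _ n hn z h2⟩
    rw [h3] at h2
    exact hper ⟨n, hn, h2⟩
  refine shell_argument f h x hx U0 hU0 hU03 ?_
  intro V hV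
  obtain ⟨C, hC⟩ := wandering_bound (f : M → M) (U0 \ interior V)
    (hU0c.diff isOpen_interior) (by
      rintro z ⟨hz1, hz2⟩ hz3
      have h1 : z = x := hU02 ⟨hz1, hz3⟩
      rw [h1] at hz2
      exact hz2 (mem_interior_iff_mem_nhds.mpr hV))
  exact ⟨C, fun y t ht => hC y t fun i hi =>
    ⟨(ht i hi).1, fun h3 => (ht i hi).2 (interior_subset h3)⟩⟩

/-- The nonwandering points that are not in the closure of the periodic points have no isolated point. -/
theorem preperfect_omega_diff (f : Dif d M) (h : OmegaStable f) :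
    Preperfect (omega (f : M → M) \ closure (Function.periodicPts (f : M → M))) := by
  intro x hx
  rw [accPt_iff_nhds]
  intro U hU
  by_contra hcon
  push Not at hcon
  apply hx.2
  apply subset_closure
  refine isolated_periodic f h x hx.1 ⟨U ∩ (closure (Function.periodicPts (f : M → M)))ᶜ,
    inter_mem hU (isClosed_closure.isOpen_compl.mem_nhds hx.2), ?_⟩
  rintro z ⟨⟨hz1, hz2⟩, hz3⟩
  exact hcon z ⟨hz1, hz3, hz2⟩

theorem isClosed_omega {X : Type} [TopologicalSpace X] (f : X → X) : IsClosed (omega f) := by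
  rw [← closure_subset_iff_isClosed]
  intro x hx U hU
  obtain ⟨z, hz1, hz2⟩ := mem_closure_iff_nhds.mp hx (interior U) (interior_mem_nhds.mpr hU)
  obtain ⟨n, hn, h1⟩ := hz2 (interior U) (isOpen_interior.mem_nhds hz1)
  exact ⟨n, hn, h1.mono (inter_subset_inter (image_mono interior_subset) interior_subset)⟩

/-- If only countably many nonwandering points are not limits of periodic points, there are none. -/
theorem dense_of_countable (f : Dif d M) (h : OmegaStable f)
    (hc : (omega (f : M → M) \ closure (Function.periodicPts (f : M → M))).Countable) :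
    omega (f : M → M) ⊆ closure (Function.periodicPts (f : M → M)) := by
  by_contra hne
  obtain ⟨x, hx1, hx2⟩ := not_subset.mp hne
  have hcl := isClosed_omega (f : M → M)
  have : CompactSpace (omega (f : M → M)) := isCompact_iff_compactSpace.mp hcl.isCompact
  let O : Set (omega (f : M → M)) :=
    {z | (z : M) ∉ closure (Function.periodicPts (f : M → M))}
  have hO : IsOpen O := isClosed_closure.isOpen_compl.preimage continuous_subtype_val
  have : LocallyCompactSpace O := hO.locallyCompactSpace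
  have : Nonempty O := ⟨⟨⟨x, hx1⟩, hx2⟩⟩
  have hcount : Countable O := by
    have : Countable (omega (f : M → M) \ closure (Function.periodicPts (f : M → M)) : Set M) :=
      hc.to_subtype
    let F : O → (omega (f : M → M) \ closure (Function.periodicPts (f : M → M)) : Set M) :=
      fun z => ⟨z.1.1, z.1.2, z.2⟩
    refine Function.Injective.countable (f := F) ?_
    intro a b hab
    have h1 : (F a).1 = (F b).1 := by rw [hab]
    exact Subtype.ext (Subtype.ext h1)
  obtain ⟨z, w, hw⟩ := nonempty_interior_of_iUnion_of_closed (X := O) (f := fun z : O => {z})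
    (fun z => isClosed_singleton) (by
      apply eq_univ_of_forall
      intro z
      exact mem_iUnion.mpr ⟨z, rfl⟩)
  have hwz : w ∈ ({z} : Set O) := interior_subset hw
  rw [mem_singleton_iff] at hwz
  subst hwz
  have h1 : ({w} : Set O) ∈ 𝓝 w := mem_interior_iff_mem_nhds.mp hw
  rw [nhds_subtype, mem_comap] at h1
  obtain ⟨V1, hV1, h2⟩ := h1
  rw [nhds_subtype, mem_comap] at hV1
  obtain ⟨V2, hV2, h3⟩ := hV1
  apply w.2
  apply subset_closure
  refine isolated_periodic f h _ w.1.2 ⟨V2 ∩ (closure (Function.periodicPts (f : M → M)))ᶜ,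
    inter_mem hV2 (isClosed_closure.isOpen_compl.mem_nhds w.2), ?_⟩
  rintro z ⟨⟨hz1, hz2⟩, hz3⟩
  have h4 : (⟨⟨z, hz3⟩, hz2⟩ : O) ∈ ({w} : Set O) := h2 (h3 hz1)
  exact congrArg (fun w : O => (w.1 : M)) h4

end Pool.Agent.Helper55.OS
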