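import Pool.Agent.Helper55.OS.Defs

/-!
# OS-V1 HypUnion: subsets and finite disjoint unions of hyperbolic sets

PROOFS.
* `hypOn_mono`: Λ' ⊆ Λ closed: the same Es, Eu; {v | v.1 ∈ Λ' ∧ v.2 ∈ Es v.1} = {v | v.1 ∈ Λ ∧ v.2 ∈ Es v.1} ∩ (proj)⁻¹ Λ' is closed (proj : TangentBundle → M is continuous).
* `hypOn_union`: Λ1, Λ2 disjoint, f maps Λ1 to Λ1 and Λ2 to Λ2. Es x := Es1 x if x in Λ1, else Es2 x; same for Eu (classical). {v | v.1 ∈ Λ1 ∪ Λ2 ∧ v.2 ∈ Es v.1} is the union of the two closed sets. Constants c = min, r = min (c r^n ≤ c_i r_i^n, tnorm ≥ 0 (sqrt)).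
  Invariance: x in Λ1 implies f x in Λ1; x in Λ2 implies f x in Λ2, so f x not in Λ1.
* `hypOn_empty`: Es = Eu = ⊥, c = 1, r = 2.
* `hypOn_finite_union`: induction over the finite set 𝒮 of pairwise disjoint sets.
-/

open Set Topology Manifold ContDiff

namespace Pool.Agent.Helper55.OS

variable {d : ℕ} {M : Type} [TopologicalSpace M] [ChartedSpace (E d) M] [IsManifold (𝓡 d) ∞ M]

theorem hypOn_mono (ρ : Metric d M) (f : Dif d M) (Λ Λ' : Set M) (hc : IsClosed Λ')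
    (hs : Λ' ⊆ Λ) (h : HypOn ρ f Λ) : HypOn ρ f Λ' := by
  obtain ⟨Es, Eu, h1, h2, h3, h4, h5, c, r, hc0, hr, h6⟩ := h
  have hproj : Continuous (fun v : TangentBundle (𝓡 d) M => v.1) :=
    FiberBundle.continuous_proj (E d) (TangentSpace (𝓡 d) : M → Type _)
  have key : ∀ F : ∀ x : M, Submodule ℝ (TangentSpace (𝓡 d) x),
      IsClosed {v : TangentBundle (𝓡 d) M | v.1 ∈ Λ ∧ v.2 ∈ F v.1} →
      IsClosed {v : TangentBundle (𝓡 d) M | v.1 ∈ Λ' ∧ v.2 ∈ F v.1} := by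
    intro F hF
    have he : {v : TangentBundle (𝓡 d) M | v.1 ∈ Λ' ∧ v.2 ∈ F v.1} =
        {v : TangentBundle (𝓡 d) M | v.1 ∈ Λ ∧ v.2 ∈ F v.1} ∩
          (fun v : TangentBundle (𝓡 d) M => v.1) ⁻¹' Λ' := by
      ext v
      constructor
      · rintro ⟨h7, h8⟩
        exact ⟨⟨hs h7, h8⟩, h7⟩
      · rintro ⟨⟨_, h8⟩, h9⟩
        exact ⟨h9, h8⟩
    rw [he]
    exact hF.inter (hc.preimage hproj)
  exact ⟨Es, Eu, fun x hx => h1 x (hs hx), fun x hx => h2 x (hs hx), fun x hx => h3 x (hs hx),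
    key Es h4, key Eu h5, c, r, hc0, hr, fun x hx => h6 x (hs hx)⟩

private theorem hyp_const {c c' r r' a b : ℝ} (hc : 0 ≤ c) (hcc : c ≤ c') (hr : 0 ≤ r)
    (hrr : r ≤ r') (ha : 0 ≤ a) (n : ℕ) (h : c' * r' ^ n * a ≤ b) : c * r ^ n * a ≤ b := by
  refine le_trans ?_ h
  apply mul_le_mul_of_nonneg_right _ ha
  exact mul_le_mul hcc (pow_le_pow_left₀ hr hrr n) (by positivity) (by linarith)

theorem hypOn_union (ρ : Metric d M) (f : Dif d M) (Λ1 Λ2 : Set M) (hd : Disjoint Λ1 Λ2)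
    (i1 : ∀ x ∈ Λ1, f x ∈ Λ1) (i2 : ∀ x ∈ Λ2, f x ∈ Λ2) (h1 : HypOn ρ f Λ1)
    (h2 : HypOn ρ f Λ2) : HypOn ρ f (Λ1 ∪ Λ2) := by
  classical
  obtain ⟨Es1, Eu1, a1, a2, a3, a4, a5, c1, r1, hc1, hr1, a6⟩ := h1
  obtain ⟨Es2, Eu2, b1, b2, b3, b4, b5, c2, r2, hc2, hr2, b6⟩ := h2
  have hn : ∀ x ∈ Λ2, x ∉ Λ1 := fun x hx hx1 => disjoint_left.mp hd hx1 hx
  set Es : ∀ x : M, Submodule ℝ (TangentSpace (𝓡 d) x) :=
    fun x => if x ∈ Λ1 then Es1 x else Es2 x with hEs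
  set Eu : ∀ x : M, Submodule ℝ (TangentSpace (𝓡 d) x) :=
    fun x => if x ∈ Λ1 then Eu1 x else Eu2 x with hEu
  have s1 : ∀ x ∈ Λ1, Es x = Es1 x := fun x hx => if_pos hx
  have s2 : ∀ x ∈ Λ2, Es x = Es2 x := fun x hx => if_neg (hn x hx)
  have u1 : ∀ x ∈ Λ1, Eu x = Eu1 x := fun x hx => if_pos hx
  have u2 : ∀ x ∈ Λ2, Eu x = Eu2 x := fun x hx => if_neg (hn x hx)
  have key : ∀ F F1 F2 : ∀ x : M, Submodule ℝ (TangentSpace (𝓡 d) x),
      (∀ x ∈ Λ1, F x = F1 x) → (∀ x ∈ Λ2, F x = F2 x) →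
      IsClosed {v : TangentBundle (𝓡 d) M | v.1 ∈ Λ1 ∧ v.2 ∈ F1 v.1} →
      IsClosed {v : TangentBundle (𝓡 d) M | v.1 ∈ Λ2 ∧ v.2 ∈ F2 v.1} →
      IsClosed {v : TangentBundle (𝓡 d) M | v.1 ∈ Λ1 ∪ Λ2 ∧ v.2 ∈ F v.1} := by
    intro F F1 F2 e1 e2 k1 k2
    have he : {v : TangentBundle (𝓡 d) M | v.1 ∈ Λ1 ∪ Λ2 ∧ v.2 ∈ F v.1} =
        {v : TangentBundle (𝓡 d) M | v.1 ∈ Λ1 ∧ v.2 ∈ F1 v.1} ∪
        {v : TangentBundle (𝓡 d) M | v.1 ∈ Λ2 ∧ v.2 ∈ F2 v.1} := by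
      ext v
      constructor
      · rintro ⟨h7 | h7, h8⟩
        · exact Or.inl ⟨h7, by rw [← e1 _ h7]; exact h8⟩
        · exact Or.inr ⟨h7, by rw [← e2 _ h7]; exact h8⟩
      · rintro (⟨h7, h8⟩ | ⟨h7, h8⟩)
        · exact ⟨Or.inl h7, by rw [e1 _ h7]; exact h8⟩
        · exact ⟨Or.inr h7, by rw [e2 _ h7]; exact h8⟩
    rw [he]
    exact k1.union k2
  refine ⟨Es, Eu, ?_, ?_, ?_, key Es Es1 Es2 s1 s2 a4 b4, key Eu Eu1 Eu2 u1 u2 a5 b5,
    min c1 c2, min r1 r2, lt_min hc1 hc2, lt_min hr1 hr2, ?_⟩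
  · rintro x (hx | hx)
    · rw [s1 x hx, u1 x hx]
      exact a1 x hx
    · rw [s2 x hx, u2 x hx]
      exact b1 x hx
  · rintro x (hx | hx) v hv
    · rw [s1 x hx] at hv
      rw [s1 _ (i1 x hx)]
      exact a2 x hx v hv
    · rw [s2 x hx] at hv
      rw [s2 _ (i2 x hx)]
      exact b2 x hx v hv
  · rintro x (hx | hx) v hv
    · rw [u1 x hx] at hv
      rw [u1 _ (i1 x hx)]
      exact a3 x hx v hv
    · rw [u2 x hx] at hv
      rw [u2 _ (i2 x hx)]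
      exact b3 x hx v hv
  · have hcm : 0 ≤ min c1 c2 := (lt_min hc1 hc2).le
    have hrm : 0 ≤ min r1 r2 := le_min (by linarith) (by linarith)
    have ht : ∀ (x : M) (v : TangentSpace (𝓡 d) x), 0 ≤ tnorm ρ x v := fun x v =>
      Real.sqrt_nonneg _
    rintro x (hx | hx) n hn1
    · rw [s1 x hx, u1 x hx]
      obtain ⟨h7, h8⟩ := a6 x hx n hn1
      exact ⟨fun v hv => hyp_const hcm (min_le_left _ _) hrm (min_le_left _ _) (ht x v) n (h7 v hv),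
        fun v hv => hyp_const hcm (min_le_left _ _) hrm (min_le_left _ _) (ht x v) n (h8 v hv)⟩
    · rw [s2 x hx, u2 x hx]
      obtain ⟨h7, h8⟩ := b6 x hx n hn1
      exact ⟨fun v hv => hyp_const hcm (min_le_right _ _) hrm (min_le_right _ _) (ht x v) n (h7 v hv),
        fun v hv => hyp_const hcm (min_le_right _ _) hrm (min_le_right _ _) (ht x v) n (h8 v hv)⟩

theorem hypOn_empty (ρ : Metric d M) (f : Dif d M) : HypOn ρ f ∅ := by
  have key : IsClosed {v : TangentBundle (𝓡 d) M | v.1 ∈ (∅ : Set M) ∧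
      v.2 ∈ (⊥ : Submodule ℝ (TangentSpace (𝓡 d) v.1))} := by
    have : {v : TangentBundle (𝓡 d) M | v.1 ∈ (∅ : Set M) ∧
      v.2 ∈ (⊥ : Submodule ℝ (TangentSpace (𝓡 d) v.1))} = ∅ := by
      ext v
      constructor
      · rintro ⟨h, -⟩
        exact absurd h (notMem_empty _)
      · intro h
        exact absurd h (notMem_empty _)
    rw [this]
    exact isClosed_empty
  exact ⟨fun x => ⊥, fun x => ⊥, fun x hx => absurd hx (notMem_empty _),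
    fun x hx => absurd hx (notMem_empty _), fun x hx => absurd hx (notMem_empty _), key, key,
    1, 2, one_pos, one_lt_two, fun x hx => absurd hx (notMem_empty _)⟩

theorem hypOn_finite_union (ρ : Metric d M) (f : Dif d M) (𝒮 : Set (Set M)) (hf : 𝒮.Finite)
    (hd : ∀ V ∈ 𝒮, ∀ V' ∈ 𝒮, V ≠ V' → Disjoint V V') (hi : ∀ V ∈ 𝒮, ∀ x ∈ V, f x ∈ V)
    (h : ∀ V ∈ 𝒮, HypOn ρ f V) : HypOn ρ f (⋃₀ 𝒮) := by
  induction 𝒮, hf using Set.Finite.induction_on with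
  | empty =>
    rw [sUnion_empty]
    exact hypOn_empty ρ f
  | @insert a s ha hs ih =>
    rw [sUnion_insert]
    apply hypOn_union ρ f
    · rw [disjoint_sUnion_right]
      intro V hV
      apply hd a (mem_insert a s) V (mem_insert_of_mem a hV)
      rintro rfl
      exact ha hV
    · exact hi a (mem_insert a s)
    · rintro x ⟨V, hV, hx⟩
      exact ⟨V, hV, hi V (mem_insert_of_mem a hV) x hx⟩
    · exact h a (mem_insert a s)
    · exact ih (fun V hV V' hV' => hd V (mem_insert_of_mem a hV) V' (mem_insert_of_mem a hV'))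
        (fun V hV => hi V (mem_insert_of_mem a hV)) (fun V hV => h V (mem_insert_of_mem a hV))

end Pool.Agent.Helper55.OS
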