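import Pool.Agent.Helper55.OS.TopMin

/-!
# OS-T6 TL: the family of vertices is finite and contains the nonwandering set

PROOF. Finiteness: every vertex is nonempty, so meets univ; `simple_univ`.
Let x be nonwandering and suppose x is in no vertex. By `exists_goodW` (S = univ; O V = complement of {x}) there is a good
system W with x not in closure (W V) for all V. Let N be the number of `lemU` for S = univ (the open set U contains univ):
every orbit segment has at most N Out points. Nonwandering: for every k there are x_k with d(x_k, x) < 1/(k+1) and n_k ≥ 1 with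
d((f^{n_k}) x_k, x) < 1/(k+1) (omega is defined with f^[n]; (f^(n:ℤ)) y = f^[n] y). For large k both x_k and (f^{n_k}) x_k are Out (the
complement of the finite union of the closures is open). Fix a nonprincipal ultrafilter F on N. For each k list the Out
indices in [0, n_k]: 0 = t_0(k) < t_1(k) < ... < t_{r(k)}(k) = n_k, r(k) ≤ N; r(k) = r for F-almost all k, r ≥ 1. Put
z_i = lim_F (f^{t_i(k)}) x_k: z_0 = x = z_r, all z_i are Out (the sets W V are open), hence in no vertex.
For each i < r: either the gap t_{i+1}(k) - t_i(k) is constant = g for F-almost all k, then z_{i+1} = (f^g) z_i (g ≥ 1); or it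
tends to infinity along F. In the second case: the points strictly between are not Out; (f^{t_i(k)+1}) x_k is in some W V, V = V(k),
constant = V for F-almost all k (finitely many vertices); by `goodW_stay` all points strictly between are in W V. So
(f^n) z_i = lim (f^{t_i(k)+n}) x_k is in closure (W V) for all n ≥ 1 and (f^(-n)) z_{i+1} is in closure (W V) for all n ≥ 1: hence
Fwd f z_i V and Bwd f z_{i+1} V (limit points of these half orbits have their full orbit in closure (W V), so are in V; cf.
`fwd_of_stay`).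
If all gaps were constant, x = (f^g) x with g ≥ 1: x is periodic, hence recurrent, hence in a vertex: contradiction. So there is
at least one infinite gap. Let i_1 < ... < i_q be the indices with infinite gap, V_1, ..., V_q the vertices. For j < q the points
z_{i_j + 1}, ..., z_{i_{j+1}} are on one orbit, so Bwd f z_{i_{j+1}} V_j (asymptotics do not change along an orbit); also
Fwd f z_{i_{j+1}} V_{j+1}. Cyclically: z_{i_q + 1}, ..., z_r = x = z_0, ..., z_{i_1} are on one orbit: Bwd f z_{i_1} V_q. So the vertices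
V_q, V_1, ..., V_q and the points z_{i_1}, ..., z_{i_q} form a cycle of length q: contradiction to `h.nc`.
(An alternative to the bookkeeping: prove by induction on i the statement P(i): there is a finite chain of heteroclinic points
from x to z_i, i.e. either z_i = (f^g) x for some g ≥ 0, or there are q ≥ 1, vertices V_1..V_q and points w_1 = x, w_2, ..., w_q in
no vertex with Fwd f w_j V_j, Bwd f w_{j+1} V_j for j < q, and Fwd f w_q V_q, Bwd f z_i V_q. Then P(r) with z_r = x gives
either periodicity or a cycle.)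
-/

open Set Topology

namespace Pool.Agent.Helper55.OS

open Filter

section Aux

variable {X : Type} [MetricSpace X] [CompactSpace X] {f : X ≃ₜ X} {VV : Set (Set X)}

private theorem tl_zadd (f : X ≃ₜ X) (a b : ℤ) (x : X) : (f ^ (a + b)) x = (f ^ a) ((f ^ b) x) := by
  rw [zpow_add]
  rfl

private theorem tl_iter (f : X ≃ₜ X) (n : ℕ) (x : X) : (f ^ (n : ℤ)) x = f^[n] x := by
  induction n generalizing x with
  | zero => simp
  | succ n ih =>
    rw [Nat.cast_add, Nat.cast_one, tl_zadd, zpow_one, ih]
    rfl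

private theorem tl_fwd {x : X} {V : Set X} (g : ℕ) (h : Fwd f ((f ^ (g : ℤ)) x) V) : Fwd f x V := by
  intro W hW hVW
  obtain ⟨N, hN⟩ := h W hW hVW
  refine ⟨N + g, fun n hn => ?_⟩
  have h1 := hN (n - g) (by omega)
  rw [← tl_zadd] at h1
  have h2 : ((n - g : ℕ) : ℤ) + (g : ℤ) = (n : ℤ) := by omega
  rw [h2] at h1
  exact h1

private theorem tl_bwd {x : X} {V : Set X} (g : ℕ) (h : Bwd f x V) : Bwd f ((f ^ (g : ℤ)) x) V := by
  intro W hW hVW
  obtain ⟨N, hN⟩ := h W hW hVW
  refine ⟨N + g, fun n hn => ?_⟩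
  have h1 := hN (n - g) (by omega)
  rw [← tl_zadd]
  have h2 : -(n : ℤ) + (g : ℤ) = -((n - g : ℕ) : ℤ) := by omega
  rw [h2]
  exact h1

/-- a finite chain of heteroclinic points from `x` to `y` -/
private def Chn (f : X ≃ₜ X) (VV : Set (Set X)) (x y : X) : Prop :=
  ∃ (q : ℕ) (V : ℕ → Set X) (w : ℕ → X), (∀ i, V i ∈ VV) ∧ w 0 = x ∧
    (∀ i, i ≤ q → w i ∉ ⋃₀ VV ∧ Fwd f (w i) (V i)) ∧ (∀ i, i < q → Bwd f (w (i + 1)) (V i)) ∧
    Bwd f y (V q)

private theorem chn_one {x y : X} {V : Set X} (hV : V ∈ VV) (hx : x ∉ ⋃₀ VV) (h1 : Fwd f x V)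
    (h2 : Bwd f y V) : Chn f VV x y :=
  ⟨0, fun _ => V, fun _ => x, fun _ => hV, rfl, fun _ _ => ⟨hx, h1⟩, fun i hi => absurd hi (Nat.not_lt_zero i), h2⟩

private theorem chn_step {x y z : X} {V : Set X} (hc : Chn f VV x y) (hV : V ∈ VV) (hy : y ∉ ⋃₀ VV)
    (h1 : Fwd f y V) (h2 : Bwd f z V) : Chn f VV x z := by
  obtain ⟨q, U, w, hU, hw, hq1, hq2, hq3⟩ := hc
  refine ⟨q + 1, fun i => if i ≤ q then U i else V, fun i => if i ≤ q then w i else y, ?_, ?_, ?_, ?_, ?_⟩
  · intro i
    by_cases hi : i ≤ q
    · simp only [if_pos hi]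
      exact hU i
    · simp only [if_neg hi]
      exact hV
  · simp only [if_pos (Nat.zero_le q)]
    exact hw
  · intro i hi
    by_cases hi' : i ≤ q
    · simp only [if_pos hi']
      exact hq1 i hi'
    · simp only [if_neg hi']
      exact ⟨hy, h1⟩
  · intro i hi
    have hi1 : i ≤ q := by omega
    simp only [if_pos hi1]
    by_cases hi' : i + 1 ≤ q
    · simp only [if_pos hi']
      exact hq2 i (by omega)
    · simp only [if_neg hi']
      have : i = q := by omega
      rw [this]
      exact hq3
  · simp only [if_neg (show ¬ q + 1 ≤ q by omega)]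
    exact h2

private theorem chn_shift {x y : X} (g : ℕ) (hc : Chn f VV x y) : Chn f VV x ((f ^ (g : ℤ)) y) := by
  obtain ⟨q, U, w, hU, hw, hq1, hq2, hq3⟩ := hc
  exact ⟨q, U, w, hU, hw, hq1, hq2, tl_bwd g hq3⟩

private theorem chn_cycle {x : X} (hc : Chn f VV x x) : Cycle f VV := by
  obtain ⟨q, U, w, hU, hw, hq1, hq2, hq3⟩ := hc
  refine ⟨q + 1, fun i => if i = 0 then U q else U (i - 1), w, by omega, ?_, ?_, ?_⟩
  · intro i
    by_cases hi : i = 0
    · simp only [if_pos hi]
      exact hU q
    · simp only [if_neg hi]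
      exact hU _
  · simp
  · intro i hi
    refine ⟨(hq1 i (by omega)).1, ?_, ?_⟩
    · by_cases hi0 : i = 0
      · simp only [if_pos hi0]
        rw [hi0, hw]
        exact hq3
      · simp only [if_neg hi0]
        have h1 := hq2 (i - 1) (by omega)
        rwa [Nat.sub_add_cancel (by omega)] at h1
    · simp only [if_neg (show ¬ i + 1 = 0 by omega), Nat.add_sub_cancel]
      exact (hq1 i (by omega)).2

/-- a sequence of naturals along an ultrafilter: constant or unbounded -/
private theorem ultra_dich (F : Ultrafilter ℕ) (d : ℕ → ℕ) :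
    (∃ g, ∀ᶠ k in (F : Filter ℕ), d k = g) ∨ ∀ M, ∀ᶠ k in (F : Filter ℕ), M < d k := by
  by_cases h : ∀ M, ∀ᶠ k in (F : Filter ℕ), M < d k
  · exact Or.inr h
  · left
    push Not at h
    obtain ⟨M, hM⟩ := h
    have h2 : Set.Iic M ∈ F.map d := by
      rw [Ultrafilter.mem_map]
      filter_upwards [hM] with k hk
      exact hk
    obtain ⟨g, -, hg⟩ := Ultrafilter.eq_pure_of_finite_mem (Set.finite_Iic M) h2
    refine ⟨g, ?_⟩
    have h3 : ({g} : Set ℕ) ∈ F.map d := by
      rw [hg]
      exact Set.mem_singleton g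
    rw [Ultrafilter.mem_map] at h3
    exact h3

private theorem ultra_fin {α : Type} (F : Ultrafilter ℕ) (S : Set α) (hS : S.Finite) (v : ℕ → α)
    (h : ∀ᶠ k in (F : Filter ℕ), v k ∈ S) : ∃ a ∈ S, ∀ᶠ k in (F : Filter ℕ), v k = a := by
  have h2 : S ∈ F.map v := by
    rw [Ultrafilter.mem_map]
    exact h
  obtain ⟨a, ha, hg⟩ := Ultrafilter.eq_pure_of_finite_mem hS h2
  refine ⟨a, ha, ?_⟩
  have h3 : ({a} : Set α) ∈ F.map v := by
    rw [hg]
    exact Set.mem_singleton a
  rw [Ultrafilter.mem_map] at h3
  exact h3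

end Aux

theorem TL {X : Type} [MetricSpace X] [CompactSpace X] {f : X ≃ₜ X} {VV : Set (Set X)}
    (h : Vdata f VV) : VV.Finite ∧ ∀ x ∈ omega (f : X → X), ∃ V ∈ VV, x ∈ V := by
  classical
  have hsim := simple_univ h
  have hne : ∀ V ∈ VV, (V ∩ univ).Nonempty := by
    intro V hV
    rw [inter_univ]
    exact h.ne V hV
  have hVfin : VV.Finite := hsim.fin.subset fun V hV => ⟨hV, hne V hV⟩
  refine ⟨hVfin, ?_⟩
  intro x hx
  by_contra hcon
  push Not at hcon
  have hxU : x ∉ ⋃₀ VV := by
    rintro ⟨V, hV, hxV⟩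
    exact hcon V hV hxV
  obtain ⟨W, hW, hWO⟩ := exists_goodW h univ hsim.fin (fun _ => {x}ᶜ)
    (fun V hV => ⟨isOpen_compl_singleton, fun y hy hyx => hcon V hV (by
      rw [mem_singleton_iff] at hyx
      rw [← hyx]
      exact hy)⟩)
  obtain ⟨U, hU, hSU, N, hN⟩ := lemU h univ isClosed_univ
    (image_univ_of_surjective f.surjective) hsim W hW
  -- the open set of points outside all closures
  set O : Set X := ⋂ V ∈ VV, (closure (W V))ᶜ with hO
  have hOo : IsOpen O := hVfin.isOpen_biInter fun V _ => isClosed_closure.isOpen_compl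
  have hxO : x ∈ O := by
    rw [hO, mem_iInter₂]
    intro V hV hxV
    exact hWO V hV (hne V hV) hxV rfl
  have hOout : ∀ y ∈ O, Out VV univ W y := by
    intro y hy V hV _ hyW
    rw [hO, mem_iInter₂] at hy
    exact hy V hV (subset_closure hyW)
  -- sequences
  have hseq : ∀ k : ℕ, ∃ (y : X) (n : ℕ), 1 ≤ n ∧ dist y x < 1 / ((k : ℝ) + 1) ∧
      dist ((f ^ (n : ℤ)) y) x < 1 / ((k : ℝ) + 1) := by
    intro k
    obtain ⟨n, hn, z, ⟨y, hy, hyz⟩, hz⟩ := hx (Metric.ball x (1 / ((k : ℝ) + 1)))
      (Metric.ball_mem_nhds x (by positivity))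
    refine ⟨y, n, hn, hy, ?_⟩
    rw [tl_iter, hyz]
    exact hz
  choose y n hn hy1 hy2 using hseq
  set F : Ultrafilter ℕ := Filter.hyperfilter ℕ with hFdef
  have hFle : (F : Filter ℕ) ≤ atTop := by
    rw [hFdef, ← Nat.cofinite_eq_atTop]
    exact Filter.hyperfilter_le_cofinite
  have hsmall : ∀ v : ℕ → X, (∀ k, dist (v k) x < 1 / ((k : ℝ) + 1)) → Tendsto v F (nhds x) := by
    intro v hv
    rw [tendsto_iff_dist_tendsto_zero]
    have h1 : Tendsto (fun k : ℕ => 1 / ((k : ℝ) + 1)) F (nhds 0) :=
      (tendsto_one_div_add_atTop_nhds_zero_nat (𝕜 := ℝ)).mono_left hFle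
    exact squeeze_zero (fun k => dist_nonneg) (fun k => (hv k).le) h1
  have hyx : Tendsto y F (nhds x) := hsmall y hy1
  set u : (ℕ → ℕ) → ℕ → X := fun t k => (f ^ (t k : ℤ)) (y k) with hu
  have hnx : Tendsto (u n) F (nhds x) := hsmall (u n) hy2
  have hlim : ∀ v : ℕ → X, ∃ z, Tendsto v F (nhds z) := fun v =>
    ⟨(Ultrafilter.map v F).lim, (Ultrafilter.map v F).le_nhds_lim⟩
  choose L hL using fun t : ℕ → ℕ => hlim (u t)
  have hnOut : ∀ᶠ k in (F : Filter ℕ), Out VV univ W (u n k) := by
    filter_upwards [hnx.eventually (hOo.mem_nhds hxO)] with k hk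
    exact hOout _ hk
  have hLout : ∀ t : ℕ → ℕ, (∀ᶠ k in (F : Filter ℕ), Out VV univ W (u t k)) →
      L t ∉ ⋃₀ VV := by
    rintro t ht ⟨V, hV, hz⟩
    have h1 : ∀ᶠ k in (F : Filter ℕ), u t k ∈ W V :=
      (hL t).eventually ((hW V hV (hne V hV)).1.mem_nhds ((hW V hV (hne V hV)).2.1 hz))
    obtain ⟨k, h2, h3⟩ := (h1.and ht).exists
    exact h3 V hV (hne V hV) h2
  have hfin : ∀ (k : ℕ) (q : ℕ → Prop), {j : ℕ | j ≤ n k ∧ q j}.Finite := fun k q =>
    (Set.finite_Iic (n k)).subset fun j hj => hj.1
  -- the main induction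
  have key : ∀ (c : ℕ) (t : ℕ → ℕ),
      (∀ᶠ k in (F : Filter ℕ), t k ≤ n k ∧ Out VV univ W (u t k) ∧
        {j : ℕ | t k < j ∧ j ≤ n k ∧ Out VV univ W ((f ^ (j : ℤ)) (y k))}.ncard = c) →
      ((∃ g : ℕ, ∀ᶠ k in (F : Filter ℕ), t k = g) ∨ Chn f VV x (L t)) → False := by
    intro c
    induction c with
    | zero =>
      intro t ht hP
      have htn : ∀ᶠ k in (F : Filter ℕ), t k = n k := by
        filter_upwards [ht, hnOut] with k hk hk2
        by_contra hne2
        have h1 : n k ∈ {j : ℕ | t k < j ∧ j ≤ n k ∧ Out VV univ W ((f ^ (j : ℤ)) (y k))} :=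
          ⟨by omega, le_rfl, hk2⟩
        have hf : {j : ℕ | t k < j ∧ j ≤ n k ∧ Out VV univ W ((f ^ (j : ℤ)) (y k))}.Finite :=
          (Set.finite_Iic (n k)).subset fun j hj => hj.2.1
        rw [Set.ncard_eq_zero hf] at hk
        rw [hk.2.2] at h1
        exact h1
      have hLx : L t = x := by
        refine tendsto_nhds_unique (hL t) (hnx.congr' ?_)
        filter_upwards [htn] with k hk
        simp only [hu, hk]
      rcases hP with ⟨g, hg⟩ | hP
      · -- periodic
        obtain ⟨k, hk1, hk2⟩ := (hg.and htn).exists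
        have hg1 : 1 ≤ g := by
          have := hn k
          omega
        have h1 : Tendsto (u t) F (nhds ((f ^ (g : ℤ)) x)) := by
          refine (((f ^ (g : ℤ)).continuous.tendsto x).comp hyx).congr' ?_
          filter_upwards [hg] with k hk
          simp only [hu, hk, Function.comp]
        have h2 : (f ^ (g : ℤ)) x = x := by
          rw [← hLx]
          rw [← hLx] at h1
          exact tendsto_nhds_unique h1 (hL t)
        obtain ⟨V, hV, hxV⟩ := h.recu x (fun A hA => ⟨g, hg1, by
          rw [← tl_iter, h2]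
          exact mem_of_mem_nhds hA⟩)
        exact hcon V hV hxV
      · rw [hLx] at hP
        exact h.nc (chn_cycle hP)
    | succ c ih =>
      intro t ht hP
      set A : ℕ → Set ℕ := fun k =>
        {j : ℕ | t k < j ∧ j ≤ n k ∧ Out VV univ W ((f ^ (j : ℤ)) (y k))} with hA
      set s : ℕ → ℕ := fun k => sInf (A k) with hs
      have hAfin : ∀ k, (A k).Finite := fun k =>
        (Set.finite_Iic (n k)).subset fun j hj => hj.2.1
      have hAne : ∀ᶠ k in (F : Filter ℕ), (A k).Nonempty := by
        filter_upwards [ht] with k hk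
        rw [← Set.ncard_pos (hAfin k)]
        have := hk.2.2
        change 0 < (A k).ncard
        rw [show (A k).ncard = c + 1 from this]
        omega
      have hsA : ∀ᶠ k in (F : Filter ℕ), s k ∈ A k := by
        filter_upwards [hAne] with k hk
        exact Nat.sInf_mem hk
      have hmin : ∀ k j, t k < j → j < s k → j ≤ n k →
          ¬ Out VV univ W ((f ^ (j : ℤ)) (y k)) := by
        intro k j h1 h2 h3 h4
        exact Nat.notMem_of_lt_sInf h2 ⟨h1, h3, h4⟩
      have hs' : ∀ᶠ k in (F : Filter ℕ), s k ≤ n k ∧ Out VV univ W (u s k) ∧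
          {j : ℕ | s k < j ∧ j ≤ n k ∧ Out VV univ W ((f ^ (j : ℤ)) (y k))}.ncard = c := by
        filter_upwards [hsA, ht] with k hk hk2
        refine ⟨hk.2.1, hk.2.2, ?_⟩
        have h1 : A k = insert (s k)
            {j : ℕ | s k < j ∧ j ≤ n k ∧ Out VV univ W ((f ^ (j : ℤ)) (y k))} := by
          ext j
          rw [mem_insert_iff]
          constructor
          · intro hj
            have h2 : s k ≤ j := Nat.sInf_le hj
            rcases h2.lt_or_eq with h3 | h3
            · exact Or.inr ⟨h3, hj.2.1, hj.2.2⟩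
            · exact Or.inl h3.symm
          · rintro (hj | hj)
            · rw [hj]
              exact hk
            · exact ⟨hk.1.trans hj.1, hj.2.1, hj.2.2⟩
        have h2 := hk2.2.2
        rw [show {j : ℕ | t k < j ∧ j ≤ n k ∧ Out VV univ W ((f ^ (j : ℤ)) (y k))} = A k from rfl,
          h1, Set.ncard_insert_of_notMem (fun hj => lt_irrefl _ hj.1)
            ((Set.finite_Iic (n k)).subset fun j hj => hj.2.1)] at h2
        omega
      refine ih s hs' ?_
      have hLtU := hLout t (ht.mono fun k hk => hk.2.1)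
      rcases ultra_dich F (fun k => s k - t k) with ⟨g, hg⟩ | hinf
      · -- constant gap
        have hst : ∀ᶠ k in (F : Filter ℕ), s k = t k + g := by
          filter_upwards [hg, hsA] with k hk hk2
          have := hk2.1
          omega
        rcases hP with ⟨g0, hg0⟩ | hP
        · left
          refine ⟨g0 + g, ?_⟩
          filter_upwards [hst, hg0] with k hk hk2
          omega
        · right
          have h1 : L s = (f ^ (g : ℤ)) (L t) := by
            refine tendsto_nhds_unique (hL s) ((((f ^ (g : ℤ)).continuous.tendsto _).comp (hL t)).congr' ?_)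
            filter_upwards [hst] with k hk
            simp only [hu, hk, Function.comp]
            rw [← tl_zadd]
            congr 2
            push_cast
            ring
          rw [h1]
          exact chn_shift g hP
      · -- infinite gap
        right
        have hV0 : ∀ᶠ k in (F : Filter ℕ), ∃ V ∈ VV, (f ^ ((t k + 1 : ℕ) : ℤ)) (y k) ∈ W V := by
          filter_upwards [hinf 1, hsA] with k hk hk2
          have h1 := hmin k (t k + 1) (by omega) (by omega) (by have := hk2.2.1; omega)
          unfold Out at h1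
          push Not at h1
          obtain ⟨V, hV, -, h2⟩ := h1
          exact ⟨V, hV, h2⟩
        obtain ⟨Vf, hVf⟩ : ∃ Vf : ℕ → Set X, ∀ k, (∃ V ∈ VV, (f ^ ((t k + 1 : ℕ) : ℤ)) (y k) ∈ W V) →
            Vf k ∈ VV ∧ (f ^ ((t k + 1 : ℕ) : ℤ)) (y k) ∈ W (Vf k) := by
          refine ⟨fun k => if hk : ∃ V ∈ VV, (f ^ ((t k + 1 : ℕ) : ℤ)) (y k) ∈ W V then hk.choose
            else ∅, fun k hk => ?_⟩
          simp only [dif_pos hk]
          exact hk.choose_spec
        obtain ⟨V, hV, hVc⟩ := ultra_fin F VV hVfin Vf (hV0.mono fun k hk => (hVf k hk).1)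
        have hstay : ∀ᶠ k in (F : Filter ℕ), ∀ j : ℕ, t k < j → j < s k →
            (f ^ (j : ℤ)) (y k) ∈ W V := by
          filter_upwards [hV0, hVc, hsA] with k hk hk2 hk3 j hj1 hj2
          have h1 := (hVf k hk).2
          rw [hk2] at h1
          have h2 := goodW_stay hW hV (hne V hV) _ h1 (s k - 1 - (t k + 1)) (fun i hi => by
            rw [← tl_zadd]
            have h3 : (i : ℤ) + ((t k + 1 : ℕ) : ℤ) = ((i + (t k + 1) : ℕ) : ℤ) := by
              push_cast
              ring
            rw [h3]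
            exact hmin k _ (by omega) (by omega) (by have := hk3.2.1; omega))
            (j - (t k + 1)) (by omega)
          rw [← tl_zadd] at h2
          have h4 : ((j - (t k + 1) : ℕ) : ℤ) + ((t k + 1 : ℕ) : ℤ) = (j : ℤ) := by omega
          rw [h4] at h2
          exact h2
        have hF1 : Fwd f (L t) V := by
          refine fwd_of_stay h hW hV (hne V hV) (L t) 1 fun m hm => ?_
          refine mem_closure_of_tendsto (((f ^ (m : ℤ)).continuous.tendsto _).comp (hL t)) ?_
          filter_upwards [hstay, hinf m] with k hk hk2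
          have h1 := hk (t k + m) (by omega) (by omega)
          simp only [hu, Function.comp]
          rw [← tl_zadd]
          have h2 : (m : ℤ) + (t k : ℤ) = ((t k + m : ℕ) : ℤ) := by
            push_cast
            ring
          rw [h2]
          exact h1
        have hB1 : Bwd f (L s) V := by
          refine bwd_of_stay h hW hV (hne V hV) (L s) 1 fun m hm => ?_
          refine mem_closure_of_tendsto (((f ^ (-(m : ℤ))).continuous.tendsto _).comp (hL s)) ?_
          filter_upwards [hstay, hinf m] with k hk hk2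
          have h1 := hk (s k - m) (by omega) (by omega)
          simp only [hu, Function.comp]
          rw [← tl_zadd]
          have h2 : -(m : ℤ) + (s k : ℤ) = ((s k - m : ℕ) : ℤ) := by omega
          rw [h2]
          exact h1
        rcases hP with ⟨g0, hg0⟩ | hP
        · have h1 : L t = (f ^ (g0 : ℤ)) x := by
            refine tendsto_nhds_unique (hL t) ((((f ^ (g0 : ℤ)).continuous.tendsto x).comp hyx).congr' ?_)
            filter_upwards [hg0] with k hk
            simp only [hu, hk, Function.comp]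
          rw [h1] at hF1
          exact chn_one hV hxU (tl_fwd g0 hF1) hB1
        · exact chn_step hP hV hLtU hF1 hB1
  -- the start
  have h0 : ∀ᶠ k in (F : Filter ℕ), Out VV univ W (u (fun _ => 0) k) := by
    filter_upwards [hyx.eventually (hOo.mem_nhds hxO)] with k hk
    have h1 : u (fun _ => 0) k = y k := by
      simp [hu]
    rw [h1]
    exact hOout _ hk
  obtain ⟨c, -, hc⟩ := ultra_fin F (Set.Iic N) (Set.finite_Iic N)
    (fun k => {j : ℕ | 0 < j ∧ j ≤ n k ∧ Out VV univ W ((f ^ (j : ℤ)) (y k))}.ncard)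
    (Filter.Eventually.of_forall fun k => by
      have hsub : {j : ℕ | 0 < j ∧ j ≤ n k ∧ Out VV univ W ((f ^ (j : ℤ)) (y k))} ⊆
          {j : ℕ | j ≤ n k ∧ Out VV univ W ((f ^ (j : ℤ)) (y k))} := fun j hj => ⟨hj.2.1, hj.2.2⟩
      exact le_trans (Set.ncard_le_ncard hsub (hfin k _))
        (hN (y k) (n k) fun j _ => hSU (mem_univ _)))
  refine key c (fun _ => 0) ?_ (Or.inl ⟨0, Filter.Eventually.of_forall fun _ => rfl⟩)
  filter_upwards [h0, hc] with k hk hk2
  exact ⟨Nat.zero_le _, hk, hk2⟩

end Pool.Agent.Helper55.OS
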