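import Pool.Agent.Helper55.OS.NoCycle
import Pool.Agent.Helper55.OS.HypUnion
import Pool.Agent.Helper55.OS.TL

/-!
# OS-V2 FinalK: an Omega-stable diffeomorphism with hyperbolic NR satisfies Axiom A (assembly)
-/

open Set Topology Manifold ContDiff

namespace Pool.Agent.Helper55.OS

theorem axiomA_of_hypNR {d : ℕ} {M : Type} [MetricSpace M] [ChartedSpace (E d) M]
    [IsManifold (𝓡 d) ∞ M] [CompactSpace M] (ρ : Metric d M) (f : Dif d M)
    (hs : OmegaStable f) (hh : HypOn ρ f (NR (f : M → M))) : AxiomA ρ f := by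
  obtain ⟨A⟩ := exists_atl (d := d) (M := M)
  obtain ⟨K, hK, hN⟩ := opHyp_of_hypOn A ρ f (NR (f : M → M)) isClosed_closure hh
  have hPh : ∀ p ∈ Function.periodicPts (f : M → M), HypOn ρ f (orb (f : M → M) p) := by
    rintro p ⟨n, hn, hp⟩
    exact hypOn_of_omegaStable ρ f hs n hn p hp
  have hP : ∀ p ∈ Function.periodicPts (f : M → M), ∃ K' : ℝ, 1 ≤ K' ∧
      OpHyp A f (orb (f : M → M) p) K' := by
    intro p hp
    exact opHyp_of_hypOn A ρ f (orb (f : M → M) p)
      (orb_finite f.toHomeomorph hp).isClosed (hPh p hp)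
  have hnc := noCycle A ρ f hs K hK hN hP
  have hv := vert A f K hK hN hP hnc
  obtain ⟨hfin, hom⟩ := TL hv
  have hi : ∀ x, x ∈ NR (f : M → M) ↔ f x ∈ NR (f : M → M) := fun x => nr_iff f.toHomeomorph x
  have hsp : SP (f : M → M) (NR (f : M → M)) := sp_of_opHyp A f _ hi K hK hN
  have hVNR : ∀ V ∈ CC (f : M → M), V ⊆ NR (f : M → M) := fun V hV =>
    (cc_props f.toHomeomorph hsp V hV).2.2.1
  have hsub : ∀ V ∈ VVf (f : M → M), V ⊆ omega (f : M → M) := by
    rintro V (hV | ⟨p, hp, -, rfl⟩)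
    · exact (hVNR V hV).trans (nr_omega _)
    · intro y hy
      exact rec_omega _ (per_rec _ (orb_per f.toHomeomorph hp hy))
  have e : omega (f : M → M) = ⋃₀ VVf (f : M → M) := by
    apply Subset.antisymm
    · intro x hx
      obtain ⟨V, hV, hxV⟩ := hom x hx
      exact ⟨V, hV, hxV⟩
    · rintro x ⟨V, hV, hxV⟩
      exact hsub V hV hxV
  refine ⟨?_, ?_⟩
  · intro x hx
    obtain ⟨V, hV, hxV⟩ := hom x hx
    rcases hV with hV | ⟨p, hp, -, rfl⟩
    · rw [Metric.mem_closure_iff]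
      intro ε hε
      obtain ⟨q, -, hq, hd⟩ := per_dense f.toHomeomorph hsp x (hVNR V hV hxV) ε hε
      exact ⟨q, hq, by rw [dist_comm]; exact hd⟩
    · exact subset_closure (orb_per f.toHomeomorph hp hxV)
  · rw [e]
    refine hypOn_finite_union ρ f _ hfin (vdis f) ?_ ?_
    · intro V hV x hx
      have hg := (hv.inv V hV)
      rw [← hg]
      exact ⟨x, hx, rfl⟩
    · rintro V (hV | ⟨p, hp, -, rfl⟩)
      · exact hypOn_mono ρ f _ V (cc_props f.toHomeomorph hsp V hV).1.isClosed (hVNR V hV) hh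
      · exact hPh p hp

theorem hypNR_of_axiomA {d : ℕ} {M : Type} [TopologicalSpace M] [ChartedSpace (E d) M]
    [IsManifold (𝓡 d) ∞ M] (ρ : Metric d M) (f : Dif d M) (h : AxiomA ρ f) :
    HypOn ρ f (NR (f : M → M)) :=
  hypOn_mono ρ f _ _ isClosed_closure (nr_omega _) h.2

end Pool.Agent.Helper55.OS
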