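import Mathlib

/-!
# OS-S5 Generic: two subspaces of complementary dimension can be made complementary by a small linear map

PROOF. Let S, U be subspaces of F with dim S + dim U = dim F. Let U' be a complement of S (Submodule.exists_isCompl); dim U' = dim U. There is
a linear automorphism C of F with C(U) = U' (extend an isomorphism U ≃ U' by an isomorphism of complements). For real t put
B_t = (1-t) id + t C. Choose a basis e_1..e_k of S and a basis u_1..u_l of U, k + l = dim F. D(t) = determinant (in a basis of F) of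
(e_1, ..., e_k, B_t u_1, ..., B_t u_l) is a polynomial in t, D(1) ≠ 0 since C u_j is a basis of U'. Likewise det B_t is a polynomial with
value 1 at t = 0. So for all but finitely many t both are nonzero; take t > 0 small with ‖B_t - id‖ = t ‖C - id‖ < ε.
D(t) ≠ 0 means that S and B_t U are complementary.
(Alternative without polynomials: the set of t in [0,1] where S and B_t U are not complementary is the zero set of a real analytic /
polynomial function that does not vanish identically; `Polynomial` finite roots is the simplest.)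
-/

namespace Pool.Agent.Helper55.OS

theorem exists_small_compl {F : Type} [NormedAddCommGroup F] [NormedSpace ℝ F] [FiniteDimensional ℝ F]
    (S U : Submodule ℝ F)
    (h : Module.finrank ℝ S + Module.finrank ℝ U = Module.finrank ℝ F) (ε : ℝ) (hε : 0 < ε) :
    ∃ B : F ≃L[ℝ] F, ‖(B : F →L[ℝ] F) - ContinuousLinearMap.id ℝ F‖ < ε ∧
      IsCompl S (U.map ((B : F →L[ℝ] F) : F →ₗ[ℝ] F)) := by
  have hq := Submodule.finrank_quotient_add_finrank S
  have hfin : Module.finrank ℝ U = Module.finrank ℝ (F ⧸ S) := by omega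
  obtain ⟨ψ⟩ : Nonempty (U ≃ₗ[ℝ] (F ⧸ S)) := ⟨LinearEquiv.ofFinrankEq _ _ hfin⟩
  obtain ⟨σ, hσ⟩ := S.mkQ.exists_rightInverse_of_surjective S.range_mkQ
  obtain ⟨pr, hpr⟩ := U.subtype.exists_leftInverse_of_injective U.ker_subtype
  obtain ⟨K, hK⟩ : ∃ K : F →ₗ[ℝ] F, K = σ ∘ₗ ψ.toLinearMap ∘ₗ pr := ⟨_, rfl⟩
  obtain ⟨A, hA⟩ : ∃ A : Module.End ℝ U, A = ψ.symm.toLinearMap ∘ₗ S.mkQ ∘ₗ U.subtype := ⟨_, rfl⟩
  have hKu : ∀ u : U, S.mkQ (K u) = ψ u := by
    intro u
    have h1 : pr (u : F) = u := LinearMap.congr_fun hpr u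
    rw [hK]
    change S.mkQ (σ (ψ (pr (u : F)))) = ψ u
    rw [h1]
    exact LinearMap.congr_fun hσ (ψ u)
  have hbad : ({t : ℝ | A.HasEigenvalue (-t)} ∪ {t : ℝ | Module.End.HasEigenvalue (R := ℝ) (M := F) K (-t⁻¹)}).Finite := by
    refine Set.Finite.union ?_ ?_
    · exact (Module.End.finite_hasEigenvalue A).preimage (neg_injective.injOn)
    · refine (Module.End.finite_hasEigenvalue (R := ℝ) (M := F) K).preimage (f := fun t : ℝ => -t⁻¹) ?_
      intro a _ b _ hab
      exact inv_injective (neg_injective hab)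
  obtain ⟨Kc, hKc⟩ : ∃ Kc : F →L[ℝ] F, Kc = LinearMap.toContinuousLinearMap K := ⟨_, rfl⟩
  have hδ : 0 < ε / (‖Kc‖ + 1) := by positivity
  obtain ⟨t, ht, htb⟩ := (Set.Ioo_infinite hδ).exists_notMem_finite hbad
  have ht1 : ¬ A.HasEigenvalue (-t) := fun h => htb (Or.inl h)
  have ht2 : ¬ Module.End.HasEigenvalue (R := ℝ) (M := F) K (-t⁻¹) := fun h => htb (Or.inr h)
  have htpos : 0 < t := ht.1
  have hinj : Function.Injective (LinearMap.id + t • K : F →ₗ[ℝ] F) := by
    rw [← LinearMap.ker_eq_bot, LinearMap.ker_eq_bot']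
    intro v hv
    by_contra hne
    apply ht2
    refine Module.End.hasEigenvalue_of_hasEigenvector (x := v) ⟨?_, hne⟩
    rw [Module.End.mem_eigenspace_iff]
    have h1 : v + t • K v = 0 := hv
    have h2 : t • K v = -v := eq_neg_of_add_eq_zero_right h1
    have h3 : K v = t⁻¹ • (t • K v) := by rw [smul_smul, inv_mul_cancel₀ htpos.ne', one_smul]
    rw [h3, h2, smul_neg, neg_smul]
  obtain ⟨B₀, hB₀⟩ : ∃ B₀ : F ≃ₗ[ℝ] F, ∀ v, B₀ v = v + t • K v :=
    ⟨LinearEquiv.ofInjectiveEndo _ hinj, fun v => rfl⟩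
  refine ⟨B₀.toContinuousLinearEquiv, ?_, ?_⟩
  · have h1 : ((B₀.toContinuousLinearEquiv : F ≃L[ℝ] F) : F →L[ℝ] F) - ContinuousLinearMap.id ℝ F =
        t • Kc := by
      ext v
      change B₀ v - v = t • Kc v
      rw [hB₀, hKc, add_sub_cancel_left]
      rfl
    rw [h1, norm_smul, Real.norm_eq_abs, abs_of_pos htpos]
    have h2 : t * (‖Kc‖ + 1) < ε := by
      have := ht.2
      rwa [lt_div_iff₀ (by positivity)] at this
    nlinarith [norm_nonneg Kc]
  · have hdisj : Disjoint S (U.map ((B₀.toContinuousLinearEquiv : F →L[ℝ] F) : F →ₗ[ℝ] F)) := by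
      rw [Submodule.disjoint_def]
      rintro x hxS ⟨u, hu, rfl⟩
      have hBu : ((B₀.toContinuousLinearEquiv : F →L[ℝ] F) : F →ₗ[ℝ] F) u = u + t • K u := hB₀ u
      rw [hBu] at hxS ⊢
      have h1 : S.mkQ (u + t • K u) = 0 := by
        rw [Submodule.mkQ_apply, Submodule.Quotient.mk_eq_zero]
        exact hxS
      rw [map_add, map_smul, hKu ⟨u, hu⟩] at h1
      have h2 : A ⟨u, hu⟩ + t • (⟨u, hu⟩ : U) = 0 := by
        have h3 := congrArg ψ.symm h1
        rw [map_add, map_smul, map_zero, LinearEquiv.symm_apply_apply] at h3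
        rw [hA]
        exact h3
      have h4 : (⟨u, hu⟩ : U) = 0 := by
        by_contra hne
        apply ht1
        refine Module.End.hasEigenvalue_of_hasEigenvector (x := ⟨u, hu⟩) ⟨?_, hne⟩
        rw [Module.End.mem_eigenspace_iff, neg_smul]
        exact eq_neg_of_add_eq_zero_left h2
      have h5 : u = 0 := congrArg Subtype.val h4
      rw [h5, map_zero, smul_zero, add_zero]
    refine ⟨hdisj, codisjoint_iff.mpr (Submodule.eq_top_of_disjoint _ _ ?_ hdisj)⟩
    have h1 : Module.finrank ℝ (U.map ((B₀.toContinuousLinearEquiv : F →L[ℝ] F) : F →ₗ[ℝ] F)) =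
        Module.finrank ℝ U := by
      exact LinearEquiv.finrank_map_eq B₀ U
    rw [h1, h]

end Pool.Agent.Helper55.OS
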