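import Pool.Agent.Helper55.OS.NearL
import Pool.Agent.Helper55.OS.NonLin
import Pool.Agent.Helper55.OS.ShadDefs

/-!
# OS-H5 Shadow: shadowing near an operator-hyperbolic set, for all g close to f

PROOF. K1 := 8 K. ε1 from `near_inv`. η := 1/(2 K1). `loc_est` for η: δ1, 𝒰1. `coord_close'` for ρ := δ1: ρ0 > 0 (take half of the δ there, so that dist ≤ ρ0 implies dist < δ)
with dist z y ≤ ρ0, y in reg c (2 rad c) implies z in the source of c and |φ_c z - φ_c y| ≤ δ1. This is the ρ0 of the statement.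
Let ρ > 0. `coord_close` for ρ: δ2; r := min δ1 δ2. `loc_est` for η' := min η (r/(2 K1)): δ3, 𝒰3. ε := min of ε1, δ1, δ3; 𝒰 := 𝒰1 ∩ 𝒰3 (open in smoothTop: `IsOpen.inter` for that
topology). Let g in 𝒰 and y a sequence as in Shad; c n := A.ch (y n) (y n in reg (c n) (rad (c n)), c n in C); a_n := Aop f (c n) (c (n+1)) (y n): Inv K1 a by `near_inv`.
N_n(ζ) := φ_(n+1) (g (φ_n.symm (φ_n (y n) + ζ))) - φ_(n+1) (y (n+1)) - a_n ζ (φ_n = extChartAt (c n)). By `loc_est`: ‖N_n ζ - N_n ζ'‖ ≤ η ‖ζ - ζ'‖ for ‖ζ‖, ‖ζ'‖ ≤ δ1.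
UNIQUENESS: let z, z' be g-orbits within ρ0 of y; ζ_n = φ_n (z n) - φ_n (y n): ‖ζ_n‖ ≤ δ1, z n = φ_n.symm (φ_n (y n) + ζ_n) (z n in the source), so ζ_(n+1) = φ_(n+1) (g (z n)) -
φ_(n+1) (y (n+1)) = a_n ζ_n + N_n ζ_n; same for z'. By `nonlin_unique` (r := δ1, K := K1) ζ = ζ', so z = z' (φ_n is injective on its source).
EXISTENCE: ‖N_n 0‖ = ‖φ_(n+1) (g (y n)) - φ_(n+1) (y (n+1))‖ ≤ η' ≤ r/(2 K1) (`loc_est` for η', third clause with ζ = 0; note φ_n.symm (φ_n (y n)) = y n). `nonlin_exists` (I = univ, `Inv.ri`) gives ζ with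
‖ζ_n‖ ≤ r and ζ_(n+1) = a_n ζ_n + N_n ζ_n, i.e. φ_(n+1) (y (n+1)) + ζ_(n+1) = φ_(n+1) (g z_n) for z_n := φ_n.symm (φ_n (y n) + ζ_n); g z_n is in the source of c (n+1) (`loc_est`), so
z_(n+1) = φ_(n+1).symm (φ_(n+1) (g z_n)) = g z_n; dist (z_n) (y n) ≤ ρ by `coord_close` (reg c (rad) is contained in reg c (2 rad)).
-/

open Set Topology Manifold ContDiff

namespace Pool.Agent.Helper55.OS

variable {d : ℕ} {M : Type} [MetricSpace M] [ChartedSpace (E d) M] [IsManifold (𝓡 d) ∞ M]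
  [CompactSpace M]

theorem shadow (A : Atl d M) (f : Dif d M) (Λ : Set M) (hi : ∀ x, x ∈ Λ ↔ f x ∈ Λ) (K : ℝ)
    (hK : 1 ≤ K) (h : OpHyp A f Λ K) :
    ∃ ρ0 : ℝ, 0 < ρ0 ∧ ∀ ρ : ℝ, 0 < ρ → ∃ (ε : ℝ) (𝒰 : Set (Dif d M)), 0 < ε ∧
      IsOpen[smoothTop d M] 𝒰 ∧ f ∈ 𝒰 ∧ ∀ g ∈ 𝒰, Shad (f : M → M) (g : M → M) Λ ε ρ ρ0 := by
  have hK0 : 0 < K := by linarith
  obtain ⟨ε1, hε1, hinv⟩ := near_inv A f Λ hi K hK h
  obtain ⟨δ1, 𝒰1, hδ1, ho1, hf1, hl1⟩ := loc_est A f (1 / (2 * (8 * K))) (by positivity)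
  obtain ⟨δc, hδc, hcc⟩ := coord_close' A δ1 hδ1
  refine ⟨δc / 2, half_pos hδc, fun ρ hρ => ?_⟩
  obtain ⟨δ2, hδ2, hc2⟩ := coord_close A ρ hρ
  obtain ⟨r, hr⟩ : ∃ r, r = min δ1 δ2 := ⟨_, rfl⟩
  have hr0 : 0 < r := by rw [hr]; exact lt_min hδ1 hδ2
  have hr1 : r ≤ δ1 := by rw [hr]; exact min_le_left _ _
  have hr2 : r ≤ δ2 := by rw [hr]; exact min_le_right _ _
  obtain ⟨δ3, 𝒰3, hδ3, ho3, hf3, hl3⟩ := loc_est A f (r / (2 * (8 * K))) (by positivity)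
  refine ⟨min ε1 (min δ1 δ3), 𝒰1 ∩ 𝒰3, lt_min hε1 (lt_min hδ1 hδ3), ?_, ⟨hf1, hf3⟩, ?_⟩
  · let _ := smoothTop d M
    exact ho1.inter ho3
  rintro g ⟨hg1, hg3⟩ y hy1 hy2
  obtain ⟨c, hcdef⟩ : ∃ c : ℤ → M, ∀ n, c n = A.ch (y n) := ⟨_, fun _ => rfl⟩
  have hcC : ∀ n, c n ∈ A.C := fun n => by rw [hcdef]; exact A.ch_mem _
  have hcr : ∀ n, y n ∈ reg d (c n) (A.rad (c n)) := fun n => by rw [hcdef]; exact A.ch_reg _
  have hcr2 : ∀ n, y n ∈ reg d (c n) (2 * A.rad (c n)) := fun n =>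
    ⟨(hcr n).1, Metric.closedBall_subset_closedBall (by linarith [A.pos (c n) (hcC n)]) (hcr n).2⟩
  have hsrc : ∀ n, y n ∈ (extChartAt (𝓡 d) (c n)).source := fun n => (hcr n).1
  have hInv := hinv y c (fun n => by
      obtain ⟨p, hp, hpd⟩ := hy1 n
      exact ⟨p, hp, hpd.trans_le (min_le_left _ _)⟩)
    (fun n => (hy2 n).trans_le (min_le_left _ _)) (fun n => ⟨hcC n, hcr n⟩)
  have hd1 : ∀ n, dist (f (y n)) (y (n + 1)) < δ1 := fun n =>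
    (hy2 n).trans_le ((min_le_right _ _).trans (min_le_left _ _))
  have hd3 : ∀ n, dist (f (y n)) (y (n + 1)) < δ3 := fun n =>
    (hy2 n).trans_le ((min_le_right _ _).trans (min_le_right _ _))
  obtain ⟨a, ha⟩ : ∃ a : ℤ → E d →L[ℝ] E d, ∀ n, a n = Aop f (c n) (c (n + 1)) (y n) :=
    ⟨_, fun _ => rfl⟩
  have hInva : Inv (8 * K) a := by
    have h1 : a = fun n => Aop f (c n) (c (n + 1)) (y n) := funext ha
    rw [h1]
    exact hInv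
  obtain ⟨L, hL⟩ : ∃ L : ℤ → E d → E d, ∀ n ζ, L n ζ = extChartAt (𝓡 d) (c (n + 1))
      (g ((extChartAt (𝓡 d) (c n)).symm (extChartAt (𝓡 d) (c n) (y n) + ζ))) :=
    ⟨_, fun _ _ => rfl⟩
  obtain ⟨N, hN⟩ : ∃ N : ℤ → E d → E d, ∀ n ζ, N n ζ =
      L n ζ - extChartAt (𝓡 d) (c (n + 1)) (y (n + 1)) - a n ζ := ⟨_, fun _ _ => rfl⟩
  have hNL : ∀ n, ∀ u v : E d, ‖u‖ ≤ δ1 → ‖v‖ ≤ δ1 →
      ‖N n u - N n v‖ ≤ 1 / (2 * (8 * K)) * ‖u - v‖ := by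
    intro n u v hu hv
    have h1 := (hl1 (c n) (hcC n) (c (n + 1)) (hcC (n + 1)) (y n) (hcr n) (y (n + 1)) (hcr (n + 1))
      (hd1 n) g hg1 u v hu hv).2.1
    rw [← hL, ← hL, ← ha, map_sub] at h1
    have h2 : N n u - N n v = L n u - L n v - (a n u - a n v) := by
      rw [hN, hN]
      abel
    rw [h2]
    exact h1
  constructor
  · obtain ⟨ζ, hζr, hζ⟩ := nonlin_exists (K := 8 * K) (by positivity) hr0 hInva.ri N
      (fun n _ u v hu hv => hNL n u v (hu.trans hr1) (hv.trans hr1)) (fun n _ => by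
        have h1 := (hl3 (c n) (hcC n) (c (n + 1)) (hcC (n + 1)) (y n) (hcr n) (y (n + 1))
          (hcr (n + 1)) (hd3 n) g hg3 0 0 (by rw [norm_zero]; exact hδ3.le)
          (by rw [norm_zero]; exact hδ3.le)).2.2
        have h2 : N n 0 = extChartAt (𝓡 d) (c (n + 1)) (g (y n)) -
            extChartAt (𝓡 d) (c (n + 1)) (y (n + 1)) := by
          rw [hN, hL, add_zero, (extChartAt (𝓡 d) (c n)).left_inv (hsrc n), map_zero, sub_zero]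
        rw [h2]
        exact h1)
    obtain ⟨z, hz⟩ : ∃ z : ℤ → M, ∀ n, z n =
        (extChartAt (𝓡 d) (c n)).symm (extChartAt (𝓡 d) (c n) (y n) + ζ n) := ⟨_, fun _ => rfl⟩
    refine ⟨z, fun n => ?_, fun n => ?_⟩
    · have h1 := (hl1 (c n) (hcC n) (c (n + 1)) (hcC (n + 1)) (y n) (hcr n) (y (n + 1))
        (hcr (n + 1)) (hd1 n) g hg1 (ζ n) (ζ n) ((hζr n).trans hr1) ((hζr n).trans hr1)).1.2
      rw [← hz n] at h1
      have h2 := hζ n (mem_univ n)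
      have h3 : extChartAt (𝓡 d) (c (n + 1)) (y (n + 1)) + ζ (n + 1) =
          extChartAt (𝓡 d) (c (n + 1)) (g (z n)) := by
        rw [h2, hN, hL, ← hz n]
        abel
      rw [hz (n + 1), h3, (extChartAt (𝓡 d) (c (n + 1))).left_inv h1]
    · rw [hz n]
      exact (hc2 (c n) (hcC n) (y n) (hcr2 n) (ζ n) ((hζr n).trans hr2)).2
  · intro z z' hz hz' hzd hzd'
    have key : ∀ z : ℤ → M, Orb (g : M → M) z → (∀ n, dist (z n) (y n) ≤ δc / 2) →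
        (∀ n, z n ∈ (extChartAt (𝓡 d) (c n)).source) ∧
        (∀ n, ‖extChartAt (𝓡 d) (c n) (z n) - extChartAt (𝓡 d) (c n) (y n)‖ ≤ δ1) ∧
        ∀ n, extChartAt (𝓡 d) (c (n + 1)) (z (n + 1)) -
            extChartAt (𝓡 d) (c (n + 1)) (y (n + 1)) =
          a n (extChartAt (𝓡 d) (c n) (z n) - extChartAt (𝓡 d) (c n) (y n)) +
          N n (extChartAt (𝓡 d) (c n) (z n) - extChartAt (𝓡 d) (c n) (y n)) := by
      intro z hz hzd
      have h1 : ∀ n, z n ∈ (extChartAt (𝓡 d) (c n)).source ∧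
          ‖extChartAt (𝓡 d) (c n) (z n) - extChartAt (𝓡 d) (c n) (y n)‖ ≤ δ1 := fun n =>
        hcc (c n) (hcC n) (y n) (hcr2 n) (z n) ((hzd n).trans_lt (half_lt_self hδc))
      refine ⟨fun n => (h1 n).1, fun n => (h1 n).2, fun n => ?_⟩
      have h2 : extChartAt (𝓡 d) (c n) (y n) +
          (extChartAt (𝓡 d) (c n) (z n) - extChartAt (𝓡 d) (c n) (y n)) =
          extChartAt (𝓡 d) (c n) (z n) := add_sub_cancel _ _
      rw [hN, hL, h2, (extChartAt (𝓡 d) (c n)).left_inv (h1 n).1, ← hz n]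
      abel
    obtain ⟨s1, s2, s3⟩ := key z hz hzd
    obtain ⟨t1, t2, t3⟩ := key z' hz' hzd'
    have heq := nonlin_unique (K := 8 * K) (r := δ1) (by positivity) hInva N hNL
      (fun n => extChartAt (𝓡 d) (c n) (z n) - extChartAt (𝓡 d) (c n) (y n))
      (fun n => extChartAt (𝓡 d) (c n) (z' n) - extChartAt (𝓡 d) (c n) (y n)) s2 t2 s3 t3
    funext n
    have h1 := congrFun heq n
    exact (extChartAt (𝓡 d) (c n)).injOn (s1 n) (t1 n) (sub_left_injective h1)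

theorem sp_of_opHyp (A : Atl d M) (f : Dif d M) (Λ : Set M) (hi : ∀ x, x ∈ Λ ↔ f x ∈ Λ) (K : ℝ)
    (hK : 1 ≤ K) (h : OpHyp A f Λ K) : SP (f : M → M) Λ := by
  obtain ⟨ρ0, h0, h1⟩ := shadow A f Λ hi K hK h
  refine ⟨ρ0, h0, fun ρ hρ => ?_⟩
  obtain ⟨ε, 𝒰, hε, -, hf, h2⟩ := h1 ρ hρ
  exact ⟨ε, hε, h2 f hf⟩

end Pool.Agent.Helper55.OS
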