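import Pool.Agent.Helper55.OS.IsoC
import Pool.Agent.Helper55.OS.Shadow
import Pool.Agent.Helper55.OS.Interval

/-!
# OS-N10 GoodAll: all vertices are good; the vertices satisfy everything in Vdata except (a priori) the absence of cycles

PROOFS. F := f.toHomeomorph. hN : OpHyp on NR f; hP: for every periodic p, OpHyp on orb f p (for some constant).
* `goodV_all`: V in CC f: `cc_props`; SP, IS: OpHyp A f V K follows from OpHyp A f (NR f) K since V ⊆ NR f (definition), V is invariant in the sense x ∈ V ↔ f x ∈ V (from f '' V = V, f injective); `sp_of_opHyp`, `is_of_opHyp`. V = orb f p: finite so compact, nonempty, `orb_image`; chains: for x, y in the orbit y = f^[n] x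
  with n ≥ 1: c_i = f^[i] x, jumps 0; per: p; SP, IS from hP (`orb_iff`).
* `vdis`: classes are disjoint (`cc_disj`); orb f p ∩ NR f is empty for p not in NR f (`nr_iff`, iterate); two periodic orbits that meet are equal.
* `vert`: comp, ne, inv from goodV_all; iso: `iso_class`, `iso_per`; recu: x recurrent: x periodic and not in NR f: orb f x; x in NR f (this contains the recurrent points that are not periodic): `cc_cover`.
-/

open Set Topology Manifold ContDiff

namespace Pool.Agent.Helper55.OS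

variable {d : ℕ} {M : Type} [MetricSpace M] [ChartedSpace (E d) M] [IsManifold (𝓡 d) ∞ M]
  [CompactSpace M]

private theorem ga_coe (f : Dif d M) : (f.toHomeomorph : M → M) = (f : M → M) := rfl

private theorem ga_sp (A : Atl d M) (f : Dif d M) (K : ℝ) (hK : 1 ≤ K)
    (hN : OpHyp A f (NR (f : M → M)) K) :
    SP (f.toHomeomorph : M → M) (NR (f.toHomeomorph : M → M)) :=
  sp_of_opHyp A f (NR (f : M → M)) (fun x => nr_iff f.toHomeomorph x) K hK hN

private theorem ga_orb_zpow (F : M ≃ₜ M) {p y : M} (hp : p ∈ Function.periodicPts (F : M → M))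
    (hy : y ∈ orb (F : M → M) p) (z : M) : z ∈ orb (F : M → M) p ↔ ∃ n : ℤ, z = (F ^ n) y := by
  rw [orb_eq_zpow F hp] at hy ⊢
  obtain ⟨a, ha⟩ := hy
  constructor
  · rintro ⟨n, hn⟩
    refine ⟨n - a, ?_⟩
    rw [hn, ha, ← zpow_add_app, sub_add_cancel]
  · rintro ⟨n, hn⟩
    refine ⟨n + a, ?_⟩
    rw [hn, ha, ← zpow_add_app]

private theorem ga_chain (f : M → M) {p : M} (hp : p ∈ Function.periodicPts f) {x y : M}
    (hx : x ∈ orb f p) (hy : y ∈ orb f p) {η : ℝ} (hη : 0 < η) : Chain f (orb f p) η x y := by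
  obtain ⟨a, ha⟩ := hx
  obtain ⟨b, hb⟩ := hy
  obtain ⟨m, hm, hmp⟩ := hp
  have h1 : a + 1 ≤ m * (a + 1) := Nat.le_mul_of_pos_left _ hm
  have h2 : f^[m * (a + 1)] p = p := hmp.mul_const (a + 1)
  refine ⟨b + m * (a + 1) - a, fun i => f^[i] x, by omega, rfl, ?_, ?_, ?_⟩
  · change f^[b + m * (a + 1) - a] x = y
    rw [ha, ← Function.iterate_add_apply]
    have h3 : b + m * (a + 1) - a + a = b + m * (a + 1) := by omega
    rw [h3, Function.iterate_add_apply, h2, hb]
  · intro i _
    refine ⟨i + a, ?_⟩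
    change f^[i] x = f^[i + a] p
    rw [ha, Function.iterate_add_apply]
  · intro i _
    change dist (f (f^[i] x)) (f^[i + 1] x) < η
    rw [Function.iterate_succ_apply', dist_self]
    exact hη

theorem goodV_all (A : Atl d M) (f : Dif d M) (K : ℝ) (hK : 1 ≤ K)
    (hN : OpHyp A f (NR (f : M → M)) K)
    (hP : ∀ p ∈ Function.periodicPts (f : M → M), ∃ K' : ℝ, 1 ≤ K' ∧
      OpHyp A f (orb (f : M → M) p) K') :
    ∀ V ∈ VVf (f : M → M), GoodV f.toHomeomorph V := by
  rintro V (hV | ⟨p, hp, hpn, rfl⟩)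
  · obtain ⟨hc, hne, hsub, hinv, hch, hper⟩ := cc_props f.toHomeomorph (ga_sp A f K hK hN) V hV
    have hi : ∀ x, x ∈ V ↔ f x ∈ V := by
      intro x
      constructor
      · intro hx
        have h1 : f.toHomeomorph x ∈ (f.toHomeomorph : M → M) '' V := ⟨x, hx, rfl⟩
        rw [hinv] at h1
        exact h1
      · intro hx
        have h1 : f x ∈ (f.toHomeomorph : M → M) '' V := by
          rw [hinv]
          exact hx
        obtain ⟨y, hy, hyx⟩ := h1
        have h2 : y = x := f.toHomeomorph.injective hyx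
        rw [← h2]
        exact hy
    have hOp : OpHyp A f V K := fun y c h1 h2 h3 => hN y c (fun n => hsub (h1 n)) h2 h3
    exact
      { comp := hc
        ne := hne
        inv := hinv
        chain := hch
        per := hper
        sp := sp_of_opHyp A f V hi K hK hOp
        is := is_of_opHyp A f V hi K hK hOp }
  · obtain ⟨K', hK', hOp⟩ := hP p hp
    exact
      { comp := (orb_finite f.toHomeomorph hp).isCompact
        ne := ⟨p, 0, rfl⟩
        inv := orb_image f.toHomeomorph hp
        chain := fun η hη x hx y hy => ga_chain _ hp hx hy hη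
        per := ⟨p, ⟨0, rfl⟩, hp⟩
        sp := sp_of_opHyp A f _ (fun y => orb_iff f.toHomeomorph hp y) K' hK' hOp
        is := is_of_opHyp A f _ (fun y => orb_iff f.toHomeomorph hp y) K' hK' hOp }

theorem vdis (f : Dif d M) : ∀ V ∈ VVf (f : M → M), ∀ V' ∈ VVf (f : M → M), V ≠ V' →
    Disjoint V V' := by
  have key : ∀ V ∈ CC (f.toHomeomorph : M → M), ∀ p ∈ Function.periodicPts
      (f.toHomeomorph : M → M), p ∉ NR (f.toHomeomorph : M → M) →
      Disjoint V (orb (f.toHomeomorph : M → M) p) := by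
    rintro _ ⟨x, hx, rfl⟩ p hp hpn
    rw [Set.disjoint_left]
    rintro y ⟨hy, -⟩ hyp
    rw [orb_eq_zpow f.toHomeomorph hp] at hyp
    obtain ⟨n, hn⟩ := hyp
    rw [hn, nb_nr] at hy
    exact hpn hy
  rintro V (hV | ⟨p, hp, hpn, rfl⟩) V' (hV' | ⟨q, hq, hqn, rfl⟩) hne
  · exact cc_disj f.toHomeomorph V V' hV hV' hne
  · exact key V hV q hq hqn
  · exact (key V' hV' p hp hpn).symm
  · rw [Set.disjoint_left]
    intro y hy hy'
    apply hne
    ext z
    exact (ga_orb_zpow f.toHomeomorph hp hy z).trans (ga_orb_zpow f.toHomeomorph hq hy' z).symm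

theorem vrec (A : Atl d M) (f : Dif d M) (K : ℝ) (hK : 1 ≤ K)
    (hN : OpHyp A f (NR (f : M → M)) K) (x : M) (hx : Rec (f : M → M) x) :
    ∃ V ∈ VVf (f : M → M), x ∈ V := by
  by_cases h : x ∈ NR (f.toHomeomorph : M → M)
  · obtain ⟨V, hV, hxV⟩ := cc_cover f.toHomeomorph (ga_sp A f K hK hN) h
    exact ⟨V, Or.inl hV, hxV⟩
  · have hper : x ∈ Function.periodicPts (f : M → M) := by
      by_contra h1
      exact h (subset_closure ⟨hx, h1⟩)
    exact ⟨orb (f : M → M) x, Or.inr ⟨x, hper, h, rfl⟩, 0, rfl⟩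

theorem vert (A : Atl d M) (f : Dif d M) (K : ℝ) (hK : 1 ≤ K)
    (hN : OpHyp A f (NR (f : M → M)) K)
    (hP : ∀ p ∈ Function.periodicPts (f : M → M), ∃ K' : ℝ, 1 ≤ K' ∧
      OpHyp A f (orb (f : M → M) p) K')
    (hnc : ¬ Cycle f.toHomeomorph (VVf (f : M → M))) :
    Vdata f.toHomeomorph (VVf (f : M → M)) := by
  have hg := goodV_all A f K hK hN hP
  refine
    { comp := fun V hV => (hg V hV).comp
      ne := fun V hV => (hg V hV).ne
      inv := fun V hV => (hg V hV).inv
      dis := vdis f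
      iso := ?_
      recu := fun x hx => vrec A f K hK hN x hx
      nc := hnc }
  rintro V (hV | ⟨p, hp, hpn, rfl⟩)
  · exact iso_class f.toHomeomorph (ga_sp A f K hK hN) V hV
  · obtain ⟨K', hK', hOp⟩ := hP p hp
    exact iso_per f.toHomeomorph p hp
      (sp_of_opHyp A f _ (fun y => orb_iff f.toHomeomorph hp y) K' hK' hOp)

end Pool.Agent.Helper55.OS
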