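import Pool.Agent.Helper55.OS.AtlasU

/-!
# OS-H2 HypChart: tangent vectors in charts

τ_c(y) = mfderiv (extChartAt c) y : T_y M → E d, a linear isomorphism for y in the source of the chart.
PROOFS.
* `chart_bij`: y in the source: extChartAt c is a local diffeomorphism there; in Mathlib e.g. `mfderiv_extChartAt_comp...`,
  `isInvertible_mfderiv_extChartAt`.
* `Aop_mfderiv`: chain rule: extChartAt c' ∘ f = (extChartAt c' ∘ f ∘ (extChartAt c).symm) ∘ extChartAt c near y.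
* `chart_norm`: in the chart at c the metric ρ is a continuous family of inner products G_c(w) on E d, w in the target (the inner product of
  the tangent vectors with coordinates u, v at φ_c.symm w): smoothness of the Riemannian metric (contMDiff, so continuous) read in the
  trivialization at c; on the compact set closedBall (φ_c c) (2 rad c) the continuous positive function (w, u) ↦ G_c(w)(u,u) on (compact) x (unit
  sphere) has positive minimum and a maximum; finitely many c.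
* `split_bound`: Λ closed (compact), Es, Eu closed in TM, complementary over Λ. There is κ ≥ 1 with tnorm s ≤ κ tnorm (s+u) for all x in Λ,
  s in Es x, u in Eu x. Proof: otherwise x_k in Λ, s_k, u_k with tnorm s_k = 1, tnorm (s_k + u_k) → 0 (scale). Subsequence: x_k → x in Λ, all in one reg c (2 rad c) (near_reg),
  the coordinates of s_k in the chart at c converge (bounded by chart_norm) to those of a vector s in T_x M with tnorm s = 1; then s_k → s in TM and -u_k → s, so u_k → -s.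
  By closedness s in Es x and -s in Eu x, so s = 0: contradiction.
-/

open Set Topology Manifold ContDiff Bundle

namespace Pool.Agent.Helper55.OS

variable {d : ℕ} {M : Type} [MetricSpace M] [ChartedSpace (E d) M] [IsManifold (𝓡 d) ∞ M]

/-- The derivative at `y` of the chart at `c`. -/
noncomputable def tau (c y : M) : TangentSpace (𝓡 d) y →L[ℝ] E d :=
  mfderiv (𝓡 d) 𝓘(ℝ, E d) (extChartAt (𝓡 d) c) y

theorem chart_bij (c y : M) (hy : y ∈ (extChartAt (𝓡 d) c).source) :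
    Function.Bijective (tau (d := d) c y) := by
  have : IsManifold (𝓡 d) 1 M := IsManifold.of_le (n := ∞) (by norm_cast)
  exact (isInvertible_mfderiv_extChartAt (I := 𝓡 d) hy).bijective

theorem inner_cont (ρ : Metric d M) :
    Continuous fun v : TangentBundle (𝓡 d) M => ρ.inner v.1 v.2 v.2 := by
  let : RiemannianBundle (fun x : M => TangentSpace (𝓡 d) x) := ⟨ρ.toRiemannianMetric⟩
  have h1 : IsContinuousRiemannianBundle (E d) (fun x : M => TangentSpace (𝓡 d) x) :=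
    ⟨⟨ρ.inner, ρ.contMDiff.continuous, fun b v w => rfl⟩⟩
  exact Continuous.inner_bundle (F := E d) (E := fun x : M => TangentSpace (𝓡 d) x)
    (b := fun v : TangentBundle (𝓡 d) M => v.1) (v := fun v => v.2) (w := fun v => v.2) continuous_id continuous_id

/-- Inverse of `tau c y`. -/
noncomputable def sg (c y : M) : E d →L[ℝ] TangentSpace (𝓡 d) y :=
  (trivializationAt (E d) (TangentSpace (𝓡 d)) c).symmL ℝ y

theorem tau_sg (c y : M) (hy : y ∈ (extChartAt (𝓡 d) c).source) (a : E d) :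
    tau c y (sg c y a) = a := by
  rw [extChartAt_source] at hy
  have h1 : tau (d := d) c y = (trivializationAt (E d) (TangentSpace (𝓡 d)) c).continuousLinearMapAt ℝ y :=
    (TangentBundle.continuousLinearMapAt_trivializationAt hy).symm
  rw [h1]
  exact (trivializationAt (E d) (TangentSpace (𝓡 d)) c).continuousLinearMapAt_symmL hy a

theorem sg_tau (c y : M) (hy : y ∈ (extChartAt (𝓡 d) c).source) (v : TangentSpace (𝓡 d) y) :
    sg c y (tau c y v) = v := by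
  rw [extChartAt_source] at hy
  have h1 : tau (d := d) c y = (trivializationAt (E d) (TangentSpace (𝓡 d)) c).continuousLinearMapAt ℝ y :=
    (TangentBundle.continuousLinearMapAt_trivializationAt hy).symm
  rw [h1]
  exact (trivializationAt (E d) (TangentSpace (𝓡 d)) c).symmL_continuousLinearMapAt hy v

theorem tot_cont (c : M) :
    ContinuousOn (fun q : M × E d => (⟨q.1, sg c q.1 q.2⟩ : TangentBundle (𝓡 d) M))
      ((extChartAt (𝓡 d) c).source ×ˢ univ) := by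
  have h1 := (trivializationAt (E d) (TangentSpace (𝓡 d)) c).toOpenPartialHomeomorph.symm.continuousOn
  rw [OpenPartialHomeomorph.symm_source, (trivializationAt (E d) (TangentSpace (𝓡 d)) c).target_eq] at h1
  rw [extChartAt_source]
  refine h1.congr fun q hq => ?_
  have h2 : sg c q.1 q.2 = (trivializationAt (E d) (TangentSpace (𝓡 d)) c).symm q.1 q.2 :=
    (trivializationAt (E d) (TangentSpace (𝓡 d)) c).symmL_apply hq.1 q.2
  show (⟨q.1, sg c q.1 q.2⟩ : TangentBundle (𝓡 d) M) = _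
  rw [h2]
  exact (trivializationAt (E d) (TangentSpace (𝓡 d)) c).mk_symm hq.1 q.2

theorem Aop_mfderiv (f : Dif d M) (c c' y : M) (hy : y ∈ (extChartAt (𝓡 d) c).source)
    (hf : f y ∈ (extChartAt (𝓡 d) c').source) (v : TangentSpace (𝓡 d) y) :
    Aop f c c' y (tau c y v) = tau c' (f y) (mfderiv (𝓡 d) (𝓡 d) f y v) := by
  have hy' : extChartAt (𝓡 d) c y ∈ (extChartAt (𝓡 d) c).target := (extChartAt (𝓡 d) c).map_source hy
  have hyy : (extChartAt (𝓡 d) c).symm (extChartAt (𝓡 d) c y) = y := (extChartAt (𝓡 d) c).left_inv hy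
  have hys : y ∈ (chartAt (E d) c).source := by rwa [extChartAt_source] at hy
  have hfs : f y ∈ (chartAt (E d) c').source := by rwa [extChartAt_source] at hf
  have d1 : MDifferentiableAt (𝓡 d) 𝓘(ℝ, E d) (extChartAt (𝓡 d) c) y := mdifferentiableAt_extChartAt hys
  have d2 : MDifferentiableAt (𝓡 d) 𝓘(ℝ, E d) (extChartAt (𝓡 d) c') (f y) := mdifferentiableAt_extChartAt hfs
  have d3 : MDifferentiableAt (𝓡 d) (𝓡 d) f y := f.contMDiff.mdifferentiableAt (by simp)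
  have d4 : MDifferentiableAt 𝓘(ℝ, E d) (𝓡 d) (extChartAt (𝓡 d) c).symm (extChartAt (𝓡 d) c y) := by
    have h1 := mdifferentiableWithinAt_extChartAt_symm (I := 𝓡 d) hy'
    rwa [ModelWithCorners.Boundaryless.range_eq_univ, mdifferentiableWithinAt_univ] at h1
  obtain ⟨L, hL⟩ : ∃ L : E d → E d, L = fun w => extChartAt (𝓡 d) c' (f ((extChartAt (𝓡 d) c).symm w)) := ⟨_, rfl⟩
  have d5 : MDifferentiableAt 𝓘(ℝ, E d) 𝓘(ℝ, E d) L (extChartAt (𝓡 d) c y) := by
    rw [hL]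
    have d3' : MDifferentiableAt (𝓡 d) (𝓡 d) f ((extChartAt (𝓡 d) c).symm (extChartAt (𝓡 d) c y)) := by rwa [hyy]
    have d2' : MDifferentiableAt (𝓡 d) 𝓘(ℝ, E d) (extChartAt (𝓡 d) c')
      (f ((extChartAt (𝓡 d) c).symm (extChartAt (𝓡 d) c y))) := by rwa [hyy]
    have d6 : MDifferentiableAt 𝓘(ℝ, E d) (𝓡 d) (fun w => f ((extChartAt (𝓡 d) c).symm w)) (extChartAt (𝓡 d) c y) :=
      MDifferentiableAt.comp (extChartAt (𝓡 d) c y) d3' d4
    exact MDifferentiableAt.comp (extChartAt (𝓡 d) c y) (g := extChartAt (𝓡 d) c') d2' d6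
  have h1 : mfderiv (𝓡 d) 𝓘(ℝ, E d) (L ∘ extChartAt (𝓡 d) c) y =
      (mfderiv 𝓘(ℝ, E d) 𝓘(ℝ, E d) L (extChartAt (𝓡 d) c y)).comp (mfderiv (𝓡 d) 𝓘(ℝ, E d) (extChartAt (𝓡 d) c) y) :=
    mfderiv_comp y d5 d1
  have h2 : mfderiv (𝓡 d) 𝓘(ℝ, E d) (extChartAt (𝓡 d) c' ∘ f) y =
      (mfderiv (𝓡 d) 𝓘(ℝ, E d) (extChartAt (𝓡 d) c') (f y)).comp (mfderiv (𝓡 d) (𝓡 d) f y) :=
    mfderiv_comp y d2 d3
  have h3 : L ∘ extChartAt (𝓡 d) c =ᶠ[𝓝 y] extChartAt (𝓡 d) c' ∘ f := by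
    filter_upwards [extChartAt_source_mem_nhds' (I := 𝓡 d) hy] with z hz
    rw [hL]
    show extChartAt (𝓡 d) c' (f ((extChartAt (𝓡 d) c).symm (extChartAt (𝓡 d) c z))) = extChartAt (𝓡 d) c' (f z)
    rw [(extChartAt (𝓡 d) c).left_inv hz]
  have h4 := h3.mfderiv_eq (I := 𝓡 d) (I' := 𝓘(ℝ, E d))
  have h5 : Aop f c c' y = mfderiv 𝓘(ℝ, E d) 𝓘(ℝ, E d) L (extChartAt (𝓡 d) c y) := by
    rw [mfderiv_eq_fderiv, hL]
    rfl
  rw [h5]
  have h6 : mfderiv (𝓡 d) 𝓘(ℝ, E d) (L ∘ extChartAt (𝓡 d) c) y v =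
    mfderiv (𝓡 d) 𝓘(ℝ, E d) (extChartAt (𝓡 d) c' ∘ f) y v := by
    rw [h4]
    rfl
  rw [h1, h2] at h6
  exact h6

theorem tnorm_cont (ρ : Metric d M) : Continuous fun v : TangentBundle (𝓡 d) M => tnorm ρ v.1 v.2 :=
  (inner_cont ρ).sqrt

theorem tnorm_smul (ρ : Metric d M) (x : M) (a : ℝ) (v : TangentSpace (𝓡 d) x) :
    tnorm ρ x (a • v) = |a| * tnorm ρ x v := by
  unfold tnorm
  have h1 : ρ.inner x (a • v) (a • v) = a ^ 2 * ρ.inner x v v := by
    rw [map_smul, map_smul, smul_eq_mul]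
    show a * (a • ρ.inner x v) v = _
    show a * (a * ρ.inner x v v) = _
    ring
  rw [h1, Real.sqrt_mul (sq_nonneg a), Real.sqrt_sq_eq_abs]

theorem tnorm_pos (ρ : Metric d M) (x : M) (v : TangentSpace (𝓡 d) x) (hv : v ≠ 0) : 0 < tnorm ρ x v :=
  Real.sqrt_pos.2 (ρ.pos x v hv)

theorem tnorm_zero (ρ : Metric d M) (x : M) : tnorm ρ x 0 = 0 := by
  unfold tnorm
  rw [map_zero]
  exact Real.sqrt_zero

theorem tnorm_nonneg (ρ : Metric d M) (x : M) (v : TangentSpace (𝓡 d) x) : 0 ≤ tnorm ρ x v :=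
  Real.sqrt_nonneg _

theorem sg_inj (c y : M) (hy : y ∈ (extChartAt (𝓡 d) c).source) {a : E d} (h : sg c y a = 0) : a = 0 := by
  rw [← tau_sg c y hy a, h, map_zero]

theorem chart_norm_one [CompactSpace M] (A : Atl d M) (ρ : Metric d M) (c : M) :
    ∃ κ : ℝ, 1 ≤ κ ∧ (c ∈ A.C → ∀ y ∈ reg d c (2 * A.rad c), ∀ v : TangentSpace (𝓡 d) y,
      ‖tau c y v‖ ≤ κ * tnorm ρ y v ∧ tnorm ρ y v ≤ κ * ‖tau c y v‖) := by
  by_cases hc : c ∈ A.C
  · have hK : IsCompact (reg d c (2 * A.rad c) ×ˢ Metric.sphere (0 : E d) 1) :=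
      (reg_compact A hc (by linarith [A.pos c hc])).prod (isCompact_sphere _ _)
    have hs : reg d c (2 * A.rad c) ×ˢ Metric.sphere (0 : E d) 1 ⊆ (extChartAt (𝓡 d) c).source ×ˢ univ :=
      fun q hq => ⟨hq.1.1, mem_univ _⟩
    have hH : ContinuousOn (fun q : M × E d => tnorm ρ q.1 (sg c q.1 q.2))
        (reg d c (2 * A.rad c) ×ˢ Metric.sphere (0 : E d) 1) :=
      (tnorm_cont ρ).comp_continuousOn ((tot_cont c).mono hs)
    have hH0 : ∀ q ∈ reg d c (2 * A.rad c) ×ˢ Metric.sphere (0 : E d) 1, 0 < tnorm ρ q.1 (sg c q.1 q.2) := by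
      intro q hq
      refine tnorm_pos ρ _ _ fun h => ?_
      have h1 := sg_inj c q.1 hq.1.1 h
      have h2 := hq.2
      rw [h1, mem_sphere_zero_iff_norm, norm_zero] at h2
      exact zero_ne_one h2
    obtain ⟨C1, hC1⟩ := hK.exists_bound_of_continuousOn hH
    obtain ⟨C2, hC2⟩ := hK.exists_bound_of_continuousOn (hH.inv₀ fun q hq => (hH0 q hq).ne')
    refine ⟨1 + |C1| + |C2|, by linarith [abs_nonneg C1, abs_nonneg C2], fun _ y hy v => ?_⟩
    obtain ⟨a, ha⟩ : ∃ a, a = tau c y v := ⟨_, rfl⟩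
    have hva : v = sg c y a := by rw [ha, sg_tau c y hy.1]
    rw [← ha]
    by_cases ha0 : a = 0
    · rw [hva, ha0, map_zero, tnorm_zero, norm_zero, mul_zero]
      exact ⟨le_refl _, le_refl _⟩
    · have hn : 0 < ‖a‖ := norm_pos_iff.2 ha0
      have hm : (y, ‖a‖⁻¹ • a) ∈ reg d c (2 * A.rad c) ×ˢ Metric.sphere (0 : E d) 1 := by
        refine ⟨hy, ?_⟩
        rw [mem_sphere_zero_iff_norm]
        show ‖‖a‖⁻¹ • a‖ = 1
        rw [norm_smul, norm_inv, norm_norm, inv_mul_cancel₀ hn.ne']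
      have h1 := hC1 _ hm
      have h2 : ‖(tnorm ρ y (sg c y (‖a‖⁻¹ • a)))⁻¹‖ ≤ C2 := hC2 _ hm
      have h3 : tnorm ρ y (sg c y (‖a‖⁻¹ • a)) = ‖a‖⁻¹ * tnorm ρ y v := by
        rw [map_smul, tnorm_smul, ← hva, abs_of_pos (inv_pos.2 hn)]
      have hv0 : 0 < tnorm ρ y v := by
        have h4 := hH0 _ hm
        rw [h3] at h4
        exact pos_of_mul_pos_right h4 (inv_pos.2 hn).le
      rw [h3] at h1 h2
      rw [Real.norm_of_nonneg (by positivity)] at h1
      rw [Real.norm_of_nonneg (by positivity)] at h2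
      have h5 : tnorm ρ y v ≤ C1 * ‖a‖ := by
        have h6 := mul_le_mul_of_nonneg_right h1 hn.le
        rwa [mul_comm ‖a‖⁻¹, mul_assoc, inv_mul_cancel₀ hn.ne', mul_one] at h6
      have h7 : ‖a‖ ≤ C2 * tnorm ρ y v := by
        have h6 := mul_le_mul_of_nonneg_right h2 hv0.le
        rwa [mul_inv, inv_inv, mul_assoc, inv_mul_cancel₀ hv0.ne', mul_one] at h6
      constructor
      · refine h7.trans (mul_le_mul_of_nonneg_right ?_ hv0.le)
        linarith [abs_nonneg C1, le_abs_self C2]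
      · refine h5.trans (mul_le_mul_of_nonneg_right ?_ hn.le)
        linarith [abs_nonneg C2, le_abs_self C1]
  · exact ⟨1, le_refl _, fun h => absurd h hc⟩

theorem chart_norm [CompactSpace M] (A : Atl d M) (ρ : Metric d M) :
    ∃ κ : ℝ, 1 ≤ κ ∧ ∀ c ∈ A.C, ∀ y ∈ reg d c (2 * A.rad c), ∀ v : TangentSpace (𝓡 d) y,
      ‖tau c y v‖ ≤ κ * tnorm ρ y v ∧ tnorm ρ y v ≤ κ * ‖tau c y v‖ := by
  choose k hk1 hk2 using fun c : M => chart_norm_one A ρ c
  have hle : ∀ c ∈ A.C, k c ≤ 1 + ∑ c ∈ A.C, k c := by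
    intro c hc
    have h1 := Finset.single_le_sum (f := k) (fun c _ => zero_le_one.trans (hk1 c)) hc
    linarith
  refine ⟨1 + ∑ c ∈ A.C, k c, ?_, fun c hc y hy v => ?_⟩
  · have h1 : 0 ≤ ∑ c ∈ A.C, k c := Finset.sum_nonneg fun c _ => zero_le_one.trans (hk1 c)
    linarith
  · obtain ⟨h1, h2⟩ := hk2 c hc y hy v
    exact ⟨h1.trans (mul_le_mul_of_nonneg_right (hle c hc) (tnorm_nonneg _ _ _)),
      h2.trans (mul_le_mul_of_nonneg_right (hle c hc) (norm_nonneg _))⟩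

theorem split_one [CompactSpace M] (A : Atl d M) (Λ : Set M)
    (Es Eu : ∀ x : M, Submodule ℝ (TangentSpace (𝓡 d) x)) (hc : ∀ x ∈ Λ, IsCompl (Es x) (Eu x))
    (hs : IsClosed {v : TangentBundle (𝓡 d) M | v.1 ∈ Λ ∧ v.2 ∈ Es v.1})
    (hu : IsClosed {v : TangentBundle (𝓡 d) M | v.1 ∈ Λ ∧ v.2 ∈ Eu v.1}) (c : M) :
    ∃ κ : ℝ, 1 ≤ κ ∧ (c ∈ A.C → ∀ x ∈ Λ, x ∈ reg d c (2 * A.rad c) → ∀ a b : E d, sg c x a ∈ Es x →
      sg c x b ∈ Eu x → ‖a‖ ≤ κ * ‖a + b‖) := by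
  by_cases hcC : c ∈ A.C
  · obtain ⟨K, hKd⟩ : ∃ K : Set (M × (E d × E d)), K = reg d c (2 * A.rad c) ×ˢ
      (Metric.sphere (0 : E d) 1 ×ˢ Metric.closedBall (0 : E d) 2) := ⟨_, rfl⟩
    have hK : IsCompact K := by
      rw [hKd]
      exact (reg_compact A hcC (by linarith [A.pos c hcC])).prod
        ((isCompact_sphere _ _).prod (isCompact_closedBall _ _))
    have hKs : ∀ q ∈ K, q.1 ∈ (extChartAt (𝓡 d) c).source := by
      intro q hq
      rw [hKd] at hq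
      exact hq.1.1
    have hF1 : ContinuousOn (fun q : M × (E d × E d) => (⟨q.1, sg c q.1 q.2.1⟩ : TangentBundle (𝓡 d) M)) K :=
      (tot_cont c).comp (f := fun q : M × (E d × E d) => (q.1, q.2.1)) (by fun_prop)
        fun q hq => ⟨hKs q hq, mem_univ _⟩
    have hF2 : ContinuousOn (fun q : M × (E d × E d) => (⟨q.1, sg c q.1 q.2.2⟩ : TangentBundle (𝓡 d) M)) K :=
      (tot_cont c).comp (f := fun q : M × (E d × E d) => (q.1, q.2.2)) (by fun_prop)
        fun q hq => ⟨hKs q hq, mem_univ _⟩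
    obtain ⟨K', hKd'⟩ : ∃ K' : Set (M × (E d × E d)), K' =
      (K ∩ (fun q : M × (E d × E d) => (⟨q.1, sg c q.1 q.2.1⟩ : TangentBundle (𝓡 d) M)) ⁻¹'
        {v : TangentBundle (𝓡 d) M | v.1 ∈ Λ ∧ v.2 ∈ Es v.1}) ∩
      (K ∩ (fun q : M × (E d × E d) => (⟨q.1, sg c q.1 q.2.2⟩ : TangentBundle (𝓡 d) M)) ⁻¹'
        {v : TangentBundle (𝓡 d) M | v.1 ∈ Λ ∧ v.2 ∈ Eu v.1}) := ⟨_, rfl⟩
    have hK' : IsCompact K' := by
      refine hK.of_isClosed_subset ?_ ?_
      · rw [hKd']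
        exact (hF1.preimage_isClosed_of_isClosed hK.isClosed hs).inter
          (hF2.preimage_isClosed_of_isClosed hK.isClosed hu)
      · rw [hKd']
        exact fun q hq => hq.1.1
    have hg : ∀ q ∈ K', ‖q.2.1 + q.2.2‖ ≠ 0 := by
      intro q hq h0
      rw [hKd'] at hq
      obtain ⟨⟨hqK, hq1⟩, ⟨-, hq2⟩⟩ := hq
      have hqs := hKs q hqK
      rw [norm_eq_zero] at h0
      have h1 : q.2.2 = -q.2.1 := by
        rw [eq_neg_iff_add_eq_zero, add_comm]
        exact h0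
      have h2 : sg c q.1 q.2.1 ∈ Es q.1 := hq1.2
      have h3 : sg c q.1 q.2.2 ∈ Eu q.1 := hq2.2
      rw [h1, map_neg, Submodule.neg_mem_iff] at h3
      have h4 := Submodule.disjoint_def.1 (hc q.1 hq1.1).disjoint _ h2 h3
      have h5 := sg_inj c q.1 hqs h4
      rw [hKd] at hqK
      have h6 := hqK.2.1
      rw [h5, mem_sphere_zero_iff_norm, norm_zero] at h6
      exact zero_ne_one h6
    have hgc : ContinuousOn (fun q : M × (E d × E d) => ‖q.2.1 + q.2.2‖⁻¹) K' :=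
      ContinuousOn.inv₀ (by fun_prop) hg
    obtain ⟨C, hC⟩ := hK'.exists_bound_of_continuousOn hgc
    refine ⟨1 + |C|, by linarith [abs_nonneg C], fun _ x hx hxr a b ha hb => ?_⟩
    by_cases ha0 : a = 0
    · rw [ha0, norm_zero]
      positivity
    · have hn : 0 < ‖a‖ := norm_pos_iff.2 ha0
      have hab : ‖‖a‖⁻¹ • a + ‖a‖⁻¹ • b‖ = ‖a‖⁻¹ * ‖a + b‖ := by
        rw [← smul_add, norm_smul, norm_inv, norm_norm]
      have hsa : ‖‖a‖⁻¹ • a‖ = 1 := by
        rw [norm_smul, norm_inv, norm_norm, inv_mul_cancel₀ hn.ne']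
      by_cases hb2 : ‖‖a‖⁻¹ • b‖ ≤ 2
      · have hm : (x, (‖a‖⁻¹ • a, ‖a‖⁻¹ • b)) ∈ K' := by
          have hmK : (x, (‖a‖⁻¹ • a, ‖a‖⁻¹ • b)) ∈ K := by
            rw [hKd]
            refine ⟨hxr, ?_, ?_⟩
            · rw [mem_sphere_zero_iff_norm]
              exact hsa
            · rw [mem_closedBall_zero_iff]
              exact hb2
          rw [hKd']
          refine ⟨⟨hmK, hx, ?_⟩, ⟨hmK, hx, ?_⟩⟩
          · show sg c x (‖a‖⁻¹ • a) ∈ Es x
            rw [map_smul]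
            exact (Es x).smul_mem _ ha
          · show sg c x (‖a‖⁻¹ • b) ∈ Eu x
            rw [map_smul]
            exact (Eu x).smul_mem _ hb
        have h1 := hC _ hm
        have h2 := hg _ hm
        have h3 : 0 < ‖a‖⁻¹ * ‖a + b‖ := by
          rw [← hab]
          exact lt_of_le_of_ne (norm_nonneg _) (Ne.symm h2)
        have h4 : 0 < ‖a + b‖ := pos_of_mul_pos_right h3 (inv_pos.2 hn).le
        have h5 : ‖(‖‖a‖⁻¹ • a + ‖a‖⁻¹ • b‖⁻¹ : ℝ)‖ ≤ C := h1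
        rw [hab, Real.norm_of_nonneg (by positivity), mul_inv, inv_inv] at h5
        have h6 := mul_le_mul_of_nonneg_right h5 h4.le
        rw [mul_assoc, inv_mul_cancel₀ h4.ne', mul_one] at h6
        refine h6.trans (mul_le_mul_of_nonneg_right ?_ h4.le)
        linarith [le_abs_self C]
      · push Not at hb2
        have h1 : ‖‖a‖⁻¹ • b‖ ≤ ‖‖a‖⁻¹ • a + ‖a‖⁻¹ • b‖ + ‖‖a‖⁻¹ • a‖ := by
          have h2 := norm_sub_le (‖a‖⁻¹ • a + ‖a‖⁻¹ • b) (‖a‖⁻¹ • a)
          rwa [add_sub_cancel_left] at h2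
        rw [hab, hsa] at h1
        have h3 : 1 ≤ ‖a‖⁻¹ * ‖a + b‖ := by linarith
        have h4 := mul_le_mul_of_nonneg_left h3 hn.le
        rw [← mul_assoc, mul_inv_cancel₀ hn.ne', one_mul, mul_one] at h4
        refine h4.trans ?_
        have h5 : 0 ≤ |C| * ‖a + b‖ := by positivity
        linarith
  · exact ⟨1, le_refl _, fun h => absurd h hcC⟩

theorem split_bound [CompactSpace M] (A : Atl d M) (ρ : Metric d M) (Λ : Set M) (hΛ : IsClosed Λ)
    (Es Eu : ∀ x : M, Submodule ℝ (TangentSpace (𝓡 d) x)) (hc : ∀ x ∈ Λ, IsCompl (Es x) (Eu x))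
    (hs : IsClosed {v : TangentBundle (𝓡 d) M | v.1 ∈ Λ ∧ v.2 ∈ Es v.1})
    (hu : IsClosed {v : TangentBundle (𝓡 d) M | v.1 ∈ Λ ∧ v.2 ∈ Eu v.1}) :
    ∃ κ : ℝ, 1 ≤ κ ∧ ∀ x ∈ Λ, ∀ s ∈ Es x, ∀ u ∈ Eu x, tnorm ρ x s ≤ κ * tnorm ρ x (s + u) := by
  obtain ⟨κ, hκ1, hκ⟩ := chart_norm A ρ
  choose k hk1 hk2 using fun c : M => split_one A Λ Es Eu hc hs hu c
  have hle : ∀ c ∈ A.C, k c ≤ 1 + ∑ c ∈ A.C, k c := by
    intro c hc
    have h1 := Finset.single_le_sum (f := k) (fun c _ => zero_le_one.trans (hk1 c)) hc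
    linarith
  have hge : 1 ≤ 1 + ∑ c ∈ A.C, k c := by
    have h1 : 0 ≤ ∑ c ∈ A.C, k c := Finset.sum_nonneg fun c _ => zero_le_one.trans (hk1 c)
    linarith
  refine ⟨κ * ((1 + ∑ c ∈ A.C, k c) * κ), ?_, fun x hx s hsx u hux => ?_⟩
  · nlinarith [mul_le_mul hge hκ1 zero_le_one (zero_le_one.trans hge)]
  · have hcC := A.ch_mem x
    have hxr : x ∈ reg d (A.ch x) (2 * A.rad (A.ch x)) := by
      refine ⟨(A.ch_reg x).1, Metric.closedBall_subset_closedBall ?_ (A.ch_reg x).2⟩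
      linarith [A.pos _ hcC]
    obtain ⟨-, h1⟩ := hκ _ hcC x hxr s
    obtain ⟨h2, -⟩ := hκ _ hcC x hxr (s + u)
    have h3 := hk2 _ hcC x hx hxr (tau (A.ch x) x s) (tau (A.ch x) x u)
      (by rwa [sg_tau _ _ hxr.1]) (by rwa [sg_tau _ _ hxr.1])
    rw [← map_add] at h3
    calc tnorm ρ x s ≤ κ * ‖tau (A.ch x) x s‖ := h1
      _ ≤ κ * ((1 + ∑ c ∈ A.C, k c) * (κ * tnorm ρ x (s + u))) := by
        refine mul_le_mul_of_nonneg_left ?_ (zero_le_one.trans hκ1)
        refine h3.trans (mul_le_mul (hle _ hcC) h2 (norm_nonneg _) (zero_le_one.trans hge))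
      _ = κ * ((1 + ∑ c ∈ A.C, k c) * κ) * tnorm ρ x (s + u) := by ring

end Pool.Agent.Helper55.OS
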