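import Pool.Agent.Helper55.OS.HypSeq
import Pool.Agent.Helper55.OS.HypChart

/-!
# OS-H3 HypOp: hyperbolic sets are hyperbolic in the operator sense; converse independence of charts

PROOFS.
* `opHyp_of_hypOn`. Let Es, Eu, c0, r0 (constants of HypOn) and κ1 = κ of chart_norm, κ2 of split_bound. Let y be an orbit in Λ, c admissible. Put
  S_n = image of Es (y n) under tau (c n) (y n), U_n = image of Eu (y n): complementary (tau bijective), ‖s‖ ≤ κ1² κ2 ‖s+u‖.
  a_n = Aop f (c n) (c (n+1)) (y n) maps S_n into S_{n+1}, U_n into U_{n+1} (Aop_mfderiv; y (n+1) = f (y n)). a_n is bijective (mfderiv f is bijective, tau are), so, by dimension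
  or because a_n is onto and preserves the splitting (write a preimage of u' as s + u: a_n s in S, a_n u in U, so a_n s = 0, s = 0) it maps U_n onto U_{n+1}.
  By induction pr a n k (tau v) = tau (mfderiv f^[k] v) for v in T_{y n} M (chain rule for f^[k+1] = f ∘ f^[k], y (n+k) = f^[k] (y n)). So for u in U_n:
  ‖u‖ ≤ κ1 tnorm v ≤ κ1 c0⁻¹ r0^(-k) tnorm (D f^k v) ≤ κ1² c0⁻¹ r0^(-k) ‖pr a n k u‖ (k ≥ 1; for k = 0 trivial with C ≥ 1). For s in S_n, s = tau v, put w = D f^k v in Es (y (n+k)):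
  D (f.symm)^[k] w = v (chain rule for (f.symm)^[k] ∘ f^[k] = id), so c0 r0^k tnorm w ≤ tnorm v: ‖pr a n k s‖ ≤ κ1² c0⁻¹ r0^(-k) ‖s‖. Apply `inv_of_split` with
  θ = 1/r0, C = max 1 (κ1²/c0), κ = κ1² κ2 (independent of y and c).
* `inv_chart_ind` (change of charts): y an f-orbit, c and c' two admissible chart sequences, Inv K for c. Then Inv (K * L) for c' with L depending only on A: T_n = tau (c' n) (y n) ∘
  tau (c n) (y n)⁻¹ (the derivative of the coordinate change) satisfies T_{n+1} a_n = a'_n T_n and ‖T_n‖, ‖T_n⁻¹‖ ≤ κ (T_n and its inverse are derivatives of coordinate changes on compact sets;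
  or use chart_norm for any Riemannian metric: here the hypothesis gives one, ρ). So z' = T z: L = κ⁴ with κ of chart_norm.
* `opHyp_congr`: if f, g agree on a neighbourhood of every point of Λ (Λ invariant) then OpHyp A f Λ K → OpHyp A g Λ K (Aop depends on the germ).
* `opHyp_union_orbit`: if OpHyp A f Λ K and x is a point all of whose orbit ... with Inv K1 along the orbit of x for ONE admissible chart sequence, then OpHyp A f (Λ ∪ orbit of x) K' for some
  K', if Λ is invariant: an orbit in the union is either in Λ or of the form y_n = (f^(n+m)) x (shift); use inv_chart_ind and shift invariance of Inv.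
-/

open Set Topology Manifold ContDiff

namespace Pool.Agent.Helper55.OS

variable {d : ℕ} {M : Type} [MetricSpace M] [ChartedSpace (E d) M] [IsManifold (𝓡 d) ∞ M]
  [CompactSpace M]

/-- `tau` between copies of the model space -/
private noncomputable def ta (c x : M) : E d →L[ℝ] E d := tau (d := d) c x

/-- the derivative between copies of the model space -/
private noncomputable def dg (g : M → M) (x : M) : E d →L[ℝ] E d := mfderiv (𝓡 d) (𝓡 d) g x

omit [IsManifold (𝓡 d) ∞ M] [CompactSpace M] in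
private lemma dg_comp {g h : M → M} (hg : MDifferentiable (𝓡 d) (𝓡 d) g)
    (hh : MDifferentiable (𝓡 d) (𝓡 d) h) (x : M) (v : E d) :
    dg (d := d) (g ∘ h) x v = dg (d := d) g (h x) (dg (d := d) h x v) := by
  have h1 := mfderiv_comp x (hg (h x)) (hh x)
  have h2 : dg (d := d) (g ∘ h) x = (dg (d := d) g (h x)).comp (dg (d := d) h x) := h1
  rw [h2]
  rfl

omit [IsManifold (𝓡 d) ∞ M] [CompactSpace M] in
private lemma dg_id (x : M) (v : E d) : dg (d := d) (id : M → M) x v = v := by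
  have h1 : dg (d := d) (id : M → M) x = ContinuousLinearMap.id ℝ (E d) := mfderiv_id
  rw [h1]
  rfl

omit [IsManifold (𝓡 d) ∞ M] [CompactSpace M] in
private lemma mdiff_iter {g : M → M} (hg : MDifferentiable (𝓡 d) (𝓡 d) g) (k : ℕ) :
    MDifferentiable (𝓡 d) (𝓡 d) g^[k] := by
  induction k with
  | zero => exact mdifferentiable_id
  | succ k ih =>
    rw [Function.iterate_succ']
    exact hg.comp ih

omit [IsManifold (𝓡 d) ∞ M] [CompactSpace M] in
private lemma dif_mdiff (f : Dif d M) : MDifferentiable (𝓡 d) (𝓡 d) (f : M → M) :=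
  f.mdifferentiable (by simp)

omit [IsManifold (𝓡 d) ∞ M] [CompactSpace M] in
private lemma dg_iter_succ (f : Dif d M) (k : ℕ) (x : M) (v : E d) :
    dg (d := d) (f : M → M)^[k + 1] x v =
      dg (d := d) (f : M → M) ((f : M → M)^[k] x) (dg (d := d) (f : M → M)^[k] x v) := by
  rw [Function.iterate_succ']
  exact dg_comp (dif_mdiff f) (mdiff_iter (dif_mdiff f) k) x v

omit [IsManifold (𝓡 d) ∞ M] [CompactSpace M] in
private lemma symm_iter (f : Dif d M) (k : ℕ) :
    (f.symm : M → M)^[k] ∘ (f : M → M)^[k] = id := by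
  have h : Function.LeftInverse (f.symm : M → M) (f : M → M) := fun x => f.symm_apply_apply x
  exact (h.iterate k).comp_eq_id

omit [IsManifold (𝓡 d) ∞ M] [CompactSpace M] in
private lemma dg_symm_iter (f : Dif d M) (k : ℕ) (x : M) (v : E d) :
    dg (d := d) (f.symm : M → M)^[k] ((f : M → M)^[k] x) (dg (d := d) (f : M → M)^[k] x v) = v := by
  rw [← dg_comp (mdiff_iter (dif_mdiff f.symm) k) (mdiff_iter (dif_mdiff f) k) x v, symm_iter,
    dg_id]

omit [IsManifold (𝓡 d) ∞ M] [CompactSpace M] in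
private lemma dg_surj (f : Dif d M) (x : M) (w : E d) :
    dg (d := d) (f : M → M) x (dg (d := d) (f.symm : M → M) (f x) w) = w := by
  have h1 : (f : M → M) ∘ (f.symm : M → M) = id := by
    funext z
    exact f.apply_symm_apply z
  have h2 := dg_comp (dif_mdiff f) (dif_mdiff f.symm) (f x) w
  rw [h1, dg_id] at h2
  have h3 : f.symm (f x) = x := f.symm_apply_apply x
  rw [h3] at h2
  exact h2.symm

private lemma orb_iter {f : M → M} {y : ℤ → M} (hy : ∀ n, y (n + 1) = f (y n)) (n : ℤ) (k : ℕ) :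
    y (n + k) = f^[k] (y n) := by
  induction k with
  | zero => simp
  | succ k ih =>
    rw [Function.iterate_succ_apply', ← ih, ← hy]
    congr 1
    push_cast
    ring

private lemma pr_eq (A : Atl d M) (f : Dif d M) (y c : ℤ → M) (hy : ∀ n, y (n + 1) = f (y n))
    (hA : Adm A y c) (n : ℤ) (k : ℕ) (v : E d) :
    pr (fun n => Aop f (c n) (c (n + 1)) (y n)) n k (ta (c n) (y n) v) =
      ta (c (n + k)) ((f : M → M)^[k] (y n)) (dg (d := d) (f : M → M)^[k] (y n) v) := by
  induction k with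
  | zero =>
    have h1 : dg (d := d) (f : M → M)^[0] (y n) v = v := dg_id (y n) v
    rw [h1]
    simp [pr]
  | succ k ih =>
    have h1 : pr (fun n => Aop f (c n) (c (n + 1)) (y n)) n (k + 1) (ta (c n) (y n) v) =
        Aop f (c (n + k)) (c (n + k + 1)) (y (n + k))
          (pr (fun n => Aop f (c n) (c (n + 1)) (y n)) n k (ta (c n) (y n) v)) := rfl
    rw [h1, ih, dg_iter_succ, Function.iterate_succ_apply']
    obtain ⟨x, hx⟩ : ∃ x, x = (f : M → M)^[k] (y n) := ⟨_, rfl⟩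
    have hyx : y (n + k) = x := by rw [hx]; exact orb_iter hy n k
    rw [← hx, hyx]
    have h2 : x ∈ (extChartAt (𝓡 d) (c (n + k))).source := by
      rw [← hyx]
      exact (hA (n + k)).2.1
    have h3 : f x ∈ (extChartAt (𝓡 d) (c (n + k + 1))).source := by
      rw [← hyx, ← hy (n + k)]
      exact (hA (n + k + 1)).2.1
    have h4 := Aop_mfderiv f (c (n + k)) (c (n + k + 1)) x h2 h3
      (dg (d := d) (f : M → M)^[k] (y n) v)
    have h5 : (n + ((k + 1 : ℕ) : ℤ)) = n + k + 1 := by push_cast; ring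
    rw [h5]
    exact h4

private lemma Inv_mono {a : ℤ → E d →L[ℝ] E d} {K K' : ℝ} (h : Inv K a) (hK : K ≤ K') : Inv K' a := by
  intro b C hb
  have hC : 0 ≤ C := (norm_nonneg _).trans (hb 0)
  obtain ⟨z, h1, h2, h3⟩ := h b C hb
  exact ⟨z, fun n => (h1 n).trans (mul_le_mul_of_nonneg_right hK hC), h2, h3⟩

private lemma Inv_shift {a : ℤ → E d →L[ℝ] E d} {K : ℝ} (h : Inv K a) (m : ℤ) :
    Inv K (fun n => a (n + m)) := by
  intro b C hb
  obtain ⟨z, h1, h2, h3⟩ := h (fun n => b (n - m)) C (fun n => hb _)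
  refine ⟨fun n => z (n + m), fun n => h1 _, fun n => ?_, fun z' hz' hz'' => ?_⟩
  · have e := h2 (n + m)
    have e1 : n + m + 1 = n + 1 + m := by ring
    have e2 : n + m - m = n := by ring
    simp only [e1, e2] at e
    exact e
  · have h4 := h3 (fun n => z' (n - m)) (by
      obtain ⟨C', hC'⟩ := hz'
      exact ⟨C', fun n => hC' _⟩) (fun n => by
        have e := hz'' (n - m)
        have e1 : n - m + 1 = n + 1 - m := by ring
        have e2 : n - m + m = n := by ring
        simp only [e1, e2] at e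
        exact e)
    funext n
    have h5 := congrFun h4 (n + m)
    have e2 : n + m - m = n := by ring
    simp only [e2] at h5
    exact h5

theorem opHyp_of_hypOn (A : Atl d M) (ρ : Metric d M) (f : Dif d M) (Λ : Set M) (hΛ : IsClosed Λ)
    (h : HypOn ρ f Λ) : ∃ K : ℝ, 1 ≤ K ∧ OpHyp A f Λ K := by
  obtain ⟨Es, Eu, hcompl, hEs, hEu, hEsc, hEuc, c0, r0, hc0, hr0, hest⟩ := h
  obtain ⟨κ1, hκ1, hcn⟩ := chart_norm A ρ
  obtain ⟨κ2, hκ2, hsb⟩ := split_bound A ρ Λ hΛ Es Eu hcompl hEsc hEuc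
  -- everything in the model space
  obtain ⟨tn, htn⟩ : ∃ tn : M → E d → ℝ, tn = fun x v => tnorm ρ x v := ⟨_, rfl⟩
  obtain ⟨Es', hEs'⟩ : ∃ Es' : M → Submodule ℝ (E d), Es' = Es := ⟨_, rfl⟩
  obtain ⟨Eu', hEu'⟩ : ∃ Eu' : M → Submodule ℝ (E d), Eu' = Eu := ⟨_, rfl⟩
  have tn0 : ∀ x v, 0 ≤ tn x v := by
    intro x v
    rw [htn]
    exact Real.sqrt_nonneg _
  have Hcompl : ∀ x ∈ Λ, IsCompl (Es' x) (Eu' x) := by
    rw [hEs', hEu']
    exact hcompl
  have HEs : ∀ x ∈ Λ, ∀ v ∈ Es' x, dg (d := d) (f : M → M) x v ∈ Es' (f x) := by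
    rw [hEs']
    exact hEs
  have HEu : ∀ x ∈ Λ, ∀ v ∈ Eu' x, dg (d := d) (f : M → M) x v ∈ Eu' (f x) := by
    rw [hEu']
    exact hEu
  have Hcn : ∀ c ∈ A.C, ∀ y ∈ reg d c (2 * A.rad c), ∀ v : E d,
      ‖ta (d := d) c y v‖ ≤ κ1 * tn y v ∧ tn y v ≤ κ1 * ‖ta (d := d) c y v‖ := by
    rw [htn]
    exact hcn
  have Hsb : ∀ x ∈ Λ, ∀ s ∈ Es' x, ∀ u ∈ Eu' x, tn x s ≤ κ2 * tn x (s + u) := by
    rw [hEs', hEu', htn]
    exact hsb
  have Hu : ∀ x ∈ Λ, ∀ n : ℕ, 1 ≤ n → ∀ v ∈ Eu' x, c0 * r0 ^ n * tn x v ≤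
      tn ((f : M → M)^[n] x) (dg (d := d) (f : M → M)^[n] x v) := by
    rw [hEu', htn]
    exact fun x hx n hn => (hest x hx n hn).1
  have Hs : ∀ x ∈ Λ, ∀ n : ℕ, 1 ≤ n → ∀ v ∈ Es' x, c0 * r0 ^ n * tn x v ≤
      tn ((f.symm : M → M)^[n] x) (dg (d := d) (f.symm : M → M)^[n] x v) := by
    rw [hEs', htn]
    exact fun x hx n hn => (hest x hx n hn).2
  have Hbij : ∀ c y : M, y ∈ (extChartAt (𝓡 d) c).source → Function.Bijective (ta (d := d) c y) :=
    fun c y hy => chart_bij c y hy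
  have Hop : ∀ c c' y : M, y ∈ (extChartAt (𝓡 d) c).source → f y ∈ (extChartAt (𝓡 d) c').source →
      ∀ v : E d, Aop f c c' y (ta c y v) = ta c' (f y) (dg (d := d) (f : M → M) y v) :=
    fun c c' y hy hf v => Aop_mfderiv f c c' y hy hf v
  clear hest hsb hcn hEs hEu hcompl hEsc hEuc
  -- constants
  obtain ⟨θ, hθ⟩ : ∃ θ : ℝ, θ = r0⁻¹ := ⟨_, rfl⟩
  have hr00 : 0 < r0 := by linarith
  have hθ0 : 0 ≤ θ := by
    rw [hθ]
    positivity
  have hθ1 : θ < 1 := by
    rw [hθ]
    exact inv_lt_one_of_one_lt₀ hr0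
  have hθr : ∀ k : ℕ, θ ^ k * r0 ^ k = 1 := by
    intro k
    rw [← mul_pow, hθ, inv_mul_cancel₀ hr00.ne', one_pow]
  obtain ⟨C, hC⟩ : ∃ C : ℝ, C = max 1 (κ1 ^ 2 / c0) := ⟨_, rfl⟩
  have hC1 : 1 ≤ C := by
    rw [hC]
    exact le_max_left _ _
  have hC2 : κ1 ^ 2 / c0 ≤ C := by
    rw [hC]
    exact le_max_right _ _
  have hκ10 : 0 ≤ κ1 := by linarith
  have hκ20 : 0 ≤ κ2 := by linarith
  have hκ : 1 ≤ κ1 ^ 2 * κ2 := by
    have h1 : 1 ≤ κ1 ^ 2 := one_le_pow₀ hκ1
    calc (1 : ℝ) = 1 * 1 := (one_mul 1).symm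
      _ ≤ κ1 ^ 2 * κ2 := mul_le_mul h1 hκ2 zero_le_one (by positivity)
  refine ⟨C * (2 * (κ1 ^ 2 * κ2) + 1) / (1 - θ), ?_, ?_⟩
  · rw [le_div_iff₀ (by linarith), one_mul]
    have h1 : 1 * 1 ≤ C * (2 * (κ1 ^ 2 * κ2) + 1) :=
      mul_le_mul hC1 (by linarith) zero_le_one (by linarith)
    linarith
  intro y c hyΛ hy hA
  have hsrc : ∀ n, y n ∈ (extChartAt (𝓡 d) (c n)).source := fun n => (hA n).2.1
  have hregk : ∀ (n : ℤ) (k : ℕ), (f : M → M)^[k] (y n) ∈ reg d (c (n + k)) (2 * A.rad (c (n + k))) := by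
    intro n k
    rw [← orb_iter hy n k]
    exact (hA (n + k)).2
  have hΛk : ∀ (n : ℤ) (k : ℕ), (f : M → M)^[k] (y n) ∈ Λ := by
    intro n k
    rw [← orb_iter hy n k]
    exact hyΛ _
  have hEsk : ∀ (n : ℤ) (k : ℕ), ∀ v ∈ Es' (y n),
      dg (d := d) (f : M → M)^[k] (y n) v ∈ Es' ((f : M → M)^[k] (y n)) := by
    intro n k v hv
    induction k with
    | zero =>
      have h1 : dg (d := d) (f : M → M)^[0] (y n) v = v := dg_id (y n) v
      rw [h1]
      exact hv
    | succ k ih =>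
      rw [dg_iter_succ, Function.iterate_succ_apply']
      exact HEs _ (hΛk n k) _ ih
  refine inv_of_split (fun n => Aop f (c n) (c (n + 1)) (y n))
    (fun n => (Es' (y n)).map (ta (d := d) (c n) (y n) : E d →ₗ[ℝ] E d))
    (fun n => (Eu' (y n)).map (ta (d := d) (c n) (y n) : E d →ₗ[ℝ] E d))
    (κ1 ^ 2 * κ2) C θ hκ (by linarith) hθ0 hθ1 ?_ ?_ ?_ ?_ ?_ ?_ ?_
  · intro n
    have hb := Hbij (c n) (y n) (hsrc n)
    have hcp := Hcompl (y n) (hyΛ n)
    constructor
    · rw [Submodule.disjoint_def]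
      rintro x ⟨s, hs, rfl⟩ ⟨u, hu, hus⟩
      have h1 : u = s := hb.1 hus
      have h2 : s = 0 := (Submodule.disjoint_def.1 hcp.disjoint) s hs (h1 ▸ hu)
      rw [h2]
      exact map_zero _
    · rw [codisjoint_iff, eq_top_iff]
      intro x _
      obtain ⟨v, rfl⟩ := hb.2 x
      have h1 : v ∈ Es' (y n) ⊔ Eu' (y n) := by
        rw [codisjoint_iff.1 hcp.codisjoint]
        trivial
      obtain ⟨s, hs, u, hu, rfl⟩ := Submodule.mem_sup.1 h1
      rw [map_add]
      exact Submodule.add_mem_sup ⟨s, hs, rfl⟩ ⟨u, hu, rfl⟩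
  · rintro n _ ⟨s, hs, rfl⟩ _ ⟨u, hu, rfl⟩
    have hcn := Hcn (c n) (hA n).1 (y n) (hA n).2
    have h1 := (hcn s).1
    have h2 := Hsb (y n) (hyΛ n) s hs u hu
    have h3 := (hcn (s + u)).2
    have h4 : ta (d := d) (c n) (y n) s + ta (d := d) (c n) (y n) u = ta (d := d) (c n) (y n) (s + u) :=
      (map_add _ _ _).symm
    change ‖ta (d := d) (c n) (y n) s‖ ≤
      κ1 ^ 2 * κ2 * ‖ta (d := d) (c n) (y n) s + ta (d := d) (c n) (y n) u‖
    rw [h4]
    calc ‖ta (d := d) (c n) (y n) s‖ ≤ κ1 * tn (y n) s := h1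
      _ ≤ κ1 * (κ2 * (κ1 * ‖ta (d := d) (c n) (y n) (s + u)‖)) :=
          mul_le_mul_of_nonneg_left (h2.trans (mul_le_mul_of_nonneg_left h3 hκ20)) hκ10
      _ = _ := by ring
  · rintro n _ ⟨s, hs, rfl⟩
    refine ⟨dg (d := d) (f : M → M) (y n) s, ?_, ?_⟩
    · rw [hy n]
      exact HEs _ (hyΛ n) s hs
    · have h1 := Hop (c n) (c (n + 1)) (y n) (hsrc n) (by rw [← hy n]; exact hsrc (n + 1)) s
      change ta (c (n + 1)) (y (n + 1)) (dg (d := d) (f : M → M) (y n) s) =
        Aop f (c n) (c (n + 1)) (y n) (ta (c n) (y n) s)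
      rw [h1, hy n]
  · rintro n _ ⟨s, hs, rfl⟩
    refine ⟨dg (d := d) (f : M → M) (y n) s, ?_, ?_⟩
    · rw [hy n]
      exact HEu _ (hyΛ n) s hs
    · have h1 := Hop (c n) (c (n + 1)) (y n) (hsrc n) (by rw [← hy n]; exact hsrc (n + 1)) s
      change ta (c (n + 1)) (y (n + 1)) (dg (d := d) (f : M → M) (y n) s) =
        Aop f (c n) (c (n + 1)) (y n) (ta (c n) (y n) s)
      rw [h1, hy n]
  · rintro n _ ⟨w, hw, rfl⟩
    have hw' : w ∈ Eu' (f (y n)) := by
      rw [← hy n]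
      exact hw
    have hcp := Hcompl (y n) (hyΛ n)
    have hfΛ : f (y n) ∈ Λ := by
      rw [← hy n]
      exact hyΛ _
    have h1 : dg (d := d) (f.symm : M → M) (f (y n)) w ∈ Es' (y n) ⊔ Eu' (y n) := by
      rw [codisjoint_iff.1 hcp.codisjoint]
      trivial
    obtain ⟨s, hs, u, hu, hsu⟩ := Submodule.mem_sup.1 h1
    have h2 := dg_surj f (y n) w
    rw [← hsu, map_add] at h2
    have h3 : dg (d := d) (f : M → M) (y n) s = 0 := by
      have h4 : dg (d := d) (f : M → M) (y n) s = w - dg (d := d) (f : M → M) (y n) u :=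
        eq_sub_of_add_eq h2
      have h5 : dg (d := d) (f : M → M) (y n) s ∈ Eu' (f (y n)) := by
        rw [h4]
        exact Submodule.sub_mem _ hw' (HEu _ (hyΛ n) u hu)
      exact (Submodule.disjoint_def.1 (Hcompl _ hfΛ).disjoint) _ (HEs _ (hyΛ n) s hs) h5
    rw [h3, zero_add] at h2
    refine ⟨ta (c n) (y n) u, ⟨u, hu, rfl⟩, ?_⟩
    have h6 := Hop (c n) (c (n + 1)) (y n) (hsrc n) (by rw [← hy n]; exact hsrc (n + 1)) u
    change Aop f (c n) (c (n + 1)) (y n) (ta (c n) (y n) u) = ta (c (n + 1)) (y (n + 1)) w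
    rw [h6, h2, hy n]
  · rintro n k _ ⟨s, hs, rfl⟩
    have hpr := pr_eq A f y c hy hA n k s
    change ‖pr (fun n => Aop f (c n) (c (n + 1)) (y n)) n k (ta (c n) (y n) s)‖ ≤
      C * θ ^ k * ‖ta (d := d) (c n) (y n) s‖
    rcases Nat.eq_zero_or_pos k with rfl | hk
    · have h0 : pr (fun n => Aop f (c n) (c (n + 1)) (y n)) n 0 (ta (c n) (y n) s) =
          ta (c n) (y n) s := rfl
      rw [h0, pow_zero, mul_one]
      exact le_mul_of_one_le_left (norm_nonneg _) hC1
    · rw [hpr]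
      obtain ⟨x, hx⟩ : ∃ x, x = (f : M → M)^[k] (y n) := ⟨_, rfl⟩
      obtain ⟨w, hw⟩ : ∃ w, w = dg (d := d) (f : M → M)^[k] (y n) s := ⟨_, rfl⟩
      rw [← hx, ← hw]
      have hwE : w ∈ Es' x := by
        rw [hx, hw]
        exact hEsk n k s hs
      have hxΛ : x ∈ Λ := by
        rw [hx]
        exact hΛk n k
      have h1 := Hs x hxΛ k hk w hwE
      have h2 : (f.symm : M → M)^[k] x = y n := by
        rw [hx]
        exact congrFun (symm_iter f k) (y n)
      have h3 : dg (d := d) (f.symm : M → M)^[k] x w = s := by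
        rw [hx, hw]
        exact dg_symm_iter f k (y n) s
      rw [h2, h3] at h1
      have h4 := (Hcn (c (n + k)) (hA (n + k)).1 x (by rw [hx]; exact hregk n k) w).1
      have h5 := (Hcn (c n) (hA n).1 (y n) (hA n).2 s).2
      have h6 : tn x w ≤ c0⁻¹ * θ ^ k * tn (y n) s := by
        have h7 : tn x w = c0⁻¹ * θ ^ k * (c0 * r0 ^ k * tn x w) := by
          calc tn x w = (c0⁻¹ * c0) * (θ ^ k * r0 ^ k) * tn x w := by
                rw [inv_mul_cancel₀ hc0.ne', hθr k, one_mul, one_mul]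
            _ = _ := by ring
        rw [h7]
        exact mul_le_mul_of_nonneg_left h1 (by positivity)
      calc ‖ta (c (n + k)) x w‖ ≤ κ1 * tn x w := h4
        _ ≤ κ1 * (c0⁻¹ * θ ^ k * (κ1 * ‖ta (d := d) (c n) (y n) s‖)) := by
            refine mul_le_mul_of_nonneg_left (h6.trans ?_) hκ10
            exact mul_le_mul_of_nonneg_left h5 (by positivity)
        _ = κ1 ^ 2 / c0 * (θ ^ k * ‖ta (d := d) (c n) (y n) s‖) := by
            rw [div_eq_mul_inv]
            ring
        _ ≤ C * (θ ^ k * ‖ta (d := d) (c n) (y n) s‖) :=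
            mul_le_mul_of_nonneg_right hC2 (by positivity)
        _ = _ := by ring
  · rintro n k _ ⟨s, hs, rfl⟩
    have hpr := pr_eq A f y c hy hA n k s
    change ‖ta (d := d) (c n) (y n) s‖ ≤
      C * θ ^ k * ‖pr (fun n => Aop f (c n) (c (n + 1)) (y n)) n k (ta (c n) (y n) s)‖
    rcases Nat.eq_zero_or_pos k with rfl | hk
    · have h0 : pr (fun n => Aop f (c n) (c (n + 1)) (y n)) n 0 (ta (c n) (y n) s) =
          ta (c n) (y n) s := rfl
      rw [h0, pow_zero, mul_one]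
      exact le_mul_of_one_le_left (norm_nonneg _) hC1
    · rw [hpr]
      have h1 := Hu (y n) (hyΛ n) k hk s hs
      have h4 := (Hcn (c n) (hA n).1 (y n) (hA n).2 s).1
      have h5 := (Hcn (c (n + k)) (hA (n + k)).1 _ (hregk n k)
        (dg (d := d) (f : M → M)^[k] (y n) s)).2
      have h6 : tn (y n) s ≤ c0⁻¹ * θ ^ k *
          tn ((f : M → M)^[k] (y n)) (dg (d := d) (f : M → M)^[k] (y n) s) := by
        have h7 : tn (y n) s = c0⁻¹ * θ ^ k * (c0 * r0 ^ k * tn (y n) s) := by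
          calc tn (y n) s = (c0⁻¹ * c0) * (θ ^ k * r0 ^ k) * tn (y n) s := by
                rw [inv_mul_cancel₀ hc0.ne', hθr k, one_mul, one_mul]
            _ = _ := by ring
        calc tn (y n) s = c0⁻¹ * θ ^ k * (c0 * r0 ^ k * tn (y n) s) := h7
          _ ≤ _ := mul_le_mul_of_nonneg_left h1 (by positivity)
      obtain ⟨W, hW⟩ : ∃ W, W = ‖ta (c (n + k)) ((f : M → M)^[k] (y n))
        (dg (d := d) (f : M → M)^[k] (y n) s)‖ := ⟨_, rfl⟩
      rw [← hW] at h5 ⊢
      have hW0 : 0 ≤ W := by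
        rw [hW]
        exact norm_nonneg _
      calc ‖ta (d := d) (c n) (y n) s‖ ≤ κ1 * tn (y n) s := h4
        _ ≤ κ1 * (c0⁻¹ * θ ^ k * (κ1 * W)) := by
            refine mul_le_mul_of_nonneg_left (h6.trans ?_) hκ10
            exact mul_le_mul_of_nonneg_left h5 (by positivity)
        _ = κ1 ^ 2 / c0 * (θ ^ k * W) := by
            rw [div_eq_mul_inv]
            ring
        _ ≤ C * (θ ^ k * W) :=
            mul_le_mul_of_nonneg_right hC2 (by positivity)
        _ = _ := by ring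

theorem inv_chart_ind (A : Atl d M) (ρ : Metric d M) :
    ∃ L : ℝ, 1 ≤ L ∧ ∀ (f : Dif d M) (y c c' : ℤ → M) (K : ℝ), (∀ n, y (n + 1) = f (y n)) →
      Adm A y c → Adm A y c' → Inv K (fun n => Aop f (c n) (c (n + 1)) (y n)) →
        Inv (K * L) (fun n => Aop f (c' n) (c' (n + 1)) (y n)) := by
  obtain ⟨κ, hκ, hcn⟩ := chart_norm A ρ
  have hκ0 : 0 ≤ κ := by linarith
  obtain ⟨tn, htn⟩ : ∃ tn : M → E d → ℝ, tn = fun x v => tnorm ρ x v := ⟨_, rfl⟩
  have Hcn : ∀ c ∈ A.C, ∀ y ∈ reg d c (2 * A.rad c), ∀ v : E d,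
      ‖ta (d := d) c y v‖ ≤ κ * tn y v ∧ tn y v ≤ κ * ‖ta (d := d) c y v‖ := by
    rw [htn]
    exact hcn
  refine ⟨κ ^ 4, one_le_pow₀ hκ, ?_⟩
  intro f y c c' K hy hc hc' hI
  have Hop : ∀ c c' y : M, y ∈ (extChartAt (𝓡 d) c).source → f y ∈ (extChartAt (𝓡 d) c').source →
      ∀ v : E d, Aop f c c' y (ta c y v) = ta c' (f y) (dg (d := d) (f : M → M) y v) :=
    fun c c' y hy hf v => Aop_mfderiv f c c' y hy hf v
  obtain ⟨e, he⟩ : ∃ e : ℤ → E d ≃ₗ[ℝ] E d, ∀ n v, e n v = ta (d := d) (c n) (y n) v :=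
    ⟨fun n => LinearEquiv.ofBijective (ta (d := d) (c n) (y n) : E d →ₗ[ℝ] E d)
      (chart_bij (c n) (y n) (hc n).2.1), fun n v => rfl⟩
  obtain ⟨e', he'⟩ : ∃ e' : ℤ → E d ≃ₗ[ℝ] E d, ∀ n v, e' n v = ta (d := d) (c' n) (y n) v :=
    ⟨fun n => LinearEquiv.ofBijective (ta (d := d) (c' n) (y n) : E d →ₗ[ℝ] E d)
      (chart_bij (c' n) (y n) (hc' n).2.1), fun n v => rfl⟩
  have ha : ∀ n v, Aop f (c n) (c (n + 1)) (y n) (e n v) = e (n + 1) (dg (d := d) (f : M → M) (y n) v) := by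
    intro n v
    rw [he, he, Hop (c n) (c (n + 1)) (y n) (hc n).2.1 (by rw [← hy n]; exact (hc (n + 1)).2.1), hy n]
  have ha' : ∀ n v, Aop f (c' n) (c' (n + 1)) (y n) (e' n v) =
      e' (n + 1) (dg (d := d) (f : M → M) (y n) v) := by
    intro n v
    rw [he', he', Hop (c' n) (c' (n + 1)) (y n) (hc' n).2.1 (by rw [← hy n]; exact (hc' (n + 1)).2.1),
      hy n]
  have hb1 : ∀ n v, ‖e n v‖ ≤ κ ^ 2 * ‖e' n v‖ := by
    intro n v
    rw [he, he']
    have h1 := (Hcn (c n) (hc n).1 (y n) (hc n).2 v).1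
    have h2 := (Hcn (c' n) (hc' n).1 (y n) (hc' n).2 v).2
    calc _ ≤ κ * tn (y n) v := h1
      _ ≤ κ * (κ * ‖ta (d := d) (c' n) (y n) v‖) := mul_le_mul_of_nonneg_left h2 hκ0
      _ = _ := by ring
  have hb2 : ∀ n v, ‖e' n v‖ ≤ κ ^ 2 * ‖e n v‖ := by
    intro n v
    rw [he, he']
    have h1 := (Hcn (c' n) (hc' n).1 (y n) (hc' n).2 v).1
    have h2 := (Hcn (c n) (hc n).1 (y n) (hc n).2 v).2
    calc _ ≤ κ * tn (y n) v := h1
      _ ≤ κ * (κ * ‖ta (d := d) (c n) (y n) v‖) := mul_le_mul_of_nonneg_left h2 hκ0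
      _ = _ := by ring
  intro b C hb
  obtain ⟨z, hz1, hz2, hz3⟩ := hI (fun n => e (n + 1) ((e' (n + 1)).symm (b n))) (κ ^ 2 * C) (by
    intro n
    have h1 := hb1 (n + 1) ((e' (n + 1)).symm (b n))
    rw [LinearEquiv.apply_symm_apply] at h1
    exact h1.trans (mul_le_mul_of_nonneg_left (hb n) (by positivity)))
  refine ⟨fun n => e' n ((e n).symm (z n)), fun n => ?_, fun n => ?_, fun z' hz' hz'' => ?_⟩
  · have h1 := hb2 n ((e n).symm (z n))
    rw [LinearEquiv.apply_symm_apply] at h1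
    calc _ ≤ κ ^ 2 * ‖z n‖ := h1
      _ ≤ κ ^ 2 * (K * (κ ^ 2 * C)) := mul_le_mul_of_nonneg_left (hz1 n) (by positivity)
      _ = _ := by ring
  · have h1 := hz2 n
    have h2 : z n = e n ((e n).symm (z n)) := ((e n).apply_symm_apply (z n)).symm
    rw [h2] at h1
    simp only at h1
    rw [ha, ← map_add] at h1
    have h3 : (e (n + 1)).symm (z (n + 1)) = dg (d := d) (f : M → M) (y n) ((e n).symm (z n)) +
        (e' (n + 1)).symm (b n) := by
      rw [h1, LinearEquiv.symm_apply_apply]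
    simp only
    rw [h3, map_add, LinearEquiv.apply_symm_apply, ha']
  · obtain ⟨C', hC'⟩ := hz'
    have h4 := hz3 (fun n => e n ((e' n).symm (z' n))) ⟨κ ^ 2 * C', fun n => by
      have h1 := hb1 n ((e' n).symm (z' n))
      rw [LinearEquiv.apply_symm_apply] at h1
      exact h1.trans (mul_le_mul_of_nonneg_left (hC' n) (by positivity))⟩ (fun n => by
        have h1 := hz'' n
        have h2 : z' n = e' n ((e' n).symm (z' n)) := ((e' n).apply_symm_apply (z' n)).symm
        rw [h2] at h1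
        simp only at h1
        rw [ha'] at h1
        have h3 : (e' (n + 1)).symm (z' (n + 1)) =
            dg (d := d) (f : M → M) (y n) ((e' n).symm (z' n)) + (e' (n + 1)).symm (b n) := by
          rw [h1, map_add, LinearEquiv.symm_apply_apply]
        simp only
        rw [h3, map_add, ha])
    funext n
    have h5 := congrFun h4 n
    rw [← h5, LinearEquiv.symm_apply_apply, LinearEquiv.apply_symm_apply]

omit [CompactSpace M] in
private lemma Aop_congr (f g : Dif d M) (c c' x : M) (hx : x ∈ (extChartAt (𝓡 d) c).source)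
    (h : (f : M → M) =ᶠ[𝓝 x] (g : M → M)) : Aop f c c' x = Aop g c c' x := by
  unfold Aop
  refine Filter.EventuallyEq.fderiv_eq ?_
  have h1 : Filter.Tendsto (extChartAt (𝓡 d) c).symm (𝓝 (extChartAt (𝓡 d) c x)) (𝓝 x) := by
    have h2 := continuousAt_extChartAt_symm'' (I := 𝓡 d) (x := c)
      ((extChartAt (𝓡 d) c).map_source hx)
    have h3 := h2.tendsto
    rwa [(extChartAt (𝓡 d) c).left_inv hx] at h3
  filter_upwards [h1.eventually h] with w hw
  rw [hw]

theorem opHyp_congr (A : Atl d M) (f g : Dif d M) (Λ : Set M) (K : ℝ)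
    (hfg : ∀ x ∈ Λ, (f : M → M) =ᶠ[𝓝 x] (g : M → M)) (h : OpHyp A f Λ K) : OpHyp A g Λ K := by
  intro y c hyΛ hy hA
  have h1 : (fun n => Aop g (c n) (c (n + 1)) (y n)) = fun n => Aop f (c n) (c (n + 1)) (y n) := by
    funext n
    exact (Aop_congr f g _ _ _ (hA n).2.1 (hfg _ (hyΛ n))).symm
  rw [h1]
  refine h y c hyΛ (fun n => ?_) hA
  rw [hy n]
  exact ((hfg _ (hyΛ n)).eq_of_nhds).symm

theorem opHyp_union_orbit (A : Atl d M) (ρ : Metric d M) (f : Dif d M) (Λ : Set M)
    (hi : ∀ x, x ∈ Λ ↔ f x ∈ Λ) (K : ℝ) (h : OpHyp A f Λ K) (x c : ℤ → M)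
    (hx : ∀ n, x (n + 1) = f (x n)) (hc : Adm A x c) (K1 : ℝ)
    (hI : Inv K1 (fun n => Aop f (c n) (c (n + 1)) (x n))) :
    ∃ K' : ℝ, 1 ≤ K' ∧ OpHyp A f (Λ ∪ range x) K' := by
  obtain ⟨L, hL, hch⟩ := inv_chart_ind A ρ
  refine ⟨max 1 (max K (K1 * L)), le_max_left _ _, ?_⟩
  intro y c' hyΛ hy hA
  by_cases hex : ∃ n, y n ∈ Λ
  · obtain ⟨n0, hn0⟩ := hex
    have hall : ∀ n, y n ∈ Λ := by
      intro n
      rcases le_total n0 n with hle | hle
      · induction n, hle using Int.le_induction with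
        | base => exact hn0
        | succ m _ ih =>
          rw [hy m]
          exact (hi _).1 ih
      · induction n, hle using Int.le_induction_down with
        | base => exact hn0
        | pred m _ ih =>
          have h1 := hy (m - 1)
          rw [sub_add_cancel] at h1
          rw [h1] at ih
          exact (hi _).2 ih
    exact Inv_mono (h y c' hall hy hA) ((le_max_left _ _).trans (le_max_right _ _))
  · push Not at hex
    have h0 : y 0 ∈ range x := by
      rcases hyΛ 0 with h1 | h1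
      · exact absurd h1 (hex 0)
      · exact h1
    obtain ⟨m, hm⟩ := h0
    have hyx : ∀ n, y n = x (n + m) := by
      intro n
      rcases le_total 0 n with hle | hle
      · induction n, hle using Int.le_induction with
        | base => rw [zero_add]; exact hm.symm
        | succ k _ ih =>
          rw [hy k, ih, ← hx]
          congr 1
          ring
      · induction n, hle using Int.le_induction_down with
        | base => rw [zero_add]; exact hm.symm
        | pred k _ ih =>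
          have h1 := hy (k - 1)
          rw [sub_add_cancel] at h1
          have h2 := hx (k - 1 + m)
          have e : k - 1 + m + 1 = k + m := by ring
          rw [e] at h2
          have h3 : f (y (k - 1)) = f (x (k - 1 + m)) := by
            rw [← h1, ← h2, ih]
          exact f.injective h3
    have hA' : Adm A y (fun n => c (n + m)) := by
      intro n
      have h1 := hc (n + m)
      rw [← hyx n] at h1
      exact h1
    have hI' : Inv K1 (fun n => Aop f (c (n + m)) (c (n + 1 + m)) (y n)) := by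
      have h1 := Inv_shift hI m
      have h2 : (fun n => Aop f (c (n + m)) (c (n + 1 + m)) (y n)) =
          fun n => (fun n => Aop f (c n) (c (n + 1)) (x n)) (n + m) := by
        funext n
        simp only
        rw [hyx n]
        congr 2
        ring
      rw [h2]
      exact h1
    exact Inv_mono (hch f y (fun n => c (n + m)) c' K1 hy hA' hA hI')
      ((le_max_right _ _).trans (le_max_right _ _))

end Pool.Agent.Helper55.OS
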