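import Pool.Agent.Helper55.OS.SplitInv
import Pool.Agent.Helper55.OS.Generic

/-!
# OS-S6 TransInv: a sequence asymptotic to an invertible sequence at both ends becomes invertible after a small change at 0

STATEMENT. F finite dimensional. α : ℤ → F ≃L F with Inv K α, a : ℤ → F ≃L F, integers s, t with ‖a_n - α_{n+s}‖ → 0 for n → ∞
and ‖a_n - α_{n+t}‖ → 0 for n → -∞. For ε > 0 there are B with ‖B - 1‖ < ε and K' such that the sequence a' with
a'_0 = a_0 B and a'_n = a_n (n ≠ 0) has Inv K'.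

PROOF. WLOG K ≥ 1 (Inv K implies Inv (max K 1) when K C ≤ max..; note C ≥ 0). Let η be the constant of `exists_eta` for K; choose
N ≥ 1 with ‖a_n - α_{n+s}‖ ≤ η for n ≥ N and ‖a_n - α_{n+t}‖ ≤ η for n < -N. The shifted sequences α^s_n = α_{n+s} have Inv K (shift).
dim SS a N = dim SS α^s N, dim UU a (-N) = dim UU α^t (-N). By `finrank_SS_shift` (for α, and SS α^s m = SS α (m+s)) and isCompl_SU:
dim SS α^s N + dim UU α^t (-N) = dim SS α 0 + dim UU α 0 = dim F. Shifting for a: dim SS a 0 = dim SS a N and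
dim UU a 0 = dim UU a (-N). By `exists_small_compl` there is B with SS a 0 and B (UU a 0) complementary, ‖B - 1‖ < ε.
SS a' 0 = B⁻¹ (SS a 0) (first step a_0 B), UU a' 0 = UU a 0 (depends on n < 0 only). So SS a' 0 and UU a' 0 are complementary.
EXISTENCE for a'. Let w be bounded by C. Half line solution z^+ for a' on n ≥ N (from exists_eta for a, n ≥ N ≥ 1 so a' = a), bounded by 8KC;
extend it to n = N-1, ..., 0 by z_n = (a'_n)⁻¹ (z_{n+1} - w_n): bounded by K1 C, K1 depending on a, N. Similarly z^- on n ≤ -N,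
extended forward to n ≤ 0. Write z^-_0 - z^+_0 = x + y with x in SS a' 0, y in UU a' 0; |x|, |y| ≤ c |z^-_0 - z^+_0|. The map that sends x in
SS a' 0 to its bounded forward solution is linear and (SS a' 0 finite dimensional) bounded: sup_n |forward solution| ≤ c' |x| (choose
a basis); same for UU. z_n = z^+_n + (forward solution of x)_n for n ≥ 0, z_n = z^-_n - (backward solution of y)_n for n ≤ 0; they
agree at n = 0. It solves the equation for all n (n ≥ 0 and n < 0) and is bounded by K' C.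
UNIQUENESS. A bounded homogeneous solution has z_0 in SS a' 0 and UU a' 0, so z_0 = 0, and z_n = 0 for all n since all a'_n are
bijective. 
-/

open Filter Topology

namespace Pool.Agent.Helper55.OS

section aux

variable {F : Type} [NormedAddCommGroup F] [NormedSpace ℝ F]

private theorem ti_inv_mono {K L : ℝ} {a : ℤ → F →L[ℝ] F} (h : Inv K a) (hKL : K ≤ L) : Inv L a := by
  intro b C hb
  obtain ⟨z, h1, h2, h3⟩ := h b C hb
  have hC : 0 ≤ C := (norm_nonneg _).trans (hb 0)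
  exact ⟨z, fun n => (h1 n).trans (mul_le_mul_of_nonneg_right hKL hC), h2, h3⟩

private theorem ti_inv_shift {K : ℝ} {a : ℤ → F →L[ℝ] F} (h : Inv K a) (s : ℤ) :
    Inv K (fun n => a (n + s)) := by
  intro b C hb
  obtain ⟨z, h1, h2, h3⟩ := h (fun n => b (n - s)) C (fun n => hb (n - s))
  refine ⟨fun n => z (n + s), fun n => h1 _, fun n => ?_, ?_⟩
  · have e := h2 (n + s)
    have e1 : n + 1 + s = n + s + 1 := by ring
    have e2 : n + s - s = n := by ring
    simp only [e2] at e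
    change z (n + 1 + s) = a (n + s) (z (n + s)) + b n
    rw [e1, e]
  · rintro z' ⟨C', hC'⟩ hz'
    have e := h3 (fun n => z' (n - s)) ⟨C', fun n => hC' (n - s)⟩ (fun n => by
      have e := hz' (n - s)
      have e1 : n + 1 - s = n - s + 1 := by ring
      have e2 : n - s + s = n := by ring
      simp only [e2] at e
      change z' (n + 1 - s) = a n (z' (n - s)) + b (n - s)
      rw [e1, e])
    funext n
    have e2 := congrFun e (n + s)
    have e3 : n + s - s = n := by ring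
    simp only [e3] at e2
    exact e2

private theorem ti_SS_shift (a : ℤ → F →L[ℝ] F) (s : ℤ) :
    SS (fun n => a (n + s)) 0 = SS a s := by
  ext v
  rw [mem_SS, mem_SS]
  constructor
  · rintro ⟨z, h1, h2, C, h3⟩
    refine ⟨fun n => z (n - s), ?_, fun n hn => ?_, C, fun n hn => h3 _ (by omega)⟩
    · change z (s - s) = v
      rw [sub_self, h1]
    · have e := h2 (n - s) (by omega)
      have e1 : n + 1 - s = n - s + 1 := by ring
      have e2 : n - s + s = n := by ring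
      simp only [e2] at e
      change z (n + 1 - s) = a n (z (n - s))
      rw [e1, e]
  · rintro ⟨z, h1, h2, C, h3⟩
    refine ⟨fun n => z (n + s), ?_, fun n hn => ?_, C, fun n hn => h3 _ (by omega)⟩
    · change z (0 + s) = v
      rw [zero_add, h1]
    · have e := h2 (n + s) (by omega)
      have e1 : n + 1 + s = n + s + 1 := by ring
      change z (n + 1 + s) = a (n + s) (z (n + s))
      rw [e1, e]

private theorem ti_UU_shift (a : ℤ → F →L[ℝ] F) (s : ℤ) :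
    UU (fun n => a (n + s)) 0 = UU a s := by
  ext v
  rw [mem_UU, mem_UU]
  constructor
  · rintro ⟨z, h1, h2, C, h3⟩
    refine ⟨fun n => z (n - s), ?_, fun n hn => ?_, C, fun n hn => h3 _ (by omega)⟩
    · change z (s - s) = v
      rw [sub_self, h1]
    · have e := h2 (n - s) (by omega)
      have e1 : n + 1 - s = n - s + 1 := by ring
      have e2 : n - s + s = n := by ring
      simp only [e2] at e
      change z (n + 1 - s) = a n (z (n - s))
      rw [e1, e]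
  · rintro ⟨z, h1, h2, C, h3⟩
    refine ⟨fun n => z (n + s), ?_, fun n hn => ?_, C, fun n hn => h3 _ (by omega)⟩
    · change z (0 + s) = v
      rw [zero_add, h1]
    · have e := h2 (n + s) (by omega)
      have e1 : n + 1 + s = n + s + 1 := by ring
      change z (n + 1 + s) = a (n + s) (z (n + s))
      rw [e1, e]

/-- half line solvability, forward -/
private def TiF (K : ℝ) (a : ℤ → F →L[ℝ] F) (m : ℤ) : Prop :=
  0 ≤ K ∧ ∀ (w : ℤ → F) (C : ℝ), (∀ n, ‖w n‖ ≤ C) →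
    ∃ z : ℤ → F, (∀ n, ‖z n‖ ≤ K * C) ∧ ∀ n, m ≤ n → z (n + 1) = a n (z n) + w n

/-- half line solvability, backward -/
private def TiB (K : ℝ) (a : ℤ → F →L[ℝ] F) (m : ℤ) : Prop :=
  0 ≤ K ∧ ∀ (w : ℤ → F) (C : ℝ), (∀ n, ‖w n‖ ≤ C) →
    ∃ z : ℤ → F, (∀ n, ‖z n‖ ≤ K * C) ∧ ∀ n, n < m → z (n + 1) = a n (z n) + w n

private theorem ti_stepF {K : ℝ} (a : ℤ → F ≃L[ℝ] F) (m : ℤ)
    (h : TiF K (fun n => (a n : F →L[ℝ] F)) (m + 1)) :
    ∃ K', TiF K' (fun n => (a n : F →L[ℝ] F)) m := by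
  classical
  obtain ⟨hK, h⟩ := h
  obtain ⟨B, hB⟩ : ∃ B, B = ‖((a m).symm : F →L[ℝ] F)‖ := ⟨_, rfl⟩
  have hB0 : 0 ≤ B := by rw [hB]; exact norm_nonneg _
  refine ⟨K + B * (K + 1), by positivity, fun w C hw => ?_⟩
  have hC : 0 ≤ C := (norm_nonneg _).trans (hw 0)
  obtain ⟨z, hz1, hz2⟩ := h w C hw
  obtain ⟨y, hy⟩ : ∃ y : ℤ → F, ∀ n, y n = if n = m then (a m).symm (z (m + 1) - w m) else z n :=
    ⟨_, fun _ => rfl⟩
  have hKC : 0 ≤ K * C := mul_nonneg hK hC
  refine ⟨y, fun n => ?_, fun n hn => ?_⟩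
  · rw [hy]
    by_cases h1 : n = m
    · rw [if_pos h1]
      have e1 : ‖(a m).symm (z (m + 1) - w m)‖ ≤ B * (K * C + C) := by
        have e2 := ((a m).symm : F →L[ℝ] F).le_opNorm (z (m + 1) - w m)
        rw [← hB] at e2
        refine e2.trans (mul_le_mul_of_nonneg_left ?_ hB0)
        exact (norm_sub_le _ _).trans (add_le_add (hz1 _) (hw m))
      nlinarith
    · rw [if_neg h1]
      have e1 := hz1 n
      have e2 : 0 ≤ B * (K * C) := mul_nonneg hB0 hKC
      have e3 : 0 ≤ B * C := mul_nonneg hB0 hC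
      nlinarith
  · rw [hy, hy, if_neg (show n + 1 ≠ m by omega)]
    by_cases h1 : n = m
    · subst h1
      rw [if_pos rfl]
      change z (n + 1) = a n ((a n).symm (z (n + 1) - w n)) + w n
      rw [(a n).apply_symm_apply, sub_add_cancel]
    · rw [if_neg h1]
      exact hz2 n (by omega)

private theorem ti_stepB {K : ℝ} (a : ℤ → F ≃L[ℝ] F) (m : ℤ)
    (h : TiB K (fun n => (a n : F →L[ℝ] F)) m) :
    ∃ K', TiB K' (fun n => (a n : F →L[ℝ] F)) (m + 1) := by
  classical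
  obtain ⟨hK, h⟩ := h
  obtain ⟨B, hB⟩ : ∃ B, B = ‖(a m : F →L[ℝ] F)‖ := ⟨_, rfl⟩
  have hB0 : 0 ≤ B := by rw [hB]; exact norm_nonneg _
  refine ⟨K + 1 + B * K, by positivity, fun w C hw => ?_⟩
  have hC : 0 ≤ C := (norm_nonneg _).trans (hw 0)
  obtain ⟨z, hz1, hz2⟩ := h w C hw
  obtain ⟨y, hy⟩ : ∃ y : ℤ → F, ∀ n, y n = if n = m + 1 then a m (z m) + w m else z n :=
    ⟨_, fun _ => rfl⟩
  have hKC : 0 ≤ K * C := mul_nonneg hK hC
  refine ⟨y, fun n => ?_, fun n hn => ?_⟩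
  · rw [hy]
    by_cases h1 : n = m + 1
    · rw [if_pos h1]
      have e1 : ‖a m (z m)‖ ≤ B * (K * C) := by
        have e2 := (a m : F →L[ℝ] F).le_opNorm (z m)
        rw [← hB] at e2
        exact e2.trans (mul_le_mul_of_nonneg_left (hz1 _) hB0)
      have e3 := norm_add_le (a m (z m)) (w m)
      have e4 := hw m
      nlinarith
    · rw [if_neg h1]
      have e1 := hz1 n
      have e2 : 0 ≤ B * (K * C) := mul_nonneg hB0 hKC
      nlinarith
  · rw [hy, hy, if_neg (show n ≠ m + 1 by omega)]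
    by_cases h1 : n = m
    · subst h1
      rw [if_pos rfl]
      rfl
    · rw [if_neg (show n + 1 ≠ m + 1 by omega)]
      exact hz2 n (by omega)

private theorem ti_iterF (a : ℤ → F ≃L[ℝ] F) (m : ℤ) (j : ℕ) :
    (∃ K, TiF K (fun n => (a n : F →L[ℝ] F)) (m + j)) → ∃ K', TiF K' (fun n => (a n : F →L[ℝ] F)) m := by
  induction j with
  | zero =>
    intro h
    simpa using h
  | succ j ih =>
    rintro ⟨K, hK⟩
    apply ih
    apply ti_stepF a (m + j) (K := K)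
    have e : m + (j : ℤ) + 1 = m + ((j + 1 : ℕ) : ℤ) := by push_cast; ring
    rw [e]
    exact hK

private theorem ti_iterB (a : ℤ → F ≃L[ℝ] F) (m : ℤ) (j : ℕ) :
    (∃ K, TiB K (fun n => (a n : F →L[ℝ] F)) (m - j)) → ∃ K', TiB K' (fun n => (a n : F →L[ℝ] F)) m := by
  induction j with
  | zero =>
    intro h
    simpa using h
  | succ j ih =>
    rintro ⟨K, hK⟩
    apply ih
    obtain ⟨K', hK'⟩ := ti_stepB a (m - ((j + 1 : ℕ) : ℤ)) hK
    refine ⟨K', ?_⟩
    have e : m - ((j + 1 : ℕ) : ℤ) + 1 = m - (j : ℤ) := by push_cast; ring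
    rw [← e]
    exact hK'

/-- forward evolution -/
private noncomputable def tiP (a : ℤ → F →L[ℝ] F) : ℕ → F →L[ℝ] F
  | 0 => ContinuousLinearMap.id ℝ F
  | n + 1 => (a n).comp (tiP a n)

/-- backward evolution -/
private noncomputable def tiQ (a : ℤ → F ≃L[ℝ] F) : ℕ → F →L[ℝ] F
  | 0 => ContinuousLinearMap.id ℝ F
  | n + 1 => ((a (-((n : ℤ) + 1))).symm : F →L[ℝ] F).comp (tiQ a n)

private theorem ti_bdF [FiniteDimensional ℝ F] (a : ℤ → F →L[ℝ] F) :
    ∃ c : ℝ, 0 ≤ c ∧ ∀ x ∈ SS a 0, ∀ n : ℕ, ‖tiP a n x‖ ≤ c * ‖x‖ := by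
  have hpt : ∀ x : SS a 0, ∃ C, ∀ n : ℕ, ‖((tiP a n).comp (SS a 0).subtypeL) x‖ ≤ C := by
    rintro ⟨x, hx⟩
    obtain ⟨z, h1, h2, C, h3⟩ := mem_SS.1 hx
    refine ⟨C, fun n => ?_⟩
    have e : ∀ n : ℕ, tiP a n x = z n := by
      intro n
      induction n with
      | zero =>
        change x = z ((0 : ℕ) : ℤ)
        rw [Nat.cast_zero, h1]
      | succ n ih =>
        change a n (tiP a n x) = z ((n + 1 : ℕ) : ℤ)
        rw [ih, Nat.cast_succ, h2 n (by positivity)]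
    change ‖tiP a n x‖ ≤ C
    rw [e]
    exact h3 n (by positivity)
  obtain ⟨c, hc⟩ := banach_steinhaus hpt
  refine ⟨|c|, abs_nonneg c, fun x hx n => ?_⟩
  have e1 := ((tiP a n).comp (SS a 0).subtypeL).le_opNorm ⟨x, hx⟩
  have e2 : ‖((tiP a n).comp (SS a 0).subtypeL)‖ * ‖(⟨x, hx⟩ : SS a 0)‖ ≤ |c| * ‖x‖ :=
    mul_le_mul ((hc n).trans (le_abs_self c)) (le_of_eq rfl) (norm_nonneg _) (abs_nonneg c)
  exact e1.trans e2

private theorem ti_bdB [FiniteDimensional ℝ F] (a : ℤ → F ≃L[ℝ] F) :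
    ∃ c : ℝ, 0 ≤ c ∧ ∀ x ∈ UU (fun n => (a n : F →L[ℝ] F)) 0, ∀ n : ℕ, ‖tiQ a n x‖ ≤ c * ‖x‖ := by
  obtain ⟨V, hV⟩ : ∃ V, V = UU (fun n => (a n : F →L[ℝ] F)) 0 := ⟨_, rfl⟩
  have hpt : ∀ x : V, ∃ C, ∀ n : ℕ, ‖((tiQ a n).comp V.subtypeL) x‖ ≤ C := by
    rintro ⟨x, hx⟩
    rw [hV] at hx
    obtain ⟨z, h1, h2, C, h3⟩ := mem_UU.1 hx
    refine ⟨C, fun n => ?_⟩
    have e : ∀ n : ℕ, tiQ a n x = z (-(n : ℤ)) := by
      intro n
      induction n with
      | zero =>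
        change x = z (-((0 : ℕ) : ℤ))
        rw [Nat.cast_zero, neg_zero, h1]
      | succ n ih =>
        change (a (-((n : ℤ) + 1))).symm (tiQ a n x) = z (-((n + 1 : ℕ) : ℤ))
        have e1 := h2 (-((n : ℤ) + 1)) (by omega)
        have e2 : -((n : ℤ) + 1) + 1 = -(n : ℤ) := by ring
        rw [e2] at e1
        rw [ih, e1, Nat.cast_succ]
        exact (a (-((n : ℤ) + 1))).symm_apply_apply _
    change ‖tiQ a n x‖ ≤ C
    rw [e]
    exact h3 _ (by omega)
  obtain ⟨c, hc⟩ := banach_steinhaus hpt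
  refine ⟨|c|, abs_nonneg c, fun x hx n => ?_⟩
  rw [← hV] at hx
  have e1 := ((tiQ a n).comp V.subtypeL).le_opNorm ⟨x, hx⟩
  have e2 : ‖((tiQ a n).comp V.subtypeL)‖ * ‖(⟨x, hx⟩ : V)‖ ≤ |c| * ‖x‖ :=
    mul_le_mul ((hc n).trans (le_abs_self c)) (le_of_eq rfl) (norm_nonneg _) (abs_nonneg c)
  exact e1.trans e2

private theorem ti_main [FiniteDimensional ℝ F] (a : ℤ → F ≃L[ℝ] F)
    (hc : IsCompl (SS (fun n => (a n : F →L[ℝ] F)) 0) (UU (fun n => (a n : F →L[ℝ] F)) 0))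
    (hF : ∃ K, TiF K (fun n => (a n : F →L[ℝ] F)) 0)
    (hB : ∃ K, TiB K (fun n => (a n : F →L[ℝ] F)) 0) :
    ∃ K', Inv K' (fun n => (a n : F →L[ℝ] F)) := by
  obtain ⟨K₁, hK₁, h1⟩ := hF
  obtain ⟨K₂, hK₂, h2⟩ := hB
  obtain ⟨A, hA⟩ : ∃ A : ℤ → F →L[ℝ] F, A = fun n => (a n : F →L[ℝ] F) := ⟨_, rfl⟩
  obtain ⟨c₂, hc₂, hb2⟩ := ti_bdB a
  rw [← hA] at hc h1 h2 hb2 ⊢
  obtain ⟨c₁, hc₁, hb1⟩ := ti_bdF A
  have hsplit : ∃ p : F →L[ℝ] F, ∀ v, p v ∈ SS A 0 ∧ v - p v ∈ UU A 0 := by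
    obtain ⟨p, hp⟩ : ∃ p : F →ₗ[ℝ] F, ∀ v, p v ∈ SS A 0 ∧ v - p v ∈ UU A 0 := by
      refine ⟨(SS A 0).subtype ∘ₗ (Submodule.projectionOnto (SS A 0) (UU A 0) hc), fun v => ⟨?_, ?_⟩⟩
      · exact Submodule.coe_mem _
      · obtain ⟨x, hx, y, hy, rfl⟩ : ∃ x ∈ SS A 0, ∃ y ∈ UU A 0, x + y = v :=
          Submodule.mem_sup.1 (by rw [hc.sup_eq_top]; trivial)
        have e1 : Submodule.projectionOnto (SS A 0) (UU A 0) hc (x + y) = ⟨x, hx⟩ := by
          rw [map_add]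
          have e2 := Submodule.projectionOnto_apply_left hc ⟨x, hx⟩
          have e3 := Submodule.projectionOnto_apply_right hc ⟨y, hy⟩
          simp only at e2 e3
          rw [e2, e3, add_zero]
        change x + y - ((Submodule.projectionOnto (SS A 0) (UU A 0) hc (x + y) : SS A 0) : F) ∈ UU A 0
        rw [e1]
        simpa using hy
    exact ⟨LinearMap.toContinuousLinearMap p, hp⟩
  obtain ⟨p, hp⟩ := hsplit
  refine ⟨K₁ + c₁ * (‖p‖ * (K₁ + K₂)) + (K₂ + c₂ * ((1 + ‖p‖) * (K₁ + K₂))), ?_⟩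
  intro w C hw
  have hC : 0 ≤ C := (norm_nonneg _).trans (hw 0)
  obtain ⟨zp, hzp1, hzp2⟩ := h1 w C hw
  obtain ⟨zm, hzm1, hzm2⟩ := h2 w C hw
  obtain ⟨v, hv⟩ : ∃ v, v = zm 0 - zp 0 := ⟨_, rfl⟩
  have hvn : ‖v‖ ≤ (K₁ + K₂) * C := by
    rw [hv]
    refine (norm_sub_le _ _).trans ?_
    have e1 := hzp1 0
    have e2 := hzm1 0
    linarith
  have hxn : ‖p v‖ ≤ ‖p‖ * ((K₁ + K₂) * C) :=
    (p.le_opNorm v).trans (mul_le_mul_of_nonneg_left hvn (norm_nonneg _))
  have hyn : ‖v - p v‖ ≤ (1 + ‖p‖) * ((K₁ + K₂) * C) := by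
    refine (norm_sub_le _ _).trans ?_
    linarith
  obtain ⟨z, hz⟩ : ∃ z : ℤ → F, ∀ n, z n =
      if 0 ≤ n then zp n + tiP A n.toNat (p v) else zm n - tiQ a (-n).toNat (v - p v) :=
    ⟨_, fun _ => rfl⟩
  have hpos1 : 0 ≤ c₁ * (‖p‖ * (K₁ + K₂)) * C := by positivity
  have hpos2 : 0 ≤ K₂ * C + c₂ * ((1 + ‖p‖) * (K₁ + K₂)) * C := by positivity
  have hpos3 : 0 ≤ K₁ * C := by positivity
  refine ⟨z, fun n => ?_, fun n => ?_, ?_⟩
  · rw [hz]
    by_cases hn : 0 ≤ n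
    · rw [if_pos hn]
      have e1 := norm_add_le (zp n) (tiP A n.toNat (p v))
      have e2 := hb1 (p v) (hp v).1 n.toNat
      have e3 := mul_le_mul_of_nonneg_left hxn hc₁
      have e4 := hzp1 n
      nlinarith
    · rw [if_neg hn]
      have e1 := norm_sub_le (zm n) (tiQ a (-n).toNat (v - p v))
      have e2 := hb2 (v - p v) (hp v).2 (-n).toNat
      have e3 := mul_le_mul_of_nonneg_left hyn hc₂
      have e4 := hzm1 n
      nlinarith
  · rw [hz, hz]
    by_cases hn : 0 ≤ n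
    · rw [if_pos hn, if_pos (by omega)]
      obtain ⟨k, rfl⟩ := Int.eq_ofNat_of_zero_le hn
      have e1 : ((k : ℤ) + 1).toNat = k + 1 := by omega
      rw [e1, Int.toNat_natCast, hzp2 _ hn]
      change A k (zp k) + w k + A k (tiP A k (p v)) = A k (zp k + tiP A k (p v)) + w k
      rw [map_add]
      abel
    · rw [if_neg hn]
      obtain ⟨k, hk⟩ : ∃ k : ℕ, n = -((k : ℤ) + 1) := ⟨(-n - 1).toNat, by omega⟩
      have e1 : (-n).toNat = k + 1 := by omega
      have e2 : A n (tiQ a (k + 1) (v - p v)) = tiQ a k (v - p v) := by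
        rw [hA, hk]
        change a (-((k : ℤ) + 1)) ((a (-((k : ℤ) + 1))).symm (tiQ a k (v - p v))) = _
        exact (a (-((k : ℤ) + 1))).apply_symm_apply _
      rw [e1, map_sub (A n), e2]
      by_cases hn1 : 0 ≤ n + 1
      · have hk0 : k = 0 := by omega
        have hn2 : n + 1 = 0 := by omega
        rw [if_pos hn1, hn2, hk0]
        have e3 := hzm2 n (by omega)
        rw [hn2] at e3
        change zp 0 + p v = A n (zm n) - (v - p v) + w n
        have e4 : A n (zm n) = zm 0 - w n := by rw [e3]; abel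
        rw [e4, hv]
        abel
      · have e3 : (-(n + 1)).toNat = k := by omega
        rw [if_neg hn1, e3, hzm2 n (by omega)]
        abel
  · rintro z' ⟨C', hC'⟩ hz'
    have hzb : ∃ C'', ∀ n, ‖z n‖ ≤ C'' := by
      refine ⟨K₁ * C + c₁ * (‖p‖ * ((K₁ + K₂) * C)) + (K₂ * C + c₂ * ((1 + ‖p‖) * ((K₁ + K₂) * C))), fun n => ?_⟩
      rw [hz]
      by_cases hn : 0 ≤ n
      · rw [if_pos hn]
        have e1 := norm_add_le (zp n) (tiP A n.toNat (p v))
        have e2 := hb1 (p v) (hp v).1 n.toNat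
        have e3 := mul_le_mul_of_nonneg_left hxn hc₁
        have e4 := hzp1 n
        nlinarith
      · rw [if_neg hn]
        have e1 := norm_sub_le (zm n) (tiQ a (-n).toNat (v - p v))
        have e2 := hb2 (v - p v) (hp v).2 (-n).toNat
        have e3 := mul_le_mul_of_nonneg_left hyn hc₂
        have e4 := hzm1 n
        nlinarith
    obtain ⟨C'', hC''⟩ := hzb
    have hzeq : ∀ n, z (n + 1) = A n (z n) + w n := by
      intro n
      rw [hz, hz]
      by_cases hn : 0 ≤ n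
      · rw [if_pos hn, if_pos (by omega)]
        obtain ⟨k, rfl⟩ := Int.eq_ofNat_of_zero_le hn
        have e1 : ((k : ℤ) + 1).toNat = k + 1 := by omega
        rw [e1, Int.toNat_natCast, hzp2 _ hn]
        change A k (zp k) + w k + A k (tiP A k (p v)) = A k (zp k + tiP A k (p v)) + w k
        rw [map_add]
        abel
      · rw [if_neg hn]
        obtain ⟨k, hk⟩ : ∃ k : ℕ, n = -((k : ℤ) + 1) := ⟨(-n - 1).toNat, by omega⟩
        have e1 : (-n).toNat = k + 1 := by omega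
        have e2 : A n (tiQ a (k + 1) (v - p v)) = tiQ a k (v - p v) := by
          rw [hA, hk]
          change a (-((k : ℤ) + 1)) ((a (-((k : ℤ) + 1))).symm (tiQ a k (v - p v))) = _
          exact (a (-((k : ℤ) + 1))).apply_symm_apply _
        rw [e1, map_sub (A n), e2]
        by_cases hn1 : 0 ≤ n + 1
        · have hk0 : k = 0 := by omega
          have hn2 : n + 1 = 0 := by omega
          rw [if_pos hn1, hn2, hk0]
          have e3 := hzm2 n (by omega)
          rw [hn2] at e3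
          change zp 0 + p v = A n (zm n) - (v - p v) + w n
          have e4 : A n (zm n) = zm 0 - w n := by rw [e3]; abel
          rw [e4, hv]
          abel
        · have e3 : (-(n + 1)).toNat = k := by omega
          rw [if_neg hn1, e3, hzm2 n (by omega)]
          abel
    have hd : ∀ n, z' (n + 1) - z (n + 1) = A n (z' n - z n) := by
      intro n
      rw [hz' n, hzeq n, map_sub]
      abel
    have hdb : ∀ n, ‖z' n - z n‖ ≤ C' + C'' := fun n =>
      (norm_sub_le _ _).trans (add_le_add (hC' n) (hC'' n))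
    have h0 : z' 0 - z 0 = 0 := by
      have hS : z' 0 - z 0 ∈ SS A 0 :=
        mem_SS.2 ⟨fun n => z' n - z n, rfl, fun n _ => hd n, C' + C'', fun n _ => hdb n⟩
      have hU : z' 0 - z 0 ∈ UU A 0 :=
        mem_UU.2 ⟨fun n => z' n - z n, rfl, fun n _ => hd n, C' + C'', fun n _ => hdb n⟩
      exact Submodule.disjoint_def.1 hc.disjoint _ hS hU
    funext n
    have hall : ∀ n : ℤ, z' n - z n = 0 := by
      intro n
      induction n using Int.induction_on with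
      | zero => exact h0
      | succ i ih => rw [hd, ih, map_zero]
      | pred i ih =>
        have e1 := hd (-(i : ℤ) - 1)
        rw [sub_add_cancel, ih, hA] at e1
        have e2 : a (-(i : ℤ) - 1) (z' (-(i : ℤ) - 1) - z (-(i : ℤ) - 1)) = 0 := e1.symm
        exact (map_eq_zero_iff _ (a (-(i : ℤ) - 1)).injective).1 e2
    exact sub_eq_zero.1 (hall n)

end aux

theorem transInv {F : Type} [NormedAddCommGroup F] [NormedSpace ℝ F] [FiniteDimensional ℝ F]
    (K : ℝ) (α a : ℤ → F ≃L[ℝ] F) (hα : Inv K (fun n => (α n : F →L[ℝ] F))) (s t : ℤ)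
    (hp : Tendsto (fun n : ℕ => ‖(a n : F →L[ℝ] F) - (α (n + s) : F →L[ℝ] F)‖) atTop (𝓝 0))
    (hm : Tendsto (fun n : ℕ => ‖(a (-(n : ℤ)) : F →L[ℝ] F) - (α (-(n : ℤ) + t) : F →L[ℝ] F)‖)
      atTop (𝓝 0))
    (ε : ℝ) (hε : 0 < ε) :
    ∃ B : F ≃L[ℝ] F, ‖(B : F →L[ℝ] F) - ContinuousLinearMap.id ℝ F‖ < ε ∧ ∃ K' : ℝ,
      Inv K' (fun n => if n = 0 then (a 0 : F →L[ℝ] F) ∘L (B : F →L[ℝ] F) else (a n : F →L[ℝ] F)) := by
  classical
  obtain ⟨L, hL⟩ : ∃ L, L = max K 1 := ⟨_, rfl⟩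
  have hL1 : 1 ≤ L := by rw [hL]; exact le_max_right _ _
  have hL0 : 0 ≤ L := by linarith
  have hαL : Inv L (fun n => (α n : F →L[ℝ] F)) := ti_inv_mono hα (by rw [hL]; exact le_max_left _ _)
  obtain ⟨η, hη, hex⟩ := exists_eta (F := F) L hL1
  have hp' : ∀ᶠ n : ℕ in atTop, ‖(a n : F →L[ℝ] F) - (α (n + s) : F →L[ℝ] F)‖ < η :=
    hp.eventually (gt_mem_nhds hη)
  have hm' : ∀ᶠ n : ℕ in atTop, ‖(a (-(n : ℤ)) : F →L[ℝ] F) - (α (-(n : ℤ) + t) : F →L[ℝ] F)‖ < η :=
    hm.eventually (gt_mem_nhds hη)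
  obtain ⟨N₁, hN₁⟩ := eventually_atTop.1 hp'
  obtain ⟨N₂, hN₂⟩ := eventually_atTop.1 hm'
  obtain ⟨N, hN⟩ : ∃ N : ℕ, N = max (max N₁ N₂) 1 := ⟨_, rfl⟩
  have hN1 : 1 ≤ N := by omega
  obtain ⟨αs, hαs⟩ : ∃ αs : ℤ → F →L[ℝ] F, αs = fun n => (α (n + s) : F →L[ℝ] F) := ⟨_, rfl⟩
  obtain ⟨αt, hαt⟩ : ∃ αt : ℤ → F →L[ℝ] F, αt = fun n => (α (n + t) : F →L[ℝ] F) := ⟨_, rfl⟩
  have hIs : Inv L αs := by rw [hαs]; exact ti_inv_shift hαL s
  have hIt : Inv L αt := by rw [hαt]; exact ti_inv_shift hαL t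
  obtain ⟨A, hA⟩ : ∃ A : ℤ → F →L[ℝ] F, A = fun n => (a n : F →L[ℝ] F) := ⟨_, rfl⟩
  obtain ⟨hdS, hsS⟩ := (hex αs A (N : ℤ) hIs).1 (fun n hn => by
    obtain ⟨k, rfl⟩ := Int.eq_ofNat_of_zero_le (by omega : 0 ≤ n)
    rw [hA, hαs]
    exact (hN₁ k (by omega)).le)
  obtain ⟨hdU, hsU⟩ := (hex αt A (-(N : ℤ)) hIt).2 (fun n hn => by
    obtain ⟨k, hk⟩ := Int.eq_ofNat_of_zero_le (by omega : 0 ≤ -n)
    have e : n = -(k : ℤ) := by omega
    rw [hA, hαt, e]
    exact (hN₂ k (by omega)).le)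
  have d1 : Module.finrank ℝ (SS A 0) = Module.finrank ℝ (SS A N) := by
    rw [hA]; exact finrank_SS_shift a 0 N
  have d2 : Module.finrank ℝ (UU A 0) = Module.finrank ℝ (UU A (-(N : ℤ))) := by
    rw [hA]; exact finrank_UU_shift a 0 (-(N : ℤ))
  have d3 : Module.finrank ℝ (SS αs N) = Module.finrank ℝ (SS (fun n => (α n : F →L[ℝ] F)) 0) := by
    have e1 : Module.finrank ℝ (SS αs N) = Module.finrank ℝ (SS αs 0) := by
      rw [hαs]
      exact finrank_SS_shift (fun n => α (n + s)) N 0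
    rw [e1, hαs, ti_SS_shift (fun n => (α n : F →L[ℝ] F)) s]
    exact finrank_SS_shift α s 0
  have d4 : Module.finrank ℝ (UU αt (-(N : ℤ))) = Module.finrank ℝ (UU (fun n => (α n : F →L[ℝ] F)) 0) := by
    have e1 : Module.finrank ℝ (UU αt (-(N : ℤ))) = Module.finrank ℝ (UU αt 0) := by
      rw [hαt]
      exact finrank_UU_shift (fun n => α (n + t)) (-(N : ℤ)) 0
    rw [e1, hαt, ti_UU_shift (fun n => (α n : F →L[ℝ] F)) t]
    exact finrank_UU_shift α t 0
  have d5 := Submodule.finrank_add_eq_of_isCompl (isCompl_SU hαL 0)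
  obtain ⟨B, hBε, hBc⟩ := exists_small_compl (SS A 0) (UU A 0)
    (by rw [d1, hdS, d3, d2, hdU, d4]; exact d5) ε hε
  refine ⟨B, hBε, ?_⟩
  obtain ⟨a', ha'⟩ : ∃ a' : ℤ → F ≃L[ℝ] F, ∀ n, a' n = if n = 0 then B.trans (a 0) else a n :=
    ⟨_, fun _ => rfl⟩
  have hgoal : (fun n => if n = 0 then (a 0 : F →L[ℝ] F) ∘L (B : F →L[ℝ] F) else (a n : F →L[ℝ] F)) =
      fun n => (a' n : F →L[ℝ] F) := by
    funext n
    rw [ha']
    by_cases hn : n = 0
    · rw [if_pos hn, if_pos hn]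
      rfl
    · rw [if_neg hn, if_neg hn]
  rw [hgoal]
  have hne : ∀ n, n ≠ 0 → (a' n : F →L[ℝ] F) = A n := by
    intro n hn
    rw [ha', if_neg hn, hA]
  have hUU : UU (fun n => (a' n : F →L[ℝ] F)) 0 = UU A 0 :=
    UU_congr fun n hn => hne n (by omega)
  have hSS : ∀ v, v ∈ SS (fun n => (a' n : F →L[ℝ] F)) 0 ↔ B v ∈ SS A 0 := by
    intro v
    rw [mem_SS, mem_SS]
    constructor
    · rintro ⟨z, h1, h2, C, h3⟩
      obtain ⟨y, hy⟩ : ∃ y : ℤ → F, ∀ n, y n = if n = 0 then B v else z n := ⟨_, fun _ => rfl⟩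
      refine ⟨y, by rw [hy, if_pos rfl], fun n hn => ?_, max C ‖B v‖, fun n hn => ?_⟩
      · rw [hy, hy, if_neg (show n + 1 ≠ 0 by omega), h2 n hn]
        by_cases h4 : n = 0
        · rw [if_pos h4, h4, h1, ha', if_pos rfl, hA]
          rfl
        · rw [if_neg h4, hne n h4]
      · rw [hy]
        by_cases h4 : n = 0
        · rw [if_pos h4]; exact le_max_right _ _
        · rw [if_neg h4]; exact (h3 n hn).trans (le_max_left _ _)
    · rintro ⟨z, h1, h2, C, h3⟩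
      obtain ⟨y, hy⟩ : ∃ y : ℤ → F, ∀ n, y n = if n = 0 then v else z n := ⟨_, fun _ => rfl⟩
      refine ⟨y, by rw [hy, if_pos rfl], fun n hn => ?_, max C ‖v‖, fun n hn => ?_⟩
      · rw [hy, hy, if_neg (show n + 1 ≠ 0 by omega), h2 n hn]
        by_cases h4 : n = 0
        · rw [if_pos h4, h4, h1, ha', if_pos rfl, hA]
          rfl
        · rw [if_neg h4, hne n h4]
      · rw [hy]
        by_cases h4 : n = 0
        · rw [if_pos h4]; exact le_max_right _ _
        · rw [if_neg h4]; exact (h3 n hn).trans (le_max_left _ _)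
  have hcompl : IsCompl (SS (fun n => (a' n : F →L[ℝ] F)) 0) (UU (fun n => (a' n : F →L[ℝ] F)) 0) := by
    rw [hUU]
    constructor
    · rw [Submodule.disjoint_def]
      intro v hv hu
      have e1 : B v ∈ SS A 0 := (hSS v).1 hv
      have e2 : B v ∈ (UU A 0).map ((B : F →L[ℝ] F) : F →ₗ[ℝ] F) := ⟨v, hu, rfl⟩
      have e3 := Submodule.disjoint_def.1 hBc.disjoint _ e1 e2
      exact (map_eq_zero_iff _ B.injective).1 e3
    · rw [codisjoint_iff, eq_top_iff]
      intro v _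
      obtain ⟨x, hx, y, hy, hxy⟩ : ∃ x ∈ SS A 0, ∃ y ∈ (UU A 0).map ((B : F →L[ℝ] F) : F →ₗ[ℝ] F),
          x + y = B v := Submodule.mem_sup.1 (by rw [hBc.sup_eq_top]; trivial)
      obtain ⟨u, hu, rfl⟩ := hy
      have e1 : B.symm x ∈ SS (fun n => (a' n : F →L[ℝ] F)) 0 := by
        rw [hSS, B.apply_symm_apply]
        exact hx
      have e2 : v = B.symm x + u := by
        apply B.injective
        rw [map_add, B.apply_symm_apply, ← hxy]
        rfl
      rw [e2]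
      exact Submodule.add_mem_sup e1 hu
  apply ti_main a' hcompl
  · apply ti_iterF a' 0 N
    refine ⟨8 * L, by positivity, fun w C hw => ?_⟩
    obtain ⟨z, hz1, hz2⟩ := hsS w C hw
    refine ⟨z, hz1, fun n hn => ?_⟩
    have e1 := hz2 n (by omega)
    rw [e1]
    change A n (z n) + w n = (a' n : F →L[ℝ] F) (z n) + w n
    rw [hne n (by omega)]
  · apply ti_iterB a' 0 N
    refine ⟨8 * L, by positivity, fun w C hw => ?_⟩
    obtain ⟨z, hz1, hz2⟩ := hsU w C hw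
    refine ⟨z, hz1, fun n hn => ?_⟩
    have e1 := hz2 n (by omega)
    rw [e1]
    change A n (z n) + w n = (a' n : F →L[ℝ] F) (z n) + w n
    rw [hne n (by omega)]

end Pool.Agent.Helper55.OS
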