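import Pool.Agent.Helper55.OS.HomSeq
import Pool.Agent.Helper55.OS.TransInv
import Pool.Agent.Helper55.OS.HypOp
import Pool.Agent.Helper55.OS.BaseDeriv

/-!
# OS-N7 HomOp: a homoclinic orbit becomes operator-hyperbolic after a small change of the derivative at one point

G := g.toHomeomorph, O = orb g p, x_n := (G^n) x.
PROOF of `hom_closed`: C0 := O ∪ {x_n : n ≠ 0} is closed and x is not in C0. x = x_n with n ≠ 0 would make x periodic; then Fwd (multiples of the period) says that x is in every open set containing the closed set O, so x in O: contradiction. Closed: a point y not in O of the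
closure has a nbhd disjoint from an open W ⊇ O, x_n in W for |n| ≥ N, so y is one of the finitely many x_n, 0 < |n| < N.
PROOF of `homOp`. c, c', s, t from `homSeq`. α n := equivalence of `aop_equiv` for Aop g (c' n) (c' (n+1)) ((G^n) p), a n := equivalence for Aop g (c n) (c (n+1)) (x_n) (f y in reg: Adm at n + 1). By hO (orbit of p in O, c' admissible): Inv K α. The two limits of `homSeq` are hypotheses hp, hm
of `transInv`. Let U := closedBall x r disjoint from C0. `mul_deriv` for (g, 𝒰, x, U): ε. τ := tau (c 0) x as a continuous linear map E d → E d, bijective (`chart_bij`), so a continuous linear equivalence (finite dimension). Let κ = ‖τ‖ ‖τ⁻¹‖ + 1.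
`transInv` with ε/κ: B, K'. B' := τ⁻¹ ∘ B ∘ τ: ‖B' - id‖ = ‖τ⁻¹ (B - id) τ‖ < ε. `mul_deriv`: g' in 𝒰, g' = g off U, g' x = g x, df g' x = (df g x).comp B'.
So g' = g on O, g' (x_n) = g (x_n) for all n, and (induction) (g'^n) x = x_n for n in ℤ. Derivatives: for n ≠ 0, g' = g near x_n (complement of the closed set U), so Aop g' (c n) (c (n+1)) (x_n) = Aop g ... (fderiv depends on the germ; (extChartAt).symm is continuous at the point). For n = 0: for v = τ w,
Aop g' (c 0) (c 1) x (τ w) = tau (c 1) (g' x) (mfderiv g' x w) = tau (c 1) (g x) (mfderiv g x (B' w)) = Aop g (c 0) (c 1) x (τ (B' w)) = Aop g (c 0) (c 1) x (B (τ w)) (`Aop_mfderiv` for g' and g; df is mfderiv). So the sequence along x_n for g' is that of `transInv`: Inv K'.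
`opHyp_congr`: OpHyp A g' O K (g' = g near every point of O). `opHyp_union_orbit` (f := g', Λ := O, g' maps O to O bijectively, cf. `orb_iff`; x n := x_n, c): the result. Adm A (x_n) c is the same.
-/

open Set Topology Manifold ContDiff Filter

namespace Pool.Agent.Helper55.OS

theorem hom_closed {X : Type} [MetricSpace X] [CompactSpace X] (g : X ≃ₜ X) (p : X)
    (hp : p ∈ Function.periodicPts (g : X → X)) (x : X) (hx : x ∉ orb (g : X → X) p)
    (hF : Fwd g x (orb (g : X → X) p)) (hB : Bwd g x (orb (g : X → X) p)) :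
    IsClosed (orb (g : X → X) p ∪ {y | ∃ n : ℤ, n ≠ 0 ∧ y = (g ^ n) x}) ∧
      x ∉ orb (g : X → X) p ∪ {y | ∃ n : ℤ, n ≠ 0 ∧ y = (g ^ n) x} := by
  have hOf : (orb (g : X → X) p).Finite := orb_finite g hp
  have hxn : ∀ n : ℤ, n ≠ 0 → x ≠ (g ^ n) x := by
    have key : ∀ m : ℕ, m ≠ 0 → (g ^ (m : ℤ)) x ≠ x := by
      intro m hm hmx
      have hmk : ∀ k : ℕ, (g ^ ((m * k : ℕ) : ℤ)) x = x := by
        intro k
        induction k with
        | zero => rw [Nat.mul_zero, Nat.cast_zero, zpow_zero_app]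
        | succ k ih =>
          have e : ((m * (k + 1) : ℕ) : ℤ) = (m : ℤ) + ((m * k : ℕ) : ℤ) := by push_cast; ring
          rw [e, zpow_add_app, ih, hmx]
      obtain ⟨N, hN⟩ := hF {x}ᶜ isOpen_compl_singleton
        (fun y hy hyx => hx (by rw [mem_singleton_iff] at hyx; rwa [hyx] at hy))
      exact hN (m * N) (Nat.le_mul_of_pos_left N (Nat.pos_of_ne_zero hm)) (hmk N)
    intro n hn he
    rcases Int.natAbs_eq n with h | h
    · apply key n.natAbs (Int.natAbs_ne_zero.mpr hn)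
      rw [← h]
      exact he.symm
    · apply key n.natAbs (Int.natAbs_ne_zero.mpr hn)
      have h1 : ((n.natAbs : ℕ) : ℤ) = -n := by omega
      rw [h1]
      calc (g ^ (-n)) x = (g ^ (-n)) ((g ^ n) x) := by rw [← he]
        _ = x := nb_cancel g n x
  constructor
  · rw [← isOpen_compl_iff, isOpen_iff_mem_nhds]
    intro y hy
    have hyO : y ∉ orb (g : X → X) p := fun h => hy (Or.inl h)
    have hyn : ∀ n : ℤ, n ≠ 0 → y ≠ (g ^ n) x := fun n hn he => hy (Or.inr ⟨n, hn, he⟩)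
    obtain ⟨r, hr, hball⟩ := Metric.isOpen_iff.mp hOf.isClosed.isOpen_compl y hyO
    obtain ⟨W, hW⟩ : ∃ W : Set X, W = {z | r / 2 < dist z y} := ⟨_, rfl⟩
    have hWo : IsOpen W := by
      rw [hW]
      exact isOpen_lt continuous_const (continuous_id.dist continuous_const)
    have hOW : orb (g : X → X) p ⊆ W := by
      intro o ho
      rw [hW]
      by_contra hc
      rw [mem_ofPred_eq, not_lt] at hc
      exact hball (Metric.mem_ball.mpr (lt_of_le_of_lt hc (by linarith))) ho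
    obtain ⟨N₁, hN₁⟩ := hF W hWo hOW
    obtain ⟨N₂, hN₂⟩ := hB W hWo hOW
    obtain ⟨F, hFd⟩ : ∃ F : Set X, F = (fun n : ℤ => (g ^ n) x) ''
        {n : ℤ | n ≠ 0 ∧ n ∈ Icc (-((N₁ : ℤ) + N₂)) ((N₁ : ℤ) + N₂)} := ⟨_, rfl⟩
    have hFf : F.Finite := by
      rw [hFd]
      exact ((finite_Icc _ _).subset fun n hn => hn.2).image _
    have hyF : y ∉ F := by
      rw [hFd]
      rintro ⟨n, hn, he⟩
      exact hyn n hn.1 he.symm
    filter_upwards [hFf.isClosed.isOpen_compl.mem_nhds hyF, Metric.ball_mem_nhds y (half_pos hr)]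
      with z hz hz2
    rw [Metric.mem_ball] at hz2
    have hzW : z ∉ W := by
      rw [hW]
      intro h
      rw [mem_ofPred_eq] at h
      linarith
    rintro (hzO | ⟨n, hn, hzn⟩)
    · exact hzW (hOW hzO)
    · by_cases h1 : n ∈ Icc (-((N₁ : ℤ) + N₂)) ((N₁ : ℤ) + N₂)
      · apply hz
        rw [hFd]
        exact ⟨n, ⟨hn, h1⟩, hzn.symm⟩
      · rw [mem_Icc] at h1
        rcases le_total 0 n with h2 | h2
        · obtain ⟨k, rfl⟩ := Int.eq_ofNat_of_zero_le h2
          apply hzW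
          rw [hzn]
          exact hN₁ k (by omega)
        · obtain ⟨k, hk⟩ := Int.eq_ofNat_of_zero_le (show 0 ≤ -n by omega)
          have hk2 : n = -(k : ℤ) := by omega
          apply hzW
          rw [hzn, hk2]
          exact hN₂ k (by omega)
  · rintro (h | ⟨n, hn, he⟩)
    · exact hx h
    · exact hxn n hn he

section aux7

variable {d : ℕ} {M : Type} [MetricSpace M] [ChartedSpace (E d) M] [IsManifold (𝓡 d) ∞ M]

/-- `tau` between copies of the model space -/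
private noncomputable def ta7 (c x : M) : E d →L[ℝ] E d := tau (d := d) c x

private lemma aop_mf7 (f : Dif d M) (c c' y : M) (hy : y ∈ (extChartAt (𝓡 d) c).source)
    (hf : f y ∈ (extChartAt (𝓡 d) c').source) (v : E d) :
    Aop f c c' y (ta7 c y v) = ta7 c' (f y) (df (d := d) (f : M → M) y v) :=
  Aop_mfderiv f c c' y hy hf v

private lemma ta_bij7 (c y : M) (hy : y ∈ (extChartAt (𝓡 d) c).source) :
    Function.Bijective (ta7 (d := d) c y) := chart_bij c y hy

private lemma aop_congr7 (f g : Dif d M) (c c' x : M) (hx : x ∈ (extChartAt (𝓡 d) c).source)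
    (h : (f : M → M) =ᶠ[𝓝 x] (g : M → M)) : Aop f c c' x = Aop g c c' x := by
  unfold Aop
  refine Filter.EventuallyEq.fderiv_eq ?_
  have h1 : Filter.Tendsto (extChartAt (𝓡 d) c).symm (𝓝 (extChartAt (𝓡 d) c x)) (𝓝 x) := by
    have h2 := continuousAt_extChartAt_symm'' (I := 𝓡 d) (x := c)
      ((extChartAt (𝓡 d) c).map_source hx)
    have h3 := h2.tendsto
    rwa [(extChartAt (𝓡 d) c).left_inv hx] at h3
  filter_upwards [h1.eventually h] with w hw
  rw [hw]

end aux7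

private lemma conj_small7 {F : Type} [NormedAddCommGroup F] [NormedSpace ℝ F]
    (T B : F ≃L[ℝ] F) (ε : ℝ)
    (hB : ‖(B : F →L[ℝ] F) - ContinuousLinearMap.id ℝ F‖ <
      ε / (‖(T : F →L[ℝ] F)‖ * ‖(T.symm : F →L[ℝ] F)‖ + 1)) :
    ‖((T.symm : F →L[ℝ] F).comp ((B : F →L[ℝ] F).comp (T : F →L[ℝ] F))) -
      ContinuousLinearMap.id ℝ F‖ < ε := by
  obtain ⟨κ, hκ⟩ : ∃ κ : ℝ, κ = ‖(T : F →L[ℝ] F)‖ * ‖(T.symm : F →L[ℝ] F)‖ := ⟨_, rfl⟩
  rw [← hκ] at hB
  have hκ0 : 0 ≤ κ := by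
    rw [hκ]
    positivity
  have e : ((T.symm : F →L[ℝ] F).comp ((B : F →L[ℝ] F).comp (T : F →L[ℝ] F))) -
      ContinuousLinearMap.id ℝ F = (T.symm : F →L[ℝ] F).comp
        (((B : F →L[ℝ] F) - ContinuousLinearMap.id ℝ F).comp (T : F →L[ℝ] F)) := by
    ext v
    simp
  rw [e]
  have h1 := ContinuousLinearMap.opNorm_comp_le (T.symm : F →L[ℝ] F)
    (((B : F →L[ℝ] F) - ContinuousLinearMap.id ℝ F).comp (T : F →L[ℝ] F))
  have h2 := ContinuousLinearMap.opNorm_comp_le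
    ((B : F →L[ℝ] F) - ContinuousLinearMap.id ℝ F) (T : F →L[ℝ] F)
  have h3 := mul_le_mul_of_nonneg_left h2 (norm_nonneg (T.symm : F →L[ℝ] F))
  have hβ0 := norm_nonneg ((B : F →L[ℝ] F) - ContinuousLinearMap.id ℝ F)
  obtain ⟨β, hβ⟩ : ∃ β : ℝ, β = ‖(B : F →L[ℝ] F) - ContinuousLinearMap.id ℝ F‖ := ⟨_, rfl⟩
  rw [← hβ] at hB h3 hβ0
  have h4 : ‖(T.symm : F →L[ℝ] F)‖ * (β * ‖(T : F →L[ℝ] F)‖) = κ * β := by
    rw [hκ]
    ring
  rw [h4] at h3
  rw [lt_div_iff₀ (by positivity)] at hB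
  have h5 : κ * β ≤ β * (κ + 1) := by
    have : β * (κ + 1) = κ * β + β := by ring
    linarith
  exact lt_of_le_of_lt (h1.trans (h3.trans h5)) hB

theorem homOp {d : ℕ} {M : Type} [MetricSpace M] [ChartedSpace (E d) M]
    [IsManifold (𝓡 d) ∞ M] [CompactSpace M] (A : Atl d M) (ρ : Metric d M) (g : Dif d M) (p : M)
    (hp : p ∈ Function.periodicPts (g : M → M)) (K : ℝ) (hK : 1 ≤ K)
    (hO : OpHyp A g (orb (g : M → M) p) K) (x : M) (hx : x ∉ orb (g : M → M) p)
    (hF : Fwd g.toHomeomorph x (orb (g : M → M) p))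
    (hB : Bwd g.toHomeomorph x (orb (g : M → M) p))
    (𝒰 : Set (Dif d M)) (h𝒰 : IsOpen[smoothTop d M] 𝒰) (hg : g ∈ 𝒰) :
    ∃ g' ∈ 𝒰, (∀ y ∈ orb (g : M → M) p, g' y = g y) ∧
      (∀ n : ℤ, (g'.toHomeomorph ^ n) x = (g.toHomeomorph ^ n) x) ∧
      ∃ K' : ℝ, 1 ≤ K' ∧
        OpHyp A g' (orb (g : M → M) p ∪ range (fun n : ℤ => (g'.toHomeomorph ^ n) x)) K' := by
  classical
  obtain ⟨G, hG⟩ : ∃ G : M ≃ₜ M, G = g.toHomeomorph := ⟨_, rfl⟩
  have hGg : ∀ y, G y = g y := fun y => by rw [hG]; rfl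
  have hGf : (G : M → M) = (g : M → M) := funext hGg
  have hpG : p ∈ Function.periodicPts (G : M → M) := by rw [hGf]; exact hp
  rw [← hG] at hF hB
  obtain ⟨O, hOd⟩ : ∃ O : Set M, O = orb (g : M → M) p := ⟨_, rfl⟩
  have hOG : O = orb (G : M → M) p := by rw [hOd, hGf]
  have horbG : ∀ (y : M) (n : ℤ), (G ^ (n + 1)) y = g ((G ^ n) y) := by
    intro y n
    have h1 := orb_zpow G y n
    have h2 : (G ^ (n + 1)) y = G ((G ^ n) y) := h1
    rw [h2, hGg]
  -- the closed set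
  obtain ⟨hCc, hxC⟩ := hom_closed G p hpG x (by rw [hGf]; exact hx) (by rw [hGf]; exact hF)
    (by rw [hGf]; exact hB)
  rw [← hOG] at hCc hxC
  -- the charts
  obtain ⟨c, c', s, t, hAc, hAc', hlim1, hlim2⟩ := homSeq A g p hp x (by rw [← hG]; exact hF)
    (by rw [← hG]; exact hB)
  rw [← hG] at hAc hAc' hlim1 hlim2
  have hgreg : ∀ (y : M) (k : ℤ → M), Adm A (fun n : ℤ => (G ^ n) y) k → ∀ n : ℤ,
      g ((G ^ n) y) ∈ reg d (k (n + 1)) (2 * A.rad (k (n + 1))) := by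
    intro y k hk n
    have h1 := (hk (n + 1)).2
    have h2 : (G ^ (n + 1)) y ∈ reg d (k (n + 1)) (2 * A.rad (k (n + 1))) := h1
    rw [horbG] at h2
    exact h2
  have hα : ∀ n : ℤ, ∃ e : E d ≃L[ℝ] E d,
      (e : E d →L[ℝ] E d) = Aop g (c' n) (c' (n + 1)) ((G ^ n) p) := fun n =>
    aop_equiv A g (c' n) (c' (n + 1)) ((G ^ n) p) (hAc' n).1 (hAc' (n + 1)).1 (hAc' n).2
      (hgreg p c' hAc' n)
  have ha : ∀ n : ℤ, ∃ e : E d ≃L[ℝ] E d,
      (e : E d →L[ℝ] E d) = Aop g (c n) (c (n + 1)) ((G ^ n) x) := fun n =>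
    aop_equiv A g (c n) (c (n + 1)) ((G ^ n) x) (hAc n).1 (hAc (n + 1)).1 (hAc n).2
      (hgreg x c hAc n)
  choose α hα using hα
  choose a ha using ha
  have hαI : Inv K (fun n => (α n : E d →L[ℝ] E d)) := by
    have h1 := hO (fun n : ℤ => (G ^ n) p) c' (fun n => by
      rw [← hOd, hOG, orb_eq_zpow G hpG]
      exact ⟨n, rfl⟩) (fun n => horbG p n) hAc'
    have h2 : (fun n => (α n : E d →L[ℝ] E d)) =
        fun n => Aop g (c' n) (c' (n + 1)) ((fun n : ℤ => (G ^ n) p) n) := funext hα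
    rw [h2]
    exact h1
  have hp' : Tendsto (fun n : ℕ => ‖(a n : E d →L[ℝ] E d) - (α (n + s) : E d →L[ℝ] E d)‖) atTop
      (𝓝 0) := by
    refine hlim1.congr fun n => ?_
    rw [ha, hα]
  have hm' : Tendsto (fun n : ℕ => ‖(a (-(n : ℤ)) : E d →L[ℝ] E d) -
      (α (-(n : ℤ) + t) : E d →L[ℝ] E d)‖) atTop (𝓝 0) := by
    refine hlim2.congr fun n => ?_
    rw [ha, hα]
  -- the neighbourhood
  obtain ⟨r, hr, hrC⟩ := Metric.nhds_basis_closedBall.mem_iff.mp
    (hCc.isOpen_compl.mem_nhds hxC)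
  obtain ⟨U, hU⟩ : ∃ U : Set M, U = Metric.closedBall x r := ⟨_, rfl⟩
  have hUx : U ∈ 𝓝 x := by rw [hU]; exact Metric.closedBall_mem_nhds x hr
  have hUc : IsClosed U := by rw [hU]; exact Metric.isClosed_closedBall
  rw [← hU] at hrC
  have hUO : ∀ y ∈ O, y ∉ U := fun y hy hyU => hrC hyU (Or.inl hy)
  have hUn : ∀ n : ℤ, n ≠ 0 → (G ^ n) x ∉ U := fun n hn hyU => hrC hyU (Or.inr ⟨n, hn, rfl⟩)
  obtain ⟨ε, hε, hmd⟩ := mul_deriv g 𝒰 h𝒰 hg x U hUx
  -- the chart at `x`
  have hx0 : (G ^ (0 : ℤ)) x = x := zpow_zero_app G x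
  have hxs : x ∈ (extChartAt (𝓡 d) (c 0)).source := by
    have h1 := (hAc 0).2.1
    have h2 : (G ^ (0 : ℤ)) x ∈ (extChartAt (𝓡 d) (c 0)).source := h1
    rwa [hx0] at h2
  have hgxs : g x ∈ (extChartAt (𝓡 d) (c 1)).source := by
    have h1 := (hgreg x c hAc 0).1
    rw [hx0, zero_add] at h1
    exact h1
  obtain ⟨T, hT⟩ : ∃ T : E d ≃L[ℝ] E d, ∀ v, T v = ta7 (d := d) (c 0) x v := by
    have hb := ta_bij7 (d := d) (c 0) x hxs
    refine ⟨(LinearEquiv.ofBijective (ta7 (d := d) (c 0) x : E d →ₗ[ℝ] E d)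
      hb).toContinuousLinearEquiv, fun v => rfl⟩
  obtain ⟨B, hB1, K', hInv⟩ := transInv K α a hαI s t hp' hm'
    (ε / (‖(T : E d →L[ℝ] E d)‖ * ‖(T.symm : E d →L[ℝ] E d)‖ + 1)) (by positivity)
  obtain ⟨B', hB'⟩ : ∃ B' : E d →L[ℝ] E d, B' = (T.symm : E d →L[ℝ] E d).comp
      ((B : E d →L[ℝ] E d).comp (T : E d →L[ℝ] E d)) := ⟨_, rfl⟩
  obtain ⟨g', hg', hoff, hgx, hdf⟩ := hmd B' (by rw [hB']; exact conj_small7 T B ε hB1)
  have hOeq : ∀ y ∈ O, g' y = g y := fun y hy => hoff y (hUO y hy)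
  have hnear : ∀ y, y ∉ U → (g : M → M) =ᶠ[𝓝 y] (g' : M → M) := by
    intro y hy
    filter_upwards [hUc.isOpen_compl.mem_nhds hy] with z hz
    exact (hoff z hz).symm
  obtain ⟨G', hG'⟩ : ∃ G' : M ≃ₜ M, G' = g'.toHomeomorph := ⟨_, rfl⟩
  have hGg' : ∀ y, G' y = g' y := fun y => by rw [hG']; rfl
  have horb' : ∀ n : ℤ, (G' ^ n) x = (G ^ n) x := by
    have hz : Orb (G' : M → M) (fun n : ℤ => (G ^ n) x) := by
      intro n
      change (G ^ (n + 1)) x = G' ((G ^ n) x)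
      rw [horbG, hGg']
      by_cases hn : n = 0
      · rw [hn, hx0, hgx]
      · exact (hoff _ (hUn n hn)).symm
    intro n
    have h1 := hz.eq n
    have h2 : (G ^ n) x = (G' ^ n) ((G ^ (0 : ℤ)) x) := h1
    rw [h2, hx0]
  have hAdm' : Adm A (fun n : ℤ => (G' ^ n) x) c := by
    intro n
    have h1 := hAc n
    have h2 : (fun n : ℤ => (G' ^ n) x) n = (fun n : ℤ => (G ^ n) x) n := horb' n
    rw [h2]
    exact h1
  have hI' : Inv K' (fun n => Aop g' (c n) (c (n + 1)) ((fun n : ℤ => (G' ^ n) x) n)) := by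
    have h1 : (fun n => Aop g' (c n) (c (n + 1)) ((fun n : ℤ => (G' ^ n) x) n)) =
        fun n => if n = 0 then (a 0 : E d →L[ℝ] E d) ∘L (B : E d →L[ℝ] E d)
          else (a n : E d →L[ℝ] E d) := by
      funext n
      change Aop g' (c n) (c (n + 1)) ((G' ^ n) x) = _
      rw [horb']
      by_cases hn : n = 0
      · rw [if_pos hn, hn, hx0, zero_add]
        have ha0 : (a 0 : E d →L[ℝ] E d) = Aop g (c 0) (c 1) x := by
          rw [ha 0, hx0, zero_add]
        rw [ha0]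
        ext1 v
        obtain ⟨w, rfl⟩ := T.surjective v
        rw [ContinuousLinearMap.comp_apply, hT w]
        have hg's : g' x ∈ (extChartAt (𝓡 d) (c 1)).source := by rw [hgx]; exact hgxs
        rw [aop_mf7 g' (c 0) (c 1) x hxs hg's w, hdf, hgx]
        have h3 : (df (d := d) (g : M → M) x).comp B' w = df (d := d) (g : M → M) x (B' w) := rfl
        rw [h3, ← aop_mf7 g (c 0) (c 1) x hxs hgxs (B' w), ← hT, ← hT, hB']
        have h4 : T (((T.symm : E d →L[ℝ] E d).comp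
            ((B : E d →L[ℝ] E d).comp (T : E d →L[ℝ] E d))) w) = B (T w) :=
          T.apply_symm_apply _
        rw [h4]
        rfl
      · rw [if_neg hn, ha n]
        refine (aop_congr7 g g' _ _ _ ?_ (hnear _ (hUn n hn))).symm
        exact (hAc n).2.1
    rw [h1]
    exact hInv
  have hOH : OpHyp A g' O K := by
    rw [hOd]
    exact opHyp_congr A g g' (orb (g : M → M) p) K
      (fun y hy => hnear y (hUO y (by rw [hOd]; exact hy))) hO
  have hiff : ∀ y, y ∈ O ↔ g' y ∈ O := by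
    intro y
    constructor
    · intro hy
      rw [hOeq y hy, ← hGg, hOG]
      rw [hOG] at hy
      exact (orb_iff G hpG y).mp hy
    · intro hy
      have h1 : (G : M → M) '' O = O := by
        rw [hOG]
        exact orb_image G hpG
      rw [← h1] at hy
      obtain ⟨o, ho, ho2⟩ := hy
      rw [hGg, ← hOeq o ho] at ho2
      rw [← g'.injective ho2]
      exact ho
  obtain ⟨K'', hK'', hfin⟩ := opHyp_union_orbit A ρ g' O hiff K hOH
    (fun n : ℤ => (G' ^ n) x) c (fun n => by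
      have h1 := orb_zpow G' x n
      have h2 : (G' ^ (n + 1)) x = G' ((G' ^ n) x) := h1
      change (G' ^ (n + 1)) x = g' ((G' ^ n) x)
      rw [h2, hGg']) hAdm' K' hI'
  refine ⟨g', hg', ?_, ?_, K'', hK'', ?_⟩
  · rw [← hOd]
    exact hOeq
  · intro n
    rw [← hG, ← hG']
    exact horb' n
  · rw [← hOd, ← hG']
    exact hfin

end Pool.Agent.Helper55.OS
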