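import Pool.Agent.Helper55.OS.Phase
import Pool.Agent.Helper55.OS.AtlasU

/-!
# OS-N6 HomSeq: charts along a homoclinic orbit; the derivatives are asymptotic to those along the periodic orbit

G := g.toHomeomorph, O = orb g p. PROOF of `homSeq`. c' n := A.ch ((G^n) p): (G^n) p in reg (c' n) (rad (c' n)). s, t from `fwd_phase`, `bwd_phase`. δ from `near_reg`; N ≥ 1 such that for n ≥ N:
dist ((G^n) x) ((G^(n+s)) p) < δ and dist ((G^(-n)) x) ((G^(-n+t)) p) < δ. c n := c' (n+s) for n ≥ N, c' (n+t) for n ≤ -N, A.ch ((G^n) x) for |n| < N. Adm: by `near_reg` (and reg c (rad) ⊆ reg c (2 rad) as rad ≥ 0, A.pos).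
LIMIT: let η > 0, δ' from `Aop_cont` for g. For n ≥ N with dist ((G^n) x) ((G^(n+s)) p) < δ': c n = c' (n+s), c (n+1) = c' (n+1+s); apply `Aop_cont` with y := (G^(n+s)) p, y' := (G^n) x, both in reg (c n) (2 rad), g y = (G^(n+s+1)) p
in reg (c (n+1)) (2 rad). The backward limit in the same way (n ≥ N + 1, indices -n and -n+1 ≤ -N).
PROOF of `aop_equiv`: `Aop_inv` gives an inverse a' on both sides: `ContinuousLinearEquiv.equivOfInverse`.
-/

open Set Topology Manifold ContDiff Filter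

namespace Pool.Agent.Helper55.OS

variable {d : ℕ} {M : Type} [MetricSpace M] [ChartedSpace (E d) M] [IsManifold (𝓡 d) ∞ M]
  [CompactSpace M]

theorem aop_equiv (A : Atl d M) (g : Dif d M) (c c' y : M) (hc : c ∈ A.C) (hc' : c' ∈ A.C)
    (hy : y ∈ reg d c (2 * A.rad c)) (hg : g y ∈ reg d c' (2 * A.rad c')) :
    ∃ e : E d ≃L[ℝ] E d, (e : E d →L[ℝ] E d) = Aop g c c' y := by
  obtain ⟨B, _, h⟩ := Aop_inv A g
  obtain ⟨_, a', h1, h2, _⟩ := h c hc c' hc' y hy hg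
  refine ⟨ContinuousLinearEquiv.equivOfInverse (Aop g c c' y) a' (fun v => h2 v) (fun v => h1 v), ?_⟩
  ext v
  rfl

omit [IsManifold (𝓡 d) ∞ M] [CompactSpace M] in
private theorem hs_reg2 (A : Atl d M) {c y : M} (hc : c ∈ A.C) (hy : y ∈ reg d c (A.rad c)) :
    y ∈ reg d c (2 * A.rad c) :=
  ⟨hy.1, Metric.closedBall_subset_closedBall (by nlinarith [A.pos c hc]) hy.2⟩

theorem homSeq (A : Atl d M) (g : Dif d M) (p : M) (hp : p ∈ Function.periodicPts (g : M → M))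
    (x : M) (hF : Fwd g.toHomeomorph x (orb (g : M → M) p))
    (hB : Bwd g.toHomeomorph x (orb (g : M → M) p)) :
    ∃ (c c' : ℤ → M) (s t : ℤ), Adm A (fun n : ℤ => (g.toHomeomorph ^ n) x) c ∧
      Adm A (fun n : ℤ => (g.toHomeomorph ^ n) p) c' ∧
      Tendsto (fun n : ℕ => ‖Aop g (c n) (c (n + 1)) ((g.toHomeomorph ^ (n : ℤ)) x) -
        Aop g (c' (n + s)) (c' (n + s + 1)) ((g.toHomeomorph ^ ((n : ℤ) + s)) p)‖) atTop (𝓝 0) ∧
      Tendsto (fun n : ℕ => ‖Aop g (c (-n)) (c (-n + 1)) ((g.toHomeomorph ^ (-(n : ℤ))) x) -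
        Aop g (c' (-n + t)) (c' (-n + t + 1)) ((g.toHomeomorph ^ (-(n : ℤ) + t)) p)‖)
        atTop (𝓝 0) := by
  obtain ⟨s, hs⟩ := fwd_phase g.toHomeomorph p hp x hF
  obtain ⟨t, ht⟩ := bwd_phase g.toHomeomorph p hp x hB
  obtain ⟨δ, hδ, hnear⟩ := near_reg A
  obtain ⟨N1, hN1⟩ := Metric.tendsto_atTop.1 hs δ hδ
  obtain ⟨N2, hN2⟩ := Metric.tendsto_atTop.1 ht δ hδ
  have hd1 : ∀ n : ℕ, N1 ≤ n → dist ((g.toHomeomorph ^ (n : ℤ)) x)
      ((g.toHomeomorph ^ ((n : ℤ) + s)) p) < δ := by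
    intro n hn
    have h := hN1 n hn
    rwa [Real.dist_0_eq_abs, abs_of_nonneg dist_nonneg] at h
  have hd2 : ∀ n : ℕ, N2 ≤ n → dist ((g.toHomeomorph ^ (-(n : ℤ))) x)
      ((g.toHomeomorph ^ (-(n : ℤ) + t)) p) < δ := by
    intro n hn
    have h := hN2 n hn
    rwa [Real.dist_0_eq_abs, abs_of_nonneg dist_nonneg] at h
  set N : ℕ := max N1 N2 + 1 with hN
  set c' : ℤ → M := fun n => A.ch ((g.toHomeomorph ^ n) p) with hc'
  set c : ℤ → M := fun n => if (N : ℤ) ≤ n then c' (n + s) else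
    if n ≤ -(N : ℤ) then c' (n + t) else A.ch ((g.toHomeomorph ^ n) x) with hc
  have hcC : ∀ n, c' n ∈ A.C := fun n => A.ch_mem _
  have hcr : ∀ n, (g.toHomeomorph ^ n) p ∈ reg d (c' n) (A.rad (c' n)) := fun n => A.ch_reg _
  have hc1 : ∀ n : ℤ, (N : ℤ) ≤ n → c n = c' (n + s) := by
    intro n hn
    rw [hc]
    simp only
    rw [if_pos hn]
  have hc2 : ∀ n : ℤ, n ≤ -(N : ℤ) → c n = c' (n + t) := by
    intro n hn
    rw [hc]
    simp only
    rw [if_neg (by omega), if_pos hn]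
  have hA1 : Adm A (fun n : ℤ => (g.toHomeomorph ^ n) x) c := by
    intro n
    by_cases h1 : (N : ℤ) ≤ n
    · rw [hc1 n h1]
      refine ⟨hcC _, ?_⟩
      obtain ⟨m, rfl⟩ : ∃ m : ℕ, n = m := ⟨n.toNat, by omega⟩
      exact hnear _ (hcC _) _ (hcr _) _ (hd1 m (by omega))
    · by_cases h2 : n ≤ -(N : ℤ)
      · rw [hc2 n h2]
        refine ⟨hcC _, ?_⟩
        obtain ⟨m, rfl⟩ : ∃ m : ℕ, n = -(m : ℤ) := ⟨(-n).toNat, by omega⟩
        exact hnear _ (hcC _) _ (hcr _) _ (hd2 m (by omega))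
      · have h3 : c n = A.ch ((g.toHomeomorph ^ n) x) := by
          rw [hc]
          simp only
          rw [if_neg h1, if_neg h2]
        rw [h3]
        exact ⟨A.ch_mem _, hs_reg2 A (A.ch_mem _) (A.ch_reg _)⟩
  have hA2 : Adm A (fun n : ℤ => (g.toHomeomorph ^ n) p) c' :=
    fun n => ⟨hcC n, hs_reg2 A (hcC n) (hcr n)⟩
  have hg : ∀ n : ℤ, g ((g.toHomeomorph ^ n) p) = (g.toHomeomorph ^ (n + 1)) p :=
    fun n => (orb_zpow g.toHomeomorph p n).symm
  refine ⟨c, c', s, t, hA1, hA2, ?_, ?_⟩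
  · rw [Metric.tendsto_atTop]
    intro η hη
    obtain ⟨δ', hδ', hcont⟩ := Aop_cont A g (η / 2) (half_pos hη)
    obtain ⟨N3, hN3⟩ := Metric.tendsto_atTop.1 hs δ' hδ'
    refine ⟨max N N3, fun n hn => ?_⟩
    have hnN : N ≤ n := (le_max_left _ _).trans hn
    have h1 := hN3 n ((le_max_right _ _).trans hn)
    rw [Real.dist_0_eq_abs, abs_of_nonneg dist_nonneg] at h1
    rw [Real.dist_0_eq_abs, abs_of_nonneg (norm_nonneg _)]
    have e1 : c (n : ℤ) = c' (n + s) := hc1 _ (by omega)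
    have e2 : c ((n : ℤ) + 1) = c' (n + s + 1) := by
      rw [hc1 _ (by omega)]
      congr 1
      ring
    have hx : (g.toHomeomorph ^ (n : ℤ)) x ∈ reg d (c' (n + s)) (2 * A.rad (c' (n + s))) := by
      have h := (hA1 (n : ℤ)).2
      rw [e1] at h
      exact h
    rw [e1, e2, norm_sub_rev]
    refine lt_of_le_of_lt (hcont _ (hcC _) _ (hcC _) _ (hA2 _).2 _ hx ?_ ?_) (half_lt_self hη)
    · rw [hg]
      exact (hA2 _).2
    · rw [dist_comm]
      exact h1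
  · rw [Metric.tendsto_atTop]
    intro η hη
    obtain ⟨δ', hδ', hcont⟩ := Aop_cont A g (η / 2) (half_pos hη)
    obtain ⟨N3, hN3⟩ := Metric.tendsto_atTop.1 ht δ' hδ'
    refine ⟨max (N + 1) N3, fun n hn => ?_⟩
    have hnN : N + 1 ≤ n := (le_max_left _ _).trans hn
    have h1 := hN3 n ((le_max_right _ _).trans hn)
    rw [Real.dist_0_eq_abs, abs_of_nonneg dist_nonneg] at h1
    rw [Real.dist_0_eq_abs, abs_of_nonneg (norm_nonneg _)]
    have e1 : c (-(n : ℤ)) = c' (-n + t) := hc2 _ (by omega)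
    have e2 : c (-(n : ℤ) + 1) = c' (-n + t + 1) := by
      rw [hc2 _ (by omega)]
      congr 1
      ring
    have hx : (g.toHomeomorph ^ (-(n : ℤ))) x ∈ reg d (c' (-n + t)) (2 * A.rad (c' (-n + t))) := by
      have h := (hA1 (-(n : ℤ))).2
      rw [e1] at h
      exact h
    rw [e1, e2, norm_sub_rev]
    refine lt_of_le_of_lt (hcont _ (hcC _) _ (hcC _) _ (hA2 _).2 _ hx ?_ ?_) (half_lt_self hη)
    · rw [hg]
      exact (hA2 _).2
    · rw [dist_comm]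
      exact h1

end Pool.Agent.Helper55.OS
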