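import Pool.Agent.Helper55.OS.Phase
import Pool.Agent.Helper55.OS.FS
import Pool.Agent.Helper55.OS.FSNR

/-!
# OS-N8 Horse: a homoclinic orbit with the shadowing property gives periodic points of NR close to it

PROOF. O = orb g p, Λ = O ∪ {x_n}, x_n = (g^n) x, P ≥ 1 a period of p, p_n = (g^n) p. ρ0 from hS; D := infDist x O > 0 (O finite nonempty, x not in O); ρ := min of ρ0, r, D/4; ε from hS for ρ. s, t from `fwd_phase`, `bwd_phase`; T ≥ 1 with
dist (x_T) (p_(T+s)) < ε and dist (x_(-T)) (p_(-T+t)) < ε. Let k ≥ 1 with T + s + k ≡ -T + t mod P and L := 2T + k, l := P * L. u_j := p_(-T+t+j) (j in ℤ; l-periodic since P divides l, true orbit in O). v: L-periodic with v_j := x_(-T+j) for 0 ≤ j < 2T, v_(2T+j) := p_(T+s+j) for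
0 ≤ j < k (v_j := v_(j mod L)). Jumps of v: at j = 2T - 1: dist (x_T) (p_(T+s)) < ε; at j = L - 1: g (p_(T+s+k-1)) = p_(T+s+k) = p_(-T+t), v_0 = x_(-T): < ε; the others are 0. `Loops g Λ ε ρ l u v`: suv: g (u (-1)) = u 0 = p_(-T+t), v 0 = x_(-T): < ε;
svu: g (v (-1)) = g (v (L-1)) = p_(-T+t) = u 0: 0. sep at i = T: v T = x_0 = x, u T in O: dist ≥ D > 2 ρ. `fs` (f = g) gives Z. w := Z (fun _ => true): g^[l] w = w (equivariance), w in NR g (`fs_nr`), and q := (g^T) w has dist q (v T) ≤ ρ ≤ r, v T = x.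
q is in NR g (`nr_zpow`), g^[l] q = q. m := l.
-/

open Set Topology

namespace Pool.Agent.Helper55.OS

private theorem pz_per {X : Type} [TopologicalSpace X] (g : X ≃ₜ X) {p : X} {P : ℕ}
    (hP : (g : X → X)^[P] p = p) (n k : ℤ) : (g ^ (n + k * P)) p = (g ^ n) p := by
  have h1 : Function.Periodic (fun n : ℤ => (g ^ n) p) (P : ℤ) := by
    intro n
    show (g ^ (n + (P : ℤ))) p = (g ^ n) p
    rw [zpow_add_app, zpow_iter, hP]
  have h2 := h1.int_mul k n
  rwa [Int.cast_id] at h2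

private theorem pz_congr {X : Type} [TopologicalSpace X] (g : X ≃ₜ X) {p : X} {P : ℕ}
    (hP : (g : X → X)^[P] p = p) {a b : ℤ} (h : (P : ℤ) ∣ a - b) : (g ^ a) p = (g ^ b) p := by
  obtain ⟨k, hk⟩ := h
  have h1 : a = b + k * P := by linear_combination hk
  rw [h1, pz_per g hP]

/-- the second loop -/
private def hw {X : Type} [TopologicalSpace X] (g : X ≃ₜ X) (p x : X) (T : ℕ) (s m : ℤ) : X :=
  if m < 2 * T then (g ^ (-(T : ℤ) + m)) x else (g ^ (-(T : ℤ) + s + m)) p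

theorem horse_loops {X : Type} [MetricSpace X] (g : X ≃ₜ X) (p x : X) (Λ : Set X)
    (P : ℕ) (hP1 : 1 ≤ P) (hP : (g : X → X)^[P] p = p) (hΛp : ∀ n : ℤ, (g ^ n) p ∈ Λ)
    (hΛx : ∀ n : ℤ, (g ^ n) x ∈ Λ) (ε ρ : ℝ) (hε : 0 < ε) (T : ℕ) (hT : 1 ≤ T) (s t : ℤ)
    (k : ℕ) (hk : 1 ≤ k) (hdvd : (P : ℤ) ∣ ((T : ℤ) + s + k) - (-(T : ℤ) + t))
    (h1 : dist ((g ^ (T : ℤ)) x) ((g ^ ((T : ℤ) + s)) p) < ε)
    (h2 : dist ((g ^ (-(T : ℤ))) x) ((g ^ (-(T : ℤ) + t)) p) < ε)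
    (hsep : ∀ n : ℤ, 2 * ρ < dist ((g ^ n) p) x) :
    ∃ u v : ℤ → X, Loops (g : X → X) Λ ε ρ (P * (2 * T + k)) u v ∧ v T = x ∧
      ∀ n, u n = (g ^ (-(T : ℤ) + t + n)) p := by
  obtain ⟨L, hL⟩ : ∃ L : ℤ, L = 2 * T + k := ⟨_, rfl⟩
  have hT0 : (1 : ℤ) ≤ T := by exact_mod_cast hT
  have hk0 : (1 : ℤ) ≤ k := by exact_mod_cast hk
  have hLpos : 0 < L := by omega
  have hl : ((P * (2 * T + k) : ℕ) : ℤ) = P * L := by
    push_cast
    rw [hL]
  have hgo : ∀ (n : ℤ) (y : X), g ((g ^ n) y) = (g ^ (n + 1)) y := fun n y =>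
    (orb_zpow g y n).symm
  have huper : ∀ n : ℤ, (g ^ (-(T : ℤ) + t + (n + ((P * (2 * T + k) : ℕ) : ℤ)))) p =
      (g ^ (-(T : ℤ) + t + n)) p := by
    intro n
    apply pz_congr g hP
    rw [hl]
    exact ⟨L, by ring⟩
  have hwΛ : ∀ m : ℤ, hw g p x T s m ∈ Λ := by
    intro m
    unfold hw
    split_ifs
    · exact hΛx _
    · exact hΛp _
  have hvT : hw g p x T s ((T : ℤ) % L) = x := by
    rw [Int.emod_eq_of_lt (by omega) (by omega)]
    unfold hw
    rw [if_pos (by omega), neg_add_cancel, zpow_zero_app]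
  have hw0 : hw g p x T s 0 = (g ^ (-(T : ℤ))) x := by
    unfold hw
    rw [if_pos (by omega), add_zero]
  have hwend : g (hw g p x T s (L - 1)) = (g ^ (-(T : ℤ) + t)) p := by
    unfold hw
    rw [if_neg (by omega), hgo]
    apply pz_congr g hP
    obtain ⟨q, hq⟩ := hdvd
    refine ⟨q, ?_⟩
    rw [← hq, hL]
    ring
  have hstep : ∀ j : ℤ, dist (g (hw g p x T s (j % L))) (hw g p x T s ((j + 1) % L)) < ε := by
    intro j
    have e1 := Int.emod_add_mul_ediv j L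
    have e2 := Int.emod_nonneg j hLpos.ne'
    have e3 := Int.emod_lt_of_pos j hLpos
    by_cases h4 : j % L + 1 < L
    · have h5 : (j + 1) % L = j % L + 1 := by
        have h6 : j + 1 = (j % L + 1) + L * (j / L) := by linear_combination -e1
        rw [h6, Int.add_mul_emod_self_left, Int.emod_eq_of_lt (by omega) h4]
      rw [h5]
      obtain ⟨m, hm⟩ : ∃ m : ℤ, m = j % L := ⟨_, rfl⟩
      rw [← hm] at e2 e3 h4 ⊢
      rcases lt_trichotomy (m + 1) (2 * (T : ℤ)) with h7 | h7 | h7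
      · unfold hw
        rw [if_pos (by omega), if_pos h7, hgo, add_assoc, dist_self]
        exact hε
      · unfold hw
        rw [if_pos (by omega), if_neg (by omega), hgo]
        have e4 : -(T : ℤ) + m + 1 = T := by omega
        have e5 : -(T : ℤ) + s + (m + 1) = T + s := by omega
        rw [e4, e5]
        exact h1
      · unfold hw
        rw [if_neg (by omega), if_neg (by omega), hgo, add_assoc _ m 1, dist_self]
        exact hε
    · have h5 : j % L = L - 1 := by omega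
      have h6 : (j + 1) % L = 0 := by
        have h7 : j + 1 = L * (j / L + 1) := by linear_combination h5 - e1
        rw [h7, Int.mul_emod_right]
      rw [h5, h6, hwend, hw0, dist_comm]
      exact h2
  refine ⟨fun j => (g ^ (-(T : ℤ) + t + j)) p, fun j => hw g p x T s (j % L), ?_, hvT,
    fun n => rfl⟩
  constructor
  · exact Nat.mul_pos hP1 (by omega)
  · intro n
    exact ⟨_, hΛp _, by rw [dist_self]; exact hε⟩
  · intro n
    exact ⟨_, hwΛ _, by rw [dist_self]; exact hε⟩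
  · exact huper
  · intro n
    have h4 : (n + ((P * (2 * T + k) : ℕ) : ℤ)) % L = n % L := by
      rw [hl, Int.add_mul_emod_self_right]
    show hw g p x T s ((n + ((P * (2 * T + k) : ℕ) : ℤ)) % L) = hw g p x T s (n % L)
    rw [h4]
  · intro n
    show dist (g ((g ^ (-(T : ℤ) + t + n)) p)) ((g ^ (-(T : ℤ) + t + (n + 1))) p) < ε
    rw [hgo, add_assoc _ n 1, dist_self]
    exact hε
  · exact hstep
  · show dist (g ((g ^ (-(T : ℤ) + t + -1)) p)) (hw g p x T s (0 % L)) < ε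
    rw [hgo, neg_add_cancel_right, Int.zero_emod, hw0, dist_comm]
    exact h2
  · show dist (g (hw g p x T s (-1 % L))) ((g ^ (-(T : ℤ) + t + 0)) p) < ε
    have h4 : (-1 : ℤ) % L = L - 1 := by
      have h5 : (-1 : ℤ) = (L - 1) + L * (-1) := by ring
      rw [h5, Int.add_mul_emod_self_left, Int.emod_eq_of_lt (by omega) (by omega)]
    rw [h4, hwend, add_zero, dist_self]
    exact hε
  · refine ⟨T, ?_⟩
    show 2 * ρ < dist ((g ^ (-(T : ℤ) + t + T)) p) (hw g p x T s ((T : ℤ) % L))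
    rw [hvT]
    exact hsep _

theorem horse {X : Type} [MetricSpace X] [CompactSpace X] (g : X ≃ₜ X) (p : X)
    (hp : p ∈ Function.periodicPts (g : X → X)) (x : X) (hx : x ∉ orb (g : X → X) p)
    (hF : Fwd g x (orb (g : X → X) p)) (hB : Bwd g x (orb (g : X → X) p))
    (hS : SP (g : X → X) (orb (g : X → X) p ∪ range (fun n : ℤ => (g ^ n) x)))
    (r : ℝ) (hr : 0 < r) :
    ∃ m : ℕ, 1 ≤ m ∧ ∃ q : X, (g : X → X)^[m] q = q ∧ q ∈ NR (g : X → X) ∧ dist q x ≤ r := by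
  obtain ⟨ρ0, hρ0, hS⟩ := hS
  have hOc : IsClosed (orb (g : X → X) p) := (orb_finite g hp).isClosed
  have hOn : (orb (g : X → X) p).Nonempty := ⟨p, 0, rfl⟩
  have hD : 0 < Metric.infDist x (orb (g : X → X) p) :=
    (hOc.notMem_iff_infDist_pos hOn).1 hx
  obtain ⟨D, hDdef⟩ : ∃ D : ℝ, D = Metric.infDist x (orb (g : X → X) p) := ⟨_, rfl⟩
  rw [← hDdef] at hD
  obtain ⟨ρ, hρdef⟩ : ∃ ρ : ℝ, ρ = min (min ρ0 r) (D / 4) := ⟨_, rfl⟩
  have hρ : 0 < ρ := by
    rw [hρdef]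
    exact lt_min (lt_min hρ0 hr) (by linarith)
  have hρ1 : ρ ≤ ρ0 := by rw [hρdef]; exact (min_le_left _ _).trans (min_le_left _ _)
  have hρ2 : ρ ≤ r := by rw [hρdef]; exact (min_le_left _ _).trans (min_le_right _ _)
  have hρ3 : ρ ≤ D / 4 := by rw [hρdef]; exact min_le_right _ _
  obtain ⟨ε, hε, hSh⟩ := hS ρ hρ
  obtain ⟨s, hs⟩ := fwd_phase g p hp x hF
  obtain ⟨t, ht⟩ := bwd_phase g p hp x hB
  obtain ⟨T, ⟨hT1, hT2⟩, hT3⟩ := (((hs.eventually (gt_mem_nhds hε)).and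
    (ht.eventually (gt_mem_nhds hε))).and (Filter.eventually_ge_atTop 1)).exists
  obtain ⟨P, hP1, hP⟩ := hp
  have hP' : (g : X → X)^[P] p = p := hP
  have hP0 : (0 : ℤ) < P := by exact_mod_cast hP1
  obtain ⟨k, hk1, hk2⟩ : ∃ k : ℕ, 1 ≤ k ∧
      (P : ℤ) ∣ ((T : ℤ) + s + k) - (-(T : ℤ) + t) := by
    have e2 := Int.emod_nonneg (-(T : ℤ) + t - (T + s)) hP0.ne'
    have e1 := Int.emod_add_mul_ediv (-(T : ℤ) + t - (T + s)) P
    refine ⟨((-(T : ℤ) + t - (T + s)) % P + P).toNat, ?_, ?_⟩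
    · omega
    · rw [Int.toNat_of_nonneg (by omega)]
      refine ⟨1 - (-(T : ℤ) + t - (T + s)) / P, ?_⟩
      linear_combination e1
  have hp' : p ∈ Function.periodicPts (g : X → X) := ⟨P, hP1, hP⟩
  obtain ⟨u, v, hL, hvT, -⟩ := horse_loops g p x
    (orb (g : X → X) p ∪ range (fun n : ℤ => (g ^ n) x)) P hP1 hP'
    (fun n => Or.inl ((orb_eq_zpow g hp' _).2 ⟨n, rfl⟩)) (fun n => Or.inr ⟨n, rfl⟩) ε ρ hε T hT3
    s t k hk1 hk2 hT1 hT2 (by
      intro n
      have h1 : D ≤ dist x ((g ^ n) p) := by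
        rw [hDdef]
        exact Metric.infDist_le_dist_of_mem ((orb_eq_zpow g hp' _).2 ⟨n, rfl⟩)
      rw [dist_comm] at h1
      linarith)
  obtain ⟨Z, hc, hi, he, htr⟩ := fs (g : X → X) g _ ε ρ ρ0 hρ1 hSh _ u v hL
  have hnr := (fs_nr g _ hL.pos Z hc hi he).1 (fun _ => true)
  have hfix : (g : X → X)^[P * (2 * T + k)] (Z fun _ => true) = Z fun _ => true := by
    rw [← zpow_iter, he]
  refine ⟨P * (2 * T + k), hL.pos, (g ^ (T : ℤ)) (Z fun _ => true), ?_, nr_zpow g hnr _, ?_⟩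
  · rw [per_zpow]
    exact hfix
  · have h1 := htr (fun _ => true) T
    simp only [if_true] at h1
    rw [hvT] at h1
    exact h1.trans hρ2

end Pool.Agent.Helper55.OS
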