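import Pool.Agent.Helper55.OS.Seq

/-!
# OS-H1 HypSeq: a sequence with an exponential dichotomy has Inv

`pr a n k` = a_{n+k-1} ∘ ... ∘ a_n.
PROOF of `inv_of_split`. Let P_n be the projection on S_n along U_n, Q_n = 1 - P_n the projection on U_n: norms ≤ κ, κ + 1.
UNIQUENESS: a bounded homogeneous z: let z_n = s_n + u_n. By invariance and uniqueness of the decomposition s_{n+1} = a_n s_n,
u_{n+1} = a_n u_n, both bounded (by (κ+1) sup |z|). |u_n| ≤ C θ^k |u_{n+k}| → 0, so u_n = 0. s_n = pr a (n-k) k s_{n-k}, so |s_n| ≤ C θ^k |s_{n-k}| → 0.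
EXISTENCE: b bounded by c0 ≥ 0. s_n = sum_{k ≥ 0} pr a (n-k) k (P_{n-k} b_{n-k-1}) (k = 0: P_n b_{n-1}): converges absolutely, |s_n| ≤ C κ c0/(1-θ), and
s_{n+1} = a_n s_n + P_{n+1} b_n (a_n is continuous; the k-th term at n+1 is a_n of the (k-1)-th term at n). For u: for k ≥ 1 let w_{n,k} in U_n be the (unique) vector with
pr a n k w_{n,k} = Q_{n+k} b_{n+k-1} (surjectivity of a_m : U_m → U_{m+1}, uniqueness from the estimate); |w_{n,k}| ≤ C θ^k (κ+1) c0.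
u_n = - sum_{k ≥ 1} w_{n,k}; a_n w_{n,k} = w_{n+1,k-1} for k ≥ 2 and a_n w_{n,1} = Q_{n+1} b_n. So a_n u_n = -Q_{n+1} b_n + u_{n+1}, i.e. u_{n+1} = a_n u_n + Q_{n+1} b_n.
z = s + u, |z_n| ≤ C (2 κ + 1) c0/(1 - θ).
-/

namespace Pool.Agent.Helper55.OS

variable {F : Type} [NormedAddCommGroup F] [NormedSpace ℝ F]

/-- Product of `k` successive maps, starting at time `n`. -/
def pr (a : ℤ → F →L[ℝ] F) (n : ℤ) : ℕ → F →L[ℝ] F
  | 0 => ContinuousLinearMap.id ℝ F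
  | k + 1 => (a (n + k)).comp (pr a n k)

private theorem hs_pr_succ (a : ℤ → F →L[ℝ] F) (n : ℤ) (k : ℕ) (v : F) :
    pr a n (k + 1) v = a (n + k) (pr a n k v) := rfl

private theorem hs_pr_zero (a : ℤ → F →L[ℝ] F) (n : ℤ) (v : F) : pr a n 0 v = v := rfl

private theorem hs_pr_shift (a : ℤ → F →L[ℝ] F) (n : ℤ) (k : ℕ) (v : F) :
    pr a n (k + 1) v = pr a (n + 1) k (a n v) := by
  induction k with
  | zero =>
    rw [hs_pr_succ, hs_pr_zero, hs_pr_zero, Nat.cast_zero, add_zero]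
  | succ k ih =>
    have e : n + ((k + 1 : ℕ) : ℤ) = n + 1 + k := by push_cast; ring
    rw [hs_pr_succ, ih, hs_pr_succ, e]

private theorem hs_pr_orbit {a : ℤ → F →L[ℝ] F} {v : ℤ → F} (hv : ∀ n, v (n + 1) = a n (v n))
    (n : ℤ) (k : ℕ) : pr a n k (v n) = v (n + k) := by
  induction k with
  | zero => rw [hs_pr_zero, Nat.cast_zero, add_zero]
  | succ k ih =>
    have e : n + ((k + 1 : ℕ) : ℤ) = n + k + 1 := by push_cast; ring
    rw [hs_pr_succ, ih, ← hv, e]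

private theorem hs_surj {a : ℤ → F →L[ℝ] F} {U : ℤ → Submodule ℝ F}
    (hUs : ∀ n, ∀ u' ∈ U (n + 1), ∃ u ∈ U n, a n u = u') (n : ℤ) (k : ℕ) :
    ∀ u' ∈ U (n + k), ∃ u ∈ U n, pr a n k u = u' := by
  induction k with
  | zero =>
    intro u' hu'
    rw [Nat.cast_zero, add_zero] at hu'
    exact ⟨u', hu', rfl⟩
  | succ k ih =>
    intro u' hu'
    have e : n + ((k + 1 : ℕ) : ℤ) = n + k + 1 := by push_cast; ring
    rw [e] at hu'
    obtain ⟨u1, h1, h2⟩ := hUs _ _ hu'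
    obtain ⟨u, h3, h4⟩ := ih u1 h1
    exact ⟨u, h3, by rw [hs_pr_succ, h4, h2]⟩

omit [NormedSpace ℝ F] in
private theorem hs_zero {θ E : ℝ} (hθ0 : 0 ≤ θ) (hθ : θ < 1) {x : F}
    (h : ∀ k : ℕ, ‖x‖ ≤ E * θ ^ k) : x = 0 := by
  have h1 := (tendsto_pow_atTop_nhds_zero_of_lt_one hθ0 hθ).const_mul E
  rw [mul_zero] at h1
  exact norm_le_zero_iff.1 (ge_of_tendsto' h1 h)

theorem inv_of_split [CompleteSpace F] (a : ℤ → F →L[ℝ] F) (S U : ℤ → Submodule ℝ F) (κ C θ : ℝ)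
    (hκ : 1 ≤ κ) (hC : 0 < C) (hθ0 : 0 ≤ θ) (hθ : θ < 1)
    (hc : ∀ n, IsCompl (S n) (U n))
    (hproj : ∀ n, ∀ s ∈ S n, ∀ u ∈ U n, ‖s‖ ≤ κ * ‖s + u‖)
    (hS : ∀ n, ∀ s ∈ S n, a n s ∈ S (n + 1)) (hU : ∀ n, ∀ u ∈ U n, a n u ∈ U (n + 1))
    (hUs : ∀ n, ∀ u' ∈ U (n + 1), ∃ u ∈ U n, a n u = u')
    (hs : ∀ n k, ∀ s ∈ S n, ‖pr a n k s‖ ≤ C * θ ^ k * ‖s‖)
    (hu : ∀ n k, ∀ u ∈ U n, ‖u‖ ≤ C * θ ^ k * ‖pr a n k u‖) :
    Inv (C * (2 * κ + 1) / (1 - θ)) a := by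
  have hdec : ∀ n x, ∃ s ∈ S n, ∃ u ∈ U n, s + u = x := by
    intro n x
    have h1 : x ∈ S n ⊔ U n := by
      rw [(hc n).sup_eq_top]
      trivial
    exact Submodule.mem_sup.1 h1
  choose P hP Q hQ hPQ using hdec
  have hPn : ∀ n x, ‖P n x‖ ≤ κ * ‖x‖ := fun n x => by
    have h1 := hproj n _ (hP n x) _ (hQ n x)
    rwa [hPQ] at h1
  have hQn : ∀ n x, ‖Q n x‖ ≤ (κ + 1) * ‖x‖ := fun n x => by
    have h1 : Q n x = x - P n x := eq_sub_of_add_eq' (hPQ n x)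
    have h2 := norm_sub_le x (P n x)
    have h3 := hPn n x
    rw [h1, add_mul, one_mul]
    linarith
  have huniq : ∀ n, ∀ s ∈ S n, ∀ s' ∈ S n, ∀ u ∈ U n, ∀ u' ∈ U n, s + u = s' + u' →
      s = s' ∧ u = u' := by
    intro n s hs s' hs' u hu u' hu' e
    have h1 := hproj n (s - s') ((S n).sub_mem hs hs') (u - u') ((U n).sub_mem hu hu')
    have h2 : s - s' + (u - u') = 0 := by
      rw [sub_add_sub_comm, e, sub_self]
    rw [h2, norm_zero, mul_zero] at h1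
    have h3 : s = s' := sub_eq_zero.1 (norm_le_zero_iff.1 h1)
    refine ⟨h3, ?_⟩
    rw [h3] at e
    exact add_left_cancel e
  have hinj : ∀ n k, ∀ v ∈ U n, ∀ v' ∈ U n, pr a n k v = pr a n k v' → v = v' := by
    intro n k v hv v' hv' e
    have h1 := hu n k (v - v') ((U n).sub_mem hv hv')
    rw [map_sub, e, sub_self, norm_zero, mul_zero] at h1
    exact sub_eq_zero.1 (norm_le_zero_iff.1 h1)
  have hθ1 : 0 < 1 - θ := by linarith
  intro b c0 hb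
  have hc0 : 0 ≤ c0 := (norm_nonneg _).trans (hb 0)
  -- the stable part
  obtain ⟨T, hTdef⟩ : ∃ T : ℤ → ℕ → F,
      T = fun (n : ℤ) (k : ℕ) => pr a (n - k) k (P (n - k) (b (n - k - 1))) := ⟨_, rfl⟩
  have hT : ∀ n k, ‖T n k‖ ≤ C * κ * c0 * θ ^ k := by
    intro n k
    rw [hTdef]
    have h1 := hs (n - k) k _ (hP (n - k) (b (n - k - 1)))
    have h2 : ‖P (n - k) (b (n - k - 1))‖ ≤ κ * c0 :=
      (hPn _ _).trans (mul_le_mul_of_nonneg_left (hb _) (by linarith))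
    calc ‖pr a (n - k) k (P (n - k) (b (n - k - 1)))‖ ≤
        C * θ ^ k * ‖P (n - k) (b (n - k - 1))‖ := h1
      _ ≤ C * θ ^ k * (κ * c0) := by gcongr
      _ = _ := by ring
  have hTs : ∀ n, Summable (T n) := fun n =>
    Summable.of_norm_bounded ((summable_geometric_of_lt_one hθ0 hθ).mul_left _) (hT n)
  have hTb : ∀ n, ‖∑' k, T n k‖ ≤ C * κ * c0 * (1 - θ)⁻¹ := fun n =>
    tsum_of_norm_bounded ((hasSum_geometric_of_lt_one hθ0 hθ).mul_left _) (hT n)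
  have hT0 : ∀ n, T (n + 1) 0 = P (n + 1) (b n) := by
    intro n
    rw [hTdef]
    show pr a (n + 1 - ((0 : ℕ) : ℤ)) 0 (P (n + 1 - ((0 : ℕ) : ℤ)) (b (n + 1 - ((0 : ℕ) : ℤ) - 1))) = _
    rw [hs_pr_zero, Nat.cast_zero, sub_zero, add_sub_cancel_right]
  have hT1 : ∀ n k, T (n + 1) (k + 1) = a n (T n k) := by
    intro n k
    rw [hTdef]
    show pr a (n + 1 - ((k + 1 : ℕ) : ℤ)) (k + 1) (P (n + 1 - ((k + 1 : ℕ) : ℤ))
      (b (n + 1 - ((k + 1 : ℕ) : ℤ) - 1))) = a n (pr a (n - k) k (P (n - k) (b (n - k - 1))))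
    have e : n + 1 - ((k + 1 : ℕ) : ℤ) = n - k := by push_cast; ring
    rw [e, hs_pr_succ, sub_add_cancel]
  have hsT : ∀ n, ∑' k, T (n + 1) k = a n (∑' k, T n k) + P (n + 1) (b n) := by
    intro n
    rw [(hTs (n + 1)).tsum_eq_zero_add, hT0, (a n).map_tsum (hTs n), add_comm]
    congr 1
    exact tsum_congr fun k => hT1 n k
  -- the unstable part
  have hw : ∀ (n : ℤ) (k : ℕ), ∃ w ∈ U n, pr a n (k + 1) w = Q (n + ((k + 1 : ℕ) : ℤ)) (b (n + k)) :=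
    fun n k => hs_surj hUs n (k + 1) _ (hQ _ _)
  choose w hwU hwe using hw
  have hwn : ∀ n k, ‖w n k‖ ≤ C * (κ + 1) * c0 * θ ^ k := by
    intro n k
    have h1 := hu n (k + 1) _ (hwU n k)
    rw [hwe] at h1
    have h2 : ‖Q (n + ((k + 1 : ℕ) : ℤ)) (b (n + k))‖ ≤ (κ + 1) * c0 :=
      (hQn _ _).trans (mul_le_mul_of_nonneg_left (hb _) (by linarith))
    have h3 : θ ^ (k + 1) ≤ θ ^ k := pow_le_pow_of_le_one hθ0 hθ.le (Nat.le_succ k)
    calc ‖w n k‖ ≤ C * θ ^ (k + 1) * ‖Q (n + ((k + 1 : ℕ) : ℤ)) (b (n + k))‖ := h1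
      _ ≤ C * θ ^ k * ((κ + 1) * c0) := by gcongr
      _ = _ := by ring
  have hws : ∀ n, Summable (w n) := fun n =>
    Summable.of_norm_bounded ((summable_geometric_of_lt_one hθ0 hθ).mul_left _) (hwn n)
  have hwb : ∀ n, ‖∑' k, w n k‖ ≤ C * (κ + 1) * c0 * (1 - θ)⁻¹ := fun n =>
    tsum_of_norm_bounded ((hasSum_geometric_of_lt_one hθ0 hθ).mul_left _) (hwn n)
  have hw0 : ∀ n, a n (w n 0) = Q (n + 1) (b n) := by
    intro n
    have h1 := hwe n 0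
    rw [hs_pr_succ, hs_pr_zero, Nat.cast_zero, add_zero] at h1
    rw [h1]
    norm_num
  have hw1 : ∀ n k, a n (w n (k + 1)) = w (n + 1) k := by
    intro n k
    refine hinj (n + 1) (k + 1) _ (hU n _ (hwU n _)) _ (hwU _ _) ?_
    rw [← hs_pr_shift, hwe, hwe]
    have e1 : n + ((k + 1 + 1 : ℕ) : ℤ) = n + 1 + ((k + 1 : ℕ) : ℤ) := by push_cast; ring
    have e2 : n + ((k + 1 : ℕ) : ℤ) = n + 1 + (k : ℤ) := by push_cast; ring
    rw [e1, e2]
  have hsw : ∀ n, a n (∑' k, w n k) = Q (n + 1) (b n) + ∑' k, w (n + 1) k := by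
    intro n
    rw [(hws n).tsum_eq_zero_add, map_add, hw0,
      (a n).map_tsum ((summable_nat_add_iff 1).2 (hws n))]
    congr 1
    exact tsum_congr fun k => hw1 n k
  have hzb : ∀ n, ‖∑' k, T n k - ∑' k, w n k‖ ≤ C * (2 * κ + 1) / (1 - θ) * c0 := by
    intro n
    refine (norm_sub_le _ _).trans ((add_le_add (hTb n) (hwb n)).trans (le_of_eq ?_))
    rw [div_eq_mul_inv]
    ring
  have hze : ∀ n, (∑' k, T (n + 1) k - ∑' k, w (n + 1) k) =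
      a n (∑' k, T n k - ∑' k, w n k) + b n := by
    intro n
    rw [map_sub, hsT, hsw]
    nth_rewrite 3 [← hPQ (n + 1) (b n)]
    abel
  refine ⟨fun n => ∑' k, T n k - ∑' k, w n k, hzb, hze, ?_⟩
  rintro z' ⟨C', hz'⟩ hze'
  -- uniqueness
  obtain ⟨y, hy⟩ : ∃ y : ℤ → F, y = fun n => z' n - (∑' k, T n k - ∑' k, w n k) := ⟨_, rfl⟩
  have hya : ∀ n, y (n + 1) = a n (y n) := by
    intro n
    rw [hy]
    show z' (n + 1) - (∑' k, T (n + 1) k - ∑' k, w (n + 1) k) =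
      a n (z' n - (∑' k, T n k - ∑' k, w n k))
    rw [hze', hze, map_sub (a n) (z' n)]
    abel
  obtain ⟨D, hD⟩ : ∃ D, ∀ n, ‖y n‖ ≤ D := by
    refine ⟨C' + C * (2 * κ + 1) / (1 - θ) * c0, fun n => ?_⟩
    rw [hy]
    exact (norm_sub_le _ _).trans (add_le_add (hz' n) (hzb n))
  have hD0 : 0 ≤ D := (norm_nonneg _).trans (hD 0)
  have hPQa : ∀ n, P (n + 1) (y (n + 1)) = a n (P n (y n)) ∧
      Q (n + 1) (y (n + 1)) = a n (Q n (y n)) := by
    intro n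
    refine huniq (n + 1) _ (hP _ _) _ (hS n _ (hP _ _)) _ (hQ _ _) _ (hU n _ (hQ _ _)) ?_
    rw [hPQ, ← map_add, hPQ, hya]
  have hP0 : ∀ n, P n (y n) = 0 := by
    intro n
    refine hs_zero (E := C * (κ * D)) hθ0 hθ fun k => ?_
    have h1 := hs_pr_orbit (v := fun n => P n (y n)) (fun n => (hPQa n).1) (n - k) k
    have h2 : pr a (n - k) k (P (n - k) (y (n - k))) = P (n - k + k) (y (n - k + k)) := h1
    rw [sub_add_cancel] at h2
    rw [← h2]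
    have h3 := hs (n - k) k _ (hP (n - k) (y (n - k)))
    have h4 : ‖P (n - k) (y (n - k))‖ ≤ κ * D :=
      (hPn _ _).trans (mul_le_mul_of_nonneg_left (hD _) (by linarith))
    calc _ ≤ C * θ ^ k * ‖P (n - k) (y (n - k))‖ := h3
      _ ≤ C * θ ^ k * (κ * D) := by gcongr
      _ = _ := by ring
  have hQ0 : ∀ n, Q n (y n) = 0 := by
    intro n
    refine hs_zero (E := C * ((κ + 1) * D)) hθ0 hθ fun k => ?_
    have h1 := hs_pr_orbit (v := fun n => Q n (y n)) (fun n => (hPQa n).2) n k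
    have h2 : pr a n k (Q n (y n)) = Q (n + k) (y (n + k)) := h1
    have h3 := hu n k _ (hQ n (y n))
    rw [h2] at h3
    have h4 : ‖Q (n + k) (y (n + k))‖ ≤ (κ + 1) * D :=
      (hQn _ _).trans (mul_le_mul_of_nonneg_left (hD _) (by linarith))
    calc _ ≤ C * θ ^ k * ‖Q (n + k) (y (n + k))‖ := h3
      _ ≤ C * θ ^ k * ((κ + 1) * D) := by gcongr
      _ = _ := by ring
  funext n
  have h1 := hPQ n (y n)
  rw [hP0, hQ0, add_zero, hy] at h1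
  exact sub_eq_zero.1 h1.symm

end Pool.Agent.Helper55.OS
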