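import Pool.Agent.Helper55.OS.Classes

/-!
# OS-C8 IsoC: classes of NR and hyperbolic periodic orbits are isolated

PROOF of `iso_class`. Notation z_n = (f^n) z. Constants: ε3 (`cc_sep`), ε2 (`periodic_near_mem`), ρ0 (SP f (NR f)), ρ := min (ρ0/2) (ε2/4), ε from SP for ρ (we may assume ε ≤ ε2/2, `Shad.mono`), ε' > 0 with ε' ≤ ε/4, ε' ≤ ε3/2,
dist a b < ε' implies dist (f a) (f b) < ε/4. W := thickening (ε'/2) V (closure in thickening ε' V). Let z have its full orbit in closure W: for all n there is p in V with dist (z_n) p < ε'.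
Let m ≥ 1; p⁺, p⁻ in V with dist (z_m) p⁺ < ε', dist (z_(-m)) p⁻ < ε'; an (ε/4)-chain c_0 = p⁺, ..., c_k = p⁻ in V, k ≥ 1 (`cc_props`). The sequence of length L = 2m + k: z_(-m), ..., z_m, c_1, ..., c_(k-1), continued
L-periodically, is an ε-pseudo-orbit: dist (f z_m) (c_1) ≤ dist (f z_m) (f p⁺) + dist (f p⁺) (c_1) < ε/2, dist (f c_(k-1)) (z_(-m)) ≤ dist (f c_(k-1)) (c_k) + dist p⁻ (z_(-m)) < ε/2 (if k = 1: dist (f z_m) (z_(-m)) < 3ε/4), and
ε'-near V, V in NR f. So there is q_m with (f^i) q_m within ρ of it, L-periodic by uniqueness; index so that (f^i) q_m is within ρ of z_i for |i| ≤ m. The orbit of q_m is within ρ + ε' < ε2 of NR f, so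
q_m is in NR f (`periodic_near_mem`, `orb` all points). A limit point q of (q_m) is in NR f (closed) and dist ((f^i) q) (z_i) ≤ ρ for all i; the orbits of q and z are both within ρ0 of the sequence z_i (near NR f, jumps 0): q = z.
So z is in NR f, and dist z p < ε3 for some p in V: z in V (`cc_sep`).
PROOF of `iso_per`. O = orb f p is finite, invariant. Let σ > 0 be smaller than the distances of distinct points of O; ρ0, ε from SP f O; ε' > 0, ε' ≤ ρ0, ε' < σ/2, dist a b < ε' implies dist (f a) (f b) < σ/2. W := thickening (ε'/2) O. Let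
z have its orbit in closure W, y_n in O with dist (z_n) (y_n) < ε'. dist (f y_n) (y_(n+1)) ≤ dist (f y_n) (f z_n) + dist (z_(n+1)) (y_(n+1)) < σ, both in O: equal. So y is an orbit in O; z and y are both within ρ0 of y: z = y 0 in O.
-/

open Set Topology

namespace Pool.Agent.Helper55.OS

variable {X : Type} [MetricSpace X] [CompactSpace X]

omit [CompactSpace X] in
private theorem h99_near (K : Set X) (r : ℝ) {x : X}
    (hx : x ∈ closure (Metric.thickening (r / 2) K)) : ∃ p ∈ K, dist x p < r := by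
  by_cases hr : 0 < r
  · obtain ⟨y, hy, hxy⟩ := Metric.mem_closure_iff.1 hx (r / 2) (half_pos hr)
    obtain ⟨p, hp, hyp⟩ := Metric.mem_thickening_iff.1 hy
    refine ⟨p, hp, ?_⟩
    have := dist_triangle x y p
    linarith
  · exfalso
    rw [Metric.thickening_of_nonpos (by linarith), closure_empty] at hx
    exact hx

private theorem h99_unif (f : X ≃ₜ X) {σ : ℝ} (hσ : 0 < σ) :
    ∃ δ : ℝ, 0 < δ ∧ ∀ a b : X, dist a b < δ → dist (f a) (f b) < σ := by
  obtain ⟨δ, hδ, h⟩ := Metric.uniformContinuous_iff.1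
    (CompactSpace.uniformContinuous_of_continuous f.continuous) σ hσ
  exact ⟨δ, hδ, fun a b hab => h hab⟩

omit [CompactSpace X] in
private theorem h99_per (f : X ≃ₜ X) {Λ : Set X} {ε ρ ρ0 : ℝ}
    (hS : Shad (f : X → X) f Λ ε ρ ρ0) (hρ : ρ ≤ ρ0) (L : ℕ) (hL : 1 ≤ L) (a : ℕ → X)
    (ha : ∀ i, i < L → ∃ p ∈ Λ, dist (a i) p < ε)
    (hj : ∀ i, i + 1 < L → dist (f (a i)) (a (i + 1)) < ε)
    (hl : dist (f (a (L - 1))) (a 0) < ε) :
    ∃ q, q ∈ Function.periodicPts (f : X → X) ∧
      (∀ i : ℕ, i < L → dist ((f ^ (i : ℤ)) q) (a i) ≤ ρ) ∧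
      ∀ n : ℤ, ∃ i, i < L ∧ dist ((f ^ n) q) (a i) ≤ ρ := by
  have hL0 : (0 : ℤ) < L := by exact_mod_cast hL
  obtain ⟨y, hy⟩ : ∃ y : ℤ → X, ∀ n, y n = a (n % (L : ℤ)).toNat := ⟨_, fun _ => rfl⟩
  have hr : ∀ n : ℤ, ∃ i : ℕ, i < L ∧ n % (L : ℤ) = i := by
    intro n
    have h1 := Int.emod_nonneg n hL0.ne'
    have h2 := Int.emod_lt_of_pos n hL0
    refine ⟨(n % (L : ℤ)).toNat, ?_, ?_⟩
    · omega
    · omega
  have hy' : ∀ (n : ℤ) (i : ℕ), n % (L : ℤ) = i → y n = a i := by
    intro n i h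
    rw [hy, h, Int.toNat_natCast]
  have hnext : ∀ (n : ℤ) (i : ℕ), n % (L : ℤ) = i → i + 1 < L → (n + 1) % (L : ℤ) = (i + 1 : ℕ) := by
    intro n i h1 h2
    rw [Int.add_emod, h1]
    have h3 : (1 : ℤ) % L = 1 := Int.emod_eq_of_lt (by norm_num) (by omega)
    rw [h3]
    have h4 : ((i : ℤ) + 1) % L = (i : ℤ) + 1 := Int.emod_eq_of_lt (by omega) (by omega)
    rw [h4]
    push_cast
    rfl
  have hnext' : ∀ (n : ℤ) (i : ℕ), n % (L : ℤ) = i → i + 1 = L → (n + 1) % (L : ℤ) = (0 : ℕ) := by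
    intro n i h1 h2
    have h3 : n + 1 = (L : ℤ) * (n / L + 1) := by
      have := Int.emod_add_mul_ediv n L
      rw [h1] at this
      have h4 : (i : ℤ) + 1 = L := by exact_mod_cast h2
      linarith
    rw [h3, Int.mul_emod_right]
    rfl
  have hper : ∀ n : ℤ, y (n + L) = y n := by
    intro n
    rw [hy, hy, Int.add_emod_right]
  obtain ⟨⟨z, hz, hzy⟩, huniq⟩ := hS y
    (fun n => by
      obtain ⟨i, hi, h1⟩ := hr n
      rw [hy' n i h1]
      exact ha i hi)
    (fun n => by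
      obtain ⟨i, hi, h1⟩ := hr n
      rw [hy' n i h1]
      by_cases h2 : i + 1 < L
      · rw [hy' (n + 1) (i + 1) (hnext n i h1 h2)]
        exact hj i h2
      · have h3 : i + 1 = L := by omega
        rw [hy' (n + 1) 0 (hnext' n i h1 h3)]
        have h4 : i = L - 1 := by omega
        rw [h4]
        exact hl)
  have hzper : z = fun n => z (n + L) := by
    refine huniq z (fun n => z (n + L)) hz (hz.shift L) (fun n => (hzy n).trans hρ) fun n => ?_
    change dist (z (n + L)) (y n) ≤ ρ0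
    rw [← hper n]
    exact (hzy _).trans hρ
  have hzeq : ∀ n : ℤ, z n = (f ^ n) (z 0) := fun n => Orb.eq hz n
  refine ⟨z 0, ⟨L, hL, ?_⟩, ?_, ?_⟩
  · have h1 := congrFun hzper 0
    simp only [zero_add] at h1
    rw [hzeq L, zpow_iter] at h1
    exact h1.symm
  · intro i hi
    rw [← hzeq]
    have h1 := hzy i
    rwa [hy' i i (Int.emod_eq_of_lt (by omega) (by omega))] at h1
  · intro n
    obtain ⟨i, hi, h1⟩ := hr n
    refine ⟨i, hi, ?_⟩
    rw [← hzeq, ← hy' n i h1]
    exact hzy n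

theorem iso_class (f : X ≃ₜ X) (h : SP (f : X → X) (NR (f : X → X))) (V : Set X)
    (hV : V ∈ CC (f : X → X)) :
    ∃ W : Set X, IsOpen W ∧ V ⊆ W ∧ ∀ x, (∀ n : ℤ, (f ^ n) x ∈ closure W) → x ∈ V := by
  obtain ⟨ε3, hε3, hsep⟩ := cc_sep f h
  obtain ⟨ε2, hε2, hper⟩ := periodic_near_mem f h
  obtain ⟨-, -, hVN, -, hchain, -⟩ := cc_props f h V hV
  obtain ⟨ρ0, hρ0, hSP⟩ := h
  obtain ⟨ρ, hρd⟩ : ∃ ρ, ρ = min (ρ0 / 2) (ε2 / 4) := ⟨_, rfl⟩
  have hρ : 0 < ρ := by
    rw [hρd]
    positivity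
  have hρ1 : ρ ≤ ρ0 / 2 := by
    rw [hρd]
    exact min_le_left _ _
  have hρ2 : ρ ≤ ε2 / 4 := by
    rw [hρd]
    exact min_le_right _ _
  obtain ⟨ε0, hε0, hS0⟩ := hSP ρ hρ
  obtain ⟨ε, hεd⟩ : ∃ ε, ε = min ε0 (ε2 / 2) := ⟨_, rfl⟩
  have hε : 0 < ε := by
    rw [hεd]
    positivity
  have hεa : ε ≤ ε0 := by
    rw [hεd]
    exact min_le_left _ _
  have hεb : ε ≤ ε2 / 2 := by
    rw [hεd]
    exact min_le_right _ _
  have hS := hS0.mono (le_refl (NR (f : X → X))) hεa
  obtain ⟨δ, hδ, hunif⟩ := h99_unif f (by positivity : 0 < ε / 4)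
  obtain ⟨e, hed⟩ : ∃ e, e = min (ε / 4) (min ε3 δ) := ⟨_, rfl⟩
  have he : 0 < e := by
    rw [hed]
    positivity
  have he1 : e ≤ ε / 4 := by
    rw [hed]
    exact min_le_left _ _
  have he2 : e ≤ ε3 := by
    rw [hed]
    exact (min_le_right _ _).trans (min_le_left _ _)
  have he3 : e ≤ δ := by
    rw [hed]
    exact (min_le_right _ _).trans (min_le_right _ _)
  refine ⟨Metric.thickening (e / 2) V, Metric.isOpen_thickening,
    Metric.self_subset_thickening (half_pos he) V, ?_⟩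
  intro x hx
  choose p hpV hpd using fun n => h99_near V e (hx n)
  have key : ∀ m : ℕ, ∃ q ∈ NR (f : X → X), ∀ i : ℤ, -(m : ℤ) ≤ i → i ≤ m →
      dist ((f ^ i) q) ((f ^ i) x) ≤ ρ := by
    intro m
    obtain ⟨k, c, hk, hc0, hck, hcV, hcj⟩ := hchain (ε / 4) (by positivity) (p m) (hpV m)
      (p (-(m : ℤ))) (hpV _)
    obtain ⟨a, had⟩ : ∃ a : ℕ → X, ∀ j, a j =
        if j ≤ 2 * m then (f ^ ((j : ℤ) - m)) x else c (j - 2 * m) := ⟨_, fun _ => rfl⟩
    have hasm : ∀ j, j ≤ 2 * m → a j = (f ^ ((j : ℤ) - m)) x := fun j hj => by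
      rw [had, if_pos hj]
    have habig : ∀ j, 2 * m < j → a j = c (j - 2 * m) := fun j hj => by
      rw [had, if_neg (by omega)]
    have hnearV : ∀ j, j < 2 * m + k → ∃ p ∈ V, dist (a j) p < e := by
      intro j hj
      by_cases h1 : j ≤ 2 * m
      · rw [hasm j h1]
        exact ⟨_, hpV _, hpd _⟩
      · rw [habig j (by omega)]
        refine ⟨_, hcV (j - 2 * m) (by omega), ?_⟩
        rw [dist_self]
        exact he
    have hlate : ∀ j, 2 * m ≤ j → j < 2 * m + k →
        dist (f (a j)) (c (j + 1 - 2 * m)) < ε / 2 := by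
      intro j hj1 hj2
      by_cases h1 : j = 2 * m
      · subst h1
        rw [hasm _ le_rfl]
        have h2 : ((2 * m : ℕ) : ℤ) - m = m := by push_cast; ring
        rw [h2]
        have h3 : 2 * m + 1 - 2 * m = 0 + 1 := by omega
        rw [h3]
        have h4 := hcj 0 (by omega)
        have h5 := hunif _ _ ((hpd m).trans_le he3)
        rw [hc0] at h4
        have := dist_triangle (f ((f ^ (m : ℤ)) x)) (f (p m)) (c (0 + 1))
        linarith
      · rw [habig j (by omega)]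
        have h3 : j + 1 - 2 * m = (j - 2 * m) + 1 := by omega
        rw [h3]
        have h4 := hcj (j - 2 * m) (by omega)
        linarith
    obtain ⟨q, hqp, hq1, hq2⟩ := h99_per f hS (by linarith) (2 * m + k) (by omega) a
      (fun i hi => by
        obtain ⟨p', hp', hd⟩ := hnearV i hi
        exact ⟨p', hVN hp', by linarith⟩)
      (fun i hi => by
        by_cases h1 : i + 1 ≤ 2 * m
        · rw [hasm i (by omega), hasm (i + 1) h1]
          have h2 : ((i + 1 : ℕ) : ℤ) - m = (i : ℤ) - m + 1 := by push_cast; ring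
          rw [h2]
          have h3 := orb_zpow f x ((i : ℤ) - m)
          simp only at h3
          rw [h3, dist_self]
          exact hε
        · have h2 := hlate i (by omega) (by omega)
          rw [habig (i + 1) (by omega)]
          linarith)
      (by
        have h2 := hlate (2 * m + k - 1) (by omega) (by omega)
        have h3 : 2 * m + k - 1 + 1 - 2 * m = k := by omega
        rw [h3, hck] at h2
        rw [hasm 0 (by omega)]
        have h4 : ((0 : ℕ) : ℤ) - m = -(m : ℤ) := by push_cast; ring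
        rw [h4]
        have h5 := hpd (-(m : ℤ))
        rw [dist_comm] at h5
        have := dist_triangle (f (a (2 * m + k - 1))) (p (-(m : ℤ))) ((f ^ (-(m : ℤ))) x)
        linarith)
    have hqN : q ∈ NR (f : X → X) := by
      apply hper q hqp
      intro n
      obtain ⟨i, hi, hd⟩ := hq2 n
      obtain ⟨p', hp', hd'⟩ := hnearV i hi
      refine ⟨p', hVN hp', ?_⟩
      have := dist_triangle ((f ^ n) q) (a i) p'
      linarith
    refine ⟨(f ^ (m : ℤ)) q, nr_zpow f hqN m, ?_⟩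
    intro i hi1 hi2
    obtain ⟨j, hj⟩ : ∃ j : ℕ, (j : ℤ) = i + m := ⟨(i + m).toNat, by omega⟩
    have h1 := hq1 j (by omega)
    rw [hasm j (by omega)] at h1
    rw [← zpow_add_app, ← hj]
    have h2 : (j : ℤ) - m = i := by omega
    rwa [h2] at h1
  choose q hqN hqd using key
  obtain ⟨q', φ, hφ, hlim⟩ := CompactSpace.tendsto_subseq q
  have hq'N : q' ∈ NR (f : X → X) :=
    isClosed_closure.mem_of_tendsto hlim (Filter.Eventually.of_forall fun m => hqN (φ m))
  have hq'd : ∀ i : ℤ, dist ((f ^ i) q') ((f ^ i) x) ≤ ρ := by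
    intro i
    have h1 : Filter.Tendsto (fun m => dist ((f ^ i) (q (φ m))) ((f ^ i) x)) Filter.atTop
        (𝓝 (dist ((f ^ i) q') ((f ^ i) x))) :=
      (((f ^ i : X ≃ₜ X).continuous.tendsto q').comp hlim).dist tendsto_const_nhds
    refine le_of_tendsto h1 ?_
    filter_upwards [Filter.eventually_ge_atTop i.natAbs] with m hm
    have h2 : m ≤ φ m := hφ.id_le m
    exact hqd (φ m) i (by omega) (by omega)
  have hxq : (fun n : ℤ => (f ^ n) x) = fun n : ℤ => (f ^ n) q' := by
    refine (hS (fun n : ℤ => (f ^ n) x) ?_ ?_).2 _ _ (orb_zpow f x) (orb_zpow f q') ?_ ?_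
    · intro n
      exact ⟨p n, hVN (hpV n), by have := hpd n; linarith⟩
    · intro n
      have h3 := orb_zpow f x n
      simp only at h3
      simp only [h3, dist_self]
      exact hε
    · intro n
      simp only [dist_self]
      exact hρ0.le
    · intro n
      have := hq'd n
      rw [dist_comm] at this ⊢
      exact (by linarith : dist ((f ^ n) x) ((f ^ n) q') ≤ ρ0)
  have hx0 := congrFun hxq 0
  simp only [zpow_zero_app] at hx0
  have hxN : x ∈ NR (f : X → X) := by
    rw [hx0]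
    exact hq'N
  have h0 := hpd 0
  rw [zpow_zero_app, dist_comm] at h0
  exact hsep V hV (p 0) (hpV 0) x hxN (by linarith)

theorem iso_per (f : X ≃ₜ X) (p : X) (hp : p ∈ Function.periodicPts (f : X → X))
    (h : SP (f : X → X) (orb (f : X → X) p)) :
    ∃ W : Set X, IsOpen W ∧ orb (f : X → X) p ⊆ W ∧
      ∀ x, (∀ n : ℤ, (f ^ n) x ∈ closure W) → x ∈ orb (f : X → X) p := by
  obtain ⟨ρ0, hρ0, hSP⟩ := h
  obtain ⟨ε, hε, hS⟩ := hSP ρ0 hρ0
  have hfin := orb_finite f hp
  obtain ⟨σ, hσ, hσd⟩ : ∃ σ : ℝ, 0 < σ ∧ ∀ a ∈ orb (f : X → X) p, ∀ b ∈ orb (f : X → X) p,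
      dist a b < σ → a = b := by
    have hfin2 : ((orb (f : X → X) p ×ˢ orb (f : X → X) p) ∩ {z : X × X | z.1 ≠ z.2}).Finite :=
      (hfin.prod hfin).subset Set.inter_subset_left
    by_cases hne : ((orb (f : X → X) p ×ˢ orb (f : X → X) p) ∩
        {z : X × X | z.1 ≠ z.2}).Nonempty
    · obtain ⟨z, hz, hmin⟩ := Set.exists_min_image _ (fun z : X × X => dist z.1 z.2) hfin2 hne
      refine ⟨dist z.1 z.2, dist_pos.2 hz.2, fun a ha b hb hab => ?_⟩
      by_contra hne
      have := hmin (a, b) ⟨⟨ha, hb⟩, hne⟩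
      simp only at this
      linarith
    · refine ⟨1, one_pos, fun a ha b hb _ => ?_⟩
      by_contra hne'
      exact hne ⟨(a, b), ⟨ha, hb⟩, hne'⟩
  obtain ⟨δ, hδ, hunif⟩ := h99_unif f (half_pos hσ)
  obtain ⟨e, hed⟩ : ∃ e, e = min ρ0 (min (σ / 2) δ) := ⟨_, rfl⟩
  have he : 0 < e := by
    rw [hed]
    positivity
  have he1 : e ≤ ρ0 := by
    rw [hed]
    exact min_le_left _ _
  have he2 : e ≤ σ / 2 := by
    rw [hed]
    exact (min_le_right _ _).trans (min_le_left _ _)
  have he3 : e ≤ δ := by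
    rw [hed]
    exact (min_le_right _ _).trans (min_le_right _ _)
  refine ⟨Metric.thickening (e / 2) (orb (f : X → X) p), Metric.isOpen_thickening,
    Metric.self_subset_thickening (half_pos he) _, ?_⟩
  intro x hx
  choose y hyO hyd using fun n => h99_near (orb (f : X → X) p) e (hx n)
  have hyorb : Orb (f : X → X) y := by
    intro n
    refine (hσd _ ((orb_iff f hp _).1 (hyO n)) _ (hyO (n + 1)) ?_).symm
    have h1 := hyd (n + 1)
    have h2 := orb_zpow f x n
    simp only at h2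
    rw [h2] at h1
    have h3 := hyd n
    rw [dist_comm] at h3
    have h4 := hunif _ _ (h3.trans_le he3)
    have := dist_triangle (f (y n)) (f ((f ^ n) x)) (y (n + 1))
    linarith
  have hxy : (fun n : ℤ => (f ^ n) x) = y := by
    refine (hS y ?_ ?_).2 _ _ (orb_zpow f x) hyorb ?_ ?_
    · intro n
      exact ⟨y n, hyO n, by rw [dist_self]; exact hε⟩
    · intro n
      rw [hyorb n, dist_self]
      exact hε
    · intro n
      have := hyd n
      exact (by linarith : dist ((f ^ n) x) (y n) ≤ ρ0)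
    · intro n
      rw [dist_self]
      exact hρ0.le
  have h0 := congrFun hxy 0
  simp only [zpow_zero_app] at h0
  rw [h0]
  exact hyO 0

end Pool.Agent.Helper55.OS
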