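import Pool.Agent.Helper55.OS.NRbasic

/-!
# OS-N2 MinCycle: a cycle with distinct vertices; the closed set C

PROOF. Take a cycle (k, V, x) with k minimal (Nat.find). Then V_0, ..., V_(k-1) are pairwise distinct: V_i = V_j with 0 ≤ i < j < k gives the shorter cycle V_i, ..., V_j = V_i (k' = j - i, V'_a := V_(i+a), x'_a := x_(i+a); V' must be in VV for all indices:
fine). C := union over i < k of V_i and of A_i = {(f^n) (x_i) : n ≠ 0}. The index condition `∀ i ≤ k, V i ⊆ C` holds since V_k = V_0.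
CLOSED: C = union over i < k of (V_i ∪ V_(i+1) ∪ A_i) (V_(i+1) is among V_0..V_(k-1) or = V_k = V_0), and each of these is closed: let y be in the closure, y not in V_i ∪ V_(i+1). X is normal: disjoint open nbhds: there are open W ⊇ V_i ∪ V_(i+1) and a nbhd
N_y of y disjoint from W (y has positive distance to the compact set). (f^n) (x_i) is in W for all n with |n| ≥ N (Bwd, Fwd), so N_y meets only the finitely many points (f^n) (x_i), 0 < |n| < N, of A_i: y is one of them.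
x_j NOT IN C: x_j is not in V_i (x_j is not in ⋃₀ VV). Let x_j = (f^n) (x_i), n ≠ 0. If i = j, x_j is periodic ((f^n) x = x or (f^(-n)) x = x with a positive exponent), so Rec, so in ⋃₀ VV: contradiction. If i ≠ j: x_j and x_i are on one orbit, Fwd f (x_j) (V_(j+1)) and
Fwd f (x_i) (V_(i+1)) imply Fwd f (x_j) (V_(i+1)), so V_(i+1) = V_(j+1) (else they are disjoint compact sets, with disjoint open nbhds), and Bwd: V_i = V_j: contradiction to distinctness. The same argument with n = 0 gives x_i ≠ x_j for i ≠ j.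
-/

open Set Topology

namespace Pool.Agent.Helper55.OS

theorem mc_bwd_shift {X : Type} [TopologicalSpace X] (f : X ≃ₜ X) {x : X} {V : Set X}
    (h : Bwd f x V) (n : ℤ) : Bwd f ((f ^ n) x) V := by
  intro W hW hVW
  obtain ⟨N, hN⟩ := h W hW hVW
  refine ⟨N + n.natAbs, fun m hm => ?_⟩
  have h1 : (-(m : ℤ)) + n = -(((m : ℤ) - n).toNat : ℤ) := by omega
  rw [← zpow_add_app, h1]
  exact hN _ (by omega)

theorem mc_bwd_unique {X : Type} [TopologicalSpace X] [T2Space X] (f : X ≃ₜ X) {x : X}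
    {A B : Set X} (hA : IsCompact A) (hB : IsCompact B) (hAB : Disjoint A B)
    (h1 : Bwd f x A) (h2 : Bwd f x B) : False := by
  obtain ⟨U, W, hU, hW, hAU, hBW, hUW⟩ := SeparatedNhds.of_isCompact_isCompact hA hB hAB
  obtain ⟨N, hN⟩ := h1 U hU hAU
  obtain ⟨N', hN'⟩ := h2 W hW hBW
  exact Set.disjoint_left.1 hUW (hN (max N N') (le_max_left _ _))
    (hN' (max N N') (le_max_right _ _))

theorem mc_closed {X : Type} [TopologicalSpace X] [T2Space X] (f : X ≃ₜ X) {x : X}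
    {A B : Set X} (hA : IsCompact A) (hB : IsCompact B) (h1 : Bwd f x A) (h2 : Fwd f x B) :
    IsClosed (A ∪ B ∪ {y | ∃ n : ℤ, n ≠ 0 ∧ y = (f ^ n) x}) := by
  apply isClosed_of_closure_subset
  intro y hy
  by_contra hyB
  have hyK : y ∉ A ∪ B := fun h => hyB (Or.inl h)
  obtain ⟨U, O, hU, hO, hKU, hyO, hUO⟩ := SeparatedNhds.of_isCompact_isCompact (hA.union hB)
    (isCompact_singleton (x := y)) (Set.disjoint_singleton_right.2 hyK)
  obtain ⟨N, hN⟩ := h1 U hU (subset_union_left.trans hKU)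
  obtain ⟨N', hN'⟩ := h2 U hU (subset_union_right.trans hKU)
  have hF : ((fun n : ℤ => (f ^ n) x) '' (Set.Icc (-((N + N' : ℕ) : ℤ)) ((N + N' : ℕ) : ℤ) \
      {0})).Finite := ((Set.finite_Icc _ _).subset Set.diff_subset).image _
  have hyF : y ∉ (fun n : ℤ => (f ^ n) x) '' (Set.Icc (-((N + N' : ℕ) : ℤ))
      ((N + N' : ℕ) : ℤ) \ {0}) := by
    rintro ⟨n, hn, rfl⟩
    exact hyB (Or.inr ⟨n, hn.2, rfl⟩)
  have hopen : IsOpen (O ∩ ((fun n : ℤ => (f ^ n) x) '' (Set.Icc (-((N + N' : ℕ) : ℤ))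
      ((N + N' : ℕ) : ℤ) \ {0}))ᶜ) := hO.inter hF.isClosed.isOpen_compl
  obtain ⟨z, ⟨hzO, hzF⟩, hz⟩ := mem_closure_iff.1 hy _ hopen ⟨hyO rfl, hyF⟩
  rcases hz with hz | ⟨n, hn, rfl⟩
  · exact Set.disjoint_left.1 hUO (hKU hz) hzO
  · by_cases hc : n ∈ Set.Icc (-((N + N' : ℕ) : ℤ)) ((N + N' : ℕ) : ℤ)
    · exact hzF ⟨n, ⟨hc, hn⟩, rfl⟩
    · rw [Set.mem_Icc, not_and_or, not_le, not_le] at hc
      rcases hc with hc | hc
      · have h3 : n = -((-n).toNat : ℤ) := by omega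
        have h4 := hN (-n).toNat (by omega)
        rw [← h3] at h4
        exact Set.disjoint_left.1 hUO h4 hzO
      · have h3 : n = (n.toNat : ℤ) := by omega
        have h4 := hN' n.toNat (by omega)
        rw [← h3] at h4
        exact Set.disjoint_left.1 hUO h4 hzO

theorem mc_per {X : Type} [TopologicalSpace X] (f : X ≃ₜ X) {x : X} {n : ℤ} (hn : n ≠ 0)
    (h : x = (f ^ n) x) : x ∈ Function.periodicPts (f : X → X) := by
  rcases lt_or_gt_of_ne hn with h1 | h1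
  · refine ⟨(-n).toNat, by omega, ?_⟩
    show (f : X → X)^[(-n).toNat] x = x
    have h2 : (((-n).toNat : ℕ) : ℤ) = -n := by omega
    rw [← zpow_iter, h2]
    conv_lhs => rw [h]
    exact nb_cancel f n x
  · refine ⟨n.toNat, by omega, ?_⟩
    show (f : X → X)^[n.toNat] x = x
    have h2 : ((n.toNat : ℕ) : ℤ) = n := by omega
    rw [← zpow_iter, h2]
    exact h.symm

theorem minCycle {X : Type} [MetricSpace X] [CompactSpace X] (f : X ≃ₜ X) (VV : Set (Set X))
    (hcomp : ∀ V ∈ VV, IsCompact V) (hinv : ∀ V ∈ VV, (f : X → X) '' V = V)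
    (hdis : ∀ V ∈ VV, ∀ V' ∈ VV, V ≠ V' → Disjoint V V')
    (hrec : ∀ x, Rec (f : X → X) x → x ∈ ⋃₀ VV) (h : Cycle f VV) :
    ∃ (k : ℕ) (V : ℕ → Set X) (x : ℕ → X) (C : Set X), 1 ≤ k ∧ (∀ i, V i ∈ VV) ∧ V k = V 0 ∧
      (∀ i, i < k → x i ∉ ⋃₀ VV ∧ Bwd f (x i) (V i) ∧ Fwd f (x i) (V (i + 1))) ∧
      IsClosed C ∧ (∀ i, i ≤ k → V i ⊆ C) ∧ (∀ i, i < k → x i ∉ C) ∧
      (∀ i, i < k → ∀ n : ℤ, n ≠ 0 → (f ^ n) (x i) ∈ C) ∧
      ∀ i j, i < k → j < k → i ≠ j → x i ≠ x j := by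
  classical
  have hex : ∃ k : ℕ, ∃ (V : ℕ → Set X) (x : ℕ → X), 1 ≤ k ∧ (∀ i, V i ∈ VV) ∧ V k = V 0 ∧
      ∀ i, i < k → x i ∉ ⋃₀ VV ∧ Bwd f (x i) (V i) ∧ Fwd f (x i) (V (i + 1)) := h
  obtain ⟨V, x, hk, hV, hV0, hx⟩ := Nat.find_spec hex
  have hmin := fun m (hm : m < Nat.find hex) => Nat.find_min hex hm
  generalize Nat.find hex = k at hk hV0 hx hmin
  have hdist : ∀ i j, i < j → j < k → V i ≠ V j := by
    intro i j hij hjk hVij
    refine hmin (j - i) (by omega) ⟨fun a => V (i + a), fun a => x (i + a), by omega,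
      fun a => hV _, ?_, fun a ha => ?_⟩
    · show V (i + (j - i)) = V (i + 0)
      rw [Nat.add_sub_cancel' hij.le, add_zero, hVij]
    · exact hx (i + a) (by omega)
  have hdist' : ∀ i j, i < k → j < k → i ≠ j → V i ≠ V j := by
    intro i j hi hj hij
    rcases lt_or_gt_of_ne hij with h1 | h1
    · exact hdist i j h1 hj
    · exact fun e => hdist j i h1 hi e.symm
  have hkey : ∀ i j, i < k → j < k → i ≠ j → ∀ n : ℤ, x j ≠ (f ^ n) (x i) := by
    intro i j hi hj hij n hn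
    have h1 := mc_bwd_shift f (hx i hi).2.1 n
    rw [← hn] at h1
    exact mc_bwd_unique f (hcomp _ (hV i)) (hcomp _ (hV j))
      (hdis _ (hV i) _ (hV j) (hdist' i j hi hj hij)) h1 (hx j hj).2.1
  refine ⟨k, V, x, ⋃ i ∈ {i | i < k}, (V i ∪ V (i + 1) ∪
    {y | ∃ n : ℤ, n ≠ 0 ∧ y = (f ^ n) (x i)}), hk, hV, hV0, hx, ?_, ?_, ?_, ?_, ?_⟩
  · refine (Set.finite_lt_nat k).isClosed_biUnion fun i hi => ?_
    exact mc_closed f (hcomp _ (hV i)) (hcomp _ (hV (i + 1))) (hx i hi).2.1 (hx i hi).2.2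
  · intro i hi
    rcases hi.lt_or_eq with h1 | h1
    · intro y hy
      exact Set.mem_biUnion (x := i) h1 (Or.inl (Or.inl hy))
    · intro y hy
      rw [h1, hV0] at hy
      exact Set.mem_biUnion (x := 0) (show 0 < k by omega) (Or.inl (Or.inl hy))
  · intro j hj hC
    obtain ⟨i, hi, hC⟩ := Set.mem_iUnion₂.1 hC
    have hi' : i < k := hi
    rcases hC with (h1 | h1) | ⟨n, hn, h1⟩
    · exact (hx j hj).1 ⟨V i, hV i, h1⟩
    · exact (hx j hj).1 ⟨V (i + 1), hV (i + 1), h1⟩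
    · by_cases hij : i = j
      · subst hij
        exact (hx i hj).1 (hrec _ (per_rec _ (mc_per f hn h1)))
      · exact hkey i j hi' hj hij n h1
  · intro i hi n hn
    exact Set.mem_biUnion (x := i) hi (Or.inr ⟨n, hn, rfl⟩)
  · intro i j hi hj hij h1
    refine hkey i j hi hj hij 0 ?_
    rw [zpow_zero_app]
    exact h1.symm

end Pool.Agent.Helper55.OS
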