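import Pool.Agent.Helper55.OS.NRbasic
import Pool.Agent.Helper55.OS.FS
import Pool.Agent.Helper55.OS.FSNR

/-!
# OS-C5 NRa: periodic points are dense in NR

Λ = NR f. Notation x_n = (f^n) x. PROOF of `per_dense`. It suffices to approximate the points x with Rec f x, x not periodic (dense in NR f). All x_n are in NR f
(`nr_zpow`, subset_closure). Let σ > 0, ρ0 from SP, ρ := min (σ/2) (ρ0/4), ε from SP for ρ. For N ≥ 1 with dist (x_N) x < ε let u^N_n := x_(n mod N) (n in ℤ): N-periodic, in Λ, jumps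
0 or dist (x_N) x < ε. By Shad there is an orbit z^N within ρ of u^N; by uniqueness (the shifted orbit z^N(· + N) is also within ρ of u^N) it is N-periodic; q_N := z^N 0 is periodic, dist q_N x ≤ ρ < σ.
Fix one such N =: n1 (`rec_large`), q := q_(n1). CLAIM: q is in NR f. Suppose not. Let N ≥ 1 be any number with dist (x_N) x < ε, l := n1 * N, u := u^(n1), v := u^N: all fields of `Loops f Λ ε ρ l u v`
except `sep` hold (suv: f (u (-1)) = x_(n1), v 0 = x; svu: f (v (-1)) = x_N, u 0 = x). If `sep` holds then by `fs` (f = g) and `fs_nr`, Z (fun _ => false) is in NR f and its orbit is within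
ρ of u, so by uniqueness it is q: contradiction. So dist (u i) (v i) ≤ 2 ρ for all i, and dist ((f^i) q) (x_i) ≤ 3 ρ for 0 ≤ i < N. N can be arbitrarily large (`rec_large` for the ball of radius ε), so
dist ((f^i) q) (x_i) ≤ 3 ρ ≤ ρ0 for all i ≥ 0. By `rec_large` there are i_k → ∞ with x_(i_k) → x, and passing to a subsequence i_k mod n1 = r is constant. For every j in ℤ, for large k:
(f^(i_k + j)) q = (f^(r+j)) q and x_(i_k + j) → x_j, so dist ((f^j) ((f^r) q)) (x_j) ≤ ρ0. The orbits of x and (f^r) q are both within ρ0 of the sequence y n = x_n (in Λ, jumps 0), so x = (f^r) q (uniqueness) is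
periodic: contradiction.
`nr_perfect`: q in NR f, δ > 0. If q is not periodic use `per_dense`. If q is periodic: there is x with Rec f x, x not periodic, dist x q < δ/2 (q in the closure); x ≠ q; η := dist x q > 0; `per_dense`: a periodic q' in NR f with
dist q' x < min η (δ/2); q' ≠ q.
-/

open Set Topology

namespace Pool.Agent.Helper55.OS

variable {X : Type} [MetricSpace X] [CompactSpace X]

/-- the periodic pseudo-orbit `x_(n mod N)` -/
private def uu (f : X ≃ₜ X) (x : X) (N : ℕ) (n : ℤ) : X := (f ^ (n % (N : ℤ))) x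

omit [CompactSpace X] in
private theorem uu_zero (f : X ≃ₜ X) (x : X) (N : ℕ) : uu f x N 0 = x := by
  unfold uu
  rw [Int.zero_emod, zpow_zero_app]

omit [CompactSpace X] in
private theorem uu_jump (f : X ≃ₜ X) (x : X) (N : ℕ) (hN : 1 ≤ N) {ε : ℝ} (hε : 0 < ε)
    (hd : dist ((f : X → X)^[N] x) x < ε) (n : ℤ) : dist (f (uu f x N n)) (uu f x N (n + 1)) < ε := by
  have hN0 : (0 : ℤ) < N := by exact_mod_cast hN
  have h1 := Int.emod_nonneg n hN0.ne'
  have h2 := Int.emod_lt_of_pos n hN0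
  have h3 : f (uu f x N n) = (f ^ (n % (N : ℤ) + 1)) x := by
    unfold uu
    rw [add_comm, zpow_add_app, zpow_one_app]
  rw [h3]
  by_cases h4 : n % (N : ℤ) + 1 = N
  · have h5 : (n + 1) % (N : ℤ) = 0 := by
      rw [← Int.emod_add_emod, h4, Int.emod_self]
    unfold uu
    rw [h5, h4, zpow_zero_app, zpow_iter]
    exact hd
  · have h5 : (n + 1) % (N : ℤ) = n % (N : ℤ) + 1 := by
      rw [← Int.emod_add_emod]
      exact Int.emod_eq_of_lt (by omega) (by omega)
    unfold uu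
    rw [h5, dist_self]
    exact hε

private theorem per_core (f : X ≃ₜ X) (h : SP (f : X → X) (NR (f : X → X))) {x : X}
    (hr : Rec (f : X → X) x) (hp : x ∉ Function.periodicPts (f : X → X)) {σ : ℝ} (hσ : 0 < σ) :
    ∃ q ∈ NR (f : X → X), q ∈ Function.periodicPts (f : X → X) ∧ dist q x < σ := by
  obtain ⟨ρ0, hρ0, hSP⟩ := h
  obtain ⟨ρ, hρ⟩ : ∃ ρ, ρ = min (σ / 2) (ρ0 / 4) := ⟨_, rfl⟩
  have hρpos : 0 < ρ := by rw [hρ]; positivity
  have hρσ : ρ ≤ σ / 2 := by rw [hρ]; exact min_le_left _ _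
  have hρρ : ρ ≤ ρ0 / 4 := by rw [hρ]; exact min_le_right _ _
  obtain ⟨ε, hε, hS⟩ := hSP ρ hρpos
  have hx : x ∈ NR (f : X → X) := subset_closure ⟨hr, hp⟩
  have hΛ : ∀ n : ℤ, (f ^ n) x ∈ NR (f : X → X) := fun n => nr_zpow f hx n
  have hnear : ∀ (N : ℕ) (n : ℤ), ∃ p ∈ NR (f : X → X), dist (uu f x N n) p < ε := fun N n =>
    ⟨_, hΛ _, by
      change dist (uu f x N n) (uu f x N n) < ε
      rw [dist_self]
      exact hε⟩
  have hper : ∀ (N : ℕ) (n : ℤ), uu f x N (n + N) = uu f x N n := by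
    intro N n
    unfold uu
    rw [Int.add_emod_right]
  -- the periodic shadowing orbit
  have hA : ∀ N : ℕ, 1 ≤ N → dist ((f : X → X)^[N] x) x < ε → ∃ z : ℤ → X, Orb (f : X → X) z ∧
      (∀ n, dist (z n) (uu f x N n) ≤ ρ) ∧ (f : X → X)^[N] (z 0) = z 0 := by
    intro N hN hd
    obtain ⟨⟨z, hz, hzd⟩, huniq⟩ := hS (uu f x N) (hnear N) (uu_jump f x N hN hε hd)
    refine ⟨z, hz, hzd, ?_⟩
    have h1 := huniq z (fun n => z (n + N)) hz (hz.shift N) (fun n => (hzd n).trans (by linarith))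
      (fun n => by
        have h2 := hzd (n + N)
        rw [hper] at h2
        exact h2.trans (by linarith))
    have h2 := congrFun h1 0
    beta_reduce at h2
    rw [zero_add, hz.eq (N : ℤ), zpow_iter] at h2
    exact h2.symm
  obtain ⟨n1, hn1, hd1⟩ := rec_large f hr (Metric.ball x ε) (Metric.ball_mem_nhds x hε) 1
  rw [Metric.mem_ball] at hd1
  obtain ⟨z, hz, hzd, hzp⟩ := hA n1 hn1 hd1
  have hqx : dist (z 0) x ≤ ρ := by
    have h1 := hzd 0
    rwa [uu_zero] at h1
  have hqper : z 0 ∈ Function.periodicPts (f : X → X) := ⟨n1, hn1, hzp⟩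
  refine ⟨z 0, ?_, hqper, by linarith⟩
  by_contra hq
  -- the two loops stay together
  have hB : ∀ N : ℕ, 1 ≤ N → dist ((f : X → X)^[N] x) x < ε → ∀ i,
      dist (uu f x n1 i) (uu f x N i) ≤ 2 * ρ := by
    intro N hN hd i
    by_contra hcon
    push Not at hcon
    have hL : Loops (f : X → X) (NR (f : X → X)) ε ρ (n1 * N) (uu f x n1) (uu f x N) := by
      refine ⟨Nat.mul_pos hn1 hN, hnear n1, hnear N, ?_, ?_, uu_jump f x n1 hn1 hε hd1,
        uu_jump f x N hN hε hd, ?_, ?_, ⟨i, hcon⟩⟩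
      · intro n
        unfold uu
        rw [Nat.cast_mul, Int.add_mul_emod_self_left]
      · intro n
        unfold uu
        rw [Nat.cast_mul, Int.add_mul_emod_self_right]
      · have h1 := uu_jump f x n1 hn1 hε hd1 (-1)
        rw [neg_add_cancel, uu_zero] at h1
        rw [uu_zero]
        exact h1
      · have h1 := uu_jump f x N hN hε hd (-1)
        rw [neg_add_cancel, uu_zero] at h1
        rw [uu_zero]
        exact h1
    obtain ⟨Z, hZc, hZi, hZe, hZt⟩ := fs (f : X → X) f (NR (f : X → X)) ε ρ ρ0 (by linarith) hS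
      (n1 * N) _ _ hL
    have h1 := (fs_nr f (n1 * N) hL.pos Z hZc hZi hZe).1 (fun _ => false)
    obtain ⟨-, huniq⟩ := hS (uu f x n1) (hnear n1) (uu_jump f x n1 hn1 hε hd1)
    have h2 := huniq z (fun n : ℤ => (f ^ n) (Z fun _ => false)) hz (orb_zpow f _)
      (fun n => (hzd n).trans (by linarith)) (fun n => by
        have h3 := hZt (fun _ => false) n
        beta_reduce at h3
        rw [if_neg (by decide)] at h3
        exact h3.trans (by linarith))
    have h3 := congrFun h2 0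
    beta_reduce at h3
    rw [zpow_zero_app] at h3
    rw [← h3] at h1
    exact hq h1
  -- the orbits of q and x stay together
  have hC : ∀ i : ℕ, dist ((f ^ (i : ℤ)) (z 0)) ((f ^ (i : ℤ)) x) ≤ ρ0 := by
    intro i
    obtain ⟨N, hN, hd⟩ := rec_large f hr (Metric.ball x ε) (Metric.ball_mem_nhds x hε) (i + 1)
    rw [Metric.mem_ball] at hd
    have h1 := hB N (by omega) hd i
    have h2 := hzd i
    have h3 : uu f x N i = (f ^ (i : ℤ)) x := by
      unfold uu
      rw [Int.emod_eq_of_lt (by omega) (by omega)]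
    rw [h3] at h1
    rw [hz.eq] at h2
    have h4 := dist_triangle ((f ^ (i : ℤ)) (z 0)) (uu f x n1 i) ((f ^ (i : ℤ)) x)
    linarith
  -- the pigeonhole
  have hseq : ∀ k : ℕ, ∃ i : ℕ, k ≤ i ∧ dist ((f ^ (i : ℤ)) x) x < 1 / ((k : ℝ) + 1) := by
    intro k
    obtain ⟨i, hi, hd⟩ := rec_large f hr (Metric.ball x (1 / ((k : ℝ) + 1)))
      (Metric.ball_mem_nhds x (by positivity)) k
    rw [Metric.mem_ball] at hd
    refine ⟨i, hi, ?_⟩
    rw [zpow_iter]
    exact hd
  choose I hI1 hI2 using hseq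
  obtain ⟨r, hr'⟩ := Finite.exists_infinite_fiber
    (fun k : ℕ => (⟨I k % n1, Nat.mod_lt _ hn1⟩ : Fin n1))
  have hinf : Set.Infinite {k : ℕ | I k % n1 = (r : ℕ)} := by
    have h1 := Set.infinite_coe_iff.1 hr'
    refine h1.mono fun k hk => ?_
    have h2 : (⟨I k % n1, Nat.mod_lt _ hn1⟩ : Fin n1) = r := hk
    exact congrArg Fin.val h2
  have hiter : ∀ m : ℕ, (f ^ ((n1 : ℤ) * m)) (z 0) = z 0 := by
    intro m
    have h1 : ((n1 : ℤ) * m) = ((n1 * m : ℕ) : ℤ) := by push_cast; rfl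
    rw [h1, zpow_iter]
    have h2 : Function.IsPeriodicPt (f : X → X) n1 (z 0) := hzp
    exact h2.mul_const m
  have hD : ∀ j : ℤ, dist ((f ^ j) ((f ^ (r : ℤ)) (z 0))) ((f ^ j) x) ≤ ρ0 := by
    intro j
    refine le_of_forall_pos_le_add fun η hη => ?_
    have hcont : ContinuousAt (fun y => (f ^ j) y) x := (f ^ j).continuous.continuousAt
    rw [Metric.continuousAt_iff] at hcont
    obtain ⟨δ, hδ, hcδ⟩ := hcont η hη
    obtain ⟨K, hK⟩ := exists_nat_gt (1 / δ)
    obtain ⟨k, hk, hkK⟩ := hinf.exists_gt (max K j.natAbs)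
    have hk' : I k % n1 = (r : ℕ) := hk
    have hK1 : K < k := lt_of_le_of_lt (le_max_left _ _) hkK
    have hj1 : j.natAbs < k := lt_of_le_of_lt (le_max_right _ _) hkK
    have hIk := hI1 k
    have h1 : dist ((f ^ (I k : ℤ)) x) x < δ := by
      refine lt_of_lt_of_le (hI2 k) ?_
      rw [div_le_iff₀ (by positivity)]
      have h2 : (K : ℝ) < k := by exact_mod_cast hK1
      rw [div_lt_iff₀ hδ] at hK
      nlinarith
    have h2 := hcδ h1
    beta_reduce at h2
    rw [← zpow_add_app] at h2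
    obtain ⟨m, hm⟩ : ∃ m : ℕ, (m : ℤ) = j + I k := ⟨(j + I k).toNat, by omega⟩
    have h3 := hC m
    rw [hm] at h3
    have h4 : (f ^ (j + (I k : ℤ))) (z 0) = (f ^ j) ((f ^ (r : ℤ)) (z 0)) := by
      have h5 : (I k : ℤ) = (r : ℤ) + (n1 : ℤ) * (I k / n1 : ℕ) := by
        have h6 := Nat.mod_add_div (I k) n1
        rw [hk'] at h6
        exact_mod_cast h6.symm
      rw [zpow_add_app]
      congr 1
      rw [h5, zpow_add_app, hiter]
    rw [h4] at h3
    have h5 := dist_triangle ((f ^ j) ((f ^ (r : ℤ)) (z 0))) ((f ^ (j + (I k : ℤ))) x) ((f ^ j) x)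
    linarith
  obtain ⟨-, huniq⟩ := hS (fun n : ℤ => (f ^ n) x) (fun n => ⟨_, hΛ n, by
    rw [dist_self]
    exact hε⟩) (fun n => by
      have h1 := orb_zpow f x n
      beta_reduce at h1 ⊢
      rw [← h1, dist_self]
      exact hε)
  have h1 := huniq (fun n : ℤ => (f ^ n) x) (fun n : ℤ => (f ^ n) ((f ^ (r : ℤ)) (z 0)))
    (orb_zpow f x) (orb_zpow f _) (fun n => by
      rw [dist_self]
      exact hρ0.le) hD
  have h2 := congrFun h1 0
  beta_reduce at h2
  rw [zpow_zero_app, zpow_zero_app] at h2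
  apply hp
  rw [h2]
  exact ⟨n1, hn1, (per_zpow f n1 (z 0) r).2 hzp⟩

theorem per_dense (f : X ≃ₜ X) (h : SP (f : X → X) (NR (f : X → X))) :
    ∀ x ∈ NR (f : X → X), ∀ σ : ℝ, 0 < σ → ∃ q ∈ NR (f : X → X),
      q ∈ Function.periodicPts (f : X → X) ∧ dist q x < σ := by
  intro x hx σ hσ
  have hx' : x ∈ closure {x | Rec (f : X → X) x ∧ x ∉ Function.periodicPts (f : X → X)} := hx
  rw [Metric.mem_closure_iff] at hx'
  obtain ⟨y, ⟨hy1, hy2⟩, hd⟩ := hx' (σ / 2) (half_pos hσ)
  obtain ⟨q, hq1, hq2, hq3⟩ := per_core f h hy1 hy2 (half_pos hσ)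
  refine ⟨q, hq1, hq2, ?_⟩
  have h1 := dist_triangle q y x
  rw [dist_comm x y] at hd
  linarith

theorem nr_perfect (f : X ≃ₜ X) (h : SP (f : X → X) (NR (f : X → X))) :
    ∀ q ∈ NR (f : X → X), ∀ δ : ℝ, 0 < δ → ∃ q' ∈ NR (f : X → X),
      q' ∈ Function.periodicPts (f : X → X) ∧ q' ≠ q ∧ dist q' q < δ := by
  intro q hq δ hδ
  by_cases hper : q ∈ Function.periodicPts (f : X → X)
  · have hx' : q ∈ closure {x | Rec (f : X → X) x ∧ x ∉ Function.periodicPts (f : X → X)} := hq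
    rw [Metric.mem_closure_iff] at hx'
    obtain ⟨x, ⟨hx1, hx2⟩, hd⟩ := hx' (δ / 2) (half_pos hδ)
    have hne : x ≠ q := fun e => hx2 (e ▸ hper)
    have hη : 0 < dist x q := dist_pos.2 hne
    obtain ⟨q', h1, h2, h3⟩ := per_dense f h x (subset_closure ⟨hx1, hx2⟩) (min (dist x q) (δ / 2))
      (lt_min hη (half_pos hδ))
    have h4 := lt_of_lt_of_le h3 (min_le_left _ _)
    have h5 := lt_of_lt_of_le h3 (min_le_right _ _)
    refine ⟨q', h1, h2, ?_, ?_⟩
    · intro e
      rw [e, dist_comm] at h4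
      exact lt_irrefl _ h4
    · have h6 := dist_triangle q' x q
      rw [dist_comm q x] at hd
      linarith
  · obtain ⟨q', h1, h2, h3⟩ := per_dense f h q hq δ hδ
    exact ⟨q', h1, h2, fun e => hper (e ▸ h2), h3⟩

end Pool.Agent.Helper55.OS
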