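import Pool.Agent.Helper55.OS.NRa

/-!
# OS-C6 NRb: close periodic points near NR are in NR and in a common transitive set

PROOF of `close_periodic`. ρ0 from SP, ρ := ρ0/2, ε from SP for ρ (this is the ε of the statement). Let q ≠ q' be as in the statement, n, n' ≥ 1 periods, l := n * n', u i := (f^i) q, v i := (f^i) q'. `Loops f (NR f) ε ρ l u v`:
nu, nv by hypothesis, jumps 0 < ε, suv: f (u (-1)) = q, v 0 = q': dist q q' < ε; svu in the same way; sep: otherwise dist (u i) (v i) ≤ 2 ρ ≤ ρ0 for all i, and the orbits u and v are both within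
ρ0 of u, so q = q' by uniqueness: contradiction. `fs` (g = f) gives Z; Z (fun _ => false) has its orbit within ρ of u, so it is q (uniqueness, ρ ≤ ρ0); Z (fun _ => true) = q'. `fs_nr` gives everything.
PROOF of `periodic_near_mem`. ε_b from `close_periodic`, ε := ε_b/2. Let q be periodic with orbit ε-near NR f and suppose q is not in NR f. There is p in NR f with dist q p < ε (n = 0), and q' in NR f periodic with
dist q' p < ε_b/2 (`per_dense`): dist q q' < ε_b, q' ≠ q, the orbit of q' is in NR f (`nr_zpow`). So q is in NR f by `close_periodic`: contradiction.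
-/

open Set Topology

namespace Pool.Agent.Helper55.OS

variable {X : Type} [MetricSpace X] [CompactSpace X]

theorem close_periodic (f : X ≃ₜ X) (h : SP (f : X → X) (NR (f : X → X))) :
    ∃ ε : ℝ, 0 < ε ∧ ∀ q q' : X, q ∈ Function.periodicPts (f : X → X) →
      q' ∈ Function.periodicPts (f : X → X) →
      (∀ n : ℤ, ∃ p ∈ NR (f : X → X), dist ((f ^ n) q) p < ε) →
      (∀ n : ℤ, ∃ p ∈ NR (f : X → X), dist ((f ^ n) q') p < ε) →
      q ≠ q' → dist q q' < ε →
        q ∈ NR (f : X → X) ∧ q' ∈ NR (f : X → X) ∧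
        ∃ w, Rec (f : X → X) w ∧ w ∉ Function.periodicPts (f : X → X) ∧
          (∀ U ∈ 𝓝 q, ∀ k : ℕ, ∃ n : ℕ, k ≤ n ∧ (f : X → X)^[n] w ∈ U) ∧
          (∀ U ∈ 𝓝 q', ∀ k : ℕ, ∃ n : ℕ, k ≤ n ∧ (f : X → X)^[n] w ∈ U) := by
  obtain ⟨ρ0, hρ0, hSP⟩ := h
  obtain ⟨ε, hε, hS⟩ := hSP (ρ0 / 2) (half_pos hρ0)
  refine ⟨ε, hε, ?_⟩
  intro q q' hq hq' hnu hnv hne hd
  obtain ⟨n, hn, hqn⟩ := hq
  obtain ⟨n', hn', hqn'⟩ := hq'
  have hl : 1 ≤ n * n' := Nat.mul_pos hn hn'
  have h1 : (f : X → X)^[n * n'] q = q := hqn.mul_const n'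
  have h2 : (f : X → X)^[n * n'] q' = q' := hqn'.const_mul n
  have hper : ∀ (x : X), (f : X → X)^[n * n'] x = x → ∀ k : ℤ,
      (f ^ (k + ((n * n' : ℕ) : ℤ))) x = (f ^ k) x := by
    intro x hx k
    rw [zpow_add_app, zpow_iter, hx]
  have hj : ∀ (x : X) (k : ℤ), dist (f ((f ^ k) x)) ((f ^ (k + 1)) x) < ε := by
    intro x k
    have e : (f ^ (k + 1)) x = f ((f ^ k) x) := orb_zpow f x k
    rw [e, dist_self]
    exact hε
  have hm1 : ∀ x : X, f ((f ^ (-1 : ℤ)) x) = x := by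
    intro x
    have := orb_zpow f x (-1)
    change (f ^ (-1 + 1 : ℤ)) x = f ((f ^ (-1 : ℤ)) x) at this
    rw [← this, neg_add_cancel, zpow_zero_app]
  have huniq : ∀ (x y : X), (∀ k : ℤ, ∃ p ∈ NR (f : X → X), dist ((f ^ k) x) p < ε) →
      (∀ k : ℤ, dist ((f ^ k) y) ((f ^ k) x) ≤ ρ0) → y = x := by
    intro x y hx hxy
    have h3 := (hS (fun k : ℤ => (f ^ k) x) hx (hj x)).2 (fun k : ℤ => (f ^ k) y)
      (fun k : ℤ => (f ^ k) x) (orb_zpow f y) (orb_zpow f x) hxy
      (fun k => by rw [dist_self]; exact hρ0.le)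
    have h4 := congrFun h3 0
    simpa only [zpow_zero_app] using h4
  have hL : Loops (f : X → X) (NR (f : X → X)) ε (ρ0 / 2) (n * n') (fun k : ℤ => (f ^ k) q)
      (fun k : ℤ => (f ^ k) q') := by
    refine ⟨hl, hnu, hnv, hper q h1, hper q' h2, hj q, hj q', ?_, ?_, ?_⟩
    · change dist (f ((f ^ (-1 : ℤ)) q)) ((f ^ (0 : ℤ)) q') < ε
      rw [hm1, zpow_zero_app]
      exact hd
    · change dist (f ((f ^ (-1 : ℤ)) q')) ((f ^ (0 : ℤ)) q) < ε
      rw [hm1, zpow_zero_app, dist_comm]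
      exact hd
    · by_contra hcon
      push Not at hcon
      apply hne
      refine (huniq q q' hnu fun k => ?_).symm
      have := hcon k
      rw [dist_comm]
      linarith
  obtain ⟨Z, hc, hi, he, htr⟩ := fs (f : X → X) f (NR (f : X → X)) ε (ρ0 / 2) ρ0 (by linarith) hS
    (n * n') _ _ hL
  have hZ1 : Z (fun _ => false) = q := by
    refine huniq q _ hnu fun k => ?_
    have := htr (fun _ => false) k
    simp only [Bool.false_eq_true, if_false] at this
    linarith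
  have hZ2 : Z (fun _ => true) = q' := by
    refine huniq q' _ hnv fun k => ?_
    have := htr (fun _ => true) k
    simp only [if_true] at this
    linarith
  obtain ⟨hNR, w, hw1, hw2, hw3⟩ := fs_nr f (n * n') hl Z hc hi he
  refine ⟨hZ1 ▸ hNR _, hZ2 ▸ hNR _, w, hw1, hw2, ?_, ?_⟩
  · rw [← hZ1]
    exact hw3 _
  · rw [← hZ2]
    exact hw3 _

theorem periodic_near_mem (f : X ≃ₜ X) (h : SP (f : X → X) (NR (f : X → X))) :
    ∃ ε : ℝ, 0 < ε ∧ ∀ q : X, q ∈ Function.periodicPts (f : X → X) →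
      (∀ n : ℤ, ∃ p ∈ NR (f : X → X), dist ((f ^ n) q) p < ε) → q ∈ NR (f : X → X) := by
  obtain ⟨ε, hε, hb⟩ := close_periodic f h
  refine ⟨ε / 2, half_pos hε, ?_⟩
  intro q hq hn
  by_contra hcon
  obtain ⟨p, hp, hd⟩ := hn 0
  rw [zpow_zero_app] at hd
  obtain ⟨q', hq'1, hq'2, hq'3⟩ := per_dense f h p hp (ε / 2) (half_pos hε)
  have hd2 : dist q q' < ε := by
    have := dist_triangle q p q'
    rw [dist_comm p q'] at this
    linarith
  have hne : q ≠ q' := fun h => hcon (h ▸ hq'1)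
  exact hcon (hb q q' hq hq'2
    (fun n => by
      obtain ⟨p, hp, hd⟩ := hn n
      exact ⟨p, hp, by linarith⟩)
    (fun n => ⟨(f ^ n) q', nr_zpow f hq'1 n, by rw [dist_self]; exact hε⟩) hne hd2).1

end Pool.Agent.Helper55.OS
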