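import Pool.Agent.Helper55.OS.ShadDefs

/-!
# OS-C4 NRbasic: elementary facts on recurrence, NR, omega and periodic orbits

PROOFS.
* `rec_zpow`: if V is a nbhd of (f^n) x then (f^n)⁻¹ V is a nbhd of x; it contains f^[k] x, k ≥ 1; f^[k] ((f^n) x) = (f^n) (f^[k] x).
* `per_zpow`: f^[m] ((f^n) x) = (f^n) x iff f^[m] x = x.
* `nr_iff`, `nr_zpow`: f is a homeomorphism that maps the set {Rec, not periodic} onto itself (both directions by rec_zpow, per_zpow with n = 1, -1), so it maps the closure onto itself.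
* `rec_large`: if x is periodic, x = f^[m] x: n = m k'. Otherwise the points f^[n] x, 1 ≤ n < k are different from x; U minus these points is a nbhd of x.
* `rec_omega`: y = x in U, f^[n] x in U, n ≥ 1. `omega_closed`: the complement of omega is open (if U is a nbhd of x with f^[n] '' U cap U empty for all n ≥ 1, so is the interior of U for all its points).
* `nr_omega`: closure of a subset of the closed set omega.
* orbit of a periodic point p, f^[m] p = p, m ≥ 1: orb f p = {f^[j] p : j < m} finite; = {(f^n) p : n in ℤ}; closed, compact, invariant.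
-/

open Set Topology

namespace Pool.Agent.Helper55.OS

variable {X : Type} [TopologicalSpace X]

theorem nb_comm (f : X ≃ₜ X) (k : ℕ) (n : ℤ) (x : X) :
    (f : X → X)^[k] ((f ^ n) x) = (f ^ n) ((f : X → X)^[k] x) := by
  rw [← zpow_iter, ← zpow_iter, ← zpow_add_app, ← zpow_add_app, add_comm]

theorem nb_cancel (f : X ≃ₜ X) (n : ℤ) (x : X) : (f ^ (-n)) ((f ^ n) x) = x := by
  rw [← zpow_add_app, neg_add_cancel, zpow_zero_app]

theorem rec_zpow (f : X ≃ₜ X) {x : X} (h : Rec (f : X → X) x) (n : ℤ) :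
    Rec (f : X → X) ((f ^ n) x) := by
  intro V hV
  have h1 : (f ^ n : X ≃ₜ X) ⁻¹' V ∈ 𝓝 x := (f ^ n : X ≃ₜ X).continuous.continuousAt hV
  obtain ⟨k, hk1, hk⟩ := h _ h1
  exact ⟨k, hk1, by rw [nb_comm]; exact hk⟩

theorem per_zpow (f : X ≃ₜ X) (m : ℕ) (x : X) (n : ℤ) :
    (f : X → X)^[m] ((f ^ n) x) = (f ^ n) x ↔ (f : X → X)^[m] x = x := by
  rw [nb_comm]
  exact (f ^ n : X ≃ₜ X).injective.eq_iff

theorem nb_per (f : X ≃ₜ X) (x : X) (n : ℤ) :
    (f ^ n) x ∈ Function.periodicPts (f : X → X) ↔ x ∈ Function.periodicPts (f : X → X) := by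
  constructor
  · rintro ⟨m, hm, h⟩
    exact ⟨m, hm, (per_zpow f m x n).1 h⟩
  · rintro ⟨m, hm, h⟩
    exact ⟨m, hm, (per_zpow f m x n).2 h⟩

theorem nb_rec (f : X ≃ₜ X) (x : X) (n : ℤ) : Rec (f : X → X) ((f ^ n) x) ↔ Rec (f : X → X) x := by
  refine ⟨fun h => ?_, fun h => rec_zpow f h n⟩
  have h1 := rec_zpow f h (-n)
  rwa [nb_cancel] at h1

theorem nb_nr (f : X ≃ₜ X) (x : X) (n : ℤ) : (f ^ n) x ∈ NR (f : X → X) ↔ x ∈ NR (f : X → X) := by
  have h1 : (f ^ n : X ≃ₜ X) ⁻¹' {x | Rec (f : X → X) x ∧ x ∉ Function.periodicPts (f : X → X)} =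
      {x | Rec (f : X → X) x ∧ x ∉ Function.periodicPts (f : X → X)} := by
    ext y
    show (Rec (f : X → X) ((f ^ n) y) ∧ (f ^ n) y ∉ Function.periodicPts (f : X → X)) ↔
      (Rec (f : X → X) y ∧ y ∉ Function.periodicPts (f : X → X))
    rw [nb_rec, nb_per]
  have h2 := (f ^ n : X ≃ₜ X).preimage_closure
    {x | Rec (f : X → X) x ∧ x ∉ Function.periodicPts (f : X → X)}
  rw [h1] at h2
  unfold NR
  rw [← Set.mem_preimage (f := (f ^ n : X ≃ₜ X)), h2]

theorem nr_iff (f : X ≃ₜ X) (x : X) : x ∈ NR (f : X → X) ↔ f x ∈ NR (f : X → X) := by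
  have h1 := nb_nr f x 1
  rw [zpow_one_app] at h1
  exact h1.symm

theorem nr_zpow (f : X ≃ₜ X) {x : X} (h : x ∈ NR (f : X → X)) (n : ℤ) :
    (f ^ n) x ∈ NR (f : X → X) := by
  exact (nb_nr f x n).2 h

theorem rec_large [T1Space X] (f : X ≃ₜ X) {x : X} (h : Rec (f : X → X) x) (U : Set X)
    (hU : U ∈ 𝓝 x) (k : ℕ) : ∃ n : ℕ, k ≤ n ∧ (f : X → X)^[n] x ∈ U := by
  by_cases hx : x ∈ Function.periodicPts (f : X → X)
  · obtain ⟨m, hm, hp⟩ := hx
    refine ⟨m * k, Nat.le_mul_of_pos_left k hm, ?_⟩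
    have h1 : (f : X → X)^[m * k] x = x := hp.mul_const k
    rw [h1]
    exact mem_of_mem_nhds hU
  · have hF : ((fun n => (f : X → X)^[n] x) '' Set.Ico 1 k).Finite :=
      (Set.finite_Ico 1 k).image _
    have hxF : x ∉ (fun n => (f : X → X)^[n] x) '' Set.Ico 1 k := by
      rintro ⟨n, hn, hn'⟩
      exact hx ⟨n, hn.1, hn'⟩
    have h1 : ((fun n => (f : X → X)^[n] x) '' Set.Ico 1 k)ᶜ ∈ 𝓝 x :=
      hF.isClosed.isOpen_compl.mem_nhds hxF
    obtain ⟨n, hn1, hn2, hn3⟩ := h _ (Filter.inter_mem hU h1)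
    refine ⟨n, ?_, hn2⟩
    by_contra hcon
    exact hn3 ⟨n, ⟨hn1, not_le.1 hcon⟩, rfl⟩

theorem rec_omega (f : X → X) {x : X} (h : Rec f x) : x ∈ omega f := by
  intro U hU
  obtain ⟨n, hn, h1⟩ := h U hU
  exact ⟨n, hn, _, ⟨x, mem_of_mem_nhds hU, rfl⟩, h1⟩

theorem omega_closed (f : X → X) : IsClosed (omega f) := by
  apply isClosed_of_closure_subset
  intro x hx U hU
  obtain ⟨y, hy, hy'⟩ := mem_closure_iff.1 hx (interior U) isOpen_interior
    (mem_interior_iff_mem_nhds.2 hU)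
  exact hy' U (mem_interior_iff_mem_nhds.1 hy)

theorem nr_omega (f : X → X) : NR f ⊆ omega f := by
  exact closure_minimal (fun x hx => rec_omega f hx.1) (omega_closed f)

theorem per_rec (f : X → X) {x : X} (h : x ∈ Function.periodicPts f) : Rec f x := by
  intro U hU
  obtain ⟨m, hm, hp⟩ := h
  refine ⟨m, hm, ?_⟩
  have h1 : f^[m] x = x := hp
  rw [h1]
  exact mem_of_mem_nhds hU

theorem orb_finite (f : X ≃ₜ X) {p : X} (h : p ∈ Function.periodicPts (f : X → X)) :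
    (orb (f : X → X) p).Finite := by
  obtain ⟨m, hm, hp⟩ := h
  refine ((Set.finite_lt_nat m).image (fun j => (f : X → X)^[j] p)).subset ?_
  rintro y ⟨j, rfl⟩
  exact ⟨j % m, Nat.mod_lt j hm, hp.iterate_mod_apply j⟩

theorem orb_eq_zpow (f : X ≃ₜ X) {p : X} (h : p ∈ Function.periodicPts (f : X → X)) (y : X) :
    y ∈ orb (f : X → X) p ↔ ∃ n : ℤ, y = (f ^ n) p := by
  constructor
  · rintro ⟨j, rfl⟩
    exact ⟨j, (zpow_iter f j p).symm⟩
  · rintro ⟨n, rfl⟩
    obtain ⟨m, hm, hp⟩ := h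
    have h1 : (f : X → X)^[m * n.natAbs] p = p := hp.mul_const n.natAbs
    have h2 : 0 ≤ n + ((m * n.natAbs : ℕ) : ℤ) := by
      have h3 : (n.natAbs : ℤ) ≤ ((m * n.natAbs : ℕ) : ℤ) := by
        exact_mod_cast Nat.le_mul_of_pos_left n.natAbs hm
      have h4 : -n ≤ (n.natAbs : ℤ) := by omega
      linarith
    obtain ⟨j, hj⟩ := Int.eq_ofNat_of_zero_le h2
    refine ⟨j, ?_⟩
    rw [← zpow_iter, ← hj, zpow_add_app, zpow_iter, h1]

theorem orb_iff (f : X ≃ₜ X) {p : X} (h : p ∈ Function.periodicPts (f : X → X)) (y : X) :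
    y ∈ orb (f : X → X) p ↔ f y ∈ orb (f : X → X) p := by
  rw [orb_eq_zpow f h, orb_eq_zpow f h]
  constructor
  · rintro ⟨n, rfl⟩
    exact ⟨n + 1, (orb_zpow f p n).symm⟩
  · rintro ⟨n, hn⟩
    refine ⟨n - 1, f.injective ?_⟩
    have h1 := orb_zpow f p (n - 1)
    simp only [sub_add_cancel] at h1
    rw [hn, h1]

theorem orb_image (f : X ≃ₜ X) {p : X} (h : p ∈ Function.periodicPts (f : X → X)) :
    (f : X → X) '' orb (f : X → X) p = orb (f : X → X) p := by
  ext y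
  constructor
  · rintro ⟨z, hz, rfl⟩
    exact (orb_iff f h z).1 hz
  · intro hy
    refine ⟨f.symm y, (orb_iff f h _).2 ?_, f.apply_symm_apply y⟩
    rw [f.apply_symm_apply]
    exact hy

theorem orb_per (f : X ≃ₜ X) {p y : X} (h : p ∈ Function.periodicPts (f : X → X))
    (hy : y ∈ orb (f : X → X) p) : y ∈ Function.periodicPts (f : X → X) := by
  obtain ⟨n, rfl⟩ := (orb_eq_zpow f h y).1 hy
  exact (nb_per f p n).2 h

end Pool.Agent.Helper55.OS
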