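import Pool.Agent.Helper55.OS.Seq

/-!
# OS-S2 Patch: local invertibility implies invertibility

PROOF of `patch`. Take L : ℕ with L ≥ 12 K, L ≥ 1, ℓ = 3 L, η = 1/(24 K).
UNIQUENESS. Let z be bounded, z_{n+1} = b_n z_n, S = sup |z_n| > 0. Choose n0 with |z_{n0}| > S/2, the model a for n0, and
ψ(n) = max(0, 1 - |n - n0|/L) (real valued, slope ≤ 1/L, ψ(n0) = 1, zero for |n-n0| ≥ L). Then y = ψ z satisfies
y_{n+1} = a_n y_n + r_n with r_n = ψ_n (b_n - a_n) z_n + (ψ_{n+1} - ψ_n) z_{n+1}, |r_n| ≤ η S + S/L (where ψ_n ≠ 0 we have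
|n - n0| < L ≤ ℓ). By `Inv.lin` (or Inv K a, y bounded): |y_n| ≤ K (η + 1/L) S ≤ S/8 < S/2: contradiction at n0.
So the difference of two bounded solutions for b is 0.
EXISTENCE. Blocks B_j = [jL, (j+1)L), θ_j(n) = max(0, 1 - dist(n, B_j)/L): θ_j = 1 on B_j, slope ≤ 1/L, zero outside
[(j-1)L, (j+2)L]; at most 3 (say 4) indices j have θ_j(n) ≠ 0 or θ_j(n+1) ≠ 0. Let a^j be the model for n0 = jL + L/2 (any point of B_j
works since all n with θ_j(n) ≠ 0 are within 3L of jL: take n0 = jL). For a bounded w let ζ^j be the solution of the model for the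
right hand side 1_{B_j} w: |ζ^j| ≤ K |w|. Put (T w)_n = sum_j θ_j(n) ζ^j_n (finite sum, at most 4 nonzero terms): |T w| ≤ 4 K |w|, and
(T w)_{n+1} - b_n (T w)_n = sum_j θ_j(n) (ζ^j_{n+1} - a^j_n ζ^j_n) + sum_j θ_j(n) (a^j_n - b_n) ζ^j_n + sum_j (θ_j(n+1) - θ_j(n)) ζ^j_{n+1}
= w_n + e_n, |e_n| ≤ 4 K η |w| + 4 K |w| / L ≤ |w|/2 (take L ≥ 16 K, η = 1/(16 K) if you prefer).
Iterate: w^0 = w, w^{k+1} = -e(w^k), |w^k| ≤ 2^{-k} |w|; z = sum_k T w^k converges uniformly (F complete), |z| ≤ 8 K |w| and z_{n+1} - b_n z_n = w_n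
(pass to the limit termwise; b_n is continuous for each fixed n).
`inv_pert` is the special case with one model (all n0, same a): direct from `patch`.
(The model and solution choices use Classical.choose; only existence of T for each w is needed: for each bounded w with bound C
there are y with |y| ≤ 4KC and e with |e| ≤ C/2 and y_{n+1} = b_n y_n + w_n + e_n; iterate with choice.)
-/

namespace Pool.Agent.Helper55.OS

variable {F : Type} [NormedAddCommGroup F] [NormedSpace ℝ F] [CompleteSpace F]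

omit [CompleteSpace F] in
private theorem half (K : ℝ) (hK : 1 ≤ K) (L : ℕ) (hL : 8 * K ≤ L) (b : ℤ → F →L[ℝ] F)
    (hb : ∀ n0 : ℤ, ∃ a : ℤ → F →L[ℝ] F, Inv K a ∧
      ∀ n : ℤ, |n - n0| ≤ L → ‖b n - a n‖ ≤ 1 / (4 * K))
    (z : ℤ → F) (hz : ∀ n, z (n + 1) = b n (z n)) (S : ℝ) (hS : ∀ n, ‖z n‖ ≤ S) :
    ∀ n, ‖z n‖ ≤ S / 2 := by
  intro n0
  have hK0 : 0 < K := by linarith
  have hL0 : (0 : ℝ) < L := by linarith
  have hS0 : 0 ≤ S := (norm_nonneg _).trans (hS 0)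
  obtain ⟨a, ha, hab⟩ := hb n0
  obtain ⟨ψ, hψ⟩ : ∃ ψ : ℤ → ℝ, ∀ n, ψ n = max (1 - |(n : ℝ) - n0| / L) 0 := ⟨_, fun _ => rfl⟩
  have hψ0 : ∀ n, 0 ≤ ψ n := fun n => by rw [hψ]; exact le_max_right _ _
  have hψ1 : ∀ n, ψ n ≤ 1 := by
    intro n
    rw [hψ]
    refine max_le ?_ zero_le_one
    have : 0 ≤ |(n : ℝ) - n0| / L := by positivity
    linarith
  have hψn0 : ψ n0 = 1 := by
    rw [hψ, sub_self, abs_zero, zero_div, sub_zero]
    exact max_eq_left zero_le_one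
  have hψs : ∀ n, |ψ (n + 1) - ψ n| ≤ 1 / L := by
    intro n
    rw [hψ, hψ]
    refine (abs_max_sub_max_le_abs _ _ _).trans ?_
    have h1 : (1 - |((n + 1 : ℤ) : ℝ) - n0| / L) - (1 - |(n : ℝ) - n0| / L) =
        (|(n : ℝ) - n0| - |((n + 1 : ℤ) : ℝ) - n0|) / L := by ring
    rw [h1, abs_div, abs_of_pos hL0]
    refine div_le_div_of_nonneg_right ?_ hL0.le
    refine (abs_abs_sub_abs_le_abs_sub _ _).trans ?_
    have h2 : (n : ℝ) - n0 - (((n + 1 : ℤ) : ℝ) - n0) = -1 := by push_cast; ring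
    rw [h2, abs_neg, abs_one]
  have hψz : ∀ n, ψ n ≠ 0 → |n - n0| ≤ L := by
    intro n hn
    by_contra hc
    push Not at hc
    apply hn
    rw [hψ]
    refine max_eq_right ?_
    have h1 : (L : ℝ) < |(n : ℝ) - n0| := by exact_mod_cast hc
    have h2 : 1 < |(n : ℝ) - n0| / L := (one_lt_div hL0).2 h1
    linarith
  obtain ⟨zs, h1, h2, h3⟩ := ha (fun n => ψ n • ((b n - a n) (z n)) +
    (ψ (n + 1) - ψ n) • z (n + 1)) (S / (4 * K) + S / L) (by
      intro n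
      refine (norm_add_le _ _).trans (add_le_add ?_ ?_)
      · rw [norm_smul, Real.norm_eq_abs, abs_of_nonneg (hψ0 n)]
        by_cases hn : ψ n = 0
        · rw [hn, zero_mul]
          positivity
        · calc ψ n * ‖(b n - a n) (z n)‖ ≤ 1 * (1 / (4 * K) * S) := by
                refine mul_le_mul (hψ1 n) ?_ (norm_nonneg _) zero_le_one
                refine ((b n - a n).le_opNorm _).trans ?_
                exact mul_le_mul (hab n (hψz n hn)) (hS n) (norm_nonneg _) (by positivity)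
            _ = S / (4 * K) := by ring
      · rw [norm_smul, Real.norm_eq_abs]
        calc |ψ (n + 1) - ψ n| * ‖z (n + 1)‖ ≤ 1 / L * S :=
              mul_le_mul (hψs n) (hS _) (norm_nonneg _) (by positivity)
          _ = S / L := by ring)
  have h4 := h3 (fun n => ψ n • z n) ⟨S, fun n => by
    rw [norm_smul, Real.norm_eq_abs, abs_of_nonneg (hψ0 n)]
    calc ψ n * ‖z n‖ ≤ 1 * S := mul_le_mul (hψ1 n) (hS n) (norm_nonneg _) zero_le_one
      _ = S := one_mul S⟩ (fun n => by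
    simp only [_root_.sub_apply, map_smul, hz n, sub_smul, smul_sub]
    abel)
  have h5 : z n0 = zs n0 := by
    rw [← h4]
    simp only [hψn0, one_smul]
  rw [h5]
  refine (h1 n0).trans ?_
  have h6 : K * (S / (4 * K)) = S / 4 := by field_simp
  have h7 : K * (S / L) ≤ S / 8 := by
    rw [mul_div_assoc', div_le_iff₀ hL0]
    nlinarith
  rw [mul_add, h6]
  linarith

omit [CompleteSpace F] in
private theorem step (K : ℝ) (hK : 1 ≤ K) (L : ℕ) (hL : 8 * K ≤ L) (b : ℤ → F →L[ℝ] F)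
    (hb : ∀ n0 : ℤ, ∃ a : ℤ → F →L[ℝ] F, Inv K a ∧
      ∀ n : ℤ, |n - n0| ≤ L → ‖b n - a n‖ ≤ 1 / (4 * K))
    (w : ℤ → F) (C : ℝ) (hw : ∀ n, ‖w n‖ ≤ C) :
    ∃ y e : ℤ → F, (∀ n, ‖y n‖ ≤ K * C) ∧ (∀ n, ‖e n‖ ≤ C / 2) ∧
      ∀ n, y (n + 1) = b n (y n) + (w n - e n) := by
  have hK0 : 0 < K := by linarith
  have hL0 : (0 : ℝ) < L := by linarith
  have hLz : (0 : ℤ) < L := by exact_mod_cast hL0
  have hC0 : 0 ≤ C := (norm_nonneg _).trans (hw 0)
  choose a ha hab using hb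
  have hζ : ∀ n0 : ℤ, ∃ ζ : ℤ → F, (∀ n, ‖ζ n‖ ≤ K * C) ∧
      ∀ n, ζ (n + 1) = a n0 n (ζ n) + w n := fun n0 => by
    obtain ⟨ζ, h1, h2, _⟩ := ha n0 w C hw
    exact ⟨ζ, h1, h2⟩
  choose ζ hζ1 hζ2 using hζ
  obtain ⟨s, hs⟩ : ∃ s : ℤ → ℝ, ∀ n, s n = ((n % L : ℤ) : ℝ) / L := ⟨_, fun _ => rfl⟩
  obtain ⟨y, hy⟩ : ∃ y : ℤ → F, ∀ n, y n = (1 - s n) • ζ (L * (n / L)) n +
      s n • ζ (L * (n / L + 1)) n := ⟨_, fun _ => rfl⟩
  have hs0 : ∀ n, 0 ≤ s n := by
    intro n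
    rw [hs]
    have : (0 : ℝ) ≤ ((n % L : ℤ) : ℝ) := by exact_mod_cast Int.emod_nonneg n hLz.ne'
    positivity
  have hs1 : ∀ n, s n ≤ 1 := by
    intro n
    rw [hs, div_le_one hL0]
    exact_mod_cast (Int.emod_lt_of_pos n hLz).le
  have hsucc : ∀ n, y (n + 1) = (1 - s n) • ζ (L * (n / L)) (n + 1) +
      s n • ζ (L * (n / L + 1)) (n + 1) +
      (1 / (L : ℝ)) • (ζ (L * (n / L + 1)) (n + 1) - ζ (L * (n / L)) (n + 1)) := by
    intro n
    have hdm := Int.emod_add_mul_ediv n (L : ℤ)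
    have hr0 := Int.emod_nonneg n hLz.ne'
    have hr1 := Int.emod_lt_of_pos n hLz
    by_cases hr : n % (L : ℤ) + 1 < L
    · obtain ⟨h1, h2⟩ := (Int.ediv_emod_unique (a := n + 1) (r := n % (L : ℤ) + 1)
        (q := n / (L : ℤ)) hLz).2 ⟨by linarith, by linarith, hr⟩
      have h3 : s (n + 1) = s n + 1 / L := by
        rw [hs, hs, h2]
        push_cast
        ring
      rw [hy (n + 1), h1, h3]
      module
    · have hr' : n % (L : ℤ) + 1 = L := by omega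
      obtain ⟨h1, h2⟩ := (Int.ediv_emod_unique (a := n + 1) (r := 0)
        (q := n / (L : ℤ) + 1) hLz).2 ⟨by linarith, le_rfl, hLz⟩
      have h3 : s (n + 1) = 0 := by
        rw [hs, h2]
        simp
      have h4 : s n = 1 - 1 / L := by
        have h5 : ((n % (L : ℤ) : ℤ) : ℝ) = L - 1 := by
          have : ((n % (L : ℤ) + 1 : ℤ) : ℝ) = ((L : ℤ) : ℝ) := by rw [hr']
          push_cast at this
          linarith
        rw [hs, h5]
        field_simp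
      rw [hy (n + 1), h1, h3, h4]
      module
  have hnear : ∀ n : ℤ, |n - L * (n / L)| ≤ L ∧ |n - L * (n / L + 1)| ≤ L := by
    intro n
    have hdm := Int.emod_add_mul_ediv n (L : ℤ)
    have hr0 := Int.emod_nonneg n hLz.ne'
    have hr1 := Int.emod_lt_of_pos n hLz
    constructor <;> rw [abs_le] <;> constructor <;> linarith
  refine ⟨y, fun n => b n (y n) + w n - y (n + 1), ?_, ?_, fun n => by
    beta_reduce
    abel⟩
  · intro n
    rw [hy]
    refine (norm_add_le _ _).trans ?_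
    rw [norm_smul, norm_smul, Real.norm_eq_abs, Real.norm_eq_abs, abs_of_nonneg (hs0 n),
      abs_of_nonneg (sub_nonneg.2 (hs1 n))]
    calc (1 - s n) * ‖ζ (L * (n / L)) n‖ + s n * ‖ζ (L * (n / L + 1)) n‖
        ≤ (1 - s n) * (K * C) + s n * (K * C) :=
          add_le_add (mul_le_mul_of_nonneg_left (hζ1 _ _) (sub_nonneg.2 (hs1 n)))
            (mul_le_mul_of_nonneg_left (hζ1 _ _) (hs0 n))
      _ = K * C := by ring
  · intro n
    have hform : b n (y n) + w n - y (n + 1) =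
        (1 - s n) • ((b n - a (L * (n / L)) n) (ζ (L * (n / L)) n)) +
        s n • ((b n - a (L * (n / L + 1)) n) (ζ (L * (n / L + 1)) n)) -
        (1 / (L : ℝ)) • (ζ (L * (n / L + 1)) (n + 1) - ζ (L * (n / L)) (n + 1)) := by
      rw [hsucc, hy]
      generalize hA : (1 / (L : ℝ)) • (ζ (L * (n / L + 1)) (n + 1) - ζ (L * (n / L)) (n + 1)) = A
      rw [hζ2, hζ2]
      simp only [_root_.sub_apply, map_add, map_smul]
      module
    simp only [hform]
    have h1 : ∀ m : ℤ, |n - m| ≤ L → ‖(b n - a m n) (ζ m n)‖ ≤ C / 4 := by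
      intro m hm
      calc ‖(b n - a m n) (ζ m n)‖ ≤ ‖b n - a m n‖ * ‖ζ m n‖ := (b n - a m n).le_opNorm _
        _ ≤ 1 / (4 * K) * (K * C) :=
            mul_le_mul (hab m n hm) (hζ1 _ _) (norm_nonneg _) (by positivity)
        _ = C / 4 := by field_simp
    have h2 : ‖(1 / (L : ℝ)) • (ζ (L * (n / L + 1)) (n + 1) - ζ (L * (n / L)) (n + 1))‖ ≤
        C / 4 := by
      rw [norm_smul, Real.norm_eq_abs, abs_of_pos (by positivity)]
      have h3 : ‖ζ (L * (n / L + 1)) (n + 1) - ζ (L * (n / L)) (n + 1)‖ ≤ K * C + K * C :=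
        (norm_sub_le _ _).trans (add_le_add (hζ1 _ _) (hζ1 _ _))
      calc 1 / (L : ℝ) * ‖ζ (L * (n / L + 1)) (n + 1) - ζ (L * (n / L)) (n + 1)‖
          ≤ 1 / (L : ℝ) * (K * C + K * C) := mul_le_mul_of_nonneg_left h3 (by positivity)
        _ = (2 * K * C) / L := by ring
        _ ≤ C / 4 := by
            rw [div_le_iff₀ hL0]
            nlinarith
    refine (norm_sub_le _ _).trans ?_
    have h4 : ‖(1 - s n) • ((b n - a (L * (n / L)) n) (ζ (L * (n / L)) n)) +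
        s n • ((b n - a (L * (n / L + 1)) n) (ζ (L * (n / L + 1)) n))‖ ≤ C / 4 := by
      refine (norm_add_le _ _).trans ?_
      rw [norm_smul, norm_smul, Real.norm_eq_abs, Real.norm_eq_abs, abs_of_nonneg (hs0 n),
        abs_of_nonneg (sub_nonneg.2 (hs1 n))]
      calc _ ≤ (1 - s n) * (C / 4) + s n * (C / 4) :=
            add_le_add (mul_le_mul_of_nonneg_left (h1 _ (hnear n).1) (sub_nonneg.2 (hs1 n)))
              (mul_le_mul_of_nonneg_left (h1 _ (hnear n).2) (hs0 n))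
        _ = C / 4 := by ring
    linarith

private theorem solve (K : ℝ) (hK : 1 ≤ K) (b : ℤ → F →L[ℝ] F)
    (hstep : ∀ (w : ℤ → F) (C : ℝ), (∀ n, ‖w n‖ ≤ C) →
      ∃ y e : ℤ → F, (∀ n, ‖y n‖ ≤ K * C) ∧ (∀ n, ‖e n‖ ≤ C / 2) ∧
        ∀ n, y (n + 1) = b n (y n) + (w n - e n))
    (w : ℤ → F) (C : ℝ) (hw : ∀ n, ‖w n‖ ≤ C) :
    ∃ z : ℤ → F, (∀ n, ‖z n‖ ≤ 8 * K * C) ∧ ∀ n, z (n + 1) = b n (z n) + w n := by
  have hK0 : 0 < K := by linarith
  have hC0 : 0 ≤ C := (norm_nonneg _).trans (hw 0)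
  choose! Y E hY hE hYE using hstep
  obtain ⟨W, hW0, hWs⟩ : ∃ W : ℕ → ℤ → F, W 0 = w ∧ ∀ k, W (k + 1) = E (W k) (C * (1 / 2) ^ k) :=
    ⟨fun k => Nat.rec w (fun k v => E v (C * (1 / 2) ^ k)) k, rfl, fun _ => rfl⟩
  have hWb : ∀ k n, ‖W k n‖ ≤ C * (1 / 2) ^ k := by
    intro k
    induction k with
    | zero =>
      intro n
      rw [hW0, pow_zero, mul_one]
      exact hw n
    | succ k ih =>
      intro n
      rw [hWs, pow_succ]
      refine (hE (W k) _ ih n).trans (le_of_eq ?_)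
      ring
  have hYb : ∀ k n, ‖Y (W k) (C * (1 / 2) ^ k) n‖ ≤ K * C * (1 / 2) ^ k := by
    intro k n
    refine (hY (W k) _ (hWb k) n).trans (le_of_eq ?_)
    ring
  have hgeo : ∀ D : ℝ, HasSum (fun k : ℕ => D * (1 / 2 : ℝ) ^ k) (D * 2) := fun D =>
    hasSum_geometric_two.mul_left D
  have hYs : ∀ n, Summable fun k => Y (W k) (C * (1 / 2) ^ k) n := fun n =>
    Summable.of_norm_bounded (hgeo (K * C)).summable fun k => hYb k n
  have hWsum : ∀ n, Summable fun k => W k n := fun n =>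
    Summable.of_norm_bounded (hgeo C).summable fun k => hWb k n
  refine ⟨fun n => ∑' k, Y (W k) (C * (1 / 2) ^ k) n, fun n => ?_, fun n => ?_⟩
  · refine (tsum_of_norm_bounded (hgeo (K * C)) fun k => hYb k n).trans ?_
    have : 0 ≤ K * C := by positivity
    linarith
  · have h1 : HasSum (fun k => Y (W k) (C * (1 / 2) ^ k) (n + 1))
        (∑' k, Y (W k) (C * (1 / 2) ^ k) (n + 1)) := (hYs (n + 1)).hasSum
    have h2 : HasSum (fun k => b n (Y (W k) (C * (1 / 2) ^ k) n))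
        (b n (∑' k, Y (W k) (C * (1 / 2) ^ k) n)) := (b n).hasSum (hYs n).hasSum
    have h3 : HasSum (fun k => W k n - W (k + 1) n)
        ((∑' k, W k n) - ∑' k, W (k + 1) n) :=
      (hWsum n).hasSum.sub ((summable_nat_add_iff 1).2 (hWsum n)).hasSum
    have h4 : (∑' k, W k n) - ∑' k, W (k + 1) n = w n := by
      rw [(hWsum n).tsum_eq_zero_add, hW0]
      abel
    rw [h4] at h3
    have h5 := h2.add h3
    refine h1.unique (h5.congr_fun ?_)
    intro k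
    rw [hWs k]
    exact hYE (W k) _ (hWb k) n

omit [NormedSpace ℝ F] [CompleteSpace F] in
private theorem zero_of_half (z : ℤ → F) (S : ℝ) (hS : ∀ n, ‖z n‖ ≤ S)
    (h : ∀ S' : ℝ, (∀ n, ‖z n‖ ≤ S') → ∀ n, ‖z n‖ ≤ S' / 2) : ∀ n, z n = 0 := by
  have h1 : ∀ k : ℕ, ∀ n, ‖z n‖ ≤ S * (1 / 2) ^ k := by
    intro k
    induction k with
    | zero =>
      intro n
      rw [pow_zero, mul_one]
      exact hS n
    | succ k ih =>
      intro n
      refine (h _ ih n).trans (le_of_eq ?_)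
      rw [pow_succ]
      ring
  intro n
  have h2 : Filter.Tendsto (fun k : ℕ => S * (1 / 2 : ℝ) ^ k) Filter.atTop (nhds (S * 0)) :=
    (tendsto_pow_atTop_nhds_zero_of_lt_one (by norm_num) (by norm_num)).const_mul S
  rw [mul_zero] at h2
  have h3 : ‖z n‖ ≤ 0 := ge_of_tendsto' h2 fun k => h1 k n
  exact norm_le_zero_iff.1 h3

theorem patch (K : ℝ) (hK : 1 ≤ K) :
    ∃ (l : ℕ) (η : ℝ), 0 < η ∧ ∀ b : ℤ → F →L[ℝ] F,
      (∀ n0 : ℤ, ∃ a : ℤ → F →L[ℝ] F, Inv K a ∧ ∀ n : ℤ, |n - n0| ≤ l → ‖b n - a n‖ ≤ η) →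
        Inv (8 * K) b := by
  obtain ⟨L, hL⟩ := exists_nat_ge (8 * K)
  have hK0 : 0 < K := by linarith
  refine ⟨L, 1 / (4 * K), by positivity, fun b hb => ?_⟩
  intro w C hw
  obtain ⟨z, hz1, hz2⟩ := solve K hK b (fun w C hw => step K hK L hL b hb w C hw) w C hw
  refine ⟨z, hz1, hz2, fun z' hz' he' => ?_⟩
  obtain ⟨C', hC'⟩ := hz'
  have h1 := zero_of_half (fun n => z' n - z n) (C' + 8 * K * C)
    (fun n => (norm_sub_le _ _).trans (add_le_add (hC' n) (hz1 n)))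
    (fun S' hS' => half K hK L hL b hb (fun n => z' n - z n) (fun n => by
      simp only [hz2, he', map_sub]
      abel) S' hS')
  funext n
  exact sub_eq_zero.1 (h1 n)

theorem inv_pert (K : ℝ) (hK : 1 ≤ K) :
    ∃ η : ℝ, 0 < η ∧ ∀ a b : ℤ → F →L[ℝ] F, Inv K a → (∀ n, ‖b n - a n‖ ≤ η) → Inv (8 * K) b := by
  obtain ⟨l, η, hη, h⟩ := patch (F := F) K hK
  exact ⟨η, hη, fun a b ha hab => h b fun _ => ⟨a, ha, fun n _ => hab n⟩⟩

end Pool.Agent.Helper55.OS
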