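import Pool.Agent.Helper55.OS.HypOp
import Pool.Agent.Helper55.OS.Patch

/-!
# OS-H4 NearL: pseudo-orbits near an operator-hyperbolic set

STATEMENT. Λ compact, f-invariant, OpHyp A f Λ K, K ≥ 1. There is ε > 0 such that for every sequence y in M with all y n at distance < ε from Λ and
dist (f (y n)) (y (n+1)) < ε for all n, and charts c n in C with y n in reg (c n) (rad (c n)): Inv (8K) along y (with a_n = Aop f (c n) (c (n+1)) (y n)).

PROOF. Let l, η be the constants of `patch K`. Let δ1 be the constant of `Aop_cont` for η, δ2 the constant of `near_reg`. By uniform continuity of f, f⁻¹ and induction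
there is ε > 0 (ε ≤ δ2/2, ...) such that: if p in Λ, dist (y n0) p < ε and dist (f (y n)) (y (n+1)) < ε for all n, then dist (y n) ((f^(n-n0)) p) < min δ1 δ2 for all
|n - n0| ≤ l + 1 (forward: dist (y (n+1)) (f q) ≤ dist (y(n+1)) (f (y n)) + dist (f (y n)) (f q); backward: y n = f⁻¹ (f (y n)), dist (f (y n)) (y (n+1)) < ε, so
dist (y n) (f⁻¹ q') ≤ ω_{f⁻¹}(dist (f (y n)) q') ≤ ω_{f⁻¹}(ε + dist (y (n+1)) q')). Given n0 take p in Λ with dist (y n0) p < ε, the true orbit y'_n = (f^(n-n0)) p in Λ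
(Λ is invariant under f and f⁻¹) and the charts c'_n = c n for |n - n0| ≤ l + 1, c'_n = A.ch (y'_n) otherwise: admissible (near_reg: y n in reg (c n) (rad) and dist small
so y'_n in reg (c n) (2 rad); reg c (rad) is contained in reg c (2 rad)). By OpHyp the sequence a'_n = Aop f (c'_n) (c'_{n+1}) (y'_n) has Inv K, and for |n - n0| ≤ l:
‖a_n - a'_n‖ ≤ η by `Aop_cont` (both y'_n, y n in reg (c n) (2 rad), f (y'_n) = y'_{n+1} in reg (c (n+1)) (2 rad); use Aop_cont with y := y'_n, y' := y n). `patch` gives Inv (8K).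
-/

open Set Topology Manifold ContDiff

namespace Pool.Agent.Helper55.OS

/-- the diffeomorphism as a permutation -/
private def nlF {d : ℕ} {M : Type} [MetricSpace M] [ChartedSpace (E d) M] (f : Dif d M) :
    Equiv.Perm M := f.toEquiv

private theorem nl_shadow {d : ℕ} {M : Type} [MetricSpace M] [ChartedSpace (E d) M]
    [CompactSpace M] (f : Dif d M) (L : ℕ) : ∀ δ : ℝ, 0 < δ → ∃ ε : ℝ, 0 < ε ∧
      ∀ y : ℤ → M, (∀ n, dist (f (y n)) (y (n + 1)) < ε) → ∀ (n0 : ℤ) (p : M),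
        dist (y n0) p < ε → ∀ k : ℕ, k ≤ L →
          dist (y (n0 + k)) ((nlF f ^ (k : ℤ)) p) < δ ∧
          dist (y (n0 - k)) ((nlF f ^ (-(k : ℤ))) p) < δ := by
  induction L with
  | zero =>
    intro δ hδ
    refine ⟨δ, hδ, fun y _ n0 p hp k hk => ?_⟩
    obtain rfl : k = 0 := by omega
    simpa using hp
  | succ L ih =>
    intro δ hδ
    have uc1 : UniformContinuous (f : M → M) :=
      CompactSpace.uniformContinuous_of_continuous f.continuous
    have uc2 : UniformContinuous (f.symm : M → M) :=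
      CompactSpace.uniformContinuous_of_continuous f.symm.continuous
    obtain ⟨δ', hδ', h1⟩ := Metric.uniformContinuous_iff.1 uc1 (δ / 2) (half_pos hδ)
    obtain ⟨δ'', hδ'', h2⟩ := Metric.uniformContinuous_iff.1 uc2 δ hδ
    obtain ⟨ε0, hε0, h3⟩ := ih (min δ (min δ' (δ'' / 2)))
      (lt_min hδ (lt_min hδ' (half_pos hδ'')))
    refine ⟨min ε0 (min (δ / 2) (δ'' / 2)), lt_min hε0 (lt_min (half_pos hδ) (half_pos hδ'')), ?_⟩
    intro y hy n0 p hp k hk
    have h4 := h3 y (fun n => (hy n).trans_le (min_le_left _ _)) n0 p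
      (hp.trans_le (min_le_left _ _))
    rcases Nat.lt_or_ge k (L + 1) with hkL | hkL
    · obtain ⟨h5, h6⟩ := h4 k (by omega)
      exact ⟨h5.trans_le (min_le_left _ _), h6.trans_le (min_le_left _ _)⟩
    · obtain rfl : k = L + 1 := by omega
      obtain ⟨h5, h6⟩ := h4 L le_rfl
      have h5' := h5.trans_le ((min_le_right _ _).trans (min_le_left _ _))
      have h6' := h6.trans_le ((min_le_right _ _).trans (min_le_right _ _))
      constructor
      · have e1 : n0 + ((L + 1 : ℕ) : ℤ) = n0 + (L : ℤ) + 1 := by push_cast; ring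
        have e2 : (nlF f ^ ((L + 1 : ℕ) : ℤ)) p = f ((nlF f ^ (L : ℤ)) p) := by
          have e3 : ((L + 1 : ℕ) : ℤ) = 1 + (L : ℤ) := by push_cast; ring
          rw [e3, zpow_add, zpow_one, Equiv.Perm.mul_apply]
          rfl
        rw [e1, e2]
        have h7 := h1 h5'
        have h8 := (hy (n0 + L)).trans_le ((min_le_right _ _).trans (min_le_left _ _))
        have h9 := dist_triangle (y (n0 + (L : ℤ) + 1)) (f (y (n0 + L)))
          (f ((nlF f ^ (L : ℤ)) p))
        rw [dist_comm] at h8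
        linarith
      · have e1 : n0 - ((L + 1 : ℕ) : ℤ) = n0 - (L : ℤ) - 1 := by push_cast; ring
        have e2 : (nlF f ^ (-((L + 1 : ℕ) : ℤ))) p = f.symm ((nlF f ^ (-(L : ℤ))) p) := by
          have e3 : (-((L + 1 : ℕ) : ℤ)) = -1 + (-(L : ℤ)) := by push_cast; ring
          rw [e3, zpow_add, zpow_neg_one, Equiv.Perm.mul_apply]
          rfl
        rw [e1, e2]
        have h8 := (hy (n0 - L - 1)).trans_le ((min_le_right _ _).trans (min_le_right _ _))
        rw [sub_add_cancel] at h8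
        have h9 := dist_triangle (f (y (n0 - L - 1))) (y (n0 - L)) ((nlF f ^ (-(L : ℤ))) p)
        have h10 : dist (f (y (n0 - L - 1))) ((nlF f ^ (-(L : ℤ))) p) < δ'' := by linarith
        have h11 := h2 h10
        have h12 : f.symm (f (y (n0 - L - 1))) = y (n0 - L - 1) := f.symm_apply_apply _
        rwa [h12] at h11

theorem near_inv {d : ℕ} {M : Type} [MetricSpace M] [ChartedSpace (E d) M] [IsManifold (𝓡 d) ∞ M]
    [CompactSpace M] (A : Atl d M) (f : Dif d M) (Λ : Set M) (hi : ∀ x, x ∈ Λ ↔ f x ∈ Λ) (K : ℝ)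
    (hK : 1 ≤ K) (h : OpHyp A f Λ K) :
    ∃ ε : ℝ, 0 < ε ∧ ∀ y c : ℤ → M, (∀ n, ∃ p ∈ Λ, dist (y n) p < ε) →
      (∀ n, dist (f (y n)) (y (n + 1)) < ε) →
      (∀ n, c n ∈ A.C ∧ y n ∈ reg d (c n) (A.rad (c n))) →
        Inv (8 * K) (fun n => Aop f (c n) (c (n + 1)) (y n)) := by
  classical
  obtain ⟨l, η, hη, hpatch⟩ := patch (F := E d) K hK
  obtain ⟨δ1, hδ1, hcont⟩ := Aop_cont A f η hη
  obtain ⟨δ2, hδ2, hnear⟩ := near_reg A
  obtain ⟨ε, hε, hsh⟩ := nl_shadow f (l + 1) (min δ1 δ2) (lt_min hδ1 hδ2)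
  refine ⟨ε, hε, fun y c hyΛ hyf hc => hpatch _ fun n0 => ?_⟩
  have hmono : ∀ (x : M), x ∈ A.C → ∀ z ∈ reg d x (A.rad x), z ∈ reg d x (2 * A.rad x) :=
    fun x hx z hz => ⟨hz.1, Metric.closedBall_subset_closedBall (by nlinarith [A.pos x hx]) hz.2⟩
  obtain ⟨p, hpΛ, hp⟩ := hyΛ n0
  have hclose : ∀ n : ℤ, |n - n0| ≤ (l : ℤ) + 1 →
      dist (y n) ((nlF f ^ (n - n0)) p) < min δ1 δ2 := by
    intro n hn
    rcases le_total 0 (n - n0) with h0 | h0
    · obtain ⟨k, hk⟩ := Int.eq_ofNat_of_zero_le h0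
      rw [abs_of_nonneg h0] at hn
      have h1 := (hsh y hyf n0 p hp k (by omega)).1
      have e : n = n0 + (k : ℤ) := by omega
      rw [hk, e]
      exact h1
    · obtain ⟨k, hk⟩ := Int.eq_ofNat_of_zero_le (neg_nonneg.2 h0)
      rw [abs_of_nonpos h0] at hn
      have h1 := (hsh y hyf n0 p hp k (by omega)).2
      have e : n - n0 = -(k : ℤ) := by omega
      have e' : n = n0 - (k : ℤ) := by omega
      rw [e, e']
      exact h1
  have hmem : ∀ k : ℤ, (nlF f ^ k) p ∈ Λ := by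
    intro k
    induction k using Int.induction_on with
    | zero => simpa using hpΛ
    | succ i ih =>
      rw [add_comm, zpow_add, zpow_one, Equiv.Perm.mul_apply]
      exact (hi _).1 ih
    | pred i ih =>
      rw [sub_eq_add_neg, add_comm, zpow_add, zpow_neg_one, Equiv.Perm.mul_apply]
      refine (hi _).2 ?_
      have h1 : f ((nlF f)⁻¹ ((nlF f ^ (-(i : ℤ))) p)) = (nlF f ^ (-(i : ℤ))) p :=
        f.apply_symm_apply _
      rw [h1]
      exact ih
  have horb : ∀ n : ℤ, (nlF f ^ (n + 1 - n0)) p = f ((nlF f ^ (n - n0)) p) := by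
    intro n
    have e : n + 1 - n0 = 1 + (n - n0) := by ring
    rw [e, zpow_add, zpow_one, Equiv.Perm.mul_apply]
    rfl
  set c' : ℤ → M := fun n => if |n - n0| ≤ (l : ℤ) + 1 then c n
    else A.ch ((nlF f ^ (n - n0)) p) with hc'
  have hadm : Adm A (fun n => (nlF f ^ (n - n0)) p) c' := by
    intro n
    by_cases hn : |n - n0| ≤ (l : ℤ) + 1
    · simp only [hc', if_pos hn]
      refine ⟨(hc n).1, hnear (c n) (hc n).1 (y n) (hc n).2 _ ?_⟩
      rw [dist_comm]
      exact (hclose n hn).trans_le (min_le_right _ _)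
    · simp only [hc', if_neg hn]
      exact ⟨A.ch_mem _, hmono _ (A.ch_mem _) _ (A.ch_reg _)⟩
  refine ⟨fun n => Aop f (c' n) (c' (n + 1)) ((nlF f ^ (n - n0)) p),
    h (fun n => (nlF f ^ (n - n0)) p) c' (fun n => hmem _) horb hadm, ?_⟩
  intro n hn
  have hn1 : |n - n0| ≤ (l : ℤ) + 1 := by omega
  have hn2 : |n + 1 - n0| ≤ (l : ℤ) + 1 := by
    have e : n + 1 - n0 = (n - n0) + 1 := by ring
    rw [e]
    refine (abs_add_le _ _).trans ?_
    rw [abs_one]
    omega
  have e1 : c' n = c n := by simp only [hc', if_pos hn1]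
  have e2 : c' (n + 1) = c (n + 1) := by simp only [hc', if_pos hn2]
  have h1 := hadm n
  have h2 := hadm (n + 1)
  simp only [e1] at h1
  simp only [e2] at h2
  rw [horb] at h2
  rw [norm_sub_rev]
  simp only [e1, e2]
  refine hcont (c n) (hc n).1 (c (n + 1)) (hc (n + 1)).1 _ h1.2 (y n)
    (hmono _ (hc n).1 _ (hc n).2) h2.2 ?_
  rw [dist_comm]
  exact (hclose n hn1).trans_le (min_le_left _ _)

end Pool.Agent.Helper55.OS
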