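import Pool.Agent.Helper55.OS.NRa

/-!
# OS-C9 Persist: periodic points of NR f persist in NR g

PROOF. Λ = NR f. Let f^[m] q = q, q in Λ. y n := (f^n) q is in Λ with jumps 0; by Shad f g there is a unique g-orbit z within ρ of y (unique within ρ0); j q := z 0. z (· + m) is also a g-orbit within ρ of y (y is m-periodic): so
g^[m] (j q) = j q. INJECTIVE: j q = j q' implies dist ((f^n) q) ((f^n) q') ≤ 2 ρ ≤ ρ0 for all n, so q = q' by the uniqueness in Shad f f (y = orbit of q).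
IN NR g: `nr_perfect`: q' ≠ q in Λ, periodic, dist q' q < ε. Let m' ≥ 1 be a period of q', l := m * m', u i := (f^i) q, v i := (f^i) q'. `Loops f Λ ε ρ l u v` holds (cf. OS-C6; sep: otherwise dist (u i) (v i) ≤ 2 ρ ≤ ρ0 for all i and q = q'
by the uniqueness in Shad f f). `fs` for f, g gives Z with (g^n) (Z (fun _ => false)) within ρ of u: Z (fun _ => false) = j q (uniqueness for g). `fs_nr` (for g): it is in NR g.
(j is defined by choice; outside the set let j = id.)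
-/

open Set Topology

namespace Pool.Agent.Helper55.OS

private theorem ps_orbit {X : Type} [MetricSpace X] (f : X ≃ₜ X) {ε : ℝ} (hε : 0 < ε) {q : X}
    (hq : q ∈ NR (f : X → X)) :
    (∀ n : ℤ, ∃ p ∈ NR (f : X → X), dist ((f ^ n) q) p < ε) ∧
      ∀ n : ℤ, dist (f ((f ^ n) q)) ((f ^ (n + 1)) q) < ε := by
  refine ⟨fun n => ⟨(f ^ n) q, nr_zpow f hq n, by rw [dist_self]; exact hε⟩, fun n => ?_⟩
  have h : (f ^ (n + 1)) q = f ((f ^ n) q) := orb_zpow f q n
  rw [h, dist_self]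
  exact hε

private theorem ps_uniq {X : Type} [MetricSpace X] (f g : X ≃ₜ X) {ε ρ ρ0 : ℝ} (hε : 0 < ε)
    (hfg : Shad (f : X → X) (g : X → X) (NR (f : X → X)) ε ρ ρ0) {q : X}
    (hq : q ∈ NR (f : X → X)) {p p' : X} (h : ∀ n : ℤ, dist ((g ^ n) p) ((f ^ n) q) ≤ ρ0)
    (h' : ∀ n : ℤ, dist ((g ^ n) p') ((f ^ n) q) ≤ ρ0) : p = p' := by
  obtain ⟨h1, h2⟩ := ps_orbit f hε hq
  have h3 := (hfg (fun n => (f ^ n) q) h1 h2).2 (fun n => (g ^ n) p) (fun n => (g ^ n) p')
    (orb_zpow g p) (orb_zpow g p') h h'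
  have h4 := congrFun h3 0
  simpa using h4

private theorem ps_per {X : Type} [TopologicalSpace X] (f : X ≃ₜ X) {m : ℕ} {q : X}
    (h : (f : X → X)^[m] q = q) (n : ℤ) : (f ^ (n + (m : ℤ))) q = (f ^ n) q := by
  rw [zpow_add_app, zpow_iter, h]

theorem persist {X : Type} [MetricSpace X] [CompactSpace X] (f g : X ≃ₜ X) (ε ρ ρ0 : ℝ)
    (hε : 0 < ε) (hρ : 0 ≤ ρ) (h2 : 2 * ρ ≤ ρ0)
    (hff : Shad (f : X → X) (f : X → X) (NR (f : X → X)) ε ρ ρ0)
    (hfg : Shad (f : X → X) (g : X → X) (NR (f : X → X)) ε ρ ρ0)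
    (hd : SP (f : X → X) (NR (f : X → X))) (m : ℕ) (hm : 1 ≤ m) :
    ∃ j : X → X, InjOn j {q | (f : X → X)^[m] q = q ∧ q ∈ NR (f : X → X)} ∧
      ∀ q, (f : X → X)^[m] q = q → q ∈ NR (f : X → X) →
        (g : X → X)^[m] (j q) = j q ∧ j q ∈ NR (g : X → X) ∧
        ∀ n : ℤ, dist ((g ^ n) (j q)) ((f ^ n) q) ≤ ρ := by
  have hρ0 : ρ ≤ ρ0 := by linarith
  have h00 : 0 ≤ ρ0 := by linarith
  have hex : ∀ q : X, ∃ p : X, q ∈ NR (f : X → X) →
      ∀ n : ℤ, dist ((g ^ n) p) ((f ^ n) q) ≤ ρ := by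
    intro q
    by_cases hq : q ∈ NR (f : X → X)
    · obtain ⟨h3, h4⟩ := ps_orbit f hε hq
      obtain ⟨z, hz, hz'⟩ := (hfg (fun n => (f ^ n) q) h3 h4).1
      refine ⟨z 0, fun _ n => ?_⟩
      rw [← hz.eq]
      exact hz' n
    · exact ⟨q, fun h => absurd h hq⟩
  choose j hj using hex
  have hU2 : ∀ q ∈ NR (f : X → X), ∀ q' : X,
      (∀ n : ℤ, dist ((f ^ n) q') ((f ^ n) q) ≤ ρ0) → q' = q := by
    intro q hq q' h
    exact ps_uniq f f hε hff hq h (fun n => by rw [dist_self]; exact h00)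
  refine ⟨j, ?_, ?_⟩
  · rintro q ⟨-, hq⟩ q' ⟨-, hq'⟩ hqq
    refine hU2 q' hq' q fun n => ?_
    have h3 := hj q hq n
    have h4 := hj q' hq' n
    rw [hqq] at h3
    have h5 := dist_triangle_left ((f ^ n) q) ((f ^ n) q') ((g ^ n) (j q'))
    linarith
  · intro q hqm hq
    refine ⟨?_, ?_, hj q hq⟩
    · refine ps_uniq f g hε hfg hq (fun n => ?_) (fun n => (hj q hq n).trans hρ0)
      rw [← zpow_iter, ← zpow_add_app, ← ps_per f hqm n]
      exact (hj q hq (n + m)).trans hρ0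
    · obtain ⟨q', hq', hper, hne, hdist⟩ := nr_perfect f hd q hq ε hε
      obtain ⟨m', hm', hper'⟩ := hper
      have hm1 : 1 ≤ m * m' := Nat.mul_pos hm hm'
      have hpq : (f : X → X)^[m * m'] q = q :=
        Function.IsPeriodicPt.mul_const (hqm : Function.IsPeriodicPt (f : X → X) m q) m'
      have hpq' : (f : X → X)^[m * m'] q' = q' :=
        Function.IsPeriodicPt.const_mul hper' m
      obtain ⟨a1, a2⟩ := ps_orbit f hε hq
      obtain ⟨b1, b2⟩ := ps_orbit f hε hq'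
      have e0 : ∀ x : X, f ((f ^ (-1 : ℤ)) x) = x := fun x => by
        have h3 : (f ^ ((-1 : ℤ) + 1)) x = f ((f ^ (-1 : ℤ)) x) := orb_zpow f x (-1)
        rw [← h3, neg_add_cancel, zpow_zero_app]
      have hL : Loops (f : X → X) (NR (f : X → X)) ε ρ (m * m') (fun n => (f ^ n) q)
          (fun n => (f ^ n) q') := by
        refine ⟨hm1, a1, b1, ps_per f hpq, ps_per f hpq', a2, b2, ?_, ?_, ?_⟩
        · rw [e0, zpow_zero_app, dist_comm]; exact hdist
        · rw [e0, zpow_zero_app]; exact hdist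
        · by_contra hcon
          push Not at hcon
          refine hne (hU2 q hq q' fun n => ?_)
          rw [dist_comm]
          exact (hcon n).trans h2
      obtain ⟨Z, hc, hi, he, ht⟩ := fs (f : X → X) g (NR (f : X → X)) ε ρ ρ0 hρ0 hfg (m * m')
        _ _ hL
      have h6 := (fs_nr g (m * m') hm1 Z hc hi he).1 (fun _ => false)
      have h7 : Z (fun _ => false) = j q := by
        refine ps_uniq f g hε hfg hq (fun n => ?_) (fun n => (hj q hq n).trans hρ0)
        have h8 := ht (fun _ => false) n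
        rw [if_neg (by simp)] at h8
        exact h8.trans hρ0
      rw [← h7]
      exact h6

end Pool.Agent.Helper55.OS
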