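import Pool.Agent.Helper55.OS.CycleHom
import Pool.Agent.Helper55.OS.HomOp
import Pool.Agent.Helper55.OS.Horse
import Pool.Agent.Helper55.OS.Conj
import Pool.Agent.Helper55.OS.GoodAll
import Pool.Agent.Helper55.OS.Persist
import Pool.Agent.Helper55.OS.ZeroMain

/-!
# OS-N11 NoCycle: no cycles of vertices for an Omega-stable diffeomorphism with hyperbolic NR

PROOF (assembly). Suppose Cycle f.toHomeomorph (VVf f). GoodV for all vertices: `goodV_all`; `cycleHom` (with `vdis`, `vrec`): p, x0 with p in ⋃₀ VVf, x0 not in ⋃₀ VVf. NR f ⊆ ⋃₀ VVf (`cc_cover` with SP f (NR f) from `sp_of_opHyp`), NR f closed: σ > 0 with ball x0 σ disjoint from NR f.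
`shadow` for NR f: ρ0; ρ := min (ρ0/2) (σ/4); ε, 𝒰2 with Shad f g (NR f) ε ρ ρ0 for g in 𝒰2 (in particular g = f). 𝒰1 from `conj_count`. 𝒰 := 𝒰1 ∩ 𝒰2 (smoothTop-open: `@IsOpen.inter _ (smoothTop d M)`), r := σ/4. `cycleHom`: g in 𝒰, W, x.
hP for p: K1, OpHyp A f (orb f p) K1; `opHyp_congr` (g = f on the open complement of W): OpHyp A g (orb f p) K1; orb g p = orb f p and p periodic for g (g = f on orb f p, iterate). `homOp`: g' in 𝒰, K'. orb g' p = orb f p; p periodic for g'. (g'^n) x = (g^n) x: Fwd, Bwd for g'.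
The set Λ' = orb g' p ∪ range ((g'^n) x) satisfies y ∈ Λ' ↔ g' y ∈ Λ' (`orb_iff`; shift of n), so SP g' Λ' (`sp_of_opHyp`). `horse` with r = σ/4: m ≥ 1, q with g'^[m] q = q, q in NR g', dist q x ≤ σ/4, so dist q x0 < σ/2.
`persist` for f, g': j injective from S = {f^[m] q = q, q in NR f} into S' = {g'^[m] q = q, q in NR g'} with dist (j q1) q1 ≤ ρ ≤ σ/4 (n = 0), q1 in NR f has dist q1 x0 ≥ σ: so j q1 ≠ q. S is finite (`finite_fix_of_omegaStable`), and S' ≃ S (`conj_count`):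
S' is finite with the same cardinality, but j(S) ∪ {q} ⊆ S' has |S| + 1 elements: contradiction (Set.ncard).
-/

open Set Topology Manifold ContDiff

namespace Pool.Agent.Helper55.OS

theorem iter_congr {X : Type} (f g : X → X) (p : X) (h : ∀ y ∈ orb f p, g y = f y) (j : ℕ) :
    g^[j] p = f^[j] p := by
  induction j with
  | zero => rfl
  | succ k ih =>
    rw [Function.iterate_succ_apply', Function.iterate_succ_apply', ih]
    exact h _ ⟨k, rfl⟩

theorem orb_congr {X : Type} (f g : X → X) (p : X) (h : ∀ y ∈ orb f p, g y = f y) :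
    orb g p = orb f p := by
  ext y
  constructor
  · rintro ⟨j, rfl⟩; exact ⟨j, iter_congr f g p h j⟩
  · rintro ⟨j, rfl⟩; exact ⟨j, (iter_congr f g p h j).symm⟩

theorem per_congr {X : Type} (f g : X → X) (p : X) (h : ∀ y ∈ orb f p, g y = f y)
    (hp : p ∈ Function.periodicPts f) : p ∈ Function.periodicPts g := by
  obtain ⟨n, hn, hpn⟩ := hp
  refine ⟨n, hn, ?_⟩
  show g^[n] p = p
  rw [iter_congr f g p h n]
  exact hpn

theorem fwd_congr {X : Type} [TopologicalSpace X] (f g : X ≃ₜ X) (x : X) (V : Set X)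
    (h : ∀ n : ℤ, (g ^ n) x = (f ^ n) x) (hF : Fwd f x V) : Fwd g x V := by
  intro W hW hVW
  obtain ⟨N, hN⟩ := hF W hW hVW
  exact ⟨N, fun n hn => by rw [h]; exact hN n hn⟩

theorem bwd_congr {X : Type} [TopologicalSpace X] (f g : X ≃ₜ X) (x : X) (V : Set X)
    (h : ∀ n : ℤ, (g ^ n) x = (f ^ n) x) (hF : Bwd f x V) : Bwd g x V := by
  intro W hW hVW
  obtain ⟨N, hN⟩ := hF W hW hVW
  exact ⟨N, fun n hn => by rw [h]; exact hN n hn⟩

/-- Counting: an injection that misses a point. -/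
theorem count_contra {X : Type} (S S' : Set X) (hS : S.Finite) (he : Nonempty (S ≃ S'))
    (j : X → X) (hj : InjOn j S) (hm : ∀ q ∈ S, j q ∈ S') (q : X) (hq : q ∈ S')
    (hne : ∀ q1 ∈ S, j q1 ≠ q) : False := by
  obtain ⟨e⟩ := he
  have hfin : S'.Finite := by
    have : Finite S := hS
    exact Finite.of_equiv S e
  have h1 : S.ncard = S'.ncard := by
    rw [← Nat.card_coe_set_eq, ← Nat.card_coe_set_eq]
    exact Nat.card_congr e
  have h2 : (j '' S).ncard = S.ncard := ncard_image_of_injOn hj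
  have h3 : j '' S ⊆ S' \ {q} := by
    rintro _ ⟨a, ha, rfl⟩
    exact ⟨hm a ha, hne a ha⟩
  have h4 : (j '' S).ncard ≤ (S' \ {q}).ncard := ncard_le_ncard h3 (hfin.subset diff_subset)
  have h5 : (S' \ {q}).ncard < S'.ncard := ncard_diff_singleton_lt_of_mem hq hfin
  omega

theorem noCycle {d : ℕ} {M : Type} [MetricSpace M] [ChartedSpace (E d) M]
    [IsManifold (𝓡 d) ∞ M] [CompactSpace M] (A : Atl d M) (ρ : Metric d M) (f : Dif d M)
    (hs : OmegaStable f) (K : ℝ) (hK : 1 ≤ K) (hN : OpHyp A f (NR (f : M → M)) K)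
    (hP : ∀ p ∈ Function.periodicPts (f : M → M), ∃ K' : ℝ, 1 ≤ K' ∧
      OpHyp A f (orb (f : M → M) p) K') :
    ¬ Cycle f.toHomeomorph (VVf (f : M → M)) := by
  intro hcyc
  have hi : ∀ x, x ∈ NR (f : M → M) ↔ f x ∈ NR (f : M → M) := fun x => nr_iff f.toHomeomorph x
  have hsp : SP (f : M → M) (NR (f : M → M)) := sp_of_opHyp A f _ hi K hK hN
  have hG := goodV_all A f K hK hN hP
  obtain ⟨p, x0, hp, hpV, hx0, hper⟩ := cycleHom f (VVf (f : M → M)) hG (vdis f)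
    (fun x hx => by
      obtain ⟨V, hV, hxV⟩ := vrec A f K hK hN x hx
      exact ⟨V, hV, hxV⟩) hcyc
  have hx0N : x0 ∉ NR (f : M → M) := fun h => by
    obtain ⟨V, hV, hxV⟩ := cc_cover f.toHomeomorph hsp h
    exact hx0 ⟨V, Or.inl hV, hxV⟩
  obtain ⟨σ, hσ, hball⟩ : ∃ σ : ℝ, 0 < σ ∧ ∀ q ∈ NR (f : M → M), σ ≤ dist q x0 := by
    have h1 : (NR (f : M → M))ᶜ ∈ 𝓝 x0 := isClosed_closure.isOpen_compl.mem_nhds hx0N
    obtain ⟨σ, hσ, h⟩ := Metric.mem_nhds_iff.1 h1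
    refine ⟨σ, hσ, fun q hq => ?_⟩
    by_contra hlt
    exact h (Metric.mem_ball.2 (not_le.1 hlt)) hq
  obtain ⟨ρ0, hρ0, hsh⟩ := shadow A f (NR (f : M → M)) hi K hK hN
  obtain ⟨r1, hr1, hr1a, hr1b⟩ : ∃ r1 : ℝ, 0 < r1 ∧ 2 * r1 ≤ ρ0 ∧ r1 ≤ σ / 4 :=
    ⟨min (ρ0 / 2) (σ / 4), by positivity, by linarith [min_le_left (ρ0 / 2) (σ / 4)],
      min_le_right _ _⟩
  obtain ⟨ε, 𝒰2, hε, h𝒰2, hf2, hS⟩ := hsh r1 hr1
  obtain ⟨𝒰1, h𝒰1, hf1, hcount⟩ := conj_count f hs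
  have h𝒰 : IsOpen[smoothTop d M] (𝒰1 ∩ 𝒰2) := by
    letI := smoothTop d M
    exact IsOpen.inter h𝒰1 h𝒰2
  obtain ⟨g, hg𝒰, W, hW, hWd, hgf, x, hxx0, hxO, hF, hB⟩ :=
    hper (𝒰1 ∩ 𝒰2) h𝒰 ⟨hf1, hf2⟩ (σ / 4) (by positivity)
  obtain ⟨K1, hK1, hO1⟩ := hP p hp
  have hWy : ∀ y ∈ orb (f : M → M) p, y ∉ W := fun y hy h => Set.disjoint_left.1 hWd h hy
  have heq : ∀ y ∈ orb (f : M → M) p, (f : M → M) =ᶠ[𝓝 y] (g : M → M) := by
    intro y hy
    have h1 : Wᶜ ∈ 𝓝 y := hW.isOpen_compl.mem_nhds (hWy y hy)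
    filter_upwards [h1] with z hz
    exact (hgf z hz).symm
  have hO2 : OpHyp A g (orb (f : M → M) p) K1 := opHyp_congr A f g _ K1 heq hO1
  have hgo : ∀ y ∈ orb (f : M → M) p, (g : M → M) y = (f : M → M) y :=
    fun y hy => hgf y (hWy y hy)
  have horbg : orb (g : M → M) p = orb (f : M → M) p := orb_congr _ _ p hgo
  have hpg : p ∈ Function.periodicPts (g : M → M) := per_congr _ _ p hgo hp
  rw [← horbg] at hO2 hF hB hxO
  obtain ⟨g', hg'𝒰, hg'O, hg'x, K', hK', hO'⟩ :=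
    homOp A ρ g p hpg K1 hK1 hO2 x hxO hF hB (𝒰1 ∩ 𝒰2) h𝒰 hg𝒰
  have horbg' : orb (g' : M → M) p = orb (g : M → M) p := orb_congr _ _ p hg'O
  have hpg' : p ∈ Function.periodicPts (g' : M → M) := per_congr _ _ p hg'O hpg
  have hF' : Fwd g'.toHomeomorph x (orb (g : M → M) p) := fwd_congr _ _ x _ hg'x hF
  have hB' : Bwd g'.toHomeomorph x (orb (g : M → M) p) := bwd_congr _ _ x _ hg'x hB
  rw [← horbg'] at hF' hB' hO' hxO
  have hi' : ∀ y, y ∈ orb (g' : M → M) p ∪ range (fun n : ℤ => (g'.toHomeomorph ^ n) x) ↔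
      g' y ∈ orb (g' : M → M) p ∪ range (fun n : ℤ => (g'.toHomeomorph ^ n) x) := by
    intro y
    constructor
    · rintro (h | ⟨n, rfl⟩)
      · exact Or.inl ((orb_iff g'.toHomeomorph hpg' y).1 h)
      · exact Or.inr ⟨n + 1, orb_zpow g'.toHomeomorph x n⟩
    · rintro (h | ⟨n, hn⟩)
      · exact Or.inl ((orb_iff g'.toHomeomorph hpg' y).2 h)
      · refine Or.inr ⟨n - 1, ?_⟩
        have h1 := orb_zpow g'.toHomeomorph x (n - 1)
        simp only [sub_add_cancel] at h1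
        apply g'.toHomeomorph.injective
        show g'.toHomeomorph ((g'.toHomeomorph ^ (n - 1)) x) = g'.toHomeomorph y
        rw [← h1]
        exact hn
  have hsp' := sp_of_opHyp A g' _ hi' K' hK' hO'
  obtain ⟨m, hm, q, hq1, hq2, hq3⟩ := horse g'.toHomeomorph p hpg' x hxO hF' hB' hsp' (σ / 4)
    (by positivity)
  obtain ⟨j, hj1, hj2⟩ := persist f.toHomeomorph g'.toHomeomorph ε r1 ρ0 hε hr1.le hr1a
    (hS f hf2) (hS g' hg'𝒰.2) hsp m hm
  have hfinS : {q | (f : M → M)^[m] q = q ∧ q ∈ NR (f : M → M)}.Finite :=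
    (finite_fix_of_omegaStable f hs m hm).subset (fun q hq => hq.1)
  refine count_contra _ _ hfinS ((hcount g' hg'𝒰.1 m hm).1) j hj1
    (fun q1 hq1 => ⟨(hj2 q1 hq1.1 hq1.2).1, (hj2 q1 hq1.1 hq1.2).2.1⟩) q ⟨hq1, hq2⟩ ?_
  intro q1 hq1' hjq
  have h1 := (hj2 q1 hq1'.1 hq1'.2).2.2 0
  rw [zpow_zero_app, zpow_zero_app, hjq] at h1
  have h2 := hball q1 hq1'.2
  have h3 : dist q1 x0 ≤ dist q1 q + dist q x + dist x x0 := dist_triangle4 _ _ _ _
  rw [dist_comm q1 q] at h3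
  linarith

end Pool.Agent.Helper55.OS
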