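import Pool.Agent.Helper55.OS.P9NoCycle
import Pool.Agent.Helper55.OS.HypUnion
import Pool.Agent.Helper55.OS.TL

/-!
# OS-P10 P10Final: Omega-stable, all nonperiodic recurrent orbit closures hyperbolic: Axiom A (assembly)
-/

open Set Topology Manifold ContDiff

namespace Pool.Agent.Helper55.OS

theorem axiomA_of_pointwise {d : ℕ} {M : Type} [MetricSpace M] [ChartedSpace (E d) M]
    [IsManifold (𝓡 d) ∞ M] [CompactSpace M] (ρ : Metric d M) (f : Dif d M)
    (hs : OmegaStable f)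
    (hh : ∀ x, Rec (f : M → M) x → x ∉ Function.periodicPts (f : M → M) →
      HypOn ρ f (closure (orb (f : M → M) x))) : AxiomA ρ f := by
  obtain ⟨A⟩ := exists_atl (d := d) (M := M)
  have hTh : ∀ S ∈ Tr (f : M → M), HypOn ρ f S := by
    rintro S ⟨x, hx, hxp, rfl⟩
    exact hh x hx hxp
  have hR : ∀ S ∈ Tr (f : M → M), ∃ K : ℝ, 1 ≤ K ∧ OpHyp A f S K := by
    intro S hS
    exact opHyp_of_hypOn A ρ f S (tr_basic f.toHomeomorph S hS).1.isClosed (hTh S hS)
  have hPh : ∀ p ∈ Function.periodicPts (f : M → M), HypOn ρ f (orb (f : M → M) p) := by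
    rintro p ⟨n, hn, hp⟩
    exact hypOn_of_omegaStable ρ f hs n hn p hp
  have hP : ∀ p ∈ Function.periodicPts (f : M → M), ∃ K' : ℝ, 1 ≤ K' ∧
      OpHyp A f (orb (f : M → M) p) K' := by
    intro p hp
    exact opHyp_of_hypOn A ρ f (orb (f : M → M) p)
      (orb_finite f.toHomeomorph hp).isClosed (hPh p hp)
  have hnc := noCycle2 A ρ f hs hR hP
  have hv := vert2 A f hR hP hnc
  obtain ⟨hfin, hom⟩ := TL hv
  have hSP : ∀ V ∈ Tr (f : M → M), SP (f : M → M) V := by
    intro V hV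
    have h1 := tr_sp A f hR V hV V hV
    rwa [Set.union_self] at h1
  have hsub : ∀ V ∈ VV2 (f : M → M), V ⊆ omega (f : M → M) := by
    rintro V (hV | ⟨p, hp, -, rfl⟩)
    · exact (tr_nr f.toHomeomorph V hV.1).trans (nr_omega _)
    · intro y hy
      exact rec_omega _ (per_rec _ (orb_per f.toHomeomorph hp hy))
  have e : omega (f : M → M) = ⋃₀ VV2 (f : M → M) := by
    apply Subset.antisymm
    · intro x hx
      obtain ⟨V, hV, hxV⟩ := hom x hx
      exact ⟨V, hV, hxV⟩
    · rintro x ⟨V, hV, hxV⟩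
      exact hsub V hV hxV
  refine ⟨?_, ?_⟩
  · intro x hx
    obtain ⟨V, hV, hxV⟩ := hom x hx
    rcases hV with hV | ⟨p, hp, -, rfl⟩
    · rw [Metric.mem_closure_iff]
      intro ε hε
      obtain ⟨q, -, hq, hd⟩ := mc_dense f.toHomeomorph V hV (hSP V hV.1) x hxV ε hε
      exact ⟨q, hq, by rw [dist_comm]; exact hd⟩
    · exact subset_closure (orb_per f.toHomeomorph hp hxV)
  · rw [e]
    refine hypOn_finite_union ρ f _ hfin (vdis2 A f hR) ?_ ?_
    · intro V hV x hx
      have hg := (hv.inv V hV)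
      rw [← hg]
      exact ⟨x, hx, rfl⟩
    · rintro V (hV | ⟨p, hp, -, rfl⟩)
      · exact hTh V hV.1
      · exact hPh p hp

theorem pointwise_of_axiomA {d : ℕ} {M : Type} [MetricSpace M] [CompactSpace M]
    [ChartedSpace (E d) M] [IsManifold (𝓡 d) ∞ M] (ρ : Metric d M) (f : Dif d M)
    (h : AxiomA ρ f) (x : M) (hx : Rec (f : M → M) x)
    (hxp : x ∉ Function.periodicPts (f : M → M)) : HypOn ρ f (closure (orb (f : M → M) x)) :=
  hypOn_mono ρ f _ _ isClosed_closure
    ((tr_nr f.toHomeomorph _ ⟨x, hx, hxp, rfl⟩).trans (nr_omega _)) h.2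

end Pool.Agent.Helper55.OS
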