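import Pool.Agent.Helper55.OS.TopDefs

/-!
# OS-T4 TopTrans: a topologically transitive homeomorphism has a recurrent point with dense orbit (Baire)

STATEMENT. S nonempty, closed, invariant in the compact metric space X; for all open A, B that meet S there is n ≥ 1 with
f^n (A cap S) cap B nonempty. Then there is y in S with Rec f y and S in the closure of its forward orbit.

PROOF. S is compact metrizable, so a Baire space (as a subtype) with a countable basis (B_i) of nonempty relatively open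
sets. G_i := {y in S : some (f^n) y, n ≥ 1, is in B_i} is relatively open and dense in S: for A open with A cap S nonempty the
hypothesis for (A, B_i) gives a point of A cap S whose n-th image is in B_i, n ≥ 1. So the intersection of the G_i is
nonempty (dense); a point y of it visits every relatively open nonempty subset of S at some time n ≥ 1: Rec f y
(every neighbourhood U of y contains some B_i) and S is in the closure of {(f^n) y : n ≥ 1}.
-/

open Set Topology

namespace Pool.Agent.Helper55.OS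

private theorem zpow_nat_apply {X : Type} [TopologicalSpace X] (f : X ≃ₜ X) (n : ℕ) (y : X) :
    (f ^ (n : ℤ)) y = (f : X → X)^[n] y := by
  rw [zpow_natCast]
  induction n generalizing y with
  | zero => rfl
  | succ n ih =>
    rw [pow_succ, Function.iterate_succ_apply]
    exact ih (f y)

theorem exists_dense_rec {X : Type} [MetricSpace X] [CompactSpace X] (f : X ≃ₜ X) (S : Set X)
    (hS : IsClosed S) (hi : f '' S = S) (hne : S.Nonempty)
    (ht : ∀ A B : Set X, IsOpen A → IsOpen B → (A ∩ S).Nonempty → (B ∩ S).Nonempty →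
      ∃ n : ℕ, 1 ≤ n ∧ ∃ y ∈ A ∩ S, (f ^ (n : ℤ)) y ∈ B) :
    ∃ y ∈ S, Rec f y ∧ S ⊆ closure {z | ∃ n : ℕ, z = (f ^ (n : ℤ)) y} := by
  have _ := hi
  haveI : CompactSpace S := isCompact_iff_compactSpace.1 hS.isCompact
  haveI : Nonempty S := hne.to_subtype
  set 𝓑 : Set (Set X) := {B | B ∈ TopologicalSpace.countableBasis X ∧ (B ∩ S).Nonempty} with h𝓑
  have hbas := TopologicalSpace.isBasis_countableBasis X
  have hcount : 𝓑.Countable :=
    (TopologicalSpace.countable_countableBasis X).mono fun B hB => hB.1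
  let G : Set X → Set S := fun B => {y | ∃ n : ℕ, 1 ≤ n ∧ (f ^ (n : ℤ)) (y : X) ∈ B}
  have hGo : ∀ B ∈ 𝓑, IsOpen (G B) := by
    intro B hB
    have h1 : G B = ⋃ n : ℕ, ⋃ _ : 1 ≤ n, (fun y : S => (f ^ (n : ℤ)) (y : X)) ⁻¹' B := by
      ext y
      simp only [G, mem_setOf_eq, mem_iUnion, mem_preimage, exists_prop]
    rw [h1]
    refine isOpen_iUnion fun n => isOpen_iUnion fun _ => ?_
    exact (hbas.isOpen hB.1).preimage ((f ^ (n : ℤ)).continuous.comp continuous_subtype_val)
  have hGd : ∀ B ∈ 𝓑, Dense (G B) := by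
    intro B hB
    rw [dense_iff_inter_open]
    intro V hV hVne
    obtain ⟨A, hA, rfl⟩ := isOpen_induced_iff.1 hV
    obtain ⟨v, hv⟩ := hVne
    obtain ⟨n, hn, y, hy, hyB⟩ := ht A B hA (hbas.isOpen hB.1) ⟨v, hv, v.2⟩ hB.2
    exact ⟨⟨y, hy.2⟩, hy.1, n, hn, hyB⟩
  have hdense : Dense (⋂ B ∈ 𝓑, G B) := dense_biInter_of_isOpen hGo hcount hGd
  obtain ⟨y, hy⟩ := hdense.nonempty
  have hvis : ∀ z ∈ S, ∀ U : Set X, U ∈ 𝓝 z → ∃ n : ℕ, 1 ≤ n ∧ (f ^ (n : ℤ)) (y : X) ∈ U := by
    intro z hz U hU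
    obtain ⟨B, hB, hzB, hBU⟩ := hbas.mem_nhds_iff.1 hU
    have h1 : y ∈ G B := by
      have h2 := mem_iInter₂.1 hy B ⟨hB, z, hzB, hz⟩
      exact h2
    obtain ⟨n, hn, hnB⟩ := h1
    exact ⟨n, hn, hBU hnB⟩
  refine ⟨y, y.2, ?_, ?_⟩
  · intro U hU
    obtain ⟨n, hn, hnU⟩ := hvis y y.2 U hU
    refine ⟨n, hn, ?_⟩
    rw [zpow_nat_apply] at hnU
    exact hnU
  · intro z hz
    rw [mem_closure_iff_nhds]
    intro U hU
    obtain ⟨n, _, hnU⟩ := hvis z hz U hU
    exact ⟨_, hnU, n, rfl⟩

end Pool.Agent.Helper55.OS
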