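import Pool.Agent.Helper55.OS.ShadDefs
import Pool.Agent.Helper55.OS.TopTrans

/-!
# OS-P1 P1Trans: the orbits that shadow pseudo-orbits of a chain transitive set form a transitive set

PROOF. S := the set of the z for which there is y as in the statement (y n in V, jumps ≤ ε/2, dist ((g^n) z) (y n) ≤ ρ). Such a y satisfies the hypotheses of `Shad` (dist (y n) (y n) = 0 < ε, ε/2 < ε), so for every sequence y in V with jumps ≤ ε/2 there is
z with the orbit within ρ, unique within ρ0 (ρ ≤ ρ0; orbits of g are z n = (g^n) (z 0), `Orb.eq`, `orb_zpow`).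
(1) S nonempty: for x in V the orbit y n = (f^n) x is in V with jumps 0 (hVi).
(2) S closed: S is the projection of the closed set {(z, y) : ...} of the compact space X × (ℤ → X) (Tychonoff; V closed, all conditions closed), so compact.
(3) g '' S = S: shift y.
(4) Transitivity (hypothesis of `exists_dense_rec`). Let a in A ∩ S with sequence y^a, b in B ∩ S with y^b, A, B open.
 CLAIM: there is N such that every z in S that has a sequence y^z (as in the statement) with y^z n = y^a n for |n| ≤ N is in A. Otherwise z_N not in A for all N; a cluster point z of (z_N) (X compact) is not in A and satisfies dist ((g^n) z) (y^a n) ≤ ρ for all n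
 (continuity of g^n; y^{z_N} n = y^a n for N ≥ |n|), so z = a by uniqueness: contradiction. Take N for a and A and also for b and B.
 Let c_0 = y^a N, ..., c_k = y^b (-N), k ≥ 1, be an (ε/2)-chain in V. y n := y^a n for n ≤ N, y (N + j) := c_j for 0 ≤ j ≤ k, y n := y^b (n - (2N + k)) for n ≥ N + k: consistent, in V, jumps ≤ ε/2. z := point whose orbit is within ρ of y: z in S, z in A by the claim,
 (g^(2N+k)) z in S has the sequence y (· + 2N + k), equal to y^b on [-N, N]: in B. 2N + k ≥ 1.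
(5) `exists_dense_rec`: w in S with Rec g w and S ⊆ closure of the forward orbit (`zpow_iter`); closure (orb g w) ⊆ S as S is closed and invariant.
-/

open Set Topology

namespace Pool.Agent.Helper55.OS

private theorem mem_zpow {X : Type} [TopologicalSpace X] (f : X ≃ₜ X) (V : Set X)
    (hVi : (f : X → X) '' V = V) (x : X) (hx : x ∈ V) (n : ℤ) : (f ^ n) x ∈ V := by
  have hf : ∀ p, f p ∈ V ↔ p ∈ V := by
    intro p
    constructor
    · intro h
      rw [← hVi] at h
      obtain ⟨q, hq, e⟩ := h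
      rwa [← f.injective e]
    · intro h
      rw [← hVi]
      exact ⟨p, h, rfl⟩
  induction n using Int.induction_on with
  | zero => rwa [zpow_zero_app]
  | succ i hi =>
    have := orb_zpow f x (i : ℤ)
    simp only at this
    rw [this]
    exact (hf _).2 hi
  | pred i hi =>
    have h2 := orb_zpow f x (-(i : ℤ) - 1)
    simp only [sub_add_cancel] at h2
    rw [h2] at hi
    exact (hf _).1 hi

private theorem cont_zpow {X : Type} [TopologicalSpace X] (g : X ≃ₜ X) (n : ℤ) :
    Continuous (fun z => (g ^ n) z) := (g ^ n).continuous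

/-- the localisation claim -/
private theorem loc_claim {X : Type} [MetricSpace X] [CompactSpace X] (g : X ≃ₜ X) (y : ℤ → X) (ρ : ℝ)
    (a : X) (hu : ∀ z, (∀ n : ℤ, dist ((g ^ n) z) (y n) ≤ ρ) → z = a) (A : Set X) (hA : IsOpen A)
    (ha : a ∈ A) :
    ∃ N : ℕ, ∀ z, (∀ n : ℤ, |n| ≤ (N : ℤ) → dist ((g ^ n) z) (y n) ≤ ρ) → z ∈ A := by
  by_contra hcon
  push Not at hcon
  let K : ℕ → Set X := fun N => {z | z ∉ A ∧ ∀ n : ℤ, |n| ≤ (N : ℤ) → dist ((g ^ n) z) (y n) ≤ ρ}
  have hKc : ∀ N, IsClosed (K N) := by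
    intro N
    have : K N = Aᶜ ∩ ⋂ n : ℤ, ⋂ _ : |n| ≤ (N : ℤ), {z | dist ((g ^ n) z) (y n) ≤ ρ} := by
      ext z
      simp only [K, mem_setOf_eq, mem_inter_iff, mem_compl_iff, mem_iInter]
    rw [this]
    refine hA.isClosed_compl.inter (isClosed_iInter fun n => isClosed_iInter fun _ => ?_)
    exact isClosed_le ((cont_zpow g n).dist continuous_const) continuous_const
  have hne : (⋂ N, K N).Nonempty := by
    apply IsCompact.nonempty_iInter_of_sequence_nonempty_isCompact_isClosed K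
    · intro N z hz
      refine ⟨hz.1, fun n hn => hz.2 n (hn.trans ?_)⟩
      push_cast
      omega
    · intro N
      obtain ⟨z, hz, hzA⟩ := hcon N
      exact ⟨z, hzA, hz⟩
    · exact (hKc 0).isCompact
    · exact hKc
  obtain ⟨z, hz⟩ := hne
  rw [mem_iInter] at hz
  have h1 : z = a := by
    apply hu
    intro n
    apply (hz n.natAbs).2 n
    rw [Int.natCast_natAbs]
  exact (hz 0).1 (h1 ▸ ha)

theorem trans_shadow {X : Type} [MetricSpace X] [CompactSpace X] (f g : X ≃ₜ X) (V : Set X)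
    (hVc : IsCompact V) (hVne : V.Nonempty) (hVi : (f : X → X) '' V = V)
    (hch : ∀ η : ℝ, 0 < η → ∀ x ∈ V, ∀ y ∈ V, Chain (f : X → X) V η x y)
    (ε ρ ρ0 : ℝ) (hε : 0 < ε) (hρ : ρ ≤ ρ0)
    (hS : Shad (f : X → X) (g : X → X) V ε ρ ρ0) :
    ∃ w, Rec (g : X → X) w ∧ ∀ z, z ∈ closure (orb (g : X → X) w) ↔
      ∃ y : ℤ → X, (∀ n, y n ∈ V) ∧ (∀ n, dist (f (y n)) (y (n + 1)) ≤ ε / 2) ∧
        ∀ n : ℤ, dist ((g ^ n) z) (y n) ≤ ρ := by
  have hex : ∀ y : ℤ → X, (∀ n, y n ∈ V) → (∀ n, dist (f (y n)) (y (n + 1)) ≤ ε / 2) →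
      ∃ z, ∀ n : ℤ, dist ((g ^ n) z) (y n) ≤ ρ := by
    intro y h1 h2
    obtain ⟨⟨z, hz, hd⟩, _⟩ := hS y (fun n => ⟨y n, h1 n, by rw [dist_self]; exact hε⟩)
      (fun n => (h2 n).trans_lt (by linarith))
    refine ⟨z 0, fun n => ?_⟩
    rw [← hz.eq n]
    exact hd n
  have huniq : ∀ y : ℤ → X, (∀ n, y n ∈ V) → (∀ n, dist (f (y n)) (y (n + 1)) ≤ ε / 2) →
      ∀ z z', (∀ n : ℤ, dist ((g ^ n) z) (y n) ≤ ρ) → (∀ n : ℤ, dist ((g ^ n) z') (y n) ≤ ρ) →
        z = z' := by
    intro y h1 h2 z z' hz hz'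
    obtain ⟨_, hu⟩ := hS y (fun n => ⟨y n, h1 n, by rw [dist_self]; exact hε⟩)
      (fun n => (h2 n).trans_lt (by linarith))
    have := hu (fun n => (g ^ n) z) (fun n => (g ^ n) z') (orb_zpow g z) (orb_zpow g z')
      (fun n => (hz n).trans hρ) (fun n => (hz' n).trans hρ)
    have h0 := congrFun this 0
    simpa only [zpow_zero_app] using h0
  set S : Set X := {z | ∃ y : ℤ → X, (∀ n, y n ∈ V) ∧
    (∀ n, dist (f (y n)) (y (n + 1)) ≤ ε / 2) ∧ ∀ n : ℤ, dist ((g ^ n) z) (y n) ≤ ρ} with hSdef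
  -- nonempty
  have hSne : S.Nonempty := by
    obtain ⟨x, hx⟩ := hVne
    have h1 : ∀ n : ℤ, (f ^ n) x ∈ V := mem_zpow f V hVi x hx
    have h2 : ∀ n : ℤ, dist (f ((f ^ n) x)) ((f ^ (n + 1)) x) ≤ ε / 2 := by
      intro n
      have := orb_zpow f x n
      simp only at this
      rw [this, dist_self]
      linarith
    obtain ⟨z, hz⟩ := hex (fun n => (f ^ n) x) h1 h2
    exact ⟨z, _, h1, h2, hz⟩
  -- closed
  have hScl : IsClosed S := by
    have h1 : IsClosed {p : X × (ℤ → X) | (∀ n, p.2 n ∈ V) ∧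
        (∀ n, dist (f (p.2 n)) (p.2 (n + 1)) ≤ ε / 2) ∧
          ∀ n : ℤ, dist ((g ^ n) p.1) (p.2 n) ≤ ρ} := by
      have e : {p : X × (ℤ → X) | (∀ n, p.2 n ∈ V) ∧
        (∀ n, dist (f (p.2 n)) (p.2 (n + 1)) ≤ ε / 2) ∧
          ∀ n : ℤ, dist ((g ^ n) p.1) (p.2 n) ≤ ρ} =
          (⋂ n : ℤ, {p | p.2 n ∈ V}) ∩ ((⋂ n : ℤ, {p | dist (f (p.2 n)) (p.2 (n + 1)) ≤ ε / 2}) ∩
            ⋂ n : ℤ, {p | dist ((g ^ n) p.1) (p.2 n) ≤ ρ}) := by
        ext p
        simp only [mem_setOf_eq, mem_inter_iff, mem_iInter]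
      rw [e]
      have hc : ∀ n : ℤ, Continuous (fun p : X × (ℤ → X) => p.2 n) := fun n =>
        (continuous_apply n).comp continuous_snd
      refine (isClosed_iInter fun n => ?_).inter ((isClosed_iInter fun n => ?_).inter
        (isClosed_iInter fun n => ?_))
      · exact hVc.isClosed.preimage (hc n)
      · exact isClosed_le ((f.continuous.comp (hc n)).dist (hc (n + 1))) continuous_const
      · exact isClosed_le (((cont_zpow g n).comp continuous_fst).dist (hc n)) continuous_const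
    have h2 : S = Prod.fst '' {p : X × (ℤ → X) | (∀ n, p.2 n ∈ V) ∧
        (∀ n, dist (f (p.2 n)) (p.2 (n + 1)) ≤ ε / 2) ∧
          ∀ n : ℤ, dist ((g ^ n) p.1) (p.2 n) ≤ ρ} := by
      ext z
      constructor
      · rintro ⟨y, h⟩
        exact ⟨(z, y), h, rfl⟩
      · rintro ⟨p, hp, rfl⟩
        exact ⟨p.2, hp⟩
    rw [h2]
    exact (h1.isCompact.image continuous_fst).isClosed
  -- shifts
  have hshift : ∀ (m : ℤ) (z : X), z ∈ S → (g ^ m) z ∈ S := by
    rintro m z ⟨y, h1, h2, h3⟩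
    refine ⟨fun n => y (n + m), fun n => h1 _, fun n => ?_, fun n => ?_⟩
    · have := h2 (n + m)
      rw [add_right_comm] at this
      exact this
    · rw [← zpow_add_app]
      exact h3 _
  have hSi : (g : X → X) '' S = S := by
    ext z
    constructor
    · rintro ⟨x, hx, rfl⟩
      have := hshift 1 x hx
      rwa [zpow_one_app] at this
    · intro hz
      refine ⟨(g ^ (-1 : ℤ)) z, hshift (-1) z hz, ?_⟩
      rw [← zpow_one_app g, ← zpow_add_app]
      norm_num
  -- transitivity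
  have htr : ∀ A B : Set X, IsOpen A → IsOpen B → (A ∩ S).Nonempty → (B ∩ S).Nonempty →
      ∃ n : ℕ, 1 ≤ n ∧ ∃ y ∈ A ∩ S, (g ^ (n : ℤ)) y ∈ B := by
    rintro A B hA hB ⟨a, haA, ya, ha1, ha2, ha3⟩ ⟨b, hbB, yb, hb1, hb2, hb3⟩
    obtain ⟨Na, hNa⟩ := loc_claim g ya ρ a (fun z hz => huniq ya ha1 ha2 z a hz ha3) A hA haA
    obtain ⟨Nb, hNb⟩ := loc_claim g yb ρ b (fun z hz => huniq yb hb1 hb2 z b hz hb3) B hB hbB
    obtain ⟨k, c, hk, hc0, hck, hcV, hcj⟩ := hch (ε / 2) (by linarith) (ya Na) (ha1 _)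
      (yb (-(Nb : ℤ))) (hb1 _)
    let y : ℤ → X := fun n => if n ≤ (Na : ℤ) then ya n else
      if n ≤ (Na : ℤ) + k then c (n - Na).toNat else yb (n - (Na + k + Nb))
    have hyV : ∀ n, y n ∈ V := by
      intro n
      simp only [y]
      split_ifs with h1 h2
      · exact ha1 n
      · exact hcV _ (by omega)
      · exact hb1 _
    have hya : ∀ n : ℤ, n ≤ (Na : ℤ) → y n = ya n := by
      intro n hn
      simp only [y]
      rw [if_pos hn]
    have hyc : ∀ j : ℕ, j ≤ k → y (Na + j) = c j := by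
      intro j hj
      rcases Nat.eq_zero_or_pos j with h0 | h0
      · subst h0
        rw [hya _ (by simp), hc0]
        simp
      · simp only [y]
        rw [if_neg (by omega), if_pos (by omega)]
        congr 1
        omega
    have hyb : ∀ n : ℤ, (Na : ℤ) + k ≤ n → y n = yb (n - (Na + k + Nb)) := by
      intro n hn
      rcases eq_or_lt_of_le hn with h0 | h0
      · rw [← h0, hyc k le_rfl, hck]
        congr 1
        ring
      · simp only [y]
        rw [if_neg (by omega), if_neg (by omega)]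
    have hyj : ∀ n, dist (f (y n)) (y (n + 1)) ≤ ε / 2 := by
      intro n
      rcases lt_or_ge n (Na : ℤ) with h1 | h1
      · rw [hya n h1.le, hya (n + 1) (by omega)]
        exact ha2 n
      · rcases lt_or_ge n ((Na : ℤ) + k) with h2 | h2
        · obtain ⟨j, hj⟩ : ∃ j : ℕ, n = Na + j := ⟨(n - Na).toNat, by omega⟩
          subst hj
          have hjk : j < k := by omega
          rw [hyc j hjk.le]
          have h3 := hyc (j + 1) hjk
          push_cast at h3
          rw [← add_assoc] at h3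
          rw [h3]
          exact (hcj j hjk).le
        · rw [hyb n h2, hyb (n + 1) (by omega)]
          have := hb2 (n - (Na + k + Nb))
          rw [show n + 1 - ((Na : ℤ) + k + Nb) = n - (Na + k + Nb) + 1 by ring]
          exact this
    obtain ⟨z, hz⟩ := hex y hyV hyj
    refine ⟨Na + k + Nb, by omega, z, ⟨?_, y, hyV, hyj, hz⟩, ?_⟩
    · apply hNa
      intro n hn
      rw [← hya n ((le_abs_self n).trans hn)]
      exact hz n
    · apply hNb
      intro n hn
      rw [← zpow_add_app]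
      have h1 := hz (n + ((Na + k + Nb : ℕ) : ℤ))
      have h2 : -(Nb : ℤ) ≤ n := (abs_le.1 hn).1
      rw [hyb (n + ((Na + k + Nb : ℕ) : ℤ)) (by push_cast; omega)] at h1
      have h3 : n + ((Na + k + Nb : ℕ) : ℤ) - ((Na : ℤ) + k + Nb) = n := by
        push_cast
        ring
      rw [h3] at h1
      exact h1
  obtain ⟨w, hwS, hrec, hcl⟩ := exists_dense_rec g S hScl hSi hSne htr
  refine ⟨w, hrec, fun z => ?_⟩
  constructor
  · intro hz
    have h1 : orb (g : X → X) w ⊆ S := by
      rintro x ⟨j, rfl⟩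
      rw [← zpow_iter]
      exact hshift _ w hwS
    exact closure_minimal h1 hScl hz
  · intro hz
    have h1 := hcl hz
    refine closure_mono ?_ h1
    rintro x ⟨n, rfl⟩
    exact ⟨n, zpow_iter g n w⟩

end Pool.Agent.Helper55.OS
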