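import Pool.Agent.Helper55.OS.NRbasic

/-!
# OS-P2 P2Clo: closures of the orbits of recurrent points

PROOFS. C := closure (orb f x).
* `clo_visit`: some f^[i] x is in (the interior of) U; f^[i] x is recurrent (`rec_zpow`, `zpow_iter`), so `rec_large` for f^[i] x gives n ≥ k with f^[n] (f^[i] x) in U: n + i ≥ k.
* `clo_image`: f '' C = closure (f '' orb f x) (homeomorphism, compact) ⊆ C. Conversely x is in closure (f '' orb f x) (Rec f x), so orb f x = {x} ∪ f '' orb f x is in this closed set. `clo_iff`, `clo_zpow` follow.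
* `clo_chain`: let a, b in C, η > 0, δ ≤ η with dist p q < δ implies dist (f p) (f q) < η. i with dist (f^[i] x) a < δ, j ≥ i + 2 with dist (f^[j] x) b < δ (`clo_visit`). Chain of length j - i: c_0 = a, c_l = f^[i+l] x (1 ≤ l ≤ j-i-1), c_(j-i) = b.
* `clo_infinite`: if f^[i] x = f^[j] x with i < j then x = f^[j-i] x (f injective), x periodic. So orb f x is infinite.
* `tr_basic`: collects. `tr_nr`: S in Tr f is in NR f: closure of points (f^n) x, recurrent and not periodic (`rec_zpow`, `per_zpow`).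
-/

open Set Topology

namespace Pool.Agent.Helper55.OS

/-- The closures of the orbits of the nonperiodic recurrent points. -/
def Tr {X : Type} [TopologicalSpace X] (f : X → X) : Set (Set X) :=
  {S | ∃ x, Rec f x ∧ x ∉ Function.periodicPts f ∧ S = closure (orb f x)}

/-- The maximal elements of `Tr f`. -/
def MC {X : Type} [TopologicalSpace X] (f : X → X) : Set (Set X) :=
  {S | S ∈ Tr f ∧ ∀ S' ∈ Tr f, S ⊆ S' → S' = S}

/-- The vertices: maximal elements of `Tr f` and the periodic orbits outside them. -/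
def VV2 {X : Type} [TopologicalSpace X] (f : X → X) : Set (Set X) :=
  MC f ∪ {S | ∃ p, p ∈ Function.periodicPts f ∧ p ∉ ⋃₀ MC f ∧ S = orb f p}

/-- The union of the elements of `Tr f` that meet `Fix f^n`. -/
def Tn {X : Type} [TopologicalSpace X] (f : X → X) (n : ℕ) : Set X :=
  ⋃₀ {S | S ∈ Tr f ∧ ∃ q ∈ S, f^[n] q = q}

variable {X : Type} [MetricSpace X] [CompactSpace X]

theorem clo_visit (f : X ≃ₜ X) {x a : X} (hx : Rec (f : X → X) x)
    (ha : a ∈ closure (orb (f : X → X) x)) (U : Set X) (hU : U ∈ 𝓝 a) (k : ℕ) :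
    ∃ n : ℕ, k ≤ n ∧ (f : X → X)^[n] x ∈ U := by
  obtain ⟨y, hy, i, rfl⟩ := mem_closure_iff.1 ha (interior U) isOpen_interior
    (mem_interior_iff_mem_nhds.2 hU)
  have h1 : Rec (f : X → X) ((f : X → X)^[i] x) := by
    rw [← zpow_iter]
    exact rec_zpow f hx i
  obtain ⟨n, hn, hn'⟩ := rec_large f h1 U (mem_interior_iff_mem_nhds.1 hy) k
  refine ⟨n + i, by omega, ?_⟩
  rw [Function.iterate_add_apply]
  exact hn'

theorem clo_image (f : X ≃ₜ X) {x : X} (hx : Rec (f : X → X) x) :
    (f : X → X) '' closure (orb (f : X → X) x) = closure (orb (f : X → X) x) := by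
  rw [f.image_closure]
  apply Set.Subset.antisymm
  · apply closure_mono
    rintro y ⟨z, ⟨j, rfl⟩, rfl⟩
    exact ⟨j + 1, (Function.iterate_succ_apply' _ _ _).symm⟩
  · apply closure_minimal _ isClosed_closure
    rintro y ⟨j, rfl⟩
    rcases j with _ | j
    · rw [mem_closure_iff_nhds]
      intro U hU
      obtain ⟨n, hn, hn'⟩ := hx U hU
      obtain ⟨m, rfl⟩ : ∃ m, n = m + 1 := ⟨n - 1, by omega⟩
      refine ⟨_, hn', (f : X → X)^[m] x, ⟨m, rfl⟩, ?_⟩
      exact (Function.iterate_succ_apply' _ _ _).symm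
    · exact subset_closure ⟨(f : X → X)^[j] x, ⟨j, rfl⟩, (Function.iterate_succ_apply' _ _ _).symm⟩

theorem clo_iff (f : X ≃ₜ X) {x : X} (hx : Rec (f : X → X) x) (z : X) :
    z ∈ closure (orb (f : X → X) x) ↔ f z ∈ closure (orb (f : X → X) x) := by
  constructor
  · intro h
    rw [← clo_image f hx]
    exact ⟨z, h, rfl⟩
  · intro h
    rw [← clo_image f hx] at h
    obtain ⟨w, hw, hw'⟩ := h
    rwa [← f.injective hw']

theorem clo_zpow (f : X ≃ₜ X) {x z : X} (hx : Rec (f : X → X) x)
    (hz : z ∈ closure (orb (f : X → X) x)) (n : ℤ) :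
    (f ^ n) z ∈ closure (orb (f : X → X) x) := by
  induction n using Int.induction_on with
  | zero => rwa [zpow_zero_app]
  | succ i hi =>
    have h1 := orb_zpow f z i
    simp only at h1
    rw [h1]
    exact (clo_iff f hx _).1 hi
  | pred i hi =>
    have h1 := orb_zpow f z (-(i : ℤ) - 1)
    simp only [sub_add_cancel] at h1
    rw [h1] at hi
    exact (clo_iff f hx _).2 hi

theorem clo_chain (f : X ≃ₜ X) {x : X} (hx : Rec (f : X → X) x) (η : ℝ) (hη : 0 < η) :
    ∀ a ∈ closure (orb (f : X → X) x), ∀ b ∈ closure (orb (f : X → X) x),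
      Chain (f : X → X) (closure (orb (f : X → X) x)) η a b := by
  intro a ha b hb
  obtain ⟨δ, hδ, hδ'⟩ := Metric.uniformContinuous_iff.1
    (CompactSpace.uniformContinuous_of_continuous f.continuous) η hη
  obtain ⟨i, -, hi⟩ := clo_visit f hx ha (Metric.ball a (min δ η))
    (Metric.ball_mem_nhds a (lt_min hδ hη)) 0
  obtain ⟨j, hj, hj'⟩ := clo_visit f hx hb (Metric.ball b (min δ η))
    (Metric.ball_mem_nhds b (lt_min hδ hη)) (i + 2)
  rw [Metric.mem_ball] at hi hj'
  have hC : ∀ m : ℕ, (f : X → X)^[m] x ∈ closure (orb (f : X → X) x) :=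
    fun m => subset_closure ⟨m, rfl⟩
  refine ⟨j - i, fun l => if l = 0 then a else if l = j - i then b else (f : X → X)^[i + l] x,
    by omega, if_pos rfl, ?_, ?_, ?_⟩
  · show (if j - i = 0 then a else if j - i = j - i then b else (f : X → X)^[i + (j - i)] x) = b
    rw [if_neg (by omega), if_pos rfl]
  · intro l _
    show (if l = 0 then a else if l = j - i then b else (f : X → X)^[i + l] x) ∈ _
    split_ifs
    · exact ha
    · exact hb
    · exact hC _
  · intro l hl
    show dist (f (if l = 0 then a else if l = j - i then b else (f : X → X)^[i + l] x))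
      (if l + 1 = 0 then a else if l + 1 = j - i then b else (f : X → X)^[i + (l + 1)] x) < η
    rw [if_neg (Nat.succ_ne_zero l)]
    by_cases h0 : l = 0
    · subst h0
      rw [if_pos rfl, if_neg (by omega), zero_add, Function.iterate_succ_apply']
      apply hδ'
      rw [dist_comm]
      exact lt_of_lt_of_le hi (min_le_left _ _)
    · rw [if_neg h0, if_neg (by omega)]
      by_cases h1 : l + 1 = j - i
      · rw [if_pos h1]
        have h2 : f ((f : X → X)^[i + l] x) = (f : X → X)^[j] x := by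
          rw [← Function.iterate_succ_apply' (f : X → X)]
          congr 1
          rw [show (i + l).succ = j by omega]
        rw [h2]
        exact lt_of_lt_of_le hj' (min_le_right _ _)
      · rw [if_neg h1, ← add_assoc, Function.iterate_succ_apply', dist_self]
        exact hη

theorem clo_infinite (f : X ≃ₜ X) {x : X} (hx : x ∉ Function.periodicPts (f : X → X)) :
    (closure (orb (f : X → X) x)).Infinite := by
  have key : ∀ i j : ℕ, i < j → (f : X → X)^[i] x ≠ (f : X → X)^[j] x := by
    intro i j hij h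
    apply hx
    refine ⟨j - i, by omega, ?_⟩
    have h1 : Function.Injective ((f : X → X)^[i]) := f.injective.iterate i
    apply h1
    rw [← Function.iterate_add_apply, show i + (j - i) = j by omega]
    exact h.symm
  refine Set.Infinite.mono subset_closure ?_
  refine Set.infinite_of_injective_forall_mem (f := fun j : ℕ => (f : X → X)^[j] x) ?_
    (fun j => ⟨j, rfl⟩)
  intro i j hij
  rcases lt_trichotomy i j with h | h | h
  · exact absurd hij (key i j h)
  · exact h
  · exact absurd hij.symm (key j i h)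

theorem tr_basic (f : X ≃ₜ X) (S : Set X) (hS : S ∈ Tr (f : X → X)) :
    IsCompact S ∧ S.Nonempty ∧ (f : X → X) '' S = S ∧ (∀ x, x ∈ S ↔ f x ∈ S) ∧
      (∀ x ∈ S, ∀ n : ℤ, (f ^ n) x ∈ S) ∧
      (∀ η : ℝ, 0 < η → ∀ x ∈ S, ∀ y ∈ S, Chain (f : X → X) S η x y) ∧ S.Infinite := by
  obtain ⟨x, hx, hxp, rfl⟩ := hS
  exact ⟨isClosed_closure.isCompact, ⟨x, subset_closure ⟨0, rfl⟩⟩, clo_image f hx,
    fun z => clo_iff f hx z, fun z hz n => clo_zpow f hx hz n,
    fun η hη a ha b hb => clo_chain f hx η hη a ha b hb, clo_infinite f hxp⟩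

theorem tr_nr (f : X ≃ₜ X) (S : Set X) (hS : S ∈ Tr (f : X → X)) : S ⊆ NR (f : X → X) := by
  obtain ⟨x, hx, hxp, rfl⟩ := hS
  apply closure_mono
  rintro y ⟨j, rfl⟩
  rw [← zpow_iter]
  exact ⟨rec_zpow f hx j, fun h => hxp ((nb_per f x j).1 h)⟩

end Pool.Agent.Helper55.OS
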