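import Pool.Agent.Helper55.OS.P1Trans
import Pool.Agent.Helper55.OS.P2Clo

/-!
# OS-P3 P3Max: maximal transitive sets

PROOFS.
* `tr_of_rec`: if Rec g w and closure (orb g w) contains an infinite set then it is in Tr g: w is not periodic (else orb g w is finite, closed: `orb_finite`).
* `tr_join`: V := S ∪ S' is compact, nonempty, invariant, chain transitive: for a in S, b in S' take c in S ∩ S' and concatenate an η-chain from a to c in S and one from c to b in S' (`tr_basic`; chains in S are chains in V). ρ0, ε from SP f V for ρ := ρ0. `trans_shadow` with g = f: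
  w; V ⊆ closure (orb f w) (for z in V the sequence y n = (f^n) z). V is infinite: `tr_of_rec`.
* `tr_le_mc` (Zorn, no hyperbolicity): order Tr f by inclusion (`zorn_subset_nonempty`). Let c be a nonempty chain in Tr f. S := closure (⋃₀ c): closed, f '' S = S, nonempty. For open A, B that meet S: they meet ⋃₀ c, so (chain) both meet one S1 = closure (orb f x) in c: `clo_visit`: f^[i] x in A, j ≥ i + 1 with
  f^[j] x in B: y := f^[i] x in A ∩ S, (f^(j-i)) y in B. `exists_dense_rec`: w in S, Rec f w, S ⊆ closure (orb f w) ⊆ S (S closed, invariant). S is infinite: `tr_of_rec`: S in Tr f, an upper bound. A maximal element of Tr f above S0 is in MC f.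
* `mc_disj`: if V ∩ V' is nonempty, `tr_join`: S'' in Tr f with V ∪ V' ⊆ S''; by maximality S'' = V and S'' = V'.
-/

open Set Topology

namespace Pool.Agent.Helper55.OS

variable {X : Type} [MetricSpace X] [CompactSpace X]

theorem tr_of_rec (g : X ≃ₜ X) {w : X} (hw : Rec (g : X → X) w) (S : Set X) (hS : S.Infinite)
    (hs : S ⊆ closure (orb (g : X → X) w)) : closure (orb (g : X → X) w) ∈ Tr (g : X → X) := by
  refine ⟨w, hw, ?_, rfl⟩
  intro hp
  have h1 := orb_finite g hp
  rw [h1.isClosed.closure_eq] at hs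
  exact hS (h1.subset hs)

private theorem chain_mono {f : X → X} {S V : Set X} {η : ℝ} {x y : X} (h : Chain f S η x y)
    (hSV : S ⊆ V) : Chain f V η x y := by
  obtain ⟨n, c, h1, h2, h3, h4, h5⟩ := h
  exact ⟨n, c, h1, h2, h3, fun i hi => hSV (h4 i hi), h5⟩

private theorem chain_trans {f : X → X} {V : Set X} {η : ℝ} {x y z : X} (h : Chain f V η x y)
    (h' : Chain f V η y z) : Chain f V η x z := by
  obtain ⟨n, c, h1, h2, h3, h4, h5⟩ := h
  obtain ⟨m, d, g1, g2, g3, g4, g5⟩ := h'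
  refine ⟨n + m, fun i => if i ≤ n then c i else d (i - n), by omega, ?_, ?_, ?_, ?_⟩
  · show (if 0 ≤ n then c 0 else d (0 - n)) = x
    rw [if_pos (Nat.zero_le _), h2]
  · show (if n + m ≤ n then c (n + m) else d (n + m - n)) = z
    rw [if_neg (by omega), Nat.add_sub_cancel_left, g3]
  · intro i hi
    show (if i ≤ n then c i else d (i - n)) ∈ V
    split_ifs with h
    · exact h4 i h
    · exact g4 _ (by omega)
  · intro i hi
    show dist (f (if i ≤ n then c i else d (i - n)))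
      (if i + 1 ≤ n then c (i + 1) else d (i + 1 - n)) < η
    by_cases h : i + 1 ≤ n
    · rw [if_pos (by omega), if_pos h]
      exact h5 i (by omega)
    · rw [if_neg h]
      by_cases h' : i ≤ n
      · have e : i = n := by omega
        subst e
        rw [if_pos le_rfl, h3, Nat.add_sub_cancel_left, ← g2]
        exact g5 0 (by omega)
      · rw [if_neg h', show i + 1 - n = (i - n) + 1 by omega]
        exact g5 _ (by omega)

theorem tr_join (f : X ≃ₜ X) (S S' : Set X) (hS : S ∈ Tr (f : X → X)) (hS' : S' ∈ Tr (f : X → X))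
    (h : SP (f : X → X) (S ∪ S')) (hne : (S ∩ S').Nonempty) :
    ∃ S'' ∈ Tr (f : X → X), S ∪ S' ⊆ S'' := by
  obtain ⟨a1, a2, a3, a4, a5, a6, a7⟩ := tr_basic f S hS
  obtain ⟨b1, b2, b3, b4, b5, b6, b7⟩ := tr_basic f S' hS'
  obtain ⟨c, hc, hc'⟩ := hne
  obtain ⟨ρ0, hρ0, hsp⟩ := h
  obtain ⟨ε, hε, hsh⟩ := hsp ρ0 hρ0
  have hch : ∀ η : ℝ, 0 < η → ∀ x ∈ S ∪ S', ∀ y ∈ S ∪ S', Chain (f : X → X) (S ∪ S') η x y := by
    intro η hη x hx y hy
    have h1 : Chain (f : X → X) (S ∪ S') η x c := by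
      rcases hx with hx | hx
      · exact chain_mono (a6 η hη x hx c hc) subset_union_left
      · exact chain_mono (b6 η hη x hx c hc') subset_union_right
    have h2 : Chain (f : X → X) (S ∪ S') η c y := by
      rcases hy with hy | hy
      · exact chain_mono (a6 η hη c hc y hy) subset_union_left
      · exact chain_mono (b6 η hη c hc' y hy) subset_union_right
    exact chain_trans h1 h2
  obtain ⟨w, hw, hwz⟩ := trans_shadow f f (S ∪ S') (a1.union b1) (a2.mono subset_union_left)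
    (by rw [image_union, a3, b3]) hch ε ρ0 ρ0 hε le_rfl hsh
  have hsub : S ∪ S' ⊆ closure (orb (f : X → X) w) := by
    intro z hz
    rw [hwz]
    refine ⟨fun n => (f ^ n) z, ?_, ?_, ?_⟩
    · intro n
      rcases hz with hz | hz
      · exact Or.inl (a5 z hz n)
      · exact Or.inr (b5 z hz n)
    · intro n
      have h1 := orb_zpow f z n
      simp only at h1
      show dist (f ((f ^ n) z)) ((f ^ (n + 1)) z) ≤ ε / 2
      rw [h1, dist_self]
      linarith
    · intro n
      show dist ((f ^ n) z) ((f ^ n) z) ≤ ρ0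
      rw [dist_self]
      exact hρ0.le
  exact ⟨_, tr_of_rec f hw (S ∪ S') (a7.mono subset_union_left) hsub, hsub⟩

theorem tr_le_mc (f : X ≃ₜ X) (S : Set X) (hS : S ∈ Tr (f : X → X)) :
    ∃ V ∈ MC (f : X → X), S ⊆ V := by
  have hz : ∀ c ⊆ Tr (f : X → X), IsChain (· ⊆ ·) c → c.Nonempty →
      ∃ ub ∈ Tr (f : X → X), ∀ s ∈ c, s ⊆ ub := by
    intro c hc hch hcne
    have hcl : IsClosed (closure (⋃₀ c)) := isClosed_closure
    obtain ⟨S1, hS1⟩ := hcne
    obtain ⟨k1, k2, k3, k4, k5, k6, k7⟩ := tr_basic f S1 (hc hS1)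
    have hsub1 : S1 ⊆ closure (⋃₀ c) := (subset_sUnion_of_mem hS1).trans subset_closure
    have him : (f : X → X) '' (⋃₀ c) = ⋃₀ c := by
      ext z
      constructor
      · rintro ⟨y, ⟨A, hA, hy⟩, rfl⟩
        exact ⟨A, hA, ((tr_basic f A (hc hA)).2.2.2.1 y).1 hy⟩
      · rintro ⟨A, hA, hy⟩
        rw [← (tr_basic f A (hc hA)).2.2.1] at hy
        obtain ⟨y, hy, rfl⟩ := hy
        exact ⟨y, ⟨A, hA, hy⟩, rfl⟩
    have hi : (f : X → X) '' closure (⋃₀ c) = closure (⋃₀ c) := by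
      rw [f.image_closure, him]
    have ht : ∀ A B : Set X, IsOpen A → IsOpen B → (A ∩ closure (⋃₀ c)).Nonempty →
        (B ∩ closure (⋃₀ c)).Nonempty →
        ∃ n : ℕ, 1 ≤ n ∧ ∃ y ∈ A ∩ closure (⋃₀ c), (f ^ (n : ℤ)) y ∈ B := by
      rintro A B hA hB ⟨a, haA, ha⟩ ⟨b, hbB, hb⟩
      obtain ⟨a', ha'A, SA, hSA, ha'⟩ := mem_closure_iff.1 ha A hA haA
      obtain ⟨b', hb'B, SB, hSB, hb'⟩ := mem_closure_iff.1 hb B hB hbB
      obtain ⟨S2, hS2, ha2, hb2⟩ : ∃ S2 ∈ c, a' ∈ S2 ∧ b' ∈ S2 := by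
        rcases hch.total hSA hSB with h | h
        · exact ⟨SB, hSB, h ha', hb'⟩
        · exact ⟨SA, hSA, ha', h hb'⟩
      obtain ⟨x, hx, hxp, e⟩ := hc hS2
      have hsub2 : S2 ⊆ closure (⋃₀ c) := (subset_sUnion_of_mem hS2).trans subset_closure
      rw [e] at ha2 hb2
      obtain ⟨i, -, hiA⟩ := clo_visit f hx ha2 A (hA.mem_nhds ha'A) 0
      obtain ⟨j, hj, hjB⟩ := clo_visit f hx hb2 B (hB.mem_nhds hb'B) (i + 1)
      refine ⟨j - i, by omega, (f : X → X)^[i] x, ⟨hiA, hsub2 ?_⟩, ?_⟩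
      · rw [e]
        exact subset_closure ⟨i, rfl⟩
      · rw [zpow_iter, ← Function.iterate_add_apply, show j - i + i = j by omega]
        exact hjB
    obtain ⟨w, hw, hrec, hsub⟩ := exists_dense_rec f (closure (⋃₀ c)) hcl hi
      (k2.mono hsub1) ht
    have e : {z | ∃ n : ℕ, z = (f ^ (n : ℤ)) w} = orb (f : X → X) w := by
      ext z
      constructor
      · rintro ⟨n, rfl⟩
        exact ⟨n, zpow_iter f n w⟩
      · rintro ⟨n, rfl⟩
        exact ⟨n, (zpow_iter f n w).symm⟩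
    rw [e] at hsub
    refine ⟨_, tr_of_rec f hrec (closure (⋃₀ c)) (k7.mono hsub1) hsub, ?_⟩
    intro s hs
    exact ((subset_sUnion_of_mem hs).trans subset_closure).trans hsub
  obtain ⟨V, hSV, hV⟩ := zorn_subset_nonempty (Tr (f : X → X)) hz S hS
  refine ⟨V, ⟨hV.1, ?_⟩, hSV⟩
  intro S' hS' hle
  exact Set.Subset.antisymm (hV.2 hS' hle) hle

theorem mc_disj (f : X ≃ₜ X)
    (h : ∀ S ∈ Tr (f : X → X), ∀ S' ∈ Tr (f : X → X), SP (f : X → X) (S ∪ S'))
    (V V' : Set X) (hV : V ∈ MC (f : X → X)) (hV' : V' ∈ MC (f : X → X)) (hne : V ≠ V') :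
    Disjoint V V' := by
  rw [Set.disjoint_iff_inter_eq_empty]
  by_contra hcon
  have hne' : (V ∩ V').Nonempty := Set.nonempty_iff_ne_empty.2 hcon
  obtain ⟨S, hS, hsub⟩ := tr_join f V V' hV.1 hV'.1 (h V hV.1 V' hV'.1) hne'
  have h1 := hV.2 S hS (subset_union_left.trans hsub)
  have h2 := hV'.2 S hS (subset_union_right.trans hsub)
  exact hne (h1.symm.trans h2)

end Pool.Agent.Helper55.OS
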