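import Pool.Agent.Helper55.OS.P3Max

/-!
# OS-P4 P4Iso: maximal transitive sets with shadowing are isolated and contain dense periodic points

PROOFS.
* `mc_po`: ρ0 from SP f V, ε from SP for ρ := ρ0. `trans_shadow` (g = f; V compact, invariant, chain transitive by `tr_basic`): w, Rec f w, closure (orb f w) = the set of points whose orbit is within ρ0 of a sequence in V with jumps ≤ ε/2. It contains V (y = orbit of z in V), V infinite, so it is in Tr f
  (`tr_of_rec`), so equal to V by maximality. Take ρ1 := ρ0, ε := ε/2.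
* `mc_iso`: ρ1, ε1 from `mc_po`. ε' > 0, ε' ≤ ρ1, ε' ≤ ε1/2, dist a b < ε' implies dist (f a) (f b) < ε1/2. W := thickening (ε'/2) V (its closure is in thickening ε' V). If (f^n) x is in closure W for all n choose y n in V with dist ((f^n) x) (y n) < ε':
  dist (f (y n)) (y (n+1)) ≤ dist (f (y n)) (f ((f^n) x)) + dist ((f^(n+1)) x) (y (n+1)) < ε1: x in V by `mc_po`.
* `mc_dense`: ρ1, ε1 from `mc_po`, ρ0 from SP f V, ρ := min of σ/2, ρ1, ρ0; ε from SP for ρ. V = closure (orb f x); j with dist (f^[j] x) a < σ/2, x' := f^[j] x (recurrent, in V); N ≥ 1 with dist (f^[N] x') x' < min ε ε1. y n := f^[n mod N] x': in V, N-periodic, jumps < min ε ε1. By Shad there is an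
  orbit z n within ρ of y, N-periodic by uniqueness (ρ ≤ ρ0); q := z 0: f^[N] q = q, dist q x' ≤ ρ ≤ σ/2, so dist q a < σ; q in V by `mc_po`.
-/

open Set Topology

namespace Pool.Agent.Helper55.OS

variable {X : Type} [MetricSpace X] [CompactSpace X]

theorem mc_po (f : X ≃ₜ X) (V : Set X) (hV : V ∈ MC (f : X → X)) (h : SP (f : X → X) V) :
    ∃ ρ1 ε : ℝ, 0 < ρ1 ∧ 0 < ε ∧ ∀ (z : X) (y : ℤ → X), (∀ n, y n ∈ V) →
      (∀ n, dist (f (y n)) (y (n + 1)) ≤ ε) → (∀ n : ℤ, dist ((f ^ n) z) (y n) ≤ ρ1) → z ∈ V := by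
  obtain ⟨ρ0, hρ0, hsp⟩ := h
  obtain ⟨ε, hε, hsh⟩ := hsp ρ0 hρ0
  obtain ⟨hc, hne, hi, hiff, hz, hch, hinf⟩ := tr_basic f V hV.1
  obtain ⟨w, hw, hwz⟩ := trans_shadow f f V hc hne hi hch ε ρ0 ρ0 hε le_rfl hsh
  have hsub : V ⊆ closure (orb (f : X → X) w) := by
    intro z hzV
    rw [hwz]
    refine ⟨fun n => (f ^ n) z, fun n => hz z hzV n, fun n => ?_, fun n => ?_⟩
    · show dist (f ((f ^ n) z)) ((f ^ (n + 1)) z) ≤ ε / 2
      have := orb_zpow f z n
      simp only at this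
      rw [this, dist_self]
      positivity
    · show dist ((f ^ n) z) ((f ^ n) z) ≤ ρ0
      rw [dist_self]
      exact hρ0.le
  have heq : closure (orb (f : X → X) w) = V := hV.2 _ (tr_of_rec f hw V hinf hsub) hsub
  refine ⟨ρ0, ε / 2, hρ0, by positivity, fun z y h1 h2 h3 => ?_⟩
  rw [← heq, hwz]
  exact ⟨y, h1, h2, h3⟩

theorem mc_iso (f : X ≃ₜ X) (V : Set X) (hV : V ∈ MC (f : X → X)) (h : SP (f : X → X) V) :
    ∃ W : Set X, IsOpen W ∧ V ⊆ W ∧ ∀ x, (∀ n : ℤ, (f ^ n) x ∈ closure W) → x ∈ V := by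
  obtain ⟨ρ1, ε1, hρ1, hε1, hpo⟩ := mc_po f V hV h
  have huc : UniformContinuous (f : X → X) :=
    CompactSpace.uniformContinuous_of_continuous f.continuous
  obtain ⟨δ, hδ, hd⟩ := Metric.uniformContinuous_iff.1 huc (ε1 / 2) (by positivity)
  obtain ⟨e, he⟩ : ∃ e, e = min δ (min ρ1 (ε1 / 2)) := ⟨_, rfl⟩
  have he0 : 0 < e := by rw [he]; positivity
  have he1 : e ≤ δ := by rw [he]; exact min_le_left _ _
  have he2 : e ≤ ρ1 := by rw [he]; exact (min_le_right _ _).trans (min_le_left _ _)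
  have he3 : e ≤ ε1 / 2 := by rw [he]; exact (min_le_right _ _).trans (min_le_right _ _)
  refine ⟨Metric.thickening (e / 2) V, Metric.isOpen_thickening,
    Metric.self_subset_thickening (by positivity) V, fun x hx => ?_⟩
  have hy : ∀ n : ℤ, ∃ y ∈ V, dist ((f ^ n) x) y < e := by
    intro n
    have h1 := Metric.closure_thickening_subset_cthickening (e / 2) V (hx n)
    have h2 := Metric.cthickening_subset_thickening' he0 (by linarith) V h1
    exact Metric.mem_thickening_iff.1 h2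
  choose y hyV hyd using hy
  refine hpo x y hyV (fun n => ?_) (fun n => (hyd n).le.trans he2)
  have h1 : dist (f (y n)) (f ((f ^ n) x)) < ε1 / 2 := by
    apply hd
    rw [dist_comm]
    exact (hyd n).trans_le he1
  have h2 : f ((f ^ n) x) = (f ^ (n + 1)) x := (orb_zpow f x n).symm
  have h3 := hyd (n + 1)
  rw [← h2] at h3
  have h4 := dist_triangle (f (y n)) (f ((f ^ n) x)) (y (n + 1))
  linarith

theorem mc_dense (f : X ≃ₜ X) (V : Set X) (hV : V ∈ MC (f : X → X)) (h : SP (f : X → X) V) :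
    ∀ a ∈ V, ∀ σ : ℝ, 0 < σ → ∃ q ∈ V, q ∈ Function.periodicPts (f : X → X) ∧ dist q a < σ := by
  intro a ha σ hσ
  obtain ⟨ρ1, ε1, hρ1, hε1, hpo⟩ := mc_po f V hV h
  obtain ⟨ρ0, hρ0, hsp⟩ := h
  obtain ⟨ρ, hρ⟩ : ∃ ρ, ρ = min (σ / 2) (min ρ1 ρ0) := ⟨_, rfl⟩
  have hρp : 0 < ρ := by rw [hρ]; positivity
  have hρa : ρ ≤ σ / 2 := by rw [hρ]; exact min_le_left _ _
  have hρb : ρ ≤ ρ1 := by rw [hρ]; exact (min_le_right _ _).trans (min_le_left _ _)
  have hρc : ρ ≤ ρ0 := by rw [hρ]; exact (min_le_right _ _).trans (min_le_right _ _)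
  obtain ⟨ε, hε, hsh⟩ := hsp ρ hρp
  obtain ⟨x, hx, hxp, hVx⟩ := hV.1
  have haC : a ∈ closure (orb (f : X → X) x) := by rw [← hVx]; exact ha
  obtain ⟨j, _, hj⟩ := clo_visit f hx haC (Metric.ball a (σ / 2))
    (Metric.ball_mem_nhds a (by positivity)) 0
  obtain ⟨x', hx'⟩ : ∃ x', x' = (f : X → X)^[j] x := ⟨_, rfl⟩
  rw [← hx', Metric.mem_ball] at hj
  have hrec : Rec (f : X → X) x' := by
    rw [hx', ← zpow_iter]
    exact rec_zpow f hx j
  obtain ⟨N, hN, hNd⟩ := hrec (Metric.ball x' (min ε ε1)) (Metric.ball_mem_nhds x' (by positivity))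
  rw [Metric.mem_ball] at hNd
  have hVm : ∀ i : ℕ, (f : X → X)^[i] x' ∈ V := by
    intro i
    rw [hVx, hx', ← Function.iterate_add_apply]
    exact subset_closure ⟨i + j, rfl⟩
  obtain ⟨y, hy⟩ : ∃ y : ℤ → X, y = fun n : ℤ => (f : X → X)^[(n % (N : ℤ)).toNat] x' := ⟨_, rfl⟩
  have hyV : ∀ n, y n ∈ V := by
    intro n
    rw [hy]
    exact hVm _
  have hN0 : (0 : ℤ) < N := by exact_mod_cast hN
  have hjump : ∀ n, dist (f (y n)) (y (n + 1)) < min ε ε1 := by
    intro n
    have hm0 : 0 ≤ n % N := Int.emod_nonneg n hN0.ne'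
    have hm1 : n % N < N := Int.emod_lt_of_pos n hN0
    obtain ⟨m, hm⟩ : ∃ m : ℕ, n % (N : ℤ) = m := ⟨(n % N).toNat, by rw [Int.toNat_of_nonneg hm0]⟩
    have hmN : m < N := by rw [hm] at hm1; exact_mod_cast hm1
    have hadd : (n + 1) % (N : ℤ) = ((m : ℤ) + 1) % N := by
      rw [← hm, Int.emod_add_emod]
    rw [hy]
    simp only [hadd, hm, Int.toNat_natCast]
    rw [← Function.iterate_succ_apply' (f : X → X)]
    rcases Nat.lt_or_ge (m + 1) N with h1 | h1
    · have : ((m : ℤ) + 1) % N = ((m + 1 : ℕ) : ℤ) := by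
        rw [Int.emod_eq_of_lt (by omega) (by exact_mod_cast h1)]
        push_cast
        ring
      rw [this, Int.toNat_natCast, dist_self]
      positivity
    · have hmN' : m + 1 = N := by omega
      have : ((m : ℤ) + 1) % N = 0 := by
        have : ((m : ℤ) + 1) = N := by exact_mod_cast hmN'
        rw [this, Int.emod_self]
      rw [this, show m.succ = N from hmN']
      simpa using hNd
  have hper : ∀ n, y (n + N) = y n := by
    intro n
    rw [hy]
    simp
  obtain ⟨⟨z, hzo, hzd⟩, huniq⟩ := hsh y (fun n => ⟨y n, hyV n, by rw [dist_self]; exact hε⟩)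
    (fun n => (hjump n).trans_le (min_le_left _ _))
  have hz' : (fun n => z (n + N)) = z := by
    refine huniq _ _ (hzo.shift N) hzo (fun n => ?_) (fun n => (hzd n).trans hρc)
    show dist (z (n + N)) (y n) ≤ ρ0
    rw [← hper n]
    exact (hzd (n + N)).trans hρc
  have hfix : (f : X → X)^[N] (z 0) = z 0 := by
    rw [← zpow_iter, ← hzo.eq]
    have := congrFun hz' 0
    simpa using this
  have hy0 : y 0 = x' := by
    rw [hy]
    simp
  refine ⟨z 0, ?_, Function.mk_mem_periodicPts hN hfix, ?_⟩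
  · refine hpo (z 0) y hyV (fun n => (hjump n).le.trans (min_le_right _ _)) (fun n => ?_)
    rw [← hzo.eq]
    exact (hzd n).trans hρb
  · have h0 := hzd 0
    rw [hy0] at h0
    have := dist_triangle (z 0) x' a
    linarith

end Pool.Agent.Helper55.OS
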