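import Pool.Agent.Helper55.OS.P4Iso
import Pool.Agent.Helper55.OS.IsoC
import Pool.Agent.Helper55.OS.Shadow
import Pool.Agent.Helper55.OS.Interval

/-!
# OS-P5 P5Op: unions of operator-hyperbolic sets; the vertices (maximal transitive sets, periodic orbits) are good

hR: every S in Tr f is operator-hyperbolic (constant depending on S); hP: every periodic orbit too.
PROOFS. F := f.toHomeomorph.
* `inv_mono`: K C ≤ K' C (C ≥ 0 because ‖b 0‖ ≤ C). `opHyp_union`: an orbit y in Λ ∪ Λ' has y 0 in Λ, then all y n are in Λ (hi in both directions, induction on ℤ), or in Λ'; then inv_mono.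
* `opHyp_sUnion`: induction on the finite set (empty union: K = 1, vacuous: there is no orbit in ∅).
* `tr_sp`: `opHyp_union` and `sp_of_opHyp` (S ∪ S' is invariant, `tr_basic`); for F.
* `good_mc`: V in MC f: compact, nonempty, invariant, chain transitive (`tr_basic`), SP from tr_sp with S = S' = V (V ∪ V = V), IS from `is_of_opHyp`, periodic point from `mc_dense`. V = orb f p: as in `goodV_all` (GoodAll.lean): finite, `orb_image`, chains with jumps 0 along the orbit, SP, IS from hP (`orb_iff`).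
* `vdis2`: `mc_disj`; orb f p is disjoint from ⋃₀ MC f if p is not in it (elements of MC f are invariant); two periodic orbits that meet are equal. `vrec2`: x recurrent: if x is not periodic, closure (orb f x) in Tr f, `tr_le_mc`; if x is periodic and not in ⋃₀ MC f: orb f x.
* `vert2`: comp, ne, inv from good_mc, dis vdis2, iso: `mc_iso`, `iso_per`; recu: vrec2.
-/

open Set Topology Manifold ContDiff

namespace Pool.Agent.Helper55.OS

theorem inv_mono {F : Type} [NormedAddCommGroup F] [NormedSpace ℝ F] {K K' : ℝ}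
    {a : ℤ → F →L[ℝ] F} (h : Inv K a) (hK : K ≤ K') : Inv K' a := by
  intro b C hb
  obtain ⟨z, h1, h2, h3⟩ := h b C hb
  have hC : 0 ≤ C := (norm_nonneg (b 0)).trans (hb 0)
  exact ⟨z, fun n => (h1 n).trans (mul_le_mul_of_nonneg_right hK hC), h2, h3⟩

private theorem p5_stay {X : Type} {f : X → X} {Λ : Set X} (hi : ∀ x, x ∈ Λ ↔ f x ∈ Λ)
    {y : ℤ → X} (hy : ∀ n, y (n + 1) = f (y n)) (h0 : y 0 ∈ Λ) (n : ℤ) : y n ∈ Λ := by
  induction n using Int.induction_on with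
  | zero => exact h0
  | succ n ih =>
    rw [hy]
    exact (hi _).1 ih
  | pred n ih =>
    refine (hi _).2 ?_
    rw [← hy, sub_add_cancel]
    exact ih

private theorem p5_union {X : Type} {f : X → X} {Λ Λ' : Set X} (hi : ∀ x, x ∈ Λ ↔ f x ∈ Λ)
    (hi' : ∀ x, x ∈ Λ' ↔ f x ∈ Λ') (x : X) : x ∈ Λ ∪ Λ' ↔ f x ∈ Λ ∪ Λ' := by
  rw [Set.mem_union, Set.mem_union, hi x, hi' x]

private theorem p5_sUnion {X : Type} {f : X → X} {𝒮 : Set (Set X)}
    (hi : ∀ S ∈ 𝒮, ∀ x, x ∈ S ↔ f x ∈ S) (x : X) : x ∈ ⋃₀ 𝒮 ↔ f x ∈ ⋃₀ 𝒮 := by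
  constructor
  · rintro ⟨S, hS, hx⟩
    exact ⟨S, hS, (hi S hS x).1 hx⟩
  · rintro ⟨S, hS, hx⟩
    exact ⟨S, hS, (hi S hS x).2 hx⟩

private theorem p5_orb_zpow {X : Type} [TopologicalSpace X] (F : X ≃ₜ X) {p y : X}
    (hp : p ∈ Function.periodicPts (F : X → X))
    (hy : y ∈ orb (F : X → X) p) (z : X) : z ∈ orb (F : X → X) p ↔ ∃ n : ℤ, z = (F ^ n) y := by
  rw [orb_eq_zpow F hp] at hy ⊢
  obtain ⟨a, ha⟩ := hy
  constructor
  · rintro ⟨n, hn⟩
    refine ⟨n - a, ?_⟩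
    rw [hn, ha, ← zpow_add_app, sub_add_cancel]
  · rintro ⟨n, hn⟩
    refine ⟨n + a, ?_⟩
    rw [hn, ha, ← zpow_add_app]

private theorem p5_chain {X : Type} [MetricSpace X] (f : X → X) {p : X}
    (hp : p ∈ Function.periodicPts f) {x y : X}
    (hx : x ∈ orb f p) (hy : y ∈ orb f p) {η : ℝ} (hη : 0 < η) : Chain f (orb f p) η x y := by
  obtain ⟨a, ha⟩ := hx
  obtain ⟨b, hb⟩ := hy
  obtain ⟨m, hm, hmp⟩ := hp
  have h1 : a + 1 ≤ m * (a + 1) := Nat.le_mul_of_pos_left _ hm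
  have h2 : f^[m * (a + 1)] p = p := hmp.mul_const (a + 1)
  refine ⟨b + m * (a + 1) - a, fun i => f^[i] x, by omega, rfl, ?_, ?_, ?_⟩
  · change f^[b + m * (a + 1) - a] x = y
    rw [ha, ← Function.iterate_add_apply]
    have h3 : b + m * (a + 1) - a + a = b + m * (a + 1) := by omega
    rw [h3, Function.iterate_add_apply, h2, hb]
  · intro i _
    refine ⟨i + a, ?_⟩
    change f^[i] x = f^[i + a] p
    rw [ha, Function.iterate_add_apply]
  · intro i _
    change dist (f (f^[i] x)) (f^[i + 1] x) < η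
    rw [Function.iterate_succ_apply', dist_self]
    exact hη

variable {d : ℕ} {M : Type} [MetricSpace M] [ChartedSpace (E d) M] [IsManifold (𝓡 d) ∞ M]
  [CompactSpace M]

theorem opHyp_union (A : Atl d M) (f : Dif d M) (Λ Λ' : Set M) (hi : ∀ x, x ∈ Λ ↔ f x ∈ Λ)
    (hi' : ∀ x, x ∈ Λ' ↔ f x ∈ Λ') (K K' : ℝ) (h : OpHyp A f Λ K) (h' : OpHyp A f Λ' K') :
    OpHyp A f (Λ ∪ Λ') (max K K') := by
  intro y c hy1 hy2 hc
  rcases hy1 0 with h0 | h0
  · exact inv_mono (h y c (p5_stay hi hy2 h0) hy2 hc) (le_max_left _ _)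
  · exact inv_mono (h' y c (p5_stay hi' hy2 h0) hy2 hc) (le_max_right _ _)

theorem opHyp_sUnion (A : Atl d M) (f : Dif d M) (𝒮 : Set (Set M)) (hf : 𝒮.Finite)
    (hi : ∀ S ∈ 𝒮, ∀ x, x ∈ S ↔ f x ∈ S) (h : ∀ S ∈ 𝒮, ∃ K : ℝ, 1 ≤ K ∧ OpHyp A f S K) :
    ∃ K : ℝ, 1 ≤ K ∧ OpHyp A f (⋃₀ 𝒮) K := by
  induction 𝒮, hf using Set.Finite.induction_on with
  | empty =>
    refine ⟨1, le_rfl, fun y c h1 _ _ => ?_⟩
    have h2 := h1 0
    rw [Set.sUnion_empty] at h2
    exact absurd h2 (Set.notMem_empty _)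
  | insert _ _ ih =>
    obtain ⟨K, hK, h1⟩ := ih (fun S hS => hi S (Set.mem_insert_of_mem _ hS))
      (fun S hS => h S (Set.mem_insert_of_mem _ hS))
    obtain ⟨K', hK', h2⟩ := h _ (Set.mem_insert _ _)
    rw [Set.sUnion_insert]
    exact ⟨max K' K, hK'.trans (le_max_left _ _), opHyp_union A f _ _ (hi _ (Set.mem_insert _ _))
      (p5_sUnion fun S hS => hi S (Set.mem_insert_of_mem _ hS)) K' K h2 h1⟩

theorem tr_sp (A : Atl d M) (f : Dif d M)
    (hR : ∀ S ∈ Tr (f : M → M), ∃ K : ℝ, 1 ≤ K ∧ OpHyp A f S K) :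
    ∀ S ∈ Tr (f : M → M), ∀ S' ∈ Tr (f : M → M), SP (f : M → M) (S ∪ S') := by
  intro S hS S' hS'
  obtain ⟨K, hK, h1⟩ := hR S hS
  obtain ⟨K', hK', h2⟩ := hR S' hS'
  have hi := (tr_basic f.toHomeomorph S hS).2.2.2.1
  have hi' := (tr_basic f.toHomeomorph S' hS').2.2.2.1
  exact sp_of_opHyp A f (S ∪ S') (p5_union hi hi') (max K K') (hK.trans (le_max_left _ _))
    (opHyp_union A f S S' hi hi' K K' h1 h2)

private theorem p5_sp (A : Atl d M) (f : Dif d M)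
    (hR : ∀ S ∈ Tr (f : M → M), ∃ K : ℝ, 1 ≤ K ∧ OpHyp A f S K) {S : Set M}
    (hS : S ∈ Tr (f : M → M)) : SP (f.toHomeomorph : M → M) S := by
  obtain ⟨K, hK, h1⟩ := hR S hS
  exact sp_of_opHyp A f S (tr_basic f.toHomeomorph S hS).2.2.2.1 K hK h1

theorem good_mc (A : Atl d M) (f : Dif d M)
    (hR : ∀ S ∈ Tr (f : M → M), ∃ K : ℝ, 1 ≤ K ∧ OpHyp A f S K)
    (hP : ∀ p ∈ Function.periodicPts (f : M → M), ∃ K' : ℝ, 1 ≤ K' ∧
      OpHyp A f (orb (f : M → M) p) K') :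
    ∀ V ∈ VV2 (f : M → M), GoodV f.toHomeomorph V := by
  rintro V (hV | ⟨p, hp, hpn, rfl⟩)
  · obtain ⟨hc, hne, hinv, hi, -, hch, -⟩ := tr_basic f.toHomeomorph V hV.1
    obtain ⟨K, hK, hOp⟩ := hR V hV.1
    have hsp : SP (f.toHomeomorph : M → M) V := sp_of_opHyp A f V hi K hK hOp
    obtain ⟨a, ha⟩ := hne
    obtain ⟨q, hq, hqp, -⟩ := mc_dense f.toHomeomorph V hV hsp a ha 1 one_pos
    exact
      { comp := hc
        ne := ⟨a, ha⟩
        inv := hinv
        chain := hch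
        per := ⟨q, hq, hqp⟩
        sp := hsp
        is := is_of_opHyp A f V hi K hK hOp }
  · obtain ⟨K', hK', hOp⟩ := hP p hp
    exact
      { comp := (orb_finite f.toHomeomorph hp).isCompact
        ne := ⟨p, 0, rfl⟩
        inv := orb_image f.toHomeomorph hp
        chain := fun η hη x hx y hy => p5_chain _ hp hx hy hη
        per := ⟨p, ⟨0, rfl⟩, hp⟩
        sp := sp_of_opHyp A f _ (fun y => orb_iff f.toHomeomorph hp y) K' hK' hOp
        is := is_of_opHyp A f _ (fun y => orb_iff f.toHomeomorph hp y) K' hK' hOp }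

theorem vdis2 (A : Atl d M) (f : Dif d M)
    (hR : ∀ S ∈ Tr (f : M → M), ∃ K : ℝ, 1 ≤ K ∧ OpHyp A f S K) :
    ∀ V ∈ VV2 (f : M → M), ∀ V' ∈ VV2 (f : M → M), V ≠ V' → Disjoint V V' := by
  have key : ∀ V ∈ MC (f.toHomeomorph : M → M), ∀ p ∈ Function.periodicPts
      (f.toHomeomorph : M → M), p ∉ ⋃₀ MC (f.toHomeomorph : M → M) →
      Disjoint V (orb (f.toHomeomorph : M → M) p) := by
    intro V hV p hp hpn
    rw [Set.disjoint_left]
    intro y hy hyp
    rw [orb_eq_zpow f.toHomeomorph hp] at hyp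
    obtain ⟨n, hn⟩ := hyp
    apply hpn
    refine ⟨V, hV, ?_⟩
    have h1 := (tr_basic f.toHomeomorph V hV.1).2.2.2.2.1 y hy (-n)
    rw [hn, ← zpow_add_app, neg_add_cancel, zpow_zero_app] at h1
    exact h1
  rintro V (hV | ⟨p, hp, hpn, rfl⟩) V' (hV' | ⟨q, hq, hqn, rfl⟩) hne
  · exact mc_disj f.toHomeomorph (tr_sp A f hR) V V' hV hV' hne
  · exact key V hV q hq hqn
  · exact (key V' hV' p hp hpn).symm
  · rw [Set.disjoint_left]
    intro y hy hy'
    apply hne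
    ext z
    exact (p5_orb_zpow f.toHomeomorph hp hy z).trans (p5_orb_zpow f.toHomeomorph hq hy' z).symm

theorem vrec2 (f : Dif d M) (x : M) (hx : Rec (f : M → M) x) :
    ∃ V ∈ VV2 (f : M → M), x ∈ V := by
  by_cases hper : x ∈ Function.periodicPts (f : M → M)
  · by_cases h : x ∈ ⋃₀ MC (f : M → M)
    · obtain ⟨V, hV, hxV⟩ := h
      exact ⟨V, Or.inl hV, hxV⟩
    · exact ⟨orb (f : M → M) x, Or.inr ⟨x, hper, h, rfl⟩, 0, rfl⟩
  · obtain ⟨V, hV, hsub⟩ := tr_le_mc f.toHomeomorph (closure (orb (f : M → M) x)) ⟨x, hx, hper, rfl⟩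
    exact ⟨V, Or.inl hV, hsub (subset_closure ⟨0, rfl⟩)⟩

theorem vert2 (A : Atl d M) (f : Dif d M)
    (hR : ∀ S ∈ Tr (f : M → M), ∃ K : ℝ, 1 ≤ K ∧ OpHyp A f S K)
    (hP : ∀ p ∈ Function.periodicPts (f : M → M), ∃ K' : ℝ, 1 ≤ K' ∧
      OpHyp A f (orb (f : M → M) p) K')
    (hnc : ¬ Cycle f.toHomeomorph (VV2 (f : M → M))) :
    Vdata f.toHomeomorph (VV2 (f : M → M)) := by
  have hg := good_mc A f hR hP
  refine
    { comp := fun V hV => (hg V hV).comp
      ne := fun V hV => (hg V hV).ne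
      inv := fun V hV => (hg V hV).inv
      dis := vdis2 A f hR
      iso := ?_
      recu := fun x hx => vrec2 f x hx
      nc := hnc }
  rintro V (hV | ⟨p, hp, hpn, rfl⟩)
  · exact mc_iso f.toHomeomorph V hV (p5_sp A f hR hV.1)
  · obtain ⟨K', hK', hOp⟩ := hP p hp
    exact iso_per f.toHomeomorph p hp
      (sp_of_opHyp A f _ (fun y => orb_iff f.toHomeomorph hp y) K' hK' hOp)

end Pool.Agent.Helper55.OS
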