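import Pool.Agent.Helper55.OS.P3Max
import Pool.Agent.Helper55.OS.Conj

/-!
# OS-P6 P6Tn: the sets Tn f n: invariance under Omega-conjugacy, finiteness

PROOFS.
* `conj_tn`: as in `conj_points` (Conj.lean; reuse its lemmas): h maps Rec to Rec, periodic points to periodic points with the same periods, and for w in omega F: h maps closure (orb F w) (contained in the closed set omega F, invariant) onto closure (orb G (h w)) (h is a homeomorphism of
  closed subsets, h (F^[n] w) = G^[n] (h w)). So for z in omega F: z in Tn F n iff h z in Tn G n (S = closure (orb F w) in Tr F corresponds to closure (orb G (h w)) in Tr G; q in S with F^[n] q = q corresponds to h q). S in Tr F is in omega F (`tr_nr`, `nr_omega`, or: w recurrent, omega closed invariant).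
* `conj_count2`: from OmegaStable.
* `tn_eq`: ⊇: MC f ⊆ Tr f. ⊆: z in S in Tr f, q in S: `tr_le_mc`: S ⊆ V in MC f.
* `tn_finite`: the V in MC f are pairwise disjoint (`mc_disj`), so the choice V ↦ (a point q in V with f^[n] q = q) is injective into the finite set Fix f^n.
-/

open Set Topology Manifold ContDiff

namespace Pool.Agent.Helper55.OS

private theorem omega_step {X : Type} [TopologicalSpace X] (F : X ≃ₜ X) {x : X}
    (hx : x ∈ omega (F : X → X)) : F x ∈ omega (F : X → X) := by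
  intro U hU
  have h1 : (F : X → X) ⁻¹' U ∈ 𝓝 x := F.continuous.continuousAt.preimage_mem_nhds hU
  obtain ⟨n, hn, z, ⟨y, hy, hyz⟩, hz⟩ := hx _ h1
  refine ⟨n, hn, F z, ⟨F y, hy, ?_⟩, hz⟩
  rw [← hyz, ← Function.iterate_succ_apply, ← Function.iterate_succ_apply' (F : X → X)]

private theorem omega_iter {X : Type} [TopologicalSpace X] (F : X ≃ₜ X) {x : X}
    (hx : x ∈ omega (F : X → X)) (n : ℕ) : (F : X → X)^[n] x ∈ omega (F : X → X) := by
  induction n with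
  | zero => exact hx
  | succ n ih =>
    rw [Function.iterate_succ_apply']
    exact omega_step F ih

private theorem conj_iter {X : Type} [TopologicalSpace X] (F G : X ≃ₜ X)
    (h : omega (F : X → X) ≃ₜ omega (G : X → X))
    (he : ∀ x y : omega (F : X → X), (y : X) = F x → (h y : X) = G (h x))
    (x : omega (F : X → X)) (n : ℕ) :
    (h ⟨(F : X → X)^[n] x, omega_iter F x.2 n⟩ : X) = (G : X → X)^[n] (h x) := by
  induction n with
  | zero => rfl
  | succ n ih =>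
    have h1 : (G : X → X)^[n + 1] (h x) = G ((G : X → X)^[n] (h x)) :=
      Function.iterate_succ_apply' _ _ _
    rw [h1, ← ih]
    apply he
    show (F : X → X)^[n + 1] x = F ((F : X → X)^[n] x)
    rw [Function.iterate_succ_apply']

private theorem conj_per {X : Type} [TopologicalSpace X] (F G : X ≃ₜ X)
    (h : omega (F : X → X) ≃ₜ omega (G : X → X))
    (he : ∀ x y : omega (F : X → X), (y : X) = F x → (h y : X) = G (h x))
    (x : omega (F : X → X)) (n : ℕ) :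
    (F : X → X)^[n] x = x ↔ (G : X → X)^[n] (h x) = h x := by
  rw [← conj_iter F G h he x n]
  constructor
  · intro h1
    have h2 : (⟨(F : X → X)^[n] x, omega_iter F x.2 n⟩ : omega (F : X → X)) = x := Subtype.ext h1
    rw [h2]
  · intro h1
    have h2 := h.injective (Subtype.ext h1)
    exact congrArg Subtype.val h2

private theorem conj_symm {X : Type} [TopologicalSpace X] (F G : X ≃ₜ X)
    (h : omega (F : X → X) ≃ₜ omega (G : X → X))
    (he : ∀ x y : omega (F : X → X), (y : X) = F x → (h y : X) = G (h x))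
    (x y : omega (G : X → X)) (hxy : (y : X) = G x) : (h.symm y : X) = F (h.symm x) := by
  have h1 := he (h.symm x) ⟨F (h.symm x), omega_step F (h.symm x).2⟩ rfl
  rw [h.apply_symm_apply, ← hxy] at h1
  have h2 : h ⟨F (h.symm x), omega_step F (h.symm x).2⟩ = y := Subtype.ext h1
  rw [← h2, h.symm_apply_apply]

private theorem conj_nhds {X : Type} [TopologicalSpace X] (F G : X ≃ₜ X)
    (h : omega (F : X → X) ≃ₜ omega (G : X → X)) (x : omega (F : X → X)) (U : Set X)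
    (hU : U ∈ 𝓝 (h x : X)) :
    ∃ U' ∈ 𝓝 (x : X), ∀ a : omega (F : X → X), (a : X) ∈ U' → (h a : X) ∈ U := by
  have h1 : (fun a : omega (F : X → X) => (h a : X)) ⁻¹' U ∈ 𝓝 x :=
    (continuous_subtype_val.comp h.continuous).continuousAt.preimage_mem_nhds hU
  obtain ⟨U', hU', hs⟩ := (mem_nhds_subtype _ _ _).1 h1
  exact ⟨U', hU', fun a ha => hs ha⟩

private theorem conj_rec {X : Type} [TopologicalSpace X] (F G : X ≃ₜ X)
    (h : omega (F : X → X) ≃ₜ omega (G : X → X))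
    (he : ∀ x y : omega (F : X → X), (y : X) = F x → (h y : X) = G (h x))
    (x : omega (F : X → X)) (hx : Rec (F : X → X) x) : Rec (G : X → X) (h x) := by
  intro U hU
  obtain ⟨U', hU', hs⟩ := conj_nhds F G h x U hU
  obtain ⟨n, hn, hnU⟩ := hx U' hU'
  refine ⟨n, hn, ?_⟩
  rw [← conj_iter F G h he x n]
  exact hs _ hnU

private theorem conj_nonper {X : Type} [TopologicalSpace X] (F G : X ≃ₜ X)
    (h : omega (F : X → X) ≃ₜ omega (G : X → X))
    (he : ∀ x y : omega (F : X → X), (y : X) = F x → (h y : X) = G (h x))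
    (x : omega (F : X → X)) (hx : (x : X) ∉ Function.periodicPts (F : X → X)) :
    (h x : X) ∉ Function.periodicPts (G : X → X) := by
  rintro ⟨n, hn, hp⟩
  exact hx ⟨n, hn, (conj_per F G h he x n).2 hp⟩

private theorem equiv_of {X : Type} {A B : Set X} (h : A ≃ B) (S T : Set X) (hS : S ⊆ A) (hT : T ⊆ B)
    (hST : ∀ x : A, (x : X) ∈ S ↔ (h x : X) ∈ T) : Nonempty (S ≃ T) := by
  refine ⟨⟨fun q => ⟨h ⟨q, hS q.2⟩, (hST ⟨q, hS q.2⟩).1 q.2⟩,
    fun q => ⟨h.symm ⟨q, hT q.2⟩, (hST (h.symm ⟨q, hT q.2⟩)).2 ?_⟩, fun q => ?_, fun q => ?_⟩⟩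
  · rw [h.apply_symm_apply]
    exact q.2
  · apply Subtype.ext
    show (h.symm ⟨(h ⟨q, hS q.2⟩ : X), _⟩ : X) = q
    have h1 : (⟨(h ⟨q, hS q.2⟩ : X), hT ((hST ⟨q, hS q.2⟩).1 q.2)⟩ : B) = h ⟨q, hS q.2⟩ := rfl
    rw [h1, h.symm_apply_apply]
  · apply Subtype.ext
    show (h ⟨(h.symm ⟨q, hT q.2⟩ : X), _⟩ : X) = q
    have h1 : (⟨(h.symm ⟨q, hT q.2⟩ : X), (h.symm ⟨q, hT q.2⟩).2⟩ : A) = h.symm ⟨q, hT q.2⟩ := rfl
    rw [h1, h.apply_symm_apply]

private theorem conj_clo {X : Type} [TopologicalSpace X] (F G : X ≃ₜ X)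
    (h : omega (F : X → X) ≃ₜ omega (G : X → X))
    (he : ∀ x y : omega (F : X → X), (y : X) = F x → (h y : X) = G (h x))
    (w a : omega (F : X → X)) (ha : (a : X) ∈ closure (orb (F : X → X) w)) :
    (h a : X) ∈ closure (orb (G : X → X) (h w)) := by
  rw [mem_closure_iff_nhds] at ha ⊢
  intro U hU
  obtain ⟨U', hU', hs⟩ := conj_nhds F G h a U hU
  obtain ⟨y, hy, j, rfl⟩ := ha U' hU'
  refine ⟨(G : X → X)^[j] (h w), ?_, j, rfl⟩
  rw [← conj_iter F G h he w j]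
  exact hs _ hy

private theorem conj_tn_mem {X : Type} [MetricSpace X] [CompactSpace X] (F G : X ≃ₜ X)
    (h : omega (F : X → X) ≃ₜ omega (G : X → X))
    (he : ∀ x y : omega (F : X → X), (y : X) = F x → (h y : X) = G (h x)) (n : ℕ)
    (x : omega (F : X → X)) (hx : (x : X) ∈ Tn (F : X → X) n) : (h x : X) ∈ Tn (G : X → X) n := by
  obtain ⟨S, ⟨hS, q, hq, hqn⟩, hxS⟩ := hx
  have hsub : S ⊆ omega (F : X → X) := (tr_nr F S hS).trans (nr_omega _)
  obtain ⟨w, hw, hwp, e⟩ := hS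
  have hqo := hsub hq
  rw [e] at hq hxS
  have hwo : w ∈ omega (F : X → X) := rec_omega _ hw
  refine ⟨closure (orb (G : X → X) (h ⟨w, hwo⟩)), ⟨⟨h ⟨w, hwo⟩, ?_, ?_, rfl⟩, h ⟨q, hqo⟩, ?_, ?_⟩, ?_⟩
  · exact conj_rec F G h he ⟨w, hwo⟩ hw
  · exact conj_nonper F G h he ⟨w, hwo⟩ hwp
  · exact conj_clo F G h he ⟨w, hwo⟩ ⟨q, hqo⟩ hq
  · exact (conj_per F G h he ⟨q, hqo⟩ n).1 hqn
  · exact conj_clo F G h he ⟨w, hwo⟩ x hxS

theorem conj_tn {X : Type} [MetricSpace X] [CompactSpace X] (F G : X ≃ₜ X)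
    (h : omega (F : X → X) ≃ₜ omega (G : X → X))
    (he : ∀ x y : omega (F : X → X), (y : X) = F x → (h y : X) = G (h x)) (n m : ℕ) (hn : 1 ≤ n)
    (hm : 1 ≤ m) :
    Nonempty ({q | (F : X → X)^[m] q = q ∧ q ∈ Tn (F : X → X) n} ≃
      {q | (G : X → X)^[m] q = q ∧ q ∈ Tn (G : X → X) n}) := by
  have hF : ∀ (K : X ≃ₜ X) (q : X), (K : X → X)^[m] q = q → q ∈ omega (K : X → X) := fun K q hq =>
    rec_omega _ (per_rec _ ⟨m, by omega, hq⟩)
  have he' := conj_symm F G h he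
  have htn : ∀ x : omega (F : X → X), (x : X) ∈ Tn (F : X → X) n ↔ (h x : X) ∈ Tn (G : X → X) n := by
    intro x
    refine ⟨conj_tn_mem F G h he n x, fun hx => ?_⟩
    have h1 := conj_tn_mem G F h.symm he' n (h x) hx
    rwa [h.symm_apply_apply] at h1
  refine equiv_of h.toEquiv _ _ (fun q hq => hF F q hq.1) (fun q hq => hF G q hq.1) fun x => ?_
  exact and_congr (conj_per F G h he x m) (htn x)

theorem conj_count2 {d : ℕ} {M : Type} [MetricSpace M] [CompactSpace M] [ChartedSpace (E d) M]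
    (f : Dif d M) (hs : OmegaStable f) :
    ∃ 𝒰 : Set (Dif d M), IsOpen[smoothTop d M] 𝒰 ∧ f ∈ 𝒰 ∧ ∀ g ∈ 𝒰, ∀ n m : ℕ, 1 ≤ n → 1 ≤ m →
      Nonempty ({q | (f : M → M)^[m] q = q ∧ q ∈ Tn (f : M → M) n} ≃
        {q | (g : M → M)^[m] q = q ∧ q ∈ Tn (g : M → M) n}) := by
  obtain ⟨𝒰, hU, hf, hg⟩ := hs
  refine ⟨𝒰, hU, hf, fun g hgU n m hn hm => ?_⟩
  obtain ⟨h, he⟩ := hg g hgU
  exact conj_tn f.toHomeomorph g.toHomeomorph h he n m hn hm

theorem tn_eq {X : Type} [MetricSpace X] [CompactSpace X] (f : X ≃ₜ X) (n : ℕ) :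
    Tn (f : X → X) n = ⋃₀ {V | V ∈ MC (f : X → X) ∧ ∃ q ∈ V, (f : X → X)^[n] q = q} := by
  ext z
  constructor
  · rintro ⟨S, ⟨hS, q, hq, hqn⟩, hz⟩
    obtain ⟨V, hV, hSV⟩ := tr_le_mc f S hS
    exact ⟨V, ⟨hV, q, hSV hq, hqn⟩, hSV hz⟩
  · rintro ⟨V, ⟨hV, q, hq, hqn⟩, hz⟩
    exact ⟨V, ⟨hV.1, q, hq, hqn⟩, hz⟩

theorem tn_finite {X : Type} [MetricSpace X] [CompactSpace X] (f : X ≃ₜ X)
    (h : ∀ S ∈ Tr (f : X → X), ∀ S' ∈ Tr (f : X → X), SP (f : X → X) (S ∪ S')) (n : ℕ)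
    (hf : {q | (f : X → X)^[n] q = q}.Finite) :
    {V | V ∈ MC (f : X → X) ∧ ∃ q ∈ V, (f : X → X)^[n] q = q}.Finite := by
  refine (hf.image fun q => ⋃₀ {V | V ∈ MC (f : X → X) ∧ q ∈ V}).subset ?_
  rintro V ⟨hV, q, hq, hqn⟩
  refine ⟨q, hqn, ?_⟩
  ext z
  constructor
  · rintro ⟨V', ⟨hV', hq'⟩, hz⟩
    by_cases e : V' = V
    · rw [← e]
      exact hz
    · exact absurd hq (Set.disjoint_left.1 (mc_disj f h V' V hV' hV e) hq')
  · intro hz
    exact ⟨V, ⟨hV, hq⟩, hz⟩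

end Pool.Agent.Helper55.OS
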