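import Pool.Agent.Helper55.OS.P3Max

/-!
# OS-P7 P7Persist: the periodic points in Tn f n persist in Tn g n

PROOF. Λ := Tn f n is invariant under f and f⁻¹ (union of elements of Tr f, `tr_basic`). For x in Λ the sequence y i = (f^i) x is in Λ with jumps 0: Shad f g gives a unique g-orbit within ρ of it (unique within ρ0); J x := its point at time 0. J is injective on Λ: J x = J x' gives dist ((f^i) x) ((f^i) x') ≤ 2 ρ ≤ ρ0
for all i, so x = x' by the uniqueness in Shad f f (sequence = orbit of x). If f^[m] q = q then g^[m] (J q) = J q (the shifted orbit shadows the same sequence; uniqueness). j := J.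
J q in Tn g n: q in S in Tr f with q0 in S, f^[n] q0 = q0. `trans_shadow` for V := S (compact, nonempty, invariant, chain transitive: `tr_basic`; Shad f g S ε ρ ρ0 by `Shad.mono`): w with Rec g w and closure (orb g w) ∋ J x for all x in S (y = orbit of x). J '' S is infinite (S infinite, J injective), so
S' := closure (orb g w) is in Tr g (`tr_of_rec`). J q0 in S', g^[n] (J q0) = J q0. So S' is one of the sets in the union Tn g n, and J q in S'.
-/

open Set Topology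

namespace Pool.Agent.Helper55.OS

private theorem pt_orbit {X : Type} [MetricSpace X] (f : X ≃ₜ X) {Λ : Set X} {ε : ℝ} (hε : 0 < ε)
    {q : X} (hq : ∀ n : ℤ, (f ^ n) q ∈ Λ) :
    (∀ n : ℤ, ∃ p ∈ Λ, dist ((f ^ n) q) p < ε) ∧
      ∀ n : ℤ, dist (f ((f ^ n) q)) ((f ^ (n + 1)) q) < ε := by
  refine ⟨fun n => ⟨(f ^ n) q, hq n, by rw [dist_self]; exact hε⟩, fun n => ?_⟩
  have h : (f ^ (n + 1)) q = f ((f ^ n) q) := orb_zpow f q n
  rw [h, dist_self]
  exact hε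

private theorem pt_uniq {X : Type} [MetricSpace X] (f g : X ≃ₜ X) {Λ : Set X} {ε ρ ρ0 : ℝ}
    (hε : 0 < ε) (hfg : Shad (f : X → X) (g : X → X) Λ ε ρ ρ0) {q : X}
    (hq : ∀ n : ℤ, (f ^ n) q ∈ Λ) {p p' : X} (h : ∀ n : ℤ, dist ((g ^ n) p) ((f ^ n) q) ≤ ρ0)
    (h' : ∀ n : ℤ, dist ((g ^ n) p') ((f ^ n) q) ≤ ρ0) : p = p' := by
  obtain ⟨h1, h2⟩ := pt_orbit f hε hq
  have h3 := (hfg (fun n => (f ^ n) q) h1 h2).2 (fun n => (g ^ n) p) (fun n => (g ^ n) p')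
    (orb_zpow g p) (orb_zpow g p') h h'
  have h4 := congrFun h3 0
  simpa using h4

private theorem pt_per {X : Type} [TopologicalSpace X] (f : X ≃ₜ X) {m : ℕ} {q : X}
    (h : (f : X → X)^[m] q = q) (n : ℤ) : (f ^ (n + (m : ℤ))) q = (f ^ n) q := by
  rw [zpow_add_app, zpow_iter, h]

private theorem tn_zpow {X : Type} [MetricSpace X] [CompactSpace X] (f : X ≃ₜ X) {n : ℕ} {q : X}
    (hq : q ∈ Tn (f : X → X) n) (i : ℤ) : (f ^ i) q ∈ Tn (f : X → X) n := by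
  obtain ⟨S, ⟨hS, hS'⟩, hqS⟩ := hq
  exact ⟨S, ⟨hS, hS'⟩, (tr_basic f S hS).2.2.2.2.1 q hqS i⟩

theorem persist2 {X : Type} [MetricSpace X] [CompactSpace X] (f g : X ≃ₜ X) (n : ℕ) (hn : 1 ≤ n)
    (ε ρ ρ0 : ℝ) (hε : 0 < ε) (hρ : 0 ≤ ρ) (h2 : 2 * ρ ≤ ρ0)
    (hff : Shad (f : X → X) (f : X → X) (Tn (f : X → X) n) ε ρ ρ0)
    (hfg : Shad (f : X → X) (g : X → X) (Tn (f : X → X) n) ε ρ ρ0) (m : ℕ) (hm : 1 ≤ m) :
    ∃ j : X → X, InjOn j {q | (f : X → X)^[m] q = q ∧ q ∈ Tn (f : X → X) n} ∧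
      ∀ q, (f : X → X)^[m] q = q → q ∈ Tn (f : X → X) n →
        (g : X → X)^[m] (j q) = j q ∧ j q ∈ Tn (g : X → X) n ∧
        ∀ i : ℤ, dist ((g ^ i) (j q)) ((f ^ i) q) ≤ ρ := by
  have hρ0 : ρ ≤ ρ0 := by linarith
  have h00 : 0 ≤ ρ0 := by linarith
  have hex : ∀ q : X, ∃ p : X, q ∈ Tn (f : X → X) n →
      ∀ i : ℤ, dist ((g ^ i) p) ((f ^ i) q) ≤ ρ := by
    intro q
    by_cases hq : q ∈ Tn (f : X → X) n
    · obtain ⟨h3, h4⟩ := pt_orbit f hε (tn_zpow f hq)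
      obtain ⟨z, hz, hz'⟩ := (hfg (fun i => (f ^ i) q) h3 h4).1
      refine ⟨z 0, fun _ i => ?_⟩
      rw [← hz.eq]
      exact hz' i
    · exact ⟨q, fun h => absurd h hq⟩
  choose j hj using hex
  have hU2 : ∀ q ∈ Tn (f : X → X) n, ∀ q' : X,
      (∀ i : ℤ, dist ((f ^ i) q') ((f ^ i) q) ≤ ρ0) → q' = q := by
    intro q hq q' h
    exact pt_uniq f f hε hff (tn_zpow f hq) h (fun i => by rw [dist_self]; exact h00)
  have hinj : ∀ q ∈ Tn (f : X → X) n, ∀ q' ∈ Tn (f : X → X) n, j q = j q' → q = q' := by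
    intro q hq q' hq' hqq
    refine hU2 q' hq' q fun i => ?_
    have h3 := hj q hq i
    have h4 := hj q' hq' i
    rw [hqq] at h3
    have h5 := dist_triangle_left ((f ^ i) q) ((f ^ i) q') ((g ^ i) (j q'))
    linarith
  have hfix : ∀ (k : ℕ) (q : X), (f : X → X)^[k] q = q → q ∈ Tn (f : X → X) n →
      (g : X → X)^[k] (j q) = j q := by
    intro k q hqk hq
    refine pt_uniq f g hε hfg (tn_zpow f hq) (fun i => ?_) (fun i => (hj q hq i).trans hρ0)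
    rw [← zpow_iter, ← zpow_add_app, ← pt_per f hqk i]
    exact (hj q hq (i + k)).trans hρ0
  refine ⟨j, ?_, ?_⟩
  · rintro q ⟨-, hq⟩ q' ⟨-, hq'⟩ hqq
    exact hinj q hq q' hq' hqq
  · intro q hqm hq
    refine ⟨hfix m q hqm hq, ?_, hj q hq⟩
    obtain ⟨S, ⟨hS, q0, hq0, hq0n⟩, hqS⟩ := hq
    obtain ⟨a1, a2, a3, a4, a5, a6, a7⟩ := tr_basic f S hS
    have hST : S ⊆ Tn (f : X → X) n := fun x hx => ⟨S, ⟨hS, q0, hq0, hq0n⟩, hx⟩
    obtain ⟨w, hw, hwz⟩ := trans_shadow f g S a1 a2 a3 a6 ε ρ ρ0 hε hρ0 (hfg.mono hST le_rfl)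
    have hmem : ∀ x ∈ S, j x ∈ closure (orb (g : X → X) w) := by
      intro x hx
      rw [hwz]
      refine ⟨fun i => (f ^ i) x, fun i => a5 x hx i, fun i => ?_, hj x (hST hx)⟩
      have h3 : (f ^ (i + 1)) x = f ((f ^ i) x) := orb_zpow f x i
      show dist (f ((f ^ i) x)) ((f ^ (i + 1)) x) ≤ ε / 2
      rw [h3, dist_self]
      linarith
    have hinf : (j '' S).Infinite := by
      refine Set.Infinite.image ?_ a7
      intro x hx x' hx' h
      exact hinj x (hST hx) x' (hST hx') h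
    have htr := tr_of_rec g hw (j '' S) hinf (by
      rintro z ⟨x, hx, rfl⟩
      exact hmem x hx)
    exact ⟨_, ⟨htr, j q0, hmem q0 hq0, hfix n q0 hq0n (hST hq0)⟩, hmem q hqS⟩

end Pool.Agent.Helper55.OS
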