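import Pool.Agent.Helper55.OS.Horse
import Pool.Agent.Helper55.OS.P2Clo

/-!
# OS-P8 P8Horse: horse, with the transitive set that contains p and the new periodic point
-/

open Set Topology

namespace Pool.Agent.Helper55.OS

theorem horse2 {X : Type} [MetricSpace X] [CompactSpace X] (g : X ≃ₜ X) (p : X)
    (hp : p ∈ Function.periodicPts (g : X → X)) (x : X) (hx : x ∉ orb (g : X → X) p)
    (hF : Fwd g x (orb (g : X → X) p)) (hB : Bwd g x (orb (g : X → X) p))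
    (hS : SP (g : X → X) (orb (g : X → X) p ∪ range (fun n : ℤ => (g ^ n) x)))
    (r : ℝ) (hr : 0 < r) :
    ∃ m : ℕ, 1 ≤ m ∧ ∃ q : X, (g : X → X)^[m] q = q ∧ dist q x ≤ r ∧
      ∃ S ∈ Tr (g : X → X), p ∈ S ∧ q ∈ S := by
  obtain ⟨ρ0, hρ0, hS⟩ := hS
  have hOc : IsClosed (orb (g : X → X) p) := (orb_finite g hp).isClosed
  have hOn : (orb (g : X → X) p).Nonempty := ⟨p, 0, rfl⟩
  have hD : 0 < Metric.infDist x (orb (g : X → X) p) :=
    (hOc.notMem_iff_infDist_pos hOn).1 hx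
  obtain ⟨D, hDdef⟩ : ∃ D : ℝ, D = Metric.infDist x (orb (g : X → X) p) := ⟨_, rfl⟩
  rw [← hDdef] at hD
  obtain ⟨ρ, hρdef⟩ : ∃ ρ : ℝ, ρ = min (min ρ0 r) (D / 4) := ⟨_, rfl⟩
  have hρ : 0 < ρ := by
    rw [hρdef]
    exact lt_min (lt_min hρ0 hr) (by linarith)
  have hρ1 : ρ ≤ ρ0 := by rw [hρdef]; exact (min_le_left _ _).trans (min_le_left _ _)
  have hρ2 : ρ ≤ r := by rw [hρdef]; exact (min_le_left _ _).trans (min_le_right _ _)
  have hρ3 : ρ ≤ D / 4 := by rw [hρdef]; exact min_le_right _ _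
  obtain ⟨ε, hε, hSh⟩ := hS ρ hρ
  obtain ⟨s, hs⟩ := fwd_phase g p hp x hF
  obtain ⟨t, ht⟩ := bwd_phase g p hp x hB
  obtain ⟨T, ⟨hT1, hT2⟩, hT3⟩ := (((hs.eventually (gt_mem_nhds hε)).and
    (ht.eventually (gt_mem_nhds hε))).and (Filter.eventually_ge_atTop 1)).exists
  obtain ⟨P, hP1, hP⟩ := hp
  have hP' : (g : X → X)^[P] p = p := hP
  have hP0 : (0 : ℤ) < P := by exact_mod_cast hP1
  obtain ⟨k, hk1, hk2⟩ : ∃ k : ℕ, 1 ≤ k ∧
      (P : ℤ) ∣ ((T : ℤ) + s + k) - (-(T : ℤ) + t) := by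
    have e2 := Int.emod_nonneg (-(T : ℤ) + t - (T + s)) hP0.ne'
    have e1 := Int.emod_add_mul_ediv (-(T : ℤ) + t - (T + s)) P
    refine ⟨((-(T : ℤ) + t - (T + s)) % P + P).toNat, ?_, ?_⟩
    · omega
    · rw [Int.toNat_of_nonneg (by omega)]
      refine ⟨1 - (-(T : ℤ) + t - (T + s)) / P, ?_⟩
      linear_combination e1
  have hp' : p ∈ Function.periodicPts (g : X → X) := ⟨P, hP1, hP⟩
  obtain ⟨u, v, hL, hvT, hu⟩ := horse_loops g p x
    (orb (g : X → X) p ∪ range (fun n : ℤ => (g ^ n) x)) P hP1 hP'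
    (fun n => Or.inl ((orb_eq_zpow g hp' _).2 ⟨n, rfl⟩)) (fun n => Or.inr ⟨n, rfl⟩) ε ρ hε T hT3
    s t k hk1 hk2 hT1 hT2 (by
      intro n
      have h1 : D ≤ dist x ((g ^ n) p) := by
        rw [hDdef]
        exact Metric.infDist_le_dist_of_mem ((orb_eq_zpow g hp' _).2 ⟨n, rfl⟩)
      rw [dist_comm] at h1
      linarith)
  obtain ⟨Z, hc, hi, he, htr⟩ := fs (g : X → X) g _ ε ρ ρ0 hρ1 hSh _ u v hL
  obtain ⟨-, w, hw1, hw2, hw3⟩ := fs_nr g _ hL.pos Z hc hi he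
  have hfix : (g : X → X)^[P * (2 * T + k)] (Z fun _ => true) = Z fun _ => true := by
    rw [← zpow_iter, he]
  have hmem : ∀ s, Z s ∈ closure (orb (g : X → X) w) := by
    intro s
    rw [mem_closure_iff_nhds]
    intro U hU
    obtain ⟨n, -, hn⟩ := hw3 s U hU 0
    exact ⟨_, hn, n, rfl⟩
  refine ⟨P * (2 * T + k), hL.pos, (g ^ (T : ℤ)) (Z fun _ => true), ?_, ?_,
    closure (orb (g : X → X) w), ⟨w, hw1, hw2, rfl⟩, ?_, clo_zpow g hw1 (hmem _) _⟩
  · rw [per_zpow]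
    exact hfix
  · have h1 := htr (fun _ => true) T
    simp only [if_true] at h1
    rw [hvT] at h1
    exact h1.trans hρ2
  · -- the orbit of `Z false` is the orbit of a point of the orbit of `p`
    have h1 : Z (fun _ => false) = (g ^ (-(T : ℤ) + t)) p := by
      have h2 := (hSh u hL.nu hL.ju).2 (fun n : ℤ => (g ^ n) (Z fun _ => false)) u
        (orb_zpow g _) (fun n => by rw [hu, hu]; rw [← add_assoc]; exact orb_zpow g p _)
        (fun n => by
          have h3 := htr (fun _ => false) n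
          simp only [Bool.false_eq_true, if_false] at h3
          exact h3.trans hρ1)
        (fun n => by rw [dist_self]; exact hρ0.le)
      have h4 := congrFun h2 0
      simp only [zpow_zero_app] at h4
      rw [h4, hu, add_zero]
    have h5 := clo_zpow g hw1 (hmem (fun _ => false)) (-(-(T : ℤ) + t))
    rw [h1, ← zpow_add_app, neg_add_cancel, zpow_zero_app] at h5
    exact h5

end Pool.Agent.Helper55.OS
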