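import Pool.Agent.Helper55.OS.NoCycle
import Pool.Agent.Helper55.OS.P5Op
import Pool.Agent.Helper55.OS.P6Tn
import Pool.Agent.Helper55.OS.P7Persist
import Pool.Agent.Helper55.OS.P8Horse

/-!
# OS-P9 P9NoCycle: no cycles of vertices when all elements of Tr f are hyperbolic (assembly)
-/

open Set Topology Manifold ContDiff

namespace Pool.Agent.Helper55.OS

theorem noCycle2 {d : ℕ} {M : Type} [MetricSpace M] [ChartedSpace (E d) M]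
    [IsManifold (𝓡 d) ∞ M] [CompactSpace M] (A : Atl d M) (ρ : Metric d M) (f : Dif d M)
    (hs : OmegaStable f)
    (hR : ∀ S ∈ Tr (f : M → M), ∃ K : ℝ, 1 ≤ K ∧ OpHyp A f S K)
    (hP : ∀ p ∈ Function.periodicPts (f : M → M), ∃ K' : ℝ, 1 ≤ K' ∧
      OpHyp A f (orb (f : M → M) p) K') :
    ¬ Cycle f.toHomeomorph (VV2 (f : M → M)) := by
  intro hcyc
  have hSP := tr_sp A f hR
  have hG := good_mc A f hR hP
  obtain ⟨p, x0, hp, hpV, hx0, hper⟩ := cycleHom f (VV2 (f : M → M)) hG (vdis2 A f hR)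
    (fun x hx => by
      obtain ⟨V, hV, hxV⟩ := vrec2 f x hx
      exact ⟨V, hV, hxV⟩) hcyc
  obtain ⟨n0, hn0, hpn⟩ : ∃ n : ℕ, 1 ≤ n ∧ (f : M → M)^[n] p = p := by
    obtain ⟨n, hn, h⟩ := hp
    exact ⟨n, hn, h⟩
  obtain ⟨𝒮, h𝒮⟩ : ∃ 𝒮 : Set (Set M),
      𝒮 = {V | V ∈ MC (f : M → M) ∧ ∃ q ∈ V, (f : M → M)^[n0] q = q} := ⟨_, rfl⟩
  have hTe : Tn (f : M → M) n0 = ⋃₀ 𝒮 := by rw [h𝒮]; exact tn_eq f.toHomeomorph n0
  have h𝒮f : 𝒮.Finite := by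
    rw [h𝒮]
    exact tn_finite f.toHomeomorph hSP n0 (finite_fix_of_omegaStable f hs n0 hn0)
  have h𝒮t : ∀ S ∈ 𝒮, S ∈ Tr (f : M → M) := by
    intro S hS
    rw [h𝒮] at hS
    exact hS.1.1
  have h𝒮i : ∀ S ∈ 𝒮, ∀ x, x ∈ S ↔ f x ∈ S := fun S hS x =>
    (tr_basic f.toHomeomorph S (h𝒮t S hS)).2.2.2.1 x
  obtain ⟨K, hK, hN⟩ := opHyp_sUnion A f 𝒮 h𝒮f h𝒮i (fun S hS => hR S (h𝒮t S hS))
  rw [← hTe] at hN
  have hi : ∀ x, x ∈ Tn (f : M → M) n0 ↔ f x ∈ Tn (f : M → M) n0 := by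
    intro x
    rw [hTe]
    constructor
    · rintro ⟨S, hS, hxS⟩
      exact ⟨S, hS, (h𝒮i S hS x).1 hxS⟩
    · rintro ⟨S, hS, hxS⟩
      exact ⟨S, hS, (h𝒮i S hS x).2 hxS⟩
  have hTc : IsClosed (Tn (f : M → M) n0) := by
    rw [hTe, Set.sUnion_eq_biUnion]
    exact h𝒮f.isClosed_biUnion
      (fun S hS => (tr_basic f.toHomeomorph S (h𝒮t S hS)).1.isClosed)
  have hx0N : x0 ∉ Tn (f : M → M) n0 := by
    rw [hTe]
    rintro ⟨S, hS, hxS⟩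
    rw [h𝒮] at hS
    exact hx0 ⟨S, Or.inl hS.1, hxS⟩
  obtain ⟨σ, hσ, hball⟩ : ∃ σ : ℝ, 0 < σ ∧ ∀ q ∈ Tn (f : M → M) n0, σ ≤ dist q x0 := by
    have h1 : (Tn (f : M → M) n0)ᶜ ∈ 𝓝 x0 := hTc.isOpen_compl.mem_nhds hx0N
    obtain ⟨σ, hσ, h⟩ := Metric.mem_nhds_iff.1 h1
    refine ⟨σ, hσ, fun q hq => ?_⟩
    by_contra hlt
    exact h (Metric.mem_ball.2 (not_le.1 hlt)) hq
  obtain ⟨ρ0, hρ0, hsh⟩ := shadow A f (Tn (f : M → M) n0) hi K hK hN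
  obtain ⟨r1, hr1, hr1a, hr1b⟩ : ∃ r1 : ℝ, 0 < r1 ∧ 2 * r1 ≤ ρ0 ∧ r1 ≤ σ / 4 :=
    ⟨min (ρ0 / 2) (σ / 4), by positivity, by linarith [min_le_left (ρ0 / 2) (σ / 4)],
      min_le_right _ _⟩
  obtain ⟨ε, 𝒰2, hε, h𝒰2, hf2, hS⟩ := hsh r1 hr1
  obtain ⟨𝒰1, h𝒰1, hf1, hcount⟩ := conj_count2 f hs
  have h𝒰 : IsOpen[smoothTop d M] (𝒰1 ∩ 𝒰2) := by
    letI := smoothTop d M
    exact IsOpen.inter h𝒰1 h𝒰2
  obtain ⟨g, hg𝒰, W, hW, hWd, hgf, x, hxx0, hxO, hF, hB⟩ :=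
    hper (𝒰1 ∩ 𝒰2) h𝒰 ⟨hf1, hf2⟩ (σ / 4) (by positivity)
  obtain ⟨K1, hK1, hO1⟩ := hP p hp
  have hWy : ∀ y ∈ orb (f : M → M) p, y ∉ W := fun y hy h => Set.disjoint_left.1 hWd h hy
  have heq : ∀ y ∈ orb (f : M → M) p, (f : M → M) =ᶠ[𝓝 y] (g : M → M) := by
    intro y hy
    have h1 : Wᶜ ∈ 𝓝 y := hW.isOpen_compl.mem_nhds (hWy y hy)
    filter_upwards [h1] with z hz
    exact (hgf z hz).symm
  have hO2 : OpHyp A g (orb (f : M → M) p) K1 := opHyp_congr A f g _ K1 heq hO1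
  have hgo : ∀ y ∈ orb (f : M → M) p, (g : M → M) y = (f : M → M) y :=
    fun y hy => hgf y (hWy y hy)
  have horbg : orb (g : M → M) p = orb (f : M → M) p := orb_congr _ _ p hgo
  have hpg : p ∈ Function.periodicPts (g : M → M) := per_congr _ _ p hgo hp
  rw [← horbg] at hO2 hF hB hxO
  obtain ⟨g', hg'𝒰, hg'O, hg'x, K', hK', hO'⟩ :=
    homOp A ρ g p hpg K1 hK1 hO2 x hxO hF hB (𝒰1 ∩ 𝒰2) h𝒰 hg𝒰
  have horbg' : orb (g' : M → M) p = orb (g : M → M) p := orb_congr _ _ p hg'O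
  have hpg' : p ∈ Function.periodicPts (g' : M → M) := per_congr _ _ p hg'O hpg
  have hF' : Fwd g'.toHomeomorph x (orb (g : M → M) p) := fwd_congr _ _ x _ hg'x hF
  have hB' : Bwd g'.toHomeomorph x (orb (g : M → M) p) := bwd_congr _ _ x _ hg'x hB
  rw [← horbg'] at hF' hB' hO' hxO
  have hi' : ∀ y, y ∈ orb (g' : M → M) p ∪ range (fun n : ℤ => (g'.toHomeomorph ^ n) x) ↔
      g' y ∈ orb (g' : M → M) p ∪ range (fun n : ℤ => (g'.toHomeomorph ^ n) x) := by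
    intro y
    constructor
    · rintro (h | ⟨n, rfl⟩)
      · exact Or.inl ((orb_iff g'.toHomeomorph hpg' y).1 h)
      · exact Or.inr ⟨n + 1, orb_zpow g'.toHomeomorph x n⟩
    · rintro (h | ⟨n, hn⟩)
      · exact Or.inl ((orb_iff g'.toHomeomorph hpg' y).2 h)
      · refine Or.inr ⟨n - 1, ?_⟩
        have h1 := orb_zpow g'.toHomeomorph x (n - 1)
        simp only [sub_add_cancel] at h1
        apply g'.toHomeomorph.injective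
        show g'.toHomeomorph ((g'.toHomeomorph ^ (n - 1)) x) = g'.toHomeomorph y
        rw [← h1]
        exact hn
  have hsp' := sp_of_opHyp A g' _ hi' K' hK' hO'
  obtain ⟨m, hm, q, hq1, hq3, S, hST, hpS, hqS⟩ := horse2 g'.toHomeomorph p hpg' x hxO hF' hB'
    hsp' (σ / 4) (by positivity)
  have hpn' : (g' : M → M)^[n0] p = p := by
    rw [iter_congr _ _ p hg'O n0, iter_congr _ _ p hgo n0]
    exact hpn
  have hq2 : q ∈ Tn (g' : M → M) n0 := ⟨S, ⟨hST, p, hpS, hpn'⟩, hqS⟩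
  obtain ⟨j, hj1, hj2⟩ := persist2 f.toHomeomorph g'.toHomeomorph n0 hn0 ε r1 ρ0 hε hr1.le hr1a
    (hS f hf2) (hS g' hg'𝒰.2) m hm
  have hfinS : {q | (f : M → M)^[m] q = q ∧ q ∈ Tn (f : M → M) n0}.Finite :=
    (finite_fix_of_omegaStable f hs m hm).subset (fun q hq => hq.1)
  refine count_contra _ _ hfinS (hcount g' hg'𝒰.1 n0 m hn0 hm) j hj1
    (fun q1 hq1 => ⟨(hj2 q1 hq1.1 hq1.2).1, (hj2 q1 hq1.1 hq1.2).2.1⟩) q ⟨hq1, hq2⟩ ?_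
  intro q1 hq1' hjq
  have h1 := (hj2 q1 hq1'.1 hq1'.2).2.2 0
  rw [zpow_zero_app, zpow_zero_app, hjq] at h1
  have h2 := hball q1 hq1'.2
  have h3 : dist q1 x0 ≤ dist q1 q + dist q x + dist x x0 := dist_triangle4 _ _ _ _
  rw [dist_comm q1 q] at h3
  linarith

end Pool.Agent.Helper55.OS
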