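import Pool.Agent.Helper55.OS.NRbasic

/-!
# OS-N1 Phase: asymptotic phase with respect to a periodic orbit; half orbits that stay close to a periodic orbit

O = orb f p, finite and invariant (OS-C4). Let σ > 0 be smaller than all distances of distinct points of O (O finite), 0 < τ < σ/2 with dist a b < τ implies dist (f a) (f b) < σ/2 (uniform continuity).
PROOF of `fwd_phase`: there is N such that for n ≥ N some y_n in O has dist ((f^n) x) (y_n) < τ (Fwd, the open set thickening τ O). For n ≥ N: dist (f y_n) (y_(n+1)) ≤ dist (f y_n) ((f^(n+1)) x) + dist ((f^(n+1)) x) (y_(n+1)) < σ, both in O: equal.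
So y_n = (f^(n-N)) y_N for n ≥ N; y_N = (f^j) p, s := j - N. Given 0 < τ' ≤ τ: for large n some point y' of O has dist ((f^n) x) y' < τ'; dist y' y_n < 2 τ < σ, so y' = y_n = (f^(n+s)) p. `bwd_phase`: the same for
n ≥ N, y_n in O with dist ((f^(-n)) x) (y_n) < τ: f (y_(n+1)) = y_n, so y_n = (f^(-(n-N))) y_N.
PROOF of `bwd_of_close`: δ0 := ρ0 of SP f V, V = any set containing O. Let dist ((f^n) z) ((f^(n+s)) p) ≤ δ0 for all n ≤ -N. Suppose Bwd f z O fails: an open W containing O and n_k → -∞ (n_k in ℤ) with (f^(n_k)) z not in W. Subsequence: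
(f^(n_k)) z → w (compactness), w not in W, and n_k mod (period of p) constant =: r. For each m in ℤ and large k, n_k + m ≤ -N: dist ((f^m) ((f^(n_k)) z)) ((f^(m + r + s)) p) ≤ δ0; limit: dist ((f^m) w) ((f^(m+r+s)) p) ≤ δ0 for all m.
The orbits of w and of p' = (f^(r+s)) p are both within ρ0 of the sequence m ↦ (f^m) p' (in V, jumps 0): w = p' in O, in W: contradiction. `fwd_of_close` in the same way.
-/

open Set Topology Filter

namespace Pool.Agent.Helper55.OS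

variable {X : Type} [MetricSpace X] [CompactSpace X]

private theorem ph_sep {O : Set X} (hO : O.Finite) :
    ∃ σ : ℝ, 0 < σ ∧ ∀ a ∈ O, ∀ b ∈ O, dist a b < σ → a = b := by
  have hT : ((O ×ˢ O) ∩ {q : X × X | q.1 ≠ q.2}).Finite := (hO.prod hO).inter_of_left _
  rcases ((O ×ˢ O) ∩ {q : X × X | q.1 ≠ q.2}).eq_empty_or_nonempty with h | h
  · refine ⟨1, one_pos, fun a ha b hb _ => ?_⟩
    by_contra hab
    have : (a, b) ∈ (O ×ˢ O) ∩ {q : X × X | q.1 ≠ q.2} := ⟨⟨ha, hb⟩, hab⟩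
    rw [h] at this
    exact this
  · obtain ⟨q, hq, hmin⟩ := Set.exists_min_image _ (fun q : X × X => dist q.1 q.2) hT h
    refine ⟨dist q.1 q.2, dist_pos.mpr hq.2, fun a ha b hb hab => ?_⟩
    by_contra hne
    have := hmin (a, b) ⟨⟨ha, hb⟩, hne⟩
    simp only at this
    linarith

theorem fwd_phase (f : X ≃ₜ X) (p : X) (hp : p ∈ Function.periodicPts (f : X → X)) (x : X)
    (hx : Fwd f x (orb (f : X → X) p)) :
    ∃ s : ℤ, Tendsto (fun n : ℕ => dist ((f ^ (n : ℤ)) x) ((f ^ ((n : ℤ) + s)) p)) atTop (𝓝 0) := by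
  obtain ⟨σ, hσ, hsep⟩ := ph_sep (orb_finite f hp)
  have huc : UniformContinuous (f : X → X) := CompactSpace.uniformContinuous_of_continuous f.continuous
  obtain ⟨τ, hτ, hfτ⟩ := Metric.uniformContinuous_iff.mp huc (σ / 2) (by linarith)
  have hτ0 : 0 < min τ (σ / 2) := lt_min hτ (by linarith)
  set τ0 := min τ (σ / 2) with hτ0def
  have h1 : τ0 ≤ τ := min_le_left _ _
  have h2 : τ0 ≤ σ / 2 := min_le_right _ _
  have hF : ∀ r : ℝ, 0 < r → ∃ N : ℕ, ∀ n : ℕ, N ≤ n → ∃ y ∈ orb (f : X → X) p,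
      dist ((f ^ (n : ℤ)) x) y < r := by
    intro r hr
    obtain ⟨N, hN⟩ := hx (Metric.thickening r (orb (f : X → X) p)) Metric.isOpen_thickening
      (Metric.self_subset_thickening hr _)
    exact ⟨N, fun n hn => Metric.mem_thickening_iff.mp (hN n hn)⟩
  have horb : ∀ n : ℤ, (f ^ n) p ∈ orb (f : X → X) p := fun n => (orb_eq_zpow f hp _).mpr ⟨n, rfl⟩
  obtain ⟨N, hN⟩ := hF τ0 hτ0
  obtain ⟨y, hy, hxy⟩ := hN N le_rfl
  obtain ⟨j, rfl⟩ := (orb_eq_zpow f hp y).mp hy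
  have key : ∀ n : ℕ, N ≤ n → dist ((f ^ (n : ℤ)) x) ((f ^ ((n : ℤ) + (j - N))) p) < τ0 := by
    intro n hn
    induction n, hn using Nat.le_induction with
    | base =>
      rw [show (N : ℤ) + (j - N) = j by ring]
      exact hxy
    | succ n hn ih =>
      obtain ⟨y', hy', hxy'⟩ := hN (n + 1) (by omega)
      have e1 : (f ^ (((n + 1 : ℕ) : ℤ) + (j - N))) p = f ((f ^ ((n : ℤ) + (j - N))) p) := by
        rw [← orb_zpow f p]
        congr 2
        push_cast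
        ring
      have e2 : (f ^ ((n + 1 : ℕ) : ℤ)) x = f ((f ^ (n : ℤ)) x) := by
        rw [← orb_zpow f x]
        push_cast
        rfl
      have e3 : dist (f ((f ^ (n : ℤ)) x)) (f ((f ^ ((n : ℤ) + (j - N))) p)) < σ / 2 :=
        hfτ (ih.trans_le h1)
      have e4 : (f ^ (((n + 1 : ℕ) : ℤ) + (j - N))) p = y' := by
        apply hsep _ (horb _) _ hy'
        have := dist_triangle_left ((f ^ (((n + 1 : ℕ) : ℤ) + (j - N))) p) y'
          ((f ^ ((n + 1 : ℕ) : ℤ)) x)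
        rw [← e1, ← e2] at e3
        linarith
      rw [e4]
      exact hxy'
  refine ⟨j - N, ?_⟩
  rw [Metric.tendsto_atTop]
  intro r hr
  obtain ⟨N', hN'⟩ := hF (min r τ0) (lt_min hr hτ0)
  refine ⟨max N N', fun n hn => ?_⟩
  obtain ⟨y', hy', hxy'⟩ := hN' n ((le_max_right _ _).trans hn)
  have h3 := key n ((le_max_left _ _).trans hn)
  have h4 : (f ^ ((n : ℤ) + (j - N))) p = y' := by
    apply hsep _ (horb _) _ hy'
    have h5 := dist_triangle_left ((f ^ ((n : ℤ) + (j - N))) p) y' ((f ^ (n : ℤ)) x)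
    have h6 := min_le_right r τ0
    linarith
  rw [h4, Real.dist_eq, sub_zero, abs_of_nonneg dist_nonneg]
  exact hxy'.trans_le (min_le_left _ _)

private theorem ph_inv (f : X ≃ₜ X) (n : ℤ) (x : X) : (f⁻¹ ^ n) x = (f ^ (-n)) x := by
  rw [inv_zpow']

private theorem ph_per (f : X ≃ₜ X) {p : X} (hp : p ∈ Function.periodicPts (f : X → X)) :
    p ∈ Function.periodicPts (f⁻¹ : X ≃ₜ X) := by
  obtain ⟨m, hm, h⟩ := hp
  refine ⟨m, hm, ?_⟩
  have h1 : (f : X → X)^[m] p = p := h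
  show ((f⁻¹ : X ≃ₜ X) : X → X)^[m] p = p
  rw [← zpow_iter, ph_inv]
  rw [← zpow_iter] at h1
  conv_lhs => rw [← h1]
  exact nb_cancel f m p

private theorem ph_orb (f : X ≃ₜ X) {p : X} (hp : p ∈ Function.periodicPts (f : X → X)) :
    orb ((f⁻¹ : X ≃ₜ X) : X → X) p = orb (f : X → X) p := by
  ext y
  rw [orb_eq_zpow f hp, orb_eq_zpow f⁻¹ (ph_per f hp)]
  constructor
  · rintro ⟨n, rfl⟩
    exact ⟨-n, ph_inv f n p⟩
  · rintro ⟨n, rfl⟩
    refine ⟨-n, ?_⟩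
    rw [ph_inv, neg_neg]

theorem bwd_phase (f : X ≃ₜ X) (p : X) (hp : p ∈ Function.periodicPts (f : X → X)) (x : X)
    (hx : Bwd f x (orb (f : X → X) p)) :
    ∃ t : ℤ, Tendsto (fun n : ℕ => dist ((f ^ (-(n : ℤ))) x) ((f ^ (-(n : ℤ) + t)) p)) atTop
      (𝓝 0) := by
  have h1 : Fwd f⁻¹ x (orb ((f⁻¹ : X ≃ₜ X) : X → X) p) := by
    rw [ph_orb f hp]
    intro W hW hOW
    obtain ⟨N, hN⟩ := hx W hW hOW
    refine ⟨N, fun n hn => ?_⟩
    rw [ph_inv]
    exact hN n hn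
  obtain ⟨s, hs⟩ := fwd_phase f⁻¹ p (ph_per f hp) x h1
  refine ⟨-s, hs.congr fun n => ?_⟩
  rw [ph_inv, ph_inv, neg_add]

private theorem ph_close (f : X ≃ₜ X) (V : Set X) {ε ρ ρ0 : ℝ} (hε : 0 < ε)
    (hS : Shad (f : X → X) (f : X → X) V ε ρ ρ0) {p : X}
    (hp : p ∈ Function.periodicPts (f : X → X)) (hpV : orb (f : X → X) p ⊆ V) (z : X) (s : ℤ)
    (n : ℕ → ℤ) (hn : ∀ m : ℤ, ∀ᶠ k in atTop, dist ((f ^ (m + n k)) z) ((f ^ (m + n k + s)) p) ≤ ρ0)
    (W : Set X) (hW : IsOpen W) (hOW : orb (f : X → X) p ⊆ W) (hz : ∀ k, (f ^ (n k)) z ∉ W) :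
    False := by
  have horb : ∀ n : ℤ, (f ^ n) p ∈ orb (f : X → X) p := fun n => (orb_eq_zpow f hp _).mpr ⟨n, rfl⟩
  set U : Ultrafilter ℕ := Ultrafilter.of atTop with hU
  have hUle : (U : Filter ℕ) ≤ atTop := Ultrafilter.of_le atTop
  obtain ⟨w, -, hw⟩ := isCompact_univ.ultrafilter_le_nhds (U.map fun k => (f ^ (n k)) z) (by simp)
  obtain ⟨p', hp', hpl⟩ := (orb_finite f hp).isCompact.ultrafilter_le_nhds
    (U.map fun k => (f ^ (n k + s)) p) (by
      rw [le_principal_iff]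
      exact Filter.mem_map.mpr (Filter.univ_mem' fun k => horb _))
  have hw' : Tendsto (fun k => (f ^ (n k)) z) U (𝓝 w) := hw
  have hpl' : Tendsto (fun k => (f ^ (n k + s)) p) U (𝓝 p') := hpl
  have hwW : w ∉ W := by
    intro hwW
    obtain ⟨k, hk⟩ := (hw'.eventually (hW.mem_nhds hwW)).exists
    exact hz k hk
  have hd : ∀ m : ℤ, dist ((f ^ m) w) ((f ^ m) p') ≤ ρ0 := by
    intro m
    have h1 : Tendsto (fun k => (f ^ m) ((f ^ (n k)) z)) U (𝓝 ((f ^ m) w)) :=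
      ((f ^ m : X ≃ₜ X).continuous.tendsto w).comp hw'
    have h2 : Tendsto (fun k => (f ^ m) ((f ^ (n k + s)) p)) U (𝓝 ((f ^ m) p')) :=
      ((f ^ m : X ≃ₜ X).continuous.tendsto p').comp hpl'
    refine le_of_tendsto (h1.dist h2) ?_
    filter_upwards [hUle (hn m)] with k hk
    rw [← zpow_add_app, ← zpow_add_app, ← add_assoc]
    exact hk
  have hp'V : ∀ m : ℤ, (f ^ m) p' ∈ orb (f : X → X) p := by
    intro m
    obtain ⟨l, rfl⟩ := (orb_eq_zpow f hp p').mp hp'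
    rw [← zpow_add_app]
    exact horb _
  have hρ0 : 0 ≤ ρ0 := dist_nonneg.trans (hd 0)
  have huniq := (hS (fun m : ℤ => (f ^ m) p') (fun m => ⟨_, hpV (hp'V m), by rw [dist_self]; exact hε⟩)
    (fun m => by
      have h1 := orb_zpow f p' m
      simp only at h1
      rw [← h1, dist_self]
      exact hε)).2 (fun m => (f ^ m) w) (fun m => (f ^ m) p') (orb_zpow f w) (orb_zpow f p') hd
      (fun m => by rw [dist_self]; exact hρ0)
  have h0 := congrFun huniq 0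
  simp only [zpow_zero_app] at h0
  rw [h0] at hwW
  exact hwW (hOW hp')

theorem bwd_of_close (f : X ≃ₜ X) (V : Set X) (hV : SP (f : X → X) V) (p : X)
    (hp : p ∈ Function.periodicPts (f : X → X)) (hpV : orb (f : X → X) p ⊆ V) :
    ∃ δ0 : ℝ, 0 < δ0 ∧ ∀ (z : X) (N : ℕ) (s : ℤ),
      (∀ n : ℤ, n ≤ -N → dist ((f ^ n) z) ((f ^ (n + s)) p) ≤ δ0) → Bwd f z (orb (f : X → X) p) := by
  obtain ⟨ρ0, hρ0, hV⟩ := hV
  obtain ⟨ε, hε, hS⟩ := hV 1 one_pos
  refine ⟨ρ0, hρ0, fun z N s hz => ?_⟩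
  intro W hW hOW
  by_contra hcon
  push Not at hcon
  choose n hn hnW using hcon
  refine ph_close f V hε hS hp hpV z s (fun k => -(n k : ℤ)) ?_ W hW hOW hnW
  intro m
  filter_upwards [eventually_ge_atTop (N + m.toNat)] with k hk
  apply hz
  have h1 := hn k
  have h2 : m ≤ (m.toNat : ℤ) := Int.self_le_toNat m
  have h3 : ((N + m.toNat : ℕ) : ℤ) ≤ (n k : ℤ) := by exact_mod_cast hk.trans h1
  push_cast at h3
  linarith

theorem fwd_of_close (f : X ≃ₜ X) (V : Set X) (hV : SP (f : X → X) V) (p : X)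
    (hp : p ∈ Function.periodicPts (f : X → X)) (hpV : orb (f : X → X) p ⊆ V) :
    ∃ δ0 : ℝ, 0 < δ0 ∧ ∀ (z : X) (N : ℕ) (s : ℤ),
      (∀ n : ℤ, N ≤ n → dist ((f ^ n) z) ((f ^ (n + s)) p) ≤ δ0) → Fwd f z (orb (f : X → X) p) := by
  obtain ⟨ρ0, hρ0, hV⟩ := hV
  obtain ⟨ε, hε, hS⟩ := hV 1 one_pos
  refine ⟨ρ0, hρ0, fun z N s hz => ?_⟩
  intro W hW hOW
  by_contra hcon
  push Not at hcon
  choose n hn hnW using hcon
  refine ph_close f V hε hS hp hpV z s (fun k => (n k : ℤ)) ?_ W hW hOW hnW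
  intro m
  filter_upwards [eventually_ge_atTop (N + (-m).toNat)] with k hk
  apply hz
  have h1 := hn k
  have h2 : -m ≤ ((-m).toNat : ℤ) := Int.self_le_toNat (-m)
  have h3 : ((N + (-m).toNat : ℕ) : ℤ) ≤ (n k : ℤ) := by exact_mod_cast hk.trans h1
  push_cast at h3
  linarith

end Pool.Agent.Helper55.OS
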