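import Pool.Agent.Helper55.OS.Patch

/-!
# OS-S4 SplitInv: stable and unstable spaces of a sequence, dimensions

For a sequence a of invertible maps (here: `∀ n v, ∃ w, a n w = v` is not needed; we use continuous linear equivalences) put
S_m(a) = {v : the forward solution z_m = v, z_{n+1} = a_n z_n (n ≥ m) is bounded},
U_m(a) = {v : there is a bounded backward solution (z_n)_{n ≤ m}, z_m = v}.
Both are submodules.
PROOFS. We use sequences z : ℤ → F and only look at n ≥ m (resp. n ≤ m).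
* `isCompl_SU`: Inv K a. Let v be in F, b_n = v for n = m - 1 and 0 otherwise, z the bounded solution: z_m = a_{m-1} z_{m-1} + v. For n ≥ m the
  sequence is homogeneous and bounded, so z_m is in S_m. u := a_{m-1} z_{m-1}: the sequence z_n (n ≤ m-1), u at m is a bounded
  homogeneous solution on n ≤ m, so u is in U_m. v = z_m - u. If v is in S_m and U_m: glue the two bounded homogeneous solutions to a
  bounded homogeneous solution on ℤ, which is 0 by uniqueness, so v = 0.
* `S_congr`: S_m depends only on a_n, n ≥ m; `U_congr`: U_m depends only on a_n, n < m.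
* `finrank_S_eq`: F finite dimensional, Inv K a, η from `inv_pert K`, ‖b_n - a_n‖ ≤ η for n ≥ m. Let c_n = b_n for n ≥ m, a_n for n < m. Then Inv (8K) c. By
  `isCompl_SU` for a and c: S_m(a) ⊕ U_m(a) = F = S_m(c) ⊕ U_m(c), S_m(c) = S_m(b), U_m(c) = U_m(a): the dimensions of S_m(a), S_m(b) are
  equal. `finrank_U_eq` in the same way (b close to a for n < m, c_n = b_n for n < m, a_n for n ≥ m).
* `halfF`: (same c) for a bounded right hand side w the bounded solution for c (with w_n for n ≥ m, 0 for n < m) solves the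
  b-equation for n ≥ m with bound 8 K C. `halfB` in the same way for n < m.
* `finrank_S_shift`: for continuous linear equivalences: a_m maps S_m onto S_{m+1}, so the dimensions of all S_m are equal
  (induction in both directions). Same for U.
-/

namespace Pool.Agent.Helper55.OS

variable {F : Type} [NormedAddCommGroup F] [NormedSpace ℝ F]

/-- Initial values at time `m` of bounded forward solutions. -/
def SS (a : ℤ → F →L[ℝ] F) (m : ℤ) : Submodule ℝ F where
  carrier := {v | ∃ z : ℤ → F, z m = v ∧ (∀ n, m ≤ n → z (n + 1) = a n (z n)) ∧ ∃ C, ∀ n, m ≤ n → ‖z n‖ ≤ C}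
  add_mem' := by
    rintro v w ⟨z, h1, h2, C, h3⟩ ⟨y, k1, k2, D, k3⟩
    refine ⟨fun n => z n + y n, ?_, fun n hn => ?_, C + D, fun n hn => ?_⟩
    · simp only [h1, k1]
    · simp only [h2 n hn, k2 n hn, map_add]
    · exact (norm_add_le _ _).trans (add_le_add (h3 n hn) (k3 n hn))
  zero_mem' := ⟨fun _ => 0, rfl, fun n _ => by simp only [map_zero], 0, fun n _ => by
    simp only [norm_zero, le_refl]⟩
  smul_mem' := by
    rintro c v ⟨z, h1, h2, C, h3⟩
    refine ⟨fun n => c • z n, ?_, fun n hn => ?_, |c| * C, fun n hn => ?_⟩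
    · simp only [h1]
    · simp only [h2 n hn, map_smul]
    · rw [norm_smul, Real.norm_eq_abs]
      exact mul_le_mul_of_nonneg_left (h3 n hn) (abs_nonneg c)

/-- Values at time `m` of bounded backward solutions. -/
def UU (a : ℤ → F →L[ℝ] F) (m : ℤ) : Submodule ℝ F where
  carrier := {v | ∃ z : ℤ → F, z m = v ∧ (∀ n, n < m → z (n + 1) = a n (z n)) ∧ ∃ C, ∀ n, n ≤ m → ‖z n‖ ≤ C}
  add_mem' := by
    rintro v w ⟨z, h1, h2, C, h3⟩ ⟨y, k1, k2, D, k3⟩
    refine ⟨fun n => z n + y n, ?_, fun n hn => ?_, C + D, fun n hn => ?_⟩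
    · simp only [h1, k1]
    · simp only [h2 n hn, k2 n hn, map_add]
    · exact (norm_add_le _ _).trans (add_le_add (h3 n hn) (k3 n hn))
  zero_mem' := ⟨fun _ => 0, rfl, fun n _ => by simp only [map_zero], 0, fun n _ => by
    simp only [norm_zero, le_refl]⟩
  smul_mem' := by
    rintro c v ⟨z, h1, h2, C, h3⟩
    refine ⟨fun n => c • z n, ?_, fun n hn => ?_, |c| * C, fun n hn => ?_⟩
    · simp only [h1]
    · simp only [h2 n hn, map_smul]
    · rw [norm_smul, Real.norm_eq_abs]
      exact mul_le_mul_of_nonneg_left (h3 n hn) (abs_nonneg c)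

theorem mem_SS {a : ℤ → F →L[ℝ] F} {m : ℤ} {v : F} : v ∈ SS a m ↔ ∃ z : ℤ → F, z m = v ∧
    (∀ n, m ≤ n → z (n + 1) = a n (z n)) ∧ ∃ C, ∀ n, m ≤ n → ‖z n‖ ≤ C := Iff.rfl

theorem mem_UU {a : ℤ → F →L[ℝ] F} {m : ℤ} {v : F} : v ∈ UU a m ↔ ∃ z : ℤ → F, z m = v ∧
    (∀ n, n < m → z (n + 1) = a n (z n)) ∧ ∃ C, ∀ n, n ≤ m → ‖z n‖ ≤ C := Iff.rfl

theorem isCompl_SU {K : ℝ} {a : ℤ → F →L[ℝ] F} (h : Inv K a) (m : ℤ) : IsCompl (SS a m) (UU a m) := by
  constructor
  · rw [Submodule.disjoint_def]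
    intro v hv hu
    obtain ⟨z, h1, h2, C, h3⟩ := mem_SS.1 hv
    obtain ⟨y, k1, k2, D, k3⟩ := mem_UU.1 hu
    obtain ⟨x, hx⟩ : ∃ x : ℤ → F, ∀ n, x n = if n < m then y n else z n := ⟨_, fun _ => rfl⟩
    obtain ⟨w, hw1, hw2, hw3⟩ := h (fun _ => 0) 0 (fun n => by simp)
    have e1 : x = w := by
      refine hw3 x ⟨max C D, fun n => ?_⟩ fun n => ?_
      · rw [hx]
        by_cases hn : n < m
        · rw [if_pos hn]
          exact (k3 n hn.le).trans (le_max_right _ _)
        · rw [if_neg hn]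
          exact (h3 n (not_lt.1 hn)).trans (le_max_left _ _)
      · rw [hx, hx, add_zero]
        by_cases hn : n < m
        · rw [if_pos hn]
          by_cases hn1 : n + 1 < m
          · rw [if_pos hn1]
            exact k2 n hn
          · have hm : n + 1 = m := by omega
            rw [if_neg hn1, ← k2 n hn, hm, h1, k1]
        · rw [if_neg hn, if_neg (by omega)]
          exact h2 n (not_lt.1 hn)
    have e2 : (fun _ => 0) = w := hw3 _ ⟨0, fun n => by simp⟩ (fun n => by simp)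
    have e3 : x m = 0 := by rw [e1, ← e2]
    rw [hx, if_neg (lt_irrefl m), h1] at e3
    exact e3
  · rw [codisjoint_iff, eq_top_iff]
    intro v _
    obtain ⟨b, hb⟩ : ∃ b : ℤ → F, ∀ n, b n = if n = m - 1 then v else 0 := ⟨_, fun _ => rfl⟩
    obtain ⟨z, hz1, hz2, -⟩ := h b ‖v‖ (fun n => by
      rw [hb]
      by_cases hn : n = m - 1
      · rw [if_pos hn]
      · rw [if_neg hn, norm_zero]
        exact norm_nonneg v)
    have e1 : z m = a (m - 1) (z (m - 1)) + v := by
      have := hz2 (m - 1)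
      rw [hb, if_pos rfl, sub_add_cancel] at this
      exact this
    have hS : z m ∈ SS a m := by
      refine mem_SS.2 ⟨z, rfl, fun n hn => ?_, K * ‖v‖, fun n _ => hz1 n⟩
      rw [hz2, hb, if_neg (by omega), add_zero]
    have hU : a (m - 1) (z (m - 1)) ∈ UU a m := by
      obtain ⟨y, hy⟩ : ∃ y : ℤ → F, ∀ n, y n = if n = m then a (m - 1) (z (m - 1)) else z n :=
        ⟨_, fun _ => rfl⟩
      refine mem_UU.2 ⟨y, by rw [hy, if_pos rfl], fun n hn => ?_,
        max (K * ‖v‖) ‖a (m - 1) (z (m - 1))‖, fun n hn => ?_⟩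
      · rw [hy, hy, if_neg hn.ne]
        by_cases h1 : n + 1 = m
        · rw [if_pos h1]
          have h2 : n = m - 1 := by omega
          rw [h2]
        · rw [if_neg h1, hz2, hb, if_neg (by omega), add_zero]
      · rw [hy]
        by_cases h1 : n = m
        · rw [if_pos h1]
          exact le_max_right _ _
        · rw [if_neg h1]
          exact (hz1 n).trans (le_max_left _ _)
    have e2 : v = z m - a (m - 1) (z (m - 1)) := by
      rw [e1]
      abel
    rw [e2]
    exact Submodule.sub_mem_sup hS hU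

private theorem SS_le {a b : ℤ → F →L[ℝ] F} {m : ℤ} (h : ∀ n, m ≤ n → a n = b n) : SS a m ≤ SS b m := by
  intro v hv
  obtain ⟨z, h1, h2, C, h3⟩ := mem_SS.1 hv
  exact mem_SS.2 ⟨z, h1, fun n hn => by rw [← h n hn]; exact h2 n hn, C, h3⟩

private theorem UU_le {a b : ℤ → F →L[ℝ] F} {m : ℤ} (h : ∀ n, n < m → a n = b n) : UU a m ≤ UU b m := by
  intro v hv
  obtain ⟨z, h1, h2, C, h3⟩ := mem_UU.1 hv
  exact mem_UU.2 ⟨z, h1, fun n hn => by rw [← h n hn]; exact h2 n hn, C, h3⟩

theorem SS_congr {a b : ℤ → F →L[ℝ] F} {m : ℤ} (h : ∀ n, m ≤ n → a n = b n) : SS a m = SS b m :=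
  le_antisymm (SS_le h) (SS_le fun n hn => (h n hn).symm)

theorem UU_congr {a b : ℤ → F →L[ℝ] F} {m : ℤ} (h : ∀ n, n < m → a n = b n) : UU a m = UU b m :=
  le_antisymm (UU_le h) (UU_le fun n hn => (h n hn).symm)

theorem exists_eta [FiniteDimensional ℝ F] (K : ℝ) (hK : 1 ≤ K) :
    ∃ η : ℝ, 0 < η ∧ ∀ a b : ℤ → F →L[ℝ] F, ∀ m : ℤ, Inv K a →
      ((∀ n, m ≤ n → ‖b n - a n‖ ≤ η) →
        Module.finrank ℝ (SS b m) = Module.finrank ℝ (SS a m) ∧
        ∀ (w : ℤ → F) (C : ℝ), (∀ n, ‖w n‖ ≤ C) → ∃ z : ℤ → F, (∀ n, ‖z n‖ ≤ 8 * K * C) ∧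
          ∀ n, m ≤ n → z (n + 1) = b n (z n) + w n) ∧
      ((∀ n, n < m → ‖b n - a n‖ ≤ η) →
        Module.finrank ℝ (UU b m) = Module.finrank ℝ (UU a m) ∧
        ∀ (w : ℤ → F) (C : ℝ), (∀ n, ‖w n‖ ≤ C) → ∃ z : ℤ → F, (∀ n, ‖z n‖ ≤ 8 * K * C) ∧
          ∀ n, n < m → z (n + 1) = b n (z n) + w n) := by
  have : CompleteSpace F := FiniteDimensional.complete ℝ F
  obtain ⟨η, hη, hp⟩ := inv_pert (F := F) K hK
  refine ⟨η, hη, fun a b m ha => ⟨fun hab => ?_, fun hab => ?_⟩⟩
  · obtain ⟨c, hc⟩ : ∃ c : ℤ → F →L[ℝ] F, ∀ n, c n = if m ≤ n then b n else a n := ⟨_, fun _ => rfl⟩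
    have hcI : Inv (8 * K) c := by
      refine hp a c ha fun n => ?_
      rw [hc]
      by_cases hn : m ≤ n
      · rw [if_pos hn]
        exact hab n hn
      · rw [if_neg hn, sub_self, norm_zero]
        exact hη.le
    have e1 : SS c m = SS b m := SS_congr fun n hn => by rw [hc, if_pos hn]
    have e2 : UU c m = UU a m := UU_congr fun n hn => by rw [hc, if_neg (not_le.2 hn)]
    have e3 := Submodule.finrank_add_eq_of_isCompl (isCompl_SU ha m)
    have e4 := Submodule.finrank_add_eq_of_isCompl (isCompl_SU hcI m)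
    rw [e1, e2] at e4
    refine ⟨by omega, fun w C hw => ?_⟩
    obtain ⟨z, hz1, hz2, -⟩ := hcI w C hw
    refine ⟨z, hz1, fun n hn => ?_⟩
    rw [hz2, hc, if_pos hn]
  · obtain ⟨c, hc⟩ : ∃ c : ℤ → F →L[ℝ] F, ∀ n, c n = if n < m then b n else a n := ⟨_, fun _ => rfl⟩
    have hcI : Inv (8 * K) c := by
      refine hp a c ha fun n => ?_
      rw [hc]
      by_cases hn : n < m
      · rw [if_pos hn]
        exact hab n hn
      · rw [if_neg hn, sub_self, norm_zero]
        exact hη.le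
    have e1 : UU c m = UU b m := UU_congr fun n hn => by rw [hc, if_pos hn]
    have e2 : SS c m = SS a m := SS_congr fun n hn => by rw [hc, if_neg (not_lt.2 hn)]
    have e3 := Submodule.finrank_add_eq_of_isCompl (isCompl_SU ha m)
    have e4 := Submodule.finrank_add_eq_of_isCompl (isCompl_SU hcI m)
    rw [e1, e2] at e4
    refine ⟨by omega, fun w C hw => ?_⟩
    obtain ⟨z, hz1, hz2, -⟩ := hcI w C hw
    refine ⟨z, hz1, fun n hn => ?_⟩
    rw [hz2, hc, if_pos hn]

private theorem const_of_step (f : ℤ → ℕ) (h : ∀ m, f (m + 1) = f m) (m k : ℤ) : f m = f k := by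
  have h0 : ∀ m, f m = f 0 := by
    intro m
    induction m using Int.induction_on with
    | zero => rfl
    | succ i ih => rw [h, ih]
    | pred i ih =>
      have := h (-(i : ℤ) - 1)
      rw [sub_add_cancel] at this
      rw [← this, ih]
  rw [h0 m, h0 k]

theorem finrank_SS_shift [FiniteDimensional ℝ F] (a : ℤ → F ≃L[ℝ] F) (m k : ℤ) :
    Module.finrank ℝ (SS (fun n => (a n : F →L[ℝ] F)) m) =
      Module.finrank ℝ (SS (fun n => (a n : F →L[ℝ] F)) k) := by
  refine const_of_step (fun m => Module.finrank ℝ (SS (fun n => (a n : F →L[ℝ] F)) m)) ?_ m k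
  intro m
  have e : SS (fun n => (a n : F →L[ℝ] F)) (m + 1) =
      (SS (fun n => (a n : F →L[ℝ] F)) m).map ((a m).toLinearEquiv : F →ₗ[ℝ] F) := by
    apply le_antisymm
    · intro v hv
      obtain ⟨z, h1, h2, C, h3⟩ := mem_SS.1 hv
      refine ⟨(a m).symm v, ?_, (a m).apply_symm_apply v⟩
      obtain ⟨y, hy⟩ : ∃ y : ℤ → F, ∀ n, y n = if n = m then (a m).symm v else z n :=
        ⟨_, fun _ => rfl⟩
      refine mem_SS.2 ⟨y, by rw [hy, if_pos rfl], fun n hn => ?_, max C ‖(a m).symm v‖, fun n hn => ?_⟩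
      · rw [hy, hy, if_neg (by omega)]
        by_cases h4 : n = m
        · rw [if_pos h4, h4, h1]
          exact ((a m).apply_symm_apply v).symm
        · rw [if_neg h4]
          exact h2 n (by omega)
      · rw [hy]
        by_cases h4 : n = m
        · rw [if_pos h4]
          exact le_max_right _ _
        · rw [if_neg h4]
          exact (h3 n (by omega)).trans (le_max_left _ _)
    · rintro _ ⟨v, hv, rfl⟩
      obtain ⟨z, h1, h2, C, h3⟩ := mem_SS.1 hv
      refine mem_SS.2 ⟨z, ?_, fun n hn => h2 n (by omega), C, fun n hn => h3 n (by omega)⟩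
      rw [h2 m le_rfl, h1]
      rfl
  rw [e]
  exact LinearEquiv.finrank_map_eq _ _

theorem finrank_UU_shift [FiniteDimensional ℝ F] (a : ℤ → F ≃L[ℝ] F) (m k : ℤ) :
    Module.finrank ℝ (UU (fun n => (a n : F →L[ℝ] F)) m) =
      Module.finrank ℝ (UU (fun n => (a n : F →L[ℝ] F)) k) := by
  refine const_of_step (fun m => Module.finrank ℝ (UU (fun n => (a n : F →L[ℝ] F)) m)) ?_ m k
  intro m
  have e : UU (fun n => (a n : F →L[ℝ] F)) (m + 1) =
      (UU (fun n => (a n : F →L[ℝ] F)) m).map ((a m).toLinearEquiv : F →ₗ[ℝ] F) := by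
    apply le_antisymm
    · intro v hv
      obtain ⟨z, h1, h2, C, h3⟩ := mem_UU.1 hv
      refine ⟨z m, mem_UU.2 ⟨z, rfl, fun n hn => h2 n (by omega), C, fun n hn => h3 n (by omega)⟩, ?_⟩
      rw [← h1, h2 m (by omega)]
      rfl
    · rintro _ ⟨v, hv, rfl⟩
      obtain ⟨z, h1, h2, C, h3⟩ := mem_UU.1 hv
      obtain ⟨y, hy⟩ : ∃ y : ℤ → F, ∀ n, y n = if n = m + 1 then a m v else z n := ⟨_, fun _ => rfl⟩
      refine mem_UU.2 ⟨y, by rw [hy, if_pos rfl]; rfl, fun n hn => ?_, max C ‖a m v‖, fun n hn => ?_⟩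
      · rw [hy, hy, if_neg (show n ≠ m + 1 by omega)]
        by_cases h4 : n + 1 = m + 1
        · rw [if_pos h4]
          have h5 : n = m := by omega
          rw [h5, h1]
          rfl
        · rw [if_neg h4]
          exact h2 n (by omega)
      · rw [hy]
        by_cases h4 : n = m + 1
        · rw [if_pos h4]
          exact le_max_right _ _
        · rw [if_neg h4]
          exact (h3 n (by omega)).trans (le_max_left _ _)
  rw [e]
  exact LinearEquiv.finrank_map_eq _ _

end Pool.Agent.Helper55.OS
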