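import Mathlib

/-!
# Omega-stability, hyperbolicity, Axiom A: the definitions of the statements

`M` is a smooth manifold modelled on the normed space `V` (in the theorems `V = EuclideanSpace ℝ (Fin d)`).
-/

open Set Topology Manifold ContDiff

namespace Pool.Agent.Helper55.OS.Stat

section Maps

variable {X : Type} [TopologicalSpace X]

/-- The nonwandering set of `T`. -/
def omega (T : X → X) : Set X :=
  {x | ∀ U ∈ 𝓝 x, ∃ n : ℕ, 1 ≤ n ∧ (T^[n] '' U ∩ U).Nonempty}

/-- The periodic points of `T`. -/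
def Per (T : X → X) : Set X := {x | ∃ n : ℕ, 1 ≤ n ∧ T^[n] x = x}

/-- `x` is a (positively) recurrent point of `T`. -/
def Rec (T : X → X) (x : X) : Prop := ∀ U ∈ 𝓝 x, ∃ n : ℕ, 1 ≤ n ∧ T^[n] x ∈ U

/-- The closure of the set of the recurrent points of `T` that are not periodic. -/
def NR (T : X → X) : Set X := closure {x | Rec T x ∧ x ∉ Per T}

/-- `T` and `T'` are conjugate on their nonwandering sets. -/
def OmegaConjugate (T T' : X → X) : Prop :=
  ∃ h : omega T ≃ₜ omega T', ∀ x y : omega T, (y : X) = T x → (h y : X) = T' (h x)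

end Maps

section Manifold

variable (V : Type) [NormedAddCommGroup V] [NormedSpace ℝ V] (M : Type) [TopologicalSpace M]
  [ChartedSpace V M]

/-- The `C^∞` diffeomorphisms of `M`. -/
abbrev Dif : Type := Diffeomorph 𝓘(ℝ, V) 𝓘(ℝ, V) M M ∞

variable {V M}

/-- A diffeomorphism as a map. -/
noncomputable def map (f : Dif V M) : M → M := f

/-- The inverse of a diffeomorphism. -/
noncomputable def inv (f : Dif V M) : Dif V M := f.symm

/-- The inverse of the chart at `c`. -/
noncomputable def point (c : M) (z : V) : M := (extChartAt 𝓘(ℝ, V) c).symm z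

/-- The domain of the chart at `c`. -/
def dom (V : Type) [NormedAddCommGroup V] [NormedSpace ℝ V] {M : Type} [TopologicalSpace M]
    [ChartedSpace V M] (c : M) : Set M := (extChartAt 𝓘(ℝ, V) c).source

/-- The image of the chart at `c`. -/
def img (c : M) : Set V := (extChartAt 𝓘(ℝ, V) c).target

/-- The map `f` read in the charts at `c` and `c'`. -/
noncomputable def read (f : Dif V M) (c c' : M) (z : V) : V := extChartAt 𝓘(ℝ, V) c' (map f (point c z))

/-- The `g` such that `g` maps the part `K` of the chart at `c` into the chart at `c'` and, read in these charts, all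
derivatives of `g` up to order `r` are `ε`-close to those of `f` on `K`. -/
def near (f : Dif V M) (c c' : M) (K : Set V) (r : ℕ) (ε : ℝ) : Set (Dif V M) :=
  {g | (∀ z ∈ K, map g (point c z) ∈ dom V c') ∧
    ∀ z ∈ K, ∀ k ≤ r, ‖iteratedFDeriv ℝ k (read g c c') z - iteratedFDeriv ℝ k (read f c c') z‖ < ε}

variable (V M) in
/-- The `C^∞` topology on the set of the diffeomorphisms: uniform convergence of all derivatives on the compact
subsets of the charts. -/
def smoothTop : TopologicalSpace (Dif V M) :=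
  TopologicalSpace.generateFrom {U | ∃ (f : Dif V M) (c c' : M) (K : Set V) (r : ℕ) (ε : ℝ),
    IsCompact K ∧ K ⊆ img c ∧ (∀ z ∈ K, map f (point c z) ∈ dom V c') ∧ 0 < ε ∧
    U = near f c c' K r ε}

/-- `f` is Omega-stable in the `C^∞` topology. -/
def OmegaStable (f : Dif V M) : Prop :=
  ∃ U : Set (Dif V M), IsOpen[smoothTop V M] U ∧ f ∈ U ∧ ∀ g ∈ U, OmegaConjugate (map f) (map g)

/-- The tangent space of `M` at `x`. -/
abbrev Tan (V : Type) [NormedAddCommGroup V] [NormedSpace ℝ V] {M : Type} [TopologicalSpace M]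
    [ChartedSpace V M] (x : M) : Type :=
  TangentSpace 𝓘(ℝ, V) x

/-- Families of linear subspaces of the tangent spaces. -/
abbrev Distr (V : Type) [NormedAddCommGroup V] [NormedSpace ℝ V] (M : Type) [TopologicalSpace M]
    [ChartedSpace V M] : Type :=
  ∀ x : M, Submodule ℝ (Tan V x)

/-- The derivative of `f^n` at `x`. -/
noncomputable def deriv (f : Dif V M) (n : ℕ) (x : M) (v : Tan V x) : Tan V ((map f)^[n] x) :=
  mfderiv 𝓘(ℝ, V) 𝓘(ℝ, V) (map f)^[n] x v

/-- `W` is invariant under the derivative of `f` over `Λ`. -/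
def Invariant (f : Dif V M) (Λ : Set M) (W : Distr V M) : Prop :=
  ∀ x ∈ Λ, ∀ v ∈ W x, mfderiv 𝓘(ℝ, V) 𝓘(ℝ, V) (map f) x v ∈ W (map f x)

variable [IsManifold 𝓘(ℝ, V) ∞ M]

/-- `W` is closed in the tangent bundle over `Λ`. -/
def ClosedOver (Λ : Set M) (W : Distr V M) : Prop :=
  IsClosed {v : TangentBundle 𝓘(ℝ, V) M | v.1 ∈ Λ ∧ v.2 ∈ W v.1}

variable (V M) in
/-- A smooth Riemannian metric on `M`. -/
abbrev Metric : Type :=
  Bundle.ContMDiffRiemannianMetric 𝓘(ℝ, V) ∞ V (fun x : M => TangentSpace 𝓘(ℝ, V) x)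

/-- The norm of a tangent vector. -/
noncomputable def tnorm (ρ : Metric V M) (x : M) (v : Tan V x) : ℝ := Real.sqrt (ρ.inner x v v)

/-- `f` expands the vectors of `W` over `Λ` uniformly. -/
def Expands (ρ : Metric V M) (f : Dif V M) (Λ : Set M) (W : Distr V M) (c r : ℝ) : Prop :=
  ∀ x ∈ Λ, ∀ n : ℕ, 1 ≤ n → ∀ v ∈ W x,
    c * r ^ n * tnorm ρ x v ≤ tnorm ρ ((map f)^[n] x) (deriv f n x v)

/-- The set `Λ` has a hyperbolic structure for `f`. -/
def HypOn (ρ : Metric V M) (f : Dif V M) (Λ : Set M) : Prop :=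
  ∃ Es Eu : Distr V M, (∀ x ∈ Λ, IsCompl (Es x) (Eu x)) ∧ Invariant f Λ Es ∧ Invariant f Λ Eu ∧
    ClosedOver Λ Es ∧ ClosedOver Λ Eu ∧
    ∃ c r : ℝ, 0 < c ∧ 1 < r ∧ Expands ρ f Λ Eu c r ∧ Expands ρ (inv f) Λ Es c r

/-- Axiom A. -/
def AxiomA (ρ : Metric V M) (f : Dif V M) : Prop :=
  omega (map f) ⊆ closure (Per (map f)) ∧ HypOn ρ f (omega (map f))

end Manifold

end Pool.Agent.Helper55.OS.Stat
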