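import Pool.Agent.Helper55.OS.Stat
import Pool.Agent.Helper55.OS.Defs

/-!
# The definitions of the statements (Stat) agree with those of the proofs (Defs)
-/

open Set Topology Manifold ContDiff

namespace Pool.Agent.Helper55.OS

variable {d : ℕ} {M : Type} [TopologicalSpace M] [ChartedSpace (E d) M]

theorem omega_bridge {X : Type} [TopologicalSpace X] (T : X → X) : Stat.omega T = omega T := rfl

theorem per_bridge {X : Type} (T : X → X) : Stat.Per T = Function.periodicPts T := rfl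

theorem nr_bridge {X : Type} [TopologicalSpace X] (T : X → X) : Stat.NR T = NR T := rfl

theorem omegaStable_bridge (f : Dif d M) : Stat.OmegaStable f ↔ OmegaStable f := Iff.rfl

theorem hypOn_bridge [IsManifold (𝓡 d) ∞ M] (ρ : Metric d M) (f : Dif d M) (Λ : Set M) :
    Stat.HypOn ρ f Λ ↔ HypOn ρ f Λ := by
  constructor
  · rintro ⟨Es, Eu, h1, h2, h3, h4, h5, c, r, hc, hr, h6, h7⟩
    exact ⟨Es, Eu, h1, h2, h3, h4, h5, c, r, hc, hr,
      fun x hx n hn => ⟨fun v hv => h6 x hx n hn v hv, fun v hv => h7 x hx n hn v hv⟩⟩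
  · rintro ⟨Es, Eu, h1, h2, h3, h4, h5, c, r, hc, hr, h6⟩
    exact ⟨Es, Eu, h1, h2, h3, h4, h5, c, r, hc, hr,
      fun x hx n hn v hv => (h6 x hx n hn).1 v hv, fun x hx n hn v hv => (h6 x hx n hn).2 v hv⟩

theorem axiomA_bridge [IsManifold (𝓡 d) ∞ M] (ρ : Metric d M) (f : Dif d M) :
    Stat.AxiomA ρ f ↔ AxiomA ρ f :=
  and_congr Iff.rfl (hypOn_bridge ρ f _)

end Pool.Agent.Helper55.OS
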