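import Pool.Agent.Helper55.OS.Stat

/-!
# Definitions for the statement on isolated nonwandering points
-/

open Set Topology Manifold ContDiff

namespace Pool.Agent.Helper55.OS.Stat

section Maps

variable {X : Type} [TopologicalSpace X]

/-- For `x` outside the closure of the periodic points, `U` a neighbourhood of `x` and `m` a number there is a
neighbourhood `D` of `x` such that every orbit segment from `D` to `D` is in `U` at least `m` times in between. -/
def ManyReturns (T : X → X) : Prop :=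
  ∀ x ∉ closure (Per T), ∀ U ∈ 𝓝 x, ∀ m : ℕ, ∃ D ∈ 𝓝 x, ∀ (y : X) (n : ℕ), 1 ≤ n → y ∈ D →
    T^[n] y ∈ D → ∃ t : Finset ℕ, m ≤ t.card ∧ ∀ i ∈ t, 0 < i ∧ i < n ∧ T^[i] y ∈ U

/-- Every neighbourhood of every nonwandering point is visited at `m` different times by some orbit, for every `m`. -/
def MultiplyNonwandering (T : X → X) : Prop :=
  ∀ x ∈ omega T, ∀ U ∈ 𝓝 x, ∀ m : ℕ, ∃ (y : X) (t : Finset ℕ), t.card = m ∧ ∀ i ∈ t, T^[i] y ∈ U

/-- The isolated points of the nonwandering set are periodic. -/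
def IsolatedArePeriodic (T : X → X) : Prop :=
  ∀ x ∈ omega T, (∃ U ∈ 𝓝 x, U ∩ omega T ⊆ {x}) → x ∈ Per T

end Maps

/-- Every periodic orbit of `f` is hyperbolic. -/
def PeriodicHyperbolic {V : Type} [NormedAddCommGroup V] [NormedSpace ℝ V] {M : Type}
    [TopologicalSpace M] [ChartedSpace V M] [IsManifold 𝓘(ℝ, V) ∞ M] (f : Dif V M) : Prop :=
  ∀ ρ : Metric V M, ∀ p ∈ Per (map f), HypOn ρ f {y : M | ∃ j : ℕ, y = (map f)^[j] p}

end Pool.Agent.Helper55.OS.Stat
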