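import Pool.Agent.Helper55.OS.TopDefs

/-!
# OS-T1 TopBasic: small neighbourhoods of the vertices

PROOFS.
* `exists_goodW`: X is normal (compact metric), the vertices that meet S are finitely many, compact, pairwise disjoint and
  invariant. For each V let W1 V be the isolating neighbourhood of `h.iso`. Choose r > 0 such that for all pairs
  V ≠ V' of the finite family the closed r-neighbourhoods (Metric.cthickening r) of V and V' are disjoint and
  f '' (cthickening r V) is disjoint from cthickening r V' (V = f '' V and V' are disjoint compact sets and f is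
  continuous: for small r the compact set f '' cthickening r V is in any given neighbourhood of V), and
  cthickening r V is contained in W1 V and in O V. W V := Metric.thickening r V for a slightly smaller r.
  If all (f^n) x are in closure (W V) they are in closure (W1 V), so x is in V.
* `goodW_stay`: induction on j: (f^(j+1)) x = f ((f^j) x) is in f '' closure (W V0) and in some W V', so V' = V0 by
  the last clause of GoodW.
* `fwd_unique`: two disjoint compact sets have disjoint open neighbourhoods.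
* `fwd_of_mem`: if x is in V and f '' V = V then all (f^n) x are in V. Same for Bwd.
-/

open Set Topology

namespace Pool.Agent.Helper55.OS

variable {X : Type} [MetricSpace X] [CompactSpace X] {f : X ≃ₜ X} {VV : Set (Set X)}

private theorem zpow_succ_apply (f : X ≃ₜ X) (x : X) (j : ℕ) :
    (f ^ ((j + 1 : ℕ) : ℤ)) x = f ((f ^ (j : ℤ)) x) := by
  rw [zpow_natCast, zpow_natCast, pow_succ']
  rfl

private theorem zpow_neg_succ_apply (f : X ≃ₜ X) (x : X) (j : ℕ) :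
    (f ^ (-((j + 1 : ℕ) : ℤ))) x = f.symm ((f ^ (-(j : ℤ))) x) := by
  rw [zpow_neg, zpow_neg, zpow_natCast, zpow_natCast, pow_succ, mul_inv_rev]
  rfl

private theorem sep (h : Vdata f VV) (V V' : Set X) : ∃ A B : Set X, IsOpen A ∧ IsOpen B ∧
    (V ∈ VV → V' ∈ VV → V ≠ V' → V ⊆ A ∧ V' ⊆ B ∧ Disjoint A B) := by
  by_cases hc : V ∈ VV ∧ V' ∈ VV ∧ V ≠ V'
  · obtain ⟨h1, h2, h3⟩ := hc
    obtain ⟨A, B, hA, hB, hVA, hVB, hAB⟩ :=
      SeparatedNhds.of_isCompact_isCompact (h.comp V h1) (h.comp V' h2) (h.dis V h1 V' h2 h3)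
    exact ⟨A, B, hA, hB, fun _ _ _ => ⟨hVA, hVB, hAB⟩⟩
  · exact ⟨univ, univ, isOpen_univ, isOpen_univ, fun h1 h2 h3 => absurd ⟨h1, h2, h3⟩ hc⟩

theorem exists_goodW (h : Vdata f VV) (S : Set X) (hfin : {V | V ∈ VV ∧ (V ∩ S).Nonempty}.Finite)
    (O : Set X → Set X) (hO : ∀ V ∈ VV, IsOpen (O V) ∧ V ⊆ O V) :
    ∃ W : Set X → Set X, GoodW f VV S W ∧ ∀ V ∈ VV, (V ∩ S).Nonempty → closure (W V) ⊆ O V := by
  classical
  choose A B hA hB hAB using sep (VV := VV) h
  have hiso : ∀ V : Set X, ∃ W1 : Set X, V ∈ VV → IsOpen W1 ∧ V ⊆ W1 ∧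
      ∀ x, (∀ n : ℤ, (f ^ n) x ∈ closure W1) → x ∈ V := by
    intro V
    by_cases hV : V ∈ VV
    · obtain ⟨W, hW⟩ := h.iso V hV
      exact ⟨W, fun _ => hW⟩
    · exact ⟨univ, fun h1 => absurd h1 hV⟩
  choose W1 hW1 using hiso
  have hex : ∀ V : Set X, ∃ W : Set X, V ∈ VV → IsOpen W ∧ V ⊆ W ∧ closure W ⊆ O V ∧
      closure W ⊆ W1 V ∧ ∀ V' ∈ VV, (V' ∩ S).Nonempty → V' ≠ V →
        closure W ⊆ A V V' ∧ closure W ⊆ f ⁻¹' (A V V') ∧ closure W ⊆ B V' V := by
    intro V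
    by_cases hV : V ∈ VV
    swap
    · exact ⟨univ, fun h1 => absurd h1 hV⟩
    have hfin' : {V' | (V' ∈ VV ∧ (V' ∩ S).Nonempty) ∧ V' ≠ V}.Finite :=
      hfin.subset fun V' h1 => h1.1
    set G : Set X := (O V ∩ W1 V) ∩ ⋂ V' ∈ {V' | (V' ∈ VV ∧ (V' ∩ S).Nonempty) ∧ V' ≠ V},
      (A V V' ∩ f ⁻¹' (A V V') ∩ B V' V) with hG
    have hGo : IsOpen G := by
      refine ((hO V hV).1.inter (hW1 V hV).1).inter ?_
      refine hfin'.isOpen_biInter fun V' _ => ?_
      exact ((hA V V').inter ((hA V V').preimage f.continuous)).inter (hB V' V)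
    have hVG : V ⊆ G := by
      intro x hx
      refine ⟨⟨(hO V hV).2 hx, (hW1 V hV).2.1 hx⟩, ?_⟩
      rw [mem_iInter₂]
      rintro V' ⟨⟨h1, -⟩, h3⟩
      obtain ⟨h4, -, -⟩ := hAB V V' hV h1 (Ne.symm h3)
      obtain ⟨-, h5, -⟩ := hAB V' V h1 hV h3
      refine ⟨⟨h4 hx, h4 ?_⟩, h5 hx⟩
      rw [← h.inv V hV]
      exact mem_image_of_mem f hx
    obtain ⟨W, hWo, hVW, hWG⟩ := normal_exists_closure_subset (h.comp V hV).isClosed hGo hVG
    refine ⟨W, fun _ => ⟨hWo, hVW, fun x hx => (hWG hx).1.1, fun x hx => (hWG hx).1.2, ?_⟩⟩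
    intro V' h1 h2 h3
    have h4 : ∀ x ∈ closure W, x ∈ A V V' ∩ f ⁻¹' (A V V') ∩ B V' V := by
      intro x hx
      exact mem_iInter₂.1 (hWG hx).2 V' ⟨⟨h1, h2⟩, h3⟩
    exact ⟨fun x hx => (h4 x hx).1.1, fun x hx => (h4 x hx).1.2, fun x hx => (h4 x hx).2⟩
  choose W hW using hex
  refine ⟨W, ?_, fun V hV _ => (hW V hV).2.2.1⟩
  intro V hV hVS
  obtain ⟨h1, h2, h3, h4, h5⟩ := hW V hV
  refine ⟨h1, h2, ?_, ?_⟩
  · intro x hx
    exact (hW1 V hV).2.2 x fun n => subset_closure (h4 (hx n))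
  · intro V' hV' hVS' hne
    obtain ⟨h6, h7, -⟩ := h5 V' hV' hVS' (Ne.symm hne)
    obtain ⟨-, -, h8⟩ := (hW V' hV').2.2.2.2 V hV hVS hne
    obtain ⟨-, -, h9⟩ := hAB V V' hV hV' hne
    refine ⟨h9.mono h6 h8, h9.mono ?_ h8⟩
    rintro _ ⟨x, hx, rfl⟩
    exact h7 hx

theorem goodW_stay {S : Set X} {W : Set X → Set X} (hW : GoodW f VV S W) {V0 : Set X} (hV0 : V0 ∈ VV)
    (hm : (V0 ∩ S).Nonempty) (x : X) (hx : x ∈ W V0) (m : ℕ)
    (hin : ∀ j : ℕ, j ≤ m → ¬ Out VV S W ((f ^ (j : ℤ)) x)) :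
    ∀ j : ℕ, j ≤ m → (f ^ (j : ℤ)) x ∈ W V0 := by
  intro j
  induction j with
  | zero =>
    intro _
    simpa using hx
  | succ j ih =>
    intro hj
    have h1 := ih (by omega)
    have h2 := hin (j + 1) hj
    unfold Out at h2
    push Not at h2
    obtain ⟨V, hV, hVS, hyV⟩ := h2
    by_cases hne : V0 = V
    · rw [hne]
      exact hyV
    · exfalso
      have h3 := (hW V0 hV0 hm).2.2.2 V hV hVS hne
      refine Set.disjoint_left.1 h3.2 ?_ (subset_closure hyV)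
      rw [zpow_succ_apply]
      exact mem_image_of_mem f (subset_closure h1)

theorem fwd_unique (h : Vdata f VV) {x : X} {V V' : Set X} (hV : V ∈ VV) (hV' : V' ∈ VV)
    (h1 : Fwd f x V) (h2 : Fwd f x V') : V = V' := by
  by_contra hne
  obtain ⟨A, B, hA, hB, hAB⟩ := sep h V V'
  obtain ⟨hVA, hVB, hd⟩ := hAB hV hV' hne
  obtain ⟨N, hN⟩ := h1 A hA hVA
  obtain ⟨N', hN'⟩ := h2 B hB hVB
  exact Set.disjoint_left.1 hd (hN (max N N') (le_max_left _ _)) (hN' (max N N') (le_max_right _ _))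

theorem fwd_of_mem (h : Vdata f VV) {x : X} {V : Set X} (hV : V ∈ VV) (hx : x ∈ V) :
    Fwd f x V ∧ Bwd f x V := by
  have h1 : ∀ n : ℕ, (f ^ (n : ℤ)) x ∈ V := by
    intro n
    induction n with
    | zero => simpa using hx
    | succ n ih =>
      rw [zpow_succ_apply, ← h.inv V hV]
      exact mem_image_of_mem f ih
  have h2 : ∀ n : ℕ, (f ^ (-(n : ℤ))) x ∈ V := by
    intro n
    induction n with
    | zero => simpa using hx
    | succ n ih =>
      rw [zpow_neg_succ_apply]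
      have h3 := ih
      rw [← h.inv V hV] at h3
      obtain ⟨z, hz, hz'⟩ := h3
      rw [← hz', Homeomorph.symm_apply_apply]
      exact hz
  exact ⟨fun W _ hVW => ⟨0, fun n _ => hVW (h1 n)⟩, fun W _ hVW => ⟨0, fun n _ => hVW (h2 n)⟩⟩

end Pool.Agent.Helper55.OS
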