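import Pool.Agent.Helper55.OS.Defs

/-!
# OS/TopDefs: definitions for the topological part (TL)

X is a compact metric space, f : X ≃ₜ X. `VV` is the family of vertices: pairwise disjoint nonempty compact
invariant isolated sets that contain every recurrent point; there is no cycle between vertices.
-/

open Set Topology

namespace Pool.Agent.Helper55.OS

variable {X : Type} [TopologicalSpace X]

/-- The forward orbit of `x` is asymptotic to the (compact) set `V`. -/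
def Fwd (f : X ≃ₜ X) (x : X) (V : Set X) : Prop :=
  ∀ W : Set X, IsOpen W → V ⊆ W → ∃ N : ℕ, ∀ n : ℕ, N ≤ n → (f ^ (n : ℤ)) x ∈ W

/-- The backward orbit of `x` is asymptotic to the (compact) set `V`. -/
def Bwd (f : X ≃ₜ X) (x : X) (V : Set X) : Prop :=
  ∀ W : Set X, IsOpen W → V ⊆ W → ∃ N : ℕ, ∀ n : ℕ, N ≤ n → (f ^ (-(n : ℤ))) x ∈ W

/-- A cycle of vertices. -/
def Cycle (f : X ≃ₜ X) (VV : Set (Set X)) : Prop :=
  ∃ (k : ℕ) (V : ℕ → Set X) (x : ℕ → X), 1 ≤ k ∧ (∀ i, V i ∈ VV) ∧ V k = V 0 ∧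
    ∀ i, i < k → x i ∉ ⋃₀ VV ∧ Bwd f (x i) (V i) ∧ Fwd f (x i) (V (i + 1))

/-- The family of vertices. -/
structure Vdata (f : X ≃ₜ X) (VV : Set (Set X)) : Prop where
  comp : ∀ V ∈ VV, IsCompact V
  ne : ∀ V ∈ VV, V.Nonempty
  inv : ∀ V ∈ VV, f '' V = V
  dis : ∀ V ∈ VV, ∀ V' ∈ VV, V ≠ V' → Disjoint V V'
  iso : ∀ V ∈ VV, ∃ W : Set X, IsOpen W ∧ V ⊆ W ∧ ∀ x, (∀ n : ℤ, (f ^ n) x ∈ closure W) → x ∈ V
  recu : ∀ x, Rec f x → ∃ V ∈ VV, x ∈ V
  nc : ¬ Cycle f VV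

/-- `S` is simple: finitely many vertices meet it, and every orbit in it is asymptotic to vertices. -/
structure Simple (f : X ≃ₜ X) (VV : Set (Set X)) (S : Set X) : Prop where
  fin : {V | V ∈ VV ∧ (V ∩ S).Nonempty}.Finite
  fwd : ∀ x ∈ S, ∃ V ∈ VV, Fwd f x V
  bwd : ∀ x ∈ S, ∃ V ∈ VV, Bwd f x V

/-- A system of small neighbourhoods of the vertices that meet `S`. -/
def GoodW (f : X ≃ₜ X) (VV : Set (Set X)) (S : Set X) (W : Set X → Set X) : Prop :=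
  ∀ V ∈ VV, (V ∩ S).Nonempty → IsOpen (W V) ∧ V ⊆ W V ∧
    (∀ x, (∀ n : ℤ, (f ^ n) x ∈ closure (W V)) → x ∈ V) ∧
    ∀ V' ∈ VV, (V' ∩ S).Nonempty → V ≠ V' →
      Disjoint (closure (W V)) (closure (W V')) ∧ Disjoint (f '' closure (W V)) (closure (W V'))

/-- `y` is outside all the sets `W V`, `V` a vertex that meets `S`. -/
def Out (VV : Set (Set X)) (S : Set X) (W : Set X → Set X) (y : X) : Prop :=
  ∀ V ∈ VV, (V ∩ S).Nonempty → y ∉ W V

/-- The omega limit set of `x`. -/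
def omg (f : X ≃ₜ X) (x : X) : Set X :=
  ⋂ N : ℕ, closure {y | ∃ n : ℕ, N ≤ n ∧ y = (f ^ (n : ℤ)) x}

end Pool.Agent.Helper55.OS
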