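import Pool.Agent.Helper55.OS.TopO
import Pool.Agent.Helper55.OS.TopTrans

/-!
# OS-T5 TopMin: the whole space is simple (Zorn)

PROOF. Suppose X (= univ) is not simple. The set P of closed invariant sets S (f '' S = S) that are NOT simple is ordered by inclusion;
univ is in P. A chain C in P, nonempty, has the lower bound T = intersection of C: T is closed, invariant (f is bijective); if T
were simple, `simple_of_near` gives an open U containing T; by compactness some member S of the chain is in U (the closed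
sets S minus U, S in C, are a chain with empty intersection), so S is simple: contradiction. Zorn
(`zorn_superset_nonempty` or `zorn_superset`) gives a minimal S in P: every closed invariant proper subset of S is simple. S is nonempty (the
empty set is simple).
(a) No y in S has Rec f y and S in closure {(f^n) y : n ≥ 0}: y would be in some V in VV (`h.recu`), V is closed and invariant, so
    S in V; then S is simple: the only vertex that meets S is V (disjointness), and Fwd, Bwd to V by `fwd_of_mem`.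
(b) So S is not transitive: by `exists_dense_rec` there are open A, B meeting S with (f^n)(A cap S) cap B empty for all n ≥ 1.
(c) For x in S: omg f x is a closed invariant subset of S. If omg f x = S then x is in omg f x, so Rec f x and S in the closure of
    the forward orbit: contradiction to (a). So omg f x is a proper subset, simple; `simple_nhd` gives U, `omg_ev` the tail in
    U, so Fwd f x V for some V in VV.
(d) Backward: apply omg to f⁻¹ (omg f⁻¹ x, note (f⁻¹)^(n) = f^(-n)). It is closed, invariant under f⁻¹, hence under f, contained in S. If it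
    is a proper subset it is simple and as in (c) (second part of `simple_nhd`) Bwd f x V. If omg f⁻¹ x = S: for all open A, B that meet
    S there are arbitrarily large n with (f^(-n)) x in A and arbitrarily large n with (f^(-n)) x in B; choose m with (f^(-m)) x in B, then n > m
    with (f^(-n)) x in A: y = (f^(-n)) x is in A cap S and (f^(n-m)) y is in B, n - m ≥ 1. So S is transitive: contradiction to (b).
(e) {V in VV : V meets S} is finite: for open A that meets S put S_A = S minus the union of (f^n)(A), n in Z: closed, invariant, proper,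
    so simple: finitely many vertices meet S_A. Take A, B of (b). If infinitely many vertices meet S there is V in VV that
    meets S but neither S_A nor S_B. V cap S is nonempty compact invariant; let K be a minimal nonempty closed invariant subset of
    V cap S (Zorn; or take K = omg-minimal set). K is not contained in S_A: K meets some (f^n)(A), so by invariance K meets A; also
    K meets B. For y in K cap A: the closed invariant set omg f y is contained in K, nonempty, so equal to K by minimality; it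
    meets the open set B, so (f^n) y is in B for some n ≥ 1: contradiction to (b).
So S is simple (c, d, e): contradiction.
-/

open Set Topology

namespace Pool.Agent.Helper55.OS

theorem inv_iff {X : Type} [TopologicalSpace X] {f : X ≃ₜ X} {S : Set X} (hi : f '' S = S) (x : X) :
    f x ∈ S ↔ x ∈ S := by
  constructor
  · intro hx
    rw [← hi] at hx
    obtain ⟨y, hy, hyx⟩ := hx
    rwa [← f.injective hyx]
  · intro hx
    rw [← hi]
    exact ⟨x, hx, rfl⟩

theorem inv_of_iff {X : Type} [TopologicalSpace X] {f : X ≃ₜ X} {S : Set X}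
    (h : ∀ x, f x ∈ S ↔ x ∈ S) : f '' S = S := by
  ext y
  constructor
  · rintro ⟨x, hx, rfl⟩
    exact (h x).2 hx
  · intro hy
    obtain ⟨x, rfl⟩ := f.surjective y
    exact ⟨x, (h x).1 hy, rfl⟩

theorem zpow_succ_apply {X : Type} [TopologicalSpace X] (f : X ≃ₜ X) (n : ℤ) (x : X) :
    (f ^ (n + 1)) x = (f ^ n) (f x) := by
  rw [zpow_add_one]
  rfl

theorem zpow_add_apply {X : Type} [TopologicalSpace X] (f : X ≃ₜ X) (m n : ℤ) (x : X) :
    (f ^ (m + n)) x = (f ^ m) ((f ^ n) x) := by
  rw [zpow_add]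
  rfl

theorem inv_zpow_iff {X : Type} [TopologicalSpace X] {f : X ≃ₜ X} {S : Set X} (hi : f '' S = S)
    (n : ℤ) (x : X) : (f ^ n) x ∈ S ↔ x ∈ S := by
  induction n using Int.induction_on generalizing x with
  | zero => rfl
  | succ n ih => rw [zpow_succ_apply, ih, inv_iff hi]
  | pred n ih =>
    have h1 := zpow_succ_apply f (-(n : ℤ) - 1) (f⁻¹ x)
    have h2 : f (f⁻¹ x) = x := f.apply_symm_apply x
    rw [h2, sub_add_cancel] at h1
    rw [← h1, ih]
    have h3 := inv_iff hi (f⁻¹ x)
    rw [h2] at h3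
    exact h3.symm

/-- The points of `S` whose orbit avoids `A`. -/
def avoid {X : Type} [TopologicalSpace X] (f : X ≃ₜ X) (S A : Set X) : Set X :=
  S ∩ ⋂ n : ℤ, (fun x => (f ^ n) x) ⁻¹' Aᶜ

theorem avoid_closed {X : Type} [TopologicalSpace X] (f : X ≃ₜ X) {S A : Set X} (hS : IsClosed S)
    (hA : IsOpen A) : IsClosed (avoid f S A) :=
  hS.inter (isClosed_iInter fun n => hA.isClosed_compl.preimage (f ^ n).continuous)

theorem avoid_inv {X : Type} [TopologicalSpace X] {f : X ≃ₜ X} {S : Set X} (A : Set X) (hi : f '' S = S) :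
    f '' avoid f S A = avoid f S A := by
  refine inv_of_iff fun x => ?_
  unfold avoid
  rw [mem_inter_iff, mem_inter_iff, inv_iff hi, mem_iInter, mem_iInter]
  refine and_congr_right fun _ => ?_
  constructor
  · intro h n
    have h1 := h (n - 1)
    rw [mem_preimage, ← zpow_succ_apply, sub_add_cancel] at h1
    exact h1
  · intro h n
    have h1 := h (n + 1)
    rw [mem_preimage, zpow_succ_apply] at h1
    exact h1

theorem simple_univ {X : Type} [MetricSpace X] [CompactSpace X] {f : X ≃ₜ X} {VV : Set (Set X)}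
    (h : Vdata f VV) : Simple f VV univ := by
  by_contra huniv
  obtain ⟨P, hP⟩ : ∃ P : Set (Set X), P = {S | IsClosed S ∧ f '' S = S ∧ ¬ Simple f VV S} := ⟨_, rfl⟩
  have hPu : (univ : Set X) ∈ P := by
    rw [hP]
    exact ⟨isClosed_univ, image_univ_of_surjective f.surjective, huniv⟩
  have hchain : ∀ c ⊆ P, IsChain (· ⊆ ·) c → c.Nonempty → ∃ lb ∈ P, ∀ s ∈ c, lb ⊆ s := by
    intro c hc hch hne
    have hcl : ∀ s ∈ c, IsClosed s := by
      intro s hs
      have := hc hs
      rw [hP] at this
      exact this.1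
    have hci : ∀ s ∈ c, f '' s = s := by
      intro s hs
      have := hc hs
      rw [hP] at this
      exact this.2.1
    have hcn : ∀ s ∈ c, ¬ Simple f VV s := by
      intro s hs
      have := hc hs
      rw [hP] at this
      exact this.2.2
    have hTc : IsClosed (⋂₀ c) := isClosed_sInter hcl
    have hTi : f '' (⋂₀ c) = ⋂₀ c := by
      refine inv_of_iff fun x => ?_
      rw [mem_sInter, mem_sInter]
      exact forall₂_congr fun s hs => inv_iff (hci s hs) x
    refine ⟨⋂₀ c, ?_, fun s hs => sInter_subset_of_mem hs⟩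
    rw [hP]
    refine ⟨hTc, hTi, fun hsim => ?_⟩
    obtain ⟨U, hU, hTU, hall⟩ := simple_of_near h (⋂₀ c) hTc hTi hsim
    have : Nonempty c := hne.to_subtype
    have hdir : Directed (· ⊇ ·) (fun s : c => (s : Set X)) := by
      intro s t
      rcases hch.total s.2 t.2 with hst | hts
      · exact ⟨s, Subset.rfl, hst⟩
      · exact ⟨t, hts, Subset.rfl⟩
    obtain ⟨s, hs⟩ := exists_subset_nhds_of_isCompact hdir (fun s => (hcl s s.2).isCompact)
      (U := U) (fun x hx => hU.mem_nhds (hTU (by rwa [sInter_eq_iInter])))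
    exact hcn s s.2 (hall s (hcl s s.2) (hci s s.2) hs)
  obtain ⟨S, -, hSm⟩ := zorn_superset_nonempty P hchain univ hPu
  have hSP : S ∈ P := hSm.prop
  have hSP' := hSP
  rw [hP] at hSP'
  obtain ⟨hS, hi, hns⟩ := hSP'
  have hprop : ∀ T : Set X, IsClosed T → f '' T = T → T ⊆ S → T ≠ S → Simple f VV T := by
    intro T hT hTi hTS hne
    by_contra hTn
    have hTP : T ∈ P := by
      rw [hP]
      exact ⟨hT, hTi, hTn⟩
    exact hne (Subset.antisymm hTS (hSm.le_of_le hTP hTS))
  have hne : S.Nonempty := by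
    by_contra hemp
    rw [not_nonempty_iff_eq_empty] at hemp
    subst hemp
    refine hns ⟨?_, fun x hx => hx.elim, fun x hx => hx.elim⟩
    have h0 : {V | V ∈ VV ∧ (V ∩ (∅ : Set X)).Nonempty} = ∅ := by
      ext V
      simp
    rw [h0]
    exact finite_empty
  have ha : ¬ ∃ y ∈ S, Rec f y ∧ S ⊆ closure {z | ∃ n : ℕ, z = (f ^ (n : ℤ)) y} := by
    rintro ⟨y, hy, hr, hcl⟩
    obtain ⟨V, hV, hyV⟩ := h.recu y hr
    have hVc : IsClosed V := (h.comp V hV).isClosed
    have hSV : S ⊆ V := by
      refine hcl.trans (closure_minimal ?_ hVc)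
      rintro z ⟨n, rfl⟩
      exact (inv_zpow_iff (h.inv V hV) _ _).2 hyV
    refine hns ⟨?_, fun x hx => ⟨V, hV, (fwd_of_mem h hV (hSV hx)).1⟩,
      fun x hx => ⟨V, hV, (fwd_of_mem h hV (hSV hx)).2⟩⟩
    refine (finite_singleton V).subset ?_
    rintro V' ⟨hV', x, hx1, hx2⟩
    by_contra hne'
    exact disjoint_left.1 (h.dis V' hV' V hV hne') hx1 (hSV hx2)
  have hb : ∃ A B : Set X, IsOpen A ∧ IsOpen B ∧ (A ∩ S).Nonempty ∧ (B ∩ S).Nonempty ∧
      ∀ n : ℕ, 1 ≤ n → ∀ y ∈ A ∩ S, (f ^ (n : ℤ)) y ∉ B := by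
    by_contra hcon
    apply ha
    apply exists_dense_rec f S hS hi hne
    intro A B hA hB hAS hBS
    by_contra hcon2
    exact hcon ⟨A, B, hA, hB, hAS, hBS, fun n hn y hy hyB => hcon2 ⟨n, hn, y, hy, hyB⟩⟩
  obtain ⟨A, B, hA, hB, hAS, hBS, hAB⟩ := hb
  apply hns
  refine ⟨?_, ?_, ?_⟩
  · have hfin : ∀ C : Set X, IsOpen C → (C ∩ S).Nonempty →
        {V | V ∈ VV ∧ (V ∩ avoid f S C).Nonempty}.Finite := by
      intro C hC hCS
      refine (hprop (avoid f S C) (avoid_closed f hS hC) (avoid_inv C hi) inter_subset_left ?_).fin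
      intro heq
      obtain ⟨x, hxC, hxS⟩ := hCS
      rw [← heq] at hxS
      have h0 := mem_iInter.1 hxS.2 0
      exact h0 hxC
    refine ((hfin A hA hAS).union (hfin B hB hBS)).subset ?_
    rintro V ⟨hV, x, hxV, hxS⟩
    by_contra hcon
    rw [mem_union, not_or] at hcon
    have hmeet : ∀ C : Set X, ¬ (V ∈ {V | V ∈ VV ∧ (V ∩ avoid f S C).Nonempty}) → ∀ z ∈ V, z ∈ S →
        ∃ n : ℤ, (f ^ n) z ∈ C := by
      intro C hC z hzV hzS
      by_contra hcon3
      exact hC ⟨hV, z, hzV, hzS, mem_iInter.2 fun n hn => hcon3 ⟨n, hn⟩⟩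
    obtain ⟨n, hn⟩ := hmeet A hcon.1 x hxV hxS
    have hyV : (f ^ n) x ∈ V := (inv_zpow_iff (h.inv V hV) _ _).2 hxV
    have hyS : (f ^ n) x ∈ S := (inv_zpow_iff hi _ _).2 hxS
    obtain ⟨w, hw⟩ := omg_nonempty (f := f) ((f ^ n) x)
    have hwV : w ∈ V := omg_sub (h.comp V hV).isClosed (h.inv V hV) hyV hw
    have hwS : w ∈ S := omg_sub hS hi hyS hw
    obtain ⟨m, hm⟩ := hmeet B hcon.2 w hwV hwS
    have hmo : (f ^ m) w ∈ omg f ((f ^ n) x) := (inv_zpow_iff (omg_inv _) _ _).2 hw
    have h1 := mem_iInter.1 hmo 1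
    obtain ⟨z, hzB, k, hk, rfl⟩ := mem_closure_iff.1 h1 B hB hm
    exact hAB k hk _ ⟨hn, hyS⟩ hzB
  · intro x hx
    have hsub : omg f x ⊆ S := omg_sub hS hi hx
    have hne' : omg f x ≠ S := by
      intro heq
      apply ha
      refine ⟨x, hx, rec_of_omg (by rw [heq]; exact hx), ?_⟩
      intro z hz
      rw [← heq] at hz
      refine closure_mono ?_ (mem_iInter.1 hz 0)
      rintro y ⟨n, -, hn⟩
      exact ⟨n, hn⟩
    obtain ⟨U, hU, hsU, hf, -⟩ := simple_nhd h (omg f x) (omg_closed x) (omg_inv x)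
      (hprop _ (omg_closed x) (omg_inv x) hsub hne')
    obtain ⟨N, hN⟩ := omg_ev x U hU hsU
    obtain ⟨V, hV, -, hVf⟩ := hf x N hN
    exact ⟨V, hV, hVf⟩
  · intro x hx
    have hi' : (f⁻¹ : X ≃ₜ X) '' S = S := by
      refine inv_of_iff fun z => ?_
      have h2 : f (f⁻¹ z) = z := f.apply_symm_apply z
      rw [← inv_iff hi (f⁻¹ z), h2]
    have hinv : ∀ n : ℕ, (f⁻¹ ^ (n : ℤ)) x = (f ^ (-(n : ℤ))) x := by
      intro n
      rw [inv_zpow']
    have hoi : f '' omg f⁻¹ x = omg f⁻¹ x := by
      refine inv_of_iff fun z => ?_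
      have h2 : f⁻¹ (f z) = z := f.symm_apply_apply z
      rw [← inv_iff (omg_inv (f := f⁻¹) x) (f z), h2]
    have hsub : omg f⁻¹ x ⊆ S := omg_sub hS hi' hx
    have hne' : omg f⁻¹ x ≠ S := by
      intro heq
      obtain ⟨b, hbB, hbS⟩ := hBS
      rw [← heq] at hbS
      obtain ⟨z, hzB, m, -, rfl⟩ := mem_closure_iff.1 (mem_iInter.1 hbS 0) B hB hbB
      obtain ⟨a, haA, haS⟩ := hAS
      rw [← heq] at haS
      obtain ⟨w, hwA, n, hn, rfl⟩ := mem_closure_iff.1 (mem_iInter.1 haS (m + 1)) A hA haA
      rw [hinv] at hzB hwA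
      have hwS : (f ^ (-(n : ℤ))) x ∈ S := (inv_zpow_iff hi _ _).2 hx
      refine hAB (n - m) (by omega) _ ⟨hwA, hwS⟩ ?_
      rw [← zpow_add_apply]
      have : ((n - m : ℕ) : ℤ) + -(n : ℤ) = -(m : ℤ) := by
        rw [Nat.cast_sub (by omega)]
        ring
      rw [this]
      exact hzB
    obtain ⟨U, hU, hsU, -, hf⟩ := simple_nhd h (omg f⁻¹ x) (omg_closed x) hoi
      (hprop _ (omg_closed x) hoi hsub hne')
    obtain ⟨N, hN⟩ := omg_ev x U hU hsU
    obtain ⟨V, hV, -, hVf⟩ := hf x N (fun n hn => by rw [← hinv]; exact hN n hn)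
    exact ⟨V, hV, hVf⟩

end Pool.Agent.Helper55.OS
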