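import Pool.Agent.Helper55.OS.TopU

/-!
# OS-T3 TopO: simplicity is open; orbits that stay near a simple set

PROOFS. Choose W by `exists_goodW` (O V = univ), then U and N by `lemU`.
* `simple_nhd`: let (f^n) x be in U for all n ≥ n0. By lemU applied to (f^n0) x and all m, at most N indices n ≥ n0 are Out, so from
  some N1 on no (f^n) x is Out; (f^N1) x is in some W V (V meets S) and by `goodW_stay` all (f^n) x, n ≥ N1, are in W V: `fwd_of_stay`.
  Backward: for every m the segment starting at (f^(-(n0+m))) x of length m is in U, so it has at most N Out points; so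
  from some N1 on no (f^(-n)) x, n ≥ N1, is Out (a set of naturals all of whose finite parts have at most N elements is
  finite). For n ≥ N1 let V_n be a vertex with (f^(-n)) x in W V_n; `goodW_stay` from -(n+1) to -n gives V_(n+1) = V_n (the sets W V
  of different vertices are disjoint). So `bwd_of_stay`.
* `simple_of_near`: for closed invariant S' in U: fwd, bwd by `simple_nhd` (orbits of points of S' stay in S'). If V' in VV
  meets S', x in both: Fwd f x V' (`fwd_of_mem`) and Fwd f x V with V meeting S, so V' = V (`fwd_unique`): the set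
  {V' meets S'} is contained in the finite set {V meets S}.
-/

open Set Topology

namespace Pool.Agent.Helper55.OS

variable {X : Type} [MetricSpace X] [CompactSpace X] {f : X ≃ₜ X} {VV : Set (Set X)}

private theorem to_zadd (f : X ≃ₜ X) (a b : ℤ) (x : X) : (f ^ (a + b)) x = (f ^ a) ((f ^ b) x) := by
  rw [zpow_add, Homeomorph.mul_apply]

private theorem to_orb {f : X ≃ₜ X} {S : Set X} (hi : f '' S = S) {x : X} (hx : x ∈ S) (n : ℤ) :
    (f ^ n) x ∈ S := by
  have hfwd : ∀ y ∈ S, (f ^ (1 : ℤ)) y ∈ S := by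
    intro y hy
    rw [zpow_one, ← hi]
    exact ⟨y, hy, rfl⟩
  have hbwd : ∀ y ∈ S, (f ^ (-1 : ℤ)) y ∈ S := by
    intro y hy
    rw [zpow_neg, zpow_one, Homeomorph.inv_apply]
    rw [← hi] at hy
    obtain ⟨z, hz, rfl⟩ := hy
    rw [Homeomorph.symm_apply_apply]
    exact hz
  induction n using Int.induction_on with
  | zero => simpa using hx
  | succ n ih =>
    rw [add_comm, to_zadd]
    exact hfwd _ ih
  | pred n ih =>
    rw [sub_eq_neg_add, to_zadd]
    exact hbwd _ ih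

private theorem to_fin (P : ℕ → Prop) (N : ℕ) (h : ∀ m : ℕ, {j : ℕ | j ≤ m ∧ P j}.ncard ≤ N) :
    ∃ J : ℕ, ∀ j : ℕ, J ≤ j → ¬ P j := by
  by_contra hcon
  push Not at hcon
  have hinf : {j : ℕ | P j}.Infinite := by
    apply Set.infinite_of_not_bddAbove
    rintro ⟨b, hb⟩
    obtain ⟨j, hj, hPj⟩ := hcon (b + 1)
    have := hb hPj
    omega
  obtain ⟨t, ht, htc⟩ := hinf.exists_subset_card_eq (N + 1)
  have h1 := h (t.sup id)
  have h2 : (t : Set ℕ) ⊆ {j : ℕ | j ≤ t.sup id ∧ P j} := fun j hj =>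
    ⟨Finset.le_sup (f := id) hj, ht hj⟩
  have hf : {j : ℕ | j ≤ t.sup id ∧ P j}.Finite :=
    (Set.finite_Iic (t.sup id)).subset fun j hj => hj.1
  have h3 := Set.ncard_le_ncard h2 hf
  rw [Set.ncard_coe_finset, htc] at h3
  omega

private theorem to_out {S : Set X} {W : Set X → Set X} {y : X} (h : ¬ Out VV S W y) :
    ∃ V ∈ VV, (V ∩ S).Nonempty ∧ y ∈ W V := by
  unfold Out at h
  push Not at h
  exact h

theorem simple_nhd (h : Vdata f VV) (S : Set X) (hS : IsClosed S) (hi : f '' S = S)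
    (hH : Simple f VV S) :
    ∃ U : Set X, IsOpen U ∧ S ⊆ U ∧
      (∀ (x : X) (n0 : ℕ), (∀ n : ℕ, n0 ≤ n → (f ^ (n : ℤ)) x ∈ U) →
        ∃ V ∈ VV, (V ∩ S).Nonempty ∧ Fwd f x V) ∧
      (∀ (x : X) (n0 : ℕ), (∀ n : ℕ, n0 ≤ n → (f ^ (-(n : ℤ))) x ∈ U) →
        ∃ V ∈ VV, (V ∩ S).Nonempty ∧ Bwd f x V) := by
  obtain ⟨W, hW, -⟩ := exists_goodW h S hH.fin (fun _ => univ)
    (fun V _ => ⟨isOpen_univ, subset_univ V⟩)
  obtain ⟨U, hU, hSU, N, hN⟩ := lemU h S hS hi hH W hW
  refine ⟨U, hU, hSU, ?_, ?_⟩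
  · intro x n0 hx
    obtain ⟨J, hJ⟩ := to_fin (fun j => Out VV S W ((f ^ (j : ℤ)) ((f ^ (n0 : ℤ)) x))) N
      (fun m => hN ((f ^ (n0 : ℤ)) x) m fun j _ => by
        rw [← to_zadd]
        have := hx (j + n0) (Nat.le_add_left _ _)
        push_cast at this
        exact this)
    obtain ⟨V0, hV0, hm, hin⟩ := to_out (hJ J le_rfl)
    refine ⟨V0, hV0, hm, fwd_of_stay h hW hV0 hm x (J + n0) fun n hn => subset_closure ?_⟩
    have h1 := goodW_stay hW hV0 hm ((f ^ (J : ℤ)) ((f ^ (n0 : ℤ)) x)) hin (n - (J + n0))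
      (fun j _ => by
        rw [← to_zadd]
        have := hJ (j + J) (Nat.le_add_left _ _)
        push_cast at this
        exact this) (n - (J + n0)) le_rfl
    rw [← to_zadd, ← to_zadd] at h1
    have h2 : ((n - (J + n0) : ℕ) : ℤ) + (J : ℤ) + (n0 : ℤ) = (n : ℤ) := by omega
    rw [h2] at h1
    exact h1
  · intro x n0 hx
    obtain ⟨J, hJ⟩ := to_fin (fun j => Out VV S W ((f ^ (-((n0 + j : ℕ) : ℤ))) x)) N
      (fun m => by
        have h1 := hN ((f ^ (-((n0 + m : ℕ) : ℤ))) x) m fun j hj => by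
          rw [← to_zadd]
          have h2 := hx (n0 + (m - j)) (Nat.le_add_right _ _)
          have h3 : (j : ℤ) + -((n0 + m : ℕ) : ℤ) = -((n0 + (m - j) : ℕ) : ℤ) := by omega
          rw [h3]
          exact h2
        refine le_trans ?_ h1
        have hf : {j : ℕ | j ≤ m ∧ Out VV S W ((f ^ (j : ℤ)) ((f ^ (-((n0 + m : ℕ) : ℤ))) x))}.Finite :=
          (Set.finite_Iic m).subset fun j hj => hj.1
        have h4 : {j : ℕ | j ≤ m ∧ Out VV S W ((f ^ (-((n0 + j : ℕ) : ℤ))) x)} ⊆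
            (fun j => m - j) ''
              {j : ℕ | j ≤ m ∧ Out VV S W ((f ^ (j : ℤ)) ((f ^ (-((n0 + m : ℕ) : ℤ))) x))} := by
          rintro j ⟨hj, hout⟩
          refine ⟨m - j, ⟨Nat.sub_le _ _, ?_⟩, ?_⟩
          · rw [← to_zadd]
            have h3 : ((m - j : ℕ) : ℤ) + -((n0 + m : ℕ) : ℤ) = -((n0 + j : ℕ) : ℤ) := by omega
            rw [h3]
            exact hout
          · change m - (m - j) = j
            omega
        exact (Set.ncard_le_ncard h4 (hf.image _)).trans (Set.ncard_image_le hf))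
    obtain ⟨V0, hV0, hm, hin⟩ := to_out (hJ J le_rfl)
    have key : ∀ i : ℕ, (f ^ (-((n0 + (J + i) : ℕ) : ℤ))) x ∈ W V0 := by
      intro i
      induction i with
      | zero => exact hin
      | succ i ih =>
        obtain ⟨V', hV', hm', hin'⟩ := to_out (hJ (J + (i + 1)) (Nat.le_add_right _ _))
        have h1 := goodW_stay hW hV' hm' _ hin' 1 (fun j hj => by
          rcases Nat.le_one_iff_eq_zero_or_eq_one.1 hj with rfl | rfl
          · rw [← to_zadd]
            have h3 : ((0 : ℕ) : ℤ) + -((n0 + (J + (i + 1)) : ℕ) : ℤ) =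
                -((n0 + (J + (i + 1)) : ℕ) : ℤ) := by omega
            rw [h3]
            exact hJ (J + (i + 1)) (Nat.le_add_right _ _)
          · rw [← to_zadd]
            have h3 : ((1 : ℕ) : ℤ) + -((n0 + (J + (i + 1)) : ℕ) : ℤ) =
                -((n0 + (J + i) : ℕ) : ℤ) := by omega
            rw [h3]
            exact hJ (J + i) (Nat.le_add_right _ _)) 1 le_rfl
        rw [← to_zadd] at h1
        have h3 : ((1 : ℕ) : ℤ) + -((n0 + (J + (i + 1)) : ℕ) : ℤ) =
            -((n0 + (J + i) : ℕ) : ℤ) := by omega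
        rw [h3] at h1
        have h4 : V0 = V' := by
          by_contra hne
          have h5 := ((hW V0 hV0 hm).2.2.2 V' hV' hm' hne).1
          exact Set.disjoint_left.1 h5 (subset_closure ih) (subset_closure h1)
        rw [h4]
        exact hin'
    refine ⟨V0, hV0, hm, bwd_of_stay h hW hV0 hm x (n0 + J) fun n hn => subset_closure ?_⟩
    have h1 := key (n - (n0 + J))
    have h2 : -((n0 + (J + (n - (n0 + J))) : ℕ) : ℤ) = -(n : ℤ) := by omega
    rw [h2] at h1
    exact h1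

theorem simple_of_near (h : Vdata f VV) (S : Set X) (hS : IsClosed S) (hi : f '' S = S)
    (hH : Simple f VV S) :
    ∃ U : Set X, IsOpen U ∧ S ⊆ U ∧
      ∀ S' : Set X, IsClosed S' → f '' S' = S' → S' ⊆ U → Simple f VV S' := by
  obtain ⟨U, hU, hSU, hf, hb⟩ := simple_nhd h S hS hi hH
  refine ⟨U, hU, hSU, fun S' _ hi' hSU' => ?_⟩
  have hfw : ∀ x ∈ S', ∃ V ∈ VV, (V ∩ S).Nonempty ∧ Fwd f x V := fun x hx =>
    hf x 0 fun n _ => hSU' (to_orb hi' hx _)
  have hbw : ∀ x ∈ S', ∃ V ∈ VV, (V ∩ S).Nonempty ∧ Bwd f x V := fun x hx =>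
    hb x 0 fun n _ => hSU' (to_orb hi' hx _)
  refine ⟨hH.fin.subset ?_, fun x hx => ?_, fun x hx => ?_⟩
  · rintro V' ⟨hV', x, hxV', hxS'⟩
    obtain ⟨V, hV, hm, hfwd⟩ := hfw x hxS'
    have h1 := fwd_unique h hV' hV (fwd_of_mem h hV' hxV').1 hfwd
    rw [h1]
    exact ⟨hV, hm⟩
  · obtain ⟨V, hV, -, hfwd⟩ := hfw x hx
    exact ⟨V, hV, hfwd⟩
  · obtain ⟨V, hV, -, hbwd⟩ := hbw x hx
    exact ⟨V, hV, hbwd⟩

end Pool.Agent.Helper55.OS
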