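import Pool.Agent.Helper55.OS.TopDefs

/-!
# OS-T1b TopOmg: limit sets

PROOFS.
* `omg_closed`, `omg_inv` (f '' omg = omg; compactness), `omg_nonempty` (compactness), `omg_sub`: if S is closed and
  invariant and x is in S then omg f x is in S; `omg_ev`: every open U containing omg f x contains (f^n) x for all
  large n (compactness: the closed sets closure {...} minus U decrease to the empty set);
  `rec_of_omg`: x in omg f x implies Rec f x (note (f^n) x with n ≥ 1, (f^(n:ℤ)) x = f^[n] x).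
* `fwd_of_stay`: if GoodW holds for W, V is a vertex that meets S, and (f^n) x is in closure (W V) for all n ≥ N, then Fwd f x V:
  all limit points y of the forward orbit satisfy (f^n) y in closure (W V) for all integers n, so y is in V; if Fwd
  failed for an open set W' containing V there would be a limit point outside W' (compactness). Same for Bwd.
-/

open Set Topology

namespace Pool.Agent.Helper55.OS

variable {X : Type} [MetricSpace X] [CompactSpace X] {f : X ≃ₜ X} {VV : Set (Set X)}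

private theorem h99_zadd (f : X ≃ₜ X) (m n : ℤ) (x : X) : (f ^ (m + n)) x = (f ^ m) ((f ^ n) x) := by
  rw [zpow_add]
  rfl

private theorem h99_succ (f : X ≃ₜ X) (n : ℤ) (x : X) : (f ^ (n + 1)) x = f ((f ^ n) x) := by
  rw [add_comm, h99_zadd, zpow_one]

private theorem h99_pred (f : X ≃ₜ X) (n : ℤ) (x : X) : (f ^ (n - 1)) x = f.symm ((f ^ n) x) := by
  rw [← Homeomorph.symm_apply_apply f ((f ^ (n - 1)) x), ← h99_succ, sub_add_cancel]

private theorem h99_mem_omg (f : X ≃ₜ X) (x y : X) : y ∈ omg f x ↔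
    ∀ (N : ℕ) (U : Set X), IsOpen U → y ∈ U → ∃ n : ℕ, N ≤ n ∧ (f ^ (n : ℤ)) x ∈ U := by
  unfold omg
  rw [mem_iInter]
  refine forall_congr' fun N => ?_
  rw [mem_closure_iff]
  refine forall_congr' fun U => forall_congr' fun hU => forall_congr' fun hy => ?_
  constructor
  · rintro ⟨z, hz, n, hn, rfl⟩
    exact ⟨n, hn, hz⟩
  · rintro ⟨n, hn, h⟩
    exact ⟨_, h, n, hn, rfl⟩

private theorem h99_mem_omg' (f : X ≃ₜ X) (x y : X)
    (h : MapClusterPt y Filter.atTop fun n : ℕ => (f ^ (n : ℤ)) x) : y ∈ omg f x := by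
  rw [h99_mem_omg]
  intro N U hU hy
  rw [mapClusterPt_iff_frequently] at h
  have h1 := (h U (hU.mem_nhds hy)).and_eventually (Filter.eventually_ge_atTop N)
  obtain ⟨n, hn, hN⟩ := h1.exists
  exact ⟨n, hN, hn⟩

theorem omg_closed (x : X) : IsClosed (omg f x) :=
  isClosed_iInter fun _ => isClosed_closure

private theorem h99_step (f : X ≃ₜ X) {x y : X} (hy : y ∈ omg f x) : f y ∈ omg f x := by
  rw [h99_mem_omg] at hy ⊢
  intro N U hU hyU
  obtain ⟨n, hn, h⟩ := hy N (f ⁻¹' U) (hU.preimage f.continuous) hyU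
  refine ⟨n + 1, by omega, ?_⟩
  rw [Nat.cast_add, Nat.cast_one, h99_succ]
  exact h

private theorem h99_back (f : X ≃ₜ X) {x y : X} (hy : y ∈ omg f x) : f.symm y ∈ omg f x := by
  rw [h99_mem_omg] at hy ⊢
  intro N U hU hyU
  obtain ⟨n, hn, h⟩ := hy (N + 1) (f.symm ⁻¹' U) (hU.preimage f.symm.continuous) hyU
  obtain ⟨m, rfl⟩ : ∃ m, n = m + 1 := ⟨n - 1, by omega⟩
  refine ⟨m, by omega, ?_⟩
  rw [Nat.cast_add, Nat.cast_one, h99_succ, mem_preimage, Homeomorph.symm_apply_apply] at h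
  exact h

theorem omg_inv (x : X) : f '' omg f x = omg f x := by
  apply subset_antisymm
  · rintro _ ⟨y, hy, rfl⟩
    exact h99_step f hy
  · intro y hy
    exact ⟨f.symm y, h99_back f hy, f.apply_symm_apply y⟩

private theorem h99_zinv (f : X ≃ₜ X) {x y : X} (hy : y ∈ omg f x) (n : ℤ) :
    (f ^ n) y ∈ omg f x := by
  induction n using Int.induction_on with
  | zero => simpa using hy
  | succ n ih =>
    rw [h99_succ]
    exact h99_step f ih
  | pred n ih =>
    rw [h99_pred]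
    exact h99_back f ih

theorem omg_nonempty (x : X) : (omg f x).Nonempty := by
  obtain ⟨y, -, hy⟩ := isCompact_univ.exists_mapClusterPt_of_frequently
    (f := fun n : ℕ => (f ^ (n : ℤ)) x) (l := (Filter.atTop : Filter ℕ))
    (Filter.frequently_atTop.2 fun N => ⟨N, le_rfl, mem_univ _⟩)
  exact ⟨y, h99_mem_omg' f x y hy⟩

theorem omg_sub {S : Set X} (hS : IsClosed S) (hi : f '' S = S) {x : X} (hx : x ∈ S) : omg f x ⊆ S := by
  have h1 : ∀ n : ℕ, (f ^ (n : ℤ)) x ∈ S := by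
    intro n
    induction n with
    | zero => simpa using hx
    | succ n ih =>
      rw [Nat.cast_add, Nat.cast_one, h99_succ, ← hi]
      exact mem_image_of_mem f ih
  intro y hy
  have h2 := mem_iInter.1 hy 0
  refine closure_minimal ?_ hS h2
  rintro _ ⟨n, -, rfl⟩
  exact h1 n

theorem omg_ev (x : X) (U : Set X) (hU : IsOpen U) (hs : omg f x ⊆ U) :
    ∃ N : ℕ, ∀ n : ℕ, N ≤ n → (f ^ (n : ℤ)) x ∈ U := by
  by_contra hcon
  push Not at hcon
  have h1 : ∃ᶠ n : ℕ in Filter.atTop, (fun n : ℕ => (f ^ (n : ℤ)) x) n ∈ Uᶜ := by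
    rw [Filter.frequently_atTop]
    intro N
    obtain ⟨n, hn, h⟩ := hcon N
    exact ⟨n, hn, h⟩
  obtain ⟨y, hy, hy2⟩ := hU.isClosed_compl.isCompact.exists_mapClusterPt_of_frequently h1
  exact hy (hs (h99_mem_omg' f x y hy2))

theorem rec_of_omg {x : X} (hx : x ∈ omg f x) : Rec f x := by
  intro U hU
  obtain ⟨n, hn, h⟩ := (h99_mem_omg f x x).1 hx 1 (interior U) isOpen_interior
    (mem_interior_iff_mem_nhds.2 hU)
  refine ⟨n, hn, ?_⟩
  have h1 : ∀ (n : ℕ) (x : X), (f ^ (n : ℤ)) x = f^[n] x := by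
    intro n
    induction n with
    | zero => simp
    | succ n ih =>
      intro x
      rw [Nat.cast_add, Nat.cast_one, h99_zadd, zpow_one, ih]
      rfl
  rw [← h1]
  exact interior_subset h

private theorem h99_stay (f : X ≃ₜ X) {V C : Set X} (hC : IsClosed C)
    (hiso : ∀ x, (∀ n : ℤ, (f ^ n) x ∈ C) → x ∈ V) (x : X) (N : ℕ)
    (hx : ∀ n : ℕ, N ≤ n → (f ^ (n : ℤ)) x ∈ C) (W : Set X) (hW : IsOpen W) (hVW : V ⊆ W) :
    ∃ M : ℕ, ∀ n : ℕ, M ≤ n → (f ^ (n : ℤ)) x ∈ W := by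
  have hsub : omg f x ⊆ C := by
    intro y hy
    refine closure_minimal ?_ hC (mem_iInter.1 hy N)
    rintro _ ⟨n, hn, rfl⟩
    exact hx n hn
  exact omg_ev x W hW fun y hy => hVW (hiso y fun n => hsub (h99_zinv f hy n))

theorem fwd_of_stay (h : Vdata f VV) {S : Set X} {W : Set X → Set X} (hW : GoodW f VV S W) {V : Set X}
    (hV : V ∈ VV) (hm : (V ∩ S).Nonempty) (x : X) (N : ℕ)
    (hx : ∀ n : ℕ, N ≤ n → (f ^ (n : ℤ)) x ∈ closure (W V)) : Fwd f x V := fun W' hW' hVW' =>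
  h99_stay f isClosed_closure (hW V hV hm).2.2.1 x N hx W' hW' hVW'

theorem bwd_of_stay (h : Vdata f VV) {S : Set X} {W : Set X → Set X} (hW : GoodW f VV S W) {V : Set X}
    (hV : V ∈ VV) (hm : (V ∩ S).Nonempty) (x : X) (N : ℕ)
    (hx : ∀ n : ℕ, N ≤ n → (f ^ (-(n : ℤ))) x ∈ closure (W V)) : Bwd f x V := by
  intro W' hW' hVW'
  have h1 : ∀ n : ℤ, f⁻¹ ^ n = f ^ (-n) := fun n => inv_zpow' f n
  obtain ⟨M, hM⟩ := h99_stay f⁻¹ (isClosed_closure (s := W V)) (fun y hy => (hW V hV hm).2.2.1 y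
    fun n => by
      have := hy (-n)
      rwa [h1, neg_neg] at this) x N (fun n hn => by
      rw [h1]
      exact hx n hn) W' hW' hVW'
  refine ⟨M, fun n hn => ?_⟩
  rw [← h1]
  exact hM n hn

end Pool.Agent.Helper55.OS
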