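import Pool.Agent.Helper55.OS.TopBasic
import Pool.Agent.Helper55.OS.TopOmg

/-!
# OS-T2 TopU: Lemma U (bounded number of excursions near a simple set)

STATEMENT. Let S be closed, invariant and simple, W a good system of neighbourhoods. Then there are an open U
containing S and N such that every finite orbit segment x, f x, ..., f^m x contained in U has at most N points outside
the union of the W V (V vertices meeting S).

PROOF. Suppose not: for every k there are x_k and m_k with d(f^j x_k, S) < 1/(k+1) for j ≤ m_k (U = thickening; if S is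
empty, U = empty set works) and at least k indices j ≤ m_k with Out (f^j x_k). Fix a nonprincipal ultrafilter F on N
(`Filter.hyperfilter ℕ`); limits along F exist (compactness).
CLAIM (step). Let t : N → N be such that Out (f^{t_k} x_k), t_k ≤ m_k for F-almost all k, and that for every c the number of
indices j with t_k < j ≤ m_k, Out (f^j x_k) is ≥ c for F-almost all k (*). Put y = lim_F f^{t_k} x_k. Then y is in S, Out y
(the W V are open, S closed, distances to S tend to 0). Let V in VV with Fwd f y V (S simple). V meets S: the forward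
orbit of y is in S, so omg f y is in S and in V (nonempty; Fwd). So f^n y in W V for all n ≥ T. By (*) with c = T+1 there
is for almost all k a first index s_k in (t_k + T, m_k] with Out (f^{s_k} x_k). For each fixed n ≥ T: f^{t_k+n} x_k → f^n y
in W V (open), so f^{t_k+n} x_k is in W V for almost all k and s_k > t_k + n; so s_k - t_k → infinity along F. The points
f^j x_k with t_k + T ≤ j < s_k are not Out for almost all k (for j = t_k+T: it is in W V), so by `goodW_stay` they are all in W V.
Let z = lim_F f^{s_k} x_k: z in S, Out z, and for each n ≥ 1 f^{-n} z = lim f^{s_k-n} x_k is in closure (W V). So the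
backward limit points of z are in V (as in `bwd_of_stay`, with closure (W V) instead of W V: the limit points w of the
backward orbit have (f^n) w in closure (W V) for all n, so are in V), i.e. Bwd f z V. And (*) holds again for s (at most
T+1 + (number of Out indices in (t_k, t_k+T]) are lost: the indices in (t_k, s_k] with Out are at most T+1).
Iterating (recursion on i, start t^0_k = the first Out index) gives sequences y_i in S with Out y_i and vertices V_i
meeting S with Fwd f (y_i) (V_(i+1)), Bwd f (y_(i+1)) (V_(i+1)). y_i is not in the union of VV: if y_i in V' in VV then V' meets S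
and y_i in V' is in W V', against Out. The vertices V_i, i ≥ 1, belong to a finite set (S simple), so V_a = V_b for some
1 ≤ a < b: then k = b - a, the vertices V_a, ..., V_b and the points y_a, ..., y_(b-1) are a cycle (Bwd f y_i V_i,
Fwd f y_i V_(i+1)), against `h.nc`. (Cycle wants a sequence V : N → Set X with all V i in VV: V'_i := V_(a + i).)
-/

open Set Topology

namespace Pool.Agent.Helper55.OS

open Filter

section Aux

variable {X : Type} [MetricSpace X] [CompactSpace X] {f : X ≃ₜ X} {VV : Set (Set X)}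

omit [CompactSpace X] in
private theorem zpow_add_apply (f : X ≃ₜ X) (a b : ℤ) (x : X) :
    (f ^ (a + b)) x = (f ^ a) ((f ^ b) x) := by
  rw [zpow_add]
  rfl

private theorem meets_of_fwd (h : Vdata f VV) {S : Set X} (hS : IsClosed S) (hi : f '' S = S)
    {y : X} (hy : y ∈ S) {V : Set X} (hV : V ∈ VV) (hF : Fwd f y V) : (V ∩ S).Nonempty := by
  obtain ⟨w, hw⟩ := omg_nonempty (f := f) y
  refine ⟨w, ?_, omg_sub hS hi hy hw⟩
  by_contra hwV
  have hcl : IsClosed V := (h.comp V hV).isClosed
  obtain ⟨U1, U2, hU1, hU2, hw1, hV2, hd⟩ :=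
    SeparatedNhds.of_isCompact_isCompact (isCompact_singleton (x := w)) (h.comp V hV)
      (by rw [Set.disjoint_singleton_left]; exact hwV)
  obtain ⟨N, hN⟩ := hF U2 hU2 hV2
  have h1 : w ∈ closure {y' | ∃ n : ℕ, N ≤ n ∧ y' = (f ^ (n : ℤ)) y} := by
    have := hw
    unfold omg at this
    rw [Set.mem_iInter] at this
    exact this N
  rw [mem_closure_iff] at h1
  obtain ⟨v, hv1, n, hn, rfl⟩ := h1 U1 hU1 (hw1 rfl)
  exact Set.disjoint_left.1 hd hv1 (hN n hn)

end Aux

theorem lemU {X : Type} [MetricSpace X] [CompactSpace X] {f : X ≃ₜ X} {VV : Set (Set X)}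
    (h : Vdata f VV) (S : Set X) (hS : IsClosed S) (hi : f '' S = S) (hH : Simple f VV S)
    (W : Set X → Set X) (hW : GoodW f VV S W) :
    ∃ U : Set X, IsOpen U ∧ S ⊆ U ∧ ∃ N : ℕ, ∀ (x : X) (m : ℕ),
      (∀ j : ℕ, j ≤ m → (f ^ (j : ℤ)) x ∈ U) →
        {j : ℕ | j ≤ m ∧ Out VV S W ((f ^ (j : ℤ)) x)}.ncard ≤ N := by
  classical
  by_contra hcon
  push Not at hcon
  have hU : ∀ k : ℕ, ∃ (x : X) (m : ℕ),
      (∀ j : ℕ, j ≤ m → (f ^ (j : ℤ)) x ∈ Metric.thickening (1 / ((k : ℝ) + 1)) S) ∧
        k < {j : ℕ | j ≤ m ∧ Out VV S W ((f ^ (j : ℤ)) x)}.ncard := fun k =>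
    hcon _ Metric.isOpen_thickening (Metric.self_subset_thickening (by positivity) S) k
  choose x m hx hc using hU
  -- the ultrafilter
  set F : Ultrafilter ℕ := Filter.hyperfilter ℕ with hFdef
  have hFle : (F : Filter ℕ) ≤ atTop := by
    rw [hFdef, ← Nat.cofinite_eq_atTop]
    exact Filter.hyperfilter_le_cofinite
  -- orbit points and limits
  set u : (ℕ → ℕ) → ℕ → X := fun t k => (f ^ (t k : ℤ)) (x k) with hu
  have hlim : ∀ v : ℕ → X, ∃ y, Tendsto v F (nhds y) := fun v =>
    ⟨(Ultrafilter.map v F).lim, (Ultrafilter.map v F).le_nhds_lim⟩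
  choose L hL using fun t : ℕ → ℕ => hlim (u t)
  -- the property
  set P : (ℕ → ℕ) → Prop := fun t =>
    (∀ᶠ k in (F : Filter ℕ), t k ≤ m k ∧ Out VV S W (u t k)) ∧
      ∀ c : ℕ, ∀ᶠ k in (F : Filter ℕ),
        c ≤ {j : ℕ | t k < j ∧ j ≤ m k ∧ Out VV S W ((f ^ (j : ℤ)) (x k))}.ncard with hP
  have hfin : ∀ (k : ℕ) (q : ℕ → Prop), {j : ℕ | j ≤ m k ∧ q j}.Finite := fun k q =>
    (Set.finite_Iic (m k)).subset fun j hj => hj.1
  have hPS : ∀ t, P t → L t ∈ S := by
    intro t ht
    rw [← hS.closure_eq, Metric.mem_closure_iff]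
    intro ε hε
    have h1 : ∀ᶠ k in (F : Filter ℕ), dist (u t k) (L t) < ε / 2 :=
      (hL t).eventually (Metric.ball_mem_nhds _ (by positivity))
    have h2 : ∀ᶠ k : ℕ in (F : Filter ℕ), 1 / ((k : ℝ) + 1) < ε / 2 :=
      hFle ((tendsto_one_div_add_atTop_nhds_zero_nat (𝕜 := ℝ)).eventually
        (Iio_mem_nhds (by positivity)))
    obtain ⟨k, ⟨h3, h4⟩, h5, -⟩ := ((h1.and h2).and ht.1).exists
    have h6 := hx k (t k) h5
    rw [Metric.mem_thickening_iff] at h6
    obtain ⟨s, hs, h7⟩ := h6
    refine ⟨s, hs, ?_⟩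
    calc dist (L t) s ≤ dist (L t) (u t k) + dist (u t k) s := dist_triangle _ _ _
      _ < ε / 2 + ε / 2 := by
          rw [dist_comm (L t)]
          exact add_lt_add h3 (h7.trans h4)
      _ = ε := by ring
  have hPO : ∀ t, P t → Out VV S W (L t) := by
    intro t ht V hV hm hyV
    have h1 : ∀ᶠ k in (F : Filter ℕ), u t k ∈ W V :=
      (hL t).eventually ((hW V hV hm).1.mem_nhds hyV)
    obtain ⟨k, h2, h3⟩ := (h1.and ht.1).exists
    exact h3.2 V hV hm h2
  -- the step
  have hstep : ∀ t : {t // P t}, ∃ s : {t // P t}, ∃ V : Set X, V ∈ VV ∧ (V ∩ S).Nonempty ∧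
      Fwd f (L t.1) V ∧ Bwd f (L s.1) V := by
    rintro ⟨t, ht⟩
    obtain ⟨V, hV, hFwd⟩ := hH.fwd (L t) (hPS t ht)
    have hm := meets_of_fwd h hS hi (hPS t ht) hV hFwd
    obtain ⟨hWo, hVW, -, -⟩ := hW V hV hm
    obtain ⟨T, hT⟩ := hFwd (W V) hWo hVW
    set A : ℕ → Set ℕ := fun k =>
      {j : ℕ | t k + T < j ∧ j ≤ m k ∧ Out VV S W ((f ^ (j : ℤ)) (x k))} with hA
    set s : ℕ → ℕ := fun k => sInf (A k) with hs
    -- nonempty
    have hne : ∀ᶠ k in (F : Filter ℕ), (A k).Nonempty := by
      filter_upwards [ht.2 (T + 1)] with k hk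
      by_contra hcon2
      rw [Set.not_nonempty_iff_eq_empty] at hcon2
      have h1 : {j : ℕ | t k < j ∧ j ≤ m k ∧ Out VV S W ((f ^ (j : ℤ)) (x k))} ⊆
          ((Finset.Ioc (t k) (t k + T) : Finset ℕ) : Set ℕ) := by
        rintro j ⟨h2, h3, h4⟩
        rw [Finset.mem_coe, Finset.mem_Ioc]
        refine ⟨h2, ?_⟩
        by_contra h5
        have : j ∈ A k := ⟨by omega, h3, h4⟩
        rw [hcon2] at this
        exact this
      have h2 := Set.ncard_le_ncard h1 (Finset.finite_toSet _)
      rw [Set.ncard_coe_finset, Nat.card_Ioc] at h2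
      omega
    have hsm : ∀ᶠ k in (F : Filter ℕ), t k + T < s k ∧ s k ≤ m k ∧
        Out VV S W ((f ^ (s k : ℤ)) (x k)) := by
      filter_upwards [hne] with k hk
      exact Nat.sInf_mem hk
    have hmin : ∀ k j, t k + T < j → j < s k → j ≤ m k → ¬ Out VV S W ((f ^ (j : ℤ)) (x k)) := by
      intro k j h1 h2 h3 h4
      exact Nat.notMem_of_lt_sInf h2 ⟨h1, h3, h4⟩
    -- convergence of the shifted points
    have hshift : ∀ n : ℤ, Tendsto (fun k => (f ^ n) (u t k)) F (nhds ((f ^ n) (L t))) := fun n =>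
      ((f ^ n).continuous.tendsto _).comp (hL t)
    have hin : ∀ n : ℕ, T ≤ n → ∀ᶠ k in (F : Filter ℕ),
        (f ^ ((t k + n : ℕ) : ℤ)) (x k) ∈ W V := by
      intro n hn
      filter_upwards [(hshift n).eventually (hWo.mem_nhds (hT n hn))] with k hk
      have : (f ^ ((t k + n : ℕ) : ℤ)) (x k) = (f ^ (n : ℤ)) (u t k) := by
        rw [hu]
        simp only
        rw [← zpow_add_apply]
        congr 2
        push_cast
        ring
      rw [this]
      exact hk
    have hfar : ∀ n : ℕ, ∀ᶠ k in (F : Filter ℕ), t k + T + n < s k := by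
      intro n
      induction n with
      | zero =>
        filter_upwards [hsm] with k hk
        exact hk.1
      | succ n ih =>
        filter_upwards [ih, hsm, hin (T + n + 1) (by omega)] with k h1 h2 h3
        have h4 : s k ≠ t k + (T + n + 1) := by
          intro h4
          apply h2.2.2 V hV hm
          rw [h4]
          exact h3
        omega
    -- the orbit stays in `W V`
    have hstay : ∀ᶠ k in (F : Filter ℕ), ∀ j : ℕ, t k + T ≤ j → j < s k →
        (f ^ (j : ℤ)) (x k) ∈ W V := by
      filter_upwards [hsm, hin T le_rfl] with k h1 h2 j hj1 hj2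
      have h3 := goodW_stay hW hV hm ((f ^ ((t k + T : ℕ) : ℤ)) (x k)) h2 (j - (t k + T))
        (by
          intro i hi2
          rw [← zpow_add_apply, ← Nat.cast_add]
          rcases Nat.eq_zero_or_pos i with h0 | h0
          · intro hO
            apply hO V hV hm
            rw [h0, zero_add]
            exact h2
          · exact hmin k _ (by omega) (by omega) (by omega))
        (j - (t k + T)) le_rfl
      rw [← zpow_add_apply, ← Nat.cast_add, Nat.sub_add_cancel hj1] at h3
      exact h3
    have hPs : P s := by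
      refine ⟨?_, ?_⟩
      · filter_upwards [hsm] with k hk
        exact ⟨hk.2.1, hk.2.2⟩
      · intro c
        filter_upwards [hsm, ht.2 (c + T + 1)] with k h1 h2
        have h3 : {j : ℕ | t k < j ∧ j ≤ m k ∧ Out VV S W ((f ^ (j : ℤ)) (x k))} ⊆
            ({j : ℕ | s k < j ∧ j ≤ m k ∧ Out VV S W ((f ^ (j : ℤ)) (x k))} ∪
              ((Finset.Ioc (t k) (t k + T) : Finset ℕ) : Set ℕ)) ∪ {s k} := by
          rintro j ⟨h4, h5, h6⟩
          by_cases h7 : j ≤ t k + T
          · left; right
            rw [Finset.mem_coe, Finset.mem_Ioc]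
            exact ⟨h4, h7⟩
          · push Not at h7
            rcases lt_trichotomy j (s k) with h8 | h8 | h8
            · exact absurd h6 (hmin k j h7 h8 h5)
            · right; exact h8
            · left; left; exact ⟨h8, h5, h6⟩
        have hf1 : {j : ℕ | s k < j ∧ j ≤ m k ∧ Out VV S W ((f ^ (j : ℤ)) (x k))}.Finite :=
          (Set.finite_Iic (m k)).subset fun j hj => hj.2.1
        have h4 := Set.ncard_le_ncard h3
          ((hf1.union (Finset.finite_toSet _)).union (Set.finite_singleton _))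
        have h5 := h4.trans (Set.ncard_union_le _ _)
        have h6 := Set.ncard_union_le
          {j : ℕ | s k < j ∧ j ≤ m k ∧ Out VV S W ((f ^ (j : ℤ)) (x k))}
          ((Finset.Ioc (t k) (t k + T) : Finset ℕ) : Set ℕ)
        rw [Set.ncard_coe_finset, Nat.card_Ioc] at h6
        rw [Set.ncard_singleton] at h5
        omega
    refine ⟨⟨s, hPs⟩, V, hV, hm, hFwd, ?_⟩
    apply bwd_of_stay h hW hV hm (L s) 1
    intro n hn
    have h1 : Tendsto (fun k => (f ^ (-(n : ℤ))) (u s k)) F (nhds ((f ^ (-(n : ℤ))) (L s))) :=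
      ((f ^ (-(n : ℤ))).continuous.tendsto _).comp (hL s)
    refine mem_closure_of_tendsto h1 ?_
    filter_upwards [hfar n, hstay] with k h2 h3
    have h4 : (f ^ (-(n : ℤ))) (u s k) = (f ^ ((s k - n : ℕ) : ℤ)) (x k) := by
      rw [hu]
      simp only
      rw [← zpow_add_apply]
      congr 2
      rw [Nat.cast_sub (by omega)]
      ring
    rw [h4]
    exact h3 _ (by omega) (by omega)
  -- the start
  have hstart : ∃ t, P t := by
    set A : ℕ → Set ℕ := fun k => {j : ℕ | j ≤ m k ∧ Out VV S W ((f ^ (j : ℤ)) (x k))} with hA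
    have hne : ∀ k, (A k).Nonempty := by
      intro k
      apply Set.nonempty_of_ncard_ne_zero
      have h1 : k < (A k).ncard := hc k
      omega
    refine ⟨fun k => sInf (A k), ?_, ?_⟩
    · filter_upwards with k
      exact Nat.sInf_mem (hne k)
    · intro c
      filter_upwards [hFle (eventually_ge_atTop c)] with k hk
      have h3 : A k ⊆ {j : ℕ | sInf (A k) < j ∧ j ≤ m k ∧ Out VV S W ((f ^ (j : ℤ)) (x k))} ∪
          {sInf (A k)} := by
        intro j hj
        rcases (Nat.sInf_le hj).lt_or_eq with h4 | h4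
        · left; exact ⟨h4, hj.1, hj.2⟩
        · right; exact h4.symm
      have hf1 : {j : ℕ | sInf (A k) < j ∧ j ≤ m k ∧ Out VV S W ((f ^ (j : ℤ)) (x k))}.Finite :=
        (Set.finite_Iic (m k)).subset fun j hj => hj.2.1
      have h4 := Set.ncard_le_ncard h3 (hf1.union (Set.finite_singleton _))
      have h5 := h4.trans (Set.ncard_union_le _ _)
      rw [Set.ncard_singleton] at h5
      have h6 := hc k
      change c ≤ _
      have h7 : k ≤ {j : ℕ | sInf (A k) < j ∧ j ≤ m k ∧ Out VV S W ((f ^ (j : ℤ)) (x k))}.ncard := by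
        have : k < (A k).ncard := h6
        omega
      exact le_trans hk h7
  obtain ⟨t0, ht0⟩ := hstart
  choose nx V hVV hVm hVF hVB using hstep
  set T : ℕ → {t // P t} := fun i => nx^[i] ⟨t0, ht0⟩ with hT
  have hTs : ∀ i, T (i + 1) = nx (T i) := fun i => by
    rw [hT]
    simp only
    rw [Function.iterate_succ_apply']
  obtain ⟨a, b, hab, hVab⟩ := Set.Finite.exists_lt_map_eq_of_forall_mem
    (f := fun i : ℕ => V (T i)) (t := {V | V ∈ VV ∧ (V ∩ S).Nonempty})
    (fun i => ⟨hVV _, hVm _⟩) hH.fin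
  apply h.nc
  refine ⟨b - a, fun i => V (T (a + i)), fun i => L (T (a + i + 1)).1, by omega,
    fun i => hVV _, ?_, ?_⟩
  · simp only
    rw [Nat.add_sub_cancel' hab.le, add_zero]
    exact hVab.symm
  · intro i _
    refine ⟨?_, ?_, ?_⟩
    · rintro ⟨V', hV', hmem⟩
      have hy := hPS _ (T (a + i + 1)).2
      have hm' : (V' ∩ S).Nonempty := ⟨_, hmem, hy⟩
      exact hPO _ (T (a + i + 1)).2 V' hV' hm' ((hW V' hV' hm').2.1 hmem)
    · simp only
      rw [hTs]
      exact hVB _
    · exact hVF _

end Pool.Agent.Helper55.OS
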