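import Pool.Agent.Helper55.OS.BaseDefs

/-!
# OS-Z01 ZeroCount: an Omega-stable diffeomorphism has a neighbourhood with constant numbers of periodic points

TASK. PROOF. Let `𝒰` be the open set of the definition of `OmegaStable f`. (a) A fixed point of `g^[n]`, `n ≥ 1`, is in
`omega g` (`x ∈ g^[n] '' U ∩ U`). (b) `omega g` is mapped into itself by `g`: for `U ∈ 𝓝 (g x)` use the neighbourhood
`g ⁻¹' U` of `x`, and `g (g^[n] y) = g^[n] (g y)`. (c) For `g ∈ 𝒰` let `h : omega f ≃ₜ omega g` with `h y = g (h x)` whenever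
`y = f x`. By induction on `n`: if `y = f^[n] x` (`x, y ∈ omega f`) then `h y = g^[n] (h x)`. So `f^[n] x = x` iff
`g^[n] (h x) = h x` (`h` is injective), and `h` restricts to a bijection between the fixed points of `f^[n]` and of `g^[n]`
(both sets are contained in the nonwandering sets by (a)). (d) For `g, g' ∈ 𝒰` compose the two bijections.
-/

open Set Topology Manifold ContDiff Filter

namespace Pool.Agent.Helper55.OS

variable {d : ℕ} {M : Type} [TopologicalSpace M] [ChartedSpace (E d) M] [IsManifold (𝓡 d) ∞ M]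

section
variable {X : Type} [TopologicalSpace X]

private theorem zc_fix_mem {g : X → X} {n : ℕ} (hn : 1 ≤ n) {x : X} (hx : g^[n] x = x) :
    x ∈ omega g := by
  intro U hU
  have hxU : x ∈ U := mem_of_mem_nhds hU
  exact ⟨n, hn, x, ⟨x, hxU, hx⟩, hxU⟩

private theorem zc_map {g : X → X} (hg : Continuous g) {x : X} (hx : x ∈ omega g) :
    g x ∈ omega g := by
  intro U hU
  obtain ⟨n, hn, z, ⟨y, hy, hyz⟩, hz⟩ := hx (g ⁻¹' U) (hg.continuousAt.preimage_mem_nhds hU)
  refine ⟨n, hn, g z, ⟨g y, hy, ?_⟩, hz⟩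
  rw [← Function.iterate_succ_apply, Function.iterate_succ_apply', hyz]

private theorem zc_iter_mem {g : X → X} (hg : Continuous g) {x : X} (hx : x ∈ omega g) (n : ℕ) :
    g^[n] x ∈ omega g := by
  induction n with
  | zero => exact hx
  | succ n ih =>
    rw [Function.iterate_succ_apply']
    exact zc_map hg ih

private theorem zc_iter {f g : X → X} (hf : Continuous f) (h : omega f → omega g)
    (hh : ∀ x y : omega f, (y : X) = f x → (h y : X) = g (h x)) (n : ℕ) :
    ∀ x y : omega f, (y : X) = f^[n] x → (h y : X) = g^[n] (h x) := by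
  induction n with
  | zero =>
    intro x y hxy
    have h1 : y = x := Subtype.ext hxy
    rw [h1]
    rfl
  | succ n ih =>
    intro x y hxy
    have hz : f^[n] (x : X) ∈ omega f := zc_iter_mem hf x.2 n
    have h1 := ih x ⟨f^[n] (x : X), hz⟩ rfl
    rw [Function.iterate_succ_apply'] at hxy ⊢
    rw [hh ⟨f^[n] (x : X), hz⟩ y hxy, h1]

private theorem zc_equiv {f g : X → X} (hf : Continuous f) (h : omega f ≃ₜ omega g)
    (hh : ∀ x y : omega f, (y : X) = f x → (h y : X) = g (h x)) {n : ℕ} (hn : 1 ≤ n) :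
    Nonempty ({x : X | f^[n] x = x} ≃ {x : X | g^[n] x = x}) := by
  have hi := zc_iter hf h hh n
  have h1 : ∀ x : omega f, f^[n] (x : X) = x ↔ g^[n] (h x : X) = h x := by
    intro x
    constructor
    · intro hx
      exact (hi x x hx.symm).symm
    · intro hx
      have h2 := hi x ⟨f^[n] (x : X), zc_iter_mem hf x.2 n⟩ rfl
      rw [hx] at h2
      have h3 := h.injective (Subtype.ext h2)
      exact congrArg Subtype.val h3
  refine ⟨⟨fun x => ⟨h ⟨x.1, zc_fix_mem hn x.2⟩, (h1 ⟨x.1, zc_fix_mem hn x.2⟩).1 x.2⟩,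
    fun y => ⟨h.symm ⟨y.1, zc_fix_mem hn y.2⟩, ?_⟩, ?_, ?_⟩⟩
  · refine (h1 _).2 ?_
    rw [h.apply_symm_apply]
    exact y.2
  · intro x
    apply Subtype.ext
    simp
  · intro y
    apply Subtype.ext
    simp

end

theorem countStable_of_omegaStable (f : Dif d M) (h : OmegaStable f) :
    ∃ 𝒰 : Set (Dif d M), IsOpen[smoothTop d M] 𝒰 ∧ f ∈ 𝒰 ∧ CountStable 𝒰 := by
  obtain ⟨𝒰, hU, hf, hcon⟩ := h
  refine ⟨𝒰, hU, hf, ?_⟩
  intro g hg g' hg' n hn
  obtain ⟨k, hk⟩ := hcon g hg
  obtain ⟨k', hk'⟩ := hcon g' hg'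
  obtain ⟨e⟩ := zc_equiv f.continuous k hk hn
  obtain ⟨e'⟩ := zc_equiv f.continuous k' hk' hn
  exact ⟨e.symm.trans e'⟩

end Pool.Agent.Helper55.OS
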