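import Pool.Agent.Helper55.OS.BaseDefs

/-!
# OS-Z12 ZeroDual: surjectivity of the period map (duality)

`PertOK A ε`: there is a factor `B` with `‖B - 1‖ < ε` such that `A' = A B` has a periodic vector `w` of period `q` and the linear
map `L ↦ ∑_{i < q} A'^(q-i) L A'^i w` is surjective.
TASK. PROOFS. `surj_of_dual`: the map `S L = ∑ ...` is linear; suppose its range `R` is not everything. Then there is a nonzero
functional `φ` vanishing on `R` (`Submodule.exists_le_ker_of_lt_top`; continuous since `E d` is finite dimensional). For `x : E d` and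
a functional `ψ` take `L = ψ.smulRight x` (`L y = ψ y • x`): `∑ ψ (A^i u) φ (A^(q-i) x) = 0`, i.e. `ψ (Z x) = 0` with
`Z x = ∑_{i < q} φ (A^(q-i) x) • A^i u`. So `Z x = 0` for all `x`. Shifting the index, `Z (A x) = A (Z x) + (φ (A^(q+1) x) - φ (A x)) • u`
(use `A^q u = u`; `Finset.sum_range_succ`, `Finset.sum_range_succ'`). As `u ≠ 0`: `φ (A^q (A x)) = φ (A x)`, and `A` is surjective:
`φ (A^q y) = φ y` for all `y`. By `hD`, `φ = 0` on `W`. For any `x` take `y` of `hH`: `x = A^q y - y - w`, `w ∈ W`,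
`φ x = φ (A^q y) - φ y - φ w = 0`: contradiction.
`dual_line`: the sum is `φ (A (A u)) • u + φ (A u) • A u = (1 + 1) φ u • u` (`A u = c u`, `c^2 = 1`).
`dual_plane`: let `c_i + s_i I = (c + s I)^i` (complex powers). By induction `A^i u = c_i u - s_i v`, `A^i v = s_i u + c_i v`. For `i ≤ q`,
`(c + s I)^(q-i)` is the conjugate of `(c + s I)^i` (modulus one, `q`-th power one), so `A^(q-i) u = c_i u + s_i v`. With
`a = φ u`, `b = φ v` the sum is `(a ∑ c_i^2 + b ∑ c_i s_i) u - (a ∑ c_i s_i + b ∑ s_i^2) v`. Since `∑_{i<q} (c + s I)^(2 i) = 0`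
(geometric sum: `(c + s I)^2 ≠ 1` because `s ≠ 0`, `c^2 + s^2 = 1`, and its `q`-th power is `1`): `∑ (c_i^2 - s_i^2) = 0`,
`∑ c_i s_i = 0`, and `∑ (c_i^2 + s_i^2) = q`. So `(q/2) (a u - b v) = 0`, and `u, v` are independent: `a = b = 0`.
-/

open Set Topology Filter

namespace Pool.Agent.Helper55.OS

/-- A small factor `B` gives `A B` a periodic vector with surjective period map. -/
def PertOK {d : ℕ} (A : E d →L[ℝ] E d) (ε : ℝ) : Prop :=
  ∃ (B : E d →L[ℝ] E d) (q : ℕ) (w : E d), ‖B - ContinuousLinearMap.id ℝ (E d)‖ < ε ∧ 1 ≤ q ∧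
    w ≠ 0 ∧ ((A.comp B) ^ q) w = w ∧
    Function.Surjective (fun L : E d →L[ℝ] E d =>
      ∑ i ∈ Finset.range q, ((A.comp B) ^ (q - i)) (L (((A.comp B) ^ i) w)))

theorem surj_of_dual {d : ℕ} (A : E d →L[ℝ] E d) (hA : Function.Surjective A) (q : ℕ) (hq : 1 ≤ q)
    (u : E d) (hu : u ≠ 0) (hfix : (A ^ q) u = u) (W : Submodule ℝ (E d))
    (hH : ∀ x : E d, ∃ y : E d, (A ^ q) y - y - x ∈ W)
    (hD : ∀ φ : E d →L[ℝ] ℝ,
      (∀ x ∈ W, ∑ i ∈ Finset.range q, φ ((A ^ (q - i)) x) • (A ^ i) u = 0) → ∀ x ∈ W, φ x = 0) :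
    Function.Surjective (fun L : E d →L[ℝ] E d =>
      ∑ i ∈ Finset.range q, (A ^ (q - i)) (L ((A ^ i) u))) := by
  obtain ⟨S, hS⟩ : ∃ S : (E d →L[ℝ] E d) →ₗ[ℝ] E d, ∀ L : E d →L[ℝ] E d,
      S L = ∑ i ∈ Finset.range q, (A ^ (q - i)) (L ((A ^ i) u)) := by
    refine ⟨{ toFun := fun L => ∑ i ∈ Finset.range q, (A ^ (q - i)) (L ((A ^ i) u)),
              map_add' := ?_, map_smul' := ?_ }, fun L => rfl⟩
    · intro L L'
      rw [← Finset.sum_add_distrib]
      refine Finset.sum_congr rfl fun i _ => ?_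
      rw [add_apply, map_add]
    · intro t L
      rw [RingHom.id_apply, Finset.smul_sum]
      refine Finset.sum_congr rfl fun i _ => ?_
      rw [smul_apply, map_smul]
  have hfun : (fun L : E d →L[ℝ] E d => ∑ i ∈ Finset.range q, (A ^ (q - i)) (L ((A ^ i) u))) = S := by
    funext L
    exact (hS L).symm
  rw [hfun, ← LinearMap.range_eq_top]
  by_contra hne
  obtain ⟨f, hf0, hf⟩ := Submodule.exists_le_ker_of_lt_top _ (lt_top_iff_ne_top.2 hne)
  obtain ⟨φ, hφ⟩ : ∃ φ : E d →L[ℝ] ℝ, ∀ x, φ x = f x := ⟨LinearMap.toContinuousLinearMap f, fun x => rfl⟩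
  have hφS : ∀ L, φ (S L) = 0 := by
    intro L
    rw [hφ]
    exact LinearMap.mem_ker.1 (hf ⟨L, rfl⟩)
  have hZ : ∀ x : E d, ∑ i ∈ Finset.range q, φ ((A ^ (q - i)) x) • (A ^ i) u = 0 := by
    intro x
    obtain ⟨Z, hZ⟩ : ∃ Z : E d, Z = ∑ i ∈ Finset.range q, φ ((A ^ (q - i)) x) • (A ^ i) u := ⟨_, rfl⟩
    rw [← hZ]
    have h0 : ∀ ψ : E d →L[ℝ] ℝ, ψ Z = 0 := by
      intro ψ
      have h1 := hφS (ContinuousLinearMap.smulRight ψ x)
      rw [hS, map_sum] at h1
      rw [hZ, map_sum, ← h1]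
      refine Finset.sum_congr rfl fun i _ => ?_
      rw [ContinuousLinearMap.smulRight_apply, map_smul, map_smul, map_smul, smul_eq_mul, smul_eq_mul, mul_comm]
    have h2 := h0 (innerSL ℝ Z)
    rw [innerSL_apply_apply] at h2
    exact inner_self_eq_zero.1 h2
  have hq1 : ∀ x : E d, φ ((A ^ q) (A x)) = φ (A x) := by
    intro x
    have h1 : ∑ j ∈ Finset.range (q + 1), φ ((A ^ (q + 1 - j)) x) • (A ^ j) u =
        φ (A x) • u := by
      rw [Finset.sum_range_succ]
      have h2 : ∑ j ∈ Finset.range q, φ ((A ^ (q + 1 - j)) x) • (A ^ j) u = 0 := by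
        rw [← hZ (A x)]
        refine Finset.sum_congr rfl fun j hj => ?_
        have hj := Finset.mem_range.1 hj
        have h3 : q + 1 - j = (q - j) + 1 := by omega
        rw [h3, pow_succ]
        rfl
      rw [h2, zero_add, hfix]
      have h3 : q + 1 - q = 1 := by omega
      rw [h3, pow_one]
    have h4 : ∑ j ∈ Finset.range (q + 1), φ ((A ^ (q + 1 - j)) x) • (A ^ j) u =
        φ ((A ^ q) (A x)) • u := by
      rw [Finset.sum_range_succ']
      have h2 : ∑ j ∈ Finset.range q, φ ((A ^ (q + 1 - (j + 1))) x) • (A ^ (j + 1)) u = 0 := by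
        have h3 := congrArg A (hZ x)
        rw [map_zero, map_sum] at h3
        rw [← h3]
        refine Finset.sum_congr rfl fun j _ => ?_
        rw [map_smul, Nat.add_sub_add_right, pow_succ']
        rfl
      rw [h2, zero_add, pow_zero, Nat.sub_zero, pow_succ]
      rfl
    have h5 := h4.symm.trans h1
    exact smul_left_injective ℝ hu h5
  have hq2 : ∀ y : E d, φ ((A ^ q) y) = φ y := by
    intro y
    obtain ⟨x, rfl⟩ := hA y
    exact hq1 x
  have hW := hD φ (fun x _ => hZ x)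
  apply hf0
  apply LinearMap.ext
  intro x
  obtain ⟨y, hy⟩ := hH x
  have h1 := hW _ hy
  rw [map_sub, map_sub, hq2, sub_self, zero_sub, neg_eq_zero] at h1
  rw [← hφ, h1]
  rfl

theorem dual_line {d : ℕ} (A : E d →L[ℝ] E d) (u : E d) (hu : u ≠ 0) (c : ℝ) (hc : c ^ 2 = 1)
    (h : A u = c • u) (φ : E d →L[ℝ] ℝ)
    (hz : ∑ i ∈ Finset.range 2, φ ((A ^ (2 - i)) u) • (A ^ i) u = 0) : φ u = 0 := by
  have h2 : (A ^ 2) u = u := by
    rw [pow_two]
    change A (A u) = u
    rw [h, map_smul, h, smul_smul, ← pow_two, hc, one_smul]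
  rw [Finset.sum_range_succ, Finset.sum_range_succ, Finset.sum_range_zero, zero_add] at hz
  have h3 : (2 : ℕ) - 1 = 1 := rfl
  rw [Nat.sub_zero, h3, pow_zero, pow_one, h2, h, map_smul, smul_smul, smul_eq_mul] at hz
  change φ u • u + (c * φ u * c) • u = 0 at hz
  rw [← add_smul] at hz
  rcases smul_eq_zero.1 hz with h4 | h4
  · have h5 : c * φ u * c = φ u := by
      rw [mul_comm c, mul_assoc, ← pow_two, hc, mul_one]
    rw [h5] at h4
    linarith
  · exact absurd h4 hu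

theorem dual_plane {d : ℕ} (A : E d →L[ℝ] E d) (u v : E d) (huv : LinearIndependent ℝ ![u, v])
    (c s : ℝ) (hcs : c ^ 2 + s ^ 2 = 1) (hs : s ≠ 0) (h1 : A u = c • u - s • v)
    (h2 : A v = s • u + c • v) (q : ℕ) (hq : 1 ≤ q) (hroot : ((c : ℂ) + (s : ℂ) * Complex.I) ^ q = 1)
    (φ : E d →L[ℝ] ℝ)
    (hz : ∑ i ∈ Finset.range q, φ ((A ^ (q - i)) u) • (A ^ i) u = 0) : φ u = 0 ∧ φ v = 0 := by
  obtain ⟨ζ, hζ⟩ : ∃ ζ : ℂ, ζ = (c : ℂ) + (s : ℂ) * Complex.I := ⟨_, rfl⟩
  rw [← hζ] at hroot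
  have hre : ζ.re = c := by rw [hζ]; simp
  have him : ζ.im = s := by rw [hζ]; simp
  have hns : ζ * (starRingEnd ℂ) ζ = 1 := by
    apply Complex.ext
    · rw [Complex.mul_re, Complex.conj_re, Complex.conj_im, hre, him, Complex.one_re]
      linarith [hcs]
    · rw [Complex.mul_im, Complex.conj_re, Complex.conj_im, hre, him, Complex.one_im]
      ring
  have hnsi : ∀ i : ℕ, ζ ^ i * (starRingEnd ℂ) (ζ ^ i) = 1 := by
    intro i
    rw [map_pow, ← mul_pow, hns, one_pow]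
  have hiter : ∀ i : ℕ, (A ^ i) u = (ζ ^ i).re • u - (ζ ^ i).im • v ∧
      (A ^ i) v = (ζ ^ i).im • u + (ζ ^ i).re • v := by
    intro i
    induction i with
    | zero =>
      rw [pow_zero, pow_zero, Complex.one_re, Complex.one_im]
      constructor
      · change u = _
        module
      · change v = _
        module
    | succ i ih =>
      rw [pow_succ, pow_succ, Complex.mul_re, Complex.mul_im, hre, him]
      constructor
      · change (A ^ i) (A u) = _
        rw [h1, map_sub, map_smul, map_smul, ih.1, ih.2]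
        module
      · change (A ^ i) (A v) = _
        rw [h2, map_add, map_smul, map_smul, ih.1, ih.2]
        module
  have hconj : ∀ i : ℕ, i ≤ q → ζ ^ (q - i) = (starRingEnd ℂ) (ζ ^ i) := by
    intro i hi
    have h3 : ζ ^ (q - i) * ζ ^ i = 1 := by rw [← pow_add, Nat.sub_add_cancel hi, hroot]
    calc ζ ^ (q - i) = ζ ^ (q - i) * (ζ ^ i * (starRingEnd ℂ) (ζ ^ i)) := by rw [hnsi, mul_one]
      _ = (ζ ^ (q - i) * ζ ^ i) * (starRingEnd ℂ) (ζ ^ i) := by rw [mul_assoc]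
      _ = (starRingEnd ℂ) (ζ ^ i) := by rw [h3, one_mul]
  have hne : ζ ^ 2 ≠ 1 := by
    intro h3
    have h4 := congrArg Complex.re h3
    rw [pow_two, Complex.mul_re, hre, him, Complex.one_re] at h4
    have h5 : s ^ 2 = 0 := by nlinarith
    exact hs (pow_eq_zero_iff (two_ne_zero) |>.1 h5)
  have hgeo : ∑ i ∈ Finset.range q, (ζ ^ i) ^ 2 = 0 := by
    have h3 := mul_geom_sum (ζ ^ 2) q
    rw [← pow_mul, mul_comm 2 q, pow_mul, hroot, one_pow, sub_self] at h3
    rcases mul_eq_zero.1 h3 with h4 | h4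
    · exact absurd (sub_eq_zero.1 h4) hne
    · rw [← h4]
      refine Finset.sum_congr rfl fun i _ => ?_
      rw [← pow_mul, ← pow_mul, mul_comm]
  have hg1 : ∑ i ∈ Finset.range q, ((ζ ^ i).re * (ζ ^ i).re - (ζ ^ i).im * (ζ ^ i).im) = 0 := by
    have h3 := congrArg Complex.re hgeo
    rw [Complex.re_sum, Complex.zero_re] at h3
    rw [← h3]
    refine Finset.sum_congr rfl fun i _ => ?_
    rw [pow_two (ζ ^ i), Complex.mul_re]
  have hg2 : ∑ i ∈ Finset.range q, (ζ ^ i).re * (ζ ^ i).im = 0 := by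
    have h3 := congrArg Complex.im hgeo
    rw [Complex.im_sum, Complex.zero_im] at h3
    have h4 : 2 * ∑ i ∈ Finset.range q, (ζ ^ i).re * (ζ ^ i).im = 0 := by
      rw [Finset.mul_sum, ← h3]
      refine Finset.sum_congr rfl fun i _ => ?_
      rw [pow_two (ζ ^ i), Complex.mul_im]
      ring
    linarith
  have hg3 : ∑ i ∈ Finset.range q, ((ζ ^ i).re * (ζ ^ i).re + (ζ ^ i).im * (ζ ^ i).im) = q := by
    have h3 : ∀ i ∈ Finset.range q, (ζ ^ i).re * (ζ ^ i).re + (ζ ^ i).im * (ζ ^ i).im = (1 : ℝ) := by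
      intro i _
      have h4 := congrArg Complex.re (hnsi i)
      rw [Complex.mul_re, Complex.conj_re, Complex.conj_im, Complex.one_re] at h4
      linarith
    rw [Finset.sum_congr rfl h3, Finset.sum_const, Finset.card_range, nsmul_eq_mul, mul_one]
  have hq0 : (0 : ℝ) < q := by exact_mod_cast hq
  obtain ⟨P, hP⟩ : ∃ P : ℝ, P = ∑ i ∈ Finset.range q, (ζ ^ i).re * (ζ ^ i).re := ⟨_, rfl⟩
  obtain ⟨Q, hQ⟩ : ∃ Q : ℝ, Q = ∑ i ∈ Finset.range q, (ζ ^ i).im * (ζ ^ i).im := ⟨_, rfl⟩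
  rw [Finset.sum_sub_distrib, ← hP, ← hQ] at hg1
  rw [Finset.sum_add_distrib, ← hP, ← hQ] at hg3
  have hsum : (φ u * P) • u - (φ v * Q) • v = 0 := by
    rw [← hz]
    have h3 : ∀ i ∈ Finset.range q, φ ((A ^ (q - i)) u) • (A ^ i) u =
        (φ u * ((ζ ^ i).re * (ζ ^ i).re) + φ v * ((ζ ^ i).re * (ζ ^ i).im)) • u -
        (φ u * ((ζ ^ i).re * (ζ ^ i).im) + φ v * ((ζ ^ i).im * (ζ ^ i).im)) • v := by
      intro i hi
      have hi' : i ≤ q := (Finset.mem_range.1 hi).le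
      rw [(hiter (q - i)).1, (hiter i).1, hconj i hi', Complex.conj_re, Complex.conj_im, map_sub,
        map_smul, map_smul, smul_eq_mul, smul_eq_mul]
      module
    rw [Finset.sum_congr rfl h3, Finset.sum_sub_distrib, ← Finset.sum_smul, ← Finset.sum_smul,
      Finset.sum_add_distrib, Finset.sum_add_distrib, ← Finset.mul_sum, ← Finset.mul_sum,
      ← Finset.mul_sum, ← Finset.mul_sum, hg2, ← hP, ← hQ, mul_zero, mul_zero, add_zero, zero_add]
  have hli := LinearIndependent.pair_iff.1 huv (φ u * P) (-(φ v * Q)) (by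
    rw [neg_smul, ← sub_eq_add_neg]
    exact hsum)
  have hPp : 0 < P := by linarith
  have hQp : 0 < Q := by linarith
  constructor
  · rcases mul_eq_zero.1 hli.1 with h3 | h3
    · exact h3
    · linarith
  · rcases mul_eq_zero.1 (neg_eq_zero.1 hli.2) with h3 | h3
    · exact h3
    · linarith

end Pool.Agent.Helper55.OS
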