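import Pool.Agent.Helper55.OS.BaseDefs

/-!
# OS-Z08 ZeroLin: a small scalar that destroys the eigenvalue 1

TASK. PROOF. For each `i` with `1 ≤ k i` the set of the `s > 0` with `FixVec ((1 + s)^(k i) • A i)` is finite: then
`((1 + s)^(k i))⁻¹` is an eigenvalue of `A i`; the eigenvalues are finitely many (`Module.End.finite_hasEigenvalue` or the roots of
the characteristic polynomial) and `s ↦ ((1 + s)^k)⁻¹` is injective on `s > 0`. The interval `(0, ε)` is infinite.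
-/

open Set Topology Filter

namespace Pool.Agent.Helper55.OS

theorem exists_scalar {d : ℕ} {ι : Type} (I : Set ι) (hI : I.Finite) (A : ι → (E d →L[ℝ] E d))
    (k : ι → ℕ) (hk : ∀ i ∈ I, 1 ≤ k i) (ε : ℝ) (hε : 0 < ε) :
    ∃ s : ℝ, 0 < s ∧ s < ε ∧ ∀ i ∈ I, ¬ FixVec ((1 + s) ^ (k i) • A i) := by
  have hfin : ∀ i ∈ I, {s : ℝ | 0 < s ∧ FixVec ((1 + s) ^ (k i) • A i)}.Finite := by
    intro i hi
    refine Set.Finite.of_injOn (f := fun s : ℝ => ((1 + s) ^ (k i))⁻¹)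
      (t := {μ : ℝ | Module.End.HasEigenvalue (A i : E d →ₗ[ℝ] E d) μ}) ?_ ?_
      (Module.End.finite_hasEigenvalue _)
    · rintro s ⟨hs, v, hv, hAv⟩
      have h1 : (1 + s) ^ (k i) ≠ 0 := by positivity
      refine Module.End.hasEigenvalue_of_hasEigenvector (x := v) ⟨?_, hv⟩
      rw [Module.End.mem_eigenspace_iff]
      have h2 : (1 + s) ^ (k i) • (A i) v = v := hAv
      change (A i) v = ((1 + s) ^ (k i))⁻¹ • v
      rw [← h2, smul_smul, inv_mul_cancel₀ h1, one_smul, h2]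
    · rintro s ⟨hs, -⟩ t ⟨ht, -⟩ hst
      have h1 : (1 + s) ^ (k i) = (1 + t) ^ (k i) := inv_injective hst
      have h2 := (pow_left_inj₀ (by linarith : (0:ℝ) ≤ 1 + s) (by linarith : (0:ℝ) ≤ 1 + t)
        (by have := hk i hi; omega : k i ≠ 0)).1 h1
      linarith
  have hU : (⋃ i ∈ I, {s : ℝ | 0 < s ∧ FixVec ((1 + s) ^ (k i) • A i)}).Finite :=
    hI.biUnion hfin
  obtain ⟨s, hs, hs2⟩ := (Set.Ioo_infinite hε).exists_notMem_finite hU
  refine ⟨s, hs.1, hs.2, fun i hi hF => hs2 ?_⟩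
  exact Set.mem_biUnion hi ⟨hs.1, hF⟩

end Pool.Agent.Helper55.OS
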