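import Pool.Agent.Helper55.OS.BaseDeriv
import Pool.Agent.Helper55.OS.ZeroMod
import Pool.Agent.Helper55.OS.ZeroLin

/-!
# OS-Z09 ZeroLower: the periodic points of lower period become nondegenerate for g^n

TASK. PROOF. Put `F(g) = {z | ∃ m, 1 ≤ m ∧ m < n ∧ g^[m] z = z}`, a finite set (finite union), invariant under `g`. Induction on
`N(g) =` the number of the `z ∈ F(g)` with `Bad g n z` (strong induction on this number, for all `g ∈ 𝒰`). If it is `0`, done
(`g' = g`). Otherwise choose such a point `x0`. Take a neighbourhood `U` of `x0` whose closure meets the finite set `F(g)` only in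
`x0` (Hausdorff compact so regular: `closed_nhds_basis`). P2 (`mul_deriv` in BaseDeriv) for `U` gives `ε`; use it with
`B = (1 + s) • id`, `s * ‖id‖ < ε`, `s > 0`: `g' ∈ 𝒰`, `g' = g` off `U`, `g' x0 = g x0`, `df g' x0 = (1 + s) • df g x0`.
The orbits of the points of `F(g)` stay in `F(g)`, so by OS-Z07 for `z ∈ F(g)` all `g'^[i] z = g^[i] z`, and
`dn g' n z = (1 + s)^(k z) • dn g n z`, `k z` = number of the `i < n` with `g^[i] z = x0`. So for every `m < n`, `m ≥ 1`,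
the fixed points of `g^[m]` are fixed points of `g'^[m]`; both sets are finite and have equally many elements (`CountStable`):
they are equal (`Set.Finite.eq_of_subset_of_ncard_le` or `Finset.eq_of_subset_of_card_le`). So `F(g') = F(g)`, with the same
iterates on it. For `z ∈ F(g)` with `k z = 0` : `Bad g' n z ↔ Bad g n z`. For `z ∈ F(g)` with `k z ≥ 1` : choose `s` by OS-Z08
(`I = F(g)` with `k z ≥ 1`, `A z = dn g n z`) such that `¬ FixVec (dn g' n z)`: not bad. `k x0 ≥ 1` (`i = 0`, `n ≥ 1`; there is a bad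
point so `n > m ≥ 1`). Hence the bad points of `g'` in `F(g')` are among those of `g`, and `x0` is no longer one: `N(g') < N(g)`.
-/

open Set Topology Manifold ContDiff Filter

namespace Pool.Agent.Helper55.OS

variable {d : ℕ} {M : Type} [TopologicalSpace M] [ChartedSpace (E d) M] [IsManifold (𝓡 d) ∞ M]
  [T2Space M] [CompactSpace M]

/-- the points of period less than `n` -/
private def lowP (n : ℕ) (g : Dif d M) : Set M :=
  {z | ∃ m, 1 ≤ m ∧ m < n ∧ (g : M → M)^[m] z = z}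

omit [IsManifold (𝓡 d) ∞ M] [T2Space M] [CompactSpace M] in
private theorem lowP_finite (𝒰 : Set (Dif d M)) (n : ℕ)
    (hfin : ∀ m, 1 ≤ m → m < n → ∀ g ∈ 𝒰, {x : M | (g : M → M)^[m] x = x}.Finite)
    (g : Dif d M) (hg : g ∈ 𝒰) : (lowP n g).Finite := by
  have h1 : lowP n g ⊆ ⋃ m ∈ Finset.Ico 1 n, {x : M | (g : M → M)^[m] x = x} := by
    rintro z ⟨m, hm1, hmn, hz⟩
    exact mem_biUnion (Finset.mem_coe.2 (Finset.mem_Ico.2 ⟨hm1, hmn⟩)) hz
  refine Set.Finite.subset (Set.Finite.biUnion (Finset.finite_toSet _) fun m hm => ?_) h1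
  have hm' := Finset.mem_Ico.1 (Finset.mem_coe.1 hm)
  exact hfin m hm'.1 hm'.2 g hg

omit [IsManifold (𝓡 d) ∞ M] [T2Space M] [CompactSpace M] in
private theorem lowP_iter {n : ℕ} {g : Dif d M} {z : M} (hz : z ∈ lowP n g) (i : ℕ) :
    (g : M → M)^[i] z ∈ lowP n g := by
  obtain ⟨m, hm1, hmn, hz⟩ := hz
  refine ⟨m, hm1, hmn, ?_⟩
  rw [← Function.iterate_add_apply, add_comm, Function.iterate_add_apply, hz]

private theorem lower_one (𝒰 : Set (Dif d M)) (h𝒰 : IsOpen[smoothTop d M] 𝒰)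
    (hcs : CountStable 𝒰) (n : ℕ)
    (hfin : ∀ m, 1 ≤ m → m < n → ∀ g ∈ 𝒰, {x : M | (g : M → M)^[m] x = x}.Finite)
    (g : Dif d M) (hg : g ∈ 𝒰) (x0 : M) (hx0 : x0 ∈ lowP n g) (hbad : Bad g n x0) :
    ∃ g' ∈ 𝒰, {z | z ∈ lowP n g' ∧ Bad g' n z} ⊂ {z | z ∈ lowP n g ∧ Bad g n z} := by
  classical
  have hF := lowP_finite 𝒰 n hfin g hg
  have hn : 0 < n := by
    obtain ⟨m, _, hmn, _⟩ := hx0
    omega
  have hnb : (lowP n g \ {x0})ᶜ ∈ 𝓝 x0 := by
    refine (hF.subset sdiff_subset).isClosed.isOpen_compl.mem_nhds ?_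
    intro h
    exact h.2 rfl
  obtain ⟨U, hU, hUc, hUs⟩ := exists_mem_nhds_isClosed_subset hnb
  have hUF : ∀ z ∈ lowP n g, z = x0 ∨ z ∉ closure U := by
    intro z hz
    by_cases h : z = x0
    · exact Or.inl h
    · right
      rw [hUc.closure_eq]
      intro hzU
      exact hUs hzU ⟨hz, h⟩
  obtain ⟨ε, hε, hB⟩ := mul_deriv g 𝒰 h𝒰 hg x0 U hU
  obtain ⟨k, hk⟩ : ∃ k : M → ℕ, ∀ z, k z =
      ((Finset.range n).filter (fun i => (g : M → M)^[i] z = x0)).card := ⟨_, fun _ => rfl⟩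
  obtain ⟨s, hs0, hsε, hs⟩ := exists_scalar {z | z ∈ lowP n g ∧ 1 ≤ k z}
    (hF.subset fun z hz => hz.1) (fun z => dn (d := d) (g : M → M) n z) k (fun z hz => hz.2) ε hε
  obtain ⟨g', hg', hoff, hgx, hder⟩ := hB ((1 + s) • ContinuousLinearMap.id ℝ (E d)) (by
    have h1 : (1 + s) • ContinuousLinearMap.id ℝ (E d) - ContinuousLinearMap.id ℝ (E d) =
        s • ContinuousLinearMap.id ℝ (E d) := by
      ext v
      simp [add_mul]
    rw [h1, norm_smul, Real.norm_of_nonneg hs0.le]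
    calc s * ‖ContinuousLinearMap.id ℝ (E d)‖ ≤ s * 1 :=
          mul_le_mul_of_nonneg_left ContinuousLinearMap.norm_id_le hs0.le
      _ < ε := by rwa [mul_one])
  have hder' : df (d := d) (g' : M → M) x0 = (1 + s) • df (d := d) (g : M → M) x0 := by
    rw [hder]
    ext v
    simp
  have hit : ∀ z ∈ lowP n g, ∀ i, (g' : M → M)^[i] z = (g : M → M)^[i] z := fun z hz i =>
    iterate_modify g g' U x0 hoff hgx i z fun j _ => hUF _ (lowP_iter hz j)
  have hdn : ∀ z ∈ lowP n g,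
      dn (d := d) (g' : M → M) n z = (1 + s) ^ k z • dn (d := d) (g : M → M) n z := by
    intro z hz
    rw [hk z]
    exact dn_modify g g' U x0 hoff hgx s hder' n z fun j _ => hUF _ (lowP_iter hz j)
  have hFm : ∀ m, 1 ≤ m → m < n → {x : M | (g : M → M)^[m] x = x} =
      {x : M | (g' : M → M)^[m] x = x} := by
    intro m hm1 hmn
    refine Set.eq_of_subset_of_ncard_le ?_ ?_ (hfin m hm1 hmn g' hg')
    · intro x hx
      have h1 : (g' : M → M)^[m] x = (g : M → M)^[m] x := hit x ⟨m, hm1, hmn, hx⟩ m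
      exact h1.trans hx
    · obtain ⟨e⟩ := hcs g hg g' hg' m hm1
      have h1 := Nat.card_congr e
      rw [Nat.card_coe_set_eq, Nat.card_coe_set_eq] at h1
      exact h1.ge
  have hsub : ∀ z, z ∈ lowP n g' → z ∈ lowP n g := by
    rintro z ⟨m, hm1, hmn, hz⟩
    refine ⟨m, hm1, hmn, ?_⟩
    have h1 : z ∈ {x : M | (g' : M → M)^[m] x = x} := hz
    rw [← hFm m hm1 hmn] at h1
    exact h1
  have hk0 : ∀ z, z ∈ lowP n g' ∧ Bad g' n z → k z = 0 := by
    rintro z ⟨hz, hb⟩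
    by_contra h0
    refine hs z ⟨hsub z hz, by omega⟩ ?_
    have h1 := hb.2
    rw [hdn z (hsub z hz)] at h1
    exact h1
  refine ⟨g', hg', ?_, ?_⟩
  · intro z hz
    have hzg := hsub z hz.1
    refine ⟨hzg, ?_, ?_⟩
    · rw [← hit z hzg n]
      exact hz.2.1
    · have h1 := hz.2.2
      rw [hdn z hzg, hk0 z hz, pow_zero, one_smul] at h1
      exact h1
  · intro hle
    have h1 := hk0 x0 (hle ⟨hx0, hbad⟩)
    rw [hk x0, Finset.card_eq_zero] at h1
    have h2 : 0 ∈ (Finset.range n).filter (fun i => (g : M → M)^[i] x0 = x0) := by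
      rw [Finset.mem_filter, Finset.mem_range]
      exact ⟨hn, rfl⟩
    rw [h1] at h2
    exact Finset.notMem_empty _ h2

theorem lower_step (𝒰 : Set (Dif d M)) (h𝒰 : IsOpen[smoothTop d M] 𝒰) (hcs : CountStable 𝒰)
    (n : ℕ)
    (hfin : ∀ m, 1 ≤ m → m < n → ∀ g ∈ 𝒰, {x : M | (g : M → M)^[m] x = x}.Finite)
    (g : Dif d M) (hg : g ∈ 𝒰) :
    ∃ g' ∈ 𝒰, ∀ z m, 1 ≤ m → m < n → (g' : M → M)^[m] z = z → ¬ Bad g' n z := by
  have main : ∀ N : ℕ, ∀ g ∈ 𝒰, {z | z ∈ lowP n g ∧ Bad g n z}.ncard = N →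
      ∃ g' ∈ 𝒰, ∀ z m, 1 ≤ m → m < n → (g' : M → M)^[m] z = z → ¬ Bad g' n z := by
    intro N
    induction N using Nat.strong_induction_on with
    | _ N ih =>
      intro g hg hN
      by_cases hex : ∃ x0, x0 ∈ lowP n g ∧ Bad g n x0
      · obtain ⟨x0, hx0, hbad⟩ := hex
        obtain ⟨g', hg', hlt⟩ := lower_one 𝒰 h𝒰 hcs n hfin g hg x0 hx0 hbad
        have h1 := Set.ncard_lt_ncard hlt
          ((lowP_finite 𝒰 n hfin g hg).subset fun z hz => hz.1)
        rw [hN] at h1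
        exact ih _ h1 g' hg' rfl
      · push Not at hex
        exact ⟨g, hg, fun z m hm1 hmn hz => hex z ⟨m, hm1, hmn, hz⟩⟩
  exact main _ g hg rfl

end Pool.Agent.Helper55.OS
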